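import Pool.Agent.CW.Defs

/-! Basic lemmas on induced paths shared by the modules of `S08819`. -/

set_option autoImplicit false

namespace Pool.Agent.CW

variable {V : Type} {G : SimpleGraph V}

theorem Path4.symm {a b c d : V} (h : Path4 G a b c d) : Path4 G d c b a := by
  obtain ⟨h1, h2, h3, h4, h5, h6, h7, h8, h9⟩ := h
  exact ⟨h3.symm, h2.symm, h1.symm, fun h => h6 h.symm, fun h => h5 h.symm,
    fun h => h4 h.symm, h9.symm, h8.symm, h7.symm⟩

theorem Path4.compl {a b c d : V} (h : Path4 G a b c d) : Path4 Gᶜ b d a c := by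
  obtain ⟨h1, h2, h3, h4, h5, h6, h7, h8, h9⟩ := h
  refine ⟨?_, ?_, ?_, ?_, ?_, ?_, ?_, ?_, ?_⟩
  · exact (SimpleGraph.compl_adj _ _ _).2 ⟨h9, h6⟩
  · exact (SimpleGraph.compl_adj _ _ _).2 ⟨h8.symm, fun h => h5 h.symm⟩
  · exact (SimpleGraph.compl_adj _ _ _).2 ⟨h7, h4⟩
  · exact fun h => ((SimpleGraph.compl_adj _ _ _).1 h).2 h1.symm
  · exact fun h => ((SimpleGraph.compl_adj _ _ _).1 h).2 h2
  · exact fun h => ((SimpleGraph.compl_adj _ _ _).1 h).2 h3.symm
  · exact h1.ne'
  · exact h2.ne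
  · exact h3.ne'

theorem isP4_of_path {a b c d : V} [DecidableEq V] (h : Path4 G a b c d) :
    IsP4 G {a, b, c, d} :=
  ⟨a, b, c, d, h, fun x => by simp⟩

theorem IsP4.compl {A : Finset V} (h : IsP4 G A) : IsP4 Gᶜ A := by
  obtain ⟨a, b, c, d, h, hA⟩ := h
  exact ⟨b, d, a, c, h.compl, fun x => by rw [hA]; tauto⟩

theorem IsP4.of_compl {A : Finset V} (h : IsP4 Gᶜ A) : IsP4 G A := by
  have := h.compl
  rwa [compl_compl] at this

theorem isP4_compl_iff {A : Finset V} : IsP4 Gᶜ A ↔ IsP4 G A :=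
  ⟨IsP4.of_compl, IsP4.compl⟩

theorem IsP4.card {A : Finset V} (h : IsP4 G A) : A.card = 4 := by
  classical
  obtain ⟨a, b, c, d, ⟨h1, h2, h3, h4, h5, h6, h7, h8, h9⟩, hA⟩ := h
  have : A = {a, b, c, d} := by ext x; rw [hA]; simp
  rw [this, Finset.card_insert_of_notMem, Finset.card_insert_of_notMem,
    Finset.card_insert_of_notMem, Finset.card_singleton]
  · simp [h3.ne]
  · simp [h2.ne, h9]
  · simp [h1.ne, h7, h8]

theorem Adj4.symm {A B : Finset V} (h : Adj4 G A B) : Adj4 G B A := by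
  obtain ⟨hA, hB, x, y, hx, hy, hz⟩ := h
  refine ⟨hB, hA, y, x, (hz y).2 (Or.inl rfl), ?_, ?_⟩
  · rw [hz]
    rintro (h | h)
    · exact hy (h ▸ hx)
    · exact h.2 rfl
  · intro z
    rw [hz z]
    constructor
    · intro h
      by_cases hzx : z = x
      · exact Or.inl hzx
      · exact Or.inr ⟨Or.inr ⟨h, hzx⟩, fun e => hy (e ▸ h)⟩
    · rintro (h | ⟨h | h, h'⟩)
      · exact h ▸ hx
      · exact absurd h h'
      · exact h.1

theorem Adj4.compl {A B : Finset V} (h : Adj4 G A B) : Adj4 Gᶜ A B :=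
  ⟨h.1.compl, h.2.1.compl, h.2.2⟩

theorem adj4_compl_iff {A B : Finset V} : Adj4 Gᶜ A B ↔ Adj4 G A B :=
  ⟨fun h => by have := h.compl; rwa [compl_compl] at this, Adj4.compl⟩

theorem Walk4.left {n : ℕ} {A B : Finset V} (h : Walk4 G n A B) : IsP4 G A := by
  induction h with
  | zero h => exact h
  | succ _ _ ih => exact ih

theorem Walk4.right {n : ℕ} {A B : Finset V} (h : Walk4 G n A B) : IsP4 G B := by
  cases h with
  | zero h => exact h
  | succ _ h => exact h.2.1

theorem Walk4.compl {n : ℕ} {A B : Finset V} (h : Walk4 G n A B) : Walk4 Gᶜ n A B := by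
  induction h with
  | zero h => exact Walk4.zero h.compl
  | succ _ h ih => exact Walk4.succ ih h.compl

theorem Walk4.trans {n m : ℕ} {A B C : Finset V} (h : Walk4 G n A B) (h' : Walk4 G m B C) :
    Walk4 G (n + m) A C := by
  induction h' with
  | zero _ => exact h
  | succ _ h2 ih => exact Walk4.succ (ih h) h2

theorem Adj4.walk {A B : Finset V} (h : Adj4 G A B) : Walk4 G 1 A B :=
  Walk4.succ (Walk4.zero h.1) h

/-- Replacing one vertex of an induced path by an outside vertex. -/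
theorem adj4_of {B C : Finset V} {x y : V} (hB : IsP4 G B) (hC : IsP4 G C) (hx : x ∈ B)
    (hy : y ∉ B) (hz : ∀ z, z ∈ C ↔ z = y ∨ (z ∈ B ∧ z ≠ x)) : Adj4 G B C :=
  ⟨hB, hC, x, y, hx, hy, hz⟩

/-- The three ways in which a non-partner sees an induced path. -/
theorem type_of_path {a b c d w : V} (h : Path4 G a b c d) (ha : w ≠ a) (hb : w ≠ b)
    (hc : w ≠ c) (hd : w ≠ d)
    (hno : ∀ p q r : V, (p = a ∨ p = b ∨ p = c ∨ p = d) → (q = a ∨ q = b ∨ q = c ∨ q = d) →
      (r = a ∨ r = b ∨ r = c ∨ r = d) → ¬ Path4 G w p q r ∧ ¬ Path4 G p w q r) :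
    (¬ G.Adj w a ∧ ¬ G.Adj w b ∧ ¬ G.Adj w c ∧ ¬ G.Adj w d) ∨
    (G.Adj w a ∧ G.Adj w b ∧ G.Adj w c ∧ G.Adj w d) ∨
    (¬ G.Adj w a ∧ G.Adj w b ∧ G.Adj w c ∧ ¬ G.Adj w d) := by
  obtain ⟨h1, h2, h3, h4, h5, h6, h7, h8, h9⟩ := h
  have h4' : ¬ G.Adj c a := fun h => h4 h.symm
  have h5' : ¬ G.Adj d a := fun h => h5 h.symm
  have h6' : ¬ G.Adj d b := fun h => h6 h.symm
  by_cases wa : G.Adj w a <;> by_cases wb : G.Adj w b <;> by_cases wc : G.Adj w c <;>
    by_cases wd : G.Adj w d
  · exact Or.inr (Or.inl ⟨wa, wb, wc, wd⟩)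
  · -- 1110 : a - w - c - d
    exact absurd ⟨wa.symm, wc, h3, h4, h5, wd, h7, h8, hd⟩ (hno a c d (by simp) (by simp) (by simp)).2
  · -- 1101 : a - w - d - c
    exact absurd ⟨wa.symm, wd, h3.symm, h5, h4, wc, h8, h7, hc⟩
      (hno a d c (by simp) (by simp) (by simp)).2
  · -- 1100 : w - b - c - d
    exact absurd ⟨wb, h2, h3, wc, wd, h6, hc, hd, h9⟩ (hno b c d (by simp) (by simp) (by simp)).1
  · -- 1011 : d - w - a - b
    exact absurd ⟨wd.symm, wa, h1, h5', h6', wb, h8.symm, h9.symm, hb⟩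
      (hno d a b (by simp) (by simp) (by simp)).2
  · -- 1010 : a - w - c - d
    exact absurd ⟨wa.symm, wc, h3, h4, h5, wd, h7, h8, hd⟩ (hno a c d (by simp) (by simp) (by simp)).2
  · -- 1001 : w - a - b - c
    exact absurd ⟨wa, h1, h2, wb, wc, h4, hb, hc, h7⟩ (hno a b c (by simp) (by simp) (by simp)).1
  · -- 1000 : w - a - b - c
    exact absurd ⟨wa, h1, h2, wb, wc, h4, hb, hc, h7⟩ (hno a b c (by simp) (by simp) (by simp)).1
  · -- 0111 : d - w - b - a
    exact absurd ⟨wd.symm, wb, h1.symm, h6', h5', wa, h9.symm, h8.symm, ha⟩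
      (hno d b a (by simp) (by simp) (by simp)).2
  · exact Or.inr (Or.inr ⟨wa, wb, wc, wd⟩)
  · -- 0101 : d - w - b - a
    exact absurd ⟨wd.symm, wb, h1.symm, h6', h5', wa, h9.symm, h8.symm, ha⟩
      (hno d b a (by simp) (by simp) (by simp)).2
  · -- 0100 : w - b - c - d
    exact absurd ⟨wb, h2, h3, wc, wd, h6, hc, hd, h9⟩ (hno b c d (by simp) (by simp) (by simp)).1
  · -- 0011 : w - c - b - a
    exact absurd ⟨wc, h2.symm, h1.symm, wb, wa, h4', hb, ha, h7.symm⟩
      (hno c b a (by simp) (by simp) (by simp)).1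
  · -- 0010 : w - c - b - a
    exact absurd ⟨wc, h2.symm, h1.symm, wb, wa, h4', hb, ha, h7.symm⟩
      (hno c b a (by simp) (by simp) (by simp)).1
  · -- 0001 : w - d - c - b
    exact absurd ⟨wd, h3.symm, h2.symm, wc, wb, h6', hc, hb, h9.symm⟩
      (hno d c b (by simp) (by simp) (by simp)).1
  · exact Or.inl ⟨wa, wb, wc, wd⟩

/-- Midpoints of an induced path. -/
def Mid (G : SimpleGraph V) (B : Finset V) (s : V) : Prop :=
  ∃ p ∈ B, ∃ q ∈ B, p ≠ q ∧ G.Adj s p ∧ G.Adj s q

theorem mid_iff {a b c d : V} {B : Finset V} (h : Path4 G a b c d)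
    (hB : ∀ x, x ∈ B ↔ x = a ∨ x = b ∨ x = c ∨ x = d) {s : V} (hs : s ∈ B) :
    Mid G B s ↔ s = b ∨ s = c := by
  obtain ⟨h1, h2, h3, h4, h5, h6, h7, h8, h9⟩ := h
  have h4' : ¬ G.Adj c a := fun h => h4 h.symm
  have h5' : ¬ G.Adj d a := fun h => h5 h.symm
  have h6' : ¬ G.Adj d b := fun h => h6 h.symm
  constructor
  · rintro ⟨p, hp, q, hq, hpq, hsp, hsq⟩
    rw [hB] at hs hp hq
    rcases hs with rfl | rfl | rfl | rfl
    · exfalso
      have e1 : p = b := by
        rcases hp with rfl | rfl | rfl | rfl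
        · exact absurd hsp (G.irrefl)
        · rfl
        · exact absurd hsp h4
        · exact absurd hsp h5
      have e2 : q = b := by
        rcases hq with rfl | rfl | rfl | rfl
        · exact absurd hsq (G.irrefl)
        · rfl
        · exact absurd hsq h4
        · exact absurd hsq h5
      exact hpq (e1.trans e2.symm)
    · exact Or.inl rfl
    · exact Or.inr rfl
    · exfalso
      have e1 : p = c := by
        rcases hp with rfl | rfl | rfl | rfl
        · exact absurd hsp h5'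
        · exact absurd hsp h6'
        · rfl
        · exact absurd hsp (G.irrefl)
      have e2 : q = c := by
        rcases hq with rfl | rfl | rfl | rfl
        · exact absurd hsq h5'
        · exact absurd hsq h6'
        · rfl
        · exact absurd hsq (G.irrefl)
      exact hpq (e1.trans e2.symm)
  · rintro (rfl | rfl)
    · exact ⟨a, (hB _).2 (by simp), c, (hB _).2 (by simp), h7, h1.symm, h2⟩
    · exact ⟨b, (hB _).2 (by simp), d, (hB _).2 (by simp), h9, h2.symm, h3⟩

/-- A vertex outside an induced path `B` which lies in no induced path with three vertices of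
`B` is null, total or exactly adjacent to the midpoints. -/
theorem type_of_no_partner {B : Finset V} (hB : IsP4 G B) {w : V} (hw : w ∉ B)
    (hno : ∀ C, Adj4 G B C → w ∉ C) :
    (∀ s ∈ B, ¬ G.Adj w s) ∨ (∀ s ∈ B, G.Adj w s) ∨ (∀ s ∈ B, G.Adj w s ↔ Mid G B s) := by
  classical
  obtain ⟨a, b, c, d, h, hBB⟩ := hB
  have hne : ∀ s ∈ B, w ≠ s := fun s hs e => hw (e ▸ hs)
  have ha : a ∈ B := (hBB a).2 (by simp)
  have hb : b ∈ B := (hBB b).2 (by simp)
  have hc : c ∈ B := (hBB c).2 (by simp)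
  have hd : d ∈ B := (hBB d).2 (by simp)
  -- three distinct vertices of `B` and `w` form an induced path: contradiction
  have key : ∀ p q r : V, p ∈ B → q ∈ B → r ∈ B → p ≠ q → p ≠ r → q ≠ r →
      ¬ IsP4 G {w, p, q, r} := by
    intro p q r hp hq hr hpq hpr hqr hC
    have hcard : B.card = 4 := IsP4.card ⟨a, b, c, d, h, hBB⟩
    have h3 : ({p, q, r} : Finset V).card = 3 := by
      rw [Finset.card_insert_of_notMem, Finset.card_insert_of_notMem, Finset.card_singleton]
      · simpa using hqr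
      · simp [hpq, hpr]
    have hsub : ({p, q, r} : Finset V) ⊆ B := by
      intro z hz
      simp only [Finset.mem_insert, Finset.mem_singleton] at hz
      rcases hz with rfl | rfl | rfl <;> assumption
    have hd1 : (B \ {p, q, r}).card = 1 := by
      rw [Finset.card_sdiff_of_subset hsub, hcard, h3]
    obtain ⟨x, hx⟩ := Finset.card_eq_one.1 hd1
    have hxB : x ∈ B \ {p, q, r} := by rw [hx]; simp
    have hxB' := (Finset.mem_sdiff.1 hxB)
    refine hno {w, p, q, r} ⟨⟨a, b, c, d, h, hBB⟩, hC, x, w, hxB'.1, hw, ?_⟩ (by simp)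
    intro z
    constructor
    · intro hz
      simp only [Finset.mem_insert, Finset.mem_singleton] at hz
      rcases hz with rfl | rfl | rfl | rfl
      · exact Or.inl rfl
      · exact Or.inr ⟨hp, fun e => hxB'.2 (by simp [e])⟩
      · exact Or.inr ⟨hq, fun e => hxB'.2 (by simp [e])⟩
      · exact Or.inr ⟨hr, fun e => hxB'.2 (by simp [e])⟩
    · rintro (rfl | ⟨hz, hzx⟩)
      · simp
      · have : z ∉ B \ {p, q, r} := by rw [hx]; simpa using hzx
        rw [Finset.mem_sdiff] at this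
        have h' : z ∈ ({p, q, r} : Finset V) := by
          by_contra h''
          exact this ⟨hz, h''⟩
        exact Finset.mem_insert_of_mem h'
  have h' := h
  obtain ⟨h1, h2, h3, h4, h5, h6, h7, h8, h9⟩ := h'
  rcases type_of_path h (hne a ha) (hne b hb) (hne c hc) (hne d hd) (by
    intro p q r hp hq hr
    have hp' := (hBB p).2 hp
    have hq' := (hBB q).2 hq
    have hr' := (hBB r).2 hr
    constructor
    · intro hP
      refine key p q r hp' hq' hr' hP.2.1.ne hP.2.2.2.2.2.2.2.2 hP.2.2.1.ne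
        (isP4_of_path hP)
    · intro hP
      refine key p q r hp' hq' hr' hP.2.2.2.2.2.2.1 hP.2.2.2.2.2.2.2.1 hP.2.2.1.ne ?_
      exact ⟨p, w, q, r, hP, fun x => by
        simp only [Finset.mem_insert, Finset.mem_singleton]; exact or_left_comm⟩) with H | H | H
  · left
    intro s hs
    rcases (hBB s).1 hs with rfl | rfl | rfl | rfl
    · exact H.1
    · exact H.2.1
    · exact H.2.2.1
    · exact H.2.2.2
  · right; left
    intro s hs
    rcases (hBB s).1 hs with rfl | rfl | rfl | rfl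
    · exact H.1
    · exact H.2.1
    · exact H.2.2.1
    · exact H.2.2.2
  · right; right
    intro s hs
    rw [mid_iff h hBB hs]
    rcases (hBB s).1 hs with rfl | rfl | rfl | rfl
    · constructor
      · intro h'; exact absurd h' H.1
      · rintro (e | e)
        · exact absurd e h1.ne
        · exact absurd e h7
    · simp [H.2.1]
    · simp [H.2.2.1]
    · constructor
      · intro h'; exact absurd h' H.2.2.2
      · rintro (e | e)
        · exact absurd e.symm h9
        · exact absurd e h3.ne'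

theorem exists_mid {B : Finset V} (hB : IsP4 G B) {p q r : V} (hp : p ∈ B) (hq : q ∈ B)
    (hr : r ∈ B) (hpq : p ≠ q) (hpr : p ≠ r) (hqr : q ≠ r) :
    (Mid G B p ∨ Mid G B q ∨ Mid G B r) ∧ (¬ Mid G B p ∨ ¬ Mid G B q ∨ ¬ Mid G B r) := by
  obtain ⟨a, b, c, d, h, hBB⟩ := hB
  rw [mid_iff h hBB hp, mid_iff h hBB hq, mid_iff h hBB hr]
  rw [hBB] at hp hq hr
  constructor
  · by_contra hcon
    simp only [not_or] at hcon
    obtain ⟨⟨p1, p2⟩, ⟨q1, q2⟩, r1, r2⟩ := hcon
    have hp' : p = a ∨ p = d := by tauto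
    have hq' : q = a ∨ q = d := by tauto
    have hr' : r = a ∨ r = d := by tauto
    rcases hp' with e1 | e1 <;> rcases hq' with e2 | e2 <;> rcases hr' with e3 | e3 <;>
      first
        | exact hpq (e1.trans e2.symm)
        | exact hpr (e1.trans e3.symm)
        | exact hqr (e2.trans e3.symm)
  · by_contra hcon
    have hp' : p = b ∨ p = c := by by_contra h'; exact hcon (Or.inl h')
    have hq' : q = b ∨ q = c := by by_contra h'; exact hcon (Or.inr (Or.inl h'))
    have hr' : r = b ∨ r = c := by by_contra h'; exact hcon (Or.inr (Or.inr h'))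
    rcases hp' with e1 | e1 <;> rcases hq' with e2 | e2 <;> rcases hr' with e3 | e3 <;>
      first
        | exact hpq (e1.trans e2.symm)
        | exact hpr (e1.trans e3.symm)
        | exact hqr (e2.trans e3.symm)

end Pool.Agent.CW
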