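import Mathlib

/-! Shared definitions for `S08819` (MP_563ce7_co). -/

set_option autoImplicit false

namespace Pool.Agent.CW

variable {V : Type}

/-- `a - b - c - d` is an induced path of `G`. -/
def Path4 (G : SimpleGraph V) (a b c d : V) : Prop :=
  G.Adj a b ∧ G.Adj b c ∧ G.Adj c d ∧ ¬ G.Adj a c ∧ ¬ G.Adj a d ∧ ¬ G.Adj b d ∧
    a ≠ c ∧ a ≠ d ∧ b ≠ d

/-- The finset `A` induces a path on four vertices. -/
def IsP4 (G : SimpleGraph V) (A : Finset V) : Prop :=
  ∃ a b c d, Path4 G a b c d ∧ ∀ x, x ∈ A ↔ x = a ∨ x = b ∨ x = c ∨ x = d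

/-- Two induced paths sharing exactly three vertices. -/
def Adj4 (G : SimpleGraph V) (A B : Finset V) : Prop :=
  IsP4 G A ∧ IsP4 G B ∧ ∃ x y, x ∈ A ∧ y ∉ A ∧ ∀ z, z ∈ B ↔ z = y ∨ (z ∈ A ∧ z ≠ x)

/-- Walks in the graph of induced paths. -/
inductive Walk4 (G : SimpleGraph V) : ℕ → Finset V → Finset V → Prop
  | zero {A : Finset V} : IsP4 G A → Walk4 G 0 A A
  | succ {n : ℕ} {A B C : Finset V} : Walk4 G n A B → Adj4 G B C → Walk4 G (n + 1) A C

/-- Distance exactly `n` in the graph of induced paths. -/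
def Dist4 (G : SimpleGraph V) (n : ℕ) (A B : Finset V) : Prop :=
  Walk4 G n A B ∧ ∀ m < n, ¬ Walk4 G m A B

/-- The local sparsity hypothesis. -/
def Sparse (q : ℕ) (G : SimpleGraph V) : Prop :=
  ∀ S : Finset V, S.card ≤ q → ∀ F : Finset (Finset V),
    (∀ A ∈ F, IsP4 G A ∧ A ⊆ S) → F.card ≤ q - 2

/-- Sets grown from an induced path together with their two sides `σ = true` (the side of the
midpoints) and `σ = false`. -/
inductive Good (G : SimpleGraph V) (σ : V → Bool) : List V → Prop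
  | base {a b c d : V} : Path4 G a b c d → σ a = false → σ b = true → σ c = true →
      σ d = false → Good G σ [a, b, c, d]
  | part {l : List V} {x a b c : V} {A : Finset V} : Good G σ l → x ∉ l → a ∈ l → b ∈ l →
      c ∈ l → IsP4 G A → (∀ z, z ∈ A ↔ z = x ∨ z = a ∨ z = b ∨ z = c) →
      σ x = xor (σ a) (xor (σ b) (σ c)) → Good G σ (x :: l)
  | pairN {l : List V} {m n : V} : Good G σ l → m ∉ l → n ∉ l → G.Adj m n →
      (∀ s ∈ l, G.Adj m s ↔ σ s = true) → (∀ s ∈ l, ¬ G.Adj n s) → σ m = true →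
      σ n = false → Good G σ (n :: m :: l)
  | pairT {l : List V} {m t : V} : Good G σ l → m ∉ l → t ∉ l → m ≠ t → ¬ G.Adj m t →
      (∀ s ∈ l, G.Adj m s ↔ σ s = true) → (∀ s ∈ l, G.Adj t s) → σ m = false →
      σ t = true → Good G σ (t :: m :: l)

/-- The local condition used in all finite checks: grown sets on `5` to `8` vertices carry at
most `size - 2` induced paths. -/
def Star (G : SimpleGraph V) : Prop :=
  ∀ (σ : V → Bool) (l : List V), Good G σ l → 5 ≤ l.length → l.length ≤ 8 →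
    ∀ F : Finset (Finset V), (∀ A ∈ F, IsP4 G A ∧ ∀ x ∈ A, x ∈ l) → F.card + 2 ≤ l.length

/-- Modules. -/
def IsMod (G : SimpleGraph V) (M : Set V) : Prop :=
  ∀ v ∉ M, ∀ x ∈ M, ∀ y ∈ M, G.Adj v x ↔ G.Adj v y

/-- Prime graphs: only trivial modules. -/
def PrimeG (G : SimpleGraph V) : Prop :=
  ∀ M : Set V, IsMod G M → M.Subsingleton ∨ M = Set.univ

/-- Thin spider without head: `x` is the clique, `y` the leaves. -/
def ThinSp {n : ℕ} (G : SimpleGraph V) (x y : Fin n → V) : Prop :=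
  (∀ i j, i ≠ j → G.Adj (x i) (x j)) ∧ (∀ i j, ¬ G.Adj (y i) (y j)) ∧
    (∀ i j, i ≠ j → y i ≠ y j) ∧ (∀ i j, x i ≠ y j) ∧ (∀ i j, G.Adj (x i) (y j) ↔ i = j)

/-- No thin and no thick spider with four legs. -/
def NoSp4 (G : SimpleGraph V) : Prop :=
  ∀ x y : Fin 4 → V, ¬ ThinSp G x y ∧ ¬ ThinSp Gᶜ x y

/-- Breaking sequences of a triple `b - c - d` with representative `r`. -/
inductive Brk (G : SimpleGraph V) (r : V) : ℕ → List V → Prop
  | base {b c d : V} : G.Adj b c → G.Adj c d → ¬ G.Adj b d → b ≠ d → G.Adj r b → ¬ G.Adj r c →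
      ¬ G.Adj r d → r ≠ c → r ≠ d → Brk G r 0 [b, c, d]
  | step {n : ℕ} {l : List V} {z w : V} : Brk G r n l → z ∉ l → z ≠ r → w ∉ l → w ≠ r →
      z ≠ w → (∀ k ∈ l, G.Adj w k ↔ G.Adj r k) → (∃ k ∈ l, ¬ (G.Adj z k ↔ G.Adj r k)) →
      ¬ (G.Adj z w ↔ G.Adj z r) → Brk G r (n + 1) (w :: z :: l)

/-- Mutual thin clones: outside vertices do not distinguish the legs. -/
def Clones {n : ℕ} (G : SimpleGraph V) (x y : Fin n → V) : Prop :=
  ThinSp G x y ∧ ∀ v, (∀ i, v ≠ x i ∧ v ≠ y i) → ∀ i j,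
    (G.Adj v (x i) ↔ G.Adj v (x j)) ∧ (G.Adj v (y i) ↔ G.Adj v (y j))

/-- At most `c` different rows from `A` to its complement. -/
def FewRows (G : SimpleGraph V) (c : ℕ) (A : Set V) : Prop :=
  ∃ f : V → Fin c, ∀ u ∈ A, ∀ v ∈ A, f u = f v → ∀ w ∉ A, G.Adj u w ↔ G.Adj v w

/-- Decomposition trees all of whose parts have few rows. -/
inductive Dec (G : SimpleGraph V) (c : ℕ) : Set V → Prop
  | empty : Dec G c ∅
  | single (v : V) : Dec G c {v}
  | union {A B : Set V} : Dec G c A → Dec G c B → Disjoint A B → FewRows G c (A ∪ B) →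
      Dec G c (A ∪ B)

/-- `(V, G, l)` is the value of a `k`-label expression (the predicate of the frozen statement). -/
def Built (k : ℕ) (V : Type) (G : SimpleGraph V) (l : V → Fin k) : Prop :=
  ∀ P : ∀ W : Type, SimpleGraph W → (W → Fin k) → Prop,
    P PEmpty ⊥ PEmpty.elim →
    (∀ i : Fin k, P Unit ⊥ (fun _ => i)) →
    (∀ (W₁ W₂ : Type) (G₁ : SimpleGraph W₁) (G₂ : SimpleGraph W₂)
        (l₁ : W₁ → Fin k) (l₂ : W₂ → Fin k),
        P W₁ G₁ l₁ → P W₂ G₂ l₂ →
        P (W₁ ⊕ W₂)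
          (G₁.map Function.Embedding.inl ⊔ G₂.map Function.Embedding.inr)
          (Sum.elim l₁ l₂)) →
    (∀ (W W' : Type) (H : SimpleGraph W) (l' : W → Fin k) (e : W ≃ W'),
        P W H l' → P W' (H.map e.toEmbedding) (l' ∘ e.symm)) →
    (∀ (W : Type) (H : SimpleGraph W) (l' : W → Fin k) (i j : Fin k),
        P W H l' → P W H (fun x => if l' x = i then j else l' x)) →
    (∀ (W : Type) (H : SimpleGraph W) (l' : W → Fin k) (i j : Fin k), i ≠ j →
        P W H l' →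
        P W (H ⊔ SimpleGraph.fromRel (fun x y => l' x = i ∧ l' y = j)) l') →
    P V G l

/-- Clique-width at most `k`. -/
def HasCW (k : ℕ) (V : Type) (G : SimpleGraph V) : Prop := ∃ l : V → Fin k, Built k V G l

/-- The result of replacing every large clone family of `G` by a bounded one: `ρ v` is the
representative of `v` in the reduced graph `H`, `β` gives the blocks. -/
structure Reduction (G : SimpleGraph V) (W : Type) (H : SimpleGraph W) (ρ : V → W)
    (β : W → W) : Prop where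
  prime : PrimeG H
  star : Star H
  noSp : NoSp4 H
  adj : ∀ u v : V, β (ρ u) ≠ β (ρ v) → (G.Adj u v ↔ H.Adj (ρ u) (ρ v))
  two : ∀ r s t : W, β r = β s → β s = β t → r = s ∨ s = t ∨ r = t
  close : ∀ r s : W, β r = β s → r ≠ s → ∀ C : Finset W, IsP4 H C → r ∈ C → s ∉ C →
    ∃ C' : Finset W, Adj4 H C C' ∧ s ∈ C'
  dec : ∀ b : W, Dec G 4 {v : V | β (ρ v) = b}

end Pool.Agent.CW
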