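import Pool.Agent.CW.Defs
import Pool.Agent.Helper27.Growth

/-! Module D for `S08819` (MP_563ce7_co): local sparsity. -/

set_option autoImplicit false

namespace Pool.Agent.CW

open SimpleGraph
open Helper27.CW (P4 PC NF fp mem_fp)

variable {V : Type} {G : SimpleGraph V}

theorem path4_iff {a b c d : V} : Path4 G a b c d ↔ P4 G a b c d := by
  constructor
  · rintro ⟨h1, h2, h3, h4, h5, h6, _⟩
    exact ⟨h1, h2, h3, h4, h5, h6⟩
  · intro h
    have hn := h.ne
    obtain ⟨h1, h2, h3, h4, h5, h6⟩ := h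
    exact ⟨h1, h2, h3, h4, h5, h6, hn.2.1, hn.2.2.1, hn.2.2.2.2.1⟩

theorem isP4_conv {A : Finset V} : IsP4 G A ↔ Helper27.CW.IsP4 G A := by
  classical
  rw [Helper27.CW.isP4_iff]
  constructor
  · rintro ⟨a, b, c, d, h, hA⟩
    refine ⟨a, b, c, d, path4_iff.1 h, ?_⟩
    ext x
    rw [hA]
    simp
  · rintro ⟨a, b, c, d, h, rfl⟩
    refine ⟨a, b, c, d, path4_iff.2 h, ?_⟩
    intro x
    simp

theorem isP4_compl' {A : Finset V} : IsP4 Gᶜ A ↔ IsP4 G A := by
  classical
  rw [isP4_conv, isP4_conv, Helper27.CW.isP4_compl]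

/-- The parity rule for non-partners. -/
theorem parity {y : V} {A : Finset V} (hA : IsP4 G A) (hy : y ∉ A)
    (hno : ∀ B : Finset V, IsP4 G B → y ∈ B → ∃ z ∈ B, z ≠ y ∧ z ∉ A) :
    ∃ a b c d, Path4 G a b c d ∧ (∀ x, x ∈ A ↔ x = a ∨ x = b ∨ x = c ∨ x = d) ∧
      (G.Adj y a ↔ G.Adj y d) ∧ (G.Adj y b ↔ G.Adj y c) ∧ (G.Adj y a → G.Adj y b) := by
  classical
  obtain ⟨a, b, c, d, h, hA⟩ := hA
  have hnf : NF G A y := by
    intro p hp q hq r hr
    have key : ∀ B : Finset V, IsP4 G B → y ∈ B → (∀ z ∈ B, z = y ∨ z ∈ A) → False := by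
      intro B hB hyB hall
      obtain ⟨z, hz, hzy, hzA⟩ := hno B hB hyB
      rcases hall z hz with h' | h'
      · exact hzy h'
      · exact hzA h'
    constructor
    · intro h'
      refine key {y, p, q, r} (isP4_conv.2 h'.isP4) (by simp) ?_
      intro z hz
      simp only [Finset.mem_insert, Finset.mem_singleton] at hz
      rcases hz with rfl | rfl | rfl | rfl
      · exact Or.inl rfl
      · exact Or.inr hp
      · exact Or.inr hq
      · exact Or.inr hr
    · intro h'
      refine key {p, y, q, r} (isP4_conv.2 h'.isP4) (by simp) ?_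
      intro z hz
      simp only [Finset.mem_insert, Finset.mem_singleton] at hz
      rcases hz with rfl | rfl | rfl | rfl
      · exact Or.inr hp
      · exact Or.inl rfl
      · exact Or.inr hq
      · exact Or.inr hr
  have ha : a ∈ A := (hA a).2 (Or.inl rfl)
  have hb : b ∈ A := (hA b).2 (Or.inr (Or.inl rfl))
  have hc : c ∈ A := (hA c).2 (Or.inr (Or.inr (Or.inl rfl)))
  have hd : d ∈ A := (hA d).2 (Or.inr (Or.inr (Or.inr rfl)))
  exact ⟨a, b, c, d, h, hA, hnf.tnm (path4_iff.1 h) ha hb hc hd⟩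

/-- The two sides of a grown set are joined by an edge and by a non-edge. -/
theorem Good.cross {σ : V → Bool} {l : List V} (h : Good G σ l) :
    (∃ s ∈ l, ∃ t ∈ l, σ s = true ∧ σ t = false ∧ G.Adj s t) ∧
    (∃ s ∈ l, ∃ t ∈ l, σ s = true ∧ σ t = false ∧ ¬ G.Adj s t) := by
  induction h with
  | @base a b c d h ha hb hc hd =>
    refine ⟨⟨b, by simp, a, by simp, hb, ha, h.1.symm⟩,
      ⟨b, by simp, d, by simp, hb, hd, h.2.2.2.2.2.1⟩⟩
  | part _ _ _ _ _ _ _ _ ih =>
    obtain ⟨⟨s, hs, t, ht, h1⟩, ⟨s', hs', t', ht', h2⟩⟩ := ih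
    exact ⟨⟨s, List.mem_cons_of_mem _ hs, t, List.mem_cons_of_mem _ ht, h1⟩,
      ⟨s', List.mem_cons_of_mem _ hs', t', List.mem_cons_of_mem _ ht', h2⟩⟩
  | pairN _ _ _ _ _ _ _ _ ih =>
    obtain ⟨⟨s, hs, t, ht, h1⟩, ⟨s', hs', t', ht', h2⟩⟩ := ih
    exact ⟨⟨s, List.mem_cons_of_mem _ (List.mem_cons_of_mem _ hs), t,
      List.mem_cons_of_mem _ (List.mem_cons_of_mem _ ht), h1⟩,
      ⟨s', List.mem_cons_of_mem _ (List.mem_cons_of_mem _ hs'), t',
        List.mem_cons_of_mem _ (List.mem_cons_of_mem _ ht'), h2⟩⟩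
  | pairT _ _ _ _ _ _ _ _ _ ih =>
    obtain ⟨⟨s, hs, t, ht, h1⟩, ⟨s', hs', t', ht', h2⟩⟩ := ih
    exact ⟨⟨s, List.mem_cons_of_mem _ (List.mem_cons_of_mem _ hs), t,
      List.mem_cons_of_mem _ (List.mem_cons_of_mem _ ht), h1⟩,
      ⟨s', List.mem_cons_of_mem _ (List.mem_cons_of_mem _ hs'), t',
        List.mem_cons_of_mem _ (List.mem_cons_of_mem _ ht'), h2⟩⟩

theorem Good.nodup {σ : V → Bool} {l : List V} (h : Good G σ l) : l.Nodup := by
  induction h with
  | @base a b c d h ha hb hc hd =>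
    have hn := (path4_iff.1 h).ne
    simp [hn.1, hn.2.1, hn.2.2.1, hn.2.2.2.1, hn.2.2.2.2.1, hn.2.2.2.2.2]
  | part _ hx _ _ _ _ _ _ ih => exact List.nodup_cons.2 ⟨hx, ih⟩
  | pairN _ hm hn hmn _ _ _ _ ih =>
    refine List.nodup_cons.2 ⟨?_, List.nodup_cons.2 ⟨hm, ih⟩⟩
    rw [List.mem_cons, not_or]
    exact ⟨fun h => hmn.ne h.symm, hn⟩
  | pairT _ hm hn hmn _ _ _ _ _ ih =>
    refine List.nodup_cons.2 ⟨?_, List.nodup_cons.2 ⟨hm, ih⟩⟩
    rw [List.mem_cons, not_or]
    exact ⟨fun h => hmn h.symm, hn⟩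

/-- Grown sets are `p`-connected. -/
theorem Good.pc [DecidableEq V] {σ : V → Bool} {l : List V} (h : Good G σ l) :
    PC G l.toFinset := by
  induction h with
  | @base a b c d h ha hb hc hd =>
    refine PC.base ?_
    have : ([a, b, c, d] : List V).toFinset = {a, b, c, d} := by
      ext x; simp
    rw [this]
    exact (path4_iff.1 h).isP4
  | @part l x a b c A _ hx ha hb hc hA hAm _ ih =>
    have hU : (x :: l).toFinset = l.toFinset ∪ A := by
      ext y
      simp only [List.toFinset_cons, Finset.mem_insert, List.mem_toFinset, Finset.mem_union, hAm]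
      constructor
      · rintro (rfl | h)
        · exact Or.inr (Or.inl rfl)
        · exact Or.inl h
      · rintro (h | rfl | rfl | rfl | rfl)
        · exact Or.inr h
        · exact Or.inl rfl
        · exact Or.inr ha
        · exact Or.inr hb
        · exact Or.inr hc
    rw [hU]
    exact PC.step ih (isP4_conv.1 hA) ⟨a, by simp [ha, hAm]⟩
  | @pairN l m n hg hm hn hmn h1 h2 h3 h4 ih =>
    obtain ⟨⟨s, hs, t, ht, hs1, ht1, hst⟩, _⟩ := hg.cross
    have hP : P4 G t s m n := ⟨hst.symm, ((h1 s hs).2 hs1).symm, hmn,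
      fun h => by have := (h1 t ht).1 h.symm; rw [ht1] at this; exact absurd this (by simp),
      fun h => h2 t ht h.symm, fun h => h2 s hs h.symm⟩
    have hU : (n :: m :: l).toFinset = l.toFinset ∪ {t, s, m, n} := by
      ext y
      simp only [List.toFinset_cons, Finset.mem_insert, List.mem_toFinset, Finset.mem_union,
        Finset.mem_singleton]
      constructor
      · rintro (rfl | rfl | h)
        · exact Or.inr (Or.inr (Or.inr (Or.inr rfl)))
        · exact Or.inr (Or.inr (Or.inr (Or.inl rfl)))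
        · exact Or.inl h
      · rintro (h | rfl | rfl | rfl | rfl)
        · exact Or.inr (Or.inr h)
        · exact Or.inr (Or.inr ht)
        · exact Or.inr (Or.inr hs)
        · exact Or.inr (Or.inl rfl)
        · exact Or.inl rfl
    rw [hU]
    exact PC.step ih hP.isP4 ⟨t, by simp [ht]⟩
  | @pairT l m u hg hm hu hmu hmu' h1 h2 h3 h4 ih =>
    obtain ⟨_, ⟨s, hs, t, ht, hs1, ht1, hst⟩⟩ := hg.cross
    have hP : P4 G m s u t := ⟨(h1 s hs).2 hs1, (h2 s hs).symm, h2 t ht, hmu',
      fun h => by have := (h1 t ht).1 h; rw [ht1] at this; exact absurd this (by simp), hst⟩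
    have hU : (u :: m :: l).toFinset = l.toFinset ∪ {m, s, u, t} := by
      ext y
      simp only [List.toFinset_cons, Finset.mem_insert, List.mem_toFinset, Finset.mem_union,
        Finset.mem_singleton]
      constructor
      · rintro (rfl | rfl | h)
        · exact Or.inr (Or.inr (Or.inr (Or.inl rfl)))
        · exact Or.inr (Or.inl rfl)
        · exact Or.inl h
      · rintro (h | rfl | rfl | rfl | rfl)
        · exact Or.inr (Or.inr h)
        · exact Or.inr (Or.inl rfl)
        · exact Or.inr (Or.inr hs)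
        · exact Or.inl rfl
        · exact Or.inr (Or.inr ht)
    rw [hU]
    exact PC.step ih hP.isP4 ⟨s, by simp [hs]⟩

/-- D1 -/
theorem Star.of_sparse {V : Type} [Finite V] (q : ℕ) (hq : 8 ≤ q) (G : SimpleGraph V)
    (hG : PrimeG G) (hs : Sparse q G) (hV : q + 2 ≤ Nat.card V) : Star G := by
  classical
  intro σ l hl h5 h8 F hF
  have hQ : ∀ S : Finset V, S.card ≤ q → (fp G S).card ≤ q - 2 := by
    intro S hS
    refine hs S hS _ (fun A hA => ?_)
    rw [mem_fp] at hA
    exact ⟨isP4_conv.2 hA.2, hA.1⟩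
  have hcard : l.toFinset.card = l.length := List.toFinset_card_of_nodup hl.nodup
  have h1 := Helper27.CW.local_bound hq hG hQ (by omega) l.toFinset hl.pc (by omega)
  rw [hcard] at h1
  refine le_trans (Nat.add_le_add_right (Finset.card_le_card ?_) 2) h1
  intro A hA
  obtain ⟨hA1, hA2⟩ := hF A hA
  rw [mem_fp]
  exact ⟨fun x hx => List.mem_toFinset.2 (hA2 x hx), isP4_conv.1 hA1⟩

theorem Good.compl_aux {σ : V → Bool} {l : List V} (h : Good Gᶜ σ l) :
    ∃ l', l'.Perm l ∧ Good G (fun v => !σ v) l' := by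
  induction h with
  | @base a b c d h ha hb hc hd =>
    refine ⟨[b, d, a, c], ?_, ?_⟩
    · have h1 : ([b, d, a, c] : List V).Perm [a, b, d, c] := by
        have : ([b, d, a, c] : List V) = [b, d] ++ a :: [c] := rfl
        rw [this]
        exact List.perm_middle
      refine h1.trans ?_
      exact List.Perm.cons _ (List.Perm.cons _ (List.Perm.swap _ _ _))
    · have hP : P4 Gᶜ a b c d := path4_iff.1 h
      have hP' := hP.compl
      rw [compl_compl] at hP'
      exact Good.base (path4_iff.2 hP') (by simp [hb]) (by simp [hd]) (by simp [ha]) (by simp [hc])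
  | @part l x a b c A _ hx ha hb hc hA hAm hσ ih =>
    obtain ⟨l', hl', hg⟩ := ih
    refine ⟨x :: l', hl'.cons x, Good.part hg (fun h => hx (hl'.mem_iff.1 h)) (hl'.mem_iff.2 ha)
      (hl'.mem_iff.2 hb) (hl'.mem_iff.2 hc) (isP4_compl'.1 hA) hAm ?_⟩
    simp only [hσ]
    cases σ a <;> cases σ b <;> cases σ c <;> rfl
  | @pairN l m n _ hm hn hmn h1 h2 h3 h4 ih =>
    obtain ⟨l', hl', hg⟩ := ih
    rw [SimpleGraph.compl_adj] at hmn
    refine ⟨n :: m :: l', (hl'.cons m).cons n, Good.pairT hg (fun h => hm (hl'.mem_iff.1 h))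
      (fun h => hn (hl'.mem_iff.1 h)) hmn.1 hmn.2 ?_ ?_ (by simp [h3]) (by simp [h4])⟩
    · intro s hs
      have hs' := hl'.mem_iff.1 hs
      have hne : m ≠ s := fun h => hm (h ▸ hs')
      have := h1 s hs'
      rw [SimpleGraph.compl_adj] at this
      cases hσ : σ s
      · rw [hσ] at this
        simp only [Bool.false_eq_true, iff_false, not_and, not_not] at this
        simp [this hne]
      · rw [hσ] at this
        simp only [iff_true] at this
        simp [this.2]
    · intro s hs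
      have hs' := hl'.mem_iff.1 hs
      have hne : n ≠ s := fun h => hn (h ▸ hs')
      have := h2 s hs'
      rw [SimpleGraph.compl_adj] at this
      by_contra h
      exact this ⟨hne, h⟩
  | @pairT l m t _ hm ht hmt hmt' h1 h2 h3 h4 ih =>
    obtain ⟨l', hl', hg⟩ := ih
    rw [SimpleGraph.compl_adj] at hmt'
    refine ⟨t :: m :: l', (hl'.cons m).cons t, Good.pairN hg (fun h => hm (hl'.mem_iff.1 h))
      (fun h => ht (hl'.mem_iff.1 h)) (by by_contra h; exact hmt' ⟨hmt, h⟩) ?_ ?_
      (by simp [h3]) (by simp [h4])⟩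
    · intro s hs
      have hs' := hl'.mem_iff.1 hs
      have hne : m ≠ s := fun h => hm (h ▸ hs')
      have := h1 s hs'
      rw [SimpleGraph.compl_adj] at this
      cases hσ : σ s
      · rw [hσ] at this
        simp only [Bool.false_eq_true, iff_false, not_and, not_not] at this
        simp [this hne]
      · rw [hσ] at this
        simp only [iff_true] at this
        simp [this.2]
    · intro s hs h
      have hs' := hl'.mem_iff.1 hs
      have := h2 s hs'
      rw [SimpleGraph.compl_adj] at this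
      exact this.2 h

/-- D1' -/
theorem Star.compl {V : Type} {G : SimpleGraph V} (h : Star G) : Star Gᶜ := by
  intro σ l hl h5 h8 F hF
  obtain ⟨l', hl', hg⟩ := hl.compl_aux
  rw [← hl'.length_eq] at h5 h8 ⊢
  refine h _ l' hg h5 h8 F (fun A hA => ?_)
  obtain ⟨h1, h2⟩ := hF A hA
  exact ⟨isP4_compl'.1 h1, fun x hx => hl'.mem_iff.2 (h2 x hx)⟩

end Pool.Agent.CW
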