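import Pool.Agent.CW.ModC4
import Pool.Agent.CW.ModD1

/-! `geo_unique`: long geodesics with the same first edge have the same third set. -/

set_option autoImplicit false

namespace Pool.Agent.CW

open Cert

variable {V : Type}

namespace Cert

theorem seg {G : SimpleGraph V} {C : ℕ → Finset V} {n : ℕ}
    (h : ∀ k < n, Adj4 G (C k) (C (k + 1))) (i : ℕ) (hi : IsP4 G (C i)) :
    ∀ l, i + l ≤ n → Walk4 G l (C i) (C (i + l)) := by
  intro l
  induction l with
  | zero => intro _; exact Walk4.zero hi
  | succ l ih =>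
    intro hl
    exact Walk4.succ (ih (by omega)) (h (i + l) (by omega))

theorem far_of {G : SimpleGraph V} {C : ℕ → Finset V} {n : ℕ}
    (h : ∀ k < n, Adj4 G (C k) (C (k + 1))) (hd : Dist4 G n (C 0) (C n)) :
    ∀ i j, i < j → j ≤ n → ∀ m, m < j - i → ¬ Walk4 G m (C i) (C j) := by
  intro i j hij hj m hm hw
  have hP : ∀ k, k ≤ n → IsP4 G (C k) := by
    intro k hk
    rcases Nat.lt_or_eq_of_le hk with hk | rfl
    · exact (h k hk).1
    · obtain ⟨l, rfl⟩ : ∃ l, k = l + 1 := ⟨k - 1, by omega⟩
      exact (h l (by omega)).2.1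
  have h1 := seg h 0 (hP 0 (by omega)) i (by omega)
  have h2 := seg h j (hP j hj) (n - j) (by omega)
  rw [Nat.zero_add] at h1
  rw [Nat.add_sub_cancel' hj] at h2
  exact hd.2 _ (by omega) ((h1.trans hw).trans h2)

/-- the four vertices of a path as a function. -/
def f4 (a b c d : V) : ℕ → V
  | 0 => a
  | 1 => b
  | 2 => c
  | _ => d

theorem im_f4 {a b c d : V} (x : V) : x ∈ im (f4 a b c d) (qm 12816) ↔
    x = a ∨ x = b ∨ x = c ∨ x = d := by
  rw [mem_im_qm (n := 3) (by norm_num) (by decide)]
  rfl

theorem real_root {G : SimpleGraph V} {a b c d : V} (hP : Path4 G a b c d)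
    {X : ℕ → Finset V} (hX : ∀ x, x ∈ X 0 ↔ x = a ∨ x = b ∨ x = c ∨ x = d) :
    Real G ⟨4, 37, [12816]⟩ (f4 a b c d) X := by
  obtain ⟨h1, h2, h3, h4, h5, h6, h7, h8, h9⟩ := hP
  refine ⟨?_, ?_, ?_⟩
  · intro i j hij hj
    change j < 4 at hj
    interval_cases j <;> interval_cases i <;>
      simp [f4, h1.ne, h2.ne, h3.ne, h7, h8, h9]
  · intro i j hij hj
    change j < 4 at hj
    interval_cases j <;> interval_cases i <;>
      simp [f4, h1, h2, h3, h4, h5, h6, ab, ix, Nat.testBit, Nat.shiftRight_eq_div_pow]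
  · intro k hk
    have : k = 0 := by
      simp only [List.length_cons, List.length_nil] at hk
      omega
    subst this
    ext x
    rw [hX]
    exact (im_f4 x).symm

end Cert

/-- C1 -/
theorem geo_unique {V : Type} {G : SimpleGraph V} (hS : Star G)
    {B0 B1 B2 B3 B4 B2' B3' B4' : Finset V}
    (h01 : Adj4 G B0 B1) (h12 : Adj4 G B1 B2) (h23 : Adj4 G B2 B3) (h34 : Adj4 G B3 B4)
    (h12' : Adj4 G B1 B2') (h23' : Adj4 G B2' B3') (h34' : Adj4 G B3' B4')
    (hd : Dist4 G 4 B0 B4) (hd' : Dist4 G 4 B0 B4') : B2 = B2' := by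
  by_contra hne
  obtain ⟨a, b, c, d, hP, hB0⟩ := h01.1
  let X : ℕ → Finset V := fun k => [B0, B1, B2, B3, B4, B2', B3', B4'].getD k B0
  let C : ℕ → Finset V := fun k => [B0, B1, B2, B3, B4].getD k B0
  let C' : ℕ → Finset V := fun k => [B0, B1, B2', B3', B4'].getD k B0
  have hC : ∀ k < 4, Adj4 G (C k) (C (k + 1)) := by
    intro k hk
    interval_cases k
    · exact h01
    · exact h12
    · exact h23
    · exact h34
  have hC' : ∀ k < 4, Adj4 G (C' k) (C' (k + 1)) := by
    intro k hk
    interval_cases k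
    · exact h01
    · exact h12'
    · exact h23'
    · exact h34'
  have f1 := far_of hC hd
  have f2 := far_of hC' hd'
  refine G1.refd V G hS hS.compl (f4 a b c d) X (real_root hP hB0) ⟨?_, ?_⟩
  · intro k h0 hk
    change k < 8 at hk
    interval_cases k
    · exact h01
    · exact h12
    · exact h23
    · exact h34
    · exact h12'
    · exact h23'
    · exact h34'
  · intro t ht m hm
    simp only [G1.sc, List.mem_cons, List.not_mem_nil, or_false] at ht
    rcases ht with rfl | rfl | rfl | rfl | rfl | rfl | rfl | rfl | rfl | rfl | rfl | rfl | rfl |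
      rfl | rfl | rfl | rfl | rfl | rfl | rfl
    · exact f1 0 1 (by norm_num) (by norm_num) m hm
    · exact f1 0 2 (by norm_num) (by norm_num) m hm
    · exact f1 0 3 (by norm_num) (by norm_num) m hm
    · exact f1 0 4 (by norm_num) (by norm_num) m hm
    · exact f1 1 2 (by norm_num) (by norm_num) m hm
    · exact f1 1 3 (by norm_num) (by norm_num) m hm
    · exact f1 1 4 (by norm_num) (by norm_num) m hm
    · exact f1 2 3 (by norm_num) (by norm_num) m hm
    · exact f1 2 4 (by norm_num) (by norm_num) m hm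
    · exact f1 3 4 (by norm_num) (by norm_num) m hm
    · exact f2 0 2 (by norm_num) (by norm_num) m hm
    · exact f2 0 3 (by norm_num) (by norm_num) m hm
    · exact f2 0 4 (by norm_num) (by norm_num) m hm
    · exact f2 1 2 (by norm_num) (by norm_num) m hm
    · exact f2 1 3 (by norm_num) (by norm_num) m hm
    · exact f2 1 4 (by norm_num) (by norm_num) m hm
    · exact f2 2 3 (by norm_num) (by norm_num) m hm
    · exact f2 2 4 (by norm_num) (by norm_num) m hm
    · exact f2 3 4 (by norm_num) (by norm_num) m hm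
    · have hm0 : m = 0 := by
        change m < 1 at hm
        omega
      subst hm0
      intro hw
      have key : ∀ (n : ℕ) (A B : Finset V), Walk4 G n A B → n = 0 → A = B := by
        intro n A B h
        cases h with
        | zero _ => intro _; rfl
        | succ _ _ => intro h; omega
      exact hne (key 0 _ _ hw rfl)

end Pool.Agent.CW
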