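import Pool.Agent.CW.ModC5
import Pool.Agent.CW.ModC7

/-! `no_brk`: breaking sequences have at most four steps. -/

set_option autoImplicit false

namespace Pool.Agent.CW

open Cert

/-- C3 -/
theorem no_brk {V : Type} {G : SimpleGraph V} (hS : Star G) (hsp : NoSp4 G) {r : V} {l : List V} :
    ¬ Brk G r 5 l := by
  intro h
  obtain ⟨b, c, d, hP, hE⟩ := Ext.of_brk h 0 trivial
  classical
  have hreal := real_root (X := fun _ => {r, b, c, d}) hP (fun x => by simp)
  refine GB.refd V G hS hS.compl hsp (f4 r b c d) ⟨hreal.inj, hreal.adj, ?_⟩ ?_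
  · intro k hk
    simp at hk
  · refine Ext.congr 5 (fun v => ?_) hE
    constructor
    · rintro (rfl | rfl | rfl)
      · exact ⟨1, by norm_num, by norm_num, rfl⟩
      · exact ⟨2, by norm_num, by norm_num, rfl⟩
      · exact ⟨3, by norm_num, by norm_num, rfl⟩
    · rintro ⟨i, h1, h2, rfl⟩
      change i < 4 at h2
      interval_cases i
      · exact Or.inl rfl
      · exact Or.inr (Or.inl rfl)
      · exact Or.inr (Or.inr rfl)

end Pool.Agent.CW
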