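import Pool.Agent.CW.ModC1

/-! C6: closeness inside three mutual clones. -/

set_option autoImplicit false

namespace Pool.Agent.CW

open Cert

variable {V : Type} {G : SimpleGraph V}

/-- A copy of a concrete graph on eight vertices with an overfull certificate is impossible. -/
theorem win8 (hS : Star G) (v : Fin 8 → V) (hinj : Function.Injective v) (g r : ℕ)
    (M : Fin 8 → Fin 8 → Bool)
    (hM : ∀ i j : Fin 8, i < j → (if (j : ℕ) < 7 then ab g i j else r.testBit i) = M i j)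
    (hadj : ∀ i j : Fin 8, i < j → (G.Adj (v i) (v j) ↔ M i j = true)) (L : List ℕ)
    (h : vchk 7 g r 127 L = true) : False := by
  set f : ℕ → V := fun i => if hi : i < 8 then v ⟨i, hi⟩ else v 0 with hf
  have hfv : ∀ i (hi : i < 8), f i = v ⟨i, hi⟩ := by
    intro i hi
    simp [hf, hi]
  refine vchk_sound hS (n := 7) (by norm_num) (f := f) ⟨?_, ?_, ?_⟩ L h
  · intro i j hij hj
    rw [hfv i (by omega), hfv j (by omega)]
    intro he
    have := hinj he
    rw [Fin.mk.injEq] at this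
    omega
  · intro i j hij hj
    rw [hfv i (by omega), hfv j (by omega), hadj _ _ (Fin.mk_lt_mk.2 hij),
      ← hM _ _ (Fin.mk_lt_mk.2 hij)]
    simp [hj]
  · intro i hi _
    rw [hfv i (by omega), hfv 7 (by omega), hadj _ _ (Fin.mk_lt_mk.2 hi),
      ← hM _ _ (Fin.mk_lt_mk.2 hi)]
    simp

/-- All pairs `i < j` of `Fin 8`, ordered by `j`. -/
theorem all8 {p : Fin 8 → Fin 8 → Prop}
    (h : p 0 1 ∧ p 0 2 ∧ p 1 2 ∧ p 0 3 ∧ p 1 3 ∧ p 2 3 ∧ p 0 4 ∧ p 1 4 ∧ p 2 4 ∧ p 3 4 ∧ p 0 5 ∧ p 1 5 ∧ p 2 5 ∧ p 3 5 ∧ p 4 5 ∧ p 0 6 ∧ p 1 6 ∧ p 2 6 ∧ p 3 6 ∧ p 4 6 ∧ p 5 6 ∧ p 0 7 ∧ p 1 7 ∧ p 2 7 ∧ p 3 7 ∧ p 4 7 ∧ p 5 7 ∧ p 6 7) :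
    ∀ i j : Fin 8, i < j → p i j := by
  intro i j hij
  obtain ⟨h01, h02, h12, h03, h13, h23, h04, h14, h24, h34, h05, h15, h25, h35, h45, h06, h16, h26, h36, h46, h56, h07, h17, h27, h37, h47, h57, h67⟩ := h
  fin_cases j <;> fin_cases i <;> first
    | exact absurd hij (by decide)
    | assumption

theorem inj8 {v : Fin 8 → V}
    (h : v 0 ≠ v 1 ∧ v 0 ≠ v 2 ∧ v 1 ≠ v 2 ∧ v 0 ≠ v 3 ∧ v 1 ≠ v 3 ∧ v 2 ≠ v 3 ∧ v 0 ≠ v 4 ∧ v 1 ≠ v 4 ∧ v 2 ≠ v 4 ∧ v 3 ≠ v 4 ∧ v 0 ≠ v 5 ∧ v 1 ≠ v 5 ∧ v 2 ≠ v 5 ∧ v 3 ≠ v 5 ∧ v 4 ≠ v 5 ∧ v 0 ≠ v 6 ∧ v 1 ≠ v 6 ∧ v 2 ≠ v 6 ∧ v 3 ≠ v 6 ∧ v 4 ≠ v 6 ∧ v 5 ≠ v 6 ∧ v 0 ≠ v 7 ∧ v 1 ≠ v 7 ∧ v 2 ≠ v 7 ∧ v 3 ≠ v 7 ∧ v 4 ≠ v 7 ∧ v 5 ≠ v 7 ∧ v 6 ≠ v 7) :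
    Function.Injective v := by
  have h1 := all8 (p := fun i j => v i ≠ v j) h
  intro i j hij
  rcases lt_trichotomy i j with h | h | h
  · exact absurd hij (h1 i j h)
  · exact h
  · exact absurd hij.symm (h1 j i h)



theorem fam_K1_end (hS : Star G) {x y : Fin 3 → V} (hc : Clones G x y) {u v w : V}
    (ou : ∀ i, u ≠ x i ∧ u ≠ y i)
    (ov : ∀ i, v ≠ x i ∧ v ≠ y i)
    (ow : ∀ i, w ≠ x i ∧ w ≠ y i)
    (duv : u ≠ v)
    (duw : u ≠ w)
    (dvw : v ≠ w)
    (euv : G.Adj u v)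
    (euw : ¬ G.Adj u w)
    (evw : G.Adj v w)
    (exu : G.Adj (x 0) u)
    (eyu : G.Adj (y 0) u)
    (exv : ¬ G.Adj (x 0) v)
    (eyv : G.Adj (y 0) v)
    (exw : ¬ G.Adj (x 0) w)
    (eyw : G.Adj (y 0) w) : False := by
  obtain ⟨⟨hxx, hyy, hyn, hxyn, hxy⟩, hout⟩ := hc
  have hxn : ∀ i j, i ≠ j → x i ≠ x j := fun i j h => (hxx i j h).ne
  have Exu : ∀ i, G.Adj (x i) u := fun i => ((hout u ou i 0).1.2 exu.symm).symm
  have Eyu : ∀ i, G.Adj (y i) u := fun i => ((hout u ou i 0).2.2 eyu.symm).symm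
  have Exv : ∀ i, ¬ G.Adj (x i) v := fun i h => exv ((hout v ov i 0).1.1 h.symm).symm
  have Eyv : ∀ i, G.Adj (y i) v := fun i => ((hout v ov i 0).2.2 eyv.symm).symm
  have Exw : ∀ i, ¬ G.Adj (x i) w := fun i h => exw ((hout w ow i 0).1.1 h.symm).symm
  have Eyw : ∀ i, G.Adj (y i) w := fun i => ((hout w ow i 0).2.2 eyw.symm).symm
  refine win8 hS ![x 0, x 1, x 2, y 0, y 1, u, v, w] ?_ 1866895 88
    (fun i j => if (j : ℕ) < 7 then ab 1866895 i j else Nat.testBit 88 i) (fun _ _ _ => rfl) ?_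
    [25616, 25649, 25648, 25360] (by decide +kernel)
  · refine inj8 ?_
    refine ⟨hxn 0 1 (by decide), hxn 0 2 (by decide), hxn 1 2 (by decide), hxyn 0 0, hxyn 1 0, hxyn 2 0, hxyn 0 1, hxyn 1 1, hxyn 2 1, hyn 0 1 (by decide), (ou 0).1.symm, (ou 1).1.symm, (ou 2).1.symm, (ou 0).2.symm, (ou 1).2.symm, (ov 0).1.symm, (ov 1).1.symm, (ov 2).1.symm, (ov 0).2.symm, (ov 1).2.symm, duv, (ow 0).1.symm, (ow 1).1.symm, (ow 2).1.symm, (ow 0).2.symm, (ow 1).2.symm, duw, dvw⟩
  · refine all8 ?_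
    exact ⟨iff_of_true (hxx 0 1 (by decide)) (by decide),
      iff_of_true (hxx 0 2 (by decide)) (by decide),
      iff_of_true (hxx 1 2 (by decide)) (by decide),
      iff_of_true ((hxy 0 0).2 rfl) (by decide),
      iff_of_false (fun h => absurd ((hxy 1 0).1 h) (by decide)) (by decide),
      iff_of_false (fun h => absurd ((hxy 2 0).1 h) (by decide)) (by decide),
      iff_of_false (fun h => absurd ((hxy 0 1).1 h) (by decide)) (by decide),
      iff_of_true ((hxy 1 1).2 rfl) (by decide),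
      iff_of_false (fun h => absurd ((hxy 2 1).1 h) (by decide)) (by decide),
      iff_of_false (hyy 0 1) (by decide),
      iff_of_true (Exu 0) (by decide),
      iff_of_true (Exu 1) (by decide),
      iff_of_true (Exu 2) (by decide),
      iff_of_true (Eyu 0) (by decide),
      iff_of_true (Eyu 1) (by decide),
      iff_of_false (Exv 0) (by decide),
      iff_of_false (Exv 1) (by decide),
      iff_of_false (Exv 2) (by decide),
      iff_of_true (Eyv 0) (by decide),
      iff_of_true (Eyv 1) (by decide),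
      iff_of_true (euv) (by decide),
      iff_of_false (Exw 0) (by decide),
      iff_of_false (Exw 1) (by decide),
      iff_of_false (Exw 2) (by decide),
      iff_of_true (Eyw 0) (by decide),
      iff_of_true (Eyw 1) (by decide),
      iff_of_false (euw) (by decide),
      iff_of_true (evw) (by decide)⟩

theorem fam_K1_mid (hS : Star G) {x y : Fin 3 → V} (hc : Clones G x y) {u v w : V}
    (ou : ∀ i, u ≠ x i ∧ u ≠ y i)
    (ov : ∀ i, v ≠ x i ∧ v ≠ y i)
    (ow : ∀ i, w ≠ x i ∧ w ≠ y i)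
    (duv : u ≠ v)
    (duw : u ≠ w)
    (dvw : v ≠ w)
    (euv : ¬ G.Adj u v)
    (euw : ¬ G.Adj u w)
    (evw : G.Adj v w)
    (exu : G.Adj (x 0) u)
    (eyu : G.Adj (y 0) u)
    (exv : G.Adj (x 0) v)
    (eyv : G.Adj (y 0) v)
    (exw : ¬ G.Adj (x 0) w)
    (eyw : G.Adj (y 0) w) : False := by
  obtain ⟨⟨hxx, hyy, hyn, hxyn, hxy⟩, hout⟩ := hc
  have hxn : ∀ i j, i ≠ j → x i ≠ x j := fun i j h => (hxx i j h).ne
  have Exu : ∀ i, G.Adj (x i) u := fun i => ((hout u ou i 0).1.2 exu.symm).symm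
  have Eyu : ∀ i, G.Adj (y i) u := fun i => ((hout u ou i 0).2.2 eyu.symm).symm
  have Exv : ∀ i, G.Adj (x i) v := fun i => ((hout v ov i 0).1.2 exv.symm).symm
  have Eyv : ∀ i, G.Adj (y i) v := fun i => ((hout v ov i 0).2.2 eyv.symm).symm
  have Exw : ∀ i, ¬ G.Adj (x i) w := fun i h => exw ((hout w ow i 0).1.1 h.symm).symm
  have Eyw : ∀ i, G.Adj (y i) w := fun i => ((hout w ow i 0).2.2 eyw.symm).symm
  refine win8 hS ![x 0, x 1, x 2, y 0, y 1, u, v, w] ?_ 1047695 88
    (fun i j => if (j : ℕ) < 7 then ab 1047695 i j else Nat.testBit 88 i) (fun _ _ _ => rfl) ?_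
    [29744, 29456, 29745, 29712] (by decide +kernel)
  · refine inj8 ?_
    refine ⟨hxn 0 1 (by decide), hxn 0 2 (by decide), hxn 1 2 (by decide), hxyn 0 0, hxyn 1 0, hxyn 2 0, hxyn 0 1, hxyn 1 1, hxyn 2 1, hyn 0 1 (by decide), (ou 0).1.symm, (ou 1).1.symm, (ou 2).1.symm, (ou 0).2.symm, (ou 1).2.symm, (ov 0).1.symm, (ov 1).1.symm, (ov 2).1.symm, (ov 0).2.symm, (ov 1).2.symm, duv, (ow 0).1.symm, (ow 1).1.symm, (ow 2).1.symm, (ow 0).2.symm, (ow 1).2.symm, duw, dvw⟩
  · refine all8 ?_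
    exact ⟨iff_of_true (hxx 0 1 (by decide)) (by decide),
      iff_of_true (hxx 0 2 (by decide)) (by decide),
      iff_of_true (hxx 1 2 (by decide)) (by decide),
      iff_of_true ((hxy 0 0).2 rfl) (by decide),
      iff_of_false (fun h => absurd ((hxy 1 0).1 h) (by decide)) (by decide),
      iff_of_false (fun h => absurd ((hxy 2 0).1 h) (by decide)) (by decide),
      iff_of_false (fun h => absurd ((hxy 0 1).1 h) (by decide)) (by decide),
      iff_of_true ((hxy 1 1).2 rfl) (by decide),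
      iff_of_false (fun h => absurd ((hxy 2 1).1 h) (by decide)) (by decide),
      iff_of_false (hyy 0 1) (by decide),
      iff_of_true (Exu 0) (by decide),
      iff_of_true (Exu 1) (by decide),
      iff_of_true (Exu 2) (by decide),
      iff_of_true (Eyu 0) (by decide),
      iff_of_true (Eyu 1) (by decide),
      iff_of_true (Exv 0) (by decide),
      iff_of_true (Exv 1) (by decide),
      iff_of_true (Exv 2) (by decide),
      iff_of_true (Eyv 0) (by decide),
      iff_of_true (Eyv 1) (by decide),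
      iff_of_false (euv) (by decide),
      iff_of_false (Exw 0) (by decide),
      iff_of_false (Exw 1) (by decide),
      iff_of_false (Exw 2) (by decide),
      iff_of_true (Eyw 0) (by decide),
      iff_of_true (Eyw 1) (by decide),
      iff_of_false (euw) (by decide),
      iff_of_true (evw) (by decide)⟩

theorem fam_K3_end (hS : Star G) {x y : Fin 3 → V} (hc : Clones G x y) {u v w : V}
    (ou : ∀ i, u ≠ x i ∧ u ≠ y i)
    (ov : ∀ i, v ≠ x i ∧ v ≠ y i)
    (ow : ∀ i, w ≠ x i ∧ w ≠ y i)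
    (duv : u ≠ v)
    (duw : u ≠ w)
    (dvw : v ≠ w)
    (euv : G.Adj u v)
    (euw : ¬ G.Adj u w)
    (evw : G.Adj v w)
    (exu : G.Adj (x 0) u)
    (eyu : G.Adj (y 0) u)
    (exv : G.Adj (x 0) v)
    (eyv : ¬ G.Adj (y 0) v)
    (exw : G.Adj (x 0) w)
    (eyw : ¬ G.Adj (y 0) w) : False := by
  obtain ⟨⟨hxx, hyy, hyn, hxyn, hxy⟩, hout⟩ := hc
  have hxn : ∀ i j, i ≠ j → x i ≠ x j := fun i j h => (hxx i j h).ne
  have Exu : ∀ i, G.Adj (x i) u := fun i => ((hout u ou i 0).1.2 exu.symm).symm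
  have Eyu : ∀ i, G.Adj (y i) u := fun i => ((hout u ou i 0).2.2 eyu.symm).symm
  have Exv : ∀ i, G.Adj (x i) v := fun i => ((hout v ov i 0).1.2 exv.symm).symm
  have Eyv : ∀ i, ¬ G.Adj (y i) v := fun i h => eyv ((hout v ov i 0).2.1 h.symm).symm
  have Exw : ∀ i, G.Adj (x i) w := fun i => ((hout w ow i 0).1.2 exw.symm).symm
  have Eyw : ∀ i, ¬ G.Adj (y i) w := fun i h => eyw ((hout w ow i 0).2.1 h.symm).symm
  refine win8 hS ![y 0, y 1, y 2, x 0, x 1, u, v, w] ?_ 1867400 88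
    (fun i j => if (j : ℕ) < 7 then ab 1867400 i j else Nat.testBit 88 i) (fun _ _ _ => rfl) ?_
    [30001, 30002, 30018, 30016, 17168, 30288, 30290] (by decide +kernel)
  · refine inj8 ?_
    refine ⟨hyn 0 1 (by decide), hyn 0 2 (by decide), hyn 1 2 (by decide), (hxyn 0 0).symm, (hxyn 0 1).symm, (hxyn 0 2).symm, (hxyn 1 0).symm, (hxyn 1 1).symm, (hxyn 1 2).symm, hxn 0 1 (by decide), (ou 0).2.symm, (ou 1).2.symm, (ou 2).2.symm, (ou 0).1.symm, (ou 1).1.symm, (ov 0).2.symm, (ov 1).2.symm, (ov 2).2.symm, (ov 0).1.symm, (ov 1).1.symm, duv, (ow 0).2.symm, (ow 1).2.symm, (ow 2).2.symm, (ow 0).1.symm, (ow 1).1.symm, duw, dvw⟩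
  · refine all8 ?_
    exact ⟨iff_of_false (hyy 0 1) (by decide),
      iff_of_false (hyy 0 2) (by decide),
      iff_of_false (hyy 1 2) (by decide),
      iff_of_true (((hxy 0 0).2 rfl).symm) (by decide),
      iff_of_false (fun h => absurd ((hxy 0 1).1 h.symm) (by decide)) (by decide),
      iff_of_false (fun h => absurd ((hxy 0 2).1 h.symm) (by decide)) (by decide),
      iff_of_false (fun h => absurd ((hxy 1 0).1 h.symm) (by decide)) (by decide),
      iff_of_true (((hxy 1 1).2 rfl).symm) (by decide),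
      iff_of_false (fun h => absurd ((hxy 1 2).1 h.symm) (by decide)) (by decide),
      iff_of_true (hxx 0 1 (by decide)) (by decide),
      iff_of_true (Eyu 0) (by decide),
      iff_of_true (Eyu 1) (by decide),
      iff_of_true (Eyu 2) (by decide),
      iff_of_true (Exu 0) (by decide),
      iff_of_true (Exu 1) (by decide),
      iff_of_false (Eyv 0) (by decide),
      iff_of_false (Eyv 1) (by decide),
      iff_of_false (Eyv 2) (by decide),
      iff_of_true (Exv 0) (by decide),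
      iff_of_true (Exv 1) (by decide),
      iff_of_true (euv) (by decide),
      iff_of_false (Eyw 0) (by decide),
      iff_of_false (Eyw 1) (by decide),
      iff_of_false (Eyw 2) (by decide),
      iff_of_true (Exw 0) (by decide),
      iff_of_true (Exw 1) (by decide),
      iff_of_false (euw) (by decide),
      iff_of_true (evw) (by decide)⟩

theorem fam_K3_mid (hS : Star G) {x y : Fin 3 → V} (hc : Clones G x y) {u v w : V}
    (ou : ∀ i, u ≠ x i ∧ u ≠ y i)
    (ov : ∀ i, v ≠ x i ∧ v ≠ y i)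
    (ow : ∀ i, w ≠ x i ∧ w ≠ y i)
    (duv : u ≠ v)
    (duw : u ≠ w)
    (dvw : v ≠ w)
    (euv : ¬ G.Adj u v)
    (euw : ¬ G.Adj u w)
    (evw : G.Adj v w)
    (exu : G.Adj (x 0) u)
    (eyu : G.Adj (y 0) u)
    (exv : G.Adj (x 0) v)
    (eyv : G.Adj (y 0) v)
    (exw : G.Adj (x 0) w)
    (eyw : ¬ G.Adj (y 0) w) : False := by
  obtain ⟨⟨hxx, hyy, hyn, hxyn, hxy⟩, hout⟩ := hc
  have hxn : ∀ i j, i ≠ j → x i ≠ x j := fun i j h => (hxx i j h).ne
  have Exu : ∀ i, G.Adj (x i) u := fun i => ((hout u ou i 0).1.2 exu.symm).symm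
  have Eyu : ∀ i, G.Adj (y i) u := fun i => ((hout u ou i 0).2.2 eyu.symm).symm
  have Exv : ∀ i, G.Adj (x i) v := fun i => ((hout v ov i 0).1.2 exv.symm).symm
  have Eyv : ∀ i, G.Adj (y i) v := fun i => ((hout v ov i 0).2.2 eyv.symm).symm
  have Exw : ∀ i, G.Adj (x i) w := fun i => ((hout w ow i 0).1.2 exw.symm).symm
  have Eyw : ∀ i, ¬ G.Adj (y i) w := fun i h => eyw ((hout w ow i 0).2.1 h.symm).symm
  refine win8 hS ![y 0, y 1, y 2, x 0, x 1, u, v, w] ?_ 1048200 88
    (fun i j => if (j : ℕ) < 7 then ab 1048200 i j else Nat.testBit 88 i) (fun _ _ _ => rfl) ?_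
    [30289, 30290, 30002, 30001, 30018, 17168, 30288] (by decide +kernel)
  · refine inj8 ?_
    refine ⟨hyn 0 1 (by decide), hyn 0 2 (by decide), hyn 1 2 (by decide), (hxyn 0 0).symm, (hxyn 0 1).symm, (hxyn 0 2).symm, (hxyn 1 0).symm, (hxyn 1 1).symm, (hxyn 1 2).symm, hxn 0 1 (by decide), (ou 0).2.symm, (ou 1).2.symm, (ou 2).2.symm, (ou 0).1.symm, (ou 1).1.symm, (ov 0).2.symm, (ov 1).2.symm, (ov 2).2.symm, (ov 0).1.symm, (ov 1).1.symm, duv, (ow 0).2.symm, (ow 1).2.symm, (ow 2).2.symm, (ow 0).1.symm, (ow 1).1.symm, duw, dvw⟩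
  · refine all8 ?_
    exact ⟨iff_of_false (hyy 0 1) (by decide),
      iff_of_false (hyy 0 2) (by decide),
      iff_of_false (hyy 1 2) (by decide),
      iff_of_true (((hxy 0 0).2 rfl).symm) (by decide),
      iff_of_false (fun h => absurd ((hxy 0 1).1 h.symm) (by decide)) (by decide),
      iff_of_false (fun h => absurd ((hxy 0 2).1 h.symm) (by decide)) (by decide),
      iff_of_false (fun h => absurd ((hxy 1 0).1 h.symm) (by decide)) (by decide),
      iff_of_true (((hxy 1 1).2 rfl).symm) (by decide),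
      iff_of_false (fun h => absurd ((hxy 1 2).1 h.symm) (by decide)) (by decide),
      iff_of_true (hxx 0 1 (by decide)) (by decide),
      iff_of_true (Eyu 0) (by decide),
      iff_of_true (Eyu 1) (by decide),
      iff_of_true (Eyu 2) (by decide),
      iff_of_true (Exu 0) (by decide),
      iff_of_true (Exu 1) (by decide),
      iff_of_true (Eyv 0) (by decide),
      iff_of_true (Eyv 1) (by decide),
      iff_of_true (Eyv 2) (by decide),
      iff_of_true (Exv 0) (by decide),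
      iff_of_true (Exv 1) (by decide),
      iff_of_false (euv) (by decide),
      iff_of_false (Eyw 0) (by decide),
      iff_of_false (Eyw 1) (by decide),
      iff_of_false (Eyw 2) (by decide),
      iff_of_true (Exw 0) (by decide),
      iff_of_true (Exw 1) (by decide),
      iff_of_false (euw) (by decide),
      iff_of_true (evw) (by decide)⟩

theorem fam_K2 (hS : Star G) {x y : Fin 3 → V} (hc : Clones G x y) {u v : V}
    (ou : ∀ i, u ≠ x i ∧ u ≠ y i)
    (ov : ∀ i, v ≠ x i ∧ v ≠ y i)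
    (duv : u ≠ v)
    (euv : ¬ G.Adj u v)
    (exu : G.Adj (x 0) u)
    (eyu : ¬ G.Adj (y 0) u)
    (exv : G.Adj (x 0) v)
    (eyv : G.Adj (y 0) v) : False := by
  obtain ⟨⟨hxx, hyy, hyn, hxyn, hxy⟩, hout⟩ := hc
  have hxn : ∀ i j, i ≠ j → x i ≠ x j := fun i j h => (hxx i j h).ne
  have Exu : ∀ i, G.Adj (x i) u := fun i => ((hout u ou i 0).1.2 exu.symm).symm
  have Eyu : ∀ i, ¬ G.Adj (y i) u := fun i h => eyu ((hout u ou i 0).2.1 h.symm).symm
  have Exv : ∀ i, G.Adj (x i) v := fun i => ((hout v ov i 0).1.2 exv.symm).symm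
  have Eyv : ∀ i, G.Adj (y i) v := fun i => ((hout v ov i 0).2.2 eyv.symm).symm
  refine win8 hS ![x 0, x 1, x 2, y 0, y 1, y 2, u, v] ?_ 233615 63
    (fun i j => if (j : ℕ) < 7 then ab 233615 i j else Nat.testBit 63 i) (fun _ _ _ => rfl) ?_
    [30258, 30257, 30289, 30288, 21280, 17168, 30274] (by decide +kernel)
  · refine inj8 ?_
    refine ⟨hxn 0 1 (by decide), hxn 0 2 (by decide), hxn 1 2 (by decide), hxyn 0 0, hxyn 1 0, hxyn 2 0, hxyn 0 1, hxyn 1 1, hxyn 2 1, hyn 0 1 (by decide), hxyn 0 2, hxyn 1 2, hxyn 2 2, hyn 0 2 (by decide), hyn 1 2 (by decide), (ou 0).1.symm, (ou 1).1.symm, (ou 2).1.symm, (ou 0).2.symm, (ou 1).2.symm, (ou 2).2.symm, (ov 0).1.symm, (ov 1).1.symm, (ov 2).1.symm, (ov 0).2.symm, (ov 1).2.symm, (ov 2).2.symm, duv⟩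
  · refine all8 ?_
    exact ⟨iff_of_true (hxx 0 1 (by decide)) (by decide),
      iff_of_true (hxx 0 2 (by decide)) (by decide),
      iff_of_true (hxx 1 2 (by decide)) (by decide),
      iff_of_true ((hxy 0 0).2 rfl) (by decide),
      iff_of_false (fun h => absurd ((hxy 1 0).1 h) (by decide)) (by decide),
      iff_of_false (fun h => absurd ((hxy 2 0).1 h) (by decide)) (by decide),
      iff_of_false (fun h => absurd ((hxy 0 1).1 h) (by decide)) (by decide),
      iff_of_true ((hxy 1 1).2 rfl) (by decide),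
      iff_of_false (fun h => absurd ((hxy 2 1).1 h) (by decide)) (by decide),
      iff_of_false (hyy 0 1) (by decide),
      iff_of_false (fun h => absurd ((hxy 0 2).1 h) (by decide)) (by decide),
      iff_of_false (fun h => absurd ((hxy 1 2).1 h) (by decide)) (by decide),
      iff_of_true ((hxy 2 2).2 rfl) (by decide),
      iff_of_false (hyy 0 2) (by decide),
      iff_of_false (hyy 1 2) (by decide),
      iff_of_true (Exu 0) (by decide),
      iff_of_true (Exu 1) (by decide),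
      iff_of_true (Exu 2) (by decide),
      iff_of_false (Eyu 0) (by decide),
      iff_of_false (Eyu 1) (by decide),
      iff_of_false (Eyu 2) (by decide),
      iff_of_true (Exv 0) (by decide),
      iff_of_true (Exv 1) (by decide),
      iff_of_true (Exv 2) (by decide),
      iff_of_true (Eyv 0) (by decide),
      iff_of_true (Eyv 1) (by decide),
      iff_of_true (Eyv 2) (by decide),
      iff_of_false (euv) (by decide)⟩

theorem fam_K4 (hS : Star G) {x y : Fin 3 → V} (hc : Clones G x y) {u v : V}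
    (ou : ∀ i, u ≠ x i ∧ u ≠ y i)
    (ov : ∀ i, v ≠ x i ∧ v ≠ y i)
    (duv : u ≠ v)
    (euv : ¬ G.Adj u v)
    (exu : ¬ G.Adj (x 0) u)
    (eyu : G.Adj (y 0) u)
    (exv : G.Adj (x 0) v)
    (eyv : G.Adj (y 0) v) : False := by
  obtain ⟨⟨hxx, hyy, hyn, hxyn, hxy⟩, hout⟩ := hc
  have hxn : ∀ i j, i ≠ j → x i ≠ x j := fun i j h => (hxx i j h).ne
  have Exu : ∀ i, ¬ G.Adj (x i) u := fun i h => exu ((hout u ou i 0).1.1 h.symm).symm
  have Eyu : ∀ i, G.Adj (y i) u := fun i => ((hout u ou i 0).2.2 eyu.symm).symm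
  have Exv : ∀ i, G.Adj (x i) v := fun i => ((hout v ov i 0).1.2 exv.symm).symm
  have Eyv : ∀ i, G.Adj (y i) v := fun i => ((hout v ov i 0).2.2 eyv.symm).symm
  refine win8 hS ![x 0, x 1, x 2, y 0, y 1, y 2, u, v] ?_ 1839247 63
    (fun i j => if (j : ℕ) < 7 then ab 1839247 i j else Nat.testBit 63 i) (fun _ _ _ => rfl) ?_
    [25616, 25360, 25648, 17168] (by decide +kernel)
  · refine inj8 ?_
    refine ⟨hxn 0 1 (by decide), hxn 0 2 (by decide), hxn 1 2 (by decide), hxyn 0 0, hxyn 1 0, hxyn 2 0, hxyn 0 1, hxyn 1 1, hxyn 2 1, hyn 0 1 (by decide), hxyn 0 2, hxyn 1 2, hxyn 2 2, hyn 0 2 (by decide), hyn 1 2 (by decide), (ou 0).1.symm, (ou 1).1.symm, (ou 2).1.symm, (ou 0).2.symm, (ou 1).2.symm, (ou 2).2.symm, (ov 0).1.symm, (ov 1).1.symm, (ov 2).1.symm, (ov 0).2.symm, (ov 1).2.symm, (ov 2).2.symm, duv⟩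
  · refine all8 ?_
    exact ⟨iff_of_true (hxx 0 1 (by decide)) (by decide),
      iff_of_true (hxx 0 2 (by decide)) (by decide),
      iff_of_true (hxx 1 2 (by decide)) (by decide),
      iff_of_true ((hxy 0 0).2 rfl) (by decide),
      iff_of_false (fun h => absurd ((hxy 1 0).1 h) (by decide)) (by decide),
      iff_of_false (fun h => absurd ((hxy 2 0).1 h) (by decide)) (by decide),
      iff_of_false (fun h => absurd ((hxy 0 1).1 h) (by decide)) (by decide),
      iff_of_true ((hxy 1 1).2 rfl) (by decide),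
      iff_of_false (fun h => absurd ((hxy 2 1).1 h) (by decide)) (by decide),
      iff_of_false (hyy 0 1) (by decide),
      iff_of_false (fun h => absurd ((hxy 0 2).1 h) (by decide)) (by decide),
      iff_of_false (fun h => absurd ((hxy 1 2).1 h) (by decide)) (by decide),
      iff_of_true ((hxy 2 2).2 rfl) (by decide),
      iff_of_false (hyy 0 2) (by decide),
      iff_of_false (hyy 1 2) (by decide),
      iff_of_false (Exu 0) (by decide),
      iff_of_false (Exu 1) (by decide),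
      iff_of_false (Exu 2) (by decide),
      iff_of_true (Eyu 0) (by decide),
      iff_of_true (Eyu 1) (by decide),
      iff_of_true (Eyu 2) (by decide),
      iff_of_true (Exv 0) (by decide),
      iff_of_true (Exv 1) (by decide),
      iff_of_true (Exv 2) (by decide),
      iff_of_true (Eyv 0) (by decide),
      iff_of_true (Eyv 1) (by decide),
      iff_of_true (Eyv 2) (by decide),
      iff_of_false (euv) (by decide)⟩

/-- A vertex of an induced path is first or second from one of the two ends. -/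
theorem path_pos {C : Finset V} (hC : IsP4 G C) {s : V} (hs : s ∈ C) :
    ∃ u v w, (∀ z, z ∈ C ↔ z = s ∨ z = u ∨ z = v ∨ z = w) ∧
      (Path4 G s u v w ∨ Path4 G u s v w) := by
  obtain ⟨a, b, c, d, h, hC⟩ := hC
  rcases (hC s).1 hs with rfl | rfl | rfl | rfl
  · exact ⟨b, c, d, hC, Or.inl h⟩
  · exact ⟨a, c, d, fun z => by rw [hC z]; exact or_left_comm, Or.inr h⟩
  · exact ⟨d, b, a, fun z => by rw [hC z]; tauto, Or.inr h.symm⟩
  · exact ⟨c, b, a, fun z => by rw [hC z]; tauto, Or.inl h.symm⟩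

theorem clone_close {V : Type} {G : SimpleGraph V} (hS : Star G) {x y : Fin 3 → V}
    (hc : Clones G x y) (C : Finset V) (hC : IsP4 G C) :
    (x 0 ∈ C → y 0 ∉ C → ∃ C', Adj4 G C C' ∧ y 0 ∈ C') ∧
    (y 0 ∈ C → x 0 ∉ C → ∃ C', Adj4 G C C' ∧ x 0 ∈ C') := by
  obtain ⟨⟨hxx, hyy, hyn, hxyn, hxy⟩, hout⟩ := id hc
  have h00 : G.Adj (x 0) (y 0) := (hxy 0 0).2 rfl
  -- neighbours of `y 0` different from `x 0` are outside
  have outy : ∀ u, G.Adj (y 0) u → u ≠ x 0 → ∀ i, u ≠ x i ∧ u ≠ y i := by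
    intro u hu hux i
    refine ⟨?_, ?_⟩
    · rintro rfl
      by_cases hi : i = 0
      · exact hux (by rw [hi])
      · exact hi ((hxy i 0).1 hu.symm)
    · rintro rfl
      exact hyy 0 i hu
  constructor
  · intro hx hy
    by_contra hcon
    push Not at hcon
    have hno : ∀ C', Adj4 G C C' → y 0 ∉ C' := hcon
    obtain ⟨u, v, w, hz, hpath⟩ := path_pos hC hx
    have hu : u ∈ C := (hz u).2 (by simp)
    have hv : v ∈ C := (hz v).2 (by simp)
    have hw : w ∈ C := (hz w).2 (by simp)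
    rcases type_of_no_partner hC hy hno with hT | hT | hT
    · exact hT (x 0) hx h00.symm
    · -- total
      rcases hpath with h | h
      · obtain ⟨h1, h2, h3, h4, h5, h6, h7, h8, h9⟩ := h
        exact fam_K1_end hS hc (outy u (hT u hu) h1.ne') (outy v (hT v hv) h7.symm)
          (outy w (hT w hw) h8.symm) h2.ne h9 h3.ne h2 h6 h3 h1 (hT u hu) h4 (hT v hv) h5
          (hT w hw)
      · obtain ⟨h1, h2, h3, h4, h5, h6, h7, h8, h9⟩ := h
        exact fam_K1_mid hS hc (outy u (hT u hu) h1.ne) (outy v (hT v hv) h2.ne')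
          (outy w (hT w hw) h9.symm) h7 h8 h3.ne h4 h5 h3 h1.symm (hT u hu) h2 (hT v hv) h6
          (hT w hw)
    · -- midpoints
      have hm : Mid G C (x 0) := (hT (x 0) hx).1 h00.symm
      rcases hpath with h | h
      · rw [mid_iff h hz hx] at hm
        rcases hm with hm | hm
        · exact h.1.ne hm
        · exact h.2.2.2.2.2.2.1 hm
      · have hz' : ∀ z, z ∈ C ↔ z = u ∨ z = x 0 ∨ z = v ∨ z = w := fun z => by
          rw [hz z]; exact or_left_comm
        have hyv : G.Adj (y 0) v := (hT v hv).2 ((mid_iff h hz' hv).2 (Or.inr rfl))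
        have hyu : ¬ G.Adj (y 0) u := by
          intro hyu
          rcases (mid_iff h hz' hu).1 ((hT u hu).1 hyu) with e | e
          · exact h.1.ne e
          · exact h.2.2.2.2.2.2.1 e
        obtain ⟨h1, h2, h3, h4, h5, h6, h7, h8, h9⟩ := h
        have ov := outy v hyv h2.ne'
        have ou : ∀ i, u ≠ x i ∧ u ≠ y i := by
          intro i
          refine ⟨?_, ?_⟩
          · rintro rfl
            exact h4 (((hout v ov i 0).1.2 h2.symm).symm)
          · rintro rfl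
            by_cases hi : i = 0
            · exact hy (by rw [← hi]; exact hu)
            · exact hi ((hxy 0 i).1 h1.symm).symm
        exact fam_K2 hS hc ou ov h7 h4 h1.symm hyu h2 hyv
  · intro hy hx
    by_contra hcon
    push Not at hcon
    have hno : ∀ C', Adj4 G C C' → x 0 ∉ C' := hcon
    obtain ⟨u, v, w, hz, hpath⟩ := path_pos hC hy
    have hu : u ∈ C := (hz u).2 (by simp)
    have hv : v ∈ C := (hz v).2 (by simp)
    have hw : w ∈ C := (hz w).2 (by simp)
    have hnx : ∀ z ∈ C, z ≠ x 0 := fun z hz e => hx (e ▸ hz)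
    -- neighbours of `x 0` in `C` are not leaves
    have ney : ∀ z, G.Adj (x 0) z → z ≠ y 0 → ∀ i, z ≠ y i := by
      rintro z h1 h2 i rfl
      by_cases hi : i = 0
      · exact h2 (by rw [hi])
      · exact hi ((hxy 0 i).1 h1).symm
    rcases type_of_no_partner hC hx hno with hT | hT | hT
    · exact hT (y 0) hy h00
    · rcases hpath with h | h
      · obtain ⟨h1, h2, h3, h4, h5, h6, h7, h8, h9⟩ := h
        have ou := outy u h1 (hnx u hu)
        have hux : ∀ i, G.Adj u (x i) := fun i => (hout u ou i 0).1.2 (hT u hu).symm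
        have hwx : ∀ i, w ≠ x i := by
          rintro i rfl
          exact h6 (hux i)
        have ow : ∀ i, w ≠ x i ∧ w ≠ y i := fun i => ⟨hwx i, ney w (hT w hw) h8.symm i⟩
        by_cases hvx : ∃ i, v = x i
        · obtain ⟨i, rfl⟩ := hvx
          exact fam_K2 hS hc ow ou h9.symm (fun h => h6 h.symm) (hT w hw) h5 (hT u hu) h1
        · have ov : ∀ i, v ≠ x i ∧ v ≠ y i := fun i =>
            ⟨fun h => hvx ⟨i, h⟩, ney v (hT v hv) h7.symm i⟩
          exact fam_K3_end hS hc ou ov ow h2.ne h9 h3.ne h2 h6 h3 (hT u hu) h1 (hT v hv) h4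
            (hT w hw) h5
      · obtain ⟨h1, h2, h3, h4, h5, h6, h7, h8, h9⟩ := h
        have ou := outy u h1.symm (hnx u hu)
        have ov := outy v h2 (hnx v hv)
        have hux : ∀ i, G.Adj u (x i) := fun i => (hout u ou i 0).1.2 (hT u hu).symm
        have hwx : ∀ i, w ≠ x i := by
          rintro i rfl
          exact h5 (hux i)
        have ow : ∀ i, w ≠ x i ∧ w ≠ y i := fun i => ⟨hwx i, ney w (hT w hw) h9.symm i⟩
        exact fam_K3_mid hS hc ou ov ow h7 h8 h3.ne h4 h5 h3 (hT u hu) h1.symm (hT v hv) h2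
          (hT w hw) h6
    · have hm : Mid G C (y 0) := (hT (y 0) hy).1 h00
      rcases hpath with h | h
      · rw [mid_iff h hz hy] at hm
        rcases hm with hm | hm
        · exact h.1.ne hm
        · exact h.2.2.2.2.2.2.1 hm
      · have hz' : ∀ z, z ∈ C ↔ z = u ∨ z = y 0 ∨ z = v ∨ z = w := fun z => by
          rw [hz z]; exact or_left_comm
        have hxv : G.Adj (x 0) v := (hT v hv).2 ((mid_iff h hz' hv).2 (Or.inr rfl))
        have hxu : ¬ G.Adj (x 0) u := by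
          intro hxu
          rcases (mid_iff h hz' hu).1 ((hT u hu).1 hxu) with e | e
          · exact h.1.ne e
          · exact h.2.2.2.2.2.2.1 e
        obtain ⟨h1, h2, h3, h4, h5, h6, h7, h8, h9⟩ := h
        have ou := outy u h1.symm (hnx u hu)
        have ov := outy v h2 (hnx v hv)
        exact fam_K4 hS hc ou ov h7 h4 hxu h1.symm hxv h2

end Pool.Agent.CW
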