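import Pool.Agent.CW.ModD0

/-! Module D3 for `S08819` (MP_563ce7_co): the component of a non-isolated induced path covers
all vertices but at most one. -/

set_option autoImplicit false

namespace Pool.Agent.CW

variable {V : Type} {G : SimpleGraph V}

theorem Adj4.three {B C : Finset V} (h : Adj4 G B C) :
    ∃ p q r, p ∈ B ∧ q ∈ B ∧ r ∈ B ∧ p ∈ C ∧ q ∈ C ∧ r ∈ C ∧ p ≠ q ∧ p ≠ r ∧ q ≠ r := by
  classical
  obtain ⟨hB, hC, x, y, hx, hy, hz⟩ := h
  have h3 : (B.erase x).card = 3 := by rw [Finset.card_erase_of_mem hx, hB.card]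
  obtain ⟨p, q, r, hpq, hpr, hqr, he⟩ := Finset.card_eq_three.1 h3
  have hmem : ∀ t ∈ B.erase x, t ∈ B ∧ t ∈ C := by
    intro t ht
    rw [Finset.mem_erase] at ht
    exact ⟨ht.2, (hz t).2 (Or.inr ⟨ht.2, ht.1⟩)⟩
  have hp := hmem p (by rw [he]; simp)
  have hq := hmem q (by rw [he]; simp)
  have hr := hmem r (by rw [he]; simp)
  exact ⟨p, q, r, hp.1, hq.1, hr.1, hp.2, hq.2, hr.2, hpq, hpr, hqr⟩

/-- an outside partner and its three helpers -/
theorem Adj4.partner {B D : Finset V} (h : Adj4 G B D) {z : V} (hzD : z ∈ D) (hzB : z ∉ B) :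
    ∃ p q r, p ∈ B ∧ q ∈ B ∧ r ∈ B ∧ ∀ t, t ∈ D ↔ t = z ∨ t = p ∨ t = q ∨ t = r := by
  classical
  obtain ⟨hB, hC, x, y, hx, hy, hz⟩ := h
  have h3 : (B.erase x).card = 3 := by rw [Finset.card_erase_of_mem hx, hB.card]
  obtain ⟨p, q, r, hpq, hpr, hqr, he⟩ := Finset.card_eq_three.1 h3
  have hzy : z = y := by
    rcases (hz z).1 hzD with h | h
    · exact h
    · exact absurd h.1 hzB
  have hmem : ∀ t ∈ B.erase x, t ∈ B := fun t ht => Finset.mem_of_mem_erase ht
  refine ⟨p, q, r, hmem p (by rw [he]; simp), hmem q (by rw [he]; simp),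
    hmem r (by rw [he]; simp), fun t => ?_⟩
  rw [hz t, hzy]
  have : t ∈ B ∧ t ≠ x ↔ t ∈ B.erase x := by rw [Finset.mem_erase]; tauto
  rw [this, he]
  simp

/-- type null -/
def TyN (G : SimpleGraph V) (y : V) (B : Finset V) : Prop := ∀ s ∈ B, ¬ G.Adj y s

/-- type total -/
def TyT (G : SimpleGraph V) (y : V) (B : Finset V) : Prop := ∀ s ∈ B, G.Adj y s

/-- type mid -/
def TyM (G : SimpleGraph V) (y : V) (B : Finset V) : Prop := ∀ s ∈ B, (G.Adj y s ↔ Mid G B s)

theorem ty_cases {B : Finset V} (hB : IsP4 G B) {y : V} (hy : y ∉ B)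
    (hno : ∀ C, Adj4 G B C → y ∉ C) : TyN G y B ∨ TyT G y B ∨ TyM G y B :=
  type_of_no_partner hB hy hno

theorem ty_step {B C : Finset V} (h : Adj4 G B C) {y : V} (hC : y ∉ C)
    (hno : ∀ D, Adj4 G C D → y ∉ D) :
    (TyN G y B → TyN G y C) ∧ (TyT G y B → TyT G y C) ∧ (TyM G y B → TyM G y C) := by
  obtain ⟨p, q, r, hp, hq, hr, hp', hq', hr', h1, h2, h3⟩ := h.three
  have hmB := exists_mid h.1 hp hq hr h1 h2 h3
  have hmC := exists_mid h.2.1 hp' hq' hr' h1 h2 h3
  have hty := ty_cases h.2.1 hC hno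
  refine ⟨fun hN => ?_, fun hT => ?_, fun hM => ?_⟩
  · rcases hty with h | h | h
    · exact h
    · exact absurd (h p hp') (hN p hp)
    · rw [← h p hp', ← h q hq', ← h r hr'] at hmC
      have := hN p hp; have := hN q hq; have := hN r hr
      tauto
  · rcases hty with h | h | h
    · exact absurd (hT p hp) (h p hp')
    · exact h
    · rw [← h p hp', ← h q hq', ← h r hr'] at hmC
      have := hT p hp; have := hT q hq; have := hT r hr
      tauto
  · rw [← hM p hp, ← hM q hq, ← hM r hr] at hmB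
    rcases hty with h | h | h
    · have := h p hp'; have := h q hq'; have := h r hr'
      tauto
    · have := h p hp'; have := h q hq'; have := h r hr'
      tauto
    · exact h

theorem ty_const {B0 : Finset V} {y : V} (hy : ∀ n B, Walk4 G n B0 B → y ∉ B) {n : ℕ}
    {B : Finset V} (h : Walk4 G n B0 B) :
    (TyN G y B0 → TyN G y B) ∧ (TyT G y B0 → TyT G y B) ∧ (TyM G y B0 → TyM G y B) := by
  induction h with
  | zero => exact ⟨id, id, id⟩
  | succ hw hadj ih =>
    have h1 := ty_step hadj (hy _ _ (hw.succ hadj)) (fun D hD => hy _ _ ((hw.succ hadj).succ hD))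
    have h2 := ih hy
    exact ⟨h1.1 ∘ h2.1, h1.2.1 ∘ h2.2.1, h1.2.2 ∘ h2.2.2⟩

theorem TyM.path {a b c d m : V} {B : Finset V} (hm : TyM G m B) (hp : Path4 G a b c d)
    (hB : ∀ x, x ∈ B ↔ x = a ∨ x = b ∨ x = c ∨ x = d) :
    ¬ G.Adj m a ∧ G.Adj m b ∧ G.Adj m c ∧ ¬ G.Adj m d := by
  obtain ⟨h1, h2, h3, h4, h5, h6⟩ := hp.ne
  have ha : a ∈ B := (hB a).2 (by simp)
  have hb : b ∈ B := (hB b).2 (by simp)
  have hc : c ∈ B := (hB c).2 (by simp)
  have hd : d ∈ B := (hB d).2 (by simp)
  rw [hm a ha, hm b hb, hm c hc, hm d hd, mid_iff hp hB ha, mid_iff hp hB hb, mid_iff hp hB hc,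
    mid_iff hp hB hd]
  refine ⟨?_, by simp, by simp, ?_⟩
  · rintro (h | h)
    · exact h1 h
    · exact h4 h
  · rintro (h | h)
    · exact h6 h.symm
    · exact h3 h.symm

theorem TyM.cross {m z : V} {D : Finset V} (hm : TyM G m D) (hD : IsP4 G D) (hz : z ∈ D) :
    ∃ t ∈ D, G.Adj z t ∧ (G.Adj m t ↔ ¬ G.Adj m z) := by
  obtain ⟨p, q, r, s, hp, hDs⟩ := hD
  obtain ⟨e1, e2, e3, e4⟩ := hm.path hp hDs
  rcases (hDs z).1 hz with rfl | rfl | rfl | rfl
  · exact ⟨q, (hDs q).2 (by simp), hp.1, by tauto⟩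
  · exact ⟨p, (hDs p).2 (by simp), hp.1.symm, by tauto⟩
  · exact ⟨s, (hDs s).2 (by simp), hp.2.2.1, by tauto⟩
  · exact ⟨r, (hDs r).2 (by simp), hp.2.2.1.symm, by tauto⟩

theorem TyM.parity {m z a b c : V} {D : Finset V} (hm : TyM G m D) (hD : IsP4 G D)
    (hset : ∀ t, t ∈ D ↔ t = z ∨ t = a ∨ t = b ∨ t = c) :
    (G.Adj m z ↔ (Xor (G.Adj m a) (Xor (G.Adj m b) (G.Adj m c)))) := by
  classical
  obtain ⟨p, q, r, s, hp, hDs⟩ := hD
  obtain ⟨e1, e2, e3, e4⟩ := hm.path hp hDs
  have hn : [p, q, r, s].Nodup := by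
    obtain ⟨h1, h2, h3, h4, h5, h6⟩ := hp.ne
    simp [h1, h2, h3, h4, h5, h6]
  have hperm := perm4 hn (fun t => (hDs t).symm.trans (hset t))
  have hsum := (hperm.map (fun t => if G.Adj m t then (1 : ZMod 2) else 0)).sum_eq
  have h0 : ([p, q, r, s].map (fun t => if G.Adj m t then (1 : ZMod 2) else 0)).sum = 0 := by
    simp only [List.map_cons, e1, e2, e3, e4, if_true, if_false, List.map_nil, List.sum_cons,
      List.sum_nil]
    decide
  rw [h0] at hsum
  simp only [List.map_cons, List.map_nil, List.sum_cons, List.sum_nil] at hsum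
  by_cases A : G.Adj m z <;> by_cases B : G.Adj m a <;> by_cases C : G.Adj m b <;>
    by_cases D : G.Adj m c <;> simp only [A, B, C, D, if_true, if_false] at hsum <;>
    first
      | exact absurd hsum (by decide)
      | simp [A, B, C, D, Xor]

/-! ### Counting -/

open Classical in
/-- induced paths inside `S` -/
noncomputable def pset (G : SimpleGraph V) (S : Finset V) : Finset (Finset V) :=
  (S.powersetCard 4).filter (fun A => IsP4 G A)

theorem mem_pset {S A : Finset V} : A ∈ pset G S ↔ IsP4 G A ∧ A ⊆ S := by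
  classical
  simp only [pset, Finset.mem_filter, Finset.mem_powersetCard]
  constructor
  · rintro ⟨⟨h1, _⟩, h2⟩; exact ⟨h2, h1⟩
  · rintro ⟨h1, h2⟩; exact ⟨⟨h2, h1.card⟩, h1⟩

theorem pset_le {S : Finset V} {F : Finset (Finset V)}
    (hF : ∀ A ∈ F, IsP4 G A ∧ A ⊆ S) : F.card ≤ (pset G S).card :=
  Finset.card_le_card (fun A hA => mem_pset.2 (hF A hA))

open Classical in
/-- crossing edges, first the `true` side -/
noncomputable def cr (G : SimpleGraph V) (σ : V → Bool) (S : Finset V) : Finset (V × V) :=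
  (S ×ˢ S).filter (fun p => σ p.1 = true ∧ σ p.2 = false ∧ G.Adj p.1 p.2)

theorem mem_cr {σ : V → Bool} {S : Finset V} {p : V × V} :
    p ∈ cr G σ S ↔ p.1 ∈ S ∧ p.2 ∈ S ∧ σ p.1 = true ∧ σ p.2 = false ∧ G.Adj p.1 p.2 := by
  classical
  simp [cr, and_assoc]

/-- adding an adjacent pair of type (mid, null) -/
theorem pair_gain {σ : V → Bool} {S : Finset V} [DecidableEq V] {m n : V}
    (hm : m ∉ S) (hn : n ∉ S) (hmn : G.Adj m n) (hM : ∀ s ∈ S, G.Adj m s ↔ σ s = true)
    (hN : ∀ s ∈ S, ¬ G.Adj n s) :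
    (pset G S).card + (cr G σ S).card ≤ (pset G (insert n (insert m S))).card := by
  classical
  have hinj : Set.InjOn (fun p : V × V => ({n, m, p.1, p.2} : Finset V)) (cr G σ S) := by
    rintro ⟨s1, s2⟩ hs ⟨t1, t2⟩ ht heq
    rw [Finset.mem_coe, mem_cr] at hs ht
    obtain ⟨a1, a2, a3, a4, a5⟩ := hs
    obtain ⟨b1, b2, b3, b4, b5⟩ := ht
    simp only at a1 a2 a3 a4 a5 b1 b2 b3 b4 b5 heq
    have h1 : s1 ∈ ({n, m, t1, t2} : Finset V) := by rw [← heq]; simp
    have h2 : s2 ∈ ({n, m, t1, t2} : Finset V) := by rw [← heq]; simp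
    simp only [Finset.mem_insert, Finset.mem_singleton] at h1 h2
    have e1 : s1 = t1 := by
      rcases h1 with rfl | rfl | h | rfl
      · exact absurd a1 hn
      · exact absurd a1 hm
      · exact h
      · rw [a3] at b4; exact absurd b4 (by simp)
    have e2 : s2 = t2 := by
      rcases h2 with rfl | rfl | rfl | h
      · exact absurd a2 hn
      · exact absurd a2 hm
      · rw [a4] at b3; exact absurd b3 (by simp)
      · exact h
    rw [e1, e2]
  have hdisj : Disjoint (pset G S)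
      ((cr G σ S).image (fun p : V × V => ({n, m, p.1, p.2} : Finset V))) := by
    rw [Finset.disjoint_left]
    intro A hA hA'
    rw [Finset.mem_image] at hA'
    obtain ⟨p, _, rfl⟩ := hA'
    exact hn ((mem_pset.1 hA).2 (by simp))
  rw [← Finset.card_image_of_injOn hinj, ← Finset.card_union_of_disjoint hdisj]
  refine pset_le (fun A hA => ?_)
  rcases Finset.mem_union.1 hA with hA | hA
  · have := mem_pset.1 hA
    exact ⟨this.1, this.2.trans ((Finset.subset_insert _ _).trans (Finset.subset_insert _ _))⟩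
  · rw [Finset.mem_image] at hA
    obtain ⟨⟨s1, s2⟩, hp, rfl⟩ := hA
    obtain ⟨a1, a2, a3, a4, a5⟩ := mem_cr.1 hp
    simp only at a1 a2 a3 a4 a5
    constructor
    · refine ⟨n, m, s1, s2, ⟨hmn.symm, (hM s1 a1).2 a3, a5, hN s1 a1, hN s2 a2, ?_, ?_, ?_, ?_⟩,
        by simp⟩
      · intro h; have := (hM s2 a2).1 h; rw [a4] at this; exact absurd this (by simp)
      · rintro rfl; exact hn a1
      · rintro rfl; exact hn a2
      · rintro rfl; exact hm a2
    · intro z hz
      simp only [Finset.mem_insert, Finset.mem_singleton] at hz ⊢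
      rcases hz with rfl | rfl | rfl | rfl <;> simp_all

/-- splitting a pair in a prime graph -/
theorem PrimeG.split (hG : PrimeG G) {a y w : V} (hay : a ≠ y) (hwa : w ≠ a) (hwy : w ≠ y) :
    ∃ z, z ≠ a ∧ z ≠ y ∧ ¬ (G.Adj z a ↔ G.Adj z y) := by
  by_contra hcon
  push Not at hcon
  have hmod : IsMod G ({a, y} : Set V) := by
    intro v hv p hp q hq
    simp only [Set.mem_insert_iff, Set.mem_singleton_iff, not_or] at hv hp hq
    have := hcon v hv.1 hv.2
    rcases hp with rfl | rfl <;> rcases hq with rfl | rfl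
    · exact Iff.rfl
    · exact this
    · exact this.symm
    · exact Iff.rfl
  rcases hG _ hmod with h | h
  · exact hay (h (by simp) (by simp))
  · have : w ∈ ({a, y} : Set V) := by rw [h]; trivial
    simp only [Set.mem_insert_iff, Set.mem_singleton_iff] at this
    rcases this with h | h
    · exact hwa h
    · exact hwy h

theorem core (hG : PrimeG G) (hS : Star G) {B0 B1 : Finset V} (h01 : Adj4 G B0 B1) {m n : V}
    (hmK : ∀ k B, Walk4 G k B0 B → TyM G m B ∧ m ∉ B)
    (hnK : ∀ k B, Walk4 G k B0 B → TyN G n B ∧ n ∉ B) (hmn : G.Adj m n)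
    {σ : V → Bool} (hσm : σ m = true) (hσn : σ n = false)
    (hσ : ∀ s, s ≠ m → s ≠ n → (σ s = true ↔ G.Adj m s))
    {l : List V} (hl : Good G σ l) (h5 : l.length = 5)
    (hlS : ∀ v ∈ l, v ∈ B0 ∨ v ∈ B1) (hl0 : ∀ v ∈ B0, v ∈ l) (hl1 : ∀ v ∈ B1, v ∈ l)
    {a y : V} (ha : a ∈ B0) (hy : y ∈ B1) (hay : a ≠ y) (haσ : G.Adj m a ↔ G.Adj m y)
    {w : V} (hwa : w ≠ a) (hwy : w ≠ y)
    (htw : ∀ v ∈ l, v ≠ a → v ≠ y → (G.Adj v a ↔ G.Adj v y))
    (hcr : ∀ S : Finset V, (∀ v ∈ l, v ∈ S) → ∃ E ⊆ cr G σ S, E.card = 3 ∧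
      ∀ e ∈ E, e.1 ∈ l ∧ e.2 ∈ l) : False := by
  classical
  have hW0 : Walk4 G 0 B0 B0 := Walk4.zero h01.1
  have hW1 : Walk4 G 1 B0 B1 := Walk4.succ hW0 h01
  obtain ⟨z, hza, hzy, hz⟩ := hG.split hay hwa hwy
  have hzl : z ∉ l := fun h => hz (htw z h hza hzy)
  have hz0 : z ∉ B0 := fun h => hzl (hl0 z h)
  have hz1 : z ∉ B1 := fun h => hzl (hl1 z h)
  -- a member of the component through `z`
  have hD : ∃ (D : Finset V) (k : ℕ), Walk4 G k B0 D ∧ z ∈ D ∧ ∃ p ∈ l, ∃ q ∈ l, ∃ r ∈ l,
      ∀ t, t ∈ D ↔ t = z ∨ t = p ∨ t = q ∨ t = r := by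
    by_contra hcon
    have hno0 : ∀ D, Adj4 G B0 D → z ∉ D := by
      intro D hD hzD
      obtain ⟨p, q, r, hp, hq, hr, ht⟩ := hD.partner hzD hz0
      exact hcon ⟨D, 1, Walk4.succ hW0 hD, hzD, p, hl0 p hp, q, hl0 q hq, r, hl0 r hr, ht⟩
    have hno1 : ∀ D, Adj4 G B1 D → z ∉ D := by
      intro D hD hzD
      obtain ⟨p, q, r, hp, hq, hr, ht⟩ := hD.partner hzD hz1
      exact hcon ⟨D, 2, Walk4.succ hW1 hD, hzD, p, hl1 p hp, q, hl1 q hq, r, hl1 r hr, ht⟩
    have hstep := ty_step h01 hz1 hno1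
    have hm0 := (hmK _ _ hW0).1 a ha
    have hm1 := (hmK _ _ hW1).1 y hy
    rcases ty_cases h01.1 hz0 hno0 with h | h | h
    · have h1 := h a ha
      have h2 := hstep.1 h y hy
      tauto
    · have h1 := h a ha
      have h2 := hstep.2.1 h y hy
      tauto
    · have h1 := h a ha
      have h2 := hstep.2.2 h y hy
      tauto
  obtain ⟨D, k, hWD, hzD, p, hp, q, hq, r, hr, hDs⟩ := hD
  have hDP : IsP4 G D := hWD.right
  have hmD := (hmK _ _ hWD)
  have hnD := (hnK _ _ hWD)
  -- vertices of `l` and `z` differ from `m`, `n`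
  have hlm : ∀ v ∈ l, v ≠ m ∧ v ≠ n := by
    intro v hv
    rcases hlS v hv with h | h
    · exact ⟨fun e => (hmK _ _ hW0).2 (e ▸ h), fun e => (hnK _ _ hW0).2 (e ▸ h)⟩
    · exact ⟨fun e => (hmK _ _ hW1).2 (e ▸ h), fun e => (hnK _ _ hW1).2 (e ▸ h)⟩
  have hzm : z ≠ m ∧ z ≠ n := ⟨fun e => hmD.2 (e ▸ hzD), fun e => hnD.2 (e ▸ hzD)⟩
  have hlm' : ∀ v ∈ z :: l, v ≠ m ∧ v ≠ n := by
    intro v hv
    rcases List.mem_cons.1 hv with rfl | hv
    · exact hzm
    · exact hlm v hv
  have hσ' : ∀ v ∈ z :: l, (σ v = true ↔ G.Adj m v) := fun v hv =>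
    hσ v (hlm' v hv).1 (hlm' v hv).2
  have hnl : ∀ v ∈ z :: l, ¬ G.Adj n v := by
    intro v hv
    rcases List.mem_cons.1 hv with rfl | hv
    · exact hnD.1 v hzD
    · rcases hlS v hv with h | h
      · exact (hnK _ _ hW0).1 v h
      · exact (hnK _ _ hW1).1 v h
  have hG6 : Good G σ (z :: l) := by
    refine Good.part hl hzl hp hq hr hDP hDs ?_
    have h1 := hmD.1.parity hDP hDs
    rw [← hσ' z (by simp), ← hσ' p (by simp [hp]), ← hσ' q (by simp [hq]),
      ← hσ' r (by simp [hr])] at h1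
    revert h1
    cases σ z <;> cases σ p <;> cases σ q <;> cases σ r <;> simp [Xor]
  have hG8 : Good G σ (n :: m :: z :: l) :=
    Good.pairN hG6 (fun h => (hlm' m h).1 rfl) (fun h => (hlm' n h).2 rfl) hmn
      (fun s hs => (hσ' s hs).symm) hnl hσm hσn
  -- counting
  set S : Finset V := (z :: l).toFinset with hSdef
  have hmemS : ∀ v, v ∈ S ↔ v ∈ z :: l := fun v => by rw [hSdef, List.mem_toFinset]
  have hps : 3 ≤ (pset G S).card := by
    have hsub : ({D, B0, B1} : Finset (Finset V)) ⊆ pset G S := by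
      intro A hA
      simp only [Finset.mem_insert, Finset.mem_singleton] at hA
      rw [mem_pset]
      rcases hA with rfl | rfl | rfl
      · refine ⟨hDP, fun v hv => (hmemS v).2 ?_⟩
        rcases (hDs v).1 hv with rfl | rfl | rfl | rfl
        · exact List.mem_cons_self
        · exact List.mem_cons_of_mem _ hp
        · exact List.mem_cons_of_mem _ hq
        · exact List.mem_cons_of_mem _ hr
      · exact ⟨h01.1, fun v hv => (hmemS v).2 (List.mem_cons_of_mem _ (hl0 v hv))⟩
      · exact ⟨h01.2.1, fun v hv => (hmemS v).2 (List.mem_cons_of_mem _ (hl1 v hv))⟩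
    have h3 : ({D, B0, B1} : Finset (Finset V)).card = 3 := by
      refine Finset.card_eq_three.2 ⟨D, B0, B1, ?_, ?_, ?_, rfl⟩
      · rintro rfl; exact hz0 hzD
      · rintro rfl; exact hz1 hzD
      · rintro rfl
        obtain ⟨_, _, x', y', hx', hy', hz'⟩ := h01
        exact hy' ((hz' y').2 (Or.inl rfl))
    rw [← h3]
    exact Finset.card_le_card hsub
  have hcs : 4 ≤ (cr G σ S).card := by
    obtain ⟨E, hE, hE3, hEl⟩ := hcr S (fun v hv => (hmemS v).2 (List.mem_cons_of_mem _ hv))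
    obtain ⟨t, htD, hzt, htm⟩ := hmD.1.cross hDP hzD
    have htl : t ∈ z :: l := by
      rcases (hDs t).1 htD with rfl | rfl | rfl | rfl
      · exact List.mem_cons_self
      · exact List.mem_cons_of_mem _ hp
      · exact List.mem_cons_of_mem _ hq
      · exact List.mem_cons_of_mem _ hr
    have h1 := hσ' z (by simp)
    have h2 := hσ' t htl
    have hex : ∃ e ∈ cr G σ S, e.1 = z ∨ e.2 = z := by
      cases hs : σ z
      · rw [hs] at h1
        have hmz : ¬ G.Adj m z := fun h => by simpa using h1.2 h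
        have hst : σ t = true := h2.2 (htm.2 hmz)
        exact ⟨(t, z), mem_cr.2 ⟨(hmemS t).2 htl, (hmemS z).2 (by simp), hst, hs, hzt.symm⟩,
          Or.inr rfl⟩
      · have hmz : G.Adj m z := h1.1 hs
        have hst : σ t = false := by
          cases ht : σ t
          · rfl
          · exact absurd hmz (htm.1 (h2.1 ht))
        exact ⟨(z, t), mem_cr.2 ⟨(hmemS z).2 (by simp), (hmemS t).2 htl, hs, hst, hzt⟩,
          Or.inl rfl⟩
    obtain ⟨e, he, hez⟩ := hex
    have heE : e ∉ E := by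
      intro h
      have := hEl e h
      rcases hez with h' | h'
      · rw [h'] at this; exact hzl this.1
      · rw [h'] at this; exact hzl this.2
    have hsub : insert e E ⊆ cr G σ S := Finset.insert_subset he hE
    have := Finset.card_le_card hsub
    rw [Finset.card_insert_of_notMem heE, hE3] at this
    exact this
  have hmS : m ∉ S := fun h => (hlm' m ((hmemS m).1 h)).1 rfl
  have hnS : n ∉ S := fun h => (hlm' n ((hmemS n).1 h)).2 rfl
  have hgain := pair_gain hmS hnS hmn (fun s hs => (hσ' s ((hmemS s).1 hs)).symm)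
    (fun s hs => hnl s ((hmemS s).1 hs))
  have hstar := hS σ _ hG8 (by simp [h5]) (by simp [h5]) (pset G (insert n (insert m S)))
    (fun A hA => by
      rw [mem_pset] at hA
      refine ⟨hA.1, fun v hv => ?_⟩
      have := hA.2 hv
      rw [Finset.mem_insert, Finset.mem_insert, hmemS] at this
      simp only [List.mem_cons] at this ⊢
      exact this)
  simp only [List.length_cons, h5] at hstar
  omega


theorem twin_end {a b c d y m : V} {B1 : Finset V} (hp : Path4 G a b c d) (hB1 : IsP4 G B1)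
    (hmem : ∀ t, t ∈ B1 ↔ t = y ∨ t = b ∨ t = c ∨ t = d) (hyb : y ≠ b) (hyc : y ≠ c)
    (hyd : y ≠ d) (hm : TyM G m B1) (mb : G.Adj m b) (mc : G.Adj m c) (md : ¬ G.Adj m d) :
    G.Adj y b ∧ ¬ G.Adj y c ∧ ¬ G.Adj y d ∧ ¬ G.Adj m y := by
  obtain ⟨p, q, r, s, hP, hDs⟩ := hB1
  obtain ⟨e1, e2, e3, e4⟩ := hm.path hP hDs
  have hbc : b ≠ c := hp.2.1.ne
  have hb := (hDs b).1 ((hmem b).2 (by simp))
  have hc := (hDs c).1 ((hmem c).2 (by simp))
  have hd := (hDs d).1 ((hmem d).2 (by simp))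
  have hy := (hDs y).1 ((hmem y).2 (by simp))
  rcases hb with rfl | rfl | rfl | rfl
  · exact absurd mb e1
  · rcases hc with rfl | rfl | rfl | rfl
    · exact absurd mc e1
    · exact absurd rfl hbc
    · rcases hd with rfl | rfl | rfl | rfl
      · exact absurd hp.2.2.1 (fun h => hP.2.2.2.1 h.symm)
      · exact absurd e2 md
      · exact absurd e3 md
      · rcases hy with rfl | rfl | rfl | rfl
        · exact ⟨hP.1, hP.2.2.2.1, hP.2.2.2.2.1, e1⟩
        · exact absurd rfl hyb
        · exact absurd rfl hyc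
        · exact absurd rfl hyd
    · exact absurd mc e4
  · rcases hc with rfl | rfl | rfl | rfl
    · exact absurd mc e1
    · rcases hd with rfl | rfl | rfl | rfl
      · rcases hy with rfl | rfl | rfl | rfl
        · exact absurd rfl hyd
        · exact absurd rfl hyc
        · exact absurd rfl hyb
        · exact ⟨hP.2.2.1.symm, fun h => hP.2.2.2.2.2.1 h.symm, fun h => hP.2.2.2.2.1 h.symm, e4⟩
      · exact absurd e2 md
      · exact absurd e3 md
      · exact absurd hp.2.2.1 hP.2.2.2.2.2.1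
    · exact absurd rfl hbc
    · exact absurd mc e4
  · exact absurd mb e4

theorem twin_mid {a b c d y m : V} {B1 : Finset V} (hp : Path4 G a b c d) (hB1 : IsP4 G B1)
    (hmem : ∀ t, t ∈ B1 ↔ t = y ∨ t = a ∨ t = c ∨ t = d) (hya : y ≠ a) (hyc : y ≠ c)
    (hyd : y ≠ d) (hm : TyM G m B1) (ma : ¬ G.Adj m a) (mc : G.Adj m c) (md : ¬ G.Adj m d) :
    G.Adj y a ∧ G.Adj y c ∧ ¬ G.Adj y d ∧ G.Adj m y := by
  obtain ⟨p, q, r, s, hP, hDs⟩ := hB1
  obtain ⟨e1, e2, e3, e4⟩ := hm.path hP hDs
  have had : a ≠ d := hp.ne.2.2.2.2.1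
  have ha := (hDs a).1 ((hmem a).2 (by simp))
  have hc := (hDs c).1 ((hmem c).2 (by simp))
  have hd := (hDs d).1 ((hmem d).2 (by simp))
  have hy := (hDs y).1 ((hmem y).2 (by simp))
  rcases hc with rfl | rfl | rfl | rfl
  · exact absurd mc e1
  · rcases hd with rfl | rfl | rfl | rfl
    · rcases ha with rfl | rfl | rfl | rfl
      · exact absurd rfl had
      · exact absurd e2 ma
      · exact absurd e3 ma
      · rcases hy with rfl | rfl | rfl | rfl
        · exact absurd rfl hyd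
        · exact absurd rfl hyc
        · exact ⟨hP.2.2.1, hP.2.1.symm, fun h => hP.2.2.2.1 h.symm, e3⟩
        · exact absurd rfl hya
    · exact absurd e2 md
    · exact absurd e3 md
    · exact absurd hp.2.2.1 hP.2.2.2.2.2.1
  · rcases hd with rfl | rfl | rfl | rfl
    · exact absurd hp.2.2.1 (fun h => hP.2.2.2.1 h.symm)
    · exact absurd e2 md
    · exact absurd e3 md
    · rcases ha with rfl | rfl | rfl | rfl
      · rcases hy with rfl | rfl | rfl | rfl
        · exact absurd rfl hya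
        · exact ⟨hP.1.symm, hP.2.1, hP.2.2.2.2.2.1, e2⟩
        · exact absurd rfl hyc
        · exact absurd rfl hyd
      · exact absurd e2 ma
      · exact absurd e3 ma
      · exact absurd rfl had
  · exact absurd mc e4

theorem pair_false (hG : PrimeG G) (hS : Star G) {B0 B1 : Finset V} (h01 : Adj4 G B0 B1)
    {m n : V} (hm : ∀ k B, Walk4 G k B0 B → m ∉ B) (hn : ∀ k B, Walk4 G k B0 B → n ∉ B)
    (hmn : G.Adj m n) (hM : TyM G m B0) (hN : TyN G n B0) : False := by
  classical
  have hmK : ∀ k B, Walk4 G k B0 B → TyM G m B ∧ m ∉ B := fun k B hB =>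
    ⟨(ty_const hm hB).2.2 hM, hm k B hB⟩
  have hnK : ∀ k B, Walk4 G k B0 B → TyN G n B ∧ n ∉ B := fun k B hB =>
    ⟨(ty_const hn hB).1 hN, hn k B hB⟩
  have hW0 : Walk4 G 0 B0 B0 := Walk4.zero h01.1
  have hW1 : Walk4 G 1 B0 B1 := Walk4.succ hW0 h01
  have hmB1 := (hmK _ _ hW1).1
  obtain ⟨hB0, hB1, x, y, hx, hy, hz⟩ := id h01
  set σ : V → Bool := fun v => decide (v = m ∨ (v ≠ n ∧ G.Adj m v)) with hσdef
  have hσm : σ m = true := by simp [hσdef]
  have hσn : σ n = false := by simp [hσdef, hmn.ne']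
  have hσ : ∀ s, s ≠ m → s ≠ n → (σ s = true ↔ G.Adj m s) := by
    intro s h1 h2
    simp [hσdef, h1, h2]
  have hyB1 : y ∈ B1 := (hz y).2 (Or.inl rfl)
  have main : ∀ a b c d, Path4 G a b c d → (∀ t, t ∈ B0 ↔ t = a ∨ t = b ∨ t = c ∨ t = d) →
      (x = a ∨ x = b) → False := by
    intro a b c d hp hB hxab
    obtain ⟨ma, mb, mc, md⟩ := hM.path hp hB
    have ha : a ∈ B0 := (hB a).2 (by simp)
    have hb : b ∈ B0 := (hB b).2 (by simp)
    have hc : c ∈ B0 := (hB c).2 (by simp)
    have hd : d ∈ B0 := (hB d).2 (by simp)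
    have hya : y ≠ a := fun e => hy (e ▸ ha)
    have hyb : y ≠ b := fun e => hy (e ▸ hb)
    have hyc : y ≠ c := fun e => hy (e ▸ hc)
    have hyd : y ≠ d := fun e => hy (e ▸ hd)
    obtain ⟨n1, n2, n3, n4, n5, n6⟩ := hp.ne
    have hne0 : ∀ s ∈ B0, s ≠ m ∧ s ≠ n := fun s hs =>
      ⟨fun e => (hmK _ _ hW0).2 (e ▸ hs), fun e => (hnK _ _ hW0).2 (e ▸ hs)⟩
    have hne1 : ∀ s ∈ B1, s ≠ m ∧ s ≠ n := fun s hs =>
      ⟨fun e => (hmK _ _ hW1).2 (e ▸ hs), fun e => (hnK _ _ hW1).2 (e ▸ hs)⟩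
    have toF : ∀ s, s ≠ m → s ≠ n → ¬ G.Adj m s → σ s = false := by
      intro s h1 h2 h3
      cases h : σ s
      · rfl
      · exact absurd ((hσ s h1 h2).1 h) h3
    have sa : σ a = false := toF a (hne0 a ha).1 (hne0 a ha).2 ma
    have sb : σ b = true := (hσ b (hne0 b hb).1 (hne0 b hb).2).2 mb
    have sc : σ c = true := (hσ c (hne0 c hc).1 (hne0 c hc).2).2 mc
    have sd : σ d = false := toF d (hne0 d hd).1 (hne0 d hd).2 md
    have hbase : Good G σ [a, b, c, d] := Good.base hp sa sb sc sd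
    have hynl : y ∉ [a, b, c, d] := by simp [hya, hyb, hyc, hyd]
    rcases hxab with rfl | rfl
    · -- `x` is an end
      have hmem : ∀ t, t ∈ B1 ↔ t = y ∨ t = b ∨ t = c ∨ t = d := by
        intro t
        rw [hz t, hB t]
        constructor
        · rintro (h | ⟨h | h | h | h, h'⟩)
          · exact Or.inl h
          · exact absurd h h'
          · exact Or.inr (Or.inl h)
          · exact Or.inr (Or.inr (Or.inl h))
          · exact Or.inr (Or.inr (Or.inr h))
        · rintro (h | h | h | h)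
          · exact Or.inl h
          · exact Or.inr ⟨Or.inr (Or.inl h), by rw [h]; exact n1.symm⟩
          · exact Or.inr ⟨Or.inr (Or.inr (Or.inl h)), by rw [h]; exact n4.symm⟩
          · exact Or.inr ⟨Or.inr (Or.inr (Or.inr h)), by rw [h]; exact n5.symm⟩
      obtain ⟨f1, f2, f3, f4⟩ := twin_end hp hB1 hmem hyb hyc hyd hmB1 mb mc md
      have sy : σ y = false := toF y (hne1 y hyB1).1 (hne1 y hyB1).2 f4
      have hG5 : Good G σ [y, x, b, c, d] :=
        Good.part hbase hynl (by simp) (by simp) (by simp) hB1 hmem (by simp [sy, sb, sc, sd])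
      refine core hG hS h01 hmK hnK hmn hσm hσn hσ hG5 rfl ?_ ?_ ?_ ha hyB1 hya.symm
        (by tauto) n1.symm hyb.symm ?_ ?_
      · intro v hv
        simp only [List.mem_cons, List.not_mem_nil, or_false] at hv
        rcases hv with rfl | rfl | rfl | rfl | rfl
        · exact Or.inr hyB1
        · exact Or.inl ha
        · exact Or.inl hb
        · exact Or.inl hc
        · exact Or.inl hd
      · intro v hv
        simp only [List.mem_cons, List.not_mem_nil, or_false]
        exact Or.inr ((hB v).1 hv)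
      · intro v hv
        simp only [List.mem_cons, List.not_mem_nil, or_false]
        have := (hmem v).1 hv
        tauto
      · intro v hv h1 h2
        simp only [List.mem_cons, List.not_mem_nil, or_false] at hv
        rcases hv with rfl | rfl | rfl | rfl | rfl
        · exact absurd rfl h2
        · exact absurd rfl h1
        · exact ⟨fun _ => f1.symm, fun _ => hp.1.symm⟩
        · exact ⟨fun h => absurd h.symm hp.2.2.2.1, fun h => absurd h.symm f2⟩
        · exact ⟨fun h => absurd h.symm hp.2.2.2.2.1, fun h => absurd h.symm f3⟩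
      · intro S hSl
        have m1 : x ∈ S := hSl x (by simp)
        have m2 : b ∈ S := hSl b (by simp)
        have m3 : c ∈ S := hSl c (by simp)
        have m4 : d ∈ S := hSl d (by simp)
        have m5 : y ∈ S := hSl y (by simp)
        refine ⟨{(b, x), (b, y), (c, d)}, ?_, ?_, ?_⟩
        · intro e he
          simp only [Finset.mem_insert, Finset.mem_singleton] at he
          rw [mem_cr]
          rcases he with rfl | rfl | rfl
          · exact ⟨m2, m1, sb, sa, hp.1.symm⟩
          · exact ⟨m2, m5, sb, sy, f1.symm⟩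
          · exact ⟨m3, m4, sc, sd, hp.2.2.1⟩
        · refine Finset.card_eq_three.2 ⟨(b, x), (b, y), (c, d), ?_, ?_, ?_, rfl⟩
          · intro h; exact hya (Prod.ext_iff.1 h).2.symm
          · intro h; exact n2 (Prod.ext_iff.1 h).1
          · intro h; exact n2 (Prod.ext_iff.1 h).1
        · intro e he
          simp only [Finset.mem_insert, Finset.mem_singleton] at he
          rcases he with rfl | rfl | rfl <;> simp
    · -- `x` is a midpoint
      have hmem : ∀ t, t ∈ B1 ↔ t = y ∨ t = a ∨ t = c ∨ t = d := by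
        intro t
        rw [hz t, hB t]
        constructor
        · rintro (h | ⟨h | h | h | h, h'⟩)
          · exact Or.inl h
          · exact Or.inr (Or.inl h)
          · exact absurd h h'
          · exact Or.inr (Or.inr (Or.inl h))
          · exact Or.inr (Or.inr (Or.inr h))
        · rintro (h | h | h | h)
          · exact Or.inl h
          · exact Or.inr ⟨Or.inl h, by rw [h]; exact n1⟩
          · exact Or.inr ⟨Or.inr (Or.inr (Or.inl h)), by rw [h]; exact n2.symm⟩
          · exact Or.inr ⟨Or.inr (Or.inr (Or.inr h)), by rw [h]; exact n6.symm⟩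
      obtain ⟨f1, f2, f3, f4⟩ := twin_mid hp hB1 hmem hya hyc hyd hmB1 ma mc md
      have sy : σ y = true := (hσ y (hne1 y hyB1).1 (hne1 y hyB1).2).2 f4
      have hG5 : Good G σ [y, a, x, c, d] :=
        Good.part hbase hynl (by simp) (by simp) (by simp) hB1 hmem (by simp [sy, sa, sc, sd])
      refine core hG hS h01 hmK hnK hmn hσm hσn hσ hG5 rfl ?_ ?_ ?_ hb hyB1 hyb.symm
        (by tauto) n1 hya.symm ?_ ?_
      · intro v hv
        simp only [List.mem_cons, List.not_mem_nil, or_false] at hv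
        rcases hv with rfl | rfl | rfl | rfl | rfl
        · exact Or.inr hyB1
        · exact Or.inl ha
        · exact Or.inl hb
        · exact Or.inl hc
        · exact Or.inl hd
      · intro v hv
        simp only [List.mem_cons, List.not_mem_nil, or_false]
        exact Or.inr ((hB v).1 hv)
      · intro v hv
        simp only [List.mem_cons, List.not_mem_nil, or_false]
        have := (hmem v).1 hv
        tauto
      · intro v hv h1 h2
        simp only [List.mem_cons, List.not_mem_nil, or_false] at hv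
        rcases hv with rfl | rfl | rfl | rfl | rfl
        · exact absurd rfl h2
        · exact ⟨fun _ => f1.symm, fun _ => hp.1⟩
        · exact absurd rfl h1
        · exact ⟨fun _ => f2.symm, fun _ => hp.2.1.symm⟩
        · exact ⟨fun h => absurd h.symm hp.2.2.2.2.2.1, fun h => absurd h.symm f3⟩
      · intro S hSl
        have m1 : a ∈ S := hSl a (by simp)
        have m2 : x ∈ S := hSl x (by simp)
        have m3 : c ∈ S := hSl c (by simp)
        have m4 : d ∈ S := hSl d (by simp)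
        have m5 : y ∈ S := hSl y (by simp)
        refine ⟨{(x, a), (y, a), (c, d)}, ?_, ?_, ?_⟩
        · intro e he
          simp only [Finset.mem_insert, Finset.mem_singleton] at he
          rw [mem_cr]
          rcases he with rfl | rfl | rfl
          · exact ⟨m2, m1, sb, sa, hp.1.symm⟩
          · exact ⟨m5, m1, sy, sa, f1⟩
          · exact ⟨m3, m4, sc, sd, hp.2.2.1⟩
        · refine Finset.card_eq_three.2 ⟨(x, a), (y, a), (c, d), ?_, ?_, ?_, rfl⟩
          · intro h; exact hyb (Prod.ext_iff.1 h).1.symm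
          · intro h; exact n5 (Prod.ext_iff.1 h).2
          · intro h; exact n5 (Prod.ext_iff.1 h).2
        · intro e he
          simp only [Finset.mem_insert, Finset.mem_singleton] at he
          rcases he with rfl | rfl | rfl <;> simp
  obtain ⟨a, b, c, d, hp, hB⟩ := hB0
  have hB' : ∀ t, t ∈ B0 ↔ t = d ∨ t = c ∨ t = b ∨ t = a := fun t => (hB t).trans (by tauto)
  rcases (hB x).1 hx with h | h | h | h
  · exact main a b c d hp hB (Or.inl h)
  · exact main a b c d hp hB (Or.inr h)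
  · exact main d c b a hp.rev hB' (Or.inr h)
  · exact main d c b a hp.rev hB' (Or.inl h)

theorem mid_compl {B : Finset V} (hB : IsP4 G B) {s : V} (hs : s ∈ B) :
    Mid Gᶜ B s ↔ ¬ Mid G B s := by
  obtain ⟨a, b, c, d, hp, hBs⟩ := hB
  have hBs' : ∀ t, t ∈ B ↔ t = b ∨ t = d ∨ t = a ∨ t = c := fun t => (hBs t).trans (by tauto)
  rw [mid_iff hp hBs hs, mid_iff hp.compl hBs' hs]
  obtain ⟨n1, n2, n3, n4, n5, n6⟩ := hp.ne
  rcases (hBs s).1 hs with rfl | rfl | rfl | rfl
  · simp [n1, n4]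
  · simp [n1.symm, n6]
  · simp [n4.symm, n3]
  · simp [n6.symm, n3.symm]

theorem TyM.compl {B : Finset V} (hB : IsP4 G B) {y : V} (hy : y ∉ B) (h : TyM G y B) :
    TyM Gᶜ y B := by
  intro s hs
  rw [mid_compl hB hs, ← h s hs, SimpleGraph.compl_adj]
  have : y ≠ s := fun e => hy (e ▸ hs)
  tauto

theorem TyT.compl {B : Finset V} {y : V} (h : TyT G y B) : TyN Gᶜ y B := by
  intro s hs h'
  exact h'.2 (h s hs)

/-- a set containing an induced path is not a subsingleton -/
theorem not_subsingleton {B : Finset V} (hB : IsP4 G B) {S : Set V} (h : ∀ v ∈ B, v ∈ S) :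
    ¬ S.Subsingleton := by
  obtain ⟨a, b, c, d, hp, hBs⟩ := hB
  intro hS
  exact hp.1.ne (hS (h a ((hBs a).2 (by simp))) (h b ((hBs b).2 (by simp))))

/-- D3: the component of a non-isolated induced path covers all vertices but at most one. -/
theorem cover {V : Type} [Finite V] (G : SimpleGraph V) (hG : PrimeG G) (hS : Star G)
    (B0 B1 : Finset V) (h01 : Adj4 G B0 B1) :
    ∃ m0 : V, ∀ v, v ≠ m0 → ∃ n B, Walk4 G n B0 B ∧ v ∈ B := by
  classical
  have hW0 : Walk4 G 0 B0 B0 := Walk4.zero h01.1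
  set S : Set V := {v | ∃ n B, Walk4 G n B0 B ∧ v ∈ B} with hSdef
  have hS0 : ∀ v ∈ B0, v ∈ S := fun v hv => ⟨0, B0, hW0, hv⟩
  have hout : ∀ y, y ∉ S → ∀ n B, Walk4 G n B0 B → y ∉ B := fun y hy n B hB hyB =>
    hy ⟨n, B, hB, hyB⟩
  have hty : ∀ y, y ∉ S → TyN G y B0 ∨ TyT G y B0 ∨ TyM G y B0 := fun y hy =>
    ty_cases h01.1 (hout y hy _ _ hW0) (fun D hD => hout y hy _ _ (hW0.succ hD))
  have hN : ∀ y, y ∉ S → TyN G y B0 → ∀ v ∈ S, ¬ G.Adj y v := by
    rintro y hy h v ⟨n, B, hB, hv⟩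
    exact (ty_const (hout y hy) hB).1 h v hv
  have hT : ∀ y, y ∉ S → TyT G y B0 → ∀ v ∈ S, G.Adj y v := by
    rintro y hy h v ⟨n, B, hB, hv⟩
    exact (ty_const (hout y hy) hB).2.1 h v hv
  have hMM : ∀ y z, y ∉ S → z ∉ S → TyM G y B0 → TyM G z B0 → ∀ v ∈ S,
      (G.Adj y v ↔ G.Adj z v) := by
    rintro y z hy hz h h' v ⟨n, B, hB, hv⟩
    exact ((ty_const (hout y hy) hB).2.2 h v hv).trans
      ((ty_const (hout z hz) hB).2.2 h' v hv).symm
  -- no pairs
  have hpN : ∀ m n, m ∉ S → n ∉ S → TyM G m B0 → TyN G n B0 → ¬ G.Adj m n := fun m n hm hn h1 h2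
    hadj => pair_false hG hS h01 (hout m hm) (hout n hn) hadj h1 h2
  have hpT : ∀ m n, m ∉ S → n ∉ S → m ≠ n → TyM G m B0 → TyT G n B0 → G.Adj m n := by
    intro m n hm hn hmn h1 h2
    by_contra hadj
    have hw : ∀ k B, Walk4 Gᶜ k B0 B → Walk4 G k B0 B := by
      intro k B hB
      have := hB.compl
      rwa [compl_compl] at this
    have hmB0 : m ∉ B0 := hout m hm _ _ hW0
    have hGc : PrimeG Gᶜ := by
      intro M hM
      refine hG M (fun v hv x hx y hy => ?_)
      have h1 := hM v hv x hx y hy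
      have hvx : v ≠ x := fun h => hv (h ▸ hx)
      have hvy : v ≠ y := fun h => hv (h ▸ hy)
      simp only [SimpleGraph.compl_adj, hvx, hvy, ne_eq, not_false_eq_true, true_and] at h1
      exact not_iff_not.1 h1
    exact pair_false hGc hS.compl h01.compl (fun k B hB => hout m hm _ _ (hw k B hB))
      (fun k B hB => hout n hn _ _ (hw k B hB)) ((SimpleGraph.compl_adj _ _ _).2 ⟨hmn, hadj⟩)
      (TyM.compl h01.1 hmB0 h1) h2.compl
  by_cases hM : ∃ m, m ∉ S ∧ TyM G m B0
  · obtain ⟨m0, hm0, hmM⟩ := hM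
    refine ⟨m0, fun v hv => ?_⟩
    by_contra hvS
    have hmod : IsMod G (S ∪ {v | v ∉ S ∧ TyM G v B0}) := by
      intro u hu
      simp only [Set.mem_union, Set.mem_ofPred_eq, not_or, not_and] at hu
      obtain ⟨hu1, hu2⟩ := hu
      have hu2' := hu2 hu1
      have key : (∀ x ∈ S ∪ {v | v ∉ S ∧ TyM G v B0}, ¬ G.Adj u x) ∨
          (∀ x ∈ S ∪ {v | v ∉ S ∧ TyM G v B0}, G.Adj u x) := by
        rcases hty u hu1 with h | h | h
        · left
          rintro x (hx | ⟨hx1, hx2⟩)
          · exact hN u hu1 h x hx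
          · exact fun hadj => hpN x u hx1 hu1 hx2 h hadj.symm
        · right
          rintro x (hx | ⟨hx1, hx2⟩)
          · exact hT u hu1 h x hx
          · refine (hpT x u hx1 hu1 ?_ hx2 h).symm
            rintro rfl
            exact hu2' hx2
        · exact absurd h hu2'
      intro x hx y hy
      rcases key with h | h
      · exact ⟨fun h' => absurd h' (h x hx), fun h' => absurd h' (h y hy)⟩
      · exact ⟨fun _ => h y hy, fun _ => h x hx⟩
    rcases hG _ hmod with h | h
    · exact not_subsingleton h01.1 (fun v hv => Or.inl (hS0 v hv)) h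
    · have hmodM : IsMod G {v | v ∉ S ∧ TyM G v B0} := by
        intro u hu x hx y hy
        have hu1 : u ∈ S ∪ {v | v ∉ S ∧ TyM G v B0} := by rw [h]; trivial
        have hu2 : u ∈ S := by
          rcases hu1 with h' | h'
          · exact h'
          · exact absurd h' hu
        have := hMM x y hx.1 hy.1 hx.2 hy.2 u hu2
        rw [G.adj_comm u x, G.adj_comm u y]
        exact this
      rcases hG _ hmodM with h' | h'
      · have hv1 : v ∈ S ∪ {v | v ∉ S ∧ TyM G v B0} := by rw [h]; trivial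
        rcases hv1 with h'' | h''
        · exact hvS h''
        · exact hv (h' h'' ⟨hm0, hmM⟩)
      · obtain ⟨a, b, c, d, hp, hBs⟩ := h01.1
        have ha : a ∈ {v | v ∉ S ∧ TyM G v B0} := by rw [h']; trivial
        exact ha.1 (hS0 a ((hBs a).2 (by simp)))
  · have hmod : IsMod G S := by
      intro u hu x hx y hy
      rcases hty u hu with h | h | h
      · exact ⟨fun h' => absurd h' (hN u hu h x hx), fun h' => absurd h' (hN u hu h y hy)⟩
      · exact ⟨fun _ => hT u hu h y hy, fun _ => hT u hu h x hx⟩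
      · exact absurd ⟨u, hu, h⟩ hM
    rcases hG _ hmod with h | h
    · exact absurd h (not_subsingleton h01.1 hS0)
    · obtain ⟨a, b, c, d, hp, hBs⟩ := h01.1
      refine ⟨a, fun v _ => ?_⟩
      have : v ∈ S := by rw [h]; trivial
      exact this

end Pool.Agent.CW
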