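import Pool.Agent.CW.ModD1

/-! Module D4 for `S08819` (MP_563ce7_co): prime graphs with isolated induced paths are small. -/

set_option autoImplicit false

namespace Pool.Agent.CW

open SimpleGraph
open Helper27.CW (P4 PC NF fp mem_fp Leg IsPrime IsModule)

variable {V : Type} {G : SimpleGraph V}

/-- In a prime graph without induced `P₄` the non-neighbours of a vertex are stable. -/
theorem stable_of_noP4 (hp : PrimeG G) (hno : ∀ a b c d, ¬ P4 G a b c d) {x y y' : V}
    (hy : y ≠ x) (hxy : ¬ G.Adj x y) (hy' : y' ≠ x) (hxy' : ¬ G.Adj x y') : ¬ G.Adj y y' := by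
  intro hyy
  let r : V → V → Prop := fun a b => b ≠ x ∧ ¬ G.Adj x b ∧ G.Adj a b
  let C : Set V := {z | Relation.ReflTransGen r y z}
  have hC1 : ∀ z ∈ C, z ≠ x ∧ ¬ G.Adj x z := by
    intro z hz
    rcases Relation.ReflTransGen.cases_tail hz with h | ⟨w, _, h⟩
    · rw [h]; exact ⟨hy, hxy⟩
    · exact ⟨h.1, h.2.1⟩
  have hyC : y ∈ C := Relation.ReflTransGen.refl
  have hyC' : y' ∈ C := Relation.ReflTransGen.single ⟨hy', hxy', hyy⟩
  have hU1 : ∀ u, G.Adj x u → ∀ z ∈ C, (G.Adj u y ↔ G.Adj u z) := by
    intro u hxu z hz
    induction hz with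
    | refl => exact Iff.rfl
    | @tail b c hb hbc ih =>
      have hb' := hC1 b hb
      rw [ih]
      constructor
      · intro h
        by_contra h'
        exact hno x u b c ⟨hxu, h, hbc.2.2, hb'.2, hbc.2.1, h'⟩
      · intro h
        by_contra h'
        exact hno x u c b ⟨hxu, h, hbc.2.2.symm, hbc.2.1, hb'.2, h'⟩
  have hmod : IsMod G C := by
    intro u hu z hz z' hz'
    by_cases hux : u = x
    · subst hux
      exact ⟨fun h => absurd h (hC1 z hz).2, fun h => absurd h (hC1 z' hz').2⟩
    · by_cases hxu : G.Adj x u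
      · exact (hU1 u hxu z hz).symm.trans (hU1 u hxu z' hz')
      · have h0 : ∀ w ∈ C, ¬ G.Adj u w := fun w hw h =>
          hu (Relation.ReflTransGen.tail hw ⟨hux, hxu, h.symm⟩)
        exact ⟨fun h => absurd h (h0 z hz), fun h => absurd h (h0 z' hz')⟩
  rcases hp C hmod with h | h
  · exact hyy.ne (h hyC hyC')
  · have : x ∈ C := by rw [h]; trivial
    exact (hC1 x this).1 rfl

theorem no_isolated [Finite V] (hp : PrimeG G) (hV : 3 ≤ Nat.card V) (x : V) :
    ∃ y, G.Adj x y := by
  by_contra hno
  push Not at hno
  have hM : IsMod G ({x}ᶜ : Set V) := by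
    intro v hv u _ w _
    have : v = x := by simpa using hv
    subst this
    exact ⟨fun h => absurd h (hno u), fun h => absurd h (hno w)⟩
  rcases hp _ hM with h | h
  · have h1 : ({x}ᶜ : Set V).ncard ≤ 1 := (Set.ncard_le_one (Set.toFinite _)).2
      (fun a ha b hb => h ha hb)
    have h2 := Set.ncard_add_ncard_compl ({x} : Set V)
    rw [Set.ncard_singleton] at h2
    omega
  · have : x ∈ ({x}ᶜ : Set V) := by rw [h]; trivial
    exact this rfl

theorem no_universal [Finite V] (hp : PrimeG G) (hV : 3 ≤ Nat.card V) (x : V) :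
    ∃ y, y ≠ x ∧ ¬ G.Adj x y := by
  obtain ⟨y, hy⟩ := no_isolated (G := Gᶜ) (IsPrime.compl hp) hV x
  rw [SimpleGraph.compl_adj] at hy
  exact ⟨y, hy.1.symm, hy.2⟩

/-- Prime graphs with at least three vertices contain an induced path on four vertices. -/
theorem exists_P4 [Finite V] (hp : PrimeG G) (hV : 3 ≤ Nat.card V) :
    ∃ a b c d, P4 G a b c d := by
  classical
  by_contra hno
  push Not at hno
  have := Fintype.ofFinite V
  have hpc : PrimeG Gᶜ := IsPrime.compl hp
  have hnoc : ∀ a b c d, ¬ P4 Gᶜ a b c d := by
    intro a b c d h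
    have := h.compl
    rw [compl_compl] at this
    exact hno _ _ _ _ this
  have hclique : ∀ x y y' : V, G.Adj x y → G.Adj x y' → y ≠ y' → G.Adj y y' := by
    intro x y y' h h' hne
    have := stable_of_noP4 hpc hnoc (x := x) (y := y) (y' := y') h.ne.symm
      (by rw [SimpleGraph.compl_adj]; exact fun h1 => h1.2 h) h'.ne.symm
      (by rw [SimpleGraph.compl_adj]; exact fun h1 => h1.2 h')
    rw [SimpleGraph.compl_adj] at this
    by_contra h1
    exact this ⟨hne, h1⟩
  have hVne : Nonempty V := by
    by_contra h
    rw [not_nonempty_iff] at h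
    rw [Nat.card_eq_zero.2 (Or.inl h)] at hV
    omega
  obtain ⟨x⟩ := hVne
  obtain ⟨q0, hq0⟩ := no_isolated hp hV x
  let cn : V → Finset V := fun q => Finset.univ.filter (fun w => w = q ∨ G.Adj q w)
  obtain ⟨q, hq, hmax⟩ := Finset.exists_max_image
    (Finset.univ.filter (fun q => G.Adj x q)) (fun q => (cn q).card)
    ⟨q0, by simp [hq0]⟩
  simp only [Finset.mem_filter, Finset.mem_univ, true_and] at hq hmax
  obtain ⟨y, hyq, hqy⟩ := no_universal hp hV q
  have hyx : y ≠ x := fun h => hqy (by rw [h]; exact hq.symm)
  have hxy : ¬ G.Adj x y := fun h => hqy (hclique x q y hq h hyq.symm)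
  obtain ⟨q', hq'⟩ := no_isolated hp hV y
  have hq'x : q' ≠ x := fun h => hxy (by rw [← h]; exact hq'.symm)
  have hxq' : G.Adj x q' := by
    by_contra h
    exact stable_of_noP4 hp hno hyx hxy hq'x h hq'
  have hqq' : q ≠ q' := fun h => hqy (by rw [h]; exact hq'.symm)
  have hadj : G.Adj q q' := hclique x q q' hq hxq' hqq'
  have hle := hmax q' hxq'
  have hex : ∃ w, w ∈ cn q ∧ w ∉ cn q' := by
    by_contra h
    push Not at h
    have hsub : cn q ⊆ cn q' := h
    have heq := Finset.eq_of_subset_of_card_le hsub hle
    have hy1 : y ∈ cn q' := by simp only [cn, Finset.mem_filter, Finset.mem_univ, true_and]; exact Or.inr hq'.symm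
    rw [← heq] at hy1
    simp only [cn, Finset.mem_filter, Finset.mem_univ, true_and] at hy1
    rcases hy1 with h1 | h1
    · exact hyq h1
    · exact hqy h1
  obtain ⟨w, hw1, hw2⟩ := hex
  simp only [cn, Finset.mem_filter, Finset.mem_univ, true_and, not_or] at hw1 hw2
  have hwq : w ≠ q := fun h => hw2.2 (by rw [h]; exact hadj.symm)
  have hqw : G.Adj q w := hw1.resolve_left hwq
  have hxw : ¬ G.Adj x w := fun h => hw2.2 (hclique x q' w hxq' h (fun h' => hw2.1 h'.symm))
  have hwx : w ≠ x := fun h => hw2.2 (by rw [h]; exact hxq'.symm)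
  have hyw : ¬ G.Adj y w := stable_of_noP4 hp hno hyx hxy hwx hxw
  exact hno y q' q w ⟨hq', hadj.symm, hqw, fun h => hqy h.symm, hyw, hw2.2⟩

/-- Three vertices of a `P₄` and an outside vertex forming a `P₄` give `Adj4`. -/
theorem adj4_of_three {A B : Finset V} (hA : IsP4 G A) (hB : IsP4 G B) {x p q r : V}
    (hx : x ∉ A) (hp : p ∈ A) (hq : q ∈ A) (hr : r ∈ A) (hpq : p ≠ q) (hpr : p ≠ r)
    (hqr : q ≠ r) (hBm : ∀ z, z ∈ B ↔ z = x ∨ z = p ∨ z = q ∨ z = r) : Adj4 G A B := by
  classical
  refine ⟨hA, hB, ?_⟩
  have h4 : A.card = 4 := (isP4_conv.1 hA).1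
  have hsub : ({p, q, r} : Finset V) ⊆ A := by
    intro z hz
    simp only [Finset.mem_insert, Finset.mem_singleton] at hz
    rcases hz with rfl | rfl | rfl <;> assumption
  have hc3 : ({p, q, r} : Finset V).card = 3 := by
    rw [Finset.card_eq_three]
    exact ⟨p, q, r, hpq, hpr, hqr, rfl⟩
  have h1 : (A \ {p, q, r}).card = 1 := by
    rw [Finset.card_sdiff_of_subset hsub, h4, hc3]
  obtain ⟨u, hu⟩ := Finset.card_eq_one.1 h1
  have hu1 : ∀ z, (z ∈ A ∧ ¬ (z = p ∨ z = q ∨ z = r)) ↔ z = u := by
    intro z
    have : z ∈ A \ {p, q, r} ↔ z ∈ ({u} : Finset V) := by rw [hu]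
    simpa using this
  refine ⟨u, x, ((hu1 u).2 rfl).1, hx, fun z => ?_⟩
  rw [hBm]
  constructor
  · rintro (rfl | h)
    · exact Or.inl rfl
    · right
      refine ⟨by rcases h with rfl | rfl | rfl <;> assumption, ?_⟩
      rintro rfl
      exact ((hu1 z).2 rfl).2 h
  · rintro (rfl | ⟨h1, h2⟩)
    · exact Or.inl rfl
    · right
      by_contra h
      exact h2 ((hu1 z).1 ⟨h1, h⟩)

/-- If no two induced `P₄`s share three vertices, outside vertices are non-frontier. -/
theorem nf_of_iso (hiso : ∀ A B : Finset V, ¬ Adj4 G A B) {A : Finset V} (hA : IsP4 G A)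
    {x : V} (hx : x ∉ A) : NF G A x := by
  classical
  intro p hp q hq r hr
  constructor
  · intro h
    have hn := h.ne
    exact hiso _ _ (adj4_of_three hA (isP4_conv.2 h.isP4) hx hp hq hr hn.2.2.2.1 hn.2.2.2.2.1
      hn.2.2.2.2.2 (fun z => by simp))
  · intro h
    have hn := h.ne
    exact hiso _ _ (adj4_of_three hA (isP4_conv.2 h.isP4) hx hp hq hr hn.2.1 hn.2.2.1
      hn.2.2.2.2.2 (fun z => by simp only [Finset.mem_insert, Finset.mem_singleton]; tauto))

theorem two_outside [Finite V] [DecidableEq V] {A : Finset V} (h : A.card + 2 ≤ Nat.card V) :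
    ∃ z w, z ∉ A ∧ w ∉ A ∧ z ≠ w := by
  have := Fintype.ofFinite V
  have h1 : 1 < (Finset.univ \ A : Finset V).card := by
    rw [Finset.card_sdiff_of_subset (Finset.subset_univ _), Finset.card_univ,
      ← Nat.card_eq_fintype_card]
    omega
  obtain ⟨z, hz, w, hw, hne⟩ := Finset.one_lt_card.1 h1
  exact ⟨z, w, by simpa using hz, by simpa using hw, hne⟩


set_option maxHeartbeats 4000000 in
/-- The core of D4: a leg at an isolated path. -/
theorem leg_false [Finite V] [DecidableEq V] (hG : PrimeG G) (hS : Star G) (hsp : NoSp4 G)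
    (hiso : ∀ A B : Finset V, ¬ Adj4 G A B) (hV : 8 ≤ Nat.card V) {a b c d : V}
    (hP : P4 G a b c d) {K S : Finset V} {r n : V} (hL : Leg G {a, b, c, d} K S r n) : False := by
  have hne := hP.ne
  obtain ⟨nab, nac, nad, nbc, nbd, ncd⟩ := hne
  have hm := Helper27.CW.split_mids hL.union hL.clique hL.stable hP (by simp) (by simp) (by simp)
    (by simp)
  obtain ⟨haS, hbK, hcK, hdS⟩ := hm
  have hr := hL.hr
  have hn := hL.hn
  simp only [Finset.mem_insert, Finset.mem_singleton, not_or] at hr hn
  obtain ⟨rna, rnb, rnc, rnd⟩ := hr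
  obtain ⟨nna, nnb, nnc, nnd⟩ := hn
  have hrn : r ≠ n := hL.rn.ne
  have rb := hL.rK b hbK
  have rc := hL.rK c hcK
  have ra := hL.rS a haS
  have rd := hL.rS d hdS
  have na := hL.nA a (by simp)
  have nb := hL.nA b (by simp)
  have nc := hL.nA c (by simp)
  have nd := hL.nA d (by simp)
  have hrnAdj := hL.rn
  obtain ⟨pab, pbc, pcd, pac, pad, pbd⟩ := hP
  -- the three induced paths of the spider
  have P1 : P4 G a b c d := ⟨pab, pbc, pcd, pac, pad, pbd⟩
  have P2 : P4 G a b r n := ⟨pab, rb.symm, hrnAdj, fun h => ra h.symm, fun h => na h.symm,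
    fun h => nb h.symm⟩
  have P3 : P4 G d c r n := ⟨pcd.symm, rc.symm, hrnAdj, fun h => rd h.symm, fun h => nd h.symm,
    fun h => nc h.symm⟩
  set S6 : Finset V := {a, b, c, d, r, n} with hS6
  have hmem : ∀ z, z ∈ S6 ↔ z = a ∨ z = b ∨ z = c ∨ z = d ∨ z = r ∨ z = n := by
    intro z; simp [hS6]
  have hcard6 : S6.card ≤ 6 := by
    rw [hS6]
    exact Finset.card_le_six
  have hPC : PC G S6 := by
    have h1 := PC.step (PC.base P1.isP4) P2.isP4 ⟨a, by simp⟩
    have h2 : ({a, b, c, d} : Finset V) ∪ {a, b, r, n} = S6 := by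
      clear * - hmem
      ext z
      rw [hmem]
      simp only [Finset.mem_union, Finset.mem_insert, Finset.mem_singleton]
      tauto
    rwa [h2] at h1
  have hnf6 : ∀ x, x ∉ S6 → NF G S6 x := by
    intro x hx
    have hx' := hx
    rw [hmem] at hx'
    simp only [not_or] at hx'
    obtain ⟨xa, xb, xc, xd, xr, xn⟩ := hx'
    have t1 := (nf_of_iso hiso (isP4_conv.2 P1.isP4) (x := x) (by simp [xa, xb, xc, xd])).tnm P1
      (by simp) (by simp) (by simp) (by simp)
    have t2 := (nf_of_iso hiso (isP4_conv.2 P2.isP4) (x := x) (by simp [xa, xb, xr, xn])).tnm P2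
      (by simp) (by simp) (by simp) (by simp)
    have hKm : ∀ z, z ∈ ({b, c, r} : Finset V) ↔ z = b ∨ z = c ∨ z = r := by intro z; simp
    have hSm : ∀ z, z ∈ ({a, d, n} : Finset V) ↔ z = a ∨ z = d ∨ z = n := by intro z; simp
    have hK : ∀ z ∈ ({b, c, r} : Finset V), (G.Adj x z ↔ G.Adj x b) := by
      intro z hz
      rw [hKm] at hz
      rcases hz with rfl | rfl | rfl
      · exact Iff.rfl
      · exact t1.2.1.symm
      · exact t2.2.1.symm
    have hSs : ∀ z ∈ ({a, d, n} : Finset V), (G.Adj x z ↔ G.Adj x a) := by
      intro z hz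
      rw [hSm] at hz
      rcases hz with rfl | rfl | rfl
      · exact Iff.rfl
      · exact t1.1.symm
      · exact t2.1.symm
    have hKS : ∀ z ∈ S6, z ∈ ({b, c, r} : Finset V) ∨ z ∈ ({a, d, n} : Finset V) := by
      intro z hz
      rw [hmem] at hz
      rw [hKm, hSm]
      clear * - hz
      tauto
    intro p hp q hq w hw
    by_cases hxb : G.Adj x b
    · by_cases hxa : G.Adj x a
      · -- total
        have hall : ∀ z ∈ S6, G.Adj x z := by
          intro z hz
          rcases hKS z hz with h | h
          · exact (hK z h).2 hxb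
          · exact (hSs z h).2 hxa
        exact ⟨fun h => h.2.2.2.1 (hall q hq), fun h => h.2.2.2.2.2 (hall w hw)⟩
      · -- split
        have hx1 : ∀ z ∈ ({b, c, r} : Finset V), G.Adj x z := fun z hz => (hK z hz).2 hxb
        have hx2 : ∀ z ∈ ({a, d, n} : Finset V), ¬ G.Adj x z := fun z hz h => hxa ((hSs z hz).1 h)
        have hcl : ∀ u ∈ ({b, c, r} : Finset V), ∀ v ∈ ({b, c, r} : Finset V), u ≠ v →
            G.Adj u v := by
          intro u hu v hv huv
          rw [hKm] at hu hv
          rcases hu with rfl | rfl | rfl <;> rcases hv with rfl | rfl | rfl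
          · exact absurd rfl huv
          · exact pbc
          · exact rb.symm
          · exact pbc.symm
          · exact absurd rfl huv
          · exact rc.symm
          · exact rb
          · exact rc
          · exact absurd rfl huv
        have hst0 : ∀ u ∈ ({a, d, n} : Finset V), ∀ v ∈ ({a, d, n} : Finset V), ¬ G.Adj u v := by
          intro u hu v hv
          rw [hSm] at hu hv
          rcases hu with rfl | rfl | rfl <;> rcases hv with rfl | rfl | rfl
          · exact G.loopless.irrefl _
          · exact pad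
          · exact fun h => na h.symm
          · exact fun h => pad h.symm
          · exact G.loopless.irrefl _
          · exact fun h => nd h.symm
          · exact na
          · exact nd
          · exact G.loopless.irrefl _
        have hst : ∀ u ∈ insert x ({a, d, n} : Finset V), ∀ v ∈ insert x ({a, d, n} : Finset V),
            ¬ G.Adj u v := by
          intro u hu v hv
          rw [Finset.mem_insert] at hu hv
          rcases hu with hu | hu <;> rcases hv with hv | hv
          · rw [hu, hv]; exact G.loopless.irrefl _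
          · rw [hu]; exact hx2 v hv
          · rw [hv]; exact fun h => hx2 u hu h.symm
          · exact hst0 u hu v hv
        have hU : ∀ z ∈ S6, z ∈ ({b, c, r} : Finset V) ∪ insert x ({a, d, n} : Finset V) := by
          intro z hz
          rcases hKS z hz with h | h
          · exact Finset.mem_union_left _ h
          · exact Finset.mem_union_right _ (Finset.mem_insert_of_mem h)
        have hxU : x ∈ ({b, c, r} : Finset V) ∪ insert x ({a, d, n} : Finset V) :=
          Finset.mem_union_right _ (Finset.mem_insert_self _ _)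
        constructor
        · intro h
          have := Helper27.CW.split_mids rfl hcl hst h hxU (hU p hp) (hU q hq) (hU w hw)
          exact h.2.2.2.1 (hx1 q this.2.2.1)
        · intro h
          have := Helper27.CW.split_mids rfl hcl hst h (hU p hp) hxU (hU q hq) (hU w hw)
          have h1 := this.2.1
          rw [hKm] at h1
          rcases h1 with h1 | h1 | h1
          · exact xb h1
          · exact xc h1
          · exact xr h1
    · -- null
      have hxa : ¬ G.Adj x a := fun h => hxb (t1.2.2 h)
      have hall : ∀ z ∈ S6, ¬ G.Adj x z := by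
        intro z hz h
        rcases hKS z hz with h' | h'
        · exact hxb ((hK z h').1 h)
        · exact hxa ((hSs z h').1 h)
      exact ⟨fun h => hall p hp h.1, fun h => hall p hp h.1.symm⟩
  have h2out := two_outside (V := V) (A := S6) (by omega)
  rcases Helper27.CW.growth hG hPC hnf6 h2out with ⟨K', S', r', n', hL'⟩ | ⟨K', S', r', n', hL'⟩
  · -- a fourth thin leg
    have hm1 := Helper27.CW.split_mids hL'.union hL'.clique hL'.stable P1 (by simp [hS6])
      (by simp [hS6]) (by simp [hS6]) (by simp [hS6])
    have hm2 := Helper27.CW.split_mids hL'.union hL'.clique hL'.stable P2 (by simp [hS6])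
      (by simp [hS6]) (by simp [hS6]) (by simp [hS6])
    have hr' := hL'.hr
    have hn' := hL'.hn
    rw [hmem] at hr' hn'
    simp only [not_or] at hr' hn'
    have e1 := hL'.rK b hm1.2.1
    have e2 := hL'.rK c hm1.2.2.1
    have e3 := hL'.rK r hm2.2.2.1
    have e4 := hL'.rS a hm1.1
    have e5 := hL'.rS d hm1.2.2.2
    have e6 := hL'.rS n hm2.2.2.2
    have f : ∀ z ∈ S6, ¬ G.Adj n' z := hL'.nA
    have fa := f a (by simp [hS6])
    have fb := f b (by simp [hS6])
    have fc := f c (by simp [hS6])
    have fd := f d (by simp [hS6])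
    have fr := f r (by simp [hS6])
    have fn := f n (by simp [hS6])
    have g := hL'.rn
    apply (hsp ![b, c, r, r'] ![a, d, n, n']).1
    have irr : ∀ z, ¬ G.Adj z z := G.loopless.irrefl
    have sy : ∀ {u v : V}, ¬ G.Adj u v → ¬ G.Adj v u := fun h h' => h h'.symm
    refine ⟨?_, ?_, ?_, ?_, ?_⟩
    · intro i j hij
      fin_cases i <;> fin_cases j
      · exact absurd rfl hij
      · exact pbc
      · exact rb.symm
      · exact e1.symm
      · exact pbc.symm
      · exact absurd rfl hij
      · exact rc.symm
      · exact e2.symm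
      · exact rb
      · exact rc
      · exact absurd rfl hij
      · exact e3.symm
      · exact e1
      · exact e2
      · exact e3
      · exact absurd rfl hij
    · intro i j
      fin_cases i <;> fin_cases j
      · exact irr _
      · exact pad
      · exact sy na
      · exact sy fa
      · exact sy pad
      · exact irr _
      · exact sy nd
      · exact sy fd
      · exact na
      · exact nd
      · exact irr _
      · exact sy fn
      · exact fa
      · exact fd
      · exact fn
      · exact irr _
    · intro i j hij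
      fin_cases i <;> fin_cases j
      · exact absurd rfl hij
      · exact nad
      · exact fun h => nna h.symm
      · exact fun h => hn'.1 h.symm
      · exact fun h => nad h.symm
      · exact absurd rfl hij
      · exact fun h => nnd h.symm
      · exact fun h => hn'.2.2.2.1 h.symm
      · exact nna
      · exact nnd
      · exact absurd rfl hij
      · exact fun h => hn'.2.2.2.2.2 h.symm
      · exact hn'.1
      · exact hn'.2.2.2.1
      · exact hn'.2.2.2.2.2
      · exact absurd rfl hij
    · intro i j
      fin_cases i <;> fin_cases j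
      · exact fun h => nab h.symm
      · exact nbd
      · exact fun h => nnb h.symm
      · exact fun h => hn'.2.1 h.symm
      · exact fun h => nac h.symm
      · exact ncd
      · exact fun h => nnc h.symm
      · exact fun h => hn'.2.2.1 h.symm
      · exact rna
      · exact rnd
      · exact hrn
      · exact fun h => hn'.2.2.2.2.1 h.symm
      · exact hr'.1
      · exact hr'.2.2.2.1
      · exact hr'.2.2.2.2.2
      · exact g.ne
    · have hT : ∀ (P : Prop) (i j : Fin 4), P → i = j → (P ↔ i = j) :=
        fun P i j hP hij => ⟨fun _ => hij, fun _ => hP⟩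
      have hF : ∀ (P : Prop) (i j : Fin 4), ¬ P → i ≠ j → (P ↔ i = j) :=
        fun P i j hP hij => ⟨fun h => absurd h hP, fun h => absurd h hij⟩
      intro i j
      fin_cases i <;> fin_cases j
      · exact hT _ _ _ pab.symm rfl
      · exact hF _ _ _ pbd (by decide)
      · exact hF _ _ _ (sy nb) (by decide)
      · exact hF _ _ _ (sy fb) (by decide)
      · exact hF _ _ _ (sy pac) (by decide)
      · exact hT _ _ _ pcd rfl
      · exact hF _ _ _ (sy nc) (by decide)
      · exact hF _ _ _ (sy fc) (by decide)
      · exact hF _ _ _ ra (by decide)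
      · exact hF _ _ _ rd (by decide)
      · exact hT _ _ _ hrnAdj rfl
      · exact hF _ _ _ (sy fr) (by decide)
      · exact hF _ _ _ e4 (by decide)
      · exact hF _ _ _ e5 (by decide)
      · exact hF _ _ _ e6 (by decide)
      · exact hT _ _ _ g rfl
  · -- a thick leg: too many paths
    classical
    have hm1 := Helper27.CW.split_mids hL'.union hL'.clique hL'.stable P1.compl (by simp [hS6])
      (by simp [hS6]) (by simp [hS6]) (by simp [hS6])
    have hm2 := Helper27.CW.split_mids hL'.union hL'.clique hL'.stable P2.compl (by simp [hS6])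
      (by simp [hS6]) (by simp [hS6]) (by simp [hS6])
    -- hm1 : b ∈ S', d ∈ K', a ∈ K', c ∈ S'; hm2 : b ∈ S', n ∈ K', a ∈ K', r ∈ S'
    have hr' := hL'.hr
    have hn' := hL'.hn
    have hcount := hL'.count (Finset.Subset.refl S6)
    rw [Helper27.CW.fp_compl, Helper27.CW.fp_compl] at hcount
    have hfp3 : 3 ≤ (fp G S6).card := by
      have h1 : ({{a, b, c, d}, {a, b, r, n}, {d, c, r, n}} : Finset (Finset V)) ⊆ fp G S6 := by
        intro D hD
        simp only [Finset.mem_insert, Finset.mem_singleton] at hD
        rw [mem_fp]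
        rcases hD with rfl | rfl | rfl
        · refine ⟨?_, P1.isP4⟩
          intro z hz
          rw [hmem]
          simp only [Finset.mem_insert, Finset.mem_singleton] at hz
          clear * - hz
          tauto
        · refine ⟨?_, P2.isP4⟩
          intro z hz
          rw [hmem]
          simp only [Finset.mem_insert, Finset.mem_singleton] at hz
          clear * - hz
          tauto
        · refine ⟨?_, P3.isP4⟩
          intro z hz
          rw [hmem]
          simp only [Finset.mem_insert, Finset.mem_singleton] at hz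
          clear * - hz
          tauto
      refine le_trans ?_ (Finset.card_le_card h1)
      have hc : ({{a, b, c, d}, {a, b, r, n}, {d, c, r, n}} : Finset (Finset V)).card = 3 := by
        rw [Finset.card_eq_three]
        refine ⟨_, _, _, ?_, ?_, ?_, rfl⟩
        · intro h
          have : c ∈ ({a, b, r, n} : Finset V) := by rw [← h]; simp
          simp only [Finset.mem_insert, Finset.mem_singleton] at this
          rcases this with h | h | h | h
          · exact nac h.symm
          · exact nbc h.symm
          · exact rnc h.symm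
          · exact nnc h.symm
        · intro h
          have : a ∈ ({d, c, r, n} : Finset V) := by rw [← h]; simp
          simp only [Finset.mem_insert, Finset.mem_singleton] at this
          rcases this with h | h | h | h
          · exact nad h
          · exact nac h
          · exact rna h.symm
          · exact nna h.symm
        · intro h
          have : a ∈ ({d, c, r, n} : Finset V) := by rw [← h]; simp
          simp only [Finset.mem_insert, Finset.mem_singleton] at this
          rcases this with h | h | h | h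
          · exact nad h
          · exact nac h
          · exact rna h.symm
          · exact nna h.symm
      omega
    have he4 : 4 ≤ (Helper27.CW.eb Gᶜ K' S' S6).card := by
      have h1 : ({(d, b), (n, b), (a, c), (n, c)} : Finset (V × V)) ⊆
          Helper27.CW.eb Gᶜ K' S' S6 := by
        intro D hD
        simp only [Finset.mem_insert, Finset.mem_singleton] at hD
        simp only [Helper27.CW.eb, Finset.mem_filter, Finset.mem_product, SimpleGraph.compl_adj]
        rcases hD with rfl | rfl | rfl | rfl
        · exact ⟨⟨hm1.2.1, hm1.1⟩, ⟨fun h => nbd h.symm, fun h => pbd h.symm⟩, by simp [hS6],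
            by simp [hS6]⟩
        · exact ⟨⟨hm2.2.1, hm1.1⟩, ⟨nnb, nb⟩, by simp [hS6], by simp [hS6]⟩
        · exact ⟨⟨hm1.2.2.1, hm1.2.2.2⟩, ⟨nac, pac⟩, by simp [hS6], by simp [hS6]⟩
        · exact ⟨⟨hm2.2.1, hm1.2.2.2⟩, ⟨nnc, nc⟩, by simp [hS6], by simp [hS6]⟩
      refine le_trans ?_ (Finset.card_le_card h1)
      have hc : ({(d, b), (n, b), (a, c), (n, c)} : Finset (V × V)).card = 4 := by
        rw [Finset.card_insert_of_notMem, Finset.card_insert_of_notMem, Finset.card_pair]
        · intro h
          exact nna ((Prod.mk.inj h).1.symm)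
        · simp only [Finset.mem_insert, Finset.mem_singleton, Prod.mk.injEq, not_or, not_and]
          exact ⟨fun h => absurd h nna, fun _ => nbc⟩
        · simp only [Finset.mem_insert, Finset.mem_singleton, Prod.mk.injEq, not_or, not_and]
          exact ⟨fun h => absurd h.symm nnd, fun h => absurd h.symm nad,
            fun h => absurd h.symm nnd⟩
      omega
    -- the grown list
    let σ : V → Bool := fun v => decide (v = b ∨ v = c ∨ v = r ∨ v = n')
    have hσ : ∀ v, σ v = true ↔ (v = b ∨ v = c ∨ v = r ∨ v = n') := by intro v; simp [σ]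
    have hσf : ∀ v, σ v = false ↔ ¬ (v = b ∨ v = c ∨ v = r ∨ v = n') := by
      intro v; rw [← hσ]; simp
    have hr6 := hr'
    have hn6 := hn'
    rw [hmem] at hr6 hn6
    simp only [not_or] at hr6 hn6
    have hrn' : r' ≠ n' := hL'.rn.ne
    have hrnG : ¬ G.Adj r' n' := by
      have := hL'.rn
      rw [SimpleGraph.compl_adj] at this
      exact this.2
    have htot : ∀ z ∈ S6, G.Adj n' z := by
      intro z hz
      have h1 := hL'.nA z hz
      rw [SimpleGraph.compl_adj] at h1
      by_contra h
      exact h1 ⟨fun h' => hn' (h' ▸ hz), h⟩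
    have hr'K : ∀ z ∈ K', ¬ G.Adj r' z := by
      intro z hz
      have h1 := hL'.rK z hz
      rw [SimpleGraph.compl_adj] at h1
      exact h1.2
    have hr'S : ∀ z ∈ S', G.Adj r' z := by
      intro z hz
      have h1 := hL'.rS z hz
      rw [SimpleGraph.compl_adj] at h1
      by_contra h
      refine h1 ⟨fun h' => hr' ?_, h⟩
      rw [h', hL'.union]
      exact Finset.mem_union_right _ hz
    have g4 : Good G σ [a, b, c, d] := by
      refine Good.base (path4_iff.2 P1) ?_ ?_ ?_ ?_
      · rw [hσf]; simp only [not_or]; exact ⟨nab, nac, fun h => rna h.symm, fun h => hn6.1 h.symm⟩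
      · rw [hσ]; exact Or.inl rfl
      · rw [hσ]; exact Or.inr (Or.inl rfl)
      · rw [hσf]; simp only [not_or]
        exact ⟨fun h => nbd h.symm, fun h => ncd h.symm, fun h => rnd h.symm,
          fun h => hn6.2.2.2.1 h.symm⟩
    have sa : σ a = false := by
      rw [hσf]; simp only [not_or]; exact ⟨nab, nac, fun h => rna h.symm, fun h => hn6.1 h.symm⟩
    have sb : σ b = true := by rw [hσ]; exact Or.inl rfl
    have sc : σ c = true := by rw [hσ]; exact Or.inr (Or.inl rfl)
    have sd : σ d = false := by
      rw [hσf]; simp only [not_or]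
      exact ⟨fun h => nbd h.symm, fun h => ncd h.symm, fun h => rnd h.symm,
        fun h => hn6.2.2.2.1 h.symm⟩
    have sr : σ r = true := by rw [hσ]; exact Or.inr (Or.inr (Or.inl rfl))
    have sn : σ n = false := by
      rw [hσf]; simp only [not_or]
      exact ⟨nnb, nnc, fun h => hrn h.symm, fun h => hn6.2.2.2.2.2 h.symm⟩
    have sr' : σ r' = false := by
      rw [hσf]; simp only [not_or]
      exact ⟨hr6.2.1, hr6.2.2.1, hr6.2.2.2.2.1, hrn'⟩
    have sn' : σ n' = true := by rw [hσ]; exact Or.inr (Or.inr (Or.inr rfl))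
    have g6 : Good G σ (n :: r :: [a, b, c, d]) := by
      refine Good.pairN g4 ?_ ?_ hrnAdj ?_ ?_ sr sn
      · simp [rna, rnb, rnc, rnd]
      · simp [nna, nnb, nnc, nnd]
      · intro s hs
        simp only [List.mem_cons, List.not_mem_nil, or_false] at hs
        rcases hs with rfl | rfl | rfl | rfl
        · rw [sa]; simp [ra]
        · rw [sb]; simp [rb]
        · rw [sc]; simp [rc]
        · rw [sd]; simp [rd]
      · intro s hs
        simp only [List.mem_cons, List.not_mem_nil, or_false] at hs
        rcases hs with rfl | rfl | rfl | rfl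
        · exact na
        · exact nb
        · exact nc
        · exact nd
    have hmem6 : ∀ z, z ∈ (n :: r :: [a, b, c, d]) ↔ z ∈ S6 := by
      intro z
      rw [hmem]
      simp only [List.mem_cons, List.not_mem_nil, or_false]
      clear * -
      tauto
    have g8 : Good G σ (n' :: r' :: n :: r :: [a, b, c, d]) := by
      refine Good.pairT g6 ?_ ?_ hrn' hrnG ?_ ?_ sr' sn'
      · rw [hmem6]; exact hr'
      · rw [hmem6]; exact hn'
      · intro s hs
        simp only [List.mem_cons, List.not_mem_nil, or_false] at hs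
        rcases hs with rfl | rfl | rfl | rfl | rfl | rfl
        · rw [sn]; simp [hr'K _ hm2.2.1]
        · rw [sr]; simp [hr'S _ hm2.2.2.2]
        · rw [sa]; simp [hr'K _ hm1.2.2.1]
        · rw [sb]; simp [hr'S _ hm1.1]
        · rw [sc]; simp [hr'S _ hm1.2.2.2]
        · rw [sd]; simp [hr'K _ hm1.2.1]
      · intro s hs
        rw [hmem6] at hs
        exact htot s hs
    have hfin := hS σ _ g8 (by simp) (by simp) (fp G (insert r' (insert n' S6))) (by
      intro A hA
      rw [mem_fp] at hA
      refine ⟨isP4_conv.2 hA.2, fun x hx => ?_⟩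
      have := hA.1 hx
      rw [Finset.mem_insert, Finset.mem_insert] at this
      rw [List.mem_cons, List.mem_cons, hmem6]
      clear * - this
      tauto)
    simp only [List.length_cons, List.length_nil] at hfin
    omega

/-- D4 -/
theorem card_le_seven {V : Type} [Finite V] (G : SimpleGraph V) (hG : PrimeG G) (hS : Star G)
    (hsp : NoSp4 G) (hiso : ∀ A B : Finset V, ¬ Adj4 G A B) : Nat.card V ≤ 7 := by
  classical
  by_contra hV
  push Not at hV
  obtain ⟨a, b, c, d, hP⟩ := exists_P4 hG (by omega)
  have hPC : PC G ({a, b, c, d} : Finset V) := PC.base hP.isP4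
  have h4 : ({a, b, c, d} : Finset V).card = 4 := hP.isP4.1
  have hnf : ∀ z, z ∉ ({a, b, c, d} : Finset V) → NF G {a, b, c, d} z :=
    fun z hz => nf_of_iso hiso (isP4_conv.2 hP.isP4) hz
  rcases Helper27.CW.growth hG hPC hnf (two_outside (by omega)) with
    ⟨K, S, r, n, hL⟩ | ⟨K, S, r, n, hL⟩
  · exact leg_false hG hS hsp hiso (by omega) hP hL
  · have hsp' : NoSp4 Gᶜ := by
      intro x y
      have := hsp x y
      rw [compl_compl]
      exact ⟨this.2, this.1⟩
    have hiso' : ∀ A B : Finset V, ¬ Adj4 Gᶜ A B := by
      rintro A B ⟨h1, h2, h3⟩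
      exact hiso A B ⟨isP4_compl'.1 h1, isP4_compl'.1 h2, h3⟩
    have hset : ({a, b, c, d} : Finset V) = {b, d, a, c} := by
      ext z; simp only [Finset.mem_insert, Finset.mem_singleton]; tauto
    rw [hset] at hL
    exact leg_false (G := Gᶜ) (IsPrime.compl hG) hS.compl hsp' hiso' (by omega) hP.compl hL

end Pool.Agent.CW
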