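import Pool.Agent.CW.Defs
import Pool.Agent.Helper27.CW

/-! Module A for `S08819` (MP_563ce7_co): from decomposition trees to clique-width. -/

set_option autoImplicit false

namespace Pool.Agent.CW

open SimpleGraph

theorem FewRows.mono {V : Type} {G : SimpleGraph V} {c c' : ℕ} (h : c ≤ c') {A : Set V}
    (hd : FewRows G c A) : FewRows G c' A := by
  obtain ⟨f, hf⟩ := hd
  exact ⟨fun v => Fin.castLE h (f v), fun u hu v hv huv w hw =>
    hf u hu v hv (Fin.castLE_injective h huv) w hw⟩

theorem Dec.mono {V : Type} {G : SimpleGraph V} {c c' : ℕ} (h : c ≤ c') {S : Set V}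
    (hd : Dec G c S) : Dec G c' S := by
  induction hd with
  | empty => exact Dec.empty
  | single v => exact Dec.single v
  | union _ _ hdis hr ih1 ih2 => exact Dec.union ih1 ih2 hdis (hr.mono h)

/-- A2: linear layouts by blocks. -/
theorem Dec.of_layout {V : Type} [Finite V] (G : SimpleGraph V) (c : ℕ) (f : V → ℕ)
    (hf : ∀ t, Dec G c {v | f v = t}) (hr : ∀ t, FewRows G c {v | f v < t}) :
    Dec G c Set.univ := by
  have key : ∀ t, Dec G c {v | f v < t} := by
    intro t
    induction t with
    | zero =>
      have : {v : V | f v < 0} = ∅ := by ext v; simp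
      rw [this]
      exact Dec.empty
    | succ t ih =>
      have h2 : {v : V | f v < t + 1} = {v | f v < t} ∪ {v | f v = t} := by
        ext v
        simp only [Set.mem_ofPred_eq, Set.mem_union]
        omega
      rw [h2]
      refine Dec.union ih (hf t) ?_ ?_
      · rw [Set.disjoint_left]
        intro v hv hv'
        simp only [Set.mem_ofPred_eq] at hv hv'
        omega
      · rw [← h2]
        exact hr (t + 1)
  obtain ⟨N, hN⟩ : ∃ N, ∀ v, f v < N := by
    obtain ⟨N, hN⟩ := (Set.toFinite (Set.range f)).bddAbove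
    exact ⟨N + 1, fun v => Nat.lt_succ_of_le (hN ⟨v, rfl⟩)⟩
  have h2 : {v : V | f v < N} = Set.univ := by
    ext v; simp [hN v]
  rw [← h2]
  exact key N

/-- A3 -/
theorem Dec.of_card {V : Type} [Finite V] (G : SimpleGraph V) (c : ℕ) (h : Nat.card V ≤ c)
    (S : Set V) : Dec G c S := by
  classical
  have := Fintype.ofFinite V
  obtain ⟨g⟩ : Nonempty (V ↪ Fin c) := by
    rw [Function.Embedding.nonempty_iff_card_le]
    rw [Nat.card_eq_fintype_card] at h
    simpa using h
  have hfew : ∀ A : Set V, FewRows G c A := by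
    intro A
    refine ⟨g, fun u _ v _ huv w _ => ?_⟩
    rw [g.injective huv]
  induction S, S.toFinite using Set.Finite.induction_on with
  | empty => exact Dec.empty
  | @insert a T ha _ ih =>
    rw [← Set.union_singleton]
    refine Dec.union ih (Dec.single a) ?_ (hfew _)
    rw [Set.disjoint_singleton_right]
    exact ha

theorem primeG_iff {V : Type} (G : SimpleGraph V) : PrimeG G ↔ Helper27.CW.IsPrime G := Iff.rfl

theorem Dec.good {V : Type} {G : SimpleGraph V} {c : ℕ} {S : Set V} (h : Dec G c S) :
    Helper27.CW.Good G (Fin (c + 1)) S := by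
  induction h with
  | empty => exact Helper27.CW.Good.empty
  | single v => exact Helper27.CW.Good.singleton v
  | union _ _ hdis hr ih1 ih2 =>
    refine Helper27.CW.Good.union ih1 ih2 hdis ?_
    obtain ⟨f, hf⟩ := hr
    exact ⟨fun v => Fin.castSucc (f v), fun u hu v hv huv w hw =>
      hf u hu v hv (Fin.castSucc_injective _ huv) w hw⟩

theorem isPrime_iso {V W : Type} {G : SimpleGraph V} {H : SimpleGraph W} (e : G ≃g H)
    (h : Helper27.CW.IsPrime G) : Helper27.CW.IsPrime H := by
  intro M hM
  have h1 : Helper27.CW.IsModule G (e ⁻¹' M) := by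
    intro x hx u hu v hv
    rw [← e.map_adj_iff, ← e.map_adj_iff]
    exact hM (e x) hx (e u) hu (e v) hv
  rcases h _ h1 with h2 | h2
  · left
    intro a ha b hb
    have := h2 (x := e.symm a) (y := e.symm b) (by simpa using ha) (by simpa using hb)
    exact e.symm.injective this
  · right
    ext w
    have : e.symm w ∈ e ⁻¹' M := by rw [h2]; trivial
    simpa using this

/-- A1 -/
theorem HasCW.of_prime (c : ℕ) : ∃ k : ℕ, ∀ (V : Type) [Finite V] (G : SimpleGraph V),
    (∀ S : Set V, PrimeG (G.induce S) → Dec (G.induce S) c Set.univ) → HasCW k V G := by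
  refine ⟨3 * (c + 1), fun V _ G h => ?_⟩
  have hS : ∀ S : Set V, PrimeG (G.induce S) →
      Helper27.CW.HasCW (3 * (c + 1)) S (G.induce S) := by
    intro S hp
    have := (h S hp).good.hasCW
    simpa using this
  have key := Helper27.CW.hasCW_of_prime (k := 3 * (c + 1))
    (fun V G => ∀ (W : Type) (H : SimpleGraph W), Nonempty (H ↪g G) →
      Helper27.CW.IsPrime H → Helper27.CW.HasCW (3 * (c + 1)) W H)
    (fun V G S hC W H ⟨f⟩ hp => hC W H ⟨(SimpleGraph.Embedding.induce S).comp f⟩ hp)
    (fun V _ G hC hp => hC V G ⟨SimpleGraph.Embedding.refl⟩ hp) V G ?_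
  · exact key.frozen
  · rintro W H ⟨f⟩ hp
    have e : H ≃g G.induce (Set.range f) :=
      { toEquiv := Equiv.ofInjective f f.injective
        map_rel_iff' := by
          intro a b
          exact f.map_adj_iff }
    exact (hS _ (isPrime_iso e hp)).iso e.symm

end Pool.Agent.CW
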