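import Pool.Agent.CW.ModE1
import Pool.Agent.CW.ModA

/-! Module E, part 2: from the layering to a decomposition tree. -/

set_option autoImplicit false

namespace Pool.Agent.CW

theorem FewRows.of_type {V : Type} {G : SimpleGraph V} {κ : Type} [Fintype κ] {c : ℕ}
    (hc : Fintype.card κ ≤ c) {A : Set V} (f : V → κ)
    (hf : ∀ u ∈ A, ∀ v ∈ A, f u = f v → ∀ w ∉ A, G.Adj u w ↔ G.Adj v w) : FewRows G c A := by
  refine ⟨fun v => Fin.castLE hc (Fintype.equivFin κ (f v)), ?_⟩
  intro u hu v hv huv
  exact hf u hu v hv ((Fintype.equivFin κ).injective (Fin.castLE_injective hc huv))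

theorem LayerStruct.mono {W : Type} [Finite W] {H : SimpleGraph W} {C0 C1 : ℕ} (h : C0 ≤ C1)
    {lam : W → ℕ} (hl : LayerStruct H C0 lam) : LayerStruct H C1 lam :=
  ⟨fun t => (hl.small t).trans h, hl.rows, hl.close⟩

theorem LayerStruct.dec {V W : Type} [Finite V] [Finite W] {G : SimpleGraph V}
    {H : SimpleGraph W} {ρ : V → W} {β : W → W} (hr : Reduction G W H ρ β) {C0 : ℕ}
    {lam : W → ℕ} (hl : LayerStruct H C0 lam) : Dec G (4 + 3 * 2 ^ (3 * C0)) Set.univ := by
  classical
  have := Fintype.ofFinite W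
  rcases isEmpty_or_nonempty V with hV | hV
  · have : (Set.univ : Set V) = ∅ := by ext v; exact hV.elim v
    rw [this]; exact Dec.empty
  have hW : Nonempty W := hV.map ρ
  set c := 4 + 3 * 2 ^ (3 * C0) with hc
  -- block layers
  set mu : W → ℕ := fun b => (Finset.univ.filter (fun s => β s = b)).sup lam with hmu
  have hmu1 : ∀ w, lam w ≤ mu (β w) := by
    intro w
    exact Finset.le_sup (f := lam) (by simp)
  have hmu2 : ∀ w, mu (β w) ≤ lam w + 1 := by
    intro w
    refine Finset.sup_le ?_
    intro s hs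
    have hs' : β s = β w := by simpa using hs
    by_cases hsw : s = w
    · rw [hsw]; omega
    · exact hl.close s w hsw (hr.close s w hs' hsw) (hr.close w s hs'.symm (Ne.symm hsw))
  set N := Fintype.card W with hN
  have hNpos : 0 < N := Fintype.card_pos
  set e : W ≃ Fin N := Fintype.equivFin W with he
  set f : V → ℕ := fun v => mu (β (ρ v)) * N + e (β (ρ v)) with hf
  have hdiv : ∀ v, f v / N = mu (β (ρ v)) := by
    intro v
    show (mu (β (ρ v)) * N + e (β (ρ v))) / N = _
    rw [Nat.add_comm, Nat.add_mul_div_right _ _ hNpos, Nat.div_eq_of_lt (e _).isLt, Nat.zero_add]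
  have hmod : ∀ v, f v % N = e (β (ρ v)) := by
    intro v
    show (mu (β (ρ v)) * N + e (β (ρ v))) % N = _
    rw [Nat.add_comm, Nat.add_mul_mod_self_right, Nat.mod_eq_of_lt (e _).isLt]
  refine Dec.of_layout G c f ?_ ?_
  · intro t
    set b : W := e.symm ⟨t % N, Nat.mod_lt _ hNpos⟩ with hb
    have hbt : ((e b : Fin N) : ℕ) = t % N := by rw [hb]; simp
    by_cases hbm : mu b = t / N
    · have : {v | f v = t} = {v | β (ρ v) = b} := by
        ext v
        simp only [Set.mem_ofPred_eq]
        constructor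
        · intro h
          have h1 := hmod v
          rw [h] at h1
          have h2 : e (β (ρ v)) = e b := Fin.ext (by rw [hbt, h1])
          exact e.injective h2
        · intro h
          show mu (β (ρ v)) * N + e (β (ρ v)) = t
          rw [h, hbm, hbt]
          exact Nat.div_add_mod' t N
      rw [this]
      exact (hr.dec b).mono (by omega)
    · have : {v | f v = t} = ∅ := by
        ext v
        simp only [Set.mem_ofPred_eq, Set.mem_empty_iff_false, iff_false]
        intro h
        have h1 := hmod v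
        rw [h] at h1
        have h2 : e (β (ρ v)) = e b := Fin.ext (by rw [hbt, h1])
        have h3 := e.injective h2
        have h4 := hdiv v
        rw [h, h3] at h4
        exact hbm h4.symm
      rw [this]
      exact Dec.empty
  · intro t
    set T := t / N with hT
    have hA : ∀ u, f u < t → lam (ρ u) ≤ T := by
      intro u hu
      refine le_trans (hmu1 (ρ u)) ?_
      rw [← hdiv u]
      exact Nat.div_le_div_right (le_of_lt hu)
    have hB : ∀ w, t ≤ f w → T ≤ lam (ρ w) + 1 := by
      intro w hw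
      refine le_trans ?_ (hmu2 (ρ w))
      rw [← hdiv w]
      exact Nat.div_le_div_right hw
    obtain ⟨g, hg⟩ := hl.rows T
    set X : Finset W := Finset.univ.filter (fun x => lam x + 1 = T ∨ lam x = T ∨ lam x = T + 1)
      with hX
    have hXcard : X.card ≤ 3 * C0 := by
      have h1 : X ⊆ (Finset.univ.filter (fun x => lam x + 1 = T)) ∪
          ((Finset.univ.filter (fun x => lam x = T)) ∪
          (Finset.univ.filter (fun x => lam x = T + 1))) := by
        intro x hx
        simp only [hX, Finset.mem_filter, Finset.mem_univ, true_and, Finset.mem_union] at hx ⊢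
        exact hx
      have h2 : ∀ t, (Finset.univ.filter (fun x => lam x = t)).card ≤ C0 := by
        intro t
        have := hl.small t
        rw [Set.ncard_eq_toFinset_card'] at this
        simpa using this
      have h3 : (Finset.univ.filter (fun x => lam x + 1 = T)).card ≤ C0 := by
        rcases Nat.eq_zero_or_pos T with h0 | h0
        · have : (Finset.univ.filter (fun x => lam x + 1 = T)) = ∅ := by
            ext x; simp; omega
          rw [this]; simp
        · refine le_trans (Finset.card_le_card ?_) (h2 (T - 1))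
          intro x hx
          simp only [Finset.mem_filter, Finset.mem_univ, true_and] at hx ⊢
          omega
      refine le_trans (Finset.card_le_card h1) ?_
      refine le_trans (Finset.card_union_le _ _) ?_
      have h4 := Finset.card_union_le (Finset.univ.filter (fun x => lam x = T))
        (Finset.univ.filter (fun x => lam x = T + 1))
      have h5 := h2 T
      have h6 := h2 (T + 1)
      omega
    refine FewRows.of_type (κ := Fin 3 × (X → Bool)) ?_
      (fun v => (g (ρ v), fun x => decide (H.Adj (ρ v) x))) ?_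
    · rw [Fintype.card_prod, Fintype.card_fun, Fintype.card_bool, Fintype.card_fin,
        Fintype.card_coe]
      have : 2 ^ X.card ≤ 2 ^ (3 * C0) := Nat.pow_le_pow_right (by omega) hXcard
      omega
    · intro u hu v hv huv w hw
      have hu' : f u < t := hu
      have hv' : f v < t := hv
      have hw' : t ≤ f w := Nat.le_of_not_lt hw
      have hne : ∀ u, f u < t → β (ρ u) ≠ β (ρ w) := by
        intro u hu h
        have : f u = f w := by
          show mu (β (ρ u)) * N + e (β (ρ u)) = mu (β (ρ w)) * N + e (β (ρ w))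
          rw [h]
        omega
      rw [hr.adj u w (hne u hu'), hr.adj v w (hne v hv')]
      rw [Prod.mk.injEq] at huv
      by_cases hx : ρ w ∈ X
      · have := congrFun huv.2 ⟨ρ w, hx⟩
        simpa using this
      · have hfar : T + 2 ≤ lam (ρ w) := by
          have h1 := hB w hw'
          simp only [hX, Finset.mem_filter, Finset.mem_univ, true_and, not_or] at hx
          omega
        exact hg (ρ u) (ρ v) (hA u hu') (hA v hv') huv.1 (ρ w) hfar

theorem layering_of {p : ℕ}
    (hu : ∀ (W : Type) [Finite W] (H : SimpleGraph W), Star H → GeoUnique H)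
    (hp : ∀ (V : Type) [Finite V] (G : SimpleGraph V), PrimeG G → Star G →
      NoSp4 G → ∀ B : Finset V, {C : Finset V | Adj4 G B C}.ncard ≤ p)
    (hcov : ∀ (V : Type) [Finite V] (G : SimpleGraph V), PrimeG G → Star G →
      ∀ B0 B1 : Finset V, Adj4 G B0 B1 → ∃ m0 : V, ∀ v, v ≠ m0 → ∃ n B, Walk4 G n B0 B ∧ v ∈ B)
    (h7 : ∀ (V : Type) [Finite V] (G : SimpleGraph V), PrimeG G → Star G →
      NoSp4 G → (∀ A B : Finset V, ¬ Adj4 G A B) → Nat.card V ≤ 7)
    (W : Type) [Finite W] (H : SimpleGraph W) (hH : PrimeG H) (hS : Star H) (hn : NoSp4 H) :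
    ∃ lam : W → ℕ, LayerStruct H (7 + (1 + (p + 1) ^ 3 * 4)) lam := by
  by_cases hiso : ∀ A B : Finset W, ¬ Adj4 H A B
  · refine ⟨fun _ => 0, LayerStruct.mono (C0 := 7) (by omega) ⟨?_, ?_, ?_⟩⟩
    · intro t
      refine le_trans (Set.ncard_le_ncard (Set.subset_univ _) (Set.toFinite _)) ?_
      rw [Set.ncard_univ]
      exact h7 W H hH hS hn hiso
    · intro t
      refine ⟨fun _ => 0, fun u v _ _ _ w hw => ?_⟩
      omega
    · intro r s _ _ _
      omega
  · push Not at hiso
    obtain ⟨B0, B1, h01⟩ := hiso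
    obtain ⟨m0, hm0⟩ := hcov W H hH hS B0 B1 h01
    exact ⟨lamOf H B0, LayerStruct.mono (by omega)
      (layer_struct (hu W H hS) (hp W H hH hS hn) B0 h01.1 m0 hm0)⟩

theorem prime_dec_of {p : ℕ}
    (hu : ∀ (W : Type) [Finite W] (H : SimpleGraph W), Star H → GeoUnique H)
    (hp : ∀ (V : Type) [Finite V] (G : SimpleGraph V), PrimeG G → Star G →
      NoSp4 G → ∀ B : Finset V, {C : Finset V | Adj4 G B C}.ncard ≤ p)
    (hcov : ∀ (V : Type) [Finite V] (G : SimpleGraph V), PrimeG G → Star G →
      ∀ B0 B1 : Finset V, Adj4 G B0 B1 → ∃ m0 : V, ∀ v, v ≠ m0 → ∃ n B, Walk4 G n B0 B ∧ v ∈ B)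
    (h7 : ∀ (V : Type) [Finite V] (G : SimpleGraph V), PrimeG G → Star G →
      NoSp4 G → (∀ A B : Finset V, ¬ Adj4 G A B) → Nat.card V ≤ 7)
    (hred : ∀ (V : Type) [Finite V] (G : SimpleGraph V), PrimeG G → Star G →
      ∃ (W : Type) (_ : Finite W) (H : SimpleGraph W) (ρ : V → W) (β : W → W),
        Reduction G W H ρ β)
    (hstar : ∀ (V : Type) [Finite V] (q : ℕ), 8 ≤ q → ∀ (G : SimpleGraph V), PrimeG G →
      Sparse q G → q + 2 ≤ Nat.card V → Star G)
    (q : ℕ) (hq : 8 ≤ q) : ∃ c : ℕ, ∀ (V : Type) [Finite V] (G : SimpleGraph V),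
    PrimeG G → Sparse q G → Dec G c Set.univ := by
  refine ⟨(q + 2) + (4 + 3 * 2 ^ (3 * (7 + (1 + (p + 1) ^ 3 * 4)))), ?_⟩
  intro V _ G hG hs
  rcases Nat.lt_or_ge (Nat.card V) (q + 2) with hV | hV
  · exact Dec.of_card G _ (by omega) _
  · have hS := hstar V q hq G hG hs hV
    obtain ⟨W, hW, H, ρ, β, hr⟩ := hred V G hG hS
    obtain ⟨lam, hl⟩ := layering_of hu hp hcov h7 W H hr.prime hr.star hr.noSp
    exact (hl.dec hr).mono (by omega)

end Pool.Agent.CW
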