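import Pool.Agent.CW.ModE1
import Pool.Agent.CW.ModD1

/-! Bounded number of partners in reduced prime graphs, from the breaking lemma. -/

set_option autoImplicit false

namespace Pool.Agent.CW

variable {V : Type} {G : SimpleGraph V}

theorem Brk.change {r r' : V} {n : ℕ} {l : List V} (h : Brk G r n l) (hr : r' ∉ l)
    (hrr : ∀ k ∈ l, G.Adj r' k ↔ G.Adj r k) : Brk G r' n l := by
  induction h with
  | @base b c d h1 h2 h3 h4 h5 h6 h7 h8 h9 =>
    have hb := hrr b (by simp)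
    have hc := hrr c (by simp)
    have hd := hrr d (by simp)
    refine Brk.base h1 h2 h3 h4 (hb.2 h5) (fun h => h6 (hc.1 h)) (fun h => h7 (hd.1 h)) ?_ ?_
    · rintro rfl; exact hr (by simp)
    · rintro rfl; exact hr (by simp)
  | @step n l z w hB hz hzr hw hwr hzw h1 h2 h3 ih =>
    have hr1 : r' ∉ l := fun h => hr (by simp [h])
    have hr2 : z ≠ r' := fun h => hr (by simp [h])
    have hr3 : w ≠ r' := fun h => hr (by simp [h])
    have hrl : ∀ k ∈ l, G.Adj r' k ↔ G.Adj r k := fun k hk => hrr k (by simp [hk])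
    refine Brk.step (ih hr1 hrl) hz hr2 hw hr3 hzw ?_ ?_ ?_
    · intro k hk
      rw [hrl k hk]; exact h1 k hk
    · obtain ⟨k, hk, h⟩ := h2
      exact ⟨k, hk, by rwa [hrl k hk]⟩
    · have := hrr z (by simp)
      rw [G.adj_comm z r', this, G.adj_comm r z]
      exact h3

/-- The class of `r` with respect to the known list `l`. -/
def Cls (G : SimpleGraph V) (r : V) (l : List V) : Set V :=
  {x | x ∉ l ∧ ∀ k ∈ l, G.Adj x k ↔ G.Adj r k}

theorem brk_step [Finite V] (hG : PrimeG G) {r : V} {n : ℕ} {l : List V} (h : Brk G r n l)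
    (hl : l ≠ []) {m : ℕ} (hm : 4 ^ (m + 1) ≤ (Cls G r l).ncard) :
    ∃ r' l', Brk G r' (n + 1) l' ∧ 4 ^ m ≤ (Cls G r' l').ncard ∧ l' ≠ [] := by
  classical
  set X := Cls G r l with hX
  have h1 : ¬ X.Subsingleton := by
    intro h
    have h2 := (Set.ncard_le_one_iff_subsingleton (s := X)).2 h
    have h3 : 4 ≤ 4 ^ (m + 1) := by
      calc 4 = 4 ^ 1 := by norm_num
        _ ≤ 4 ^ (m + 1) := Nat.pow_le_pow_right (by norm_num) (by omega)
    omega
  have h2 : X ≠ Set.univ := by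
    obtain ⟨k, hk⟩ := List.exists_mem_of_ne_nil l hl
    intro h
    have : k ∈ X := by rw [h]; exact Set.mem_univ _
    exact this.1 hk
  have h3 : ¬ IsMod G X := by
    intro h
    rcases hG X h with h | h
    · exact h1 h
    · exact h2 h
  unfold IsMod at h3
  push Not at h3
  obtain ⟨z, hz, x, hx, y, hy, hxy⟩ := h3
  have hzl : z ∉ l := by
    intro hzl
    have e1 := hx.2 z hzl
    have e2 := hy.2 z hzl
    rw [G.adj_comm x z] at e1
    rw [G.adj_comm y z] at e2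
    rcases hxy with ⟨h1, h2⟩ | ⟨h1, h2⟩
    · exact h2 (e2.2 (e1.1 h1))
    · exact h1 (e1.2 (e2.1 h2))
  have hzk : ∃ k ∈ l, ¬ (G.Adj z k ↔ G.Adj r k) := by
    by_contra hcon
    push Not at hcon
    exact hz ⟨hzl, fun k hk => by
      have := hcon k hk
      tauto⟩
  -- the main construction for one choice of parts
  have main : ∀ (P : V → Prop) (_ : ∀ u v, u ∈ X → v ∈ X → P u → ¬ P v →
      ¬ (G.Adj z v ↔ G.Adj z u)) (_ : ∀ u v, u ∈ X → v ∈ X → P u → P v →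
      (G.Adj z v ↔ G.Adj z u)), (∃ w ∈ X, ¬ P w) → X.ncard ≤ 2 * {u | u ∈ X ∧ P u}.ncard →
      ∃ r' l', Brk G r' (n + 1) l' ∧ 4 ^ m ≤ (Cls G r' l').ncard ∧ l' ≠ [] := by
    intro P hP hP' ⟨w, hw, hwP⟩ hc
    have hsplit : {u | u ∈ X ∧ P u}.ncard ≤
        {u | u ∈ X ∧ P u ∧ G.Adj w u}.ncard + {u | u ∈ X ∧ P u ∧ ¬ G.Adj w u}.ncard := by
      refine le_trans (Set.ncard_le_ncard ?_ (Set.toFinite _)) (Set.ncard_union_le _ _)
      rintro u ⟨h1, h2⟩
      by_cases h : G.Adj w u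
      · exact Or.inl ⟨h1, h2, h⟩
      · exact Or.inr ⟨h1, h2, h⟩
    have fin : ∀ (Q : V → Prop), (∀ u v, Q u → Q v → (G.Adj w u ↔ G.Adj w v)) →
        4 ^ m ≤ {u | u ∈ X ∧ P u ∧ Q u}.ncard →
        ∃ r' l', Brk G r' (n + 1) l' ∧ 4 ^ m ≤ (Cls G r' l').ncard ∧ l' ≠ [] := by
      intro Q hQ hc'
      have hne : {u | u ∈ X ∧ P u ∧ Q u}.Nonempty := by
        rw [← Set.ncard_pos]
        have : 0 < 4 ^ m := by positivity
        omega
      obtain ⟨r', hr', hrP, hrQ⟩ := hne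
      have hB : Brk G r' n l := h.change hr'.1 hr'.2
      have hzw : z ≠ w := fun h => hz (h ▸ hw)
      have hzr : z ≠ r' := fun h => hz (h ▸ hr')
      have hwr : w ≠ r' := fun h => hwP (h ▸ hrP)
      refine ⟨r', w :: z :: l, Brk.step hB hzl hzr hw.1 hwr hzw ?_ ?_ ?_, ?_, by simp⟩
      · intro k hk
        rw [hw.2 k hk, hr'.2 k hk]
      · obtain ⟨k, hk, hk'⟩ := hzk
        exact ⟨k, hk, by rwa [hr'.2 k hk]⟩
      · exact hP r' w hr' hw hrP hwP
      · refine le_trans hc' (Set.ncard_le_ncard ?_ (Set.toFinite _))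
        rintro u ⟨hu, huP, huQ⟩
        refine ⟨?_, ?_⟩
        · simp only [List.mem_cons, not_or]
          exact ⟨fun h => hwP (h ▸ huP), fun h => hz (h ▸ hu), hu.1⟩
        · intro k hk
          simp only [List.mem_cons] at hk
          rcases hk with rfl | rfl | hk
          · rw [G.adj_comm u k, G.adj_comm r' k]
            exact hQ u r' huQ hrQ
          · rw [G.adj_comm u k, G.adj_comm r' k]
            exact hP' r' u hr' hu hrP huP
          · rw [hu.2 k hk, hr'.2 k hk]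
    have hpow : 4 ^ (m + 1) = 4 * 4 ^ m := by ring
    rcases Nat.lt_or_ge ({u | u ∈ X ∧ P u ∧ G.Adj w u}.ncard) (4 ^ m) with h1 | h1
    · refine fin (fun u => ¬ G.Adj w u) (fun u v h1 h2 => iff_of_false h1 h2) ?_
      omega
    · exact fin (fun u => G.Adj w u) (fun u v h1 h2 => iff_of_true h1 h2) h1
  have hsplit : X.ncard ≤ {u | u ∈ X ∧ G.Adj z u}.ncard + {u | u ∈ X ∧ ¬ G.Adj z u}.ncard := by
    refine le_trans (Set.ncard_le_ncard ?_ (Set.toFinite _)) (Set.ncard_union_le _ _)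
    intro u h1
    by_cases h : G.Adj z u
    · exact Or.inl ⟨h1, h⟩
    · exact Or.inr ⟨h1, h⟩
  have hboth : (∃ w ∈ X, ¬ G.Adj z w) ∧ (∃ w ∈ X, ¬ ¬ G.Adj z w) := by
    rcases hxy with ⟨h1, h2⟩ | ⟨h1, h2⟩
    · exact ⟨⟨y, hy, h2⟩, ⟨x, hx, not_not.2 h1⟩⟩
    · exact ⟨⟨x, hx, h1⟩, ⟨y, hy, not_not.2 h2⟩⟩
  rcases Nat.lt_or_ge (2 * {u | u ∈ X ∧ G.Adj z u}.ncard) X.ncard with h4 | h4
  · refine main (fun u => ¬ G.Adj z u) ?_ ?_ hboth.2 (by omega)
    · intro u v _ _ h1 h2 h3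
      exact h2 (fun h4 => h1 (h3.1 h4))
    · intro u v _ _ h1 h2
      exact iff_of_false h2 h1
  · refine main (fun u => G.Adj z u) ?_ ?_ hboth.1 h4
    · intro u v _ _ h1 h2 h3
      exact h2 (h3.2 h1)
    · intro u v _ _ h1 h2
      exact iff_of_true h2 h1

/-- One-sided extensions of an induced path on three vertices. -/
def Ext (G : SimpleGraph V) (b c d : V) : Set V :=
  {x | G.Adj x b ∧ ¬ G.Adj x c ∧ ¬ G.Adj x d ∧ x ≠ c ∧ x ≠ d}

theorem ext_card [Finite V] (hG : PrimeG G) (hno : ∀ (r : V) (l : List V), ¬ Brk G r 5 l)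
    {b c d : V} (h1 : G.Adj b c) (h2 : G.Adj c d) (h3 : ¬ G.Adj b d) (h4 : b ≠ d) :
    (Ext G b c d).ncard ≤ 4 ^ 5 := by
  classical
  by_contra hcon
  rw [not_le] at hcon
  have hne : (Ext G b c d).Nonempty := by
    rw [← Set.ncard_pos]; omega
  obtain ⟨r, hr⟩ := hne
  have hb : Brk G r 0 [b, c, d] :=
    Brk.base h1 h2 h3 h4 hr.1 hr.2.1 hr.2.2.1 hr.2.2.2.1 hr.2.2.2.2
  have hc : Ext G b c d ⊆ Cls G r [b, c, d] := by
    intro x hx
    refine ⟨?_, ?_⟩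
    · simp only [List.mem_cons, List.not_mem_nil, or_false, not_or]
      exact ⟨hx.1.ne, hx.2.2.2.1, hx.2.2.2.2⟩
    · intro k hk
      simp only [List.mem_cons, List.not_mem_nil, or_false] at hk
      rcases hk with rfl | rfl | rfl
      · exact iff_of_true hx.1 hr.1
      · exact iff_of_false hx.2.1 hr.2.1
      · exact iff_of_false hx.2.2.1 hr.2.2.1
  have hc' : 4 ^ 5 ≤ (Cls G r [b, c, d]).ncard :=
    le_trans (le_of_lt hcon) (Set.ncard_le_ncard hc (Set.toFinite _))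
  obtain ⟨r1, l1, b1, c1, n1⟩ := brk_step hG hb (by simp) hc'
  obtain ⟨r2, l2, b2, c2, n2⟩ := brk_step hG b1 n1 c1
  obtain ⟨r3, l3, b3, c3, n3⟩ := brk_step hG b2 n2 c2
  obtain ⟨r4, l4, b4, c4, n4⟩ := brk_step hG b3 n3 c3
  obtain ⟨r5, l5, b5, c5, n5⟩ := brk_step hG b4 n4 c4
  exact hno r5 l5 b5

theorem IsP4.not_three {A : Finset V} (hA : IsP4 G A) {v x y z : V} (hx : x ∈ A) (hy : y ∈ A)
    (hz : z ∈ A) (hv : v ∈ A) (h1 : G.Adj v x) (h2 : G.Adj v y) (h3 : G.Adj v z) (hxy : x ≠ y)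
    (hxz : x ≠ z) (hyz : y ≠ z) : False := by
  obtain ⟨a, b, c, d, ⟨e1, e2, e3, e4, e5, e6, e7, e8, e9⟩, hA⟩ := hA
  rw [hA] at hx hy hz hv
  have e4' : ¬ G.Adj c a := fun h => e4 h.symm
  have e5' : ¬ G.Adj d a := fun h => e5 h.symm
  have e6' : ¬ G.Adj d b := fun h => e6 h.symm
  have two : ∀ p q : V, (∀ u, (u = a ∨ u = b ∨ u = c ∨ u = d) → G.Adj v u → u = p ∨ u = q) →
      False := by
    intro p q hpq
    rcases hpq x hx h1 with f1 | f1 <;> rcases hpq y hy h2 with f2 | f2 <;>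
      rcases hpq z hz h3 with f3 | f3 <;>
      first
        | exact hxy (f1.trans f2.symm)
        | exact hxz (f1.trans f3.symm)
        | exact hyz (f2.trans f3.symm)
  rcases hv with rfl | rfl | rfl | rfl
  · refine two b b ?_
    rintro u (rfl | rfl | rfl | rfl) hu
    · exact absurd hu G.irrefl
    · exact Or.inl rfl
    · exact absurd hu e4
    · exact absurd hu e5
  · refine two a c ?_
    rintro u (rfl | rfl | rfl | rfl) hu
    · exact Or.inl rfl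
    · exact absurd hu G.irrefl
    · exact Or.inr rfl
    · exact absurd hu e6
  · refine two b d ?_
    rintro u (rfl | rfl | rfl | rfl) hu
    · exact absurd hu e4'
    · exact Or.inl rfl
    · exact absurd hu G.irrefl
    · exact Or.inr rfl
  · refine two c c ?_
    rintro u (rfl | rfl | rfl | rfl) hu
    · exact absurd hu e5'
    · exact absurd hu e6'
    · exact Or.inl rfl
    · exact absurd hu G.irrefl

theorem p3_ext {A : Finset V} (hA : IsP4 G A) {y b c d : V} (hy : y ∈ A) (hb : b ∈ A)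
    (hc : c ∈ A) (hd : d ∈ A) (hyb : y ≠ b) (hyc : y ≠ c) (hyd : y ≠ d) (h1 : G.Adj b c)
    (h2 : G.Adj c d) (_h3 : ¬ G.Adj b d) (h4 : b ≠ d) : y ∈ Ext G b c d ∪ Ext G d c b := by
  have hyc' : ¬ G.Adj y c := fun h =>
    hA.not_three hb hd hy hc h1.symm h2 h.symm h4 hyb.symm hyd.symm
  by_cases hyb' : G.Adj y b <;> by_cases hyd' : G.Adj y d
  · exfalso
    rcases (exists_mid hA hy hb hc hyb hyc h1.ne).2 with m | m | m
    · exact m ⟨b, hb, d, hd, h4, hyb', hyd'⟩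
    · exact m ⟨c, hc, y, hy, hyc.symm, h1, hyb'.symm⟩
    · exact m ⟨b, hb, d, hd, h4, h1.symm, h2⟩
  · exact Or.inl ⟨hyb', hyc', hyd', hyc, hyd⟩
  · exact Or.inr ⟨hyd', hyc', hyb', hyc, hyb⟩
  · exfalso
    refine hA.compl.not_three hb hc hd hy ?_ ?_ ?_ h1.ne h4 h2.ne
    · exact (SimpleGraph.compl_adj _ _ _).2 ⟨hyb, hyb'⟩
    · exact (SimpleGraph.compl_adj _ _ _).2 ⟨hyc, hyc'⟩
    · exact (SimpleGraph.compl_adj _ _ _).2 ⟨hyd, hyd'⟩

theorem PrimeG.compl (h : PrimeG G) : PrimeG Gᶜ := by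
  intro M hM
  refine h M ?_
  intro v hv x hx y hy
  have := hM v hv x hx y hy
  rw [SimpleGraph.compl_adj, SimpleGraph.compl_adj] at this
  have e1 : v ≠ x := fun h => hv (h ▸ hx)
  have e2 : v ≠ y := fun h => hv (h ▸ hy)
  simp only [ne_eq, e1, not_false_eq_true, true_and, e2] at this
  exact not_iff_not.1 this

theorem NoSp4.compl (h : NoSp4 G) : NoSp4 Gᶜ := by
  intro x y
  refine ⟨(h x y).2, ?_⟩
  rw [compl_compl]
  exact (h x y).1

theorem few_partners_of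
    (hno : ∀ (V : Type) [Finite V] (G : SimpleGraph V), Star G → NoSp4 G →
      ∀ (r : V) (l : List V), ¬ Brk G r 5 l) :
    ∀ (V : Type) [Finite V] (G : SimpleGraph V), PrimeG G → Star G →
    NoSp4 G → ∀ B : Finset V, {C : Finset V | Adj4 G B C}.ncard ≤ 4 * (4 ^ 5 + 4 ^ 5) := by
  intro V _ G hG hS hn B
  classical
  by_cases hB : IsP4 G B
  swap
  · have : {C : Finset V | Adj4 G B C} = ∅ := by
      ext C
      simp only [Set.mem_ofPred_eq, Set.mem_empty_iff_false, iff_false]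
      intro h
      exact hB h.1
    rw [this]; simp
  have hEG : ∀ {b c d : V}, G.Adj b c → G.Adj c d → ¬ G.Adj b d → b ≠ d →
      (Ext G b c d).ncard ≤ 4 ^ 5 := fun h1 h2 h3 h4 =>
    ext_card hG (hno V G hS hn) h1 h2 h3 h4
  have hEC : ∀ {b c d : V}, Gᶜ.Adj b c → Gᶜ.Adj c d → ¬ Gᶜ.Adj b d → b ≠ d →
      (Ext Gᶜ b c d).ncard ≤ 4 ^ 5 := fun h1 h2 h3 h4 =>
    ext_card hG.compl (hno V Gᶜ hS.compl hn.compl) h1 h2 h3 h4
  obtain ⟨a, b, c, d, hP, hBB⟩ := id hB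
  -- candidates for the new vertex
  have hcand : ∀ x ∈ B, ∃ Y : Set V, Y.ncard ≤ 4 ^ 5 + 4 ^ 5 ∧
      ∀ C y, IsP4 G C → y ∉ B → (∀ z, z ∈ C ↔ z = y ∨ (z ∈ B ∧ z ≠ x)) → y ∈ Y := by
    obtain ⟨e1, e2, e3, e4, e5, e6, e7, e8, e9⟩ := id hP
    have ha : a ∈ B := (hBB a).2 (by simp)
    have hb : b ∈ B := (hBB b).2 (by simp)
    have hc : c ∈ B := (hBB c).2 (by simp)
    have hd : d ∈ B := (hBB d).2 (by simp)
    obtain ⟨f1, f2, f3, f4, f5, f6, f7, f8, f9⟩ := hP.compl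
    intro x hx
    rcases (hBB x).1 hx with rfl | rfl | rfl | rfl
    · refine ⟨Ext G b c d ∪ Ext G d c b, ?_, ?_⟩
      · exact le_trans (Set.ncard_union_le _ _) (add_le_add (hEG e2 e3 e6 e9)
          (hEG e3.symm e2.symm (fun h => e6 h.symm) e9.symm))
      · intro C y hC hy hz
        exact p3_ext hC ((hz y).2 (Or.inl rfl)) ((hz b).2 (Or.inr ⟨hb, e1.ne'⟩))
          ((hz c).2 (Or.inr ⟨hc, e7.symm⟩)) ((hz d).2 (Or.inr ⟨hd, e8.symm⟩))
          (fun h => hy (h ▸ hb)) (fun h => hy (h ▸ hc)) (fun h => hy (h ▸ hd)) e2 e3 e6 e9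
    · -- omit b : complement path d - a - c
      refine ⟨Ext Gᶜ d a c ∪ Ext Gᶜ c a d, ?_, ?_⟩
      · exact le_trans (Set.ncard_union_le _ _) (add_le_add (hEC f2 f3 f6 f9)
          (hEC f3.symm f2.symm (fun h => f6 h.symm) f9.symm))
      · intro C y hC hy hz
        exact p3_ext hC.compl ((hz y).2 (Or.inl rfl)) ((hz d).2 (Or.inr ⟨hd, e9.symm⟩))
          ((hz a).2 (Or.inr ⟨ha, e1.ne⟩)) ((hz c).2 (Or.inr ⟨hc, e2.ne'⟩))
          (fun h => hy (h ▸ hd)) (fun h => hy (h ▸ ha)) (fun h => hy (h ▸ hc)) f2 f3 f6 f9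
    · -- omit c : complement path b - d - a
      refine ⟨Ext Gᶜ b d a ∪ Ext Gᶜ a d b, ?_, ?_⟩
      · exact le_trans (Set.ncard_union_le _ _) (add_le_add (hEC f1 f2 f4 f7)
          (hEC f2.symm f1.symm (fun h => f4 h.symm) f7.symm))
      · intro C y hC hy hz
        exact p3_ext hC.compl ((hz y).2 (Or.inl rfl)) ((hz b).2 (Or.inr ⟨hb, e2.ne⟩))
          ((hz d).2 (Or.inr ⟨hd, e3.ne'⟩)) ((hz a).2 (Or.inr ⟨ha, e7⟩))
          (fun h => hy (h ▸ hb)) (fun h => hy (h ▸ hd)) (fun h => hy (h ▸ ha)) f1 f2 f4 f7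
    · refine ⟨Ext G a b c ∪ Ext G c b a, ?_, ?_⟩
      · exact le_trans (Set.ncard_union_le _ _) (add_le_add (hEG e1 e2 e4 e7)
          (hEG e2.symm e1.symm (fun h => e4 h.symm) e7.symm))
      · intro C y hC hy hz
        exact p3_ext hC ((hz y).2 (Or.inl rfl)) ((hz a).2 (Or.inr ⟨ha, e8⟩))
          ((hz b).2 (Or.inr ⟨hb, e9⟩)) ((hz c).2 (Or.inr ⟨hc, e3.ne⟩))
          (fun h => hy (h ▸ ha)) (fun h => hy (h ▸ hb)) (fun h => hy (h ▸ hc)) e1 e2 e4 e7
  refine bind_card (B : Set V) _ (fun x C => x ∈ B ∧ Adj4 G B C ∧ ∃ y, y ∉ B ∧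
    ∀ z, z ∈ C ↔ z = y ∨ (z ∈ B ∧ z ≠ x)) 4 _ (by rw [Set.ncard_coe_finset, hB.card]) ?_ ?_
  · intro x
    by_cases hx : x ∈ B
    swap
    · have : {C : Finset V | x ∈ B ∧ Adj4 G B C ∧ ∃ y, y ∉ B ∧
          ∀ z, z ∈ C ↔ z = y ∨ (z ∈ B ∧ z ≠ x)} = ∅ := by
        ext C
        simp [hx]
      rw [this]; simp
    obtain ⟨Y, hY, hYc⟩ := hcand x hx
    refine le_trans ?_ hY
    have hsub : {C : Finset V | x ∈ B ∧ Adj4 G B C ∧ ∃ y, y ∉ B ∧
          ∀ z, z ∈ C ↔ z = y ∨ (z ∈ B ∧ z ≠ x)} ⊆ (fun y => insert y (B.erase x)) '' Y := by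
      rintro C ⟨-, hC, y, hy, hz⟩
      refine ⟨y, hYc C y hC.2.1 hy hz, ?_⟩
      ext z
      rw [hz z]
      simp only [Finset.mem_insert, Finset.mem_erase]
      tauto
    exact le_trans (Set.ncard_le_ncard hsub (Set.toFinite _)) (Set.ncard_image_le (Set.toFinite _))
  · rintro C hC
    obtain ⟨h1, h2, x, y, hx, hy, hz⟩ := id hC
    exact ⟨x, hx, hx, hC, y, hy, hz⟩

end Pool.Agent.CW
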