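import Pool.Agent.CW.Basic

/-! C4: outside vertices do not distinguish the legs of a thin spider with four legs, up to one
leg. -/

set_option autoImplicit false

namespace Pool.Agent.CW

variable {V : Type} {G : SimpleGraph V}

namespace Spider

theorem good_congr {σ σ' : V → Bool} {l : List V} (h : Good G σ l) :
    (∀ z ∈ l, σ' z = σ z) → Good G σ' l := by
  induction h with
  | base h1 h2 h3 h4 h5 =>
    intro h
    exact Good.base h1 (by rw [h _ (by simp), h2]) (by rw [h _ (by simp), h3])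
      (by rw [h _ (by simp), h4]) (by rw [h _ (by simp), h5])
  | @part l x a b c A _ hx ha hb hc hA hz hs ih =>
    intro h
    refine Good.part (ih fun z hz => h z (by simp [hz])) hx ha hb hc hA hz ?_
    rw [h _ (by simp), h _ (by simp [ha]), h _ (by simp [hb]), h _ (by simp [hc]), hs]
  | @pairN l m n _ hm hn hmn h1 h2 h3 h4 ih =>
    intro h
    refine Good.pairN (ih fun z hz => h z (by simp [hz])) hm hn hmn ?_ h2
      (by rw [h _ (by simp), h3]) (by rw [h _ (by simp), h4])
    intro s hs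
    rw [h s (by simp [hs])]
    exact h1 s hs
  | @pairT l m t _ hm hn hmn h0 h1 h2 h3 h4 ih =>
    intro h
    refine Good.pairT (ih fun z hz => h z (by simp [hz])) hm hn hmn h0 ?_ h2
      (by rw [h _ (by simp), h3]) (by rw [h _ (by simp), h4])
    intro s hs
    rw [h s (by simp [hs])]
    exact h1 s hs

/-- Grown lists, the sides forgotten. -/
def GoodE (G : SimpleGraph V) (l : List V) : Prop := ∃ σ, Good G σ l

open Classical in
theorem GoodE.part {l : List V} {x a b c : V} (h : GoodE G l) (hx : x ∉ l) (ha : a ∈ l)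
    (hb : b ∈ l) (hc : c ∈ l) (hA : IsP4 G {x, a, b, c}) : GoodE G (x :: l) := by
  obtain ⟨σ, h⟩ := h
  have hne : ∀ z ∈ l, z ≠ x := fun z hz e => hx (e ▸ hz)
  refine ⟨Function.update σ x (xor (σ a) (xor (σ b) (σ c))),
    Good.part (good_congr h fun z hz => Function.update_of_ne (hne z hz) _ _) hx ha hb hc hA
      (fun z => by simp) ?_⟩
  rw [Function.update_self, Function.update_of_ne (hne a ha), Function.update_of_ne (hne b hb),
    Function.update_of_ne (hne c hc)]

theorem star_goodE (hS : Star G) {l : List V} (hl : GoodE G l) (h5 : 5 ≤ l.length)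
    (h8 : l.length ≤ 8) (F : Finset (Finset V))
    (hF : ∀ A ∈ F, IsP4 G A ∧ ∀ z ∈ A, z ∈ l) : F.card + 2 ≤ l.length := by
  obtain ⟨σ, h⟩ := hl
  exact hS σ l h h5 h8 F hF

section

variable {n : ℕ} {x y : Fin n → V}

/-- Membership in a leg. -/
def InLeg (x y : Fin n → V) (i : Fin n) (a : V) : Prop := a = x i ∨ a = y i

theorem leg_ne (hsp : ThinSp G x y) {i j : Fin n} (hij : i ≠ j) {a b : V} (ha : InLeg x y i a)
    (hb : InLeg x y j b) : a ≠ b := by
  obtain ⟨h1, h2, h3, h4, h5⟩ := hsp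
  rcases ha with rfl | rfl <;> rcases hb with rfl | rfl
  · exact (h1 i j hij).ne
  · exact h4 i j
  · exact (h4 j i).symm
  · exact h3 i j hij

theorem spider_path (hsp : ThinSp G x y) {i j : Fin n} (hij : i ≠ j) :
    Path4 G (y i) (x i) (x j) (y j) := by
  obtain ⟨h1, h2, h3, h4, h5⟩ := hsp
  exact ⟨((h5 i i).2 rfl).symm, h1 i j hij, (h5 j j).2 rfl,
    fun h => hij ((h5 j i).1 h.symm).symm, h2 i j, fun h => hij ((h5 i j).1 h),
    (h4 j i).symm, h3 i j hij, h4 i j⟩

/-- The list of the vertices of three legs. -/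
def legs3 (x y : Fin n → V) (i j k : Fin n) : List V := [y k, x k, y i, x i, x j, y j]

open Classical in
theorem goodE_legs3 (hsp : ThinSp G x y) {i j k : Fin n} (hij : i ≠ j) (hik : i ≠ k)
    (hjk : j ≠ k) : GoodE G (legs3 x y i j k) := by
  have hn := fun {i j : Fin n} (h : i ≠ j) {a b : V} => leg_ne hsp h (a := a) (b := b)
  have hp := spider_path hsp hij
  obtain ⟨h1, h2, h3, h4, h5⟩ := hsp
  refine ⟨fun z => decide (z = x i ∨ z = x j ∨ z = x k), ?_⟩
  have hy : ∀ a, decide (y a = x i ∨ y a = x j ∨ y a = x k) = false := by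
    intro a
    simp [(h4 i a).symm, (h4 j a).symm, (h4 k a).symm]
  refine Good.pairN (Good.base hp (hy i) (by simp) (by simp) (hy j)) ?_ ?_
    ((h5 k k).2 rfl) ?_ ?_ (by simp) (hy k)
  · simp only [List.mem_cons, List.not_mem_nil, or_false, not_or]
    exact ⟨h4 k i, (h1 i k hik).ne', (h1 j k hjk).ne', h4 k j⟩
  · simp only [List.mem_cons, List.not_mem_nil, or_false, not_or]
    exact ⟨(h3 i k hik).symm, (h4 i k).symm, (h4 j k).symm, (h3 j k hjk).symm⟩
  · intro s hs
    simp only [List.mem_cons, List.not_mem_nil, or_false] at hs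
    rcases hs with rfl | rfl | rfl | rfl
    · rw [hy]
      exact iff_of_false (fun h => hik ((h5 k i).1 h).symm) (by simp)
    · exact iff_of_true (h1 i k hik).symm (by simp)
    · exact iff_of_true (h1 j k hjk).symm (by simp)
    · rw [hy]
      exact iff_of_false (fun h => hjk ((h5 k j).1 h).symm) (by simp)
  · intro s hs
    simp only [List.mem_cons, List.not_mem_nil, or_false] at hs
    rcases hs with rfl | rfl | rfl | rfl
    · exact h2 k i
    · exact fun h => hik ((h5 i k).1 h.symm)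
    · exact fun h => hjk ((h5 j k).1 h.symm)
    · exact h2 k j

theorem inLeg_mem {i j k a : Fin n} {z : V} (ha : a = i ∨ a = j ∨ a = k) (hz : InLeg x y a z) :
    z ∈ legs3 x y i j k := by
  simp only [legs3, List.mem_cons, List.not_mem_nil, or_false]
  rcases ha with rfl | rfl | rfl <;> rcases hz with rfl | rfl <;> simp

theorem mem_legs3 {i j k : Fin n} {z : V} (hz : z ∈ legs3 x y i j k) :
    InLeg x y i z ∨ InLeg x y j z ∨ InLeg x y k z := by
  simp only [legs3, List.mem_cons, List.not_mem_nil, or_false] at hz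
  unfold InLeg
  tauto

/-- The path on two legs. -/
noncomputable def sp (x y : Fin n → V) (i j : Fin n) : Finset V :=
  open Classical in {y i, x i, x j, y j}

theorem mem_sp {i j : Fin n} {z : V} : z ∈ sp x y i j ↔ InLeg x y i z ∨ InLeg x y j z := by
  simp only [sp, Finset.mem_insert, Finset.mem_singleton, InLeg]
  tauto

theorem isP4_sp (hsp : ThinSp G x y) {i j : Fin n} (hij : i ≠ j) : IsP4 G (sp x y i j) :=
  ⟨_, _, _, _, spider_path hsp hij, fun z => by simp [sp]⟩

/-- Having the same type on two legs. -/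
def Same (G : SimpleGraph V) (x y : Fin n → V) (v : V) (i j : Fin n) : Prop :=
  (G.Adj v (x i) ↔ G.Adj v (x j)) ∧ (G.Adj v (y i) ↔ G.Adj v (y j))

/-- Being outside the spider. -/
def Out (x y : Fin n → V) (v : V) : Prop := ∀ i, v ≠ x i ∧ v ≠ y i

theorem Out.ne {v : V} (h : Out x y v) {i : Fin n} {a : V} (ha : InLeg x y i a) : v ≠ a := by
  rcases ha with rfl | rfl
  · exact (h i).1
  · exact (h i).2

open Classical in
/-- The path through an outside vertex with different types on two legs. -/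
theorem exists_quad (hsp : ThinSp G x y) {i j : Fin n} (hij : i ≠ j) {v : V} (hv : Out x y v)
    (hne : ¬ Same G x y v i j) :
    ∃ a b c, InLeg x y i a ∧ InLeg x y j b ∧ (InLeg x y i c ∨ InLeg x y j c) ∧
      IsP4 G {v, a, b, c} := by
  obtain ⟨h1, h2, h3, h4, h5⟩ := hsp
  have exij := h1 i j hij
  have eii := (h5 i i).2 rfl
  have ejj := (h5 j j).2 rfl
  have nij : ¬ G.Adj (x i) (y j) := fun h => hij ((h5 i j).1 h)
  have nji : ¬ G.Adj (x j) (y i) := fun h => hij ((h5 j i).1 h).symm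
  have nyy := h2 i j
  have dyy := h3 i j hij
  have dvxi := (hv i).1
  have dvyi := (hv i).2
  have dvxj := (hv j).1
  have dvyj := (hv j).2
  have dxiyj := h4 i j
  have dxjyi := h4 j i
  have p4 : ∀ a b c d : V, Path4 G a b c d → ∀ A : Finset V,
      (∀ z, z ∈ A ↔ z = a ∨ z = b ∨ z = c ∨ z = d) → IsP4 G A := fun a b c d h A hA =>
    ⟨a, b, c, d, h, hA⟩
  by_cases a1 : G.Adj v (x i) <;> by_cases a2 : G.Adj v (y i) <;> by_cases b1 : G.Adj v (x j) <;>
    by_cases b2 : G.Adj v (y j)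
  · exact absurd ⟨iff_of_true a1 b1, iff_of_true a2 b2⟩ hne
  · -- 11 10 : y j - x j - v - y i
    exact ⟨y i, x j, y j, Or.inr rfl, Or.inl rfl, Or.inr (Or.inr rfl), p4 (y j) (x j) v (y i)
      ⟨ejj.symm, b1.symm, a2, fun h => b2 h.symm, fun h => nyy h.symm, nji, dvyj.symm, dyy.symm,
        dxjyi⟩ _ (fun z => by simp; tauto)⟩
  · -- 11 01 : x j - y j - v - y i
    exact ⟨y i, x j, y j, Or.inr rfl, Or.inl rfl, Or.inr (Or.inr rfl), p4 (x j) (y j) v (y i)
      ⟨ejj, b2.symm, a2, fun h => b1 h.symm, nji, fun h => nyy h.symm, dvxj.symm, dxjyi,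
        dyy.symm⟩ _ (fun z => by simp; tauto)⟩
  · -- 11 00 : y j - x j - x i - v
    exact ⟨x i, x j, y j, Or.inl rfl, Or.inl rfl, Or.inr (Or.inr rfl), p4 (y j) (x j) (x i) v
      ⟨ejj.symm, exij.symm, a1.symm, fun h => nij h.symm, fun h => b2 h.symm,
        fun h => b1 h.symm, dxiyj.symm, dvyj.symm, dvxj.symm⟩ _ (fun z => by simp; tauto)⟩
  · -- 10 11 : y i - x i - v - y j
    exact ⟨x i, y j, y i, Or.inl rfl, Or.inr rfl, Or.inl (Or.inr rfl), p4 (y i) (x i) v (y j)
      ⟨eii.symm, a1.symm, b2, fun h => a2 h.symm, nyy, nij, dvyi.symm, dyy,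
        dxiyj⟩ _ (fun z => by simp; tauto)⟩
  · exact absurd ⟨iff_of_true a1 b1, iff_of_false a2 b2⟩ hne
  · -- 10 01 : y i - x i - v - y j
    exact ⟨x i, y j, y i, Or.inl rfl, Or.inr rfl, Or.inl (Or.inr rfl), p4 (y i) (x i) v (y j)
      ⟨eii.symm, a1.symm, b2, fun h => a2 h.symm, nyy, nij, dvyi.symm, dyy,
        dxiyj⟩ _ (fun z => by simp; tauto)⟩
  · -- 10 00 : y j - x j - x i - v
    exact ⟨x i, x j, y j, Or.inl rfl, Or.inl rfl, Or.inr (Or.inr rfl), p4 (y j) (x j) (x i) v
      ⟨ejj.symm, exij.symm, a1.symm, fun h => nij h.symm, fun h => b2 h.symm,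
        fun h => b1 h.symm, dxiyj.symm, dvyj.symm, dvxj.symm⟩ _ (fun z => by simp; tauto)⟩
  · -- 01 11 : x i - y i - v - y j
    exact ⟨x i, y j, y i, Or.inl rfl, Or.inr rfl, Or.inl (Or.inr rfl), p4 (x i) (y i) v (y j)
      ⟨eii, a2.symm, b2, fun h => a1 h.symm, nij, nyy, dvxi.symm, dxiyj,
        dyy⟩ _ (fun z => by simp; tauto)⟩
  · -- 01 10 : y j - x j - v - y i
    exact ⟨y i, x j, y j, Or.inr rfl, Or.inl rfl, Or.inr (Or.inr rfl), p4 (y j) (x j) v (y i)
      ⟨ejj.symm, b1.symm, a2, fun h => b2 h.symm, fun h => nyy h.symm, nji, dvyj.symm, dyy.symm,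
        dxjyi⟩ _ (fun z => by simp; tauto)⟩
  · exact absurd ⟨iff_of_false a1 b1, iff_of_true a2 b2⟩ hne
  · -- 01 00 : v - y i - x i - x j
    exact ⟨x i, x j, y i, Or.inl rfl, Or.inl rfl, Or.inl (Or.inr rfl), p4 v (y i) (x i) (x j)
      ⟨a2, eii.symm, exij, a1, b1, fun h => nji h.symm, dvxi, dvxj,
        dxjyi.symm⟩ _ (fun z => by simp; tauto)⟩
  · -- 00 11 : y i - x i - x j - v
    exact ⟨x i, x j, y i, Or.inl rfl, Or.inl rfl, Or.inl (Or.inr rfl), p4 (y i) (x i) (x j) v
      ⟨eii.symm, exij, b1.symm, fun h => nji h.symm, fun h => a2 h.symm,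
        fun h => a1 h.symm, dxjyi.symm, dvyi.symm, dvxi.symm⟩ _ (fun z => by simp; tauto)⟩
  · -- 00 10 : y i - x i - x j - v
    exact ⟨x i, x j, y i, Or.inl rfl, Or.inl rfl, Or.inl (Or.inr rfl), p4 (y i) (x i) (x j) v
      ⟨eii.symm, exij, b1.symm, fun h => nji h.symm, fun h => a2 h.symm,
        fun h => a1 h.symm, dxjyi.symm, dvyi.symm, dvxi.symm⟩ _ (fun z => by simp; tauto)⟩
  · -- 00 01 : v - y j - x j - x i
    exact ⟨x i, x j, y j, Or.inl rfl, Or.inl rfl, Or.inr (Or.inr rfl), p4 v (y j) (x j) (x i)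
      ⟨b2, ejj.symm, exij.symm, b1, a1, fun h => nij h.symm, dvxj, dvxi,
        dxiyj.symm⟩ _ (fun z => by simp; tauto)⟩
  · exact absurd ⟨iff_of_false a1 b1, iff_of_false a2 b2⟩ hne

/-- A path through `v` and the two legs `i`, `j`. -/
def IsQuad (G : SimpleGraph V) (x y : Fin n → V) (v : V) (i j : Fin n) (A : Finset V) : Prop :=
  IsP4 G A ∧ v ∈ A ∧ (∃ a ∈ A, InLeg x y i a) ∧ (∃ b ∈ A, InLeg x y j b) ∧
    ∀ z ∈ A, z = v ∨ InLeg x y i z ∨ InLeg x y j z

theorem exists_isQuad (hsp : ThinSp G x y) {i j : Fin n} (hij : i ≠ j) {v : V} (hv : Out x y v)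
    (hne : ¬ Same G x y v i j) : ∃ A, IsQuad G x y v i j A := by
  classical
  obtain ⟨a, b, c, ha, hb, hc, hA⟩ := exists_quad hsp hij hv hne
  refine ⟨_, hA, by simp, ⟨a, by simp, ha⟩, ⟨b, by simp, hb⟩, fun z hz => ?_⟩
  simp only [Finset.mem_insert, Finset.mem_singleton] at hz
  rcases hz with rfl | rfl | rfl | rfl
  · exact Or.inl rfl
  · exact Or.inr (Or.inl ha)
  · exact Or.inr (Or.inr hb)
  · exact Or.inr hc

theorem quad_ne (hsp : ThinSp G x y) {v : V} (hv : Out x y v) {j i' j' : Fin n}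
    (h1 : j ≠ i') (h2 : j ≠ j') {A A' : Finset V}
    (hA : ∃ b ∈ A, InLeg x y j b) (hA' : ∀ z ∈ A', z = v ∨ InLeg x y i' z ∨ InLeg x y j' z) :
    A ≠ A' := by
  rintro rfl
  obtain ⟨b, hb, hbj⟩ := hA
  rcases hA' b hb with h | h | h
  · exact hv.ne hbj h.symm
  · exact leg_ne hsp h1 hbj h rfl
  · exact leg_ne hsp h2 hbj h rfl

theorem not_mem_legs3 {i j k : Fin n} {v : V} (hv : Out x y v) : v ∉ legs3 x y i j k := by
  intro h
  rcases mem_legs3 h with h | h | h <;> exact hv.ne h rfl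

theorem goodE_seven (hsp : ThinSp G x y) {i j k : Fin n} (hij : i ≠ j) (hik : i ≠ k)
    (hjk : j ≠ k) {v : V} (hv : Out x y v) {p q : Fin n} (hp : p = i ∨ p = j ∨ p = k)
    (hq : q = i ∨ q = j ∨ q = k) (hpq : p ≠ q) (hne : ¬ Same G x y v p q) :
    GoodE G (v :: legs3 x y i j k) := by
  classical
  obtain ⟨a, b, c, ha, hb, hc, hA⟩ := exists_quad hsp hpq hv hne
  refine (goodE_legs3 hsp hij hik hjk).part (not_mem_legs3 hv) (inLeg_mem hp ha)
    (inLeg_mem hq hb) ?_ (by convert hA)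
  rcases hc with h | h
  · exact inLeg_mem hp h
  · exact inLeg_mem hq h

open Classical in
theorem card_spF (hsp : ThinSp G x y) {i j k : Fin n} (hij : i ≠ j) (hik : i ≠ k)
    (hjk : j ≠ k) : ({sp x y i j, sp x y i k, sp x y j k} : Finset (Finset V)).card = 3 := by
  have hne : ∀ {a b c : Fin n} {B : Finset V}, a ≠ b → a ≠ c → x a ∈ B → B ≠ sp x y b c := by
    rintro a b c B hab hac hB rfl
    rcases mem_sp.1 hB with h | h
    · exact leg_ne hsp hab (Or.inl rfl) h rfl
    · exact leg_ne hsp hac (Or.inl rfl) h rfl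
  rw [Finset.card_insert_of_notMem, Finset.card_insert_of_notMem, Finset.card_singleton]
  · rw [Finset.mem_singleton]
    exact hne hij hik (mem_sp.2 (Or.inl (Or.inl rfl)))
  · rw [Finset.mem_insert, Finset.mem_singleton, not_or]
    exact ⟨hne hij.symm hjk (mem_sp.2 (Or.inr (Or.inl rfl))),
      hne hij hik (mem_sp.2 (Or.inl (Or.inl rfl)))⟩

theorem spF_spec (hsp : ThinSp G x y) {i j k : Fin n} (hij : i ≠ j) (hik : i ≠ k)
    (hjk : j ≠ k) {A : Finset V} (hA : A = sp x y i j ∨ A = sp x y i k ∨ A = sp x y j k) :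
    IsP4 G A ∧ ∀ z ∈ A, z ∈ legs3 x y i j k := by
  rcases hA with rfl | rfl | rfl
  · refine ⟨isP4_sp hsp hij, fun z hz => ?_⟩
    rcases mem_sp.1 hz with h | h
    · exact inLeg_mem (by simp) h
    · exact inLeg_mem (by simp) h
  · refine ⟨isP4_sp hsp hik, fun z hz => ?_⟩
    rcases mem_sp.1 hz with h | h
    · exact inLeg_mem (by simp) h
    · exact inLeg_mem (by simp) h
  · refine ⟨isP4_sp hsp hjk, fun z hz => ?_⟩
    rcases mem_sp.1 hz with h | h
    · exact inLeg_mem (by simp) h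
    · exact inLeg_mem (by simp) h

/-- At most two induced paths through `v` on three legs. -/
theorem star7 (hS : Star G) (hsp : ThinSp G x y) {i j k : Fin n} (hij : i ≠ j) (hik : i ≠ k)
    (hjk : j ≠ k) {v : V} (hv : Out x y v) (hg : GoodE G (v :: legs3 x y i j k))
    (Fv : Finset (Finset V)) (hF : ∀ A ∈ Fv, IsP4 G A ∧ v ∈ A ∧
      ∀ z ∈ A, z = v ∨ z ∈ legs3 x y i j k) : Fv.card ≤ 2 := by
  classical
  have h := star_goodE hS hg (by simp [legs3]) (by simp [legs3])
    (({sp x y i j, sp x y i k, sp x y j k} : Finset (Finset V)) ∪ Fv) (by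
      intro A hA
      rw [Finset.mem_union, Finset.mem_insert, Finset.mem_insert, Finset.mem_singleton] at hA
      rcases hA with hA | hA
      · obtain ⟨h1, h2⟩ := spF_spec hsp hij hik hjk hA
        exact ⟨h1, fun z hz => List.mem_cons_of_mem _ (h2 z hz)⟩
      · obtain ⟨h1, _, h2⟩ := hF A hA
        exact ⟨h1, fun z hz => List.mem_cons.2 (h2 z hz)⟩)
  rw [Finset.card_union_of_disjoint, card_spF hsp hij hik hjk] at h
  · simp only [legs3, List.length_cons, List.length_nil] at h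
    omega
  · rw [Finset.disjoint_left]
    intro A hA hA'
    rw [Finset.mem_insert, Finset.mem_insert, Finset.mem_singleton] at hA
    exact not_mem_legs3 hv ((spF_spec hsp hij hik hjk hA).2 v (hF A hA').2.1)

/-- At most three induced paths through `u` or `v` on three legs. -/
theorem star8 (hS : Star G) (hsp : ThinSp G x y) {i j k : Fin n} (hij : i ≠ j) (hik : i ≠ k)
    (hjk : j ≠ k) {u v : V} (hv : Out x y v) (hg : GoodE G (u :: v :: legs3 x y i j k))
    (hu : u ∉ legs3 x y i j k)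
    (Fu Fv : Finset (Finset V)) (hFu : ∀ A ∈ Fu, IsP4 G A ∧ u ∈ A ∧
      ∀ z ∈ A, z = u ∨ z = v ∨ z ∈ legs3 x y i j k) (hFv : ∀ A ∈ Fv, IsP4 G A ∧ v ∈ A ∧ u ∉ A ∧
      ∀ z ∈ A, z = v ∨ z ∈ legs3 x y i j k) : Fu.card + Fv.card ≤ 3 := by
  classical
  have h := star_goodE hS hg (by simp [legs3]) (by simp [legs3])
    ((({sp x y i j, sp x y i k, sp x y j k} : Finset (Finset V)) ∪ Fv) ∪ Fu) (by
      intro A hA
      rw [Finset.mem_union, Finset.mem_union, Finset.mem_insert, Finset.mem_insert,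
        Finset.mem_singleton] at hA
      rcases hA with (hA | hA) | hA
      · obtain ⟨h1, h2⟩ := spF_spec hsp hij hik hjk hA
        exact ⟨h1, fun z hz => List.mem_cons_of_mem _ (List.mem_cons_of_mem _ (h2 z hz))⟩
      · obtain ⟨h1, _, _, h2⟩ := hFv A hA
        exact ⟨h1, fun z hz => List.mem_cons_of_mem _ (List.mem_cons.2 (h2 z hz))⟩
      · obtain ⟨h1, _, h2⟩ := hFu A hA
        exact ⟨h1, fun z hz => by simpa using h2 z hz⟩)
  rw [Finset.card_union_of_disjoint, Finset.card_union_of_disjoint,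
    card_spF hsp hij hik hjk] at h
  · simp only [legs3, List.length_cons, List.length_nil] at h
    omega
  · rw [Finset.disjoint_left]
    intro A hA hA'
    rw [Finset.mem_insert, Finset.mem_insert, Finset.mem_singleton] at hA
    exact not_mem_legs3 hv ((spF_spec hsp hij hik hjk hA).2 v (hFv A hA').2.1)
  · rw [Finset.disjoint_left]
    intro A hA hA'
    rw [Finset.mem_union, Finset.mem_insert, Finset.mem_insert, Finset.mem_singleton] at hA
    rcases hA with hA | hA
    · exact hu ((spF_spec hsp hij hik hjk hA).2 u (hFu A hA').2.1)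
    · exact (hFv A hA).2.2.1 (hFu A hA').2.1

theorem IsQuad.legs3 {v : V} {p q i j k : Fin n} {A : Finset V} (h : IsQuad G x y v p q A)
    (hp : p = i ∨ p = j ∨ p = k) (hq : q = i ∨ q = j ∨ q = k) :
    ∀ z ∈ A, z = v ∨ z ∈ Spider.legs3 x y i j k := by
  intro z hz
  rcases h.2.2.2.2 z hz with h | h | h
  · exact Or.inl h
  · exact Or.inr (inLeg_mem hp h)
  · exact Or.inr (inLeg_mem hq h)

theorem Same.symm' {v : V} {i j : Fin n} (h : Same G x y v i j) : Same G x y v j i :=
  ⟨h.1.symm, h.2.symm⟩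

theorem Same.trans' {v : V} {i j k : Fin n} (h : Same G x y v i j) (h' : Same G x y v j k) :
    Same G x y v i k :=
  ⟨h.1.trans h'.1, h.2.trans h'.2⟩

/-- Three legs cannot have three different types. -/
theorem not_three (hS : Star G) (hsp : ThinSp G x y) {i j k : Fin n} (hij : i ≠ j) (hik : i ≠ k)
    (hjk : j ≠ k) {v : V} (hv : Out x y v) (h1 : ¬ Same G x y v i j) (h2 : ¬ Same G x y v i k)
    (h3 : ¬ Same G x y v j k) : False := by
  classical
  obtain ⟨A, hA⟩ := exists_isQuad hsp hij hv h1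
  obtain ⟨B, hB⟩ := exists_isQuad hsp hik hv h2
  obtain ⟨C, hC⟩ := exists_isQuad hsp hjk hv h3
  have hAB : A ≠ B := quad_ne hsp hv hij.symm hjk hA.2.2.2.1 hB.2.2.2.2
  have hAC : A ≠ C := quad_ne hsp hv hij hik hA.2.2.1 hC.2.2.2.2
  have hBC : B ≠ C := quad_ne hsp hv hij hik hB.2.2.1 hC.2.2.2.2
  have h := star7 hS hsp hij hik hjk hv
    (goodE_seven hsp hij hik hjk hv (p := i) (q := j) (by simp) (by simp) hij h1) {A, B, C} (by
      intro D hD
      rw [Finset.mem_insert, Finset.mem_insert, Finset.mem_singleton] at hD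
      rcases hD with rfl | rfl | rfl
      · exact ⟨hA.1, hA.2.1, hA.legs3 (by simp) (by simp)⟩
      · exact ⟨hB.1, hB.2.1, hB.legs3 (by simp) (by simp)⟩
      · exact ⟨hC.1, hC.2.1, hC.legs3 (by simp) (by simp)⟩)
  rw [Finset.card_insert_of_notMem (by simp [hAB, hAC]),
    Finset.card_insert_of_notMem (by simp [hBC]), Finset.card_singleton] at h
  omega

/-- Total on two legs and not adjacent to the clique vertex of the third. -/
theorem not_TTN (hS : Star G) (hsp : ThinSp G x y) {i j k : Fin n} (hij : i ≠ j) (hik : i ≠ k)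
    (hjk : j ≠ k) {v : V} (hv : Out x y v) (h1 : G.Adj v (x i) ∧ G.Adj v (y i))
    (h2 : G.Adj v (x j) ∧ G.Adj v (y j)) (h3 : ¬ G.Adj v (x k)) : False := by
  classical
  have n1 : ¬ Same G x y v i k := fun h => h3 (h.1.1 h1.1)
  have n2 : ¬ Same G x y v j k := fun h => h3 (h.1.1 h2.1)
  obtain ⟨A, hA⟩ := exists_isQuad hsp hik hv n1
  obtain ⟨B, hB⟩ := exists_isQuad hsp hjk hv n2
  -- the extra path `y i - v - x j - x k`
  have hp : Path4 G (y i) v (x j) (x k) := by
    obtain ⟨s1, s2, s3, s4, s5⟩ := hsp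
    exact ⟨h1.2.symm, h2.1, s1 j k hjk, fun h => hij ((s5 j i).1 h.symm).symm,
      fun h => hik ((s5 k i).1 h.symm).symm, h3, (s4 j i).symm, (s4 k i).symm, (hv k).1⟩
  have hC : IsP4 G ({y i, v, x j, x k} : Finset V) := isP4_of_path hp
  have hAB : A ≠ B := quad_ne hsp hv hij hik hA.2.2.1 hB.2.2.2.2
  have hCA : ({y i, v, x j, x k} : Finset V) ≠ A :=
    quad_ne hsp hv hij.symm hjk ⟨x j, by simp, Or.inl rfl⟩ hA.2.2.2.2
  have hCB : ({y i, v, x j, x k} : Finset V) ≠ B :=
    quad_ne hsp hv hij hik ⟨y i, by simp, Or.inr rfl⟩ hB.2.2.2.2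
  have h := star7 hS hsp hij hik hjk hv
    (goodE_seven hsp hij hik hjk hv (p := i) (q := k) (by simp) (by simp) hik n1)
    {({y i, v, x j, x k} : Finset V), A, B} (by
      intro D hD
      rw [Finset.mem_insert, Finset.mem_insert, Finset.mem_singleton] at hD
      rcases hD with rfl | rfl | rfl
      · refine ⟨hC, by simp, fun z hz => ?_⟩
        simp only [Finset.mem_insert, Finset.mem_singleton] at hz
        rcases hz with rfl | rfl | rfl | rfl
        · exact Or.inr (by simp [Spider.legs3])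
        · exact Or.inl rfl
        · exact Or.inr (by simp [Spider.legs3])
        · exact Or.inr (by simp [Spider.legs3])
      · exact ⟨hA.1, hA.2.1, hA.legs3 (by simp) (by simp)⟩
      · exact ⟨hB.1, hB.2.1, hB.legs3 (by simp) (by simp)⟩)
  rw [Finset.card_insert_of_notMem (by
      rw [Finset.mem_insert, Finset.mem_singleton, not_or]; exact ⟨hCA, hCB⟩),
    Finset.card_insert_of_notMem (by simp [hAB]), Finset.card_singleton] at h
  omega

/-- Two legs cannot both be seen exactly through their leaves. -/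
theorem not_FF (hS : Star G) (hsp : ThinSp G x y) {i j : Fin n} (hij : i ≠ j)
    {v : V} (hv : Out x y v) (h1 : ¬ G.Adj v (x i) ∧ G.Adj v (y i))
    (h2 : ¬ G.Adj v (x j) ∧ G.Adj v (y j)) : False := by
  classical
  have hp := spider_path hsp hij
  obtain ⟨s1, s2, s3, s4, s5⟩ := id hsp
  have eii := (s5 i i).2 rfl
  have ejj := (s5 j j).2 rfl
  have nij : ¬ G.Adj (x i) (y j) := fun h => hij ((s5 i j).1 h)
  have nji : ¬ G.Adj (x j) (y i) := fun h => hij ((s5 j i).1 h).symm
  have p1 : Path4 G v (y i) (x i) (x j) :=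
    ⟨h1.2, eii.symm, s1 i j hij, h1.1, h2.1, fun h => nji h.symm, (hv i).1, (hv j).1,
      (s4 j i).symm⟩
  have p2 : Path4 G v (y j) (x j) (x i) :=
    ⟨h2.2, ejj.symm, (s1 i j hij).symm, h2.1, h1.1, fun h => nij h.symm, (hv j).1, (hv i).1,
      (s4 i j).symm⟩
  have p3 : Path4 G (y i) v (y j) (x j) :=
    ⟨h1.2.symm, h2.2, ejj.symm, s2 i j, fun h => nji h.symm, h2.1, s3 i j hij, (s4 j i).symm,
      (hv j).1⟩
  have hbase : GoodE G [y i, x i, x j, y j] := by
    refine ⟨fun z => decide (z = x i ∨ z = x j), Good.base hp ?_ (by simp) (by simp) ?_⟩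
    · simp [(s4 i i).symm, (s4 j i).symm]
    · simp [(s4 i j).symm, (s4 j j).symm]
  have hg : GoodE G [v, y i, x i, x j, y j] :=
    hbase.part (x := v) (a := y i) (b := x i) (c := x j) (by
      simp only [List.mem_cons, List.not_mem_nil, or_false, not_or]
      exact ⟨(hv i).2, (hv i).1, (hv j).1, (hv j).2⟩) (by simp) (by simp) (by simp)
      (isP4_of_path p1)
  have h := star_goodE hS hg (by simp) (by simp)
    {({y i, x i, x j, y j} : Finset V), {v, y i, x i, x j}, {v, y j, x j, x i},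
      {y i, v, y j, x j}} (by
      intro D hD
      rw [Finset.mem_insert, Finset.mem_insert, Finset.mem_insert, Finset.mem_singleton] at hD
      rcases hD with rfl | rfl | rfl | rfl
      · exact ⟨isP4_of_path hp, fun z hz => by simp at hz ⊢; tauto⟩
      · exact ⟨isP4_of_path p1, fun z hz => by simp at hz ⊢; tauto⟩
      · exact ⟨isP4_of_path p2, fun z hz => by simp at hz ⊢; tauto⟩
      · exact ⟨isP4_of_path p3, fun z hz => by simp at hz ⊢; tauto⟩)
  have hvne := hv i
  have hvne' := hv j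
  have m1 : ({y i, x i, x j, y j} : Finset V) ∉
      ({{v, y i, x i, x j}, {v, y j, x j, x i}, {y i, v, y j, x j}} : Finset (Finset V)) := by
    have hvn : v ∉ ({y i, x i, x j, y j} : Finset V) := by
      simp [(hv i).1, (hv i).2, (hv j).1, (hv j).2]
    rw [Finset.mem_insert, Finset.mem_insert, Finset.mem_singleton, not_or, not_or]
    exact ⟨fun h => hvn (by rw [h]; simp), fun h => hvn (by rw [h]; simp),
      fun h => hvn (by rw [h]; simp)⟩
  have m2 : ({v, y i, x i, x j} : Finset V) ∉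
      ({{v, y j, x j, x i}, {y i, v, y j, x j}} : Finset (Finset V)) := by
    have hyn : y j ∉ ({v, y i, x i, x j} : Finset V) := by
      simp [(hv j).2.symm, (s3 i j hij).symm, (s4 i j).symm, (s4 j j).symm]
    rw [Finset.mem_insert, Finset.mem_singleton, not_or]
    exact ⟨fun h => hyn (by rw [h]; simp), fun h => hyn (by rw [h]; simp)⟩
  have m3 : ({v, y j, x j, x i} : Finset V) ∉ ({{y i, v, y j, x j}} : Finset (Finset V)) := by
    have hyn : y i ∉ ({v, y j, x j, x i} : Finset V) := by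
      simp [(hv i).2.symm, s3 i j hij, (s4 j i).symm, (s4 i i).symm]
    rw [Finset.mem_singleton]
    exact fun h => hyn (by rw [h]; simp)
  rw [Finset.card_insert_of_notMem m1, Finset.card_insert_of_notMem m2,
    Finset.card_insert_of_notMem m3, Finset.card_singleton] at h
  simp at h

/-- Two legs of one type and two legs of another type: excluded when the leg `l` contains a
vertex `w` such that `w, v` and each of the legs `i`, `j` form a path. -/
theorem not_two_two (hS : Star G) (hsp : ThinSp G x y) {i j k l : Fin n} (hij : i ≠ j)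
    (hik : i ≠ k) (hjk : j ≠ k) (hil : i ≠ l) (hjl : j ≠ l) (hkl : k ≠ l)
    {v w : V} (hv : Out x y v) (hw : InLeg x y l w) (h1 : ¬ Same G x y v i k)
    (h2 : ¬ Same G x y v j k)
    (hi : ∀ A : Finset V, (∀ z, z ∈ A ↔ z = w ∨ z = v ∨ z = x i ∨ z = y i) → IsP4 G A)
    (hj : ∀ A : Finset V, (∀ z, z ∈ A ↔ z = w ∨ z = v ∨ z = x j ∨ z = y j) → IsP4 G A) :
    False := by
  classical
  obtain ⟨A, hA⟩ := exists_isQuad hsp hik hv h1
  obtain ⟨B, hB⟩ := exists_isQuad hsp hjk hv h2
  have hAB : A ≠ B := quad_ne hsp hv hij hik hA.2.2.1 hB.2.2.2.2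
  have hC : IsP4 G ({w, v, x i, y i} : Finset V) := hi _ fun z => by simp
  have hD : IsP4 G ({w, v, x j, y j} : Finset V) := hj _ fun z => by simp
  have hwl : w ∉ legs3 x y i j k := by
    intro h
    rcases mem_legs3 h with h | h | h
    · exact leg_ne hsp hil h hw rfl
    · exact leg_ne hsp hjl h hw rfl
    · exact leg_ne hsp hkl h hw rfl
  have hwv : w ≠ v := (hv.ne hw).symm
  have hwA : ∀ {p q : Fin n} {A : Finset V}, p ≠ l → q ≠ l → IsQuad G x y v p q A → w ∉ A := by
    intro p q A hp hq hA hwA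
    rcases hA.2.2.2.2 w hwA with h | h | h
    · exact hwv h
    · exact leg_ne hsp hp h hw rfl
    · exact leg_ne hsp hq h hw rfl
  have hCD : ({w, v, x i, y i} : Finset V) ≠ {w, v, x j, y j} := by
    intro h
    have : x i ∈ ({w, v, x j, y j} : Finset V) := by rw [← h]; simp
    simp only [Finset.mem_insert, Finset.mem_singleton] at this
    rcases this with h | h | h | h
    · exact leg_ne hsp hil (Or.inl rfl) hw h
    · exact (hv i).1 h.symm
    · exact leg_ne hsp hij (Or.inl rfl) (Or.inl rfl) h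
    · exact leg_ne hsp hij (Or.inl rfl) (Or.inr rfl) h
  have hg := (goodE_seven hsp hij hik hjk hv (p := i) (q := k) (by simp) (by simp) hik h1).part
    (x := w) (a := v) (b := x i) (c := y i) (by
      rw [List.mem_cons, not_or]
      exact ⟨hwv, hwl⟩) (by simp) (by simp [legs3]) (by simp [legs3]) (by convert hC)
  have h := star8 hS hsp hij hik hjk hv hg hwl {({w, v, x i, y i} : Finset V), {w, v, x j, y j}}
    {A, B} (by
      intro E hE
      rw [Finset.mem_insert, Finset.mem_singleton] at hE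
      rcases hE with rfl | rfl
      · refine ⟨hC, by simp, fun z hz => ?_⟩
        simp only [Finset.mem_insert, Finset.mem_singleton] at hz
        rcases hz with rfl | rfl | rfl | rfl
        · exact Or.inl rfl
        · exact Or.inr (Or.inl rfl)
        · exact Or.inr (Or.inr (by simp [Spider.legs3]))
        · exact Or.inr (Or.inr (by simp [Spider.legs3]))
      · refine ⟨hD, by simp, fun z hz => ?_⟩
        simp only [Finset.mem_insert, Finset.mem_singleton] at hz
        rcases hz with rfl | rfl | rfl | rfl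
        · exact Or.inl rfl
        · exact Or.inr (Or.inl rfl)
        · exact Or.inr (Or.inr (by simp [Spider.legs3]))
        · exact Or.inr (Or.inr (by simp [Spider.legs3]))) (by
      intro E hE
      rw [Finset.mem_insert, Finset.mem_singleton] at hE
      rcases hE with rfl | rfl
      · exact ⟨hA.1, hA.2.1, hwA hil hkl hA, hA.legs3 (by simp) (by simp)⟩
      · exact ⟨hB.1, hB.2.1, hwA hjl hkl hB, hB.legs3 (by simp) (by simp)⟩)
  rw [Finset.card_insert_of_notMem (by simpa using hCD), Finset.card_singleton,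
    Finset.card_insert_of_notMem (by simpa using hAB), Finset.card_singleton] at h
  omega

/-- Two paths through a vertex with different types on three legs. -/
theorem exists_two (hsp : ThinSp G x y) {i j k : Fin n} (hij : i ≠ j) (hik : i ≠ k)
    (hjk : j ≠ k) {v : V} (hv : Out x y v) (h : ¬ (Same G x y v i j ∧ Same G x y v i k)) :
    ∃ A B : Finset V, A ≠ B ∧ IsP4 G A ∧ IsP4 G B ∧ v ∈ A ∧ v ∈ B ∧
      (∀ z ∈ A, z = v ∨ z ∈ legs3 x y i j k) ∧ (∀ z ∈ B, z = v ∨ z ∈ legs3 x y i j k) := by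
  by_cases h1 : Same G x y v i j
  · have h2 : ¬ Same G x y v i k := fun h2 => h ⟨h1, h2⟩
    have h3 : ¬ Same G x y v j k := fun h3 => h2 (h1.trans' h3)
    obtain ⟨A, hA⟩ := exists_isQuad hsp hik hv h2
    obtain ⟨B, hB⟩ := exists_isQuad hsp hjk hv h3
    exact ⟨A, B, quad_ne hsp hv hij hik hA.2.2.1 hB.2.2.2.2, hA.1, hB.1, hA.2.1,
      hB.2.1, hA.legs3 (by simp) (by simp), hB.legs3 (by simp) (by simp)⟩
  · obtain ⟨A, hA⟩ := exists_isQuad hsp hij hv h1
    by_cases h2 : Same G x y v i k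
    · have h3 : ¬ Same G x y v j k := fun h3 => h1 (h2.trans' h3.symm')
      obtain ⟨B, hB⟩ := exists_isQuad hsp hjk hv h3
      exact ⟨A, B, quad_ne hsp hv hij hik hA.2.2.1 hB.2.2.2.2, hA.1, hB.1, hA.2.1,
        hB.2.1, hA.legs3 (by simp) (by simp), hB.legs3 (by simp) (by simp)⟩
    · obtain ⟨B, hB⟩ := exists_isQuad hsp hik hv h2
      exact ⟨A, B, quad_ne hsp hv hij.symm hjk hA.2.2.2.1 hB.2.2.2.2, hA.1, hB.1,
        hA.2.1, hB.2.1, hA.legs3 (by simp) (by simp), hB.legs3 (by simp) (by simp)⟩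

theorem goodE_of_not (hsp : ThinSp G x y) {i j k : Fin n} (hij : i ≠ j) (hik : i ≠ k)
    (hjk : j ≠ k) {v : V} (hv : Out x y v) (h : ¬ (Same G x y v i j ∧ Same G x y v i k)) :
    GoodE G (v :: legs3 x y i j k) := by
  by_cases h1 : Same G x y v i j
  · exact goodE_seven hsp hij hik hjk hv (p := i) (q := k) (by simp) (by simp) hik
      fun h2 => h ⟨h1, h2⟩
  · exact goodE_seven hsp hij hik hjk hv (p := i) (q := j) (by simp) (by simp) hij h1

/-- Two outside vertices cannot both have different types on three legs. -/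
theorem not_both (hS : Star G) (hsp : ThinSp G x y) {i j k : Fin n} (hij : i ≠ j) (hik : i ≠ k)
    (hjk : j ≠ k) {u v : V} (huv : u ≠ v) (hu : Out x y u) (hv : Out x y v)
    (h1 : ¬ (Same G x y u i j ∧ Same G x y u i k)) (h2 : ¬ (Same G x y v i j ∧ Same G x y v i k)) :
    False := by
  classical
  obtain ⟨A, B, hAB, hA, hB, huA, huB, hA', hB'⟩ := exists_two hsp hij hik hjk hu h1
  obtain ⟨C, D, hCD, hC, hD, hvC, hvD, hC', hD'⟩ := exists_two hsp hij hik hjk hv h2
  have hg7 := goodE_of_not hsp hij hik hjk hv h2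
  -- `u` is also added by a path
  have hg : GoodE G (u :: v :: legs3 x y i j k) := by
    obtain ⟨p, q, hpq, hp, hq, hne⟩ : ∃ p q : Fin n, p ≠ q ∧ (p = i ∨ p = j ∨ p = k) ∧
        (q = i ∨ q = j ∨ q = k) ∧ ¬ Same G x y u p q := by
      by_cases h : Same G x y u i j
      · exact ⟨i, k, hik, by simp, by simp, fun h' => h1 ⟨h, h'⟩⟩
      · exact ⟨i, j, hij, by simp, by simp, h⟩
    obtain ⟨a, b, c, ha, hb, hc, hE⟩ := exists_quad hsp hpq hu hne
    refine hg7.part ?_ (List.mem_cons_of_mem _ (inLeg_mem hp ha))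
      (List.mem_cons_of_mem _ (inLeg_mem hq hb)) ?_ (by convert hE)
    · rw [List.mem_cons, not_or]
      exact ⟨huv, not_mem_legs3 hu⟩
    · rcases hc with h | h
      · exact List.mem_cons_of_mem _ (inLeg_mem hp h)
      · exact List.mem_cons_of_mem _ (inLeg_mem hq h)
  have huC : u ∉ C := fun h => by
    rcases hC' u h with h | h
    · exact huv h
    · exact not_mem_legs3 hu h
  have huD : u ∉ D := fun h => by
    rcases hD' u h with h | h
    · exact huv h
    · exact not_mem_legs3 hu h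
  have h := star8 hS hsp hij hik hjk hv hg (not_mem_legs3 hu) {A, B} {C, D} (by
      intro E hE
      rw [Finset.mem_insert, Finset.mem_singleton] at hE
      rcases hE with rfl | rfl
      · exact ⟨hA, huA, fun z hz => (hA' z hz).imp_right Or.inr⟩
      · exact ⟨hB, huB, fun z hz => (hB' z hz).imp_right Or.inr⟩) (by
      intro E hE
      rw [Finset.mem_insert, Finset.mem_singleton] at hE
      rcases hE with rfl | rfl
      · exact ⟨hC, hvC, huC, hC'⟩
      · exact ⟨hD, hvD, huD, hD'⟩)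
  rw [Finset.card_insert_of_notMem (by simpa using hAB), Finset.card_singleton,
    Finset.card_insert_of_notMem (by simpa using hCD), Finset.card_singleton] at h
  omega

end

/-- No three different types. -/
def K1 (a b : Fin 4 → Bool) : Prop := ∀ i j k : Fin 4, i ≠ j → i ≠ k → j ≠ k →
  ¬ (¬ (a i = a j ∧ b i = b j) ∧ ¬ (a i = a k ∧ b i = b k) ∧ ¬ (a j = a k ∧ b j = b k))

def K2 (a b : Fin 4 → Bool) : Prop := ∀ i j k : Fin 4, i ≠ j → i ≠ k → j ≠ k →
  ¬ (a i = true ∧ b i = true ∧ a j = true ∧ b j = true ∧ a k = false)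

def K3 (a b : Fin 4 → Bool) : Prop := ∀ i j : Fin 4, i ≠ j →
  ¬ (a i = false ∧ b i = true ∧ a j = false ∧ b j = true)

def K4 (a b : Fin 4 → Bool) : Prop := ∀ i j k l : Fin 4, i ≠ j ∧ i ≠ k ∧ i ≠ l ∧ j ≠ k ∧
  j ≠ l ∧ k ≠ l → ¬ (a i = false ∧ b i = false ∧ a j = false ∧ b j = false ∧
    a k = true ∧ b k = false ∧ a l = true ∧ b l = false)

def K5 (a b : Fin 4 → Bool) : Prop := ∀ i j k l : Fin 4, i ≠ j ∧ i ≠ k ∧ i ≠ l ∧ j ≠ k ∧
  j ≠ l ∧ k ≠ l → ¬ (a i = true ∧ b i = false ∧ a j = true ∧ b j = false ∧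
    a k = true ∧ b k = true ∧ a l = true ∧ b l = true)

def K6 (a b : Fin 4 → Bool) : Prop := ∃ i0 : Fin 4, ∀ i j : Fin 4, i ≠ i0 → j ≠ i0 →
  a i = a j ∧ b i = b j

instance (a b : Fin 4 → Bool) : Decidable (K1 a b) := by unfold K1; infer_instance
instance (a b : Fin 4 → Bool) : Decidable (K2 a b) := by unfold K2; infer_instance
instance (a b : Fin 4 → Bool) : Decidable (K3 a b) := by unfold K3; infer_instance
instance (a b : Fin 4 → Bool) : Decidable (K4 a b) := by unfold K4; infer_instance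
instance (a b : Fin 4 → Bool) : Decidable (K5 a b) := by unfold K5; infer_instance
instance (a b : Fin 4 → Bool) : Decidable (K6 a b) := by unfold K6; infer_instance

/-- Combinatorics of the types. -/
theorem types_key : ∀ a0 a1 a2 a3 b0 b1 b2 b3 : Bool,
    K1 ![a0, a1, a2, a3] ![b0, b1, b2, b3] → K2 ![a0, a1, a2, a3] ![b0, b1, b2, b3] →
    K3 ![a0, a1, a2, a3] ![b0, b1, b2, b3] → K4 ![a0, a1, a2, a3] ![b0, b1, b2, b3] →
    K5 ![a0, a1, a2, a3] ![b0, b1, b2, b3] → K6 ![a0, a1, a2, a3] ![b0, b1, b2, b3] := by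
  decide +kernel

theorem vec4 (f : Fin 4 → Bool) : ![f 0, f 1, f 2, f 3] = f := by
  funext i
  fin_cases i <;> rfl

/-- One outside vertex has the same type on all legs but one. -/
theorem single {x y : Fin 4 → V} (hS : Star G) (hsp : ThinSp G x y) {v : V} (hv : Out x y v) :
    ∃ i0, ∀ i j, i ≠ i0 → j ≠ i0 → Same G x y v i j := by
  classical
  have key := types_key
    (decide (G.Adj v (x 0))) (decide (G.Adj v (x 1))) (decide (G.Adj v (x 2)))
    (decide (G.Adj v (x 3))) (decide (G.Adj v (y 0))) (decide (G.Adj v (y 1)))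
    (decide (G.Adj v (y 2))) (decide (G.Adj v (y 3)))
  rw [vec4 (fun i => decide (G.Adj v (x i))), vec4 (fun i => decide (G.Adj v (y i)))] at key
  simp only [K1, K2, K3, K4, K5, K6, decide_eq_true_eq, decide_eq_false_iff_not,
    decide_eq_decide] at key
  refine key ?_ ?_ ?_ ?_ ?_
  · rintro i j k hij hik hjk ⟨h1, h2, h3⟩
    exact not_three hS hsp hij hik hjk hv h1 h2 h3
  · rintro i j k hij hik hjk ⟨h1, h2, h3, h4, h5⟩
    exact not_TTN hS hsp hij hik hjk hv ⟨h1, h2⟩ ⟨h3, h4⟩ h5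
  · rintro i j hij ⟨h1, h2, h3, h4⟩
    exact not_FF hS hsp hij hv ⟨h1, h2⟩ ⟨h3, h4⟩
  · rintro i j k l ⟨hij, hik, hil, hjk, hjl, hkl⟩ ⟨h1, h2, h3, h4, h5, h6, h7, h8⟩
    obtain ⟨s1, s2, s3, s4, s5⟩ := id hsp
    have hp : ∀ i, i ≠ l → ¬ G.Adj v (x i) → ¬ G.Adj v (y i) → Path4 G (y i) (x i) (x l) v := by
      intro i hi h1 h2
      exact ⟨((s5 i i).2 rfl).symm, s1 i l hi, h7.symm, fun h => hi ((s5 l i).1 h.symm).symm,
        fun h => h2 h.symm, fun h => h1 h.symm, (s4 l i).symm, (hv i).2.symm, (hv i).1.symm⟩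
    refine not_two_two hS hsp hij hik hjk hil hjl hkl hv (w := x l) (Or.inl rfl)
      (fun h => h1 (h.1.2 h5)) (fun h => h3 (h.1.2 h5)) ?_ ?_
    · exact fun A hA => ⟨_, _, _, _, hp i hil h1 h2, fun z => by rw [hA]; tauto⟩
    · exact fun A hA => ⟨_, _, _, _, hp j hjl h3 h4, fun z => by rw [hA]; tauto⟩
  · rintro i j k l ⟨hij, hik, hil, hjk, hjl, hkl⟩ ⟨h1, h2, h3, h4, h5, h6, h7, h8⟩
    obtain ⟨s1, s2, s3, s4, s5⟩ := id hsp
    have hp : ∀ i, i ≠ l → G.Adj v (x i) → ¬ G.Adj v (y i) → Path4 G (y i) (x i) v (y l) := by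
      intro i hi h1 h2
      exact ⟨((s5 i i).2 rfl).symm, h1.symm, h8, fun h => h2 h.symm, s2 i l,
        fun h => hi ((s5 i l).1 h), (hv i).2.symm, s3 i l hi, s4 i l⟩
    refine not_two_two hS hsp hij hik hjk hil hjl hkl hv (w := y l) (Or.inr rfl)
      (fun h => h2 (h.2.2 h6)) (fun h => h4 (h.2.2 h6)) ?_ ?_
    · exact fun A hA => ⟨_, _, _, _, hp i hil h1 h2, fun z => by rw [hA]; tauto⟩
    · exact fun A hA => ⟨_, _, _, _, hp j hjl h3 h4, fun z => by rw [hA]; tauto⟩

end Spider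

open Spider in
/-- C4 -/
theorem spider_clones {V : Type} {G : SimpleGraph V} (hS : Star G) {x y : Fin 4 → V}
    (hsp : ThinSp G x y) : ∃ i0, ∀ v, (∀ i, v ≠ x i ∧ v ≠ y i) → ∀ i j, i ≠ i0 → j ≠ i0 →
      (G.Adj v (x i) ↔ G.Adj v (x j)) ∧ (G.Adj v (y i) ↔ G.Adj v (y j)) := by
  by_cases hall : ∀ v, Out x y v → ∀ i j, Same G x y v i j
  · exact ⟨0, fun v hv i j _ _ => hall v hv i j⟩
  · push Not at hall
    obtain ⟨v, hv, i, j, hne⟩ := hall
    obtain ⟨i0, h0⟩ := single hS hsp hv
    refine ⟨i0, fun u hu p q hp hq => ?_⟩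
    by_cases huv : u = v
    · subst huv
      exact h0 p q hp hq
    by_contra hcon
    have hij : i ≠ j := by
      rintro rfl
      exact hne ⟨Iff.rfl, Iff.rfl⟩
    have hpq : p ≠ q := by
      rintro rfl
      exact hcon ⟨Iff.rfl, Iff.rfl⟩
    have hcon' : ¬ Same G x y u p q := hcon
    -- a triple of legs on which both vertices have different types
    have htriple : ∀ a b c : Fin 4, a ≠ b → a ≠ c → b ≠ c →
        (¬ Same G x y v a b ∨ ¬ Same G x y v a c ∨ ¬ Same G x y v b c) →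
        (¬ Same G x y u a b ∨ ¬ Same G x y u a c ∨ ¬ Same G x y u b c) → False := by
      intro a b c hab hac hbc h1 h2
      refine not_both hS hsp hab hac hbc huv hu hv ?_ ?_
      · rintro ⟨e1, e2⟩
        rcases h2 with h | h | h
        · exact h e1
        · exact h e2
        · exact h (e1.symm'.trans' e2)
      · rintro ⟨e1, e2⟩
        rcases h1 with h | h | h
        · exact h e1
        · exact h e2
        · exact h (e1.symm'.trans' e2)
    -- the pair `p, q` and the exceptional leg `i0`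
    refine htriple p q i0 hpq hp hq ?_ (Or.inl hcon')
    by_contra hc
    push Not at hc
    obtain ⟨c1, c2, c3⟩ := hc
    -- then all legs have the same type for `v`
    have hsame : ∀ a, Same G x y v a p := by
      intro a
      by_cases ha : a = i0
      · rw [ha]
        exact c2.symm'
      · exact h0 a p ha hp
    exact hne ((hsame i).trans' (hsame j).symm')

end Pool.Agent.CW
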