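import Pool.Agent.CW.ModB
import Pool.Agent.CW.ModC5
import Pool.Agent.CW.ModC8
import Pool.Agent.CW.ModClose
import Pool.Agent.CW.ModD1
import Pool.Agent.CW.ModD3
import Pool.Agent.CW.ModD4
import Pool.Agent.CW.ModE2
import Pool.Agent.CW.ModPart
import Pool.Agent.CW.ModSpider
import Pool.Agent.Helper27.QClass

/-! Final assembly for `S08819`. -/

set_option autoImplicit false

open SimpleGraph

namespace Pool.Agent.CW

theorem sparse_of_qc {q : ℕ} {V : Type} [Finite V] {G : SimpleGraph V}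
    (h : Helper27.CW.QC q V G) : Sparse q G := by
  classical
  intro S hS F hF
  refine le_trans ?_ (h S hS)
  rw [← Set.ncard_coe_finset F]
  refine Set.ncard_le_ncard ?_ (Set.toFinite _)
  intro A hA
  obtain ⟨h1, h2⟩ := hF A hA
  have h3 := isP4_conv.1 h1
  exact ⟨h2, h3.1, h3.2⟩

theorem exists_reduction {V : Type} [Finite V] (G : SimpleGraph V) (hG : PrimeG G)
    (hS : Star G) :
    ∃ (W : Type) (_ : Finite W) (H : SimpleGraph W) (ρ : V → W) (β : W → W),
      Reduction G W H ρ β :=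
  exists_reduction_of (fun h1 _ _ h2 => spider_clones h1 h2)
    (fun h1 _ _ h2 C hC => clone_close h1 h2 C hC) G hG hS hS.compl

theorem few_partners (V : Type) [Finite V] (G : SimpleGraph V) (hG : PrimeG G) (hS : Star G)
    (hn : NoSp4 G) (B : Finset V) : {C : Finset V | Adj4 G B C}.ncard ≤ 4 * (4 ^ 5 + 4 ^ 5) :=
  few_partners_of (fun _ _ _ hS hsp _ _ => no_brk hS hsp) V G hG hS hn B

theorem prime_dec (q : ℕ) (hq : 8 ≤ q) : ∃ c : ℕ, ∀ (V : Type) [Finite V] (G : SimpleGraph V),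
    PrimeG G → Sparse q G → Dec G c Set.univ :=
  prime_dec_of (p := 4 * (4 ^ 5 + 4 ^ 5))
    (fun _ _ _ hS => fun h1 h2 h3 h4 h5 h6 h7 h8 h9 => geo_unique hS h1 h2 h3 h4 h5 h6 h7 h8 h9)
    (fun V _ G hG hS hn B => few_partners V G hG hS hn B)
    (fun _ _ G hG hS B0 B1 h => cover G hG hS B0 B1 h)
    (fun _ _ G hG hS hn h => card_le_seven G hG hS hn h)
    (fun _ _ G hG hS => exists_reduction G hG hS)
    (fun _ _ q hq G hG hs hV => Star.of_sparse q hq G hG hs hV) q hq

/-- `(q, q-2)`-graphs have bounded clique-width for `q ≥ 8`. -/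
theorem main (q : ℕ) (hq : 8 ≤ q) : ∃ k : ℕ, ∀ (V : Type) [Finite V] (G : SimpleGraph V),
    Helper27.CW.QC q V G → HasCW k V G := by
  obtain ⟨c, hc⟩ := prime_dec q hq
  obtain ⟨k, hk⟩ := HasCW.of_prime c
  refine ⟨k, fun V _ G hG => hk V G (fun S hS => ?_)⟩
  exact hc S (G.induce S) hS (sparse_of_qc (hG.induce S))

end Pool.Agent.CW
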