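import Pool.Agent.CW.Defs

/-! Module B of `S08819` (MP_563ce7_co): clone reduction. -/

set_option autoImplicit false

namespace Pool.Agent.CW

variable {V : Type}

/-! ### Basic facts on induced paths -/

private theorem Path4.rev {G : SimpleGraph V} {a b c d : V} (h : Path4 G a b c d) : Path4 G d c b a := by
  obtain ⟨h1, h2, h3, h4, h5, h6, h7, h8, h9⟩ := h
  exact ⟨h3.symm, h2.symm, h1.symm, fun h => h6 h.symm, fun h => h5 h.symm, fun h => h4 h.symm,
    h9.symm, h8.symm, h7.symm⟩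

private theorem Path4.compl {G : SimpleGraph V} {a b c d : V} (h : Path4 G a b c d) :
    Path4 Gᶜ b d a c := by
  obtain ⟨h1, h2, h3, h4, h5, h6, h7, h8, h9⟩ := h
  simp only [Path4, SimpleGraph.compl_adj]
  exact ⟨⟨h9, h6⟩, ⟨h8.symm, fun h => h5 h.symm⟩, ⟨h7, h4⟩, fun h => h.2 h1.symm,
    fun h => h.2 h2, fun h => h.2 h3.symm, h1.ne', h2.ne, h3.ne'⟩

private theorem IsP4.compl {G : SimpleGraph V} {A : Finset V} (h : IsP4 G A) : IsP4 Gᶜ A := by
  obtain ⟨a, b, c, d, hp, hA⟩ := h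
  refine ⟨b, d, a, c, hp.compl, fun x => ?_⟩
  rw [hA x]
  tauto

private theorem isP4_compl {G : SimpleGraph V} {A : Finset V} : IsP4 Gᶜ A ↔ IsP4 G A :=
  ⟨fun h => by simpa using h.compl, IsP4.compl⟩

private theorem adj4_compl {G : SimpleGraph V} {A B : Finset V} : Adj4 Gᶜ A B ↔ Adj4 G A B := by
  simp only [Adj4, isP4_compl]

/-- `G` or its complement. -/
private def gg (G : SimpleGraph V) (c : Bool) : SimpleGraph V := if c then G else Gᶜ

private theorem isP4_gg {G : SimpleGraph V} {c : Bool} {A : Finset V} : IsP4 (gg G c) A ↔ IsP4 G A := by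
  cases c
  · simp [gg, isP4_compl]
  · simp [gg]

private theorem adj4_gg {G : SimpleGraph V} {c : Bool} {A B : Finset V} :
    Adj4 (gg G c) A B ↔ Adj4 G A B := by
  cases c
  · simp [gg, adj4_compl]
  · simp [gg]

/-- An induced path has no twins. -/
private theorem IsP4.no_twins {G : SimpleGraph V} {A : Finset V} (h : IsP4 G A) {u v : V} (hu : u ∈ A)
    (hv : v ∈ A) (huv : u ≠ v)
    (ht : ∀ z ∈ A, z ≠ u → z ≠ v → (G.Adj z u ↔ G.Adj z v)) : False := by
  obtain ⟨a, b, c, d, ⟨h1, h2, h3, h4, h5, h6, h7, h8, h9⟩, hA⟩ := h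
  have ha : a ∈ A := (hA a).2 (by simp)
  have hb : b ∈ A := (hA b).2 (by simp)
  have hc : c ∈ A := (hA c).2 (by simp)
  have hd : d ∈ A := (hA d).2 (by simp)
  have e1 := h1.ne; have e2 := h2.ne; have e3 := h3.ne
  have s1 := h1.symm; have s2 := h2.symm; have s3 := h3.symm
  have s4 : ¬ G.Adj c a := fun h => h4 h.symm
  have s5 : ¬ G.Adj d a := fun h => h5 h.symm
  have s6 : ¬ G.Adj d b := fun h => h6 h.symm
  rcases (hA u).1 hu with rfl | rfl | rfl | rfl <;> rcases (hA v).1 hv with rfl | rfl | rfl | rfl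
  all_goals first
    | exact absurd rfl huv
    | skip
  · have := ht c hc h7.symm e2.symm; tauto
  · have := ht d hd h8.symm e3.symm; tauto
  · have := ht b hb e1.symm h9; tauto
  · have := ht c hc e2.symm h7.symm; tauto
  · have := ht a ha e1 h7; tauto
  · have := ht a ha e1 h8; tauto
  · have := ht d hd e3.symm h8.symm; tauto
  · have := ht a ha h7 e1; tauto
  · have := ht b hb e2 h9; tauto
  · have := ht b hb h9 e1.symm; tauto
  · have := ht a ha h8 e1; tauto
  · have := ht b hb h9 e2; tauto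

/-- The order of the vertices of an induced path is unique up to reversal. -/
private theorem Path4.unique {G : SimpleGraph V} {a b c d a' b' c' d' : V} (h : Path4 G a b c d)
    (h' : Path4 G a' b' c' d')
    (hs : ∀ x, (x = a ∨ x = b ∨ x = c ∨ x = d) ↔ (x = a' ∨ x = b' ∨ x = c' ∨ x = d')) :
    (a = a' ∧ b = b' ∧ c = c' ∧ d = d') ∨ (a = d' ∧ b = c' ∧ c = b' ∧ d = a') := by
  obtain ⟨h1, h2, h3, h4, h5, h6, h7, h8, h9⟩ := h
  obtain ⟨k1, k2, k3, k4, k5, k6, k7, k8, k9⟩ := h'
  have ha := (hs a).1 (by simp)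
  have hb := (hs b).1 (by simp)
  have hc := (hs c).1 (by simp)
  have hd := (hs d).1 (by simp)
  have e1 := h1.ne; have e2 := h2.ne; have e3 := h3.ne
  have s1 := h1.symm; have s2 := h2.symm; have s3 := h3.symm
  have s4 : ¬ G.Adj c a := fun h => h4 h.symm
  have s5 : ¬ G.Adj d a := fun h => h5 h.symm
  have s6 : ¬ G.Adj d b := fun h => h6 h.symm
  have m1 := k1.symm; have m2 := k2.symm; have m3 := k3.symm
  have m4 : ¬ G.Adj c' a' := fun h => k4 h.symm
  have m5 : ¬ G.Adj d' a' := fun h => k5 h.symm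
  have m6 : ¬ G.Adj d' b' := fun h => k6 h.symm
  rcases ha with rfl | rfl | rfl | rfl <;> rcases hb with rfl | rfl | rfl | rfl <;>
    first
    | exact absurd rfl e1
    | (exfalso; exact absurd h1 (by assumption))
    | (rcases hc with rfl | rfl | rfl | rfl <;>
        first
        | exact absurd rfl e2
        | exact absurd rfl h7
        | (exfalso; exact absurd h2 (by assumption))
        | (rcases hd with rfl | rfl | rfl | rfl <;>
            first
            | exact absurd rfl e3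
            | exact absurd rfl h8
            | exact absurd rfl h9
            | (left; exact ⟨rfl, rfl, rfl, rfl⟩)
            | (right; exact ⟨rfl, rfl, rfl, rfl⟩)
            | (exfalso; exact absurd h3 (by assumption))))


/-! ### Induced subgraphs -/

section Comap

variable {W : Type} {G : SimpleGraph V} {f : W → V}

private theorem Path4.comap_iff (hf : Function.Injective f) {a b c d : W} :
    Path4 (G.comap f) a b c d ↔ Path4 G (f a) (f b) (f c) (f d) := by
  simp [Path4, SimpleGraph.comap_adj, hf.ne_iff]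

open Classical in
private theorem IsP4.image (hf : Function.Injective f) {A : Finset W} :
    IsP4 G (A.image f) ↔ IsP4 (G.comap f) A := by
  constructor
  · rintro ⟨a, b, c, d, hp, hA⟩
    have ha := (hA a).2 (by simp)
    have hb := (hA b).2 (by simp)
    have hc := (hA c).2 (by simp)
    have hd := (hA d).2 (by simp)
    rw [Finset.mem_image] at ha hb hc hd
    obtain ⟨a, -, rfl⟩ := ha
    obtain ⟨b, -, rfl⟩ := hb
    obtain ⟨c, -, rfl⟩ := hc
    obtain ⟨d, -, rfl⟩ := hd
    refine ⟨a, b, c, d, (Path4.comap_iff hf).2 hp, fun x => ?_⟩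
    have := hA (f x)
    rw [hf.mem_finset_image] at this
    simpa [hf.eq_iff] using this
  · rintro ⟨a, b, c, d, hp, hA⟩
    refine ⟨f a, f b, f c, f d, (Path4.comap_iff hf).1 hp, fun x => ?_⟩
    rw [Finset.mem_image]
    constructor
    · rintro ⟨y, hy, rfl⟩
      simpa [hf.eq_iff] using (hA y).1 hy
    · rintro (rfl | rfl | rfl | rfl)
      · exact ⟨a, (hA a).2 (by simp), rfl⟩
      · exact ⟨b, (hA b).2 (by simp), rfl⟩
      · exact ⟨c, (hA c).2 (by simp), rfl⟩
      · exact ⟨d, (hA d).2 (by simp), rfl⟩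

private theorem Good.map (hf : Function.Injective f) {σ : V → Bool} {τ : W → Bool}
    (hστ : ∀ w, σ (f w) = τ w) {l : List W} (h : Good (G.comap f) τ l) :
    Good G σ (l.map f) := by
  classical
  have hmem : ∀ (l : List W) (x : W), f x ∈ l.map f ↔ x ∈ l := by
    intro l x
    rw [List.mem_map]
    exact ⟨fun ⟨y, hy, hxy⟩ => hf hxy ▸ hy, fun hx => ⟨x, hx, rfl⟩⟩
  induction h with
  | base hp ha hb hc hd =>
    exact Good.base ((Path4.comap_iff hf).1 hp) ((hστ _).trans ha) ((hστ _).trans hb)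
      ((hστ _).trans hc) ((hστ _).trans hd)
  | @part l x a b c A hl hx ha hb hc hA hAm hs ih =>
    refine Good.part (a := f a) (b := f b) (c := f c) (A := A.image f) ih ?_ ?_ ?_ ?_
      ((IsP4.image hf).2 hA) ?_ ?_
    · rw [hmem]; exact hx
    · rw [hmem]; exact ha
    · rw [hmem]; exact hb
    · rw [hmem]; exact hc
    · intro z
      rw [Finset.mem_image]
      constructor
      · rintro ⟨y, hy, rfl⟩
        simpa [hf.eq_iff] using (hAm y).1 hy
      · rintro (rfl | rfl | rfl | rfl)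
        · exact ⟨x, (hAm x).2 (by simp), rfl⟩
        · exact ⟨a, (hAm a).2 (by simp), rfl⟩
        · exact ⟨b, (hAm b).2 (by simp), rfl⟩
        · exact ⟨c, (hAm c).2 (by simp), rfl⟩
    · rw [hστ, hστ, hστ, hστ]; exact hs
  | @pairN l m n hl hm hn hmn hms hns hσm hσn ih =>
    refine Good.pairN ih ?_ ?_ hmn ?_ ?_ ((hστ _).trans hσm) ((hστ _).trans hσn)
    · rw [hmem]; exact hm
    · rw [hmem]; exact hn
    · intro s hs
      obtain ⟨s, hs', rfl⟩ := List.mem_map.1 hs
      rw [hστ]; exact hms s hs'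
    · intro s hs
      obtain ⟨s, hs', rfl⟩ := List.mem_map.1 hs
      exact hns s hs'
  | @pairT l m t hl hm ht hne hmt hms hts hσm hσt ih =>
    refine Good.pairT ih ?_ ?_ (hf.ne hne) hmt ?_ ?_ ((hστ _).trans hσm) ((hστ _).trans hσt)
    · rw [hmem]; exact hm
    · rw [hmem]; exact ht
    · intro s hs
      obtain ⟨s, hs', rfl⟩ := List.mem_map.1 hs
      rw [hστ]; exact hms s hs'
    · intro s hs
      obtain ⟨s, hs', rfl⟩ := List.mem_map.1 hs
      exact hts s hs'

private theorem Star.comap (hf : Function.Injective f) (hS : Star G) : Star (G.comap f) := by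
  classical
  intro τ l hl h5 h8 F hF
  let σ : V → Bool := fun v => if h : ∃ w, f w = v then τ h.choose else false
  have hστ : ∀ w, σ (f w) = τ w := by
    intro w
    have h : ∃ w', f w' = f w := ⟨w, rfl⟩
    simp only [σ, dif_pos h]
    rw [hf h.choose_spec]
  have h1 := hS σ (l.map f) (Good.map hf hστ hl) (by simpa using h5) (by simpa using h8)
    (F.image (fun A => A.image f)) ?_
  · rw [Finset.card_image_of_injective _ (Finset.image_injective hf)] at h1
    simpa using h1
  · intro A hA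
    rw [Finset.mem_image] at hA
    obtain ⟨B, hB, rfl⟩ := hA
    refine ⟨(IsP4.image hf).2 (hF B hB).1, fun x hx => ?_⟩
    rw [Finset.mem_image] at hx
    obtain ⟨y, hy, rfl⟩ := hx
    exact List.mem_map.2 ⟨y, (hF B hB).2 y hy, rfl⟩

end Comap

/-! ### Thin clones -/

/-- Two legs `p = (x, y)`, `q = (x', y')` (clique vertex first) that are thin clones. -/
private def TC (G : SimpleGraph V) (p q : V × V) : Prop :=
  G.Adj p.1 p.2 ∧ G.Adj q.1 q.2 ∧ G.Adj p.1 q.1 ∧ ¬ G.Adj p.2 q.2 ∧ ¬ G.Adj p.1 q.2 ∧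
    ¬ G.Adj q.1 p.2 ∧ ∀ v, v ≠ p.1 → v ≠ p.2 → v ≠ q.1 → v ≠ q.2 →
      ((G.Adj v p.1 ↔ G.Adj v q.1) ∧ (G.Adj v p.2 ↔ G.Adj v q.2))

namespace TC

variable {G : SimpleGraph V} {p q r : V × V}

private theorem symm (h : TC G p q) : TC G q p := by
  obtain ⟨h1, h2, h3, h4, h5, h6, h7⟩ := h
  refine ⟨h2, h1, h3.symm, fun h => h4 h.symm, h6, h5, fun v a b c d => ?_⟩
  obtain ⟨k1, k2⟩ := h7 v c d a b
  exact ⟨k1.symm, k2.symm⟩

private theorem ne11 (h : TC G p q) : p.1 ≠ q.1 := h.2.2.1.ne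
private theorem ne12 (h : TC G p q) : p.1 ≠ q.2 := by
  obtain ⟨h1, h2, h3, h4, h5, h6, h7⟩ := h
  intro e
  rw [e] at h1
  exact h4 h1.symm
private theorem ne21 (h : TC G p q) : p.2 ≠ q.1 := by
  obtain ⟨h1, h2, h3, h4, h5, h6, h7⟩ := h
  intro e
  rw [← e] at h2
  exact h4 h2
private theorem ne22 (h : TC G p q) : p.2 ≠ q.2 := by
  obtain ⟨h1, h2, h3, h4, h5, h6, h7⟩ := h
  intro e
  rw [e] at h1
  exact h5 h1
private theorem ne (h : TC G p q) : p ≠ q := fun e => h.ne11 (congrArg Prod.fst e)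

private theorem trans (h : TC G p q) (h' : TC G q r) (hne : p ≠ r) : TC G p r := by
  have n11 := h.ne11; have n12 := h.ne12; have n21 := h.ne21; have n22 := h.ne22
  have m11 := h'.ne11; have m12 := h'.ne12; have m21 := h'.ne21; have m22 := h'.ne22
  obtain ⟨h1, h2, h3, h4, h5, h6, h7⟩ := h
  obtain ⟨k1, k2, k3, k4, k5, k6, k7⟩ := h'
  have e12 : p.1 ≠ r.2 := by
    intro e
    rw [← e] at k5
    exact k5 h3.symm
  have e21 : p.2 ≠ r.1 := by
    intro e
    rw [← e] at k3
    exact h6 k3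
  have e11 : p.1 ≠ r.1 := by
    intro e
    have e2 : p.2 ≠ r.2 := fun e' => hne (Prod.ext e e')
    have := (k7 p.2 n21 n22 e21 e2).1
    rw [← e] at this
    exact h6 (this.2 h1.symm).symm
  have e22 : p.2 ≠ r.2 := by
    intro e
    have := (k7 p.1 n11 n12 e11 e12).2
    rw [← e] at this
    exact h5 (this.2 h1)
  refine ⟨h1, k2, ?_, ?_, ?_, ?_, ?_⟩
  · exact ((k7 p.1 n11 n12 e11 e12).1).1 h3
  · intro hc
    exact h4 (((k7 p.2 n21 n22 e21 e22).2).2 hc)
  · intro hc
    exact h5 (((k7 p.1 n11 n12 e11 e12).2).2 hc)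
  · intro hc
    exact h6 ((((k7 p.2 n21 n22 e21 e22).1).2 hc.symm).symm)
  · intro v v1 v2 v3 v4
    by_cases hv1 : v = q.1
    · subst hv1
      exact ⟨⟨fun _ => k3, fun _ => h3.symm⟩, ⟨fun hc => absurd hc h6, fun hc => absurd hc k5⟩⟩
    by_cases hv2 : v = q.2
    · subst hv2
      exact ⟨⟨fun hc => absurd hc.symm h5, fun hc => absurd hc.symm k6⟩,
        ⟨fun hc => absurd hc.symm h4, fun hc => absurd hc k4⟩⟩
    obtain ⟨a1, a2⟩ := h7 v v1 v2 hv1 hv2
    obtain ⟨b1, b2⟩ := k7 v hv1 hv2 v3 v4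
    exact ⟨a1.trans b1, a2.trans b2⟩

private theorem path (h : TC G p q) : Path4 G p.2 p.1 q.1 q.2 := by
  have n12 := h.ne12; have n21 := h.ne21; have n22 := h.ne22
  obtain ⟨h1, h2, h3, h4, h5, h6, h7⟩ := h
  exact ⟨h1.symm, h3, h2, fun h => h6 h.symm, h4, h5, n21, n22, n12⟩

end TC

/-- The four vertices of two legs. -/
private def quad [DecidableEq V] (p q : V × V) : Finset V := {p.1, p.2, q.1, q.2}

private theorem mem_quad [DecidableEq V] {p q : V × V} {v : V} :
    v ∈ quad p q ↔ v = p.1 ∨ v = p.2 ∨ v = q.1 ∨ v = q.2 := by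
  simp [quad]

private theorem TC.isP4 [DecidableEq V] {G : SimpleGraph V} {p q : V × V} (h : TC G p q) :
    IsP4 G (quad p q) :=
  ⟨p.2, p.1, q.1, q.2, h.path, fun x => by rw [mem_quad]; tauto⟩

/-- An induced path without partners. -/
private def Iso4 (G : SimpleGraph V) (A : Finset V) : Prop := IsP4 G A ∧ ∀ C, ¬ Adj4 G A C

private theorem iso4_gg {G : SimpleGraph V} {c : Bool} {A : Finset V} : Iso4 (gg G c) A ↔ Iso4 G A := by
  simp only [Iso4, isP4_gg, adj4_gg]

/-- Criterion for adjacency of induced paths. -/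
private theorem adj4_of [DecidableEq V] {G : SimpleGraph V} {A : Finset V} (hA : IsP4 G A) {x y : V}
    (hx : x ∈ A) (hy : y ∉ A) {a b c d : V} (hp : Path4 G a b c d)
    (hs : ∀ z, (z = a ∨ z = b ∨ z = c ∨ z = d) ↔ (z = y ∨ (z ∈ A ∧ z ≠ x))) :
    Adj4 G A (insert y (A.erase x)) := by
  have hm : ∀ z, z ∈ insert y (A.erase x) ↔ z = y ∨ (z ∈ A ∧ z ≠ x) := by
    intro z
    simp only [Finset.mem_insert, Finset.mem_erase]
    tauto
  refine ⟨hA, ⟨a, b, c, d, hp, fun z => ?_⟩, x, y, hx, hy, hm⟩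
  rw [hm, hs]


private theorem IsP4.no_isolated {G : SimpleGraph V} {A : Finset V} (h : IsP4 G A) {u : V} (hu : u ∈ A)
    (ht : ∀ z ∈ A, z ≠ u → ¬ G.Adj z u) : False := by
  obtain ⟨a, b, c, d, ⟨h1, h2, h3, h4, h5, h6, h7, h8, h9⟩, hA⟩ := h
  have ha : a ∈ A := (hA a).2 (by simp)
  have hb : b ∈ A := (hA b).2 (by simp)
  have hc : c ∈ A := (hA c).2 (by simp)
  rcases (hA u).1 hu with rfl | rfl | rfl | rfl
  · exact ht b hb h1.ne' h1.symm
  · exact ht a ha h1.ne h1
  · exact ht b hb h2.ne h2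
  · exact ht c hc h3.ne h3

private theorem IsP4.no_triangle {G : SimpleGraph V} {A : Finset V} (h : IsP4 G A) {u v w : V}
    (hu : u ∈ A) (hv : v ∈ A) (hw : w ∈ A) (h1 : G.Adj u v) (h2 : G.Adj v w) (h3 : G.Adj u w) :
    False := by
  obtain ⟨a, b, c, d, ⟨k1, k2, k3, k4, k5, k6, k7, k8, k9⟩, hA⟩ := h
  have l4 : ¬ G.Adj c a := fun h => k4 h.symm
  have l5 : ¬ G.Adj d a := fun h => k5 h.symm
  have l6 : ¬ G.Adj d b := fun h => k6 h.symm
  have e1 := h1.ne; have e2 := h2.ne; have e3 := h3.ne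
  rcases (hA u).1 hu with rfl | rfl | rfl | rfl <;>
    rcases (hA v).1 hv with rfl | rfl | rfl | rfl <;>
    first
    | exact absurd rfl e1
    | exact absurd h1 (by assumption)
    | (rcases (hA w).1 hw with rfl | rfl | rfl | rfl <;>
        first
        | exact absurd rfl e2
        | exact absurd rfl e3
        | exact absurd h2 (by assumption)
        | exact absurd h3 (by assumption))

private theorem IsP4.no_dominating {G : SimpleGraph V} {A : Finset V} (h : IsP4 G A) {u : V}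
    (hu : u ∈ A) (ht : ∀ z ∈ A, z ≠ u → G.Adj z u) : False := by
  obtain ⟨a, b, c, d, ⟨h1, h2, h3, h4, h5, h6, h7, h8, h9⟩, hA⟩ := h
  have ha : a ∈ A := (hA a).2 (by simp)
  have hb : b ∈ A := (hA b).2 (by simp)
  have hc : c ∈ A := (hA c).2 (by simp)
  have hd : d ∈ A := (hA d).2 (by simp)
  rcases (hA u).1 hu with rfl | rfl | rfl | rfl
  · exact h4 (ht c hc h7.symm).symm
  · exact h6 (ht d hd h9.symm).symm
  · exact h4 (ht a ha h7)
  · exact h5 (ht a ha h8)

private theorem Star.no_c5 {G : SimpleGraph V} (hS : Star G) {a b c d v : V} (h : Path4 G a b c d)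
    (hva : G.Adj v a) (hvd : G.Adj v d) (hvb : ¬ G.Adj v b) (hvc : ¬ G.Adj v c) : False := by
  classical
  obtain ⟨h1, h2, h3, h4, h5, h6, h7, h8, h9⟩ := h
  have nva := hva.ne
  have nvd := hvd.ne
  have nvb : v ≠ b := by rintro rfl; exact h6 hvd
  have nvc : v ≠ c := by rintro rfl; exact h4 hva.symm
  have nab := h1.ne; have nbc := h2.ne; have ncd := h3.ne
  have p1 : Path4 G a b c d := ⟨h1, h2, h3, h4, h5, h6, h7, h8, h9⟩
  have p2 : Path4 G v a b c := ⟨hva, h1, h2, hvb, hvc, h4, nvb, nvc, h7⟩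
  have p3 : Path4 G b c d v := ⟨h2, h3, hvd.symm, h6, fun h => hvb h.symm, fun h => hvc h.symm,
    h9, nvb.symm, nvc.symm⟩
  have p4 : Path4 G c d v a := ⟨h3, hvd.symm, hva, fun h => hvc h.symm, fun h => h4 h.symm,
    fun h => h5 h.symm, nvc.symm, h7.symm, h8.symm⟩
  let σ : V → Bool := fun u => decide (u = b ∨ u = c)
  have g0 : Good G σ [a, b, c, d] := by
    refine Good.base p1 ?_ ?_ ?_ ?_
    · simp [σ, nab, h7]
    · simp [σ]
    · simp [σ]
    · simp [σ, h9.symm, ncd.symm]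
  have i2 : IsP4 G ({v, a, b, c} : Finset V) := ⟨v, a, b, c, p2, fun x => by simp⟩
  have g1 : Good G σ [v, a, b, c, d] := by
    refine Good.part (a := a) (b := b) (c := c) (A := {v, a, b, c}) g0 ?_ ?_ ?_ ?_ i2 ?_ ?_
    · simp [nva, nvb, nvc, nvd]
    · simp
    · simp
    · simp
    · intro z; simp
    · simp [σ, nvb, nvc, nab, h7]
  have hc := hS σ _ g1 (by simp) (by simp)
    ({({a, b, c, d} : Finset V), {v, a, b, c}, {b, c, d, v}, {c, d, v, a}} : Finset (Finset V)) ?_
  · have n1 : ({a, b, c, d} : Finset V) ≠ {v, a, b, c} := by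
      intro e
      have : v ∈ ({a, b, c, d} : Finset V) := by rw [e]; simp
      simp [nva, nvb, nvc, nvd] at this
    have n2 : ({a, b, c, d} : Finset V) ≠ {b, c, d, v} := by
      intro e
      have : v ∈ ({a, b, c, d} : Finset V) := by rw [e]; simp
      simp [nva, nvb, nvc, nvd] at this
    have n3 : ({a, b, c, d} : Finset V) ≠ {c, d, v, a} := by
      intro e
      have : v ∈ ({a, b, c, d} : Finset V) := by rw [e]; simp
      simp [nva, nvb, nvc, nvd] at this
    have n4 : ({v, a, b, c} : Finset V) ≠ {b, c, d, v} := by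
      intro e
      have : a ∈ ({b, c, d, v} : Finset V) := by rw [← e]; simp
      simp [nva.symm, nab, h7, h8] at this
    have n5 : ({v, a, b, c} : Finset V) ≠ {c, d, v, a} := by
      intro e
      have : b ∈ ({c, d, v, a} : Finset V) := by rw [← e]; simp
      simp [nvb.symm, nab.symm, nbc, h9] at this
    have n6 : ({b, c, d, v} : Finset V) ≠ {c, d, v, a} := by
      intro e
      have : b ∈ ({c, d, v, a} : Finset V) := by rw [← e]; simp
      simp [nvb.symm, nab.symm, nbc, h9] at this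
    rw [Finset.card_insert_of_notMem, Finset.card_insert_of_notMem,
      Finset.card_insert_of_notMem, Finset.card_singleton] at hc
    · simp at hc
    · simpa using n6
    · simp only [Finset.mem_insert, Finset.mem_singleton, not_or]
      exact ⟨n4, n5⟩
    · simp only [Finset.mem_insert, Finset.mem_singleton, not_or]
      exact ⟨n1, n2, n3⟩
  · intro A hA
    simp only [Finset.mem_insert, Finset.mem_singleton] at hA
    rcases hA with rfl | rfl | rfl | rfl
    · exact ⟨⟨a, b, c, d, p1, fun x => by simp⟩, fun x hx => by simp at hx ⊢; tauto⟩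
    · exact ⟨i2, fun x hx => by simp at hx ⊢; tauto⟩
    · exact ⟨⟨b, c, d, v, p3, fun x => by simp⟩, fun x hx => by simp at hx ⊢; tauto⟩
    · exact ⟨⟨c, d, v, a, p4, fun x => by simp⟩, fun x hx => by simp at hx ⊢; tauto⟩

/-- If every outside vertex is null, total or adjacent exactly to the midpoints, there is no
partner. -/
private theorem iso4_of_types {G : SimpleGraph V} {A : Finset V} {a b c d : V} (hp : Path4 G a b c d)
    (hA : ∀ x, x ∈ A ↔ x = a ∨ x = b ∨ x = c ∨ x = d)
    (ht : ∀ v ∉ A, (G.Adj v a ↔ G.Adj v d) ∧ (G.Adj v b ↔ G.Adj v c) ∧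
      (G.Adj v a → G.Adj v b)) : Iso4 G A := by
  refine ⟨⟨a, b, c, d, hp, hA⟩, ?_⟩
  rintro C ⟨-, hC, x, y, hx, hy, hm⟩
  obtain ⟨t1, t2, t3⟩ := ht y hy
  obtain ⟨h1, h2, h3, h4, h5, h6, h7, h8, h9⟩ := hp
  have nya : y ≠ a := by rintro rfl; exact hy ((hA _).2 (by simp))
  have nyb : y ≠ b := by rintro rfl; exact hy ((hA _).2 (by simp))
  have nyc : y ≠ c := by rintro rfl; exact hy ((hA _).2 (by simp))
  have nyd : y ≠ d := by rintro rfl; exact hy ((hA _).2 (by simp))
  have nab := h1.ne; have nbc := h2.ne; have ncd := h3.ne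
  have hyC : y ∈ C := (hm y).2 (Or.inl rfl)
  have haC : a ≠ x → a ∈ C := fun h => (hm a).2 (Or.inr ⟨(hA a).2 (by simp), h⟩)
  have hbC : b ≠ x → b ∈ C := fun h => (hm b).2 (Or.inr ⟨(hA b).2 (by simp), h⟩)
  have hcC : c ≠ x → c ∈ C := fun h => (hm c).2 (Or.inr ⟨(hA c).2 (by simp), h⟩)
  have hdC : d ≠ x → d ∈ C := fun h => (hm d).2 (Or.inr ⟨(hA d).2 (by simp), h⟩)
  have hCm : ∀ z ∈ C, z = y ∨ ((z = a ∨ z = b ∨ z = c ∨ z = d) ∧ z ≠ x) := fun z hz => by
    rcases (hm z).1 hz with h | ⟨h, h'⟩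
    · exact Or.inl h
    · exact Or.inr ⟨(hA z).1 h, h'⟩
  by_cases hya : G.Adj y a
  · -- total
    refine hC.no_dominating hyC (fun z hz hzy => ?_)
    rcases hCm z hz with h | ⟨rfl | rfl | rfl | rfl, -⟩
    · exact absurd h hzy
    · exact hya.symm
    · exact (t3 hya).symm
    · exact (t2.1 (t3 hya)).symm
    · exact (t1.1 hya).symm
  · have hyd : ¬ G.Adj y d := fun h => hya (t1.2 h)
    by_cases hyb : G.Adj y b
    · have hyc := t2.1 hyb
      -- type M
      by_cases hxb : b = x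
      · subst hxb
        refine hC.no_isolated (haC nab) (fun z hz hza => ?_)
        rcases hCm z hz with h | ⟨rfl | rfl | rfl | rfl, hzx⟩
        · subst h; exact hya
        · exact absurd rfl hza
        · exact absurd rfl hzx
        · exact fun h => h4 h.symm
        · exact fun h => h5 h.symm
      by_cases hxc : c = x
      · subst hxc
        refine hC.no_isolated (hdC ncd.symm) (fun z hz hza => ?_)
        rcases hCm z hz with h | ⟨rfl | rfl | rfl | rfl, hzx⟩
        · subst h; exact hyd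
        · exact h5
        · exact h6
        · exact absurd rfl hzx
        · exact absurd rfl hza
      exact hC.no_triangle hyC (hbC hxb) (hcC hxc) hyb h2 hyc
    · have hyc : ¬ G.Adj y c := fun h => hyb (t2.2 h)
      refine hC.no_isolated hyC (fun z hz hzy h => ?_)
      rcases hCm z hz with h' | ⟨rfl | rfl | rfl | rfl, hzx⟩
      · exact hzy h'
      · exact hya h.symm
      · exact hyb h.symm
      · exact hyc h.symm
      · exact hyd h.symm

private theorem or4a {p q r s : Prop} : (q ∨ p ∨ r ∨ s) ↔ (p ∨ q ∨ r ∨ s) := by tauto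
private theorem or4b {p q r s : Prop} : (q ∨ p ∨ s ∨ r) ↔ (p ∨ q ∨ r ∨ s) := by tauto
private theorem or4c {p q r s : Prop} : (s ∨ p ∨ q ∨ r) ↔ (p ∨ q ∨ r ∨ s) := by tauto
private theorem or4d {p q r s : Prop} : (s ∨ p ∨ r ∨ q) ↔ (p ∨ q ∨ r ∨ s) := by tauto
private theorem or4e {p q r s : Prop} : (q ∨ r ∨ p ∨ s) ↔ (p ∨ q ∨ r ∨ s) := by tauto
private theorem or4f {p q r s : Prop} : (p ∨ s ∨ r ∨ q) ↔ (p ∨ q ∨ r ∨ s) := by tauto

private theorem erase_or {α : Type} {A : Finset α} {a b c d v x : α}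
    (hA : ∀ x, x ∈ A ↔ x = a ∨ x = b ∨ x = c ∨ x = d) (_ : x ∈ A) (nb : b ≠ a) (nc : c ≠ a)
    (nd : d ≠ a) (hxa : x = a) :
    ∀ z, (z = v ∨ (z ∈ A ∧ z ≠ x)) ↔ (z = v ∨ z = b ∨ z = c ∨ z = d) := by
  intro z
  subst hxa
  rw [hA z]
  constructor
  · rintro (h | ⟨h | h | h | h, h'⟩)
    · exact Or.inl h
    · exact absurd h h'
    · exact Or.inr (Or.inl h)
    · exact Or.inr (Or.inr (Or.inl h))
    · exact Or.inr (Or.inr (Or.inr h))
  · rintro (h | h | h | h)
    · exact Or.inl h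
    · exact Or.inr ⟨Or.inr (Or.inl h), by rw [h]; exact nb⟩
    · exact Or.inr ⟨Or.inr (Or.inr (Or.inl h)), by rw [h]; exact nc⟩
    · exact Or.inr ⟨Or.inr (Or.inr (Or.inr h)), by rw [h]; exact nd⟩

/-- Outside vertices of an isolated path are null, total or adjacent exactly to the
midpoints. -/
private theorem Iso4.types {G : SimpleGraph V} {A : Finset V} (hI : Iso4 G A) {a b c d : V}
    (hp : Path4 G a b c d) (hA : ∀ x, x ∈ A ↔ x = a ∨ x = b ∨ x = c ∨ x = d) {v : V}
    (hv : v ∉ A) : (G.Adj v a ↔ G.Adj v d) ∧ (G.Adj v b ↔ G.Adj v c) ∧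
      (G.Adj v a → G.Adj v b) := by
  classical
  obtain ⟨hI1, hI2⟩ := hI
  have hp' := hp
  obtain ⟨h1, h2, h3, h4, h5, h6, h7, h8, h9⟩ := hp
  have nva : v ≠ a := by rintro rfl; exact hv ((hA _).2 (by simp))
  have nvb : v ≠ b := by rintro rfl; exact hv ((hA _).2 (by simp))
  have nvc : v ≠ c := by rintro rfl; exact hv ((hA _).2 (by simp))
  have nvd : v ≠ d := by rintro rfl; exact hv ((hA _).2 (by simp))
  have nab := h1.ne; have nbc := h2.ne; have ncd := h3.ne
  have haA : a ∈ A := (hA a).2 (by simp)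
  have hbA : b ∈ A := (hA b).2 (by simp)
  have hcA : c ∈ A := (hA c).2 (by simp)
  have hdA : d ∈ A := (hA d).2 (by simp)
  have key : ∀ x p q r s : V, x ∈ A → Path4 G p q r s →
      (∀ z, (z = p ∨ z = q ∨ z = r ∨ z = s) ↔ (z = v ∨ (z ∈ A ∧ z ≠ x))) → False :=
    fun x p q r s hx hpth hs => hI2 _ (adj4_of hI1 hx hv hpth hs)
  have hRa : ∀ z, (z = v ∨ (z ∈ A ∧ z ≠ a)) ↔ (z = v ∨ z = b ∨ z = c ∨ z = d) :=
    erase_or hA haA nab.symm h7.symm h8.symm rfl
  have hRb : ∀ z, (z = v ∨ (z ∈ A ∧ z ≠ b)) ↔ (z = v ∨ z = a ∨ z = c ∨ z = d) :=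
    erase_or (fun x => (hA x).trans or4a) hbA nab nbc.symm h9.symm rfl
  have hRc : ∀ z, (z = v ∨ (z ∈ A ∧ z ≠ c)) ↔ (z = v ∨ z = a ∨ z = b ∨ z = d) :=
    erase_or (fun x => (hA x).trans or4e) hcA h7 nbc ncd.symm rfl
  have hRd : ∀ z, (z = v ∨ (z ∈ A ∧ z ≠ d)) ↔ (z = v ∨ z = a ∨ z = b ∨ z = c) :=
    erase_or (fun x => (hA x).trans or4c.symm) hdA h8 h9 ncd rfl
  have s4 : ¬ G.Adj c a := fun h => h4 h.symm
  have s5 : ¬ G.Adj d a := fun h => h5 h.symm
  have s6 : ¬ G.Adj d b := fun h => h6 h.symm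
  by_contra hcon
  by_cases pa : G.Adj v a <;> by_cases pb : G.Adj v b <;> by_cases pc : G.Adj v c <;>
    by_cases pd : G.Adj v d
  · exact hcon ⟨iff_of_true pa pd, iff_of_true pb pc, fun _ => pb⟩
  · exact key b a v c d hbA ⟨pa.symm, pc, h3, h4, h5, pd, h7, h8, nvd⟩
      (fun z => or4a.trans (hRb z).symm)
  · exact key b a v d c hbA ⟨pa.symm, pd, h3.symm, h5, h4, pc, h8, h7, nvc⟩
      (fun z => or4b.trans (hRb z).symm)
  · exact key a v b c d haA ⟨pb, h2, h3, pc, pd, h6, nvc, nvd, h9⟩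
      (fun z => (hRa z).symm)
  · exact key c d v a b hcA ⟨pd.symm, pa, h1, s5, s6, pb, h8.symm, h9.symm, nvb⟩
      (fun z => or4c.trans (hRc z).symm)
  · exact key b a v c d hbA ⟨pa.symm, pc, h3, h4, h5, pd, h7, h8, nvd⟩
      (fun z => or4a.trans (hRb z).symm)
  · exact key d v a b c hdA ⟨pa, h1, h2, pb, pc, h4, nvb, nvc, h7⟩
      (fun z => (hRd z).symm)
  · exact key d v a b c hdA ⟨pa, h1, h2, pb, pc, h4, nvb, nvc, h7⟩
      (fun z => (hRd z).symm)
  · exact key c d v b a hcA ⟨pd.symm, pb, h1.symm, s6, s5, pa, h9.symm, h8.symm, nva⟩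
      (fun z => or4d.trans (hRc z).symm)
  · exact hcon ⟨iff_of_false pa pd, iff_of_true pb pc, fun _ => pb⟩
  · exact key c a b v d hcA ⟨h1, pb.symm, pd, fun h => pa h.symm, h5, h6, nva.symm, h8, h9⟩
      (fun z => or4e.trans (hRc z).symm)
  · exact key a v b c d haA ⟨pb, h2, h3, pc, pd, h6, nvc, nvd, h9⟩
      (fun z => (hRa z).symm)
  · exact key d v c b a hdA ⟨pc, h2.symm, h1.symm, pb, pa, s4, nvb, nva, h7.symm⟩
      (fun z => or4f.trans (hRd z).symm)
  · exact key d v c b a hdA ⟨pc, h2.symm, h1.symm, pb, pa, s4, nvb, nva, h7.symm⟩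
      (fun z => or4f.trans (hRd z).symm)
  · exact key a v d c b haA ⟨pd, h3.symm, h2.symm, pc, pb, s6, nvc, nvb, h9.symm⟩
      (fun z => or4f.trans (hRa z).symm)
  · exact hcon ⟨iff_of_false pa pd, iff_of_false pb pc, fun h => absurd h pa⟩


/-- Two thin clones form an isolated path. -/
private theorem TC.iso [DecidableEq V] {G : SimpleGraph V} (hS : Star G) {p q : V × V} (h : TC G p q) :
    Iso4 G (quad p q) := by
  refine iso4_of_types h.path (fun x => by rw [mem_quad]; tauto) (fun v hv => ?_)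
  rw [mem_quad] at hv
  push Not at hv
  obtain ⟨v1, v2, v3, v4⟩ := hv
  obtain ⟨t1, t2⟩ := h.2.2.2.2.2.2 v v1 v2 v3 v4
  refine ⟨t2, t1, fun hv2 => ?_⟩
  by_contra hv1
  exact hS.no_c5 h.path hv2 (t2.1 hv2) hv1 (fun h => hv1 (t1.2 h))

/-- An isolated path consists of two thin clones. -/
private theorem Iso4.tc {G : SimpleGraph V} {A : Finset V} (hI : Iso4 G A) {a b c d : V}
    (hp : Path4 G a b c d) (hA : ∀ x, x ∈ A ↔ x = a ∨ x = b ∨ x = c ∨ x = d) :
    TC G (b, a) (c, d) := by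
  have h := hp
  obtain ⟨h1, h2, h3, h4, h5, h6, h7, h8, h9⟩ := h
  refine ⟨h1.symm, h3, h2, h5, h6, fun h => h4 h.symm, fun v v1 v2 v3 v4 => ?_⟩
  have hv : v ∉ A := by
    rw [hA]
    simp only at v1 v2 v3 v4
    tauto
  obtain ⟨t1, t2, -⟩ := hI.types hp hA hv
  exact ⟨t2, t1⟩

private theorem Path4.perm {G : SimpleGraph V} {σ : Equiv.Perm V}
    (hσ : ∀ u v, G.Adj (σ u) (σ v) ↔ G.Adj u v) {a b c d : V} (h : Path4 G a b c d) :
    Path4 G (σ a) (σ b) (σ c) (σ d) := by
  obtain ⟨h1, h2, h3, h4, h5, h6, h7, h8, h9⟩ := h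
  exact ⟨(hσ _ _).2 h1, (hσ _ _).2 h2, (hσ _ _).2 h3, fun h => h4 ((hσ _ _).1 h),
    fun h => h5 ((hσ _ _).1 h), fun h => h6 ((hσ _ _).1 h), σ.injective.ne h7,
    σ.injective.ne h8, σ.injective.ne h9⟩

private theorem adj4_perm {G : SimpleGraph V} {σ : Equiv.Perm V}
    (hσ : ∀ u v, G.Adj (σ u) (σ v) ↔ G.Adj u v) (hσσ : ∀ v, σ (σ v) = v) {A : Finset V}
    (hA : IsP4 G A) {x y : V} (hx : x ∈ A) (hy : y ∉ A)
    (hs : ∀ z, σ z ∈ A ↔ (z = y ∨ (z ∈ A ∧ z ≠ x))) : ∃ C, Adj4 G A C := by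
  classical
  obtain ⟨a, b, c, d, hp, hAm⟩ := hA
  refine ⟨_, adj4_of ⟨a, b, c, d, hp, hAm⟩ hx hy (hp.perm hσ) (fun z => ?_)⟩
  rw [← hs, hAm]
  have : ∀ w, z = σ w ↔ σ z = w := fun w =>
    ⟨fun h => by rw [h, hσσ], fun h => by rw [← h, hσσ]⟩
  rw [this, this, this, this]

private theorem TC.ne_self {G : SimpleGraph V} {p q : V × V} (h : TC G p q) : p.1 ≠ p.2 := h.1.ne
private theorem TC.ne_self' {G : SimpleGraph V} {p q : V × V} (h : TC G p q) : q.1 ≠ q.2 := h.2.1.ne

private theorem five (p q : V × V) (v : V) : v = p.1 ∨ v = p.2 ∨ v = q.1 ∨ v = q.2 ∨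
    (v ≠ p.1 ∧ v ≠ p.2 ∧ v ≠ q.1 ∧ v ≠ q.2) := by tauto

section Swap

variable [DecidableEq V] {G : SimpleGraph V} {p q : V × V}

/-- The automorphism exchanging two clones. -/
private def swp (p q : V × V) : Equiv.Perm V := (Equiv.swap p.1 q.1).trans (Equiv.swap p.2 q.2)

private theorem swp_p1 (h : TC G p q) : swp p q p.1 = q.1 := by
  simp only [swp, Equiv.trans_apply, Equiv.swap_apply_left]
  rw [Equiv.swap_apply_of_ne_of_ne h.ne21.symm h.ne_self']
private theorem swp_q1 (h : TC G p q) : swp p q q.1 = p.1 := by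
  simp only [swp, Equiv.trans_apply, Equiv.swap_apply_right]
  rw [Equiv.swap_apply_of_ne_of_ne h.ne_self h.ne12]
private theorem swp_p2 (h : TC G p q) : swp p q p.2 = q.2 := by
  simp only [swp, Equiv.trans_apply]
  rw [Equiv.swap_apply_of_ne_of_ne h.ne_self.symm h.ne21, Equiv.swap_apply_left]
private theorem swp_q2 (h : TC G p q) : swp p q q.2 = p.2 := by
  simp only [swp, Equiv.trans_apply]
  rw [Equiv.swap_apply_of_ne_of_ne h.ne12.symm h.ne_self'.symm, Equiv.swap_apply_right]
private theorem swp_other {v : V} (v1 : v ≠ p.1) (v2 : v ≠ p.2) (v3 : v ≠ q.1) (v4 : v ≠ q.2) :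
    swp p q v = v := by
  simp only [swp, Equiv.trans_apply]
  rw [Equiv.swap_apply_of_ne_of_ne v1 v3, Equiv.swap_apply_of_ne_of_ne v2 v4]

private theorem swp_swp (h : TC G p q) (v : V) : swp p q (swp p q v) = v := by
  rcases five p q v with rfl | rfl | rfl | rfl | ⟨v1, v2, v3, v4⟩
  · rw [swp_p1 h, swp_q1 h]
  · rw [swp_p2 h, swp_q2 h]
  · rw [swp_q1 h, swp_p1 h]
  · rw [swp_q2 h, swp_p2 h]
  · rw [swp_other v1 v2 v3 v4, swp_other v1 v2 v3 v4]

private theorem swp_adj (h : TC G p q) (u v : V) : G.Adj (swp p q u) (swp p q v) ↔ G.Adj u v := by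
  have hh := h
  obtain ⟨h1, h2, h3, h4, h5, h6, h7⟩ := hh
  have s1 := h1.symm; have s2 := h2.symm; have s3 := h3.symm
  have s4 : ¬ G.Adj q.2 p.2 := fun h => h4 h.symm
  have s5 : ¬ G.Adj q.2 p.1 := fun h => h5 h.symm
  have s6 : ¬ G.Adj p.2 q.1 := fun h => h6 h.symm
  have hc : ∀ a b, G.Adj a b ↔ G.Adj b a := fun a b => G.adj_comm a b
  rcases five p q u with rfl | rfl | rfl | rfl | ⟨u1, u2, u3, u4⟩ <;>
    rcases five p q v with rfl | rfl | rfl | rfl | ⟨v1, v2, v3, v4⟩ <;>
    try simp only [swp_p1 h, swp_p2 h, swp_q1 h, swp_q2 h, SimpleGraph.irrefl, h1, h2, h3, h4, h5,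
      h6, s1, s2, s3, s4, s5, s6]
  · rw [swp_other v1 v2 v3 v4, hc, hc p.1]; exact (h7 v v1 v2 v3 v4).1.symm
  · rw [swp_other v1 v2 v3 v4, hc, hc p.2]; exact (h7 v v1 v2 v3 v4).2.symm
  · rw [swp_other v1 v2 v3 v4, hc, hc q.1]; exact (h7 v v1 v2 v3 v4).1
  · rw [swp_other v1 v2 v3 v4, hc, hc q.2]; exact (h7 v v1 v2 v3 v4).2
  · rw [swp_other u1 u2 u3 u4]; exact (h7 u u1 u2 u3 u4).1.symm
  · rw [swp_other u1 u2 u3 u4]; exact (h7 u u1 u2 u3 u4).2.symm
  · rw [swp_other u1 u2 u3 u4]; exact (h7 u u1 u2 u3 u4).1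
  · rw [swp_other u1 u2 u3 u4]; exact (h7 u u1 u2 u3 u4).2
  · rw [swp_other u1 u2 u3 u4, swp_other v1 v2 v3 v4]

/-- An isolated path meets two clones with the same parity. -/
private theorem Iso4.parity_aux {A : Finset V} (hI : Iso4 G A) (h : TC G p q)
    (hp : p.1 ∈ A ↔ p.2 ∈ A) : (q.1 ∈ A ↔ q.2 ∈ A) := by
  have n11 := h.ne11; have n12 := h.ne12; have n21 := h.ne21; have n22 := h.ne22
  have np := h.ne_self; have nq := h.ne_self'
  have a1 := swp_p1 h; have a2 := swp_p2 h; have a3 := swp_q1 h; have a4 := swp_q2 h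
  by_contra hq
  have key : ∀ x y, x ∈ A → y ∉ A → (∀ z, swp p q z ∈ A ↔ (z = y ∨ (z ∈ A ∧ z ≠ x))) → False :=
    fun x y hx hy hs => by
      obtain ⟨C, hC⟩ := adj4_perm (swp_adj h) (swp_swp h) hI.1 hx hy hs
      exact hI.2 C hC
  by_cases P1 : p.1 ∈ A
  · have P2 := hp.1 P1
    by_cases Q1 : q.1 ∈ A
    · have Q2 : q.2 ∉ A := fun h => hq (iff_of_true Q1 h)
      refine key p.2 q.2 P2 Q2 (fun z => ?_)
      rcases five p q z with rfl | rfl | rfl | rfl | ⟨v1, v2, v3, v4⟩
      · rw [a1]; exact iff_of_true Q1 (Or.inr ⟨P1, np⟩)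
      · rw [a2]; exact iff_of_false Q2 (by rintro (h | ⟨-, h⟩) <;> [exact n22 h; exact h rfl])
      · rw [a3]; exact iff_of_true P1 (Or.inr ⟨Q1, n21.symm⟩)
      · rw [a4]; exact iff_of_true P2 (Or.inl rfl)
      · rw [swp_other v1 v2 v3 v4]; simp [v2, v4]
    · have Q2 : q.2 ∈ A := by
        by_contra h; exact hq (iff_of_false Q1 h)
      refine key p.1 q.1 P1 Q1 (fun z => ?_)
      rcases five p q z with rfl | rfl | rfl | rfl | ⟨v1, v2, v3, v4⟩
      · rw [a1]; exact iff_of_false Q1 (by rintro (h | ⟨-, h⟩) <;> [exact n11 h; exact h rfl])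
      · rw [a2]; exact iff_of_true Q2 (Or.inr ⟨P2, np.symm⟩)
      · rw [a3]; exact iff_of_true P1 (Or.inl rfl)
      · rw [a4]; exact iff_of_true P2 (Or.inr ⟨Q2, n12.symm⟩)
      · rw [swp_other v1 v2 v3 v4]; simp [v1, v3]
  · have P2 : p.2 ∉ A := fun h => P1 (hp.2 h)
    by_cases Q1 : q.1 ∈ A
    · have Q2 : q.2 ∉ A := fun h => hq (iff_of_true Q1 h)
      refine key q.1 p.1 Q1 P1 (fun z => ?_)
      rcases five p q z with rfl | rfl | rfl | rfl | ⟨v1, v2, v3, v4⟩
      · rw [a1]; exact iff_of_true Q1 (Or.inl rfl)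
      · rw [a2]; exact iff_of_false Q2 (by rintro (h | ⟨h, -⟩) <;> [exact np h.symm; exact P2 h])
      · rw [a3]; exact iff_of_false P1 (by rintro (h | ⟨-, h⟩) <;> [exact n11 h.symm; exact h rfl])
      · rw [a4]; exact iff_of_false P2 (by rintro (h | ⟨h, -⟩) <;> [exact n12 h.symm; exact Q2 h])
      · rw [swp_other v1 v2 v3 v4]; simp [v1, v3]
    · have Q2 : q.2 ∈ A := by
        by_contra h; exact hq (iff_of_false Q1 h)
      refine key q.2 p.2 Q2 P2 (fun z => ?_)
      rcases five p q z with rfl | rfl | rfl | rfl | ⟨v1, v2, v3, v4⟩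
      · rw [a1]; exact iff_of_false Q1 (by rintro (h | ⟨h, -⟩) <;> [exact np h; exact P1 h])
      · rw [a2]; exact iff_of_true Q2 (Or.inl rfl)
      · rw [a3]; exact iff_of_false P1 (by rintro (h | ⟨h, -⟩) <;> [exact n21 h.symm; exact Q1 h])
      · rw [a4]; exact iff_of_false P2 (by rintro (h | ⟨-, h⟩) <;> [exact n22 h.symm; exact h rfl])
      · rw [swp_other v1 v2 v3 v4]; simp [v2, v4]

private theorem Iso4.parity {A : Finset V} (hI : Iso4 G A) (h : TC G p q) :
    (p.1 ∈ A ↔ p.2 ∈ A) ↔ (q.1 ∈ A ↔ q.2 ∈ A) :=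
  ⟨hI.parity_aux h, hI.parity_aux h.symm⟩

end Swap


/-! ### Uniqueness of big legs -/

private theorem TC.twin1 {G : SimpleGraph V} {p q : V × V} (h : TC G p q) {A : Finset V}
    (hA : IsP4 G A) (P1 : p.1 ∈ A) (P2 : p.2 ∉ A) (Q1 : q.1 ∈ A) (Q2 : q.2 ∉ A) : False :=
  hA.no_twins P1 Q1 h.ne11 (fun z hz z1 z2 => (h.2.2.2.2.2.2 z z1
    (fun e => P2 (e ▸ hz)) z2 (fun e => Q2 (e ▸ hz))).1)

private theorem TC.twin2 {G : SimpleGraph V} {p q : V × V} (h : TC G p q) {A : Finset V}
    (hA : IsP4 G A) (P1 : p.1 ∉ A) (P2 : p.2 ∈ A) (Q1 : q.1 ∉ A) (Q2 : q.2 ∈ A) : False :=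
  hA.no_twins P2 Q2 h.ne22 (fun z hz z1 z2 => (h.2.2.2.2.2.2 z
    (fun e => P1 (e ▸ hz)) z1 (fun e => Q1 (e ▸ hz)) z2).2)

private theorem leg_mem_of_mem {G : SimpleGraph V} {p q r : V × V} (hpq : TC G p q) (hpr : TC G p r)
    (hqr : q ≠ r) {A : Finset V} (hI : Iso4 G A) (h : p.1 ∈ A ∨ p.2 ∈ A) :
    p.1 ∈ A ∧ p.2 ∈ A := by
  classical
  have hqr' : TC G q r := hpq.symm.trans hpr hqr
  by_contra hcon
  have hp : ¬ (p.1 ∈ A ↔ p.2 ∈ A) := by tauto
  have hq : ¬ (q.1 ∈ A ↔ q.2 ∈ A) := fun h => hp ((hI.parity hpq).2 h)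
  have hr : ¬ (r.1 ∈ A ↔ r.2 ∈ A) := fun h => hp ((hI.parity hpr).2 h)
  have e : ∀ {a b : Prop}, ¬ (a ↔ b) → (a ∧ ¬ b) ∨ (¬ a ∧ b) := fun h => by tauto
  rcases e hp with ⟨p1, p2⟩ | ⟨p1, p2⟩ <;> rcases e hq with ⟨q1, q2⟩ | ⟨q1, q2⟩
  · exact hpq.twin1 hI.1 p1 p2 q1 q2
  · rcases e hr with ⟨r1, r2⟩ | ⟨r1, r2⟩
    · exact hpr.twin1 hI.1 p1 p2 r1 r2
    · exact hqr'.twin2 hI.1 q1 q2 r1 r2
  · rcases e hr with ⟨r1, r2⟩ | ⟨r1, r2⟩
    · exact hqr'.twin1 hI.1 q1 q2 r1 r2
    · exact hpr.twin2 hI.1 p1 p2 r1 r2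
  · exact hpq.twin2 hI.1 p1 p2 q1 q2

private theorem leg_iso {G : SimpleGraph V} {p q r : V × V} (hpq : TC G p q) (hpr : TC G p r)
    (hqr : q ≠ r) {A : Finset V} (hI : Iso4 G A) (h : p.1 ∈ A ∨ p.2 ∈ A) :
    ∃ u w, TC G p (u, w) ∧ ∀ z, z ∈ A ↔ z = p.1 ∨ z = p.2 ∨ z = u ∨ z = w := by
  classical
  obtain ⟨P1, P2⟩ := leg_mem_of_mem hpq hpr hqr hI h
  have hpar := (hI.parity hpq).1 (iff_of_true P1 P2)
  obtain ⟨a, b, c, d, hp, hA⟩ := hI.1
  have hh := hp
  obtain ⟨h1, h2, h3, h4, h5, h6, h7, h8, h9⟩ := hh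
  by_cases Q1 : q.1 ∈ A
  · -- `A` is the union of the two legs
    have Q2 := hpar.1 Q1
    refine ⟨q.1, q.2, hpq, ?_⟩
    have hsub : quad p q ⊆ A := by
      intro z hz
      rw [mem_quad] at hz
      rcases hz with rfl | rfl | rfl | rfl <;> assumption
    have hcA : A.card ≤ 4 := by
      have : A ⊆ {a, b, c, d} := by
        intro z hz
        have := (hA z).1 hz
        simpa using this
      exact (Finset.card_le_card this).trans Finset.card_le_four
    have hcq : (quad p q).card = 4 := by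
      rw [quad, Finset.card_insert_of_notMem, Finset.card_insert_of_notMem,
        Finset.card_insert_of_notMem, Finset.card_singleton]
      · simpa using hpq.ne_self'
      · simp only [Finset.mem_insert, Finset.mem_singleton, not_or]
        exact ⟨hpq.ne21, hpq.ne22⟩
      · simp only [Finset.mem_insert, Finset.mem_singleton, not_or]
        exact ⟨hpq.ne_self, hpq.ne11, hpq.ne12⟩
    have heq := Finset.eq_of_subset_of_card_le hsub (hcq ▸ hcA)
    intro z
    rw [← heq, mem_quad]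
  · obtain ⟨t1, t2, t3⟩ := hI.types hp hA Q1
    have k1 : G.Adj q.1 p.1 := hpq.2.2.1.symm
    have k2 : ¬ G.Adj q.1 p.2 := hpq.2.2.2.2.2.1
    have k0 : G.Adj p.1 p.2 := hpq.1
    have hIr : ∀ x, x ∈ A ↔ x = d ∨ x = c ∨ x = b ∨ x = a := fun x => by rw [hA x]; tauto
    rcases (hA _).1 P1 with e | e | e | e <;> rcases (hA _).1 P2 with e' | e' | e' | e' <;>
      rw [e] at k1 <;> rw [e'] at k2 <;> rw [e, e'] at k0
    · exact absurd k0 (G.irrefl)
    · exact absurd (t3 k1) k2
    · exact absurd k0 h4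
    · exact absurd k0 h5
    · refine ⟨c, d, ?_, fun z => ?_⟩
      · have := hI.tc hp hA
        rwa [← e, ← e'] at this
      · rw [hA z, e, e']; tauto
    · exact absurd k0 (G.irrefl)
    · exact absurd (t2.1 k1) k2
    · exact absurd k0 h6
    · exact absurd k0.symm h4
    · exact absurd (t2.2 k1) k2
    · exact absurd k0 (G.irrefl)
    · refine ⟨b, a, ?_, fun z => ?_⟩
      · have := hI.tc hp.rev hIr
        rwa [← e, ← e'] at this
      · rw [hA z, e, e']; tauto
    · exact absurd k0.symm h5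
    · exact absurd k0.symm h6
    · exact absurd (t2.1 (t3 (t1.2 k1))) k2
    · exact absurd k0 (G.irrefl)

/-- A leg having two different clones. -/
private def BigLeg (G : SimpleGraph V) (p : V × V) : Prop := ∃ q r, TC G p q ∧ TC G p r ∧ q ≠ r

private theorem leg_unique {G : SimpleGraph V} (hS : Star G) {p p' q' : V × V} (hp : BigLeg G p)
    (hp' : TC G p' q') (h : p.1 = p'.1 ∨ p.1 = p'.2 ∨ p.2 = p'.1 ∨ p.2 = p'.2) : p = p' := by
  classical
  obtain ⟨q, r, hpq, hpr, hqr⟩ := hp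
  obtain ⟨u, w, ht, hA⟩ := leg_iso hpq hpr hqr (hp'.iso hS) (by
    simp only [mem_quad]; tauto)
  rcases ht.path.unique hp'.path (fun x => by
    have := hA x
    rw [mem_quad] at this
    simp only
    tauto) with ⟨e1, e2, e3, e4⟩ | ⟨e1, e2, e3, e4⟩
  · exact Prod.ext e2 e1
  · exfalso
    have n11 := hp'.ne11; have n12 := hp'.ne12; have n21 := hp'.ne21; have n22 := hp'.ne22
    rw [e1, e2] at h
    rcases h with h | h | h | h
    · exact n11 h.symm
    · exact n21 h.symm
    · exact n12 h.symm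
    · exact n22 h.symm

private theorem leg_thin_thick {G : SimpleGraph V} (hS' : Star Gᶜ) {p p' : V × V}
    (hp : BigLeg G p) (hp' : BigLeg Gᶜ p')
    (h : p.1 = p'.1 ∨ p.1 = p'.2 ∨ p.2 = p'.1 ∨ p.2 = p'.2) : False := by
  classical
  obtain ⟨q, r, hpq, hpr, hqr⟩ := hp
  obtain ⟨q', r', hpq', hpr', hqr'⟩ := hp'
  have key : ∀ s : V × V, TC Gᶜ p' s → (p.1 = s.2 ∧ p.2 = p'.1) ∨ (p.1 = p'.2 ∧ p.2 = s.1) := by
    intro s hs
    have hI : Iso4 G (quad p' s) := (iso4_gg (c := false)).1 (hs.iso hS')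
    obtain ⟨u, w, ht, hA⟩ := leg_iso hpq hpr hqr hI (by simp only [mem_quad]; tauto)
    have hpath : Path4 G p'.1 s.2 p'.2 s.1 := by simpa using hs.path.compl
    rcases ht.path.unique hpath (fun x => by
      have := hA x
      rw [mem_quad] at this
      simp only
      tauto) with ⟨e1, e2, e3, e4⟩ | ⟨e1, e2, e3, e4⟩
    · exact Or.inl ⟨e2, e1⟩
    · exact Or.inr ⟨e2, e1⟩
  have hT : TC Gᶜ q' r' := hpq'.symm.trans hpr' hqr'
  rcases key q' hpq' with ⟨e1, e2⟩ | ⟨e1, e2⟩ <;> rcases key r' hpr' with ⟨f1, f2⟩ | ⟨f1, f2⟩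
  · exact hT.ne22 (e1.symm.trans f1)
  · exact hpq'.ne22 (f1.symm.trans e1)
  · exact hpr'.ne22 (e1.symm.trans f1)
  · exact hT.ne11 (e2.symm.trans f2)

/-- The vertex of the leg `p` on side `s`. -/
private def side (p : V × V) (s : Bool) : V := if s then p.1 else p.2

/-- Every vertex lies in at most one big leg, thin or thick. -/
private theorem unique_leg {G : SimpleGraph V} (hS : Star G) (hS' : Star Gᶜ) {c c' : Bool}
    {p p' : V × V} (hp : BigLeg (gg G c) p) (hp' : BigLeg (gg G c') p') {s s' : Bool}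
    (h : side p s = side p' s') : c = c' ∧ p = p' ∧ s = s' := by
  have hh : p.1 = p'.1 ∨ p.1 = p'.2 ∨ p.2 = p'.1 ∨ p.2 = p'.2 := by
    cases s <;> cases s' <;> simp only [side] at h <;> simp at h <;> tauto
  have main : c = c' ∧ p = p' := by
    cases c <;> cases c'
    · obtain ⟨q', -, hq', -⟩ := hp'
      exact ⟨rfl, leg_unique hS' hp hq' hh⟩
    · exact (leg_thin_thick hS' hp' hp (by tauto)).elim
    · exact (leg_thin_thick hS' hp hp' (by tauto)).elim
    · obtain ⟨q', -, hq', -⟩ := hp'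
      exact ⟨rfl, leg_unique hS hp hq' hh⟩
  obtain ⟨rfl, rfl⟩ := main
  refine ⟨rfl, rfl, ?_⟩
  obtain ⟨q, -, hq, -⟩ := hp
  have hne := hq.ne_self
  cases s <;> cases s' <;> simp [side] at h ⊢
  · exact hne h.symm
  · exact hne h

private theorem gg_adj_iff {G : SimpleGraph V} {c : Bool} {w a b : V} (ha : w ≠ a) (hb : w ≠ b)
    (h : (gg G c).Adj w a ↔ (gg G c).Adj w b) : G.Adj w a ↔ G.Adj w b := by
  cases c
  · simp only [gg] at h
    simp only [Bool.false_eq_true, if_false, SimpleGraph.compl_adj] at h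
    tauto
  · simpa [gg] using h

private theorem gg_comap {W : Type} {G : SimpleGraph V} {f : W → V} (hf : Function.Injective f)
    (c : Bool) : gg (G.comap f) c = (gg G c).comap f := by
  cases c
  · ext a b
    simp [gg, hf.eq_iff]
  · simp [gg]

private theorem star_gg {G : SimpleGraph V} (hS : Star G) (hS' : Star Gᶜ) (c : Bool) :
    Star (gg G c) := by
  cases c
  · simpa [gg] using hS'
  · simpa [gg] using hS

/-- Same family of clones. -/
private def fam (G : SimpleGraph V) (c : Bool) : Setoid (V × V) where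
  r p q := p = q ∨ TC (gg G c) p q
  iseqv :=
    { refl := fun p => Or.inl rfl
      symm := fun {p q} h => by
        rcases h with h | h
        · exact Or.inl h.symm
        · exact Or.inr h.symm
      trans := fun {p q r} h h' => by
        rcases h with rfl | h
        · exact h'
        rcases h' with rfl | h'
        · exact Or.inr h
        by_cases e : p = r
        · exact Or.inl e
        · exact Or.inr (h.trans h' e) }

/-- The first retained leg of a family. -/
private noncomputable def rep1 (G : SimpleGraph V) (c : Bool) (p : V × V) : V × V :=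
  (Quotient.mk (fam G c) p).out

open Classical in
/-- The second retained leg of a family. -/
private noncomputable def rep2 (G : SimpleGraph V) (c : Bool) (p : V × V) : V × V :=
  if h : ∃ q, TC (gg G c) (rep1 G c p) q then h.choose else rep1 G c p

section Rep

variable {G : SimpleGraph V} {c : Bool} {p q : V × V}

private theorem rep1_rel (p : V × V) : (fam G c).r (rep1 G c p) p :=
  Quotient.exact (s := fam G c) (Quotient.out_eq (Quotient.mk (fam G c) p))

private theorem rep1_congr (h : TC (gg G c) p q) : rep1 G c p = rep1 G c q := by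
  unfold rep1
  rw [Quotient.sound (s := fam G c) (Or.inr h : (fam G c).r p q)]

private theorem rep2_congr (h : TC (gg G c) p q) : rep2 G c p = rep2 G c q := by
  unfold rep2
  rw [rep1_congr h]

private theorem rep1_rep1 : rep1 G c (rep1 G c p) = rep1 G c p := by
  rcases rep1_rel (G := G) (c := c) p with h | h
  · rw [h]; exact h
  · exact rep1_congr h

private theorem rep2_rep1 : rep2 G c (rep1 G c p) = rep2 G c p := by
  unfold rep2
  rw [rep1_rep1]

private theorem BigLeg.congr {H : SimpleGraph V} (h : TC H p q) (hp : BigLeg H p) : BigLeg H q := by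
  obtain ⟨a, b, ha, hb, hab⟩ := hp
  by_cases hqa : q = a
  · subst hqa
    exact ⟨p, b, h.symm, h.symm.trans hb hab, hb.ne⟩
  · refine ⟨p, a, h.symm, h.symm.trans ha hqa, ha.ne⟩

private theorem BigLeg.rep1 (hp : BigLeg (gg G c) p) : BigLeg (gg G c) (rep1 G c p) := by
  rcases rep1_rel (G := G) (c := c) p with h | h
  · rw [h]; exact hp
  · exact hp.congr h.symm

private theorem BigLeg.rep12 (hp : BigLeg (gg G c) p) :
    TC (gg G c) (CW.rep1 G c p) (rep2 G c p) := by
  obtain ⟨q, -, hq, -⟩ := hp.rep1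
  have h : ∃ q, TC (gg G c) (CW.rep1 G c p) q := ⟨q, hq⟩
  unfold rep2
  rw [dif_pos h]
  exact h.choose_spec

private theorem BigLeg.rep2 (hp : BigLeg (gg G c) p) : BigLeg (gg G c) (rep2 G c p) :=
  hp.rep1.congr hp.rep12

private theorem BigLeg.rep1_ne (hp : BigLeg (gg G c) p) :
    CW.rep1 G c p ≠ CW.rep2 G c (CW.rep1 G c p) := by
  rw [rep2_rep1]
  exact hp.rep12.ne

end Rep

/-- Tags of the vertices in the blocks. -/
private def Tag (G : SimpleGraph V) (t : Bool × (V × V) × Bool) (v : V) : Prop :=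
  BigLeg (gg G t.1) t.2.1 ∧ t.2.1 ≠ rep2 G t.1 t.2.1 ∧ side t.2.1 t.2.2 = v

open Classical in
private noncomputable def rho0 (G : SimpleGraph V) (v : V) : V :=
  if h : ∃ t, Tag G t v then side (rep1 G h.choose.1 h.choose.2.1) h.choose.2.2 else v

open Classical in
private noncomputable def beta0 (G : SimpleGraph V) (v : V) : V :=
  if h : ∃ t, Tag G t v then side (rep1 G h.choose.1 h.choose.2.1) true else v

section Main

variable {G : SimpleGraph V} (hS : Star G) (hS' : Star Gᶜ)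
include hS hS'

private theorem tag_unique {t t' : Bool × (V × V) × Bool} {v : V} (h : Tag G t v) (h' : Tag G t' v) :
    t = t' := by
  obtain ⟨h1, -, h2⟩ := h
  obtain ⟨k1, -, k2⟩ := h'
  obtain ⟨e1, e2, e3⟩ := unique_leg hS hS' h1 k1 (h2.trans k2.symm)
  obtain ⟨a, b, c⟩ := t
  obtain ⟨a', b', c'⟩ := t'
  simp_all

private theorem rho0_tag {t : Bool × (V × V) × Bool} {v : V} (h : Tag G t v) :
    rho0 G v = side (rep1 G t.1 t.2.1) t.2.2 := by
  have he : ∃ t, Tag G t v := ⟨t, h⟩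
  unfold rho0
  rw [dif_pos he, tag_unique hS hS' he.choose_spec h]

private theorem beta0_tag {t : Bool × (V × V) × Bool} {v : V} (h : Tag G t v) :
    beta0 G v = side (rep1 G t.1 t.2.1) true := by
  have he : ∃ t, Tag G t v := ⟨t, h⟩
  unfold beta0
  rw [dif_pos he, tag_unique hS hS' he.choose_spec h]

omit hS hS' in
private theorem rho0_not {v : V} (h : ¬ ∃ t, Tag G t v) : rho0 G v = v := by
  unfold rho0
  rw [dif_neg h]

omit hS hS' in
private theorem beta0_not {v : V} (h : ¬ ∃ t, Tag G t v) : beta0 G v = v := by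
  unfold beta0
  rw [dif_neg h]

omit hS hS' in
private theorem tag_rep1 {c : Bool} {p : V × V} (h : BigLeg (gg G c) p) (s : Bool) :
    Tag G (c, rep1 G c p, s) (side (rep1 G c p) s) := ⟨h.rep1, h.rep1_ne, rfl⟩

private theorem rho0_rep1 {c : Bool} {p : V × V} (h : BigLeg (gg G c) p) (s : Bool) :
    rho0 G (side (rep1 G c p) s) = side (rep1 G c p) s := by
  rw [rho0_tag hS hS' (tag_rep1 h s)]
  simp only [rep1_rep1]

private theorem beta0_rep1 {c : Bool} {p : V × V} (h : BigLeg (gg G c) p) (s : Bool) :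
    beta0 G (side (rep1 G c p) s) = side (rep1 G c p) true := by
  rw [beta0_tag hS hS' (tag_rep1 h s)]
  simp only [rep1_rep1]

private theorem rho0_rho0 (v : V) : rho0 G (rho0 G v) = rho0 G v := by
  by_cases h : ∃ t, Tag G t v
  · obtain ⟨t, ht⟩ := h
    rw [rho0_tag hS hS' ht, rho0_rep1 hS hS' ht.1]
  · rw [rho0_not h, rho0_not h]

private theorem beta0_rho0 (v : V) : beta0 G (rho0 G v) = beta0 G v := by
  by_cases h : ∃ t, Tag G t v
  · obtain ⟨t, ht⟩ := h
    rw [rho0_tag hS hS' ht, beta0_tag hS hS' ht, beta0_rep1 hS hS' ht.1]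
  · rw [rho0_not h]

private theorem rho0_beta0 (v : V) : rho0 G (beta0 G v) = beta0 G v := by
  by_cases h : ∃ t, Tag G t v
  · obtain ⟨t, ht⟩ := h
    rw [beta0_tag hS hS' ht, rho0_rep1 hS hS' ht.1]
  · rw [beta0_not h, rho0_not h]

/-- Retained vertices: either alone in their block or one of the two vertices of a first
retained leg. -/
private theorem retained_cases {v : V} (hv : rho0 G v = v) :
    beta0 G v = v ∨ ∃ c p, BigLeg (gg G c) p ∧ rep1 G c p = p ∧ v = p.2 ∧ beta0 G v = p.1 := by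
  by_cases h : ∃ t, Tag G t v
  · obtain ⟨t, ht⟩ := h
    have e1 := rho0_tag hS hS' ht
    have e2 := beta0_tag hS hS' ht
    have e3 : side (rep1 G t.1 t.2.1) t.2.2 = side t.2.1 t.2.2 := by
      rw [← e1, hv, ht.2.2]
    obtain ⟨-, e4, -⟩ := unique_leg hS hS' ht.1.rep1 ht.1 e3
    rw [e4] at e2
    rcases hs : t.2.2 with _ | _
    · right
      refine ⟨t.1, t.2.1, ht.1, e4, ?_, e2⟩
      have := ht.2.2
      rw [hs] at this
      exact this.symm
    · left
      have := ht.2.2
      rw [hs] at this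
      rw [e2, this]
  · exact Or.inl (beta0_not h)

private theorem adj_step {u w : V} (h : beta0 G w ≠ beta0 G u) : G.Adj w u ↔ G.Adj w (rho0 G u) := by
  by_cases hu : ∃ t, Tag G t u
  · obtain ⟨⟨c, p, s⟩, ht⟩ := hu
    rw [beta0_tag hS hS' ht] at h
    rw [rho0_tag hS hS' ht]
    have hside := ht.2.2
    simp only at hside h ⊢
    rcases rep1_rel (G := G) (c := c) p with e | e
    · rw [e, hside]
    · have hw1 : ∀ s', w ≠ side (rep1 G c p) s' := by
        rintro s' rfl
        exact h (beta0_rep1 hS hS' ht.1 s')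
      have hw2 : ∀ s', w ≠ side p s' := by
        rintro s' rfl
        have : Tag G (c, p, s') (side p s') := ⟨ht.1, ht.2.1, rfl⟩
        exact h (beta0_tag hS hS' this)
      have h7 := e.2.2.2.2.2.2 w (hw1 true) (hw1 false) (hw2 true) (hw2 false)
      rw [← hside]
      refine gg_adj_iff (c := c) (hw2 s) (hw1 s) ?_
      cases s
      · exact h7.2.symm
      · exact h7.1.symm
  · rw [rho0_not hu]

private theorem adj_rho0 {u v : V} (h : beta0 G u ≠ beta0 G v) :
    G.Adj u v ↔ G.Adj (rho0 G u) (rho0 G v) := by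
  rw [G.adj_comm, adj_step hS hS' h.symm, G.adj_comm]
  have h' : beta0 G (rho0 G u) ≠ beta0 G v := by rwa [beta0_rho0 hS hS']
  exact adj_step hS hS' h'

end Main

/-! ### Decomposition of a block -/

/-- The vertices of a set of legs. -/
private def legs (Q : Finset (V × V)) : Set V := {v | ∃ q ∈ Q, ∃ s, v = side q s}

private theorem fewRows_legs (G : SimpleGraph V) (c : Bool) (Q : Finset (V × V))
    (hQ : ∀ p ∈ Q, ∀ q ∈ Q, p ≠ q → TC (gg G c) p q) : FewRows G 4 (legs Q) := by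
  classical
  have key : ∀ p ∈ Q, ∀ q ∈ Q, ∀ s, ∀ w ∉ legs Q, G.Adj (side p s) w ↔ G.Adj (side q s) w := by
    intro p hp q hq s w hw
    by_cases e : p = q
    · rw [e]
    have hT := hQ p hp q hq e
    have hw' : ∀ r ∈ Q, ∀ s', w ≠ side r s' := fun r hr s' h => hw ⟨r, hr, s', h⟩
    have h7 := hT.2.2.2.2.2.2 w (hw' p hp true) (hw' p hp false) (hw' q hq true) (hw' q hq false)
    rw [G.adj_comm, G.adj_comm _ w]
    refine gg_adj_iff (c := c) (hw' p hp s) (hw' q hq s) ?_
    cases s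
    · exact h7.2
    · exact h7.1
  refine ⟨fun v => if ∃ q ∈ Q, v = side q true then 0 else 1, ?_⟩
  intro u hu v hv huv w hw
  by_cases h1 : ∃ q ∈ Q, u = side q true <;> by_cases h2 : ∃ q ∈ Q, v = side q true
  · obtain ⟨p, hp, rfl⟩ := h1
    obtain ⟨q, hq, rfl⟩ := h2
    exact key p hp q hq true w hw
  · simp [h1, h2] at huv
  · simp [h1, h2] at huv
  · obtain ⟨p, hp, s, rfl⟩ := hu
    obtain ⟨q, hq, s', rfl⟩ := hv
    have es : s = false := by
      cases s
      · rfl
      · exact absurd ⟨p, hp, rfl⟩ h1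
    have es' : s' = false := by
      cases s'
      · rfl
      · exact absurd ⟨q, hq, rfl⟩ h2
    subst es
    subst es'
    exact key p hp q hq false w hw

private theorem dec_legs (G : SimpleGraph V) (c : Bool) (Q : Finset (V × V))
    (hne : ∀ p ∈ Q, p.1 ≠ p.2)
    (hQ : ∀ p ∈ Q, ∀ q ∈ Q, p ≠ q → TC (gg G c) p q) : Dec G 4 (legs Q) := by
  classical
  induction Q using Finset.induction_on with
  | empty =>
    have : legs (∅ : Finset (V × V)) = ∅ := by
      ext v; simp [legs]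
    rw [this]
    exact Dec.empty
  | insert q Q hq ih =>
    have hQ' : ∀ p ∈ Q, ∀ q ∈ Q, p ≠ q → TC (gg G c) p q := fun a ha b hb =>
      hQ a (Finset.mem_insert_of_mem ha) b (Finset.mem_insert_of_mem hb)
    have ih' := ih (fun p hp => hne p (Finset.mem_insert_of_mem hp)) hQ'
    have hqne := hne q (Finset.mem_insert_self _ _)
    have h2 : legs ({q} : Finset (V × V)) = {q.1} ∪ {q.2} := by
      ext v
      simp only [legs, Finset.mem_singleton, exists_eq_left, Bool.exists_bool, side,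
        Set.mem_ofPred_eq, Set.mem_union, Set.mem_singleton_iff]
      simp only [Bool.false_eq_true, if_false, if_true]
      tauto
    have hd : Dec G 4 (legs ({q} : Finset (V × V))) := by
      have hf := fewRows_legs G c {q} (by
        intro a ha b hb hab
        rw [Finset.mem_singleton] at ha hb
        exact absurd (ha.trans hb.symm) hab)
      rw [h2] at hf ⊢
      refine Dec.union (Dec.single _) (Dec.single _) ?_ hf
      rw [Set.disjoint_singleton]
      exact hqne
    have hu : legs (insert q Q) = legs {q} ∪ legs Q := by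
      ext v
      simp only [legs, Set.mem_ofPred_eq, Set.mem_union, Finset.mem_insert, Finset.mem_singleton]
      constructor
      · rintro ⟨r, hr | hr, s, hs⟩
        · exact Or.inl ⟨r, hr, s, hs⟩
        · exact Or.inr ⟨r, hr, s, hs⟩
      · rintro (⟨r, hr, s, hs⟩ | ⟨r, hr, s, hs⟩)
        · exact ⟨r, Or.inl hr, s, hs⟩
        · exact ⟨r, Or.inr hr, s, hs⟩
    have hf := fewRows_legs G c (insert q Q) hQ
    rw [hu] at hf ⊢
    refine Dec.union hd ih' ?_ hf
    rw [Set.disjoint_left]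
    rintro v ⟨r, hr, s, rfl⟩ ⟨r', hr', s', hs⟩
    rw [Finset.mem_singleton] at hr
    subst hr
    have hne' : r ≠ r' := fun e => hq (e ▸ hr')
    have hT := hQ r (Finset.mem_insert_self _ _) r' (Finset.mem_insert_of_mem hr') hne'
    cases s <;> cases s' <;> simp [side] at hs
    · exact hT.ne22 hs
    · exact hT.ne21 hs
    · exact hT.ne12 hs
    · exact hT.ne11 hs


/-! ### Modules and clones -/

private theorem isMod_gg {G : SimpleGraph V} {M : Set V} (h : IsMod G M) (c : Bool) :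
    IsMod (gg G c) M := by
  cases c
  · intro v hv x hx y hy
    have := h v hv x hx y hy
    have h1 : v ≠ x := fun e => hv (e ▸ hx)
    have h2 : v ≠ y := fun e => hv (e ▸ hy)
    simp only [gg, Bool.false_eq_true, if_false, SimpleGraph.compl_adj]
    tauto
  · simpa [gg] using h

/-- A module with at least two vertices does not separate the vertices of a leg having a
clone. -/
private theorem TC.mod {H : SimpleGraph V} {p q : V × V} (h : TC H p q) {M : Set V} (hM : IsMod H M)
    (hsub : ¬ M.Subsingleton) : p.1 ∈ M ↔ p.2 ∈ M := by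
  have n11 := h.ne11; have n12 := h.ne12; have n21 := h.ne21; have n22 := h.ne22
  have np := h.ne_self
  obtain ⟨h1, h2, h3, h4, h5, h6, h7⟩ := h
  have ex : ∀ u : V, ∃ m ∈ M, m ≠ u := by
    intro u
    by_contra hcon
    push Not at hcon
    exact hsub (fun a ha b hb => (hcon a ha).trans (hcon b hb).symm)
  constructor
  · intro hb
    by_contra ha
    -- `p.2` sees all of `M`
    have ha' : ∀ m ∈ M, H.Adj p.2 m := fun m hm => (hM p.2 ha p.1 hb m hm).1 h1.symm
    have hq1 : q.1 ∉ M := fun hm => h6 (ha' _ hm).symm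
    have hq2 : q.2 ∉ M := fun hm => h4 (ha' _ hm)
    have hd' : ∀ m ∈ M, ¬ H.Adj q.2 m := fun m hm hc =>
      h5 ((hM q.2 hq2 p.1 hb m hm).2 hc).symm
    obtain ⟨m, hm, hmne⟩ := ex p.1
    have := (h7 m hmne (fun e => ha (e ▸ hm)) (fun e => hq1 (e ▸ hm)) (fun e => hq2 (e ▸ hm))).2
    exact hd' m hm (this.1 (ha' m hm).symm).symm
  · intro ha
    by_contra hb
    have hb' : ∀ m ∈ M, H.Adj p.1 m := fun m hm => (hM p.1 hb p.2 ha m hm).1 h1
    have hq2 : q.2 ∉ M := fun hm => h5 (hb' _ hm)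
    have hq1 : q.1 ∉ M := by
      intro hm
      exact h4 ((hM q.2 hq2 q.1 hm p.2 ha).1 h2.symm).symm
    have hc' : ∀ m ∈ M, ¬ H.Adj q.1 m := fun m hm hc =>
      h6 ((hM q.1 hq1 p.2 ha m hm).2 hc)
    obtain ⟨m, hm, hmne⟩ := ex p.2
    have := (h7 m (fun e => hb (e ▸ hm)) hmne (fun e => hq1 (e ▸ hm)) (fun e => hq2 (e ▸ hm))).1
    exact hc' m hm (this.1 (hb' m hm).symm).symm

private theorem TC.comap {W : Type} {H : SimpleGraph V} {f : W → V} (hf : Function.Injective f)
    {p q : W × W} (h : TC H (f p.1, f p.2) (f q.1, f q.2)) : TC (H.comap f) p q := by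
  obtain ⟨h1, h2, h3, h4, h5, h6, h7⟩ := h
  refine ⟨h1, h2, h3, h4, h5, h6, fun v v1 v2 v3 v4 => ?_⟩
  exact h7 (f v) (hf.ne v1) (hf.ne v2) (hf.ne v3) (hf.ne v4)

/-- Statement of module C6. -/
private def C6 : Prop := ∀ {V : Type} {G : SimpleGraph V} (_ : Star G) {x y : Fin 3 → V}
  (_ : Clones G x y) (C : Finset V) (_ : IsP4 G C),
    (x 0 ∈ C → y 0 ∉ C → ∃ C', Adj4 G C C' ∧ y 0 ∈ C') ∧
    (y 0 ∈ C → x 0 ∉ C → ∃ C', Adj4 G C C' ∧ x 0 ∈ C')

/-- Three legs of a family are mutual clones in the sense of the shared definition. -/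
private theorem clones_of_tc {H : SimpleGraph V} {p q r : V × V} (hpq : TC H p q) (hpr : TC H p r)
    (hqr : q ≠ r) : Clones H ![p.1, q.1, r.1] ![p.2, q.2, r.2] := by
  have hqr' : TC H q r := hpq.symm.trans hpr hqr
  have a1 := hpq.ne11; have a2 := hpq.ne12; have a3 := hpq.ne21; have a4 := hpq.ne22
  have b1 := hpr.ne11; have b2 := hpr.ne12; have b3 := hpr.ne21; have b4 := hpr.ne22
  have c1 := hqr'.ne11; have c2 := hqr'.ne12; have c3 := hqr'.ne21; have c4 := hqr'.ne22
  have s1 := hpq.ne_self; have s2 := hqr'.ne_self; have s3 := hqr'.ne_self'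
  have x1 := hpq.symm; have x2 := hpr.symm; have x3 := hqr'.symm
  refine ⟨⟨?_, ?_, ?_, ?_, ?_⟩, ?_⟩
  · intro i j hij
    fin_cases i <;> fin_cases j <;> first
      | exact absurd rfl hij
      | exact hpq.2.2.1
      | exact hpr.2.2.1
      | exact hqr'.2.2.1
      | exact x1.2.2.1
      | exact x2.2.2.1
      | exact x3.2.2.1
  · intro i j
    fin_cases i <;> fin_cases j <;> first
      | exact H.irrefl
      | exact hpq.2.2.2.1
      | exact hpr.2.2.2.1
      | exact hqr'.2.2.2.1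
      | exact x1.2.2.2.1
      | exact x2.2.2.2.1
      | exact x3.2.2.2.1
  · intro i j hij
    fin_cases i <;> fin_cases j <;> first
      | exact absurd rfl hij
      | assumption
      | exact Ne.symm (by assumption)
  · intro i j
    fin_cases i <;> fin_cases j <;> first
      | assumption
      | exact Ne.symm (by assumption)
  · intro i j
    fin_cases i <;> fin_cases j
    · simpa using hpq.1
    · simpa using hpq.2.2.2.2.1
    · simpa using hpr.2.2.2.2.1
    · simpa using hpq.2.2.2.2.2.1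
    · simpa using hpq.2.1
    · simpa using hqr'.2.2.2.2.1
    · simpa using hpr.2.2.2.2.2.1
    · simpa using hqr'.2.2.2.2.2.1
    · simpa using hpr.2.1
  · intro v hv i j
    have v0 := hv 0
    have v1 := hv 1
    have v2 := hv 2
    simp only [Matrix.cons_val_zero, Matrix.cons_val_one, Matrix.cons_val] at v0 v1 v2
    obtain ⟨u1, u2⟩ := hpq.2.2.2.2.2.2 v v0.1 v0.2 v1.1 v1.2
    obtain ⟨w1, w2⟩ := hpr.2.2.2.2.2.2 v v0.1 v0.2 v2.1 v2.2
    fin_cases i <;> fin_cases j
    · exact ⟨Iff.rfl, Iff.rfl⟩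
    · exact ⟨u1, u2⟩
    · exact ⟨w1, w2⟩
    · exact ⟨u1.symm, u2.symm⟩
    · exact ⟨Iff.rfl, Iff.rfl⟩
    · exact ⟨u1.symm.trans w1, u2.symm.trans w2⟩
    · exact ⟨w1.symm, w2.symm⟩
    · exact ⟨w1.symm.trans u1, w2.symm.trans u2⟩
    · exact ⟨Iff.rfl, Iff.rfl⟩

/-- Closeness of the two vertices of a big leg. -/
private theorem big_close (hC6 : C6) {H : SimpleGraph V} (hS : Star H) {p : V × V} (hp : BigLeg H p)
    (C : Finset V) (hC : IsP4 H C) :
    (p.1 ∈ C → p.2 ∉ C → ∃ C', Adj4 H C C' ∧ p.2 ∈ C') ∧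
    (p.2 ∈ C → p.1 ∉ C → ∃ C', Adj4 H C C' ∧ p.1 ∈ C') := by
  obtain ⟨q, r, hpq, hpr, hqr⟩ := hp
  exact hC6 hS (clones_of_tc hpq hpr hqr) C hC

open Classical in
/-- Pulling back a partner. -/
private theorem adj4_pull {W : Type} {G : SimpleGraph V} {f : W → V} (hf : Function.Injective f)
    {C : Finset W} {C' : Finset V} (h : Adj4 G (C.image f) C') {s : W}
    (hs : s ∉ C) (hs' : f s ∈ C') : ∃ C1 : Finset W, Adj4 (G.comap f) C C1 ∧ s ∈ C1 := by
  obtain ⟨h1, h2, x, y, hx, hy, hm⟩ := h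
  have hsy : f s = y := by
    rcases (hm (f s)).1 hs' with h | ⟨h, -⟩
    · exact h
    · exact absurd ((hf.mem_finset_image).1 h) hs
  obtain ⟨x0, hx0, rfl⟩ := Finset.mem_image.1 hx
  have hm1 : ∀ z, z ∈ insert s (C.erase x0) ↔ z = s ∨ (z ∈ C ∧ z ≠ x0) := by
    intro z
    simp only [Finset.mem_insert, Finset.mem_erase]
    tauto
  refine ⟨insert s (C.erase x0), ⟨(IsP4.image hf).1 h1, ?_, x0, s, hx0, hs, hm1⟩,
    Finset.mem_insert_self _ _⟩
  rw [← IsP4.image hf]
  have : (insert s (C.erase x0)).image f = C' := by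
    ext z
    rw [hm z, Finset.mem_image]
    constructor
    · rintro ⟨w, hw, rfl⟩
      rcases (hm1 w).1 hw with rfl | ⟨h1, h2⟩
      · exact Or.inl hsy
      · exact Or.inr ⟨(hf.mem_finset_image).2 h1, hf.ne h2⟩
    · rintro (rfl | ⟨h1, h2⟩)
      · exact ⟨s, Finset.mem_insert_self _ _, hsy⟩
      · obtain ⟨w, hw, rfl⟩ := Finset.mem_image.1 h1
        exact ⟨w, (hm1 w).2 (Or.inr ⟨hw, fun e => h2 (congrArg f e)⟩), rfl⟩
  rw [this]
  exact h2

/-- B: clone reduction, given modules C4, C6 and the complement invariance of `Star`. -/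
theorem exists_reduction_of
    (hC4 : ∀ {V : Type} {G : SimpleGraph V} (_ : Star G) {x y : Fin 4 → V} (_ : ThinSp G x y),
      ∃ i0, ∀ v, (∀ i, v ≠ x i ∧ v ≠ y i) → ∀ i j, i ≠ i0 → j ≠ i0 →
        (G.Adj v (x i) ↔ G.Adj v (x j)) ∧ (G.Adj v (y i) ↔ G.Adj v (y j)))
    (hC6 : ∀ {V : Type} {G : SimpleGraph V} (_ : Star G) {x y : Fin 3 → V}
      (_ : Clones G x y) (C : Finset V) (_ : IsP4 G C),
      (x 0 ∈ C → y 0 ∉ C → ∃ C', Adj4 G C C' ∧ y 0 ∈ C') ∧
      (y 0 ∈ C → x 0 ∉ C → ∃ C', Adj4 G C C' ∧ x 0 ∈ C'))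
    {V : Type} [Finite V] (G : SimpleGraph V) (hG : PrimeG G) (hS : Star G) (hS' : Star Gᶜ) :
    ∃ (W : Type) (_ : Finite W) (H : SimpleGraph W) (ρ : V → W) (β : W → W),
      Reduction G W H ρ β := by
  classical
  let W : Type := {v : V // rho0 G v = v}
  have hval : Function.Injective (Subtype.val : W → V) := Subtype.val_injective
  let ρ : V → W := fun v => ⟨rho0 G v, rho0_rho0 hS hS' v⟩
  let β : W → W := fun w => ⟨beta0 G w.1, rho0_beta0 hS hS' w.1⟩
  have hSg : ∀ c, Star (gg G c) := star_gg hS hS'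
  have hval' : ∀ {c : Bool} {p : V × V}, BigLeg (gg G c) p → ∀ s, rho0 G (side (rep1 G c p) s) =
      side (rep1 G c p) s := fun hp s => rho0_rep1 hS hS' hp s
  -- second retained legs are retained
  have hval2 : ∀ {c : Bool} {p : V × V}, BigLeg (gg G c) p → ∀ s, rho0 G (side (rep2 G c p) s) =
      side (rep2 G c p) s := by
    intro c p hp s
    apply rho0_not
    rintro ⟨⟨c', p', s'⟩, ht1, ht2, ht3⟩
    simp only at ht1 ht2 ht3
    obtain ⟨rfl, rfl, rfl⟩ := unique_leg hS hS' ht1 hp.rep2 ht3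
    apply ht2
    have h1 : rep2 G c' (rep1 G c' p) = rep2 G c' p := rep2_rep1
    have h2 : rep2 G c' (rep1 G c' p) = rep2 G c' (rep2 G c' p) := rep2_congr hp.rep12
    rw [← h2, h1]
  refine ⟨W, inferInstance, G.comap Subtype.val, ρ, β, ?_⟩
  have hadj : ∀ u v : V, β (ρ u) ≠ β (ρ v) → (G.Adj u v ↔ (G.comap Subtype.val).Adj (ρ u) (ρ v)) := by
    intro u v h
    refine adj_rho0 hS hS' (fun e => h ?_)
    apply Subtype.ext
    show beta0 G (rho0 G u) = beta0 G (rho0 G v)
    rw [beta0_rho0 hS hS', beta0_rho0 hS hS', e]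
  -- the two elements of a nontrivial block
  have hblk : ∀ r s : W, β r = β s → r ≠ s → ∃ c p, BigLeg (gg G c) p ∧ rep1 G c p = p ∧
      ((r.1 = p.1 ∧ s.1 = p.2) ∨ (r.1 = p.2 ∧ s.1 = p.1)) := by
    intro r s h hne
    have h' : beta0 G r.1 = beta0 G s.1 := congrArg Subtype.val h
    have hne' : r.1 ≠ s.1 := fun e => hne (Subtype.ext e)
    rcases retained_cases hS hS' r.2 with hr | ⟨c, p, hp, hrep, hr1, hr2⟩ <;>
      rcases retained_cases hS hS' s.2 with hs | ⟨c', p', hp', hrep', hs1, hs2⟩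
    · exact absurd (by rw [← hr, h', hs]) hne'
    · exact ⟨c', p', hp', hrep', Or.inl ⟨by rw [← hr, h', hs2], hs1⟩⟩
    · exact ⟨c, p, hp, hrep, Or.inr ⟨hr1, by rw [← hs, ← h', hr2]⟩⟩
    · exfalso
      have : side p true = side p' true := by
        show p.1 = p'.1
        rw [← hr2, h', hs2]
      obtain ⟨rfl, rfl, -⟩ := unique_leg hS hS' hp hp' this
      exact hne' (hr1.trans hs1.symm)
  refine ⟨?_, Star.comap hval hS, ?_, hadj, ?_, ?_, ?_⟩
  · -- prime
    intro M hM
    by_contra hcon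
    rw [not_or] at hcon
    obtain ⟨hsub, hun⟩ := hcon
    have hmod : IsMod G {v | ρ v ∈ M} := by
      intro v hv x hx y hy
      have key : ∀ x, ρ x ∈ M → (G.Adj v x ↔ (G.comap Subtype.val).Adj (ρ v) (ρ x)) := by
        intro x hx
        apply hadj
        intro hβ
        have hne : ρ v ≠ ρ x := fun e => hv (by
          show ρ v ∈ M
          rw [e]; exact hx)
        obtain ⟨c, p, hp, hrep, hpp⟩ := hblk _ _ hβ hne
        have hT : TC (gg G c) p (rep2 G c p) := by
          have := hp.rep12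
          rwa [hrep] at this
        have e1 : ∀ s, rho0 G (side p s) = side p s := by
          intro s
          have := hval' hp s
          rwa [hrep] at this
        have e2 := hval2 hp
        let p1 : W × W := (⟨p.1, e1 true⟩, ⟨p.2, e1 false⟩)
        let q1 : W × W := (⟨(rep2 G c p).1, e2 true⟩, ⟨(rep2 G c p).2, e2 false⟩)
        have hT1 : TC (gg (G.comap Subtype.val) c) p1 q1 := by
          rw [gg_comap hval]
          exact TC.comap hval hT
        have hmm := hT1.mod (isMod_gg hM c) hsub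
        have hp1 : ∀ w : W, w.1 = p.1 → w = p1.1 := fun w hw => Subtype.ext hw
        have hp2 : ∀ w : W, w.1 = p.2 → w = p1.2 := fun w hw => Subtype.ext hw
        rcases hpp with ⟨a, b⟩ | ⟨a, b⟩
        · rw [← hp1 _ a, ← hp2 _ b] at hmm
          exact hv (hmm.2 hx)
        · rw [← hp2 _ a, ← hp1 _ b] at hmm
          exact hv (hmm.1 hx)
      rw [key x hx, key y hy]
      exact hM (ρ v) hv (ρ x) hx (ρ y) hy
    have hρ : ∀ w : W, ρ w.1 = w := fun w => Subtype.ext w.2
    rcases hG _ hmod with h | h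
    · apply hsub
      intro a ha b hb
      apply Subtype.ext
      apply h
      · show ρ a.1 ∈ M
        rw [hρ]; exact ha
      · show ρ b.1 ∈ M
        rw [hρ]; exact hb
    · apply hun
      ext w
      constructor
      · intro _; trivial
      · intro _
        have : w.1 ∈ ({v | ρ v ∈ M} : Set V) := by rw [h]; trivial
        have h2 : ρ w.1 ∈ M := this
        rwa [hρ] at h2
  · -- no spiders
    have main : ∀ c (x y : Fin 4 → W), ¬ ThinSp (gg (G.comap Subtype.val) c) x y := by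
      intro c x y hsp
      rw [gg_comap hval] at hsp
      obtain ⟨k1, k2, k3, k4, k5⟩ := hsp
      have hsp' : ThinSp (gg G c) (fun i => (x i).1) (fun i => (y i).1) :=
        ⟨k1, k2, fun i j h => hval.ne (k3 i j h), fun i j => hval.ne (k4 i j), k5⟩
      obtain ⟨i0, hi0⟩ := hC4 (hSg c) hsp'
      obtain ⟨m1, m2, m3, m4, m5⟩ := hsp'
      let L : Fin 4 → V × V := fun i => ((x i).1, (y i).1)
      have hT : ∀ i j, i ≠ i0 → j ≠ i0 → i ≠ j → TC (gg G c) (L i) (L j) := by
        intro i j hi hj hij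
        refine ⟨(m5 i i).2 rfl, (m5 j j).2 rfl, m1 i j hij, m2 i j, fun h => hij ((m5 i j).1 h),
          fun h => hij ((m5 j i).1 h).symm, ?_⟩
        intro v v1 v2 v3 v4
        by_cases hv : ∀ k, v ≠ (x k).1 ∧ v ≠ (y k).1
        · exact hi0 v hv i j hi hj
        · push Not at hv
          obtain ⟨k, hk⟩ := hv
          by_cases hvx : v = (x k).1
          · have ki : k ≠ i := by rintro rfl; exact v1 hvx
            have kj : k ≠ j := by rintro rfl; exact v3 hvx
            subst hvx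
            refine ⟨iff_of_true (m1 k i ki) (m1 k j kj), ?_⟩
            exact iff_of_false (fun h => ki ((m5 k i).1 h)) (fun h => kj ((m5 k j).1 h))
          · have hvy := hk hvx
            have ki : k ≠ i := by rintro rfl; exact v2 hvy
            have kj : k ≠ j := by rintro rfl; exact v4 hvy
            subst hvy
            refine ⟨?_, iff_of_false (m2 k i) (m2 k j)⟩
            exact iff_of_false (fun h => ki ((m5 i k).1 h.symm).symm)
              (fun h => kj ((m5 j k).1 h.symm).symm)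
      have h4 : ∀ i0 : Fin 4, ∃ a b d : Fin 4, a ≠ i0 ∧ b ≠ i0 ∧ d ≠ i0 ∧
          a ≠ b ∧ a ≠ d ∧ b ≠ d := by decide
      obtain ⟨a, b, d, ha, hb, hd, hab, had, hbd⟩ := h4 i0
      have tab := hT a b ha hb hab
      have tad := hT a d ha hd had
      have tbd := hT b d hb hd hbd
      have hcase : ∀ i, BigLeg (gg G c) (L i) → L i = rep1 G c (L i) ∨ L i = rep2 G c (L i) := by
        intro i hi
        by_cases h2 : L i = rep2 G c (L i)
        · exact Or.inr h2
        left
        have ht : Tag G (c, L i, true) (x i).1 := ⟨hi, h2, rfl⟩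
        have e := rho0_tag hS hS' ht
        rw [(x i).2] at e
        have e' : side (L i) true = side (rep1 G c (L i)) true := e
        exact (unique_leg hS hS' hi hi.rep1 e').2.1
      have ba : BigLeg (gg G c) (L a) := ⟨L b, L d, tab, tad, tbd.ne⟩
      have bb : BigLeg (gg G c) (L b) := ba.congr tab
      have bd : BigLeg (gg G c) (L d) := ba.congr tad
      have ha' := hcase a ba
      have hb' := hcase b bb
      have hd' := hcase d bd
      rw [← rep1_congr tab, ← rep2_congr tab] at hb'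
      rw [← rep1_congr tad, ← rep2_congr tad] at hd'
      have n1 := tab.ne; have n2 := tad.ne; have n3 := tbd.ne
      rcases ha' with ha' | ha' <;> rcases hb' with hb' | hb' <;> rcases hd' with hd' | hd'
      · exact n1 (ha'.trans hb'.symm)
      · exact n1 (ha'.trans hb'.symm)
      · exact n2 (ha'.trans hd'.symm)
      · exact n3 (hb'.trans hd'.symm)
      · exact n3 (hb'.trans hd'.symm)
      · exact n2 (ha'.trans hd'.symm)
      · exact n1 (ha'.trans hb'.symm)
      · exact n1 (ha'.trans hb'.symm)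
    intro x y
    refine ⟨?_, ?_⟩
    · have := main true x y
      simpa [gg] using this
    · have := main false x y
      simpa [gg] using this
  · -- two
    intro r s t h1 h2
    by_contra hcon
    push Not at hcon
    obtain ⟨n1, n2, n3⟩ := hcon
    obtain ⟨c, p, hp, -, hpp⟩ := hblk r s h1 n1
    obtain ⟨c', p', hp', -, hpp'⟩ := hblk s t h2 n2
    rcases hpp with ⟨a, b⟩ | ⟨a, b⟩ <;> rcases hpp' with ⟨a', b'⟩ | ⟨a', b'⟩
    · have e : side p false = side p' true := by
        show p.2 = p'.1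
        rw [← b, a']
      obtain ⟨-, -, e3⟩ := unique_leg hS hS' hp hp' e
      exact absurd e3 (by simp)
    · have e : side p false = side p' false := by
        show p.2 = p'.2
        rw [← b, a']
      obtain ⟨-, rfl, -⟩ := unique_leg hS hS' hp hp' e
      exact n3 (Subtype.ext (a.trans b'.symm))
    · have e : side p true = side p' true := by
        show p.1 = p'.1
        rw [← b, a']
      obtain ⟨-, rfl, -⟩ := unique_leg hS hS' hp hp' e
      exact n3 (Subtype.ext (a.trans b'.symm))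
    · have e : side p true = side p' false := by
        show p.1 = p'.2
        rw [← b, a']
      obtain ⟨-, -, e3⟩ := unique_leg hS hS' hp hp' e
      exact absurd e3 (by simp)
  · -- close
    intro r s h hne C hC hr hs
    obtain ⟨c, p, hp, -, hpp⟩ := hblk r s h hne
    have hC' : IsP4 (gg G c) (C.image Subtype.val) := by
      rw [isP4_gg, IsP4.image hval]
      exact hC
    have hcl := big_close hC6 (hSg c) hp _ hC'
    have hr' : r.1 ∈ C.image Subtype.val := Finset.mem_image_of_mem _ hr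
    have hs' : s.1 ∉ C.image Subtype.val := fun h => hs ((hval.mem_finset_image).1 h)
    rcases hpp with ⟨a, b⟩ | ⟨a, b⟩
    · rw [a] at hr'
      rw [b] at hs'
      obtain ⟨C', hC1, hC2⟩ := hcl.1 hr' hs'
      rw [← b] at hC2
      exact adj4_pull hval (adj4_gg.1 hC1) hs hC2
    · rw [a] at hr'
      rw [b] at hs'
      obtain ⟨C', hC1, hC2⟩ := hcl.2 hr' hs'
      rw [← b] at hC2
      exact adj4_pull hval (adj4_gg.1 hC1) hs hC2
  · -- dec
    intro b
    have hset : {v : V | β (ρ v) = b} = {v | beta0 G v = b.1} := by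
      ext v
      have : β (ρ v) = b ↔ beta0 G v = b.1 := by
        rw [Subtype.ext_iff]
        show beta0 G (rho0 G v) = b.1 ↔ _
        rw [beta0_rho0 hS hS']
      exact this
    rw [hset]
    by_cases hcase : ∃ c p, BigLeg (gg G c) p ∧ b.1 = side (rep1 G c p) true
    · obtain ⟨c, p, hp, hb⟩ := hcase
      have hfin : Set.Finite {q : V × V | (fam G c).r p q ∧ q ≠ rep2 G c p} := Set.toFinite _
      have hlegs : {v | beta0 G v = b.1} = legs hfin.toFinset := by
        ext v
        simp only [legs, Set.mem_ofPred_eq, Set.Finite.mem_toFinset]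
        constructor
        · intro hv
          by_cases ht : ∃ t, Tag G t v
          · obtain ⟨⟨c', p', s'⟩, ht⟩ := ht
            have e := beta0_tag hS hS' ht
            rw [hv, hb] at e
            obtain ⟨rfl, e2, -⟩ := unique_leg hS hS' hp.rep1 ht.1.rep1 e
            simp only at e2
            have r1 := (fam G c).iseqv.symm (rep1_rel (G := G) (c := c) p)
            have r2 := rep1_rel (G := G) (c := c) p'
            rw [← e2] at r2
            have r3 := (fam G c).iseqv.trans r1 r2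
            refine ⟨p', ⟨r3, ?_⟩, s', ht.2.2.symm⟩
            have := ht.2.1
            simp only at this
            rwa [← rep2_rep1, ← e2, rep2_rep1] at this
          · exfalso
            rw [beta0_not ht] at hv
            apply ht
            rw [hv, hb]
            exact ⟨_, tag_rep1 hp true⟩
        · rintro ⟨q, ⟨hq1, hq2⟩, s, rfl⟩
          have hqb : BigLeg (gg G c) q ∧ rep1 G c q = rep1 G c p ∧ rep2 G c q = rep2 G c p := by
            rcases hq1 with rfl | hq1
            · exact ⟨hp, rfl, rfl⟩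
            · exact ⟨hp.congr hq1, (rep1_congr hq1).symm, (rep2_congr hq1).symm⟩
          have ht : Tag G (c, q, s) (side q s) := ⟨hqb.1, by
            simp only
            rw [hqb.2.2]
            exact hq2, rfl⟩
          rw [beta0_tag hS hS' ht, hb, hqb.2.1]
      rw [hlegs]
      refine dec_legs G c _ ?_ ?_
      · intro q hq
        rw [Set.Finite.mem_toFinset] at hq
        rcases hq.1 with rfl | h
        · obtain ⟨r, -, hr, -⟩ := hp
          exact hr.ne_self
        · exact h.ne_self'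
      · intro q hq r hr hqr
        rw [Set.Finite.mem_toFinset] at hq hr
        rcases (fam G c).iseqv.trans ((fam G c).iseqv.symm hq.1) hr.1 with h | h
        · exact absurd h hqr
        · exact h
    · by_cases hbb : beta0 G b.1 = b.1
      · have : {v | beta0 G v = b.1} = {b.1} := by
          ext v
          simp only [Set.mem_ofPred_eq, Set.mem_singleton_iff]
          constructor
          · intro hv
            by_cases ht : ∃ t, Tag G t v
            · obtain ⟨t, ht⟩ := ht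
              exact absurd ⟨t.1, t.2.1, ht.1, by rw [← hv, beta0_tag hS hS' ht]⟩ hcase
            · rw [beta0_not ht] at hv
              exact hv
          · rintro rfl
            exact hbb
        rw [this]
        exact Dec.single _
      · have : {v | beta0 G v = b.1} = ∅ := by
          ext v
          simp only [Set.mem_ofPred_eq, Set.mem_empty_iff_false, iff_false]
          intro hv
          by_cases ht : ∃ t, Tag G t v
          · obtain ⟨t, ht⟩ := ht
            exact hcase ⟨t.1, t.2.1, ht.1, by rw [← hv, beta0_tag hS hS' ht]⟩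
          · have h2 := hv
            rw [beta0_not ht] at h2
            rw [h2] at hv
            exact hbb hv
        rw [this]
        exact Dec.empty

end Pool.Agent.CW
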