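import Pool.Agent.CW.Basic

/-! Basic tools for the finite checks: the four-vertex test, walks. -/

set_option autoImplicit false

namespace Pool.Agent.CW.Cert

variable {V : Type}

/-! ### The four-vertex test -/

/-- Is the graph on four vertices with the six edge bits (01,02,03,12,13,23) a path? -/
def p4b (a b c d e f : Bool) : Bool :=
  let n := a.toNat + b.toNat + c.toNat + d.toNat + e.toNat + f.toNat
  let d0 := a.toNat + b.toNat + c.toNat
  let d1 := a.toNat + d.toNat + e.toNat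
  let d2 := b.toNat + d.toNat + f.toNat
  let d3 := c.toNat + e.toNat + f.toNat
  (n == 3) && (d0 != 0) && (d0 != 3) && (d1 != 0) && (d1 != 3) && (d2 != 0) && (d2 != 3) &&
    (d3 != 0) && (d3 != 3)

/-- bit of the six for a pair of Fin 4. -/
def bit6 (a b c d e f : Bool) (i j : Fin 4) : Bool :=
  match i.1, j.1 with
  | 0, 1 => a | 1, 0 => a
  | 0, 2 => b | 2, 0 => b
  | 0, 3 => c | 3, 0 => c
  | 1, 2 => d | 2, 1 => d
  | 1, 3 => e | 3, 1 => e
  | 2, 3 => f | 3, 2 => f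
  | _, _ => false

theorem p4b_iff : ∀ a b c d e f : Bool, p4b a b c d e f = true ↔
    ∃ i j k l : Fin 4, (bit6 a b c d e f i j = true ∧ bit6 a b c d e f j k = true ∧
      bit6 a b c d e f k l = true ∧ bit6 a b c d e f i k = false ∧
      bit6 a b c d e f i l = false ∧ bit6 a b c d e f j l = false) ∧
      i ≠ j ∧ i ≠ k ∧ i ≠ l ∧ j ≠ k ∧ j ≠ l ∧ k ≠ l := by
  decide +kernel

theorem p4b_compl : ∀ a b c d e f : Bool, p4b (!a) (!b) (!c) (!d) (!e) (!f) = p4b a b c d e f := by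
  decide +kernel

theorem fin4_cover : ∀ i j k l : Fin 4, i ≠ j → i ≠ k → i ≠ l → j ≠ k → j ≠ l → k ≠ l →
    ∀ m : Fin 4, m = i ∨ m = j ∨ m = k ∨ m = l := by
  decide +kernel

theorem path4_ne {G : SimpleGraph V} {a b c d : V} (h : Path4 G a b c d) :
    a ≠ b ∧ a ≠ c ∧ a ≠ d ∧ b ≠ c ∧ b ≠ d ∧ c ≠ d :=
  ⟨h.1.ne, h.2.2.2.2.2.2.1, h.2.2.2.2.2.2.2.1, h.2.1.ne, h.2.2.2.2.2.2.2.2, h.2.2.1.ne⟩

/-- The four-vertex test is correct. -/
theorem isP4_iff (G : SimpleGraph V) (A : Finset V) (v : Fin 4 → V)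
    (hA : ∀ x, x ∈ A ↔ x = v 0 ∨ x = v 1 ∨ x = v 2 ∨ x = v 3)
    (hv : Function.Injective v)
    {a b c d e f : Bool} (ha : G.Adj (v 0) (v 1) ↔ a = true) (hb : G.Adj (v 0) (v 2) ↔ b = true)
    (hc : G.Adj (v 0) (v 3) ↔ c = true) (hd : G.Adj (v 1) (v 2) ↔ d = true)
    (he : G.Adj (v 1) (v 3) ↔ e = true) (hf : G.Adj (v 2) (v 3) ↔ f = true) :
    IsP4 G A ↔ p4b a b c d e f = true := by
  have hbit : ∀ i j : Fin 4, bit6 a b c d e f i j = true ↔ G.Adj (v i) (v j) := by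
    intro i j
    have h01 := G.adj_comm (v 1) (v 0)
    have h02 := G.adj_comm (v 2) (v 0)
    have h03 := G.adj_comm (v 3) (v 0)
    have h12 := G.adj_comm (v 2) (v 1)
    have h13 := G.adj_comm (v 3) (v 1)
    have h23 := G.adj_comm (v 3) (v 2)
    fin_cases i <;> fin_cases j <;>
      simp [bit6, ha, hb, hc, hd, he, hf, h01, h02, h03, h12, h13, h23]
  have hbit' : ∀ i j : Fin 4, bit6 a b c d e f i j = false ↔ ¬ G.Adj (v i) (v j) := by
    intro i j
    rw [← hbit, Bool.not_eq_true]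
  have hmem : ∀ i, v i ∈ A := by
    intro i
    rw [hA]
    fin_cases i <;> simp
  have hA' : ∀ x, x ∈ A → ∃ i, x = v i := by
    intro x hx
    rcases (hA x).1 hx with h | h | h | h <;> exact ⟨_, h⟩
  rw [p4b_iff]
  constructor
  · rintro ⟨w, x, y, z, hP, hw⟩
    obtain ⟨i, rfl⟩ := hA' w ((hw _).2 (Or.inl rfl))
    obtain ⟨j, rfl⟩ := hA' x ((hw _).2 (Or.inr (Or.inl rfl)))
    obtain ⟨k, rfl⟩ := hA' y ((hw _).2 (Or.inr (Or.inr (Or.inl rfl))))
    obtain ⟨l, rfl⟩ := hA' z ((hw _).2 (Or.inr (Or.inr (Or.inr rfl))))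
    have hne := path4_ne hP
    refine ⟨i, j, k, l, ⟨(hbit _ _).2 hP.1, (hbit _ _).2 hP.2.1, (hbit _ _).2 hP.2.2.1,
      (hbit' _ _).2 hP.2.2.2.1, (hbit' _ _).2 hP.2.2.2.2.1, (hbit' _ _).2 hP.2.2.2.2.2.1⟩,
      ?_, ?_, ?_, ?_, ?_, ?_⟩
    · exact fun h => hne.1 (by rw [h])
    · exact fun h => hne.2.1 (by rw [h])
    · exact fun h => hne.2.2.1 (by rw [h])
    · exact fun h => hne.2.2.2.1 (by rw [h])
    · exact fun h => hne.2.2.2.2.1 (by rw [h])
    · exact fun h => hne.2.2.2.2.2 (by rw [h])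
  · rintro ⟨i, j, k, l, ⟨h1, h2, h3, h4, h5, h6⟩, n1, n2, n3, n4, n5, n6⟩
    refine ⟨v i, v j, v k, v l, ⟨(hbit _ _).1 h1, (hbit _ _).1 h2, (hbit _ _).1 h3,
      (hbit' _ _).1 h4, (hbit' _ _).1 h5, (hbit' _ _).1 h6, fun h => n2 (hv h),
      fun h => n3 (hv h), fun h => n5 (hv h)⟩, ?_⟩
    intro x
    constructor
    · intro hx
      obtain ⟨m, rfl⟩ := hA' x hx
      rcases fin4_cover i j k l n1 n2 n3 n4 n5 n6 m with rfl | rfl | rfl | rfl
      · exact Or.inl rfl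
      · exact Or.inr (Or.inl rfl)
      · exact Or.inr (Or.inr (Or.inl rfl))
      · exact Or.inr (Or.inr (Or.inr rfl))
    · rintro (rfl | rfl | rfl | rfl) <;> exact hmem _

theorem isP4_compl {G : SimpleGraph V} {A : Finset V} : IsP4 Gᶜ A ↔ IsP4 G A := by
  constructor
  · intro h
    have := h.compl
    rwa [compl_compl] at this
  · exact IsP4.compl

/-! ### Walks -/

theorem adj4_compl {G : SimpleGraph V} {A B : Finset V} : Adj4 Gᶜ A B ↔ Adj4 G A B := by
  unfold Adj4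
  rw [isP4_compl, isP4_compl]

theorem walk4_compl {G : SimpleGraph V} {n : ℕ} {A B : Finset V} :
    Walk4 Gᶜ n A B ↔ Walk4 G n A B := by
  constructor
  · intro h
    have := h.compl
    rwa [compl_compl] at this
  · exact Walk4.compl

theorem walk_one {G : SimpleGraph V} {A B : Finset V} (h : Adj4 G A B) : Walk4 G 1 A B :=
  Walk4.succ (Walk4.zero h.1) h

theorem walk_cons {G : SimpleGraph V} {n : ℕ} {A B C : Finset V} (h : Adj4 G A B)
    (h' : Walk4 G n B C) : Walk4 G (n + 1) A C := by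
  have := (walk_one h).trans h'
  rwa [Nat.add_comm] at this

theorem walk_symm {G : SimpleGraph V} {n : ℕ} {A B : Finset V} (h : Walk4 G n A B) :
    Walk4 G n B A := by
  induction h with
  | zero h => exact Walk4.zero h
  | succ _ h2 ih => exact walk_cons h2.symm ih

end Pool.Agent.CW.Cert
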