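import Pool.Agent.CW.ModC0

/-! Bit codes of windows and the two kinds of contradictions (overfull sets, short walks). -/

set_option autoImplicit false

namespace Pool.Agent.CW.Cert

variable {V : Type}

/-! ### Codes -/

/-- index of the pair `i < j`. -/
def ix (i j : ℕ) : ℕ := j * (j - 1) / 2 + i

/-- adjacency bit of the pair `i < j`. -/
def ab (g i j : ℕ) : Bool := g.testBit (ix i j)

def qa (q : ℕ) : ℕ := q % 16
def qb (q : ℕ) : ℕ := q / 16 % 16
def qc (q : ℕ) : ℕ := q / 256 % 16
def qd (q : ℕ) : ℕ := q / 4096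

/-- the code of a quadruple. -/
def mkq (a b c d : ℕ) : ℕ := a + 16 * b + 256 * c + 4096 * d

/-- the mask of a quadruple code. -/
def qm (q : ℕ) : ℕ := 2 ^ qa q ||| (2 ^ qb q ||| (2 ^ qc q ||| 2 ^ qd q))

/-- sorted quadruple with entries at most `n`. -/
def srt (n q : ℕ) : Bool :=
  Nat.blt (qa q) (qb q) && (Nat.blt (qb q) (qc q) && (Nat.blt (qc q) (qd q) && Nat.ble (qd q) n))

/-- are all six pairs of the quadruple known? -/
def kn (n km q : ℕ) : Bool :=
  Nat.blt (qd q) n || (km.testBit (qa q) && (km.testBit (qb q) && km.testBit (qc q)))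

/-- adjacency bit including the last vertex `n`. -/
def av (n g r i j : ℕ) : Bool := if Nat.blt j n = true then ab g i j else r.testBit i

/-- the path test on a quadruple. -/
def pt (n g r q : ℕ) : Bool :=
  p4b (ab g (qa q) (qb q)) (ab g (qa q) (qc q)) (av n g r (qa q) (qd q)) (ab g (qb q) (qc q))
    (av n g r (qb q) (qd q)) (av n g r (qc q) (qd q))

/-- positive test. -/
def isQ (n g r km q : ℕ) : Bool := srt n q && (kn n km q && pt n g r q)

/-- negative test. -/
def noQ (n g r km q : ℕ) : Bool := srt n q && (kn n km q && !(pt n g r q))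

/-- population count of the low `k` bits. -/
def pcg : ℕ → ℕ → ℕ
  | 0, _ => 0
  | k + 1, m => m % 2 + pcg k (m / 2)

/-- the bits of a mask. -/
def bits (m : ℕ) : Finset ℕ := (Finset.range 16).filter (fun i => m.testBit i = true)

theorem mem_bits {m i : ℕ} : i ∈ bits m ↔ i < 16 ∧ m.testBit i = true := by
  simp [bits]

theorem pcg_eq (k m : ℕ) :
    pcg k m = ((Finset.range k).filter (fun i => m.testBit i = true)).card := by
  induction k generalizing m with
  | zero => simp [pcg]
  | succ k ih =>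
    rw [pcg, ih, Finset.range_add_one', Finset.filter_insert, Finset.filter_map]
    have h1 : ((Finset.range k).filter (fun i => (m / 2).testBit i = true)) =
        (Finset.range k).filter ((fun i => m.testBit i = true) ∘
          ⇑(⟨fun i => i + 1, fun i j => by simp⟩ : ℕ ↪ ℕ)) := by
      ext i
      rw [Finset.mem_filter, Finset.mem_filter, ← Nat.testBit_succ]
      exact Iff.rfl
    rw [← h1]
    split_ifs with h
    · rw [Finset.card_insert_of_notMem (by simp), Finset.card_map]
      have : m % 2 = 1 := by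
        simpa [Nat.testBit_zero] using h
      omega
    · rw [Finset.card_map]
      have : ¬ (m % 2 = 1) := by simpa [Nat.testBit_zero] using h
      omega

/-- population count. -/
def pc (m : ℕ) : ℕ := pcg 16 m

theorem pc_eq (m : ℕ) : pc m = (bits m).card := pcg_eq 16 m

theorem bits_or (a b : ℕ) : bits (a ||| b) = bits a ∪ bits b := by
  ext i
  simp only [mem_bits, Finset.mem_union, Nat.testBit_or, Bool.or_eq_true]
  tauto

theorem bits_and (a b : ℕ) : bits (a &&& b) = bits a ∩ bits b := by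
  ext i
  simp only [mem_bits, Finset.mem_inter, Nat.testBit_and, Bool.and_eq_true]
  tauto

theorem srt_iff {n q : ℕ} : srt n q = true ↔ qa q < qb q ∧ qb q < qc q ∧ qc q < qd q ∧
    qd q ≤ n := by
  simp [srt, Nat.blt_eq, Nat.ble_eq]

theorem mem_bits_qm {n q : ℕ} (hn : n < 16) (h : srt n q = true) (i : ℕ) :
    i ∈ bits (qm q) ↔ i = qa q ∨ i = qb q ∨ i = qc q ∨ i = qd q := by
  rw [srt_iff] at h
  obtain ⟨h1, h2, h3, h4⟩ := h
  rw [mem_bits]
  simp only [qm, Nat.testBit_or, Nat.testBit_two_pow, Bool.or_eq_true, decide_eq_true_eq]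
  constructor
  · rintro ⟨_, h⟩
    rcases h with h | h | h | h
    · exact Or.inl h.symm
    · exact Or.inr (Or.inl h.symm)
    · exact Or.inr (Or.inr (Or.inl h.symm))
    · exact Or.inr (Or.inr (Or.inr h.symm))
  · rintro (rfl | rfl | rfl | rfl)
    · exact ⟨by omega, Or.inl rfl⟩
    · exact ⟨by omega, Or.inr (Or.inl rfl)⟩
    · exact ⟨by omega, Or.inr (Or.inr (Or.inl rfl))⟩
    · exact ⟨by omega, Or.inr (Or.inr (Or.inr rfl))⟩

theorem bits_qm {n q : ℕ} (hn : n < 16) (h : srt n q = true) :
    bits (qm q) = {qa q, qb q, qc q, qd q} := by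
  ext i
  rw [mem_bits_qm hn h]
  simp

theorem card_bits_qm {n q : ℕ} (hn : n < 16) (h : srt n q = true) : (bits (qm q)).card = 4 := by
  rw [bits_qm hn h]
  rw [srt_iff] at h
  obtain ⟨h1, h2, h3, h4⟩ := h
  rw [Finset.card_insert_of_notMem, Finset.card_insert_of_notMem, Finset.card_insert_of_notMem,
    Finset.card_singleton]
  · simp only [Finset.mem_singleton]; omega
  · simp only [Finset.mem_insert, Finset.mem_singleton]; omega
  · simp only [Finset.mem_insert, Finset.mem_singleton]; omega

theorem q_eq (q : ℕ) : q = mkq (qa q) (qb q) (qc q) (qd q) := by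
  simp only [mkq, qa, qb, qc, qd]
  omega

/-- sorted codes are determined by their sets of entries. -/
theorem code_ext {n q q' : ℕ} (hn : n < 16) (h : srt n q = true) (h' : srt n q' = true)
    (hb : bits (qm q) = bits (qm q')) : q = q' := by
  have key : ∀ i, (i = qa q ∨ i = qb q ∨ i = qc q ∨ i = qd q) ↔
      (i = qa q' ∨ i = qb q' ∨ i = qc q' ∨ i = qd q') := by
    intro i
    rw [← mem_bits_qm hn h, ← mem_bits_qm hn h', hb]
  rw [srt_iff] at h h'
  have k1 := (key (qa q)).1 (Or.inl rfl)
  have k2 := (key (qb q)).1 (Or.inr (Or.inl rfl))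
  have k3 := (key (qc q)).1 (Or.inr (Or.inr (Or.inl rfl)))
  have k4 := (key (qd q)).1 (Or.inr (Or.inr (Or.inr rfl)))
  have l1 := (key (qa q')).2 (Or.inl rfl)
  have l2 := (key (qb q')).2 (Or.inr (Or.inl rfl))
  have l3 := (key (qc q')).2 (Or.inr (Or.inr (Or.inl rfl)))
  have l4 := (key (qd q')).2 (Or.inr (Or.inr (Or.inr rfl)))
  have e1 : qa q = qa q' := by omega
  have e2 : qb q = qb q' := by omega
  have e3 : qc q = qc q' := by omega
  have e4 : qd q = qd q' := by omega
  rw [q_eq q, q_eq q', e1, e2, e3, e4]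

/-! ### Windows -/

/-- image of a mask. -/
noncomputable def im (f : ℕ → V) (m : ℕ) : Finset V :=
  @Finset.image _ _ (Classical.decEq V) f (bits m)

theorem mem_im {f : ℕ → V} {m : ℕ} {x : V} : x ∈ im f m ↔ ∃ i ∈ bits m, f i = x := by
  classical
  simp [im]

/-- Semantics of a partially known graph with vertices `0, ..., n`, where the bits between `n` and
the vertices of the mask `km` are known. -/
structure Sem (G : SimpleGraph V) (n g r km : ℕ) (f : ℕ → V) : Prop where
  inj : ∀ i j, i < j → j ≤ n → f i ≠ f j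
  adj : ∀ i j, i < j → j < n → (G.Adj (f i) (f j) ↔ ab g i j = true)
  adjn : ∀ i, i < n → km.testBit i = true → (G.Adj (f i) (f n) ↔ r.testBit i = true)

theorem Sem.injOn {G : SimpleGraph V} {n g r km : ℕ} {f : ℕ → V} (h : Sem G n g r km f) :
    ∀ i j, i ≤ n → j ≤ n → f i = f j → i = j := by
  intro i j hi hj hf
  rcases lt_trichotomy i j with hij | hij | hij
  · exact absurd hf (h.inj i j hij hj)
  · exact hij
  · exact absurd hf.symm (h.inj j i hij hi)

theorem mem_im_qm {n q : ℕ} (hn : n < 16) (h : srt n q = true) (f : ℕ → V) (x : V) :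
    x ∈ im f (qm q) ↔ x = f (qa q) ∨ x = f (qb q) ∨ x = f (qc q) ∨ x = f (qd q) := by
  rw [mem_im]
  constructor
  · rintro ⟨i, hi, rfl⟩
    rcases (mem_bits_qm hn h i).1 hi with rfl | rfl | rfl | rfl
    · exact Or.inl rfl
    · exact Or.inr (Or.inl rfl)
    · exact Or.inr (Or.inr (Or.inl rfl))
    · exact Or.inr (Or.inr (Or.inr rfl))
  · rintro (rfl | rfl | rfl | rfl)
    · exact ⟨_, (mem_bits_qm hn h _).2 (Or.inl rfl), rfl⟩
    · exact ⟨_, (mem_bits_qm hn h _).2 (Or.inr (Or.inl rfl)), rfl⟩
    · exact ⟨_, (mem_bits_qm hn h _).2 (Or.inr (Or.inr (Or.inl rfl))), rfl⟩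
    · exact ⟨_, (mem_bits_qm hn h _).2 (Or.inr (Or.inr (Or.inr rfl))), rfl⟩

/-- the path test is correct. -/
theorem pt_sound {G : SimpleGraph V} {n g r km q : ℕ} {f : ℕ → V} (hn : n < 16)
    (hS : Sem G n g r km f) (hs : srt n q = true) (hk : kn n km q = true) :
    IsP4 G (im f (qm q)) ↔ pt n g r q = true := by
  have hs' := srt_iff.1 hs
  obtain ⟨h1, h2, h3, h4⟩ := hs'
  have hav : ∀ i, (i = qa q ∨ i = qb q ∨ i = qc q) →
      (G.Adj (f i) (f (qd q)) ↔ av n g r i (qd q) = true) := by
    intro i hi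
    have hid : i < qd q := by omega
    unfold av
    by_cases hd : qd q < n
    · rw [if_pos (by simpa [Nat.blt_eq] using hd)]
      exact hS.adj i _ hid hd
    · rw [if_neg (by simpa [Nat.blt_eq] using hd)]
      have hdn : qd q = n := by omega
      rw [hdn]
      refine hS.adjn i (by omega) ?_
      unfold kn at hk
      have hd' : Nat.blt (qd q) n = false := by
        rw [Bool.eq_false_iff]
        simpa [Nat.blt_eq] using hd
      rw [hd', Bool.false_or, Bool.and_eq_true, Bool.and_eq_true] at hk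
      rcases hi with rfl | rfl | rfl
      · exact hk.1
      · exact hk.2.1
      · exact hk.2.2
  refine isP4_iff G (im f (qm q)) ![f (qa q), f (qb q), f (qc q), f (qd q)] ?_ ?_ ?_ ?_ ?_ ?_ ?_ ?_
  · intro x
    exact mem_im_qm hn hs f x
  · intro i j hij
    fin_cases i <;> fin_cases j <;> first
      | rfl
      | exact absurd hij (hS.inj _ _ (by omega) (by omega))
      | exact absurd hij.symm (hS.inj _ _ (by omega) (by omega))
  · exact hS.adj _ _ h1 (by omega)
  · exact hS.adj _ _ (by omega) (by omega)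
  · exact hav _ (Or.inl rfl)
  · exact hS.adj _ _ h2 (by omega)
  · exact hav _ (Or.inr (Or.inl rfl))
  · exact hav _ (Or.inr (Or.inr rfl))

theorem isQ_sound {G : SimpleGraph V} {n g r km q : ℕ} {f : ℕ → V} (hn : n < 16)
    (hS : Sem G n g r km f) (h : isQ n g r km q = true) :
    srt n q = true ∧ IsP4 G (im f (qm q)) := by
  unfold isQ at h
  rw [Bool.and_eq_true, Bool.and_eq_true] at h
  exact ⟨h.1, (pt_sound hn hS h.1 h.2.1).2 h.2.2⟩

theorem noQ_sound {G : SimpleGraph V} {n g r km q : ℕ} {f : ℕ → V} (hn : n < 16)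
    (hS : Sem G n g r km f) (h : noQ n g r km q = true) : ¬ IsP4 G (im f (qm q)) := by
  unfold noQ at h
  rw [Bool.and_eq_true, Bool.and_eq_true] at h
  rw [pt_sound hn hS h.1 h.2.1]
  simpa using h.2.2

/-! ### Overfull sets -/

theorem or4_2 {p q r s : Prop} : (p ∨ q ∨ r ∨ s) ↔ (q ∨ p ∨ r ∨ s) := by tauto
theorem or4_3 {p q r s : Prop} : (p ∨ q ∨ r ∨ s) ↔ (r ∨ p ∨ q ∨ s) := by tauto
theorem or4_4 {p q r s : Prop} : (p ∨ q ∨ r ∨ s) ↔ (s ∨ p ∨ q ∨ r) := by tauto

theorem good_congr {G : SimpleGraph V} {σ σ' : V → Bool} {l : List V} (h : Good G σ l)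
    (hσ : ∀ v ∈ l, σ v = σ' v) : Good G σ' l := by
  induction h with
  | base h h1 h2 h3 h4 =>
    refine Good.base h ?_ ?_ ?_ ?_
    · rw [← hσ _ (by simp), h1]
    · rw [← hσ _ (by simp), h2]
    · rw [← hσ _ (by simp), h3]
    · rw [← hσ _ (by simp), h4]
  | @part l x a b c A hl hx ha hb hc hA hz hs ih =>
    refine Good.part (ih fun v hv => hσ v (List.mem_cons_of_mem _ hv)) hx ha hb hc hA hz ?_
    rw [← hσ x (by simp), ← hσ a (List.mem_cons_of_mem _ ha), ← hσ b (List.mem_cons_of_mem _ hb),
      ← hσ c (List.mem_cons_of_mem _ hc), hs]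
  | @pairN l m n hl hm hn hmn h1 h2 h3 h4 ih =>
    have hl' : ∀ v ∈ l, σ v = σ' v := fun v hv =>
      hσ v (List.mem_cons_of_mem _ (List.mem_cons_of_mem _ hv))
    refine Good.pairN (ih hl') hm hn hmn (fun s hs => ?_) h2 ?_ ?_
    · rw [h1 s hs, hl' s hs]
    · rw [← hσ m (by simp), h3]
    · rw [← hσ n (by simp), h4]
  | @pairT l m t hl hm ht hmt hn h1 h2 h3 h4 ih =>
    have hl' : ∀ v ∈ l, σ v = σ' v := fun v hv =>
      hσ v (List.mem_cons_of_mem _ (List.mem_cons_of_mem _ hv))
    refine Good.pairT (ih hl') hm ht hmt hn (fun s hs => ?_) h2 ?_ ?_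
    · rw [h1 s hs, hl' s hs]
    · rw [← hσ m (by simp), h3]
    · rw [← hσ t (by simp), h4]

/-- grown for some choice of sides. -/
def GoodS (G : SimpleGraph V) (l : List V) : Prop := ∃ σ : V → Bool, Good G σ l

theorem GoodS.base {G : SimpleGraph V} {a b c d : V} (h : Path4 G a b c d) :
    GoodS G [a, b, c, d] := by
  classical
  have hne := path4_ne h
  refine ⟨fun v => decide (v = b ∨ v = c), Good.base h ?_ ?_ ?_ ?_⟩
  · simp [hne.1, hne.2.1]
  · simp
  · simp
  · simp [hne.2.2.2.2.1.symm, hne.2.2.2.2.2.symm]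

theorem GoodS.part {G : SimpleGraph V} {l : List V} {x a b c : V} {A : Finset V}
    (h : GoodS G l) (hx : x ∉ l) (ha : a ∈ l) (hb : b ∈ l) (hc : c ∈ l) (hA : IsP4 G A)
    (hz : ∀ z, z ∈ A ↔ z = x ∨ z = a ∨ z = b ∨ z = c) : GoodS G (x :: l) := by
  classical
  obtain ⟨σ, hσ⟩ := h
  have hne : ∀ v ∈ l, v ≠ x := fun v hv e => hx (e ▸ hv)
  refine ⟨Function.update σ x (xor (σ a) (xor (σ b) (σ c))), Good.part (good_congr hσ fun v hv => ?_)
    hx ha hb hc hA hz ?_⟩
  · rw [Function.update_of_ne (hne v hv)]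
  · rw [Function.update_self, Function.update_of_ne (hne a ha), Function.update_of_ne (hne b hb),
      Function.update_of_ne (hne c hc)]

/-- check of an overfull set: `U` the current mask, `p` its size, `c` the number of paths. -/
def vgo (n g r km : ℕ) : List ℕ → ℕ → ℕ → ℕ → List ℕ → Bool
  | [], _, p, c, _ => Nat.ble p 8 && (Nat.ble 5 p && Nat.ble p (c + 1))
  | q :: L, U, p, c, seen =>
    isQ n g r km q && (!(seen.contains q) && (Nat.ble (pc (U ||| qm q)) (p + 1) &&
      vgo n g r km L (U ||| qm q) (pc (U ||| qm q)) (c + 1) (q :: seen)))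

/-- check of an overfull set. -/
def vchk (n g r km : ℕ) : List ℕ → Bool
  | [] => false
  | q :: L => isQ n g r km q && vgo n g r km L (qm q) 4 1 [q]

structure VInv (G : SimpleGraph V) (n : ℕ) (f : ℕ → V) (U p c : ℕ) (seen : List ℕ) : Prop where
  good : ∃ l : List V, GoodS G l ∧ l.length = p ∧ ∀ v, v ∈ l ↔ ∃ i ∈ bits U, f i = v
  card : (bits U).card = p
  le : ∀ i ∈ bits U, i ≤ n
  nodup : seen.Nodup
  len : seen.length = c
  mem : ∀ q ∈ seen, srt n q = true ∧ IsP4 G (im f (qm q)) ∧ bits (qm q) ⊆ bits U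

theorem im_inj {G : SimpleGraph V} {n g r km : ℕ} {f : ℕ → V} (hn : n < 16)
    (hS : Sem G n g r km f) {q q' : ℕ} (h : srt n q = true) (h' : srt n q' = true)
    (he : im f (qm q) = im f (qm q')) : q = q' := by
  refine code_ext hn h h' ?_
  have hle : ∀ q, srt n q = true → ∀ i ∈ bits (qm q), i ≤ n := by
    intro q hq i hi
    rw [mem_bits_qm hn hq] at hi
    rw [srt_iff] at hq
    omega
  have key : ∀ q q', srt n q = true → srt n q' = true → im f (qm q) = im f (qm q') →
      bits (qm q) ⊆ bits (qm q') := by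
    intro q q' h h' he i hi
    have h1 : f i ∈ im f (qm q) := mem_im.2 ⟨i, hi, rfl⟩
    rw [he, mem_im] at h1
    obtain ⟨j, hj, hij⟩ := h1
    have := hS.injOn j i (hle q' h' j hj) (hle q h i hi) hij
    rwa [← this]
  exact Finset.Subset.antisymm (key q q' h h' he) (key q' q h' h he.symm)

theorem vgo_sound {G : SimpleGraph V} (hG : Star G) {n g r km : ℕ} {f : ℕ → V} (hn : n < 16)
    (hS : Sem G n g r km f) : ∀ (L : List ℕ) (U p c : ℕ) (seen : List ℕ),
    VInv G n f U p c seen → vgo n g r km L U p c seen = true → False := by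
  classical
  intro L
  induction L with
  | nil =>
    intro U p c seen hI h
    simp only [vgo, Bool.and_eq_true, Nat.ble_eq] at h
    obtain ⟨l, ⟨σ, hσ⟩, hlen, hmem⟩ := hI.good
    have h1 := hG σ l hσ (by omega) (by omega) ((seen.map fun q => im f (qm q)).toFinset) (by
      intro A hA
      rw [List.mem_toFinset, List.mem_map] at hA
      obtain ⟨q, hq, rfl⟩ := hA
      obtain ⟨_, hq2, hq3⟩ := hI.mem q hq
      refine ⟨hq2, fun x hx => ?_⟩
      obtain ⟨i, hi, rfl⟩ := mem_im.1 hx
      exact (hmem _).2 ⟨i, hq3 hi, rfl⟩)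
    have h2 : ((seen.map fun q => im f (qm q)).toFinset).card = c := by
      rw [List.toFinset_card_of_nodup, List.length_map, hI.len]
      refine List.Nodup.map_on ?_ hI.nodup
      intro q hq q' hq' he
      exact im_inj hn hS (hI.mem q hq).1 (hI.mem q' hq').1 he
    omega
  | cons q L ih =>
    intro U p c seen hI h
    rw [vgo, Bool.and_eq_true, Bool.and_eq_true, Bool.and_eq_true] at h
    obtain ⟨hq, hns, hle, hrec⟩ := h
    obtain ⟨hsrt, hP⟩ := isQ_sound hn hS hq
    rw [Nat.ble_eq] at hle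
    refine ih _ _ _ _ ?_ hrec
    have hns' : q ∉ seen := by
      simpa using hns
    have hpc : pc (U ||| qm q) = (bits U ∪ bits (qm q)).card := by rw [pc_eq, bits_or]
    have hlen := hI.len
    have hsub : ∀ q' ∈ q :: seen, srt n q' = true ∧ IsP4 G (im f (qm q')) ∧
        bits (qm q') ⊆ bits (U ||| qm q) := by
      intro q' hq'
      rcases List.mem_cons.1 hq' with rfl | hq'
      · exact ⟨hsrt, hP, by rw [bits_or]; exact Finset.subset_union_right⟩
      · obtain ⟨h1, h2, h3⟩ := hI.mem q' hq'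
        exact ⟨h1, h2, by rw [bits_or]; exact h3.trans Finset.subset_union_left⟩
    have hlebits : ∀ i ∈ bits (U ||| qm q), i ≤ n := by
      intro i hi
      rw [bits_or, Finset.mem_union] at hi
      rcases hi with hi | hi
      · exact hI.le i hi
      · rw [mem_bits_qm hn hsrt] at hi
        have := srt_iff.1 hsrt
        omega
    refine ⟨?_, by rw [pc_eq], hlebits, List.nodup_cons.2 ⟨hns', hI.nodup⟩, by simp [hlen], hsub⟩
    obtain ⟨l, hgood, hll, hmem⟩ := hI.good
    have hcard : (bits U ∪ bits (qm q)).card = (bits U).card + (bits (qm q) \ bits U).card := by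
      rw [← Finset.union_sdiff_self_eq_union, Finset.card_union_of_disjoint Finset.disjoint_sdiff]
    have hIc := hI.card
    by_cases hz : (bits (qm q) \ bits U).card = 0
    · rw [Finset.card_eq_zero, Finset.sdiff_eq_empty_iff_subset] at hz
      refine ⟨l, hgood, by rw [hpc, Finset.union_eq_left.2 hz, hIc, hll], ?_⟩
      intro v
      rw [hmem, bits_or, Finset.union_eq_left.2 hz]
    · have h1 : (bits (qm q) \ bits U).card = 1 := by omega
      obtain ⟨i, hi⟩ := Finset.card_eq_one.1 h1
      have hiq : i ∈ bits (qm q) := (Finset.mem_sdiff.1 (by rw [hi]; simp)).1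
      have hiU : i ∉ bits U := (Finset.mem_sdiff.1 (by rw [hi]; simp : i ∈ bits (qm q) \ bits U)).2
      have hother : ∀ j ∈ bits (qm q), j ≠ i → j ∈ bits U := by
        intro j hj hji
        by_contra hjU
        have : j ∈ bits (qm q) \ bits U := Finset.mem_sdiff.2 ⟨hj, hjU⟩
        rw [hi, Finset.mem_singleton] at this
        exact hji this
      have hin : i ≤ n := hlebits i (by rw [bits_or]; exact Finset.mem_union_right _ hiq)
      have hxl : f i ∉ l := by
        rw [hmem]
        rintro ⟨j, hj, hji⟩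
        have := hS.injOn j i (hI.le j hj) hin hji
        exact hiU (this ▸ hj)
      have hIl : ∀ j ∈ bits (qm q), j ≠ i → f j ∈ l := fun j hj hji =>
        (hmem _).2 ⟨j, hother j hj hji, rfl⟩
      have mb := fun j => mem_bits_qm hn hsrt j
      have hs4 := srt_iff.1 hsrt
      have hgood' : GoodS G (f i :: l) := by
        rcases (mb i).1 hiq with rfl | rfl | rfl | rfl
        · refine hgood.part hxl (hIl (qb q) ?_ (by omega)) (hIl (qc q) ?_ (by omega))
            (hIl (qd q) ?_ (by omega)) hP ?_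
          · rw [mb]; simp
          · rw [mb]; simp
          · rw [mb]; simp
          · intro z; rw [mem_im_qm hn hsrt]
        · refine hgood.part hxl (hIl (qa q) ?_ (by omega)) (hIl (qc q) ?_ (by omega))
            (hIl (qd q) ?_ (by omega)) hP ?_
          · rw [mb]; simp
          · rw [mb]; simp
          · rw [mb]; simp
          · intro z; rw [mem_im_qm hn hsrt]; exact or4_2
        · refine hgood.part hxl (hIl (qa q) ?_ (by omega)) (hIl (qb q) ?_ (by omega))
            (hIl (qd q) ?_ (by omega)) hP ?_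
          · rw [mb]; simp
          · rw [mb]; simp
          · rw [mb]; simp
          · intro z; rw [mem_im_qm hn hsrt]; exact or4_3
        · refine hgood.part hxl (hIl (qa q) ?_ (by omega)) (hIl (qb q) ?_ (by omega))
            (hIl (qc q) ?_ (by omega)) hP ?_
          · rw [mb]; simp
          · rw [mb]; simp
          · rw [mb]; simp
          · intro z; rw [mem_im_qm hn hsrt]; exact or4_4
      refine ⟨f i :: l, hgood', by rw [hpc, hcard, h1, List.length_cons, hll, hIc], ?_⟩
      intro v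
      rw [List.mem_cons, hmem, bits_or]
      constructor
      · rintro (rfl | ⟨j, hj, rfl⟩)
        · exact ⟨i, Finset.mem_union_right _ hiq, rfl⟩
        · exact ⟨j, Finset.mem_union_left _ hj, rfl⟩
      · rintro ⟨j, hj, rfl⟩
        rcases Finset.mem_union.1 hj with hj | hj
        · exact Or.inr ⟨j, hj, rfl⟩
        · by_cases hji : j = i
          · exact Or.inl (by rw [hji])
          · exact Or.inr ⟨j, hother j hj hji, rfl⟩

theorem vchk_sound {G : SimpleGraph V} (hG : Star G) {n g r km : ℕ} {f : ℕ → V} (hn : n < 16)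
    (hS : Sem G n g r km f) (L : List ℕ) (h : vchk n g r km L = true) : False := by
  cases L with
  | nil => simp [vchk] at h
  | cons q L =>
    rw [vchk, Bool.and_eq_true] at h
    obtain ⟨hsrt, hP⟩ := isQ_sound hn hS h.1
    refine vgo_sound hG hn hS L _ _ _ _ ?_ h.2
    have hs4 := srt_iff.1 hsrt
    refine ⟨?_, card_bits_qm hn hsrt, ?_, by simp, by simp, ?_⟩
    · have hP' := hP
      obtain ⟨a, b, c, d, hpath, hA⟩ := hP
      refine ⟨[a, b, c, d], GoodS.base hpath, rfl, fun v => ?_⟩
      rw [← mem_im, hA]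
      simp
    · intro i hi
      rw [mem_bits_qm hn hsrt] at hi
      omega
    · intro q' hq'
      rw [List.mem_singleton] at hq'
      subst hq'
      exact ⟨hsrt, hP, Finset.Subset.refl _⟩

end Pool.Agent.CW.Cert
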