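import Pool.Agent.CW.ModC1

/-! Refutation trees for families of walks of induced paths. -/

set_option autoImplicit false

namespace Pool.Agent.CW.Cert

variable {V : Type}

/-! ### Short walks -/

theorem le_of_bits {n q : ℕ} (hn : n < 16) (h : srt n q = true) : ∀ i ∈ bits (qm q), i ≤ n := by
  intro i hi
  rw [mem_bits_qm hn h] at hi
  rw [srt_iff] at h
  omega

theorem adj4_of_inter {G : SimpleGraph V} {n g r km : ℕ} {f : ℕ → V} (hn : n < 16)
    (hS : Sem G n g r km f) {q q' : ℕ} (h : srt n q = true) (h' : srt n q' = true)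
    (hP : IsP4 G (im f (qm q))) (hP' : IsP4 G (im f (qm q')))
    (hc : (bits (qm q) ∩ bits (qm q')).card = 3) : Adj4 G (im f (qm q)) (im f (qm q')) := by
  classical
  have c1 := card_bits_qm hn h
  have c2 := card_bits_qm hn h'
  have e1 : (bits (qm q) \ bits (qm q')).card = 1 := by
    have := Finset.card_sdiff_add_card_inter (bits (qm q)) (bits (qm q'))
    omega
  have e2 : (bits (qm q') \ bits (qm q)).card = 1 := by
    have := Finset.card_sdiff_add_card_inter (bits (qm q')) (bits (qm q))
    rw [Finset.inter_comm] at this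
    omega
  obtain ⟨i, hi⟩ := Finset.card_eq_one.1 e1
  obtain ⟨j, hj⟩ := Finset.card_eq_one.1 e2
  have hi' : i ∈ bits (qm q) \ bits (qm q') := by rw [hi]; simp
  have hj' : j ∈ bits (qm q') \ bits (qm q) := by rw [hj]; simp
  rw [Finset.mem_sdiff] at hi' hj'
  have L1 := le_of_bits hn h
  have L2 := le_of_bits hn h'
  refine ⟨hP, hP', f i, f j, mem_im.2 ⟨i, hi'.1, rfl⟩, ?_, fun z => ?_⟩
  · rw [mem_im]
    rintro ⟨k, hk, hkj⟩
    have := hS.injOn k j (L1 k hk) (L2 j hj'.1) hkj
    exact hj'.2 (this ▸ hk)
  · constructor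
    · intro hz
      obtain ⟨k, hk, rfl⟩ := mem_im.1 hz
      by_cases hk1 : k ∈ bits (qm q)
      · refine Or.inr ⟨mem_im.2 ⟨k, hk1, rfl⟩, fun e => ?_⟩
        have := hS.injOn k i (L2 k hk) (L1 i hi'.1) e
        exact hi'.2 (this ▸ hk)
      · have : k ∈ bits (qm q') \ bits (qm q) := Finset.mem_sdiff.2 ⟨hk, hk1⟩
        rw [hj, Finset.mem_singleton] at this
        exact Or.inl (by rw [this])
    · rintro (rfl | ⟨hz, hzi⟩)
      · exact mem_im.2 ⟨j, hj'.1, rfl⟩
      · obtain ⟨k, hk, rfl⟩ := mem_im.1 hz
        by_cases hk1 : k ∈ bits (qm q')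
        · exact mem_im.2 ⟨k, hk1, rfl⟩
        · have : k ∈ bits (qm q) \ bits (qm q') := Finset.mem_sdiff.2 ⟨hk, hk1⟩
          rw [hi, Finset.mem_singleton] at this
          exact absurd (by rw [this]) hzi

/-- check of a walk. -/
def wlk (n g r km : ℕ) : ℕ → List ℕ → Bool
  | q, [] => isQ n g r km q
  | q, q' :: L => isQ n g r km q && (Nat.beq (pc (qm q &&& qm q')) 3 && wlk n g r km q' L)

theorem wlk_sound {G : SimpleGraph V} {n g r km : ℕ} {f : ℕ → V} (hn : n < 16)
    (hS : Sem G n g r km f) : ∀ (L : List ℕ) (q : ℕ), wlk n g r km q L = true →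
    srt n q = true ∧ Walk4 G L.length (im f (qm q)) (im f (qm (L.getLastD q))) := by
  intro L
  induction L with
  | nil =>
    intro q h
    obtain ⟨h1, h2⟩ := isQ_sound hn hS h
    exact ⟨h1, Walk4.zero h2⟩
  | cons q' L ih =>
    intro q h
    rw [wlk, Bool.and_eq_true, Bool.and_eq_true] at h
    obtain ⟨hq, hc, hr⟩ := h
    obtain ⟨h1, h2⟩ := isQ_sound hn hS hq
    obtain ⟨h3, h4⟩ := ih q' hr
    have hP' : IsP4 G (im f (qm q')) := by
      have := walk_symm h4
      cases L with
      | nil => exact (isQ_sound hn hS hr).2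
      | cons a L =>
        rw [wlk, Bool.and_eq_true] at hr
        exact (isQ_sound hn hS hr.1).2
    refine ⟨h1, ?_⟩
    have hadj : Adj4 G (im f (qm q)) (im f (qm q')) := by
      refine adj4_of_inter hn hS h1 h3 h2 hP' ?_
      rw [← bits_and, ← pc_eq]
      exact Nat.eq_of_beq_eq_true hc
    rw [List.length_cons, List.getLastD_cons]
    exact walk_cons hadj h4

/-! ### Scripts and states -/

/-- A script: set number `k ≥ 1` is adjacent to set number `frm k`; `far` lists the lower bounds
`(i, j, d)`: no walk of length `< d` from set `i` to set `j`. -/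
structure Sc where
  frm : List ℕ
  far : List (ℕ × ℕ × ℕ)

/-- the sets `X` follow the script. -/
structure ScOK (G : SimpleGraph V) (sc : Sc) (X : ℕ → Finset V) : Prop where
  adj : ∀ k, 0 < k → k < sc.frm.length → Adj4 G (X (sc.frm.getD k 0)) (X k)
  far : ∀ t ∈ sc.far, ∀ m, m < t.2.2 → ¬ Walk4 G m (X t.1) (X t.2.1)

theorem ScOK.compl {G : SimpleGraph V} {sc : Sc} {X : ℕ → Finset V} (h : ScOK G sc X) :
    ScOK Gᶜ sc X :=
  ⟨fun k h1 h2 => adj4_compl.2 (h.adj k h1 h2), fun t ht m hm hw =>
    h.far t ht m hm (walk4_compl.1 hw)⟩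

/-- A state: `N` vertices, adjacency code `g`, codes of the first sets of the script. -/
structure St where
  N : ℕ
  g : ℕ
  S : List ℕ

/-- the row of the last vertex. -/
def St.r (s : St) : ℕ := s.g / 2 ^ ((s.N - 1) * (s.N - 2) / 2)

/-- `f` realizes the state. -/
structure Real (G : SimpleGraph V) (s : St) (f : ℕ → V) (X : ℕ → Finset V) : Prop where
  inj : ∀ i j, i < j → j < s.N → f i ≠ f j
  adj : ∀ i j, i < j → j < s.N → (G.Adj (f i) (f j) ↔ ab s.g i j = true)
  set : ∀ k, k < s.S.length → X k = im f (qm (s.S.getD k 0))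

/-- well-formedness of a state. -/
def St.wf (s : St) : Bool :=
  Nat.blt 1 s.N && (Nat.blt s.N 16 && (Nat.blt s.g (2 ^ (s.N * (s.N - 1) / 2)) &&
    s.S.all (fun q => srt (s.N - 1) q)))

/-- no realization of the state follows the script. -/
def Refd (sc : Sc) (s : St) : Prop :=
  ∀ (V : Type) (G : SimpleGraph V), Star G → Star Gᶜ → ∀ (f : ℕ → V) (X : ℕ → Finset V),
    Real G s f X → ScOK G sc X → False

/-! ### Isomorphic states -/

/-- entry of a permutation code. -/
def pe (p i : ℕ) : ℕ := p / 16 ^ i % 16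

/-- the image mask of a quadruple code under the permutation. -/
def pq (p q : ℕ) : ℕ :=
  2 ^ pe p (qa q) ||| (2 ^ pe p (qb q) ||| (2 ^ pe p (qc q) ||| 2 ^ pe p (qd q)))

/-- union of the first entries. -/
def pall (p : ℕ) : ℕ → ℕ
  | 0 => 0
  | k + 1 => 2 ^ pe p k ||| pall p k

def abs (g i j : ℕ) : Bool := if Nat.blt i j = true then ab g i j else ab g j i

def rowOK (g g' p : ℕ) (co : Bool) (j : ℕ) : ℕ → Bool
  | 0 => true
  | i + 1 => (ab g' i j == xor co (abs g (pe p i) (pe p j))) && rowOK g g' p co j i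

def allOK (g g' p : ℕ) (co : Bool) : ℕ → Bool
  | 0 => true
  | j + 1 => rowOK g g' p co j j && allOK g g' p co j

def setsOK (p : ℕ) : List ℕ → List ℕ → Bool
  | [], [] => true
  | q :: L, q' :: L' => Nat.beq (qm q) (pq p q') && setsOK p L L'
  | _, _ => false

/-- `f' i = f (p i)` transforms a realization of `s` into one of `t`. -/
def isoOK (s t : St) (p : ℕ) (co : Bool) : Bool :=
  Nat.beq s.N t.N && (Nat.beq (pall p s.N) (2 ^ s.N - 1) && (allOK s.g t.g p co s.N &&
    (setsOK p s.S t.S && t.wf)))

theorem mem_pall {p k i : ℕ} (h : (pall p k).testBit i = true) : ∃ j < k, pe p j = i := by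
  induction k with
  | zero => simp [pall] at h
  | succ k ih =>
    rw [pall, Nat.testBit_or, Bool.or_eq_true] at h
    rcases h with h | h
    · rw [Nat.testBit_two_pow, decide_eq_true_eq] at h
      exact ⟨k, Nat.lt_succ_self k, h⟩
    · obtain ⟨j, hj, hji⟩ := ih h
      exact ⟨j, by omega, hji⟩

theorem rowOK_sound {g g' p : ℕ} {co : Bool} {j : ℕ} : ∀ k, rowOK g g' p co j k = true →
    ∀ i < k, ab g' i j = xor co (abs g (pe p i) (pe p j)) := by
  intro k
  induction k with
  | zero => intro _ i hi; omega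
  | succ k ih =>
    intro h i hi
    rw [rowOK, Bool.and_eq_true, beq_iff_eq] at h
    rcases Nat.lt_succ_iff_lt_or_eq.1 hi with hi | rfl
    · exact ih h.2 i hi
    · exact h.1

theorem allOK_sound {g g' p : ℕ} {co : Bool} : ∀ k, allOK g g' p co k = true →
    ∀ i j, i < j → j < k → ab g' i j = xor co (abs g (pe p i) (pe p j)) := by
  intro k
  induction k with
  | zero => intro _ i j _ hj; omega
  | succ k ih =>
    intro h i j hij hj
    rw [allOK, Bool.and_eq_true] at h
    rcases Nat.lt_succ_iff_lt_or_eq.1 hj with hj | rfl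
    · exact ih h.2 i j hij hj
    · exact rowOK_sound _ h.1 i hij

theorem setsOK_sound {p : ℕ} : ∀ (L L' : List ℕ), setsOK p L L' = true →
    L.length = L'.length ∧ ∀ k, k < L'.length → qm (L.getD k 0) = pq p (L'.getD k 0) := by
  intro L
  induction L with
  | nil =>
    intro L' h
    cases L' with
    | nil => exact ⟨rfl, fun k hk => by simp at hk⟩
    | cons a L' => simp [setsOK] at h
  | cons q L ih =>
    intro L' h
    cases L' with
    | nil => simp [setsOK] at h
    | cons q' L' =>
      rw [setsOK, Bool.and_eq_true] at h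
      obtain ⟨h1, h2⟩ := ih L' h.2
      refine ⟨by simp [h1], fun k hk => ?_⟩
      cases k with
      | zero => simpa using Nat.eq_of_beq_eq_true h.1
      | succ k => simpa using h2 k (by simpa using hk)

theorem pe_lt (p i : ℕ) : pe p i < 16 := Nat.mod_lt _ (by norm_num)

theorem isoOK_sound {sc : Sc} {s t : St} {p : ℕ} {co : Bool} (h : isoOK s t p co = true)
    (ht : Refd sc t) : Refd sc s := by
  intro V G hG hGc f X hR hX
  rw [isoOK, Bool.and_eq_true, Bool.and_eq_true, Bool.and_eq_true, Bool.and_eq_true] at h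
  obtain ⟨hN, hp, hall, hsets, hwf⟩ := h
  have hN := Nat.eq_of_beq_eq_true hN
  have hp := Nat.eq_of_beq_eq_true hp
  simp only [St.wf, Bool.and_eq_true, Nat.blt_eq, List.all_eq_true] at hwf
  obtain ⟨hw1, hw2, hw3, hw4⟩ := hwf
  -- the permutation is a bijection of `range N`
  have hsurj : ∀ i, i < s.N → ∃ j, j < s.N ∧ pe p j = i := by
    intro i hi
    refine mem_pall ?_
    rw [hp, Nat.testBit_two_pow_sub_one]
    simpa using hi
  have hlt : ∀ i, i < s.N → pe p i < s.N := by
    -- surjective map range N → range 16 covering range N must have all values in range N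
    intro i hi
    by_contra hcon
    have h1 : (Finset.range s.N) ⊆ ((Finset.range s.N).erase i).image (pe p) := by
      intro k hk
      obtain ⟨j, hj, hjk⟩ := hsurj k (Finset.mem_range.1 hk)
      refine Finset.mem_image.2 ⟨j, Finset.mem_erase.2 ⟨?_, Finset.mem_range.2 hj⟩, hjk⟩
      rintro rfl
      exact hcon (hjk ▸ Finset.mem_range.1 hk)
    have h2 := Finset.card_le_card h1
    have h3 := Finset.card_image_le (s := (Finset.range s.N).erase i) (f := pe p)
    rw [Finset.card_erase_of_mem (Finset.mem_range.2 hi), Finset.card_range] at h3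
    rw [Finset.card_range] at h2
    omega
  have hinj : ∀ i j, i < s.N → j < s.N → pe p i = pe p j → i = j := by
    have h1 : Set.InjOn (pe p) (Finset.range s.N : Finset ℕ) := by
      refine Finset.injOn_of_surjOn_of_card_le (t := Finset.range s.N) (pe p) ?_ ?_ (by simp)
      · intro i hi
        simp only [Finset.coe_range, Set.mem_Iio] at hi ⊢
        exact hlt i hi
      · intro i hi
        simp only [Finset.coe_range, Set.mem_Iio] at hi
        obtain ⟨j, hj, hji⟩ := hsurj i hi
        exact ⟨j, by simpa using hj, hji⟩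
    intro i j hi hj hij
    exact h1 (by simpa using hi) (by simpa using hj) hij
  have hadj : ∀ i j, i < s.N → j < s.N → i ≠ j →
      (G.Adj (f i) (f j) ↔ abs s.g i j = true) := by
    intro i j hi hj hij
    unfold abs
    by_cases h : i < j
    · rw [if_pos (by simpa [Nat.blt_eq] using h)]
      exact hR.adj i j h hj
    · rw [if_neg (by simpa [Nat.blt_eq] using h), G.adj_comm]
      exact hR.adj j i (by omega) hi
  have hfne : ∀ i j, i < s.N → j < s.N → i ≠ j → f i ≠ f j := by
    intro i j hi hj hij
    rcases Nat.lt_or_gt_of_ne hij with h | h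
    · exact hR.inj i j h hj
    · exact (hR.inj j i h hi).symm
  obtain ⟨hl, hs⟩ := setsOK_sound _ _ hsets
  have hset : ∀ k, k < t.S.length → X k = im (fun i => f (pe p i)) (qm (t.S.getD k 0)) := by
    intro k hk
    rw [hR.set k (by omega), hs k hk]
    have hsrt : srt (t.N - 1) (t.S.getD k 0) = true := by
      have h1 : t.S.getD k 0 ∈ t.S := by
        rw [List.getD_eq_getElem _ _ hk]
        exact List.getElem_mem hk
      exact hw4 _ h1
    ext x
    rw [mem_im_qm (by omega) hsrt, mem_im]
    constructor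
    · rintro ⟨i, hi, rfl⟩
      rw [mem_bits] at hi
      simp only [pq, Nat.testBit_or, Nat.testBit_two_pow, Bool.or_eq_true, decide_eq_true_eq] at hi
      rcases hi.2 with h | h | h | h
      · exact Or.inl (by rw [← h])
      · exact Or.inr (Or.inl (by rw [← h]))
      · exact Or.inr (Or.inr (Or.inl (by rw [← h])))
      · exact Or.inr (Or.inr (Or.inr (by rw [← h])))
    · have hb : ∀ i, (i = qa (t.S.getD k 0) ∨ i = qb (t.S.getD k 0) ∨ i = qc (t.S.getD k 0) ∨
          i = qd (t.S.getD k 0)) → pe p i ∈ bits (pq p (t.S.getD k 0)) := by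
        intro i hi
        rw [mem_bits]
        refine ⟨pe_lt _ _, ?_⟩
        simp only [pq, Nat.testBit_or, Nat.testBit_two_pow, Bool.or_eq_true, decide_eq_true_eq]
        rcases hi with h | h | h | h
        · exact Or.inl (by rw [← h])
        · exact Or.inr (Or.inl (by rw [← h]))
        · exact Or.inr (Or.inr (Or.inl (by rw [← h])))
        · exact Or.inr (Or.inr (Or.inr (by rw [← h])))
      rintro (h | h | h | h)
      · exact ⟨_, hb _ (Or.inl rfl), h.symm⟩
      · exact ⟨_, hb _ (Or.inr (Or.inl rfl)), h.symm⟩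
      · exact ⟨_, hb _ (Or.inr (Or.inr (Or.inl rfl))), h.symm⟩
      · exact ⟨_, hb _ (Or.inr (Or.inr (Or.inr rfl))), h.symm⟩
  have hbit := allOK_sound _ hall
  cases co with
  | false =>
    refine ht V G hG hGc (fun i => f (pe p i)) X ⟨?_, ?_, hset⟩ hX
    · intro i j hij hj
      refine hfne _ _ (hlt i (by omega)) (hlt j (by omega)) fun h => ?_
      have := hinj i j (by omega) (by omega) h
      omega
    · intro i j hij hj
      rw [hadj _ _ (hlt i (by omega)) (hlt j (by omega)) (fun h => by
        have := hinj i j (by omega) (by omega) h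
        omega), hbit i j hij (by omega)]
      simp
  | true =>
    refine ht V Gᶜ hGc (by rwa [compl_compl]) (fun i => f (pe p i)) X ⟨?_, ?_, hset⟩ hX.compl
    · intro i j hij hj
      refine hfne _ _ (hlt i (by omega)) (hlt j (by omega)) fun h => ?_
      have := hinj i j (by omega) (by omega) h
      omega
    · intro i j hij hj
      have hne : pe p i ≠ pe p j := fun h => by
        have := hinj i j (by omega) (by omega) h
        omega
      have hi' := hlt i (by omega)
      have hj' := hlt j (by omega)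
      rw [SimpleGraph.compl_adj, hadj _ _ hi' hj' hne, hbit i j hij (by omega)]
      constructor
      · rintro ⟨_, h⟩
        simpa using h
      · intro h
        exact ⟨hfne _ _ hi' hj' hne, by simpa using h⟩

end Pool.Agent.CW.Cert
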