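import Pool.Agent.CW.ModC2

/-! Refutation trees: the checker and its soundness. -/

set_option autoImplicit false

namespace Pool.Agent.CW.Cert

variable {V : Type}

/-- Refutation trees. -/
inductive T
  | br (j : ℕ) (a b : T)
  | vi (L : List ℕ)
  | sh (i j : ℕ) (L : List ℕ)
  | no
  | pk (a b c d : T)
  | iso (id p : ℕ) (co : Bool)

def T.isNo : T → Bool
  | .no => true
  | _ => false

/-- check of a shortcut. -/
def shc (sc : Sc) (n g r km : ℕ) (S : List ℕ) (i j : ℕ) (L : List ℕ) : Bool :=
  Nat.blt i S.length && (Nat.blt j S.length &&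
    (wlk n g r km (S.getD i 0) L && (Nat.beq (L.getLastD (S.getD i 0)) (S.getD j 0) &&
      sc.far.any (fun t => Nat.beq t.1 i && (Nat.beq t.2.1 j && Nat.blt L.length t.2.2)))))

def isoT (tab : List St) (s : St) (id p : ℕ) (co : Bool) : Bool :=
  match tab[id]? with
  | some t => isoOK s t p co
  | none => false

def c0 (n L : ℕ) : ℕ := mkq (qb L) (qc L) (qd L) n
def c1 (n L : ℕ) : ℕ := mkq (qa L) (qc L) (qd L) n
def c2 (n L : ℕ) : ℕ := mkq (qa L) (qb L) (qd L) n
def c3 (n L : ℕ) : ℕ := mkq (qa L) (qb L) (qc L) n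

/-- the checker for a partially known new vertex `n`. -/
def chk (sc : Sc) (tab : List St) (n g : ℕ) : T → List ℕ → Bool → ℕ → ℕ → Bool
  | .br j a b, S, pkd, r, km =>
    Nat.blt j n && (!(km.testBit j) && (!(r.testBit j) &&
      (chk sc tab n g a S pkd r (km ||| 2 ^ j) &&
        chk sc tab n g b S pkd (r ||| 2 ^ j) (km ||| 2 ^ j))))
  | .vi L, _, _, r, km => vchk n g r km L
  | .sh i j L, S, _, r, km => shc sc n g r km S i j L
  | .no, S, pkd, r, km =>
    !pkd && (noQ n g r km (c0 n (S.getD (sc.frm.getD S.length 0) 0)) &&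
      (noQ n g r km (c1 n (S.getD (sc.frm.getD S.length 0) 0)) &&
      (noQ n g r km (c2 n (S.getD (sc.frm.getD S.length 0) 0)) &&
      noQ n g r km (c3 n (S.getD (sc.frm.getD S.length 0) 0)))))
  | .pk a b c d, S, pkd, r, km =>
    !pkd && (
      (if a.isNo then noQ n g r km (c0 n (S.getD (sc.frm.getD S.length 0) 0))
        else chk sc tab n g a (S ++ [c0 n (S.getD (sc.frm.getD S.length 0) 0)]) true r km) && (
      (if b.isNo then noQ n g r km (c1 n (S.getD (sc.frm.getD S.length 0) 0))
        else chk sc tab n g b (S ++ [c1 n (S.getD (sc.frm.getD S.length 0) 0)]) true r km) && (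
      (if c.isNo then noQ n g r km (c2 n (S.getD (sc.frm.getD S.length 0) 0))
        else chk sc tab n g c (S ++ [c2 n (S.getD (sc.frm.getD S.length 0) 0)]) true r km) &&
      (if d.isNo then noQ n g r km (c3 n (S.getD (sc.frm.getD S.length 0) 0))
        else chk sc tab n g d (S ++ [c3 n (S.getD (sc.frm.getD S.length 0) 0)]) true r km))))
  | .iso id p co, S, pkd, r, km =>
    pkd && (Nat.beq km (2 ^ n - 1) &&
      isoT tab ⟨n + 1, g ||| (r <<< (n * (n - 1) / 2)), S⟩ id p co)

theorem shc_sound {G : SimpleGraph V} {sc : Sc} {n g r km : ℕ} {f : ℕ → V} {X : ℕ → Finset V}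
    (hn : n < 16) (hS : Sem G n g r km f) (hX : ScOK G sc X) {S : List ℕ}
    (hset : ∀ k, k < S.length → X k = im f (qm (S.getD k 0))) {i j : ℕ} {L : List ℕ}
    (h : shc sc n g r km S i j L = true) : False := by
  unfold shc at h
  rw [Bool.and_eq_true, Bool.and_eq_true, Bool.and_eq_true, Bool.and_eq_true,
    List.any_eq_true] at h
  obtain ⟨hi, hj, hw, hl, t, ht, ht'⟩ := h
  rw [Bool.and_eq_true, Bool.and_eq_true] at ht'
  obtain ⟨h1, h2, h3⟩ := ht'
  have h1 := Nat.eq_of_beq_eq_true h1
  have h2 := Nat.eq_of_beq_eq_true h2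
  have hl := Nat.eq_of_beq_eq_true hl
  rw [Nat.blt_eq] at hi hj h3
  obtain ⟨_, hwalk⟩ := wlk_sound hn hS L _ hw
  refine hX.far t ht L.length h3 ?_
  rw [h1, h2, hset i hi, hset j hj, ← hl]
  exact hwalk

theorem mkq_dec {a b c d : ℕ} (ha : a < 16) (hb : b < 16) (hc : c < 16) :
    qa (mkq a b c d) = a ∧ qb (mkq a b c d) = b ∧ qc (mkq a b c d) = c ∧ qd (mkq a b c d) = d := by
  simp only [mkq, qa, qb, qc, qd]
  omega

theorem ix_lt {i j n : ℕ} (hij : i < j) (hj : j < n) : ix i j < n * (n - 1) / 2 := by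
  unfold ix
  have h1 : j * (j - 1) / 2 + j ≤ n * (n - 1) / 2 := by
    obtain ⟨m, rfl⟩ : ∃ m, j = m + 1 := ⟨j - 1, by omega⟩
    obtain ⟨l, rfl⟩ : ∃ l, n = m + 2 + l := ⟨n - m - 2, by omega⟩
    have e1 : (m + 1) * (m + 1 - 1) / 2 + (m + 1) = ((m + 1) * m + (m + 1) * 2) / 2 := by
      rw [Nat.add_mul_div_right _ _ (by norm_num)]
      simp
    rw [e1]
    apply Nat.div_le_div_right
    have : m + 2 + l - 1 = m + 1 + l := by omega
    rw [this]
    nlinarith
  omega

/-- Soundness for the new vertex. -/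
theorem chk_sound {sc : Sc} {tab : List St} (htab : ∀ t ∈ tab, Refd sc t) {G : SimpleGraph V}
    (hG : Star G) (hGc : Star Gᶜ) {n g : ℕ} (hn : n < 15) (hg : g < 2 ^ (n * (n - 1) / 2))
    {f : ℕ → V} {X : ℕ → Finset V} (hX : ScOK G sc X) : ∀ (t : T) (S : List ℕ) (pkd : Bool)
    (r km : ℕ), Sem G n g r km f →
    (∀ k, k < S.length → X k = im f (qm (S.getD k 0))) →
    (pkd = false → 0 < S.length ∧ S.length < sc.frm.length ∧
      sc.frm.getD S.length 0 < S.length ∧
      srt (n - 1) (S.getD (sc.frm.getD S.length 0) 0) = true ∧ 0 < n ∧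
      ∃ i, (i = qa (S.getD (sc.frm.getD S.length 0) 0) ∨
        i = qb (S.getD (sc.frm.getD S.length 0) 0) ∨
        i = qc (S.getD (sc.frm.getD S.length 0) 0) ∨
        i = qd (S.getD (sc.frm.getD S.length 0) 0)) ∧
        ∀ z, z ∈ X S.length ↔ z = f n ∨ (z ∈ X (sc.frm.getD S.length 0) ∧ z ≠ f i)) →
    chk sc tab n g t S pkd r km = true → False := by
  have hn' : n < 16 := by omega
  -- the four candidates
  have cand : ∀ (S : List ℕ) (r km : ℕ), Sem G n g r km f →
      (∀ k, k < S.length → X k = im f (qm (S.getD k 0))) →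
      (0 < S.length ∧ S.length < sc.frm.length ∧
      sc.frm.getD S.length 0 < S.length ∧
      srt (n - 1) (S.getD (sc.frm.getD S.length 0) 0) = true ∧ 0 < n ∧
      ∃ i, (i = qa (S.getD (sc.frm.getD S.length 0) 0) ∨
        i = qb (S.getD (sc.frm.getD S.length 0) 0) ∨
        i = qc (S.getD (sc.frm.getD S.length 0) 0) ∨
        i = qd (S.getD (sc.frm.getD S.length 0) 0)) ∧
        ∀ z, z ∈ X S.length ↔ z = f n ∨ (z ∈ X (sc.frm.getD S.length 0) ∧ z ≠ f i)) →
      IsP4 G (X S.length) ∧ ∃ q, (q = c0 n (S.getD (sc.frm.getD S.length 0) 0) ∨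
        q = c1 n (S.getD (sc.frm.getD S.length 0) 0) ∨
        q = c2 n (S.getD (sc.frm.getD S.length 0) 0) ∨
        q = c3 n (S.getD (sc.frm.getD S.length 0) 0)) ∧ X S.length = im f (qm q) := by
    intro S r km hSem hset ⟨h1, h2, h3, h4, h5, i, hi, hz⟩
    refine ⟨(hX.adj _ h1 h2).2.1, ?_⟩
    set L := S.getD (sc.frm.getD S.length 0) 0 with hL
    have hs4 := srt_iff.1 h4
    have hXL : X (sc.frm.getD S.length 0) = im f (qm L) := hset _ h3
    have hmemL : ∀ z, z ∈ im f (qm L) ↔ z = f (qa L) ∨ z = f (qb L) ∨ z = f (qc L) ∨ z = f (qd L) :=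
      mem_im_qm (by omega) h4 f
    have hne : ∀ i j, i < n → j < n → i ≠ j → f i ≠ f j := fun i j hi hj hij e =>
      hij (hSem.injOn i j (by omega) (by omega) e)
    -- generic step
    have gen : ∀ a b c e : ℕ, a < b → b < c → c < n → e < n → e ≠ a → e ≠ b → e ≠ c →
        (∀ z, z ∈ im f (qm L) ↔ z = f e ∨ z = f a ∨ z = f b ∨ z = f c) → i = e →
        X S.length = im f (qm (mkq a b c n)) := by
      intro a b c e hab hbc hcn he h1 h2 h3 hm hie
      obtain ⟨d1, d2, d3, d4⟩ := mkq_dec (a := a) (b := b) (c := c) (d := n) (by omega)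
        (by omega) (by omega)
      have hsq : srt n (mkq a b c n) = true := by
        rw [srt_iff, d1, d2, d3, d4]
        omega
      ext z
      rw [hz, hXL, hm, mem_im_qm hn' hsq, d1, d2, d3, d4, hie]
      have n1 := hne a e (by omega) he (Ne.symm h1)
      have n2 := hne b e (by omega) he (Ne.symm h2)
      have n3 := hne c e (by omega) he (Ne.symm h3)
      constructor
      · rintro (h | ⟨h | h | h | h, h'⟩)
        · exact Or.inr (Or.inr (Or.inr h))
        · exact absurd h h'
        · exact Or.inl h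
        · exact Or.inr (Or.inl h)
        · exact Or.inr (Or.inr (Or.inl h))
      · rintro (h | h | h | h)
        · exact Or.inr ⟨Or.inr (Or.inl h), by rw [h]; exact n1⟩
        · exact Or.inr ⟨Or.inr (Or.inr (Or.inl h)), by rw [h]; exact n2⟩
        · exact Or.inr ⟨Or.inr (Or.inr (Or.inr h)), by rw [h]; exact n3⟩
        · exact Or.inl h
    rcases hi with hi | hi | hi | hi
    · exact ⟨_, Or.inl rfl, gen (qb L) (qc L) (qd L) (qa L) (by omega) (by omega) (by omega)
        (by omega) (by omega) (by omega) (by omega) hmemL hi⟩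
    · exact ⟨_, Or.inr (Or.inl rfl), gen (qa L) (qc L) (qd L) (qb L) (by omega) (by omega)
        (by omega) (by omega) (by omega) (by omega) (by omega)
        (fun z => (hmemL z).trans or4_2) hi⟩
    · exact ⟨_, Or.inr (Or.inr (Or.inl rfl)), gen (qa L) (qb L) (qd L) (qc L) (by omega)
        (by omega) (by omega) (by omega) (by omega) (by omega) (by omega)
        (fun z => (hmemL z).trans or4_3) hi⟩
    · exact ⟨_, Or.inr (Or.inr (Or.inr rfl)), gen (qa L) (qb L) (qc L) (qd L) (by omega)
        (by omega) (by omega) (by omega) (by omega) (by omega) (by omega)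
        (fun z => (hmemL z).trans or4_4) hi⟩
  have snoc : ∀ (S : List ℕ) (q : ℕ), (∀ k, k < S.length → X k = im f (qm (S.getD k 0))) →
      X S.length = im f (qm q) → ∀ k, k < (S ++ [q]).length →
      X k = im f (qm ((S ++ [q]).getD k 0)) := by
    intro S q h1 h2 k hk
    rw [List.length_append, List.length_singleton] at hk
    rcases Nat.lt_succ_iff_lt_or_eq.1 hk with hk | rfl
    · rw [h1 k hk, List.getD_append _ _ _ _ hk]
    · rw [h2, List.getD_append_right _ _ _ _ (le_refl _)]
      simp
  intro t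
  induction t with
  | br j a b iha ihb =>
    intro S pkd r km hSem hset hpk h
    rw [chk, Bool.and_eq_true, Bool.and_eq_true, Bool.and_eq_true, Bool.and_eq_true] at h
    obtain ⟨hj, hkj, hrj, ha, hb⟩ := h
    rw [Nat.blt_eq] at hj
    rw [Bool.not_eq_true'] at hkj hrj
    by_cases hadj : G.Adj (f j) (f n)
    · refine ihb S pkd _ _ ⟨hSem.inj, hSem.adj, fun i hi hk => ?_⟩ hset hpk hb
      rw [Nat.testBit_or, Nat.testBit_two_pow, Bool.or_eq_true, decide_eq_true_eq] at hk
      rw [Nat.testBit_or, Nat.testBit_two_pow]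
      by_cases hij : j = i
      · subst hij
        simp [hadj]
      · rw [hSem.adjn i hi (by rcases hk with hk | hk; exact hk; exact absurd hk hij)]
        simp [hij]
    · refine iha S pkd _ _ ⟨hSem.inj, hSem.adj, fun i hi hk => ?_⟩ hset hpk ha
      rw [Nat.testBit_or, Nat.testBit_two_pow, Bool.or_eq_true, decide_eq_true_eq] at hk
      by_cases hij : j = i
      · subst hij
        simp [hadj, hrj]
      · exact hSem.adjn i hi (by rcases hk with hk | hk; exact hk; exact absurd hk hij)
  | vi L =>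
    intro S pkd r km hSem hset hpk h
    exact vchk_sound hG hn' hSem L h
  | sh i j L =>
    intro S pkd r km hSem hset hpk h
    exact shc_sound hn' hSem hX hset h
  | no =>
    intro S pkd r km hSem hset hpk h
    rw [chk, Bool.and_eq_true, Bool.and_eq_true, Bool.and_eq_true, Bool.and_eq_true,
      Bool.not_eq_true'] at h
    obtain ⟨hp, h0, h1, h2, h3⟩ := h
    obtain ⟨hP, q, hq, hXq⟩ := cand S r km hSem hset (hpk hp)
    rw [hXq] at hP
    rcases hq with rfl | rfl | rfl | rfl
    · exact noQ_sound hn' hSem h0 hP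
    · exact noQ_sound hn' hSem h1 hP
    · exact noQ_sound hn' hSem h2 hP
    · exact noQ_sound hn' hSem h3 hP
  | pk a b c d iha ihb ihc ihd =>
    intro S pkd r km hSem hset hpk h
    rw [chk, Bool.and_eq_true, Bool.and_eq_true, Bool.and_eq_true, Bool.and_eq_true,
      Bool.not_eq_true'] at h
    obtain ⟨hp, h0, h1, h2, h3⟩ := h
    obtain ⟨hP, q, hq, hXq⟩ := cand S r km hSem hset (hpk hp)
    have key : ∀ t : T, (∀ (S : List ℕ) (pkd : Bool)
        (r km : ℕ), Sem G n g r km f →
        (∀ k, k < S.length → X k = im f (qm (S.getD k 0))) →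
        (pkd = false → 0 < S.length ∧ S.length < sc.frm.length ∧
          sc.frm.getD S.length 0 < S.length ∧
          srt (n - 1) (S.getD (sc.frm.getD S.length 0) 0) = true ∧ 0 < n ∧
          ∃ i, (i = qa (S.getD (sc.frm.getD S.length 0) 0) ∨
            i = qb (S.getD (sc.frm.getD S.length 0) 0) ∨
            i = qc (S.getD (sc.frm.getD S.length 0) 0) ∨
            i = qd (S.getD (sc.frm.getD S.length 0) 0)) ∧
            ∀ z, z ∈ X S.length ↔ z = f n ∨ (z ∈ X (sc.frm.getD S.length 0) ∧ z ≠ f i)) →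
        chk sc tab n g t S pkd r km = true → False) →
        (if t.isNo then noQ n g r km q else chk sc tab n g t (S ++ [q]) true r km) = true →
        False := by
      intro t iht h
      by_cases hno : t.isNo = true
      · rw [if_pos hno] at h
        rw [hXq] at hP
        exact noQ_sound hn' hSem h hP
      · rw [if_neg hno] at h
        exact iht (S ++ [q]) true r km hSem (snoc S q hset hXq) (by simp) h
    rcases hq with rfl | rfl | rfl | rfl
    · exact key a iha h0
    · exact key b ihb h1
    · exact key c ihc h2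
    · exact key d ihd h3
  | iso id p co =>
    intro S pkd r km hSem hset hpk h
    rw [chk, Bool.and_eq_true, Bool.and_eq_true] at h
    obtain ⟨hp, hkm, hiso⟩ := h
    have hkm := Nat.eq_of_beq_eq_true hkm
    unfold isoT at hiso
    cases htid : tab[id]? with
    | none => rw [htid] at hiso; simp at hiso
    | some t =>
      rw [htid] at hiso
      have hmem : t ∈ tab := List.mem_of_getElem? htid
      have hR := isoOK_sound hiso (htab t hmem)
      refine hR V G hG hGc f X ⟨?_, ?_, hset⟩ hX
      · intro i j hij hj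
        exact hSem.inj i j hij (by simp only at hj; omega)
      · intro i j hij hj
        simp only at hj ⊢
        rcases Nat.lt_succ_iff_lt_or_eq.1 hj with hj | rfl
        · rw [hSem.adj i j hij hj]
          have hlt := ix_lt hij hj
          unfold ab
          rw [Nat.testBit_or, Nat.testBit_shiftLeft]
          have : decide (ix i j ≥ n * (n - 1) / 2) = false := by
            rw [decide_eq_false_iff_not]; omega
          rw [this, Bool.false_and, Bool.or_false]
        · rw [hSem.adjn i hij (by rw [hkm, Nat.testBit_two_pow_sub_one]; simpa using hij)]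
          unfold ab ix
          rw [Nat.testBit_or, Nat.testBit_shiftLeft]
          have h1 : decide (j * (j - 1) / 2 + i ≥ j * (j - 1) / 2) = true := by
            rw [decide_eq_true_eq]; omega
          have h2 : g.testBit (j * (j - 1) / 2 + i) = false :=
            Nat.testBit_lt_two_pow (lt_of_lt_of_le hg (Nat.pow_le_pow_right (by norm_num) (by omega)))
          rw [h1, h2, Bool.true_and, Bool.false_or]
          congr! 2
          omega

/-! ### Old vertices -/

def inc (a b c y : ℕ) : ℕ :=
  if Nat.blt y a = true then mkq y a b c else if Nat.blt y b = true then mkq a y b c else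
    if Nat.blt y c = true then mkq a b y c else mkq a b c y

def candY (a b c L : ℕ) : ℕ → List ℕ
  | 0 => []
  | y + 1 => if (qm L).testBit y = true then candY a b c L y else inc a b c y :: candY a b c L y

def cands (N L : ℕ) : List ℕ :=
  candY (qb L) (qc L) (qd L) L N ++ (candY (qa L) (qc L) (qd L) L N ++
    (candY (qa L) (qb L) (qd L) L N ++ candY (qa L) (qb L) (qc L) L N))

def chkO (sc : Sc) (tab : List St) (s : St) (q : ℕ) : T → Bool
  | .no => noQ (s.N - 1) s.g s.r (2 ^ (s.N - 1) - 1) q
  | .sh i j L => shc sc (s.N - 1) s.g s.r (2 ^ (s.N - 1) - 1) (s.S ++ [q]) i j L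
  | .iso id p co => isoT tab ⟨s.N, s.g, s.S ++ [q]⟩ id p co
  | _ => false

def oldOK (sc : Sc) (tab : List St) (s : St) : List ℕ → List T → Bool
  | [], [] => true
  | q :: L, t :: ts => chkO sc tab s q t && oldOK sc tab s L ts
  | _, _ => false

/-- A table entry: a state with its refutation. -/
structure En where
  s : St
  old : List T
  nw : T

def enOK (sc : Sc) (tab : List St) (e : En) : Bool :=
  e.s.wf && (Nat.blt e.s.N 15 && (Nat.blt 0 e.s.S.length && (Nat.blt e.s.S.length sc.frm.length &&
    (Nat.blt (sc.frm.getD e.s.S.length 0) e.s.S.length &&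
    (oldOK sc tab e.s (cands e.s.N (e.s.S.getD (sc.frm.getD e.s.S.length 0) 0)) e.old &&
      chk sc tab e.s.N e.s.g e.nw e.s.S false 0 0)))))

theorem oldOK_sound {sc : Sc} {tab : List St} {s : St} : ∀ (L : List ℕ) (ts : List T),
    oldOK sc tab s L ts = true → ∀ q ∈ L, ∃ t, chkO sc tab s q t = true := by
  intro L
  induction L with
  | nil => intro ts _ q hq; simp at hq
  | cons a L ih =>
    intro ts h q hq
    cases ts with
    | nil => simp [oldOK] at h
    | cons t ts =>
      rw [oldOK, Bool.and_eq_true] at h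
      rcases List.mem_cons.1 hq with rfl | hq
      · exact ⟨t, h.1⟩
      · exact ih ts h.2 q hq

theorem mem_candY {a b c L : ℕ} {y : ℕ} (hy : (qm L).testBit y = false) : ∀ N, y < N →
    inc a b c y ∈ candY a b c L N := by
  intro N
  induction N with
  | zero => intro h; omega
  | succ N ih =>
    intro h
    rw [candY]
    rcases Nat.lt_succ_iff_lt_or_eq.1 h with h | rfl
    · split_ifs
      · exact ih h
      · exact List.mem_cons_of_mem _ (ih h)
    · rw [if_neg (by rw [hy]; simp)]
      exact List.mem_cons_self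

/-- decoding of `inc`. -/
theorem inc_spec {a b c y n : ℕ} (hn : n < 16) (hab : a < b) (hbc : b < c) (hc : c ≤ n)
    (hy : y ≤ n) (h1 : y ≠ a) (h2 : y ≠ b) (h3 : y ≠ c) :
    srt n (inc a b c y) = true ∧ ∀ (f : ℕ → V) (z : V),
      z ∈ im f (qm (inc a b c y)) ↔ z = f y ∨ z = f a ∨ z = f b ∨ z = f c := by
  have gen : ∀ p q r s : ℕ, p < q → q < r → r < s → s ≤ n → srt n (mkq p q r s) = true ∧
      ∀ (f : ℕ → V) (z : V),
      z ∈ im f (qm (mkq p q r s)) ↔ z = f p ∨ z = f q ∨ z = f r ∨ z = f s := by
    intro p q r s hpq hqr hrs hsn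
    obtain ⟨d1, d2, d3, d4⟩ := mkq_dec (a := p) (b := q) (c := r) (d := s) (by omega)
      (by omega) (by omega)
    have hs : srt n (mkq p q r s) = true := by
      rw [srt_iff, d1, d2, d3, d4]; omega
    refine ⟨hs, fun f z => ?_⟩
    rw [mem_im_qm hn hs, d1, d2, d3, d4]
  unfold inc
  simp only [Nat.blt_eq]
  split_ifs with k1 k2 k3
  · exact gen y a b c k1 hab hbc hc
  · obtain ⟨g1, g2⟩ := gen a y b c (by omega) k2 hbc hc
    exact ⟨g1, fun f z => (g2 f z).trans or4_2⟩
  · obtain ⟨g1, g2⟩ := gen a b y c hab (by omega) k3 hc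
    exact ⟨g1, fun f z => (g2 f z).trans or4_3⟩
  · obtain ⟨g1, g2⟩ := gen a b c y hab hbc (by omega) hy
    exact ⟨g1, fun f z => (g2 f z).trans or4_4⟩

theorem Real.sem {G : SimpleGraph V} {s : St} {f : ℕ → V} {X : ℕ → Finset V}
    (h : Real G s f X) (hN : 1 < s.N) : Sem G (s.N - 1) s.g s.r (2 ^ (s.N - 1) - 1) f := by
  refine ⟨fun i j hij hj => h.inj i j hij (by omega), fun i j hij hj => h.adj i j hij (by omega),
    fun i hi _ => ?_⟩
  rw [h.adj i (s.N - 1) hi (by omega)]
  unfold ab ix St.r
  rw [Nat.testBit_div_two_pow]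
  have : s.N - 1 - 1 = s.N - 2 := by omega
  rw [this, Nat.add_comm]

theorem enOK_sound {sc : Sc} {tab : List St} (htab : ∀ t ∈ tab, Refd sc t) {e : En}
    (h : enOK sc tab e = true) : Refd sc e.s := by
  classical
  intro V G hG hGc f X hR hX
  rw [enOK, Bool.and_eq_true, Bool.and_eq_true, Bool.and_eq_true, Bool.and_eq_true,
    Bool.and_eq_true, Bool.and_eq_true] at h
  obtain ⟨hwf, hN, hk0, hk, hfrm, hold, hnw⟩ := h
  rw [Nat.blt_eq] at hN hk0 hk hfrm
  simp only [St.wf, Bool.and_eq_true, Nat.blt_eq, List.all_eq_true] at hwf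
  obtain ⟨hw1, hw2, hw3, hw4⟩ := hwf
  set k := e.s.S.length with hkdef
  set L := e.s.S.getD (sc.frm.getD k 0) 0 with hLdef
  obtain ⟨hP1, hP2, x, y, hx, hy, hz⟩ := hX.adj k hk0 hk
  have hXL : X (sc.frm.getD k 0) = im f (qm L) := hR.set _ hfrm
  have hsL : srt (e.s.N - 1) L = true := by
    have h1 : L ∈ e.s.S := by
      rw [hLdef, List.getD_eq_getElem _ _ hfrm]
      exact List.getElem_mem hfrm
    exact hw4 _ h1
  have hs4 := srt_iff.1 hsL
  have hmemL : ∀ z, z ∈ im f (qm L) ↔ z = f (qa L) ∨ z = f (qb L) ∨ z = f (qc L) ∨ z = f (qd L) :=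
    mem_im_qm (by omega) hsL f
  have hne : ∀ i j, i < e.s.N → j < e.s.N → i ≠ j → f i ≠ f j := by
    intro i j hi hj hij
    rcases Nat.lt_or_gt_of_ne hij with h | h
    · exact hR.inj i j h hj
    · exact (hR.inj j i h hi).symm
  rw [hXL] at hx hy hz
  have hx' := (hmemL x).1 hx
  have hi : ∃ i, (i = qa L ∨ i = qb L ∨ i = qc L ∨ i = qd L) ∧ x = f i := by
    rcases hx' with h | h | h | h
    · exact ⟨_, Or.inl rfl, h⟩
    · exact ⟨_, Or.inr (Or.inl rfl), h⟩
    · exact ⟨_, Or.inr (Or.inr (Or.inl rfl)), h⟩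
    · exact ⟨_, Or.inr (Or.inr (Or.inr rfl)), h⟩
  obtain ⟨i, hi, hxi⟩ := hi
  by_cases hyold : ∃ j, j < e.s.N ∧ y = f j
  · -- old vertex
    obtain ⟨j, hj, rfl⟩ := hyold
    have hjL : (qm L).testBit j = false := by
      rw [Bool.eq_false_iff]
      intro hcon
      exact hy (mem_im.2 ⟨j, mem_bits.2 ⟨by omega, hcon⟩, rfl⟩)
    have hjne : j ≠ qa L ∧ j ≠ qb L ∧ j ≠ qc L ∧ j ≠ qd L := by
      refine ⟨?_, ?_, ?_, ?_⟩ <;> rintro rfl <;> apply hy <;> rw [hmemL] <;> simp
    have gen : ∀ a b c d : ℕ, a < b → b < c → c < e.s.N → d < e.s.N → j ≠ a → j ≠ b → j ≠ c →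
        d ≠ a → d ≠ b → d ≠ c →
        (∀ z, z ∈ im f (qm L) ↔ z = f d ∨ z = f a ∨ z = f b ∨ z = f c) → i = d →
        X k = im f (qm (inc a b c j)) := by
      intro a b c d hab hbc hc hd j1 j2 j3 d1 d2 d3 hm hid
      obtain ⟨_, hinc⟩ := inc_spec (V := V) (n := e.s.N - 1) (by omega) hab hbc (by omega)
        (by omega : j ≤ e.s.N - 1) j1 j2 j3
      ext z
      rw [hz, hm, hinc, hxi, hid]
      have n1 := hne a d (by omega) hd (Ne.symm d1)
      have n2 := hne b d (by omega) hd (Ne.symm d2)
      have n3 := hne c d (by omega) hd (Ne.symm d3)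
      constructor
      · rintro (h | ⟨h | h | h | h, h'⟩)
        · exact Or.inl h
        · exact absurd h h'
        · exact Or.inr (Or.inl h)
        · exact Or.inr (Or.inr (Or.inl h))
        · exact Or.inr (Or.inr (Or.inr h))
      · rintro (h | h | h | h)
        · exact Or.inl h
        · exact Or.inr ⟨Or.inr (Or.inl h), by rw [h]; exact n1⟩
        · exact Or.inr ⟨Or.inr (Or.inr (Or.inl h)), by rw [h]; exact n2⟩
        · exact Or.inr ⟨Or.inr (Or.inr (Or.inr h)), by rw [h]; exact n3⟩
    have hq : ∃ q ∈ cands e.s.N L, X k = im f (qm q) := by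
      rcases hi with hi | hi | hi | hi
      · refine ⟨inc (qb L) (qc L) (qd L) j, ?_, gen (qb L) (qc L) (qd L) (qa L) (by omega)
          (by omega) (by omega) (by omega) (by omega) (by omega) (by omega) (by omega) (by omega)
          (by omega) hmemL hi⟩
        exact List.mem_append_left _ (mem_candY hjL _ hj)
      · refine ⟨inc (qa L) (qc L) (qd L) j, ?_, gen (qa L) (qc L) (qd L) (qb L) (by omega)
          (by omega) (by omega) (by omega) (by omega) (by omega) (by omega) (by omega) (by omega)
          (by omega) (fun z => (hmemL z).trans or4_2) hi⟩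
        exact List.mem_append_right _ (List.mem_append_left _ (mem_candY hjL _ hj))
      · refine ⟨inc (qa L) (qb L) (qd L) j, ?_, gen (qa L) (qb L) (qd L) (qc L) (by omega)
          (by omega) (by omega) (by omega) (by omega) (by omega) (by omega) (by omega) (by omega)
          (by omega) (fun z => (hmemL z).trans or4_3) hi⟩
        exact List.mem_append_right _ (List.mem_append_right _ (List.mem_append_left _
          (mem_candY hjL _ hj)))
      · refine ⟨inc (qa L) (qb L) (qc L) j, ?_, gen (qa L) (qb L) (qc L) (qd L) (by omega)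
          (by omega) (by omega) (by omega) (by omega) (by omega) (by omega) (by omega) (by omega)
          (by omega) (fun z => (hmemL z).trans or4_4) hi⟩
        exact List.mem_append_right _ (List.mem_append_right _ (List.mem_append_right _
          (mem_candY hjL _ hj)))
    obtain ⟨q, hqm, hXq⟩ := hq
    obtain ⟨t, ht⟩ := oldOK_sound _ _ hold q hqm
    have hset' : ∀ k', k' < (e.s.S ++ [q]).length →
        X k' = im f (qm ((e.s.S ++ [q]).getD k' 0)) := by
      intro k' hk'
      rw [List.length_append, List.length_singleton] at hk'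
      rcases Nat.lt_succ_iff_lt_or_eq.1 hk' with hk' | rfl
      · rw [hR.set k' hk', List.getD_append _ _ _ _ hk']
      · rw [← hkdef, hXq, List.getD_append_right _ _ _ _ (le_refl _)]
        simp
    cases t with
    | no =>
      rw [chkO] at ht
      rw [hXq] at hP2
      exact noQ_sound (by omega) (hR.sem hw1) ht hP2
    | sh i' j' L' =>
      rw [chkO] at ht
      exact shc_sound (by omega) (hR.sem hw1) hX hset' ht
    | iso id p co =>
      rw [chkO] at ht
      unfold isoT at ht
      cases htid : tab[id]? with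
      | none => rw [htid] at ht; simp at ht
      | some t =>
        rw [htid] at ht
        have hmem : t ∈ tab := List.mem_of_getElem? htid
        exact isoOK_sound ht (htab t hmem) V G hG hGc f X ⟨hR.inj, hR.adj, hset'⟩ hX
    | br j a b => simp [chkO] at ht
    | vi L => simp [chkO] at ht
    | pk a b c d => simp [chkO] at ht
  · -- new vertex
    have hyne : ∀ j, j < e.s.N → f j ≠ y := fun j hj e' => hyold ⟨j, hj, e'.symm⟩
    have hf' : ∀ j, j < e.s.N → Function.update f e.s.N y j = f j := fun j hj =>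
      Function.update_of_ne (by omega) _ _
    have him : ∀ q, srt (e.s.N - 1) q = true → im (Function.update f e.s.N y) (qm q) =
        im f (qm q) := by
      intro q hq
      have hq4 := srt_iff.1 hq
      ext z
      rw [mem_im_qm (by omega) hq, mem_im_qm (by omega) hq, hf' _ (by omega), hf' _ (by omega),
        hf' _ (by omega), hf' _ (by omega)]
    refine chk_sound htab hG hGc hN hw3 (f := Function.update f e.s.N y) hX e.nw e.s.S false 0 0
      ⟨?_, ?_, ?_⟩ ?_ ?_ hnw
    · intro i j hij hj
      rcases Nat.lt_or_eq_of_le hj with hj | rfl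
      · rw [hf' i (by omega), hf' j hj]
        exact hR.inj i j hij hj
      · rw [hf' i hij, Function.update_self]
        exact hyne i hij
    · intro i j hij hj
      rw [hf' i (by omega), hf' j hj]
      exact hR.adj i j hij hj
    · intro i _ hcon
      simp at hcon
    · intro k' hk'
      rw [hR.set k' hk', him]
      have h1 : e.s.S.getD k' 0 ∈ e.s.S := by
        rw [List.getD_eq_getElem _ _ hk']
        exact List.getElem_mem hk'
      exact hw4 _ h1
    · intro _
      refine ⟨hk0, hk, hfrm, hsL, by omega, i, hi, fun z => ?_⟩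
      rw [Function.update_self, hz, hXL, hxi, hf' i (by omega)]

/-- one level of the table. -/
def levOK (sc : Sc) (tab : List St) (es : List En) : Bool := es.all (enOK sc tab)

theorem levOK_sound {sc : Sc} {tab : List St} {es : List En} (htab : ∀ t ∈ tab, Refd sc t)
    (h : levOK sc tab es = true) : ∀ t ∈ es.map En.s, Refd sc t := by
  intro t ht
  obtain ⟨e, he, rfl⟩ := List.mem_map.1 ht
  rw [levOK, List.all_eq_true] at h
  exact enOK_sound htab (h e he)

end Pool.Agent.CW.Cert
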