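import Pool.Agent.CW.ModC3

/-! Certificate data for `geo_unique` (generated): the search tree for two geodesics of
length four with the same first edge. -/

set_option autoImplicit false
set_option maxRecDepth 100000

namespace Pool.Agent.CW.Cert.G1

open T

/-- the script: sets `0..4` and `0, 1, 5, 6, 7` are two geodesics. -/
def sc : Sc :=
  ⟨[0, 0, 1, 2, 3, 1, 5, 6], [(0, 1, 1), (0, 2, 2), (0, 3, 3), (0, 4, 4), (1, 2, 1), (1, 3, 2),
  (1, 4, 3), (2, 3, 1), (2, 4, 2), (3, 4, 1), (0, 5, 2), (0, 6, 3), (0, 7, 4), (1, 5, 1), (1, 6,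
   2), (1, 7, 3), (5, 6, 1), (5, 7, 2), (6, 7, 1), (2, 5, 1)]⟩

def e1_0 : En :=
  ⟨⟨4, 37, [12816]⟩, [], (.br 0 (.br 1 (.br 2 (.br 3 .no (.pk (.iso 0 143680 false) .no .no
  .no)) (.br 3 (.pk .no .no .no (.iso 1 66115 false)) (.pk .no .no .no (.iso 2 66115 false))))
  (.br 2 (.br 3 (.pk (.iso 1 143680 false) .no .no .no) (.pk .no .no (.iso 2 200770 true) .no))
  (.br 3 .no (.pk .no .no (.iso 1 200770 true) .no)))) (.br 1 (.br 2 (.br 3 (.pk .no .no .no
  (.iso 0 66115 false)) (.vi [12816,16912,17168,17184])) (.br 3 (.pk .no (.iso 2 9025 true) .no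
  .no) (.pk .no .no (.iso 0 200770 true) .no))) (.br 2 (.br 3 (.pk (.iso 2 143680 false) .no
  .no .no) (.pk .no (.iso 0 9025 true) .no .no)) (.br 3 (.pk .no (.iso 1 9025 true) .no .no)
  .no))))⟩

def L1 : List En :=
  [e1_0]

def e2_0 : En :=
  ⟨⟨5, 786, [17184,17185]⟩, [.sh 0 2 [],.no,.no,.no], (.br 1 (.br 2 (.br 3 (.br 4 .no (.pk .no
  (.br 0 (.iso 0 3413280 false) (.iso 1 3413280 false)) .no .no)) (.br 4 (.pk (.sh 0 2 [21554])
  .no .no .no) .no)) (.br 3 (.br 4 (.pk (.sh 0 2 [21554]) .no .no .no) (.pk .no (.br 0 (.iso 2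
  3413280 false) (.iso 3 3413280 false)) .no .no)) (.br 4 (.pk .no .no .no (.br 0 (.iso 4
  3282240 false) (.vi [17184,17185,21264,21552,21281]))) (.pk .no .no .no (.br 0 (.iso 5
  3282240 false) (.iso 6 3282240 false)))))) (.br 2 (.br 3 (.br 4 (.pk .no (.br 0 (.iso 7
  3413280 false) (.vi [17184,17185,21008,21264,21536])) .no .no) (.pk .no .no (.br 0 (.iso 8
  4330800 false) (.vi [17184,17185,21008,21264,21552])) .no)) (.br 4 (.pk (.sh 0 2 [21554]) .no
  .no .no) (.pk .no .no (.br 0 (.iso 9 4330800 false) (.vi [17184,17185,21008,21280,21537]))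
  .no))) (.br 3 (.br 4 (.vi [17185,21281,21537,21553]) (.pk .no .no .no (.br 0 (.iso 10 3282240
  false) (.vi [17184,17185,21264,21552,21281])))) (.br 4 (.pk .no .no (.br 0 (.vi [17184,17185,
  21008,21280,21537]) (.iso 11 4330800 false)) .no) .no))))⟩

def e2_1 : En :=
  ⟨⟨5, 774, [17184,17185]⟩, [.sh 0 2 [],.no,.no,.no], (.br 1 (.br 2 (.br 3 (.br 4 .no (.pk .no
  .no (.br 0 (.iso 12 4330800 false) (.vi [17184,17185,21008,21552,21537])) .no)) (.br 4 (.pk
  (.sh 0 2 [21554]) .no .no .no) (.pk .no .no (.br 0 (.iso 13 4330800 false) (.vi [17184,17185,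
  21008,21280,21537])) .no))) (.br 3 (.br 4 (.pk (.sh 0 2 [21554]) .no .no .no) .no) (.br 4
  (.pk .no .no .no (.br 0 (.iso 14 3282240 false) (.iso 15 3282240 false))) (.pk .no .no .no
  (.br 0 (.iso 16 3282240 false) (.iso 17 3282240 false)))))) (.br 2 (.br 3 (.br 4 (.pk .no .no
  (.br 0 (.iso 18 4330800 false) (.iso 19 4330800 false)) .no) (.pk .no (.br 0 (.vi [17184,
  17185,21008,21536,21553]) (.iso 20 3413280 false)) .no .no)) (.br 4 (.vi [17185,21281,21537,
  21553]) (.pk .no .no .no (.br 0 (.vi [17184,17185,21008,21536,21281]) (.iso 21 3282240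
  false))))) (.br 3 (.br 4 (.pk (.sh 0 2 [21554]) .no .no .no) (.pk .no (.br 0 (.iso 22 3413280
  false) (.iso 23 3413280 false)) .no .no)) (.br 4 (.pk .no (.br 0 (.iso 24 3413280 false)
  (.iso 25 3413280 false)) .no .no) .no))))⟩

def e2_2 : En :=
  ⟨⟨5, 775, [17184,17185]⟩, [.sh 0 2 [],.no,.no,.no], (.br 1 (.br 2 (.br 3 (.br 4 .no (.pk .no
  .no (.br 0 (.iso 26 2364720 true) (.vi [17184,17185,21520,21552,21537])) .no)) (.br 4 (.pk
  (.sh 0 2 [21554]) .no .no .no) (.pk .no .no (.br 0 (.iso 27 2364720 true) (.vi [17184,17185,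
  21264,21520,21280])) .no))) (.br 3 (.br 4 (.pk (.sh 0 2 [21554]) .no .no .no) .no) (.br 4
  (.pk .no .no .no (.br 0 (.iso 28 2299200 true) (.vi [17184,17185,21264,21552,21281]))) (.pk
  .no .no .no (.br 0 (.iso 29 2299200 true) (.vi [17184,17185,21264,21520,21281])))))) (.br 2
  (.br 3 (.br 4 (.pk .no .no (.br 0 (.iso 30 2364720 true) (.iso 31 2364720 true)) .no) (.pk
  .no (.br 0 (.vi [17184,17185,21520,21536,21553]) (.iso 32 3413280 false)) .no .no)) (.br 4
  (.vi [17185,21281,21537,21553]) (.pk .no .no .no (.br 0 (.vi [17184,17185,21264,21520,21536])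
  (.iso 33 2299200 true))))) (.br 3 (.br 4 (.pk (.sh 0 2 [21554]) .no .no .no) (.pk .no (.br 0
  (.iso 34 3413280 false) (.iso 35 3413280 false)) .no .no)) (.br 4 (.pk .no (.br 0 (.vi [17184,
  17185,21264,21280,21553]) (.iso 36 3413280 false)) .no .no) .no))))⟩

def L2 : List En :=
  [e2_0, e2_1, e2_2]

def e3_0 : En :=
  ⟨⟨6, 24961, [21520,21553,21554]⟩, [.sh 0 3 [21553],.no,.no,.no,.no,.no,.no,.no], (.br 2 (.br
  3 (.br 4 (.br 5 .no (.pk .no (.br 1 (.sh 0 3 [25921,25922]) (.vi [21553,21554,25633,25905,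
  25922])) .no .no)) (.br 5 (.pk (.sh 0 3 [21553,25923]) .no .no .no) .no)) (.br 4 (.br 5 (.pk
  (.sh 0 3 [21553,25923]) .no .no .no) (.pk .no (.br 1 (.sh 0 3 [25921,25922]) (.vi [21553,
  21554,25633,25649,25922])) .no .no)) (.br 5 (.pk .no .no .no (.br 1 (.vi [16912,21520,21553,
  25649,21554,25650]) (.vi [16912,21520,21553,25905,21554,25650]))) (.pk .no .no .no (.br 0
  (.br 1 (.vi [16912,21520,21553,25616,21554,25649]) (.vi [16912,21520,21553,25360,21554,
  25872])) (.vi [16912,21520,21553,25632,21554,25650])))))) (.br 3 (.br 4 (.br 5 (.pk .no (.br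
  1 (.vi [16912,21520,21553,25633,21554,25922]) (.sh 0 3 [25921,25922])) .no .no) (.pk .no .no
  (.br 1 (.vi [21553,21554,25633,25921,25906]) (.vi [16912,21520,21553,25905,21554,25906]))
  .no)) (.br 5 (.pk (.sh 0 3 [21553,25923]) .no .no .no) (.pk .no .no (.br 0 (.br 1 (.vi [16912,
  21520,21553,25616,21554,25906]) (.vi [16912,21520,21553,25104,21554,25872])) (.vi [16912,
  21520,21553,25904,21554,25906])) .no))) (.br 4 (.br 5 (.vi [21554,25650,25906,25922]) (.pk
  .no .no .no (.br 1 (.vi [21553,21554,25633,25921,25650]) (.vi [16912,21520,21553,25649,21554,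
  25650])))) (.br 5 (.pk .no .no (.br 1 (.vi [16912,21520,21553,25649,21554,25906]) (.vi [16912,
  21520,21553,25905,21554,25906])) .no) .no))))⟩

def e3_1 : En :=
  ⟨⟨6, 24963, [21520,21553,21554]⟩, [.sh 0 3 [21553],.no,.no,.sh 0 3 [21536],.no,.no,.no,.no],
  (.br 2 (.br 3 (.br 4 (.br 5 .no (.pk .no (.sh 0 3 [21536,25922]) .no .no)) (.br 5 (.pk (.sh 0
  3 [21553,25923]) .no .no .no) .no)) (.br 4 (.br 5 (.pk (.sh 0 3 [21553,25923]) .no .no .no)
  (.pk .no (.sh 0 3 [21536,25922]) .no .no)) (.br 5 (.pk .no .no .no (.br 0 (.vi [21520,21536,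
  21553,25632,21554,25650]) (.vi [21536,21554,25376,25904,25920]))) (.pk .no .no .no (.br 0
  (.vi [21520,21536,21553,25632,21554,25650]) (.vi [21536,21554,25376,25888,25650])))))) (.br 3
  (.br 4 (.br 5 (.pk .no (.sh 0 3 [21536,25922]) .no .no) (.pk .no .no (.br 0 (.vi [21520,21536,
  21553,25888,21554,25906]) (.vi [21536,21554,25904,25920,25906])) .no)) (.br 5 (.pk (.sh 0 3
  [21553,25923]) .no .no .no) (.pk .no .no (.br 0 (.vi [21520,21536,21553,25888,21554,25906])
  (.vi [21520,21536,21553,25904,21554,25906])) .no))) (.br 4 (.br 5 (.vi [21554,25650,25906,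
  25922]) (.pk .no .no .no (.br 0 (.vi [21536,21554,25376,25888,25650]) (.vi [21520,21536,21553,
  25920,21554,25650])))) (.br 5 (.pk .no .no (.br 0 (.vi [21520,21536,21553,25376,21554,25906])
  (.vi [21536,21554,25904,25920,25906])) .no) .no))))⟩

def e3_2 : En :=
  ⟨⟨6, 24965, [21520,21553,21554]⟩, [.sh 0 3 [21553],.no,.no,.no,.no,.no,.no,.no], (.br 2 (.br
  3 (.br 4 (.br 5 .no (.pk .no (.br 1 (.sh 0 3 [25921,25922]) (.vi [21553,21554,25889,25905,
  25922])) .no .no)) (.br 5 (.pk (.sh 0 3 [21553,25923]) .no .no .no) .no)) (.br 4 (.br 5 (.pk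
  (.sh 0 3 [21553,25923]) .no .no .no) (.pk .no (.br 1 (.sh 0 3 [25921,25922]) (.vi [21553,
  21554,25377,25889,25649])) .no .no)) (.br 5 (.pk .no .no .no (.br 1 (.br 0 (.vi [21520,21553,
  21554,25616,25649,25650]) (.vi [21520,21553,25360,25904,25920])) (.vi [21553,21554,25377,
  25905,25650]))) (.pk .no .no .no (.br 1 (.br 0 (.vi [21520,21553,21554,25616,25649,25650])
  (.vi [21520,21553,25360,25872,25649])) (.vi [21553,21554,25377,25889,25650])))))) (.br 3 (.br
  4 (.br 5 (.pk .no (.br 1 (.br 0 (.iso 0 88236816 false) (.vi [21520,21553,21554,25616,25632,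
  25922])) (.sh 0 3 [25921,25922])) .no .no) (.pk .no .no (.br 1 (.vi [21553,21554,25889,25921,
  25906]) (.br 0 (.vi [21520,21553,21554,25872,25905,25906]) (.vi [21520,21553,25904,25920,
  25905]))) .no)) (.br 5 (.pk (.sh 0 3 [21553,25923]) .no .no .no) (.pk .no .no (.br 1 (.br 0
  (.vi [21520,21553,21554,25104,25616,25889]) (.vi [21520,21553,21554,25872,25904,25889])) (.br
  0 (.vi [21520,21553,21554,25872,25905,25906]) (.vi [21520,21553,21554,25904,25905,25906])))
  .no))) (.br 4 (.br 5 (.vi [21554,25650,25906,25922]) (.pk .no .no .no (.br 1 (.vi [21553,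
  21554,25377,25889,25921]) (.br 0 (.vi [21520,21553,25360,25872,25649]) (.vi [21520,21553,
  21554,25632,25920,25649]))))) (.br 5 (.pk .no .no (.br 1 (.vi [21553,21554,25377,25649,
  25906]) (.br 0 (.vi [21520,21553,21554,25360,25905,25906]) (.vi [21520,21553,25904,25920,
  25905]))) .no) .no))))⟩

def e3_3 : En :=
  ⟨⟨6, 24967, [21520,21553,21554]⟩, [.sh 0 3 [21553],.no,.no,.sh 0 3 [21536],.no,.no,.no,.no],
  (.br 2 (.br 3 (.br 4 (.br 5 .no (.pk .no (.sh 0 3 [21536,25922]) .no .no)) (.br 5 (.pk (.sh 0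
  3 [21553,25923]) .no .no .no) .no)) (.br 4 (.br 5 (.pk (.sh 0 3 [21553,25923]) .no .no .no)
  (.pk .no (.sh 0 3 [21536,25922]) .no .no)) (.br 5 (.pk .no .no .no (.br 0 (.vi [21520,21536,
  21553,25632,21554,25650]) (.vi [21536,21554,25376,25904,25920]))) (.pk .no .no .no (.br 0
  (.vi [21520,21536,21553,25632,21554,25650]) (.vi [21536,21554,25376,25888,25650])))))) (.br 3
  (.br 4 (.br 5 (.pk .no (.sh 0 3 [21536,25922]) .no .no) (.pk .no .no (.br 0 (.vi [21520,21536,
  21553,25888,21554,25906]) (.vi [21536,21554,25904,25920,25906])) .no)) (.br 5 (.pk (.sh 0 3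
  [21553,25923]) .no .no .no) (.pk .no .no (.br 0 (.vi [21520,21536,21553,25888,21554,25906])
  (.vi [21520,21536,21553,25904,21554,25906])) .no))) (.br 4 (.br 5 (.vi [21554,25650,25906,
  25922]) (.pk .no .no .no (.br 0 (.vi [21536,21554,25376,25888,25650]) (.vi [21520,21536,21553,
  25920,21554,25650])))) (.br 5 (.pk .no .no (.br 0 (.vi [21520,21536,21553,25376,21554,25906])
  (.vi [21536,21554,25904,25920,25906])) .no) .no))))⟩

def e3_4 : En :=
  ⟨⟨6, 14784, [21520,21553,21554]⟩, [.sh 0 3 [21553],.no,.no,.sh 0 3 [21536],.no,.no,.no,.no],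
  (.br 2 (.br 3 (.br 4 (.br 5 .no (.pk .no (.sh 0 3 [21536,25922]) .no .no)) (.br 5 (.pk .no
  (.sh 0 3 [21536,25922]) .no .no) (.pk (.sh 0 3 [21553,25923]) .no .no .no))) (.br 4 (.br 5
  (.pk .no .no (.br 1 (.vi [21520,21536,21553,25905,21554,25906]) (.vi [21553,21554,25633,25889,
  25649])) .no) (.pk .no (.sh 0 3 [21536,25922]) .no .no)) (.br 5 (.vi [21554,25650,25906,
  25922]) (.pk .no .no .no (.br 0 (.vi [21536,21554,25648,25920,25650]) (.vi [21520,21536,21553,
  25888,21554,25650])))))) (.br 3 (.br 4 (.br 5 (.pk .no .no (.br 1 (.vi [21553,21554,25633,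
  25889,25906]) (.vi [21520,21536,21553,25905,21554,25906])) .no) .no) (.br 5 (.pk .no .no (.br
  1 (.vi [21553,21554,25889,25921,25906]) (.vi [21520,21536,21553,25905,21554,25906])) .no)
  (.pk (.sh 0 3 [21553,25923]) .no .no .no))) (.br 4 (.br 5 (.pk .no .no .no (.br 0 (.vi [21520,
  21536,21553,25632,21554,25650]) (.vi [21536,21554,25888,25648,25904]))) (.pk .no .no .no (.br
  0 (.vi [21520,21536,21553,25632,21554,25650]) (.vi [21536,21554,25648,25920,25650])))) (.br 5
  (.pk (.sh 0 3 [21553,25923]) .no .no .no) .no))))⟩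

def e3_5 : En :=
  ⟨⟨6, 14788, [21520,21553,21554]⟩, [.sh 0 3 [21553],.no,.no,.sh 0 3 [21536],.no,.no,.no,.no],
  (.br 2 (.br 3 (.br 4 (.br 5 .no (.pk .no (.sh 0 3 [21536,25922]) .no .no)) (.br 5 (.pk .no
  (.sh 0 3 [21536,25922]) .no .no) (.pk (.sh 0 3 [21553,25923]) .no .no .no))) (.br 4 (.br 5
  (.pk .no .no (.br 1 (.vi [21520,21536,21553,25905,21554,25906]) (.vi [21553,21554,25377,25649,
  25906])) .no) (.pk .no (.sh 0 3 [21536,25922]) .no .no)) (.br 5 (.vi [21554,25650,25906,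
  25922]) (.pk .no .no .no (.br 0 (.vi [21536,21554,25648,25920,25650]) (.vi [21520,21536,21553,
  25888,21554,25650])))))) (.br 3 (.br 4 (.br 5 (.pk .no .no (.br 0 (.vi [21520,21536,21553,
  25632,21554,25906]) (.vi [21520,21536,21553,25888,21554,25906])) .no) .no) (.br 5 (.pk .no
  .no (.br 1 (.vi [21520,21536,21553,25921,21554,25906]) (.vi [21520,21536,21553,25905,21554,
  25906])) .no) (.pk (.sh 0 3 [21553,25923]) .no .no .no))) (.br 4 (.br 5 (.pk .no .no .no (.br
  0 (.vi [21520,21536,21553,25632,21554,25650]) (.vi [21536,21554,25888,25648,25904]))) (.pk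
  .no .no .no (.br 0 (.vi [21520,21536,21553,25632,21554,25650]) (.vi [21536,21554,25648,25920,
  25650])))) (.br 5 (.pk (.sh 0 3 [21553,25923]) .no .no .no) .no))))⟩

def e3_6 : En :=
  ⟨⟨6, 14790, [21520,21553,21554]⟩, [.sh 0 3 [21553],.no,.no,.no,.no,.iso 1 5447745 true,.no,
  .no], (.br 2 (.br 3 (.br 4 (.br 5 .no (.pk .no (.br 0 (.vi [21520,21553,21280,25888,21554,
  25922]) (.sh 0 3 [25920,25922])) .no .no)) (.br 5 (.pk .no (.br 1 (.sh 0 3 [25921,25922])
  (.vi [21520,21553,21280,25905,21554,25922])) .no .no) (.pk (.sh 0 3 [21553,25923]) .no .no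
  .no))) (.br 4 (.br 5 (.pk .no .no (.br 1 (.vi [21520,21553,21280,25905,21554,25906]) (.vi
  [21553,21554,25377,25649,25906])) .no) (.pk .no (.br 1 (.sh 0 3 [25921,25922]) (.vi [21553,
  21554,25377,25649,25922])) .no .no)) (.br 5 (.vi [21554,25650,25906,25922]) (.pk .no .no .no
  (.br 0 (.vi [21280,21554,25888,25648,25920]) (.vi [21520,21553,21280,25376,21554,25650]))))))
  (.br 3 (.br 4 (.br 5 (.pk .no .no (.br 1 (.br 0 (.iso 2 87188496 false) (.vi [21520,21553,
  21280,25616,21554,25906])) (.vi [21520,21553,21280,25905,21554,25906])) .no) .no) (.br 5 (.pk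
  .no .no (.br 1 (.vi [21520,21553,21280,25921,21554,25906]) (.vi [21520,21553,21280,25905,
  21554,25906])) .no) (.pk (.sh 0 3 [21553,25923]) .no .no .no))) (.br 4 (.br 5 (.pk .no .no
  .no (.br 0 (.vi [21520,21553,21280,25376,21554,25650]) (.vi [21280,21554,25648,25904,
  25650]))) (.pk .no .no .no (.br 0 (.vi [21520,21553,21280,25376,21554,25650]) (.vi [21280,
  21554,25648,25920,25650])))) (.br 5 (.pk (.sh 0 3 [21553,25923]) .no .no .no) .no))))⟩

def e3_7 : En :=
  ⟨⟨6, 24737, [21520,21553,21554]⟩, [.sh 0 3 [21553],.no,.no,.no,.no,.no,.no,.no], (.br 2 (.br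
  3 (.br 4 (.br 5 .no (.pk .no .no (.br 0 (.br 1 (.iso 3 87188496 false) (.vi [21520,21553,
  21554,25872,25905,25906])) (.vi [21520,21553,21554,25904,25920,25906])) .no)) (.br 5 (.pk
  (.sh 0 3 [21553,25923]) .no .no .no) (.pk .no .no (.br 0 (.br 1 (.iso 4 87188496 false) (.vi
  [21520,21553,21554,25872,25905,25906])) (.br 1 (.vi [21520,21553,21554,25872,25904,25906])
  (.vi [21520,21553,21554,25904,25905,25906]))) .no))) (.br 4 (.br 5 (.pk (.sh 0 3 [21553,
  25923]) .no .no .no) .no) (.br 5 (.pk .no .no .no (.br 1 (.br 0 (.vi [21520,21553,21554,25616,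
  25649,25650]) (.vi [21520,21553,25360,25904,25920])) (.vi [21553,21554,25377,25905,25650])))
  (.pk .no .no .no (.br 1 (.br 0 (.vi [21520,21553,21554,25616,25649,25650]) (.vi [21520,21553,
  25360,25872,25649])) (.br 0 (.vi [21520,21553,21554,25360,25872,25377]) (.vi [21520,21553,
  21554,25376,25377,25650]))))))) (.br 3 (.br 4 (.br 5 (.pk .no .no (.br 1 (.br 0 (.iso 5
  87188496 false) (.vi [21520,21553,21554,25104,25616,25376])) (.vi [21553,21554,25377,25633,
  25921])) .no) (.pk .no (.br 1 (.sh 0 3 [25921,25922]) (.vi [21553,21554,25377,25633,25905]))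
  .no .no)) (.br 5 (.vi [21554,25650,25906,25922]) (.pk .no .no .no (.br 1 (.br 0 (.vi [21520,
  21553,21554,25616,25633,25650]) (.vi [21520,21553,21554,25104,25872,25376])) (.vi [21553,
  21554,25377,25905,25650]))))) (.br 4 (.br 5 (.pk (.sh 0 3 [21553,25923]) .no .no .no) (.pk
  .no (.br 1 (.sh 0 3 [25921,25922]) (.vi [21553,21554,25633,25649,25922])) .no .no)) (.br 5
  (.pk .no (.br 0 (.br 1 (.vi [21553,21554,25633,25649,25922]) (.vi [21520,21553,21554,25104,
  25360,25905])) (.sh 0 3 [25920,25922])) .no .no) .no))))⟩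

def e3_8 : En :=
  ⟨⟨6, 22640, [21520,21553,21554]⟩, [.sh 0 3 [21553],.no,.no,.sh 0 3 [21536],.no,.no,.no,.no],
  (.br 2 (.br 3 (.br 4 (.br 5 .no (.pk .no .no (.br 0 (.vi [21520,21536,21553,25920,21554,
  25906]) (.vi [21520,21536,21553,25888,21554,25906])) .no)) (.br 5 (.pk .no (.sh 0 3 [21536,
  25922]) .no .no) (.pk .no .no (.br 1 (.vi [21520,21536,21553,25905,21554,25906]) (.vi [21553,
  21554,25377,25649,25906])) .no))) (.br 4 (.br 5 (.pk .no .no (.br 1 (.vi [21520,21536,21553,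
  25905,21554,25906]) (.vi [21553,21554,25889,25921,25906])) .no) (.pk (.sh 0 3 [21553,25923])
  .no .no .no)) (.br 5 (.vi [21554,25650,25906,25922]) (.pk .no .no .no (.br 0 (.vi [21520,
  21536,21553,25648,21554,25650]) (.vi [21536,21554,25376,25888,25650])))))) (.br 3 (.br 4 (.br
  5 (.pk .no (.sh 0 3 [21536,25922]) .no .no) .no) (.br 5 (.pk .no .no .no (.br 0 (.vi [21520,
  21536,21553,25632,21554,25650]) (.vi [21536,21554,25376,25888,25650]))) (.pk .no .no .no (.br
  1 (.vi [21553,21554,25377,25905,25650]) (.vi [21520,21536,21553,25649,21554,25650]))))) (.br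
  4 (.br 5 (.pk .no (.sh 0 3 [21536,25922]) .no .no) (.pk (.sh 0 3 [21553,25923]) .no .no .no))
  (.br 5 (.pk (.sh 0 3 [21553,25923]) .no .no .no) .no))))⟩

def e3_9 : En :=
  ⟨⟨6, 22644, [21520,21553,21554]⟩, [.sh 0 3 [21553],.no,.no,.sh 0 3 [21536],.no,.no,.no,.no],
  (.br 2 (.br 3 (.br 4 (.br 5 .no (.pk .no .no (.br 0 (.vi [21520,21536,21553,25920,21554,
  25906]) (.vi [21520,21536,21553,25888,21554,25906])) .no)) (.br 5 (.pk .no (.sh 0 3 [21536,
  25922]) .no .no) (.pk .no .no (.br 1 (.vi [21520,21536,21553,25905,21554,25906]) (.vi [21553,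
  21554,25633,25649,25906])) .no))) (.br 4 (.br 5 (.pk .no .no (.br 1 (.vi [21520,21536,21553,
  25905,21554,25906]) (.vi [21520,21536,21553,25921,21554,25906])) .no) (.pk (.sh 0 3 [21553,
  25923]) .no .no .no)) (.br 5 (.vi [21554,25650,25906,25922]) (.pk .no .no .no (.br 0 (.vi
  [21520,21536,21553,25648,21554,25650]) (.vi [21536,21554,25376,25888,25650])))))) (.br 3 (.br
  4 (.br 5 (.pk .no (.sh 0 3 [21536,25922]) .no .no) .no) (.br 5 (.pk .no .no .no (.br 0 (.vi
  [21520,21536,21553,25632,21554,25650]) (.vi [21536,21554,25376,25888,25650]))) (.pk .no .no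
  .no (.br 1 (.vi [21553,21554,25633,25905,25650]) (.vi [21520,21536,21553,25649,21554,
  25650]))))) (.br 4 (.br 5 (.pk .no (.sh 0 3 [21536,25922]) .no .no) (.pk (.sh 0 3 [21553,
  25923]) .no .no .no)) (.br 5 (.pk (.sh 0 3 [21553,25923]) .no .no .no) .no))))⟩

def e3_10 : En :=
  ⟨⟨6, 10724, [21520,21553,21554]⟩, [.sh 0 3 [21553],.no,.no,.no,.no,.no,.no,.iso 6 4399185
  true], (.br 2 (.br 3 (.br 4 (.br 5 .no (.pk .no .no (.br 1 (.vi [21553,21554,25889,25921,
  25906]) (.vi [21520,21553,17184,25377,21554,25906])) .no)) (.br 5 (.pk .no .no .no (.br 1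
  (.vi [21520,21553,17184,25921,21554,25650]) (.vi [21553,21554,25377,25905,25650]))) (.vi
  [21554,25650,25906,25922]))) (.br 4 (.br 5 (.pk .no .no .no (.br 1 (.vi [21553,21554,25377,
  25905,25650]) (.vi [21520,21553,17184,25649,21554,25650]))) (.pk .no .no .no (.br 1 (.vi
  [21553,21554,25377,25889,25921]) (.vi [21520,21553,17184,25649,21554,25650])))) (.br 5 (.pk
  (.sh 0 3 [21553,25923]) .no .no .no) (.pk .no (.br 0 (.sh 0 3 [25920,25922]) (.vi [21520,
  21553,17184,25376,21554,25922])) .no .no)))) (.br 3 (.br 4 (.br 5 (.pk .no .no (.br 0 (.vi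
  [21520,21553,17184,25632,21554,25906]) (.vi [21520,21553,17184,25376,21554,25906])) .no) (.pk
  .no (.br 0 (.vi [21520,21553,17184,25632,21554,25922]) (.sh 0 3 [25920,25922])) .no .no))
  (.br 5 (.pk .no .no (.br 1 (.vi [21553,21554,25889,25921,25906]) (.vi [21520,21553,17184,
  25905,21554,25906])) .no) (.pk (.sh 0 3 [21553,25923]) .no .no .no))) (.br 4 (.br 5 .no (.pk
  .no (.br 0 (.vi [21520,21553,17184,25632,21554,25922]) (.sh 0 3 [25920,25922])) .no .no))
  (.br 5 (.pk (.sh 0 3 [21553,25923]) .no .no .no) .no))))⟩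

def e3_11 : En :=
  ⟨⟨6, 18806, [21520,21553,21554]⟩, [.sh 0 3 [21553],.no,.no,.no,.no,.no,.no,.no], (.br 2 (.br
  3 (.br 4 (.br 5 .no (.pk .no (.br 0 (.sh 0 3 [25920,25922]) (.vi [21008,21520,21553,25376,
  21554,25888])) .no .no)) (.br 5 (.pk .no .no .no (.br 1 (.vi [21553,21554,25633,25921,25650])
  (.vi [21008,21520,21553,25649,21554,25650]))) (.pk .no .no .no (.br 1 (.vi [21553,21554,25633,
  25889,25905]) (.vi [21008,21520,21553,25649,21554,25650]))))) (.br 4 (.br 5 (.pk .no .no .no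
  (.br 1 (.vi [21008,21520,21553,25905,21554,25650]) (.vi [21553,21554,25633,25921,25650])))
  (.vi [21554,25650,25906,25922])) (.br 5 (.pk (.sh 0 3 [21553,25923]) .no .no .no) (.pk .no
  .no (.br 0 (.vi [21008,21520,21553,25376,21554,25648]) (.vi [21008,21520,21553,25888,21554,
  25906])) .no)))) (.br 3 (.br 4 (.br 5 (.pk .no (.br 1 (.vi [21008,21520,21553,25889,21554,
  25922]) (.sh 0 3 [25921,25922])) .no .no) (.pk .no .no (.br 0 (.vi [21008,21520,21553,25888,
  21554,25920]) (.br 1 (.vi [21008,21520,21553,25872,21554,25905]) (.vi [21008,21520,21553,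
  25360,21554,25616]))) .no)) (.br 5 .no (.pk .no .no (.br 1 (.vi [21008,21520,21553,25905,
  21554,25906]) (.vi [21008,21520,21553,25649,21554,25906])) .no))) (.br 4 (.br 5 (.pk .no (.br
  1 (.vi [21553,21554,25889,25905,25922]) (.sh 0 3 [25921,25922])) .no .no) (.pk (.sh 0 3
  [21553,25923]) .no .no .no)) (.br 5 (.pk (.sh 0 3 [21553,25923]) .no .no .no) .no))))⟩

def e3_12 : En :=
  ⟨⟨6, 23104, [21520,21553,21554]⟩, [.sh 0 3 [21553],.no,.no,.sh 0 3 [21536],.no,.no,.no,.no],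
  (.br 2 (.br 3 (.br 4 (.br 5 .no (.pk (.sh 0 3 [21553,25923]) .no .no .no)) (.br 5 (.pk .no
  (.sh 0 3 [21536,25922]) .no .no) .no)) (.br 4 (.br 5 (.pk (.sh 0 3 [21553,25923]) .no .no
  .no) (.pk .no .no (.br 0 (.vi [21536,21554,25648,25920,25906]) (.vi [21520,21536,21553,25888,
  21554,25906])) .no)) (.br 5 (.pk .no (.sh 0 3 [21536,25922]) .no .no) (.pk .no .no (.br 0
  (.br 1 (.vi [21520,21536,21553,25905,21554,25906]) (.vi [21520,21536,21553,25616,21554,
  25906])) (.vi [21520,21536,21553,25888,21554,25906])) .no)))) (.br 3 (.br 4 (.br 5 (.pk .no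
  (.sh 0 3 [21536,25922]) .no .no) (.pk (.sh 0 3 [21553,25923]) .no .no .no)) (.br 5 (.pk .no
  .no .no (.br 1 (.vi [21553,21554,25889,25921,25650]) (.vi [21520,21536,21553,25649,21554,
  25650]))) (.pk .no .no .no (.br 0 (.vi [21520,21536,21553,25632,21554,25650]) (.br 1 (.vi
  [21520,21536,21553,25872,21554,25650]) (.vi [21520,21536,21553,25649,21554,25650])))))) (.br
  4 (.br 5 (.vi [21554,25650,25906,25922]) (.pk .no .no .no (.br 0 (.vi [21536,21554,25648,
  25920,25650]) (.vi [21520,21536,21553,25632,21554,25650])))) (.br 5 (.pk .no .no (.br 1 (.vi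
  [21553,21554,25889,25921,25906]) (.vi [21520,21536,21553,25905,21554,25906])) .no) .no))))⟩

def e3_13 : En :=
  ⟨⟨6, 23108, [21520,21553,21554]⟩, [.sh 0 3 [21553],.no,.no,.sh 0 3 [21536],.no,.no,.no,.no],
  (.br 2 (.br 3 (.br 4 (.br 5 .no (.pk (.sh 0 3 [21553,25923]) .no .no .no)) (.br 5 (.pk .no
  (.sh 0 3 [21536,25922]) .no .no) .no)) (.br 4 (.br 5 (.pk (.sh 0 3 [21553,25923]) .no .no
  .no) (.pk .no .no (.br 0 (.vi [21536,21554,25648,25920,25906]) (.vi [21520,21536,21553,25888,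
  21554,25906])) .no)) (.br 5 (.pk .no (.sh 0 3 [21536,25922]) .no .no) (.pk .no .no (.br 1
  (.vi [21520,21536,21553,25905,21554,25906]) (.vi [21553,21554,25377,25633,25906])) .no))))
  (.br 3 (.br 4 (.br 5 (.pk .no (.sh 0 3 [21536,25922]) .no .no) (.pk (.sh 0 3 [21553,25923])
  .no .no .no)) (.br 5 (.pk .no .no .no (.br 1 (.vi [21553,21554,25633,25921,25650]) (.vi
  [21520,21536,21553,25649,21554,25650]))) (.pk .no .no .no (.br 1 (.vi [21520,21536,21553,
  25633,21554,25650]) (.vi [21520,21536,21553,25649,21554,25650]))))) (.br 4 (.br 5 (.vi [21554,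
  25650,25906,25922]) (.pk .no .no .no (.br 0 (.vi [21536,21554,25648,25920,25650]) (.vi [21520,
  21536,21553,25632,21554,25650])))) (.br 5 (.pk .no .no (.br 1 (.vi [21553,21554,25377,25633,
  25921]) (.vi [21520,21536,21553,25905,21554,25906])) .no) .no))))⟩

def e3_14 : En :=
  ⟨⟨6, 7104, [21520,21553,21554]⟩, [.sh 0 3 [21553],.no,.no,.sh 0 3 [21536],.no,.no,.no,.no],
  (.br 2 (.br 3 (.br 4 (.br 5 .no (.pk .no (.sh 0 3 [21536,25922]) .no .no)) (.br 5 (.pk .no
  (.sh 0 3 [21536,25922]) .no .no) (.pk (.sh 0 3 [21553,25923]) .no .no .no))) (.br 4 (.br 5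
  (.pk .no .no .no (.br 1 (.vi [21520,21536,21553,25649,21554,25650]) (.vi [21553,21554,25633,
  25889,25905]))) (.vi [21554,25650,25906,25922])) (.br 5 (.pk .no (.sh 0 3 [21536,25922]) .no
  .no) (.pk .no .no (.br 0 (.vi [21520,21536,21553,25920,21554,25906]) (.vi [21520,21536,21553,
  25888,21554,25906])) .no)))) (.br 3 (.br 4 (.br 5 (.pk .no .no .no (.br 0 (.vi [21520,21536,
  21553,25632,21554,25650]) (.vi [21536,21554,25888,25648,25650]))) (.pk .no .no .no (.br 0
  (.vi [21520,21536,21553,25632,21554,25650]) (.vi [21536,21554,25648,25920,25650])))) (.br 5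
  .no (.pk (.sh 0 3 [21553,25923]) .no .no .no))) (.br 4 (.br 5 (.pk .no .no (.br 0 (.vi [21536,
  21554,25632,25648,25906]) (.vi [21520,21536,21553,25888,21554,25906])) .no) (.pk (.sh 0 3
  [21553,25923]) .no .no .no)) (.br 5 (.pk .no .no (.br 1 (.vi [21553,21554,25889,25921,25906])
  (.vi [21520,21536,21553,25905,21554,25906])) .no) .no))))⟩

def e3_15 : En :=
  ⟨⟨6, 7106, [21520,21553,21554]⟩, [.sh 0 3 [21553],.no,.no,.no,.no,.no,.no,.no], (.br 2 (.br 3
  (.br 4 (.br 5 .no (.pk .no (.br 1 (.sh 0 3 [25921,25922]) (.vi [21553,21554,25633,25649,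
  25922])) .no .no)) (.br 5 (.pk .no (.br 1 (.sh 0 3 [25921,25922]) (.vi [21008,21520,21553,
  25889,21554,25922])) .no .no) (.pk (.sh 0 3 [21553,25923]) .no .no .no))) (.br 4 (.br 5 (.pk
  .no .no .no (.br 1 (.vi [21008,21520,21553,25649,21554,25650]) (.vi [21553,21554,25633,25889,
  25905]))) (.vi [21554,25650,25906,25922])) (.br 5 (.pk .no (.br 1 (.sh 0 3 [25921,25922])
  (.vi [21553,21554,25889,25905,25922])) .no .no) (.pk .no .no (.br 0 (.vi [21008,21520,21553,
  25888,21554,25920]) (.vi [21008,21520,21553,25376,21554,25906])) .no)))) (.br 3 (.br 4 (.br 5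
  (.pk .no .no .no (.br 1 (.vi [21553,21554,25633,25889,25650]) (.vi [21008,21520,21553,25649,
  21554,25650]))) (.pk .no .no .no (.br 1 (.vi [21553,21554,25633,25921,25650]) (.vi [21008,
  21520,21553,25649,21554,25650])))) (.br 5 .no (.pk (.sh 0 3 [21553,25923]) .no .no .no)))
  (.br 4 (.br 5 (.pk .no .no (.br 1 (.vi [21553,21554,25633,25889,25649]) (.vi [21008,21520,
  21553,25905,21554,25906])) .no) (.pk (.sh 0 3 [21553,25923]) .no .no .no)) (.br 5 (.pk .no
  .no (.br 1 (.vi [21553,21554,25889,25921,25906]) (.vi [21008,21520,21553,25905,21554,25906]))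
  .no) .no))))⟩

def e3_16 : En :=
  ⟨⟨6, 7108, [21520,21553,21554]⟩, [.sh 0 3 [21553],.no,.no,.sh 0 3 [21536],.no,.no,.no,.no],
  (.br 2 (.br 3 (.br 4 (.br 5 .no (.pk .no (.sh 0 3 [21536,25922]) .no .no)) (.br 5 (.pk .no
  (.sh 0 3 [21536,25922]) .no .no) (.pk (.sh 0 3 [21553,25923]) .no .no .no))) (.br 4 (.br 5
  (.pk .no .no .no (.br 1 (.vi [21520,21536,21553,25649,21554,25650]) (.vi [21553,21554,25377,
  25905,25650]))) (.vi [21554,25650,25906,25922])) (.br 5 (.pk .no (.sh 0 3 [21536,25922]) .no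
  .no) (.pk .no .no (.br 0 (.vi [21520,21536,21553,25920,21554,25906]) (.vi [21520,21536,21553,
  25888,21554,25906])) .no)))) (.br 3 (.br 4 (.br 5 (.pk .no .no .no (.br 0 (.vi [21520,21536,
  21553,25632,21554,25650]) (.vi [21536,21554,25888,25648,25650]))) (.pk .no .no .no (.br 0
  (.vi [21520,21536,21553,25632,21554,25650]) (.vi [21536,21554,25648,25920,25650])))) (.br 5
  .no (.pk (.sh 0 3 [21553,25923]) .no .no .no))) (.br 4 (.br 5 (.pk .no .no (.br 0 (.vi [21536,
  21554,25632,25648,25906]) (.vi [21520,21536,21553,25888,21554,25906])) .no) (.pk (.sh 0 3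
  [21553,25923]) .no .no .no)) (.br 5 (.pk .no .no (.br 1 (.vi [21553,21554,25377,25921,25906])
  (.vi [21520,21536,21553,25905,21554,25906])) .no) .no))))⟩

def e3_17 : En :=
  ⟨⟨6, 7110, [21520,21553,21554]⟩, [.sh 0 3 [21553],.no,.no,.no,.no,.no,.no,.no], (.br 2 (.br 3
  (.br 4 (.br 5 .no (.pk .no (.br 0 (.br 1 (.sh 0 3 [25921,25922]) (.vi [21520,25616,25104,
  25888,25922])) (.sh 0 3 [25920,25922])) .no .no)) (.br 5 (.pk .no (.br 1 (.sh 0 3 [25921,
  25922]) (.br 0 (.iso 7 72508176 true) (.vi [21520,21553,21554,25872,25888,25922]))) .no .no)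
  (.pk (.sh 0 3 [21553,25923]) .no .no .no))) (.br 4 (.br 5 (.pk .no .no .no (.br 1 (.br 0 (.vi
  [21520,21553,21554,25648,25649,25650]) (.vi [25104,25616,25376,25649,25650])) (.vi [21553,
  21554,25377,25905,25650]))) (.vi [21554,25650,25906,25922])) (.br 5 (.pk .no (.br 1 (.sh 0 3
  [25921,25922]) (.vi [21553,21554,25377,25905,25922])) .no .no) (.pk .no .no (.br 0 (.vi
  [21520,21553,21554,25888,25920,25906]) (.br 1 (.vi [25104,25872,25376,25905,25906]) (.vi
  [21520,21553,21554,25376,25377,25906]))) .no)))) (.br 3 (.br 4 (.br 5 (.pk .no .no .no (.br 0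
  (.br 1 (.iso 8 70411536 true) (.vi [21520,21553,21554,25616,25649,25650])) (.br 1 (.vi [21520,
  21553,21554,25616,25648,25650]) (.vi [21520,21553,25872,25648,25649])))) (.pk .no .no .no
  (.br 0 (.br 1 (.iso 9 70411536 true) (.vi [21520,21553,21554,25616,25649,25650])) (.vi [21520,
  21553,21554,25648,25920,25650])))) (.br 5 .no (.pk (.sh 0 3 [21553,25923]) .no .no .no)))
  (.br 4 (.br 5 (.pk .no .no (.br 1 (.vi [21553,21554,25377,25649,25906]) (.br 0 (.vi [21520,
  21553,25616,25648,25905]) (.vi [21520,21553,21554,25872,25905,25906]))) .no) (.pk (.sh 0 3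
  [21553,25923]) .no .no .no)) (.br 5 (.pk .no .no (.br 1 (.vi [21553,21554,25377,25921,25906])
  (.br 0 (.vi [21520,21553,21554,25376,25905,25906]) (.vi [21520,21553,21554,25872,25905,
  25906]))) .no) .no))))⟩

def e3_18 : En :=
  ⟨⟨6, 19040, [21520,21553,21554]⟩, [.sh 0 3 [21553],.no,.no,.no,.no,.no,.no,.iso 10 4399185
  false], (.br 2 (.br 3 (.br 4 (.br 5 .no (.pk (.sh 0 3 [21553,25923]) .no .no .no)) (.br 5
  (.pk .no .no .no (.br 1 (.vi [21520,21553,17184,25921,21554,25650]) (.vi [21520,21553,17184,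
  25649,21554,25650]))) (.pk .no .no .no (.br 1 (.br 0 (.iso 11 70411536 true) (.vi [21520,
  21553,17184,25872,21554,25650])) (.vi [21520,21553,17184,25649,21554,25650]))))) (.br 4 (.br
  5 (.pk (.sh 0 3 [21553,25923]) .no .no .no) (.pk .no .no (.br 0 (.vi [17184,21554,25648,25920,
  25906]) (.vi [21520,21553,17184,25376,21554,25906])) .no)) (.br 5 .no (.pk .no .no (.br 1
  (.vi [21520,21553,17184,25905,21554,25906]) (.vi [21520,21553,17184,25377,21554,25906]))
  .no)))) (.br 3 (.br 4 (.br 5 (.pk .no .no .no (.br 0 (.br 1 (.iso 12 70411536 true) (.vi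
  [21553,21554,25377,25889,25921])) (.vi [17184,25376,25632,25648]))) (.vi [21554,25650,25906,
  25922])) (.br 5 (.pk .no (.br 1 (.sh 0 3 [25921,25922]) (.vi [21553,21554,25377,25889,
  25649])) .no .no) (.pk .no .no (.br 1 (.vi [21520,21553,17184,25889,21554,25906]) (.vi [21553,
  21554,25377,25649,25906])) .no))) (.br 4 (.br 5 (.pk (.sh 0 3 [21553,25923]) .no .no .no)
  (.pk .no (.br 0 (.sh 0 3 [25920,25922]) (.vi [21520,21553,17184,25632,21554,25922])) .no
  .no)) (.br 5 (.pk .no (.br 1 (.sh 0 3 [25921,25922]) (.vi [21553,21554,25889,25905,25922]))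
  .no .no) .no))))⟩

def e3_19 : En :=
  ⟨⟨6, 19042, [21520,21553,21554]⟩, [.sh 0 3 [21553],.no,.no,.sh 0 3 [21536],.no,.no,.no,.no],
  (.br 2 (.br 3 (.br 4 (.br 5 .no (.pk (.sh 0 3 [21553,25923]) .no .no .no)) (.br 5 (.pk .no
  .no .no (.br 0 (.vi [21520,21536,21553,25632,21554,25650]) (.vi [21520,21536,21553,25376,
  21554,25650]))) (.pk .no .no .no (.br 0 (.vi [21520,21536,21553,25632,21554,25650]) (.vi
  [21536,21554,25376,25888,25650]))))) (.br 4 (.br 5 (.pk (.sh 0 3 [21553,25923]) .no .no .no)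
  (.pk .no .no (.br 0 (.vi [21536,21554,25376,25648,25920]) (.vi [21520,21536,21553,25888,21554,
  25906])) .no)) (.br 5 .no (.pk .no .no (.br 0 (.vi [21536,21554,25376,25632,25906]) (.vi
  [21520,21536,21553,25888,21554,25906])) .no)))) (.br 3 (.br 4 (.br 5 (.pk .no .no .no (.br 0
  (.vi [21520,21536,21553,25632,21554,25650]) (.vi [21536,21554,25648,25920,25650]))) (.vi
  [21554,25650,25906,25922])) (.br 5 (.pk .no (.sh 0 3 [21536,25922]) .no .no) (.pk .no .no
  (.br 1 (.vi [21520,21536,21553,25889,21554,25906]) (.vi [21553,21554,25377,25649,25906]))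
  .no))) (.br 4 (.br 5 (.pk (.sh 0 3 [21553,25923]) .no .no .no) (.pk .no (.sh 0 3 [21536,
  25922]) .no .no)) (.br 5 (.pk .no (.sh 0 3 [21536,25922]) .no .no) .no))))⟩

def e3_20 : En :=
  ⟨⟨6, 16819, [21520,21553,21554]⟩, [.sh 0 3 [21553],.no,.no,.sh 0 3 [21536],.no,.no,.no,.no],
  (.br 2 (.br 3 (.br 4 (.br 5 .no (.pk .no (.sh 0 3 [21536,25922]) .no .no)) (.br 5 (.pk .no
  .no .no (.br 0 (.vi [21520,21536,21553,25632,21554,25650]) (.vi [21536,21554,25376,25920,
  25650]))) (.pk .no .no .no (.br 0 (.vi [21520,21536,21553,25632,21554,25650]) (.vi [21536,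
  21554,25376,25888,25650]))))) (.br 4 (.br 5 (.pk .no .no .no (.br 1 (.vi [21520,21536,21553,
  25649,21554,25650]) (.vi [21553,21554,25633,25921,25650]))) (.vi [21554,25650,25906,25922]))
  (.br 5 (.pk (.sh 0 3 [21553,25923]) .no .no .no) (.pk .no .no (.br 0 (.vi [21536,21554,25376,
  25632,25906]) (.vi [21520,21536,21553,25888,21554,25906])) .no)))) (.br 3 (.br 4 (.br 5 (.pk
  .no (.sh 0 3 [21536,25922]) .no .no) (.pk .no .no (.br 1 (.vi [21553,21554,25377,25633,
  25921]) (.vi [21520,21536,21553,25905,21554,25906])) .no)) (.br 5 .no (.pk .no .no (.br 1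
  (.vi [21553,21554,25377,25649,25906]) (.vi [21520,21536,21553,25905,21554,25906])) .no)))
  (.br 4 (.br 5 (.pk .no (.sh 0 3 [21536,25922]) .no .no) (.pk (.sh 0 3 [21553,25923]) .no .no
  .no)) (.br 5 (.pk (.sh 0 3 [21553,25923]) .no .no .no) .no))))⟩

def e3_21 : En :=
  ⟨⟨6, 6886, [21520,21553,21554]⟩, [.sh 0 3 [21553],.no,.no,.sh 0 3 [21536],.no,.no,.no,.no],
  (.br 2 (.br 3 (.br 4 (.br 5 .no (.pk .no .no (.br 0 (.vi [21520,21536,21553,25888,21554,
  25906]) (.vi [21536,21554,25376,25648,25920])) .no)) (.br 5 (.pk .no .no .no (.br 0 (.vi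
  [21520,21536,21553,25632,21554,25650]) (.vi [21536,21554,25376,25888,25650]))) (.vi [21554,
  25650,25906,25922]))) (.br 4 (.br 5 (.pk .no .no (.br 0 (.vi [21536,21554,25376,25648,25906])
  (.vi [21520,21536,21553,25888,21554,25906])) .no) (.pk (.sh 0 3 [21553,25923]) .no .no .no))
  (.br 5 (.pk .no .no (.br 0 (.vi [21536,21554,25376,25632,25906]) (.vi [21520,21536,21553,
  25888,21554,25906])) .no) (.pk .no (.sh 0 3 [21536,25922]) .no .no)))) (.br 3 (.br 4 (.br 5
  (.pk .no .no .no (.br 0 (.vi [21520,21536,21553,25632,21554,25650]) (.vi [21520,21536,21553,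
  25648,21554,25650]))) (.pk .no .no .no (.br 0 (.vi [21520,21536,21553,25632,21554,25650])
  (.vi [21536,21554,25648,25920,25650])))) (.br 5 (.pk .no (.sh 0 3 [21536,25922]) .no .no)
  (.pk (.sh 0 3 [21553,25923]) .no .no .no))) (.br 4 (.br 5 .no (.pk (.sh 0 3 [21553,25923])
  .no .no .no)) (.br 5 (.pk .no (.sh 0 3 [21536,25922]) .no .no) .no))))⟩

def e3_22 : En :=
  ⟨⟨6, 16821, [21520,21553,21554]⟩, [.sh 0 3 [21553],.no,.no,.no,.no,.no,.no,.no], (.br 2 (.br
  3 (.br 4 (.br 5 .no (.pk .no (.br 1 (.sh 0 3 [25921,25922]) (.vi [21553,21554,25889,25905,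
  25922])) .no .no)) (.br 5 (.pk .no .no .no (.br 0 (.br 1 (.vi [21520,21553,21554,25616,25649,
  25650]) (.iso 13 70411536 false)) (.vi [21520,21553,21554,25632,25920,25650]))) (.pk .no .no
  .no (.br 1 (.br 0 (.vi [21520,21553,21554,25616,25649,25650]) (.vi [21520,21553,25360,25872,
  25649])) (.vi [21553,21554,25889,25905,25650]))))) (.br 4 (.br 5 (.pk .no .no .no (.br 1 (.br
  0 (.vi [21520,21553,21554,25360,25649,25650]) (.vi [25104,25616,25376,25649,25650])) (.br 0
  (.iso 14 70411536 false) (.vi [21520,21553,21554,25376,25921,25650])))) (.vi [21554,25650,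
  25906,25922])) (.br 5 (.pk (.sh 0 3 [21553,25923]) .no .no .no) (.pk .no .no (.br 0 (.br 1
  (.vi [21520,21553,25360,25616,25905]) (.vi [21520,21553,21554,25872,25889,25906])) (.vi
  [21520,21553,21554,25376,25632,25906])) .no)))) (.br 3 (.br 4 (.br 5 (.pk .no (.br 1 (.br 0
  (.iso 15 88236816 false) (.vi [21520,21553,21554,25360,25616,25376])) (.sh 0 3 [25921,
  25922])) .no .no) (.pk .no .no (.br 1 (.vi [21553,21554,25889,25921,25906]) (.br 0 (.vi
  [21520,21553,21554,25872,25905,25906]) (.vi [21554,25906,25376,25632,25920]))) .no)) (.br 5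
  .no (.pk .no .no (.br 1 (.vi [21553,21554,25889,25649,25906]) (.br 0 (.vi [21520,21553,21554,
  25872,25905,25906]) (.vi [21520,21553,21554,25376,25905,25906]))) .no))) (.br 4 (.br 5 (.pk
  .no (.br 1 (.br 0 (.vi [21520,21553,21554,25104,25360,25649]) (.vi [21520,21553,21554,25616,
  25632,25649])) (.sh 0 3 [25921,25922])) .no .no) (.pk (.sh 0 3 [21553,25923]) .no .no .no))
  (.br 5 (.pk (.sh 0 3 [21553,25923]) .no .no .no) .no))))⟩

def e3_23 : En :=
  ⟨⟨6, 16823, [21520,21553,21554]⟩, [.sh 0 3 [21553],.no,.no,.sh 0 3 [21536],.no,.no,.no,.no],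
  (.br 2 (.br 3 (.br 4 (.br 5 .no (.pk .no (.sh 0 3 [21536,25922]) .no .no)) (.br 5 (.pk .no
  .no .no (.br 0 (.vi [21520,21536,21553,25632,21554,25650]) (.vi [21536,21554,25376,25920,
  25650]))) (.pk .no .no .no (.br 0 (.vi [21520,21536,21553,25632,21554,25650]) (.vi [21536,
  21554,25376,25888,25650]))))) (.br 4 (.br 5 (.pk .no .no .no (.br 0 (.vi [21520,21536,21553,
  25376,21554,25650]) (.vi [21520,21536,21553,25632,21554,25650]))) (.vi [21554,25650,25906,
  25922])) (.br 5 (.pk (.sh 0 3 [21553,25923]) .no .no .no) (.pk .no .no (.br 0 (.vi [21536,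
  21554,25376,25632,25906]) (.vi [21520,21536,21553,25888,21554,25906])) .no)))) (.br 3 (.br 4
  (.br 5 (.pk .no (.sh 0 3 [21536,25922]) .no .no) (.pk .no .no (.br 1 (.vi [21553,21554,25889,
  25921,25906]) (.vi [21520,21536,21553,25905,21554,25906])) .no)) (.br 5 .no (.pk .no .no (.br
  1 (.vi [21553,21554,25889,25649,25906]) (.vi [21520,21536,21553,25905,21554,25906])) .no)))
  (.br 4 (.br 5 (.pk .no (.sh 0 3 [21536,25922]) .no .no) (.pk (.sh 0 3 [21553,25923]) .no .no
  .no)) (.br 5 (.pk (.sh 0 3 [21553,25923]) .no .no .no) .no))))⟩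

def e3_24 : En :=
  ⟨⟨6, 20661, [21520,21553,21554]⟩, [.sh 0 3 [21553],.no,.no,.no,.no,.no,.no,.no], (.br 2 (.br
  3 (.br 4 (.br 5 .no (.pk .no .no (.br 1 (.vi [21553,21554,25889,25921,25906]) (.vi [21008,
  21520,21553,25905,21554,25906])) .no)) (.br 5 (.pk .no (.br 1 (.vi [21553,21554,25633,25649,
  25922]) (.vi [21008,21520,21553,25889,21554,25922])) .no .no) (.pk .no .no (.br 1 (.vi [21553,
  21554,25633,25889,25649]) (.vi [21008,21520,21553,25905,21554,25906])) .no))) (.br 4 (.br 5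
  (.pk .no .no (.br 1 (.vi [21008,21520,21553,25649,21554,25906]) (.vi [21553,21554,25889,25921,
  25906])) .no) (.pk (.sh 0 3 [21553,25923]) .no .no .no)) (.br 5 (.vi [21554,25650,25906,
  25922]) (.pk .no .no .no (.br 1 (.vi [21553,21554,25633,25889,25905]) (.br 0 (.vi [21008,
  21520,21553,25872,21554,25650]) (.vi [21008,21520,21553,25376,21554,25888]))))))) (.br 3 (.br
  4 (.br 5 (.pk .no (.br 1 (.vi [21008,21520,21553,25633,21554,25922]) (.sh 0 3 [25921,25922]))
  .no .no) .no) (.br 5 (.pk .no .no .no (.br 0 (.br 1 (.vi [21008,21520,21553,25104,21554,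
  25616]) (.iso 16 70411536 false)) (.vi [21554,25650,25376,25888,25920]))) (.pk .no .no .no
  (.br 1 (.vi [21008,21520,21553,25649,21554,25650]) (.vi [21008,21520,21553,25905,21554,
  25650]))))) (.br 4 (.br 5 (.pk .no (.br 1 (.vi [21553,21554,25633,25649,25922]) (.sh 0 3
  [25921,25922])) .no .no) (.pk (.sh 0 3 [21553,25923]) .no .no .no)) (.br 5 (.pk (.sh 0 3
  [21553,25923]) .no .no .no) .no))))⟩

def e3_25 : En :=
  ⟨⟨6, 20663, [21520,21553,21554]⟩, [.sh 0 3 [21553],.no,.no,.sh 0 3 [21536],.no,.no,.no,.no],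
  (.br 2 (.br 3 (.br 4 (.br 5 .no (.pk .no .no (.br 0 (.vi [21520,21536,21553,25888,21554,
  25906]) (.vi [21536,21554,25376,25920,25906])) .no)) (.br 5 (.pk .no (.sh 0 3 [21536,25922])
  .no .no) (.pk .no .no (.br 0 (.vi [21520,21536,21553,25888,21554,25906]) (.vi [21536,21554,
  25376,25632,25906])) .no))) (.br 4 (.br 5 (.pk .no .no (.br 1 (.vi [21520,21536,21553,25649,
  21554,25906]) (.vi [21553,21554,25889,25921,25906])) .no) (.pk (.sh 0 3 [21553,25923]) .no
  .no .no)) (.br 5 (.vi [21554,25650,25906,25922]) (.pk .no .no .no (.br 0 (.vi [21536,21554,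
  25376,25888,25650]) (.vi [21520,21536,21553,25632,21554,25650])))))) (.br 3 (.br 4 (.br 5
  (.pk .no (.sh 0 3 [21536,25922]) .no .no) .no) (.br 5 (.pk .no .no .no (.br 0 (.vi [21520,
  21536,21553,25632,21554,25650]) (.vi [21520,21536,21553,25920,21554,25650]))) (.pk .no .no
  .no (.br 1 (.vi [21520,21536,21553,25649,21554,25650]) (.vi [21520,21536,21553,25905,21554,
  25650]))))) (.br 4 (.br 5 (.pk .no (.sh 0 3 [21536,25922]) .no .no) (.pk (.sh 0 3 [21553,
  25923]) .no .no .no)) (.br 5 (.pk (.sh 0 3 [21553,25923]) .no .no .no) .no))))⟩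

def e3_26 : En :=
  ⟨⟨6, 6775, [21520,21553,21554]⟩, [.sh 0 3 [21553],.no,.no,.sh 0 3 [21536],.no,.no,.no,.no],
  (.br 2 (.br 3 (.br 4 (.br 5 .no (.pk .no .no (.br 0 (.vi [21520,21536,21553,25888,21554,
  25906]) (.vi [21536,21554,25376,25648,25920])) .no)) (.br 5 (.pk .no .no .no (.br 0 (.vi
  [21520,21536,21553,25632,21554,25650]) (.vi [21536,21554,25376,25888,25650]))) (.vi [21554,
  25650,25906,25922]))) (.br 4 (.br 5 (.pk .no .no (.br 0 (.vi [21536,21554,25376,25648,25906])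
  (.vi [21520,21536,21553,25888,21554,25906])) .no) (.pk (.sh 0 3 [21553,25923]) .no .no .no))
  (.br 5 (.pk .no .no (.br 0 (.vi [21536,21554,25376,25632,25906]) (.vi [21520,21536,21553,
  25888,21554,25906])) .no) (.pk .no (.sh 0 3 [21536,25922]) .no .no)))) (.br 3 (.br 4 (.br 5
  (.pk .no .no .no (.br 0 (.vi [21520,21536,21553,25632,21554,25650]) (.vi [21520,21536,21553,
  25648,21554,25650]))) (.pk .no .no .no (.br 0 (.vi [21520,21536,21553,25632,21554,25650])
  (.vi [21536,21554,25648,25920,25650])))) (.br 5 (.pk .no (.sh 0 3 [21536,25922]) .no .no)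
  (.pk (.sh 0 3 [21553,25923]) .no .no .no))) (.br 4 (.br 5 .no (.pk (.sh 0 3 [21553,25923])
  .no .no .no)) (.br 5 (.pk .no (.sh 0 3 [21536,25922]) .no .no) .no))))⟩

def e3_27 : En :=
  ⟨⟨6, 6771, [21520,21553,21554]⟩, [.sh 0 3 [21553],.no,.no,.sh 0 3 [21536],.no,.no,.no,.no],
  (.br 2 (.br 3 (.br 4 (.br 5 .no (.pk .no .no (.br 0 (.vi [21520,21536,21553,25888,21554,
  25906]) (.vi [21536,21554,25376,25648,25920])) .no)) (.br 5 (.pk .no .no .no (.br 0 (.vi
  [21520,21536,21553,25632,21554,25650]) (.vi [21536,21554,25376,25888,25650]))) (.vi [21554,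
  25650,25906,25922]))) (.br 4 (.br 5 (.pk .no .no (.br 0 (.vi [21536,21554,25376,25648,25906])
  (.vi [21520,21536,21553,25888,21554,25906])) .no) (.pk (.sh 0 3 [21553,25923]) .no .no .no))
  (.br 5 (.pk .no .no (.br 0 (.vi [21536,21554,25376,25632,25906]) (.vi [21520,21536,21553,
  25888,21554,25906])) .no) (.pk .no (.sh 0 3 [21536,25922]) .no .no)))) (.br 3 (.br 4 (.br 5
  (.pk .no .no .no (.br 1 (.vi [21553,21554,25377,25889,25650]) (.vi [21520,21536,21553,25649,
  21554,25650]))) (.pk .no .no .no (.br 0 (.vi [21520,21536,21553,25632,21554,25650]) (.vi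
  [21536,21554,25648,25920,25650])))) (.br 5 (.pk .no (.sh 0 3 [21536,25922]) .no .no) (.pk
  (.sh 0 3 [21553,25923]) .no .no .no))) (.br 4 (.br 5 .no (.pk (.sh 0 3 [21553,25923]) .no .no
  .no)) (.br 5 (.pk .no (.sh 0 3 [21536,25922]) .no .no) .no))))⟩

def e3_28 : En :=
  ⟨⟨6, 17015, [21520,21553,21554]⟩, [.sh 0 3 [21553],.no,.no,.sh 0 3 [21536],.no,.no,.no,.no],
  (.br 2 (.br 3 (.br 4 (.br 5 .no (.pk (.sh 0 3 [21553,25923]) .no .no .no)) (.br 5 (.pk .no
  .no .no (.br 1 (.vi [21520,21536,21553,25649,21554,25650]) (.vi [21553,21554,25633,25921,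
  25650]))) (.pk .no .no .no (.br 0 (.vi [21520,21536,21553,25632,21554,25650]) (.vi [21536,
  21554,25376,25888,25650]))))) (.br 4 (.br 5 (.pk (.sh 0 3 [21553,25923]) .no .no .no) (.pk
  .no .no (.br 0 (.vi [21536,21554,25376,25648,25920]) (.vi [21520,21536,21553,25888,21554,
  25906])) .no)) (.br 5 .no (.pk .no .no (.br 0 (.vi [21536,21554,25376,25632,25906]) (.vi
  [21520,21536,21553,25888,21554,25906])) .no)))) (.br 3 (.br 4 (.br 5 (.pk .no .no .no (.br 0
  (.vi [21520,21536,21553,25632,21554,25650]) (.vi [21536,21554,25648,25920,25650]))) (.vi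
  [21554,25650,25906,25922])) (.br 5 (.pk .no (.sh 0 3 [21536,25922]) .no .no) (.pk .no .no
  (.br 1 (.vi [21553,21554,25633,25889,25649]) (.vi [21520,21536,21553,25905,21554,25906]))
  .no))) (.br 4 (.br 5 (.pk (.sh 0 3 [21553,25923]) .no .no .no) (.pk .no (.sh 0 3 [21536,
  25922]) .no .no)) (.br 5 (.pk .no (.sh 0 3 [21536,25922]) .no .no) .no))))⟩

def e3_29 : En :=
  ⟨⟨6, 17011, [21520,21553,21554]⟩, [.sh 0 3 [21553],.no,.no,.sh 0 3 [21536],.no,.no,.no,.no],
  (.br 2 (.br 3 (.br 4 (.br 5 .no (.pk (.sh 0 3 [21553,25923]) .no .no .no)) (.br 5 (.pk .no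
  .no .no (.br 1 (.vi [21520,21536,21553,25649,21554,25650]) (.vi [21553,21554,25377,25921,
  25650]))) (.pk .no .no .no (.br 0 (.vi [21520,21536,21553,25632,21554,25650]) (.vi [21536,
  21554,25376,25888,25650]))))) (.br 4 (.br 5 (.pk (.sh 0 3 [21553,25923]) .no .no .no) (.pk
  .no .no (.br 0 (.vi [21536,21554,25376,25648,25920]) (.vi [21520,21536,21553,25888,21554,
  25906])) .no)) (.br 5 .no (.pk .no .no (.br 0 (.vi [21536,21554,25376,25632,25906]) (.vi
  [21520,21536,21553,25888,21554,25906])) .no)))) (.br 3 (.br 4 (.br 5 (.pk .no .no .no (.br 0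
  (.vi [21520,21536,21553,25632,21554,25650]) (.vi [21536,21554,25648,25920,25650]))) (.vi
  [21554,25650,25906,25922])) (.br 5 (.pk .no (.sh 0 3 [21536,25922]) .no .no) (.pk .no .no
  (.br 1 (.vi [21553,21554,25377,25649,25906]) (.vi [21520,21536,21553,25905,21554,25906]))
  .no))) (.br 4 (.br 5 (.pk (.sh 0 3 [21553,25923]) .no .no .no) (.pk .no (.sh 0 3 [21536,
  25922]) .no .no)) (.br 5 (.pk .no (.sh 0 3 [21536,25922]) .no .no) .no))))⟩

def e3_30 : En :=
  ⟨⟨6, 6999, [21520,21553,21554]⟩, [.sh 0 3 [21553],.no,.no,.no,.no,.no,.no,.no], (.br 2 (.br 3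
  (.br 4 (.br 5 .no (.pk .no (.br 0 (.br 1 (.vi [21520,21553,21554,25872,25888,25905]) (.vi
  [21520,25616,25888,25633,25922])) (.sh 0 3 [25920,25922])) .no .no)) (.br 5 (.pk .no (.br 1
  (.vi [21553,21554,25633,25649,25922]) (.sh 0 3 [25921,25922])) .no .no) (.pk (.sh 0 3 [21553,
  25923]) .no .no .no))) (.br 4 (.br 5 (.pk .no .no .no (.br 1 (.vi [21553,21554,25377,25905,
  25650]) (.br 0 (.vi [21520,21553,21554,25616,25648,25633]) (.vi [21520,21553,21554,25376,
  25888,25633])))) (.vi [21554,25650,25906,25922])) (.br 5 (.pk .no (.br 1 (.vi [21553,21554,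
  25377,25633,25905]) (.sh 0 3 [25921,25922])) .no .no) (.pk .no .no (.br 0 (.vi [21520,21553,
  21554,25888,25920,25906]) (.br 1 (.vi [21553,21554,25377,25633,25921]) (.iso 17 87188496
  false))) .no)))) (.br 3 (.br 4 (.br 5 (.pk .no .no .no (.br 1 (.br 0 (.iso 18 70411536 true)
  (.vi [21520,21553,25360,25872,25648])) (.br 0 (.vi [21520,21553,21554,25616,25649,25650])
  (.vi [21520,21553,21554,25648,25649,25650])))) (.pk .no .no .no (.br 1 (.vi [21553,21554,
  25377,25905,25650]) (.br 0 (.vi [21520,21553,21554,25616,25649,25650]) (.vi [21520,21553,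
  25648,25920,25649]))))) (.br 5 .no (.pk (.sh 0 3 [21553,25923]) .no .no .no))) (.br 4 (.br 5
  (.pk .no .no (.br 0 (.vi [21520,21553,21554,25376,25648,25906]) (.br 1 (.vi [21520,21553,
  21554,25872,25905,25906]) (.iso 19 87188496 false))) .no) (.pk (.sh 0 3 [21553,25923]) .no
  .no .no)) (.br 5 (.pk .no .no (.br 1 (.br 0 (.vi [21520,21553,25360,25616,25905]) (.vi [21520,
  21553,21554,25872,25905,25906])) (.br 0 (.vi [21520,21553,21554,25376,25921,25906]) (.iso 20
  87188496 false))) .no) .no))))⟩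

def e3_31 : En :=
  ⟨⟨6, 6997, [21520,21553,21554]⟩, [.sh 0 3 [21553],.no,.no,.sh 0 3 [21536],.no,.no,.no,.no],
  (.br 2 (.br 3 (.br 4 (.br 5 .no (.pk .no (.sh 0 3 [21536,25922]) .no .no)) (.br 5 (.pk .no
  (.sh 0 3 [21536,25922]) .no .no) (.pk (.sh 0 3 [21553,25923]) .no .no .no))) (.br 4 (.br 5
  (.pk .no .no .no (.br 1 (.vi [21553,21554,25377,25905,25650]) (.vi [21520,21536,21553,25633,
  21554,25650]))) (.vi [21554,25650,25906,25922])) (.br 5 (.pk .no (.sh 0 3 [21536,25922]) .no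
  .no) (.pk .no .no (.br 0 (.vi [21520,21536,21553,25920,21554,25906]) (.vi [21520,21536,21553,
  25888,21554,25906])) .no)))) (.br 3 (.br 4 (.br 5 (.pk .no .no .no (.br 0 (.vi [21520,21536,
  21553,25632,21554,25650]) (.vi [21536,21554,25888,25648,25650]))) (.pk .no .no .no (.br 0
  (.vi [21520,21536,21553,25632,21554,25650]) (.vi [21536,21554,25648,25920,25650])))) (.br 5
  .no (.pk (.sh 0 3 [21553,25923]) .no .no .no))) (.br 4 (.br 5 (.pk .no .no (.br 0 (.vi [21536,
  21554,25632,25648,25906]) (.vi [21520,21536,21553,25888,21554,25906])) .no) (.pk (.sh 0 3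
  [21553,25923]) .no .no .no)) (.br 5 (.pk .no .no (.br 1 (.vi [21520,21536,21553,25905,21554,
  25906]) (.vi [21520,21536,21553,25921,21554,25906])) .no) .no))))⟩

def e3_32 : En :=
  ⟨⟨6, 16827, [21520,21553,21554]⟩, [.sh 0 3 [21553],.no,.no,.sh 0 3 [21536],.no,.no,.no,.no],
  (.br 2 (.br 3 (.br 4 (.br 5 .no (.pk .no (.sh 0 3 [21536,25922]) .no .no)) (.br 5 (.pk .no
  .no .no (.br 0 (.vi [21520,21536,21553,25632,21554,25650]) (.vi [21536,21554,25648,25920,
  25650]))) (.pk .no .no .no (.br 0 (.vi [21520,21536,21553,25632,21554,25650]) (.vi [21536,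
  21554,25888,25648,25904]))))) (.br 4 (.br 5 (.pk .no .no .no (.br 1 (.vi [21520,21536,21553,
  25649,21554,25650]) (.vi [21553,21554,25633,25921,25650]))) (.vi [21554,25650,25906,25922]))
  (.br 5 (.pk (.sh 0 3 [21553,25923]) .no .no .no) (.pk .no .no (.br 0 (.vi [21536,21554,25632,
  25648,25904]) (.vi [21520,21536,21553,25888,21554,25906])) .no)))) (.br 3 (.br 4 (.br 5 (.pk
  .no (.sh 0 3 [21536,25922]) .no .no) (.pk .no .no (.br 0 (.vi [21520,21536,21553,25888,21554,
  25906]) (.vi [21536,21554,25904,25920,25906])) .no)) (.br 5 .no (.pk .no .no (.br 0 (.vi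
  [21520,21536,21553,25888,21554,25906]) (.vi [21536,21554,25648,25904,25906])) .no))) (.br 4
  (.br 5 (.pk .no (.sh 0 3 [21536,25922]) .no .no) (.pk (.sh 0 3 [21553,25923]) .no .no .no))
  (.br 5 (.pk (.sh 0 3 [21553,25923]) .no .no .no) .no))))⟩

def e3_33 : En :=
  ⟨⟨6, 21073, [21520,21553,21554]⟩, [.sh 0 3 [21553],.no,.no,.sh 0 3 [21536],.no,.no,.no,.no],
  (.br 2 (.br 3 (.br 4 (.br 5 .no (.pk (.sh 0 3 [21553,25923]) .no .no .no)) (.br 5 (.pk .no
  (.sh 0 3 [21536,25922]) .no .no) .no)) (.br 4 (.br 5 (.pk (.sh 0 3 [21553,25923]) .no .no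
  .no) (.pk .no .no (.br 0 (.vi [21536,21554,25648,25920,25906]) (.vi [21520,21536,21553,25888,
  21554,25906])) .no)) (.br 5 (.pk .no (.sh 0 3 [21536,25922]) .no .no) (.pk .no .no (.br 1
  (.vi [21520,21536,21553,25905,21554,25906]) (.vi [21520,21536,21553,25889,21554,25906]))
  .no)))) (.br 3 (.br 4 (.br 5 (.pk .no (.sh 0 3 [21536,25922]) .no .no) (.pk (.sh 0 3 [21553,
  25923]) .no .no .no)) (.br 5 (.pk .no .no .no (.br 1 (.vi [21520,21536,21553,25649,21554,
  25650]) (.vi [21553,21554,25377,25889,25921]))) (.pk .no .no .no (.br 1 (.vi [21520,21536,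
  21553,25649,21554,25650]) (.vi [21553,21554,25377,25905,25650]))))) (.br 4 (.br 5 (.vi [21554,
  25650,25906,25922]) (.pk .no .no .no (.br 0 (.vi [21536,21554,25648,25920,25650]) (.vi [21520,
  21536,21553,25632,21554,25650])))) (.br 5 (.pk .no .no (.br 1 (.vi [21520,21536,21553,25377,
  21554,25906]) (.vi [21553,21554,25889,25921,25906])) .no) .no))))⟩

def e3_34 : En :=
  ⟨⟨6, 16829, [21520,21553,21554]⟩, [.sh 0 3 [21553],.no,.no,.no,.no,.no,.no,.iso 21 4399185
  true], (.br 2 (.br 3 (.br 4 (.br 5 .no (.pk .no (.br 1 (.sh 0 3 [25921,25922]) (.vi [21553,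
  21554,25889,25905,25922])) .no .no)) (.br 5 (.pk .no .no .no (.br 0 (.br 1 (.vi [21520,21553,
  17184,25616,21554,25649]) (.iso 22 70411536 false)) (.vi [17184,25376,25632,25648]))) (.pk
  .no .no .no (.br 1 (.vi [21520,21553,17184,25649,21554,25650]) (.vi [21553,21554,25889,25905,
  25650]))))) (.br 4 (.br 5 (.pk .no .no .no (.br 1 (.vi [21520,21553,17184,25649,21554,25650])
  (.vi [21520,21553,17184,25921,21554,25650]))) (.vi [21554,25650,25906,25922])) (.br 5 (.pk
  (.sh 0 3 [21553,25923]) .no .no .no) (.pk .no .no (.br 0 (.vi [17184,21554,25648,25904,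
  25906]) (.vi [21520,21553,17184,25632,21554,25906])) .no)))) (.br 3 (.br 4 (.br 5 (.pk .no
  (.br 0 (.vi [21520,21553,17184,25376,21554,25922]) (.vi [21520,21553,17184,25632,21554,
  25922])) .no .no) (.pk .no .no (.br 0 (.vi [21520,21553,17184,25376,21554,25906]) (.vi [17184,
  21554,25632,25904,25920])) .no)) (.br 5 .no (.pk .no .no (.br 0 (.vi [21520,21553,17184,25376,
  21554,25906]) (.vi [17184,21554,25648,25904,25906])) .no))) (.br 4 (.br 5 (.pk .no (.br 1
  (.vi [21520,21553,17184,25649,21554,25922]) (.sh 0 3 [25921,25922])) .no .no) (.pk (.sh 0 3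
  [21553,25923]) .no .no .no)) (.br 5 (.pk (.sh 0 3 [21553,25923]) .no .no .no) .no))))⟩

def e3_35 : En :=
  ⟨⟨6, 16831, [21520,21553,21554]⟩, [.sh 0 3 [21553],.no,.no,.sh 0 3 [21536],.no,.no,.no,.no],
  (.br 2 (.br 3 (.br 4 (.br 5 .no (.pk .no (.sh 0 3 [21536,25922]) .no .no)) (.br 5 (.pk .no
  .no .no (.br 0 (.vi [21520,21536,21553,25632,21554,25650]) (.vi [21536,21554,25648,25920,
  25650]))) (.pk .no .no .no (.br 0 (.vi [21520,21536,21553,25632,21554,25650]) (.vi [21536,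
  21554,25888,25648,25904]))))) (.br 4 (.br 5 (.pk .no .no .no (.br 1 (.vi [21520,21536,21553,
  25649,21554,25650]) (.vi [21520,21536,21553,25921,21554,25650]))) (.vi [21554,25650,25906,
  25922])) (.br 5 (.pk (.sh 0 3 [21553,25923]) .no .no .no) (.pk .no .no (.br 0 (.vi [21536,
  21554,25632,25648,25904]) (.vi [21520,21536,21553,25888,21554,25906])) .no)))) (.br 3 (.br 4
  (.br 5 (.pk .no (.sh 0 3 [21536,25922]) .no .no) (.pk .no .no (.br 0 (.vi [21520,21536,21553,
  25888,21554,25906]) (.vi [21536,21554,25904,25920,25906])) .no)) (.br 5 .no (.pk .no .no (.br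
  0 (.vi [21520,21536,21553,25888,21554,25906]) (.vi [21536,21554,25648,25904,25906])) .no)))
  (.br 4 (.br 5 (.pk .no (.sh 0 3 [21536,25922]) .no .no) (.pk (.sh 0 3 [21553,25923]) .no .no
  .no)) (.br 5 (.pk (.sh 0 3 [21553,25923]) .no .no .no) .no))))⟩

def e3_36 : En :=
  ⟨⟨6, 20671, [21520,21553,21554]⟩, [.sh 0 3 [21553],.no,.no,.sh 0 3 [21536],.no,.no,.no,.no],
  (.br 2 (.br 3 (.br 4 (.br 5 .no (.pk .no .no (.br 0 (.vi [21520,21536,21553,25888,21554,
  25906]) (.vi [21536,21554,25904,25920,25906])) .no)) (.br 5 (.pk .no (.sh 0 3 [21536,25922])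
  .no .no) (.pk .no .no (.br 0 (.vi [21520,21536,21553,25888,21554,25906]) (.vi [21536,21554,
  25632,25648,25904])) .no))) (.br 4 (.br 5 (.pk .no .no (.br 1 (.vi [21520,21536,21553,25649,
  21554,25906]) (.vi [21553,21554,25889,25921,25906])) .no) (.pk (.sh 0 3 [21553,25923]) .no
  .no .no)) (.br 5 (.vi [21554,25650,25906,25922]) (.pk .no .no .no (.br 0 (.vi [21536,21554,
  25888,25648,25904]) (.vi [21520,21536,21553,25632,21554,25650])))))) (.br 3 (.br 4 (.br 5
  (.pk .no (.sh 0 3 [21536,25922]) .no .no) .no) (.br 5 (.pk .no .no .no (.br 0 (.vi [21520,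
  21536,21553,25632,21554,25650]) (.vi [21536,21554,25648,25920,25650]))) (.pk .no .no .no (.br
  0 (.vi [21520,21536,21553,25632,21554,25650]) (.vi [21536,21554,25648,25904,25650]))))) (.br
  4 (.br 5 (.pk .no (.sh 0 3 [21536,25922]) .no .no) (.pk (.sh 0 3 [21553,25923]) .no .no .no))
  (.br 5 (.pk (.sh 0 3 [21553,25923]) .no .no .no) .no))))⟩

def L3 : List En :=
  [e3_0, e3_1, e3_2, e3_3, e3_4, e3_5, e3_6, e3_7, e3_8, e3_9, e3_10, e3_11, e3_12, e3_13,
  e3_14, e3_15, e3_16, e3_17, e3_18, e3_19, e3_20, e3_21, e3_22, e3_23, e3_24, e3_25, e3_26,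
  e3_27, e3_28, e3_29, e3_30, e3_31, e3_32, e3_33, e3_34, e3_35, e3_36]

def e4_0 : En :=
  ⟨⟨7, 1198721, [25872,25889,25922,25923]⟩, [.sh 0 4 [25889,25922],.no,.no,.no,.no,.no,.no,.no,
  .no,.no,.no,.no], (.br 3 (.br 4 (.br 5 (.br 6 .no (.pk (.sh 0 4 [25889,25922,30292]) .no .no
  .no)) (.br 6 (.pk .no .no .no (.br 2 (.vi [25872,25889,25922,17168,30290,25923,30019]) (.vi
  [25872,25889,25922,17168,30018,25923,30019]))) (.pk .no .no .no (.br 1 (.br 0 (.vi [25872,
  25889,25922,17168,29968,25923,30019]) (.vi [17168,29712,30224,25872,25923,30016])) (.vi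
  [17168,29745,30273,25872,25923,30019]))))) (.br 5 (.br 6 (.pk (.sh 0 4 [25889,25922,30292])
  .no .no .no) (.pk .no .no (.br 2 (.vi [25872,25889,25922,17168,30274,25923,30275]) (.vi
  [25922,25923,29746,30018,30275])) .no)) (.br 6 .no (.pk .no .no (.br 2 (.vi [25872,25889,
  25922,17168,30274,25923,30275]) (.vi [25872,25889,25922,17168,29746,25923,30275])) .no))))
  (.br 4 (.br 5 (.br 6 (.pk .no .no .no (.br 1 (.vi [17168,29745,30019,25872,25889,25922,
  25923]) (.sh 0 4 [30289,30001,30019]))) (.vi [25923,30019,30275,30291])) (.br 6 (.pk .no (.br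
  2 (.sh 0 4 [25889,30290,30291]) (.vi [25922,25923,29746,30258,30018])) .no .no) (.pk .no .no
  (.br 2 (.vi [25872,25889,25922,17168,30258,25923,30275]) (.vi [25922,25923,29746,30018,
  30275])) .no))) (.br 5 (.br 6 (.pk (.sh 0 4 [25889,25922,30292]) .no .no .no) (.pk .no (.br 1
  (.sh 0 4 [30289,30291]) (.vi [25872,25889,25922,17168,30001,25923,30291])) .no .no)) (.br 6
  (.pk .no (.br 2 (.sh 0 4 [25889,30290,30291]) (.vi [25922,25923,30258,30274,30291])) .no .no)
  .no))))⟩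

def e4_1 : En :=
  ⟨⟨6, 7106, [21008,21520,21553,21554]⟩, [.sh 0 4 [21520,21553],.no,.no,.no,.no,.no,.no,.no],
  (.br 2 (.br 3 (.br 4 (.br 5 .no (.pk .no (.br 0 (.sh 0 4 [25888,25922]) (.sh 0 4 [21520,25920,
  25922])) .no .no)) (.br 5 (.pk .no (.br 1 (.sh 0 4 [21520,25921,25922]) (.sh 0 4 [25889,
  25922])) .no .no) (.pk (.sh 0 4 [21520,21553,25923]) .no .no .no))) (.br 4 (.br 5 (.pk .no
  .no .no (.br 0 (.vi [21008,21520,21553,25648,21554,25650]) (.sh 0 4 [25888,25376,25650])))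
  (.vi [21554,25650,25906,25922])) (.br 5 (.pk .no (.br 1 (.sh 0 4 [21520,25921,25922]) (.sh 0
  4 [25889,25922])) .no .no) (.pk .no .no (.br 0 (.sh 0 4 [25888,25906]) (.vi [21008,21520,
  21553,25376,21554,25906])) .no)))) (.br 3 (.br 4 (.br 5 (.pk .no .no .no (.br 1 (.sh 0 4
  [25889,25633,25650]) (.vi [21008,21520,21553,25649,21554,25650]))) (.pk .no .no .no (.br 1
  (.vi [21553,21554,25633,25921,25650]) (.vi [21008,21520,21553,25649,21554,25650])))) (.br 5
  .no (.pk (.sh 0 4 [21520,21553,25923]) .no .no .no))) (.br 4 (.br 5 (.pk .no .no (.br 1 (.sh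
  0 4 [25889,25906]) (.vi [21008,21520,21553,25905,21554,25906])) .no) (.pk (.sh 0 4 [21520,
  21553,25923]) .no .no .no)) (.br 5 (.pk .no .no (.br 1 (.sh 0 4 [25889,25906]) (.vi [21008,
  21520,21553,25905,21554,25906])) .no) .no))))⟩

def e4_2 : En :=
  ⟨⟨7, 1639366, [25104,25889,25922,25923]⟩, [.sh 0 4 [25889,25922],.no,.sh 0 4 [25889,25922,
  25920],.no,.no,.no,.no,.no,.no,.no,.no,.no], (.br 3 (.br 4 (.br 5 (.br 6 .no (.pk .no .no
  (.br 0 (.vi [25104,25889,25920,25923,30272,25922,30275]) (.vi [25920,25923,29744,30288,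
  30275])) .no)) (.br 6 (.pk (.sh 0 4 [25889,25922,30292]) .no .no .no) (.pk .no .no (.br 0
  (.vi [25104,25889,25920,25923,30272,25922,30275]) (.vi [25920,25923,29744,30016,30275]))
  .no))) (.br 5 (.br 6 (.pk (.sh 0 4 [25889,25922,30292]) .no .no .no) .no) (.br 6 (.pk .no .no
  .no (.br 0 (.vi [25104,25889,25920,25923,30016,25922,30019]) (.vi [25104,25889,25920,25923,
  30288,25922,30019]))) (.pk .no .no .no (.br 0 (.vi [25104,25889,25920,25923,30016,25922,
  30019]) (.br 2 (.vi [25920,25922,29984,30240,30018]) (.br 1 (.vi [25104,25889,25920,30224,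
  25922,29985]) (.iso 0 1412915728 false)))))))) (.br 4 (.br 5 (.br 6 (.pk .no .no (.br 1 (.vi
  [25104,25889,25920,25923,29745,25922,30275]) (.vi [25889,25922,25923,30257,30289,30275]))
  .no) (.pk .no (.br 2 (.vi [25922,25923,29746,30274,30291]) (.sh 0 4 [25889,30290,30291])) .no
  .no)) (.br 6 (.vi [25923,30019,30275,30291]) (.pk .no .no .no (.br 0 (.vi [25920,25923,29744,
  30272,30019]) (.vi [25104,25889,25920,25923,30016,25922,30019]))))) (.br 5 (.br 6 (.pk (.sh 0
  4 [25889,25922,30292]) .no .no .no) (.pk .no (.br 2 (.br 1 (.sh 0 4 [30241,30257,30291]) (.vi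
  [25104,25889,25920,25923,29473,25922,30291])) (.sh 0 4 [25889,30290,30291])) .no .no)) (.br 6
  (.pk .no (.br 1 (.sh 0 4 [25889,30289,30291]) (.vi [25104,25889,25920,25923,30257,25922,
  30291])) .no .no) .no))))⟩

def e4_3 : En :=
  ⟨⟨7, 1458181, [25104,25889,25922,25923]⟩, [.sh 0 4 [25889,25922],.no,.no,.no,.no,.no,.no,.no,
  .no,.no,.no,.no], (.br 3 (.br 4 (.br 5 (.br 6 .no (.pk (.sh 0 4 [25889,25922,30292]) .no .no
  .no)) (.br 6 (.pk .no (.br 2 (.sh 0 4 [25889,30290,30291]) (.sh 0 4 [25377,30258,30291])) .no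
  .no) .no)) (.br 5 (.br 6 (.pk (.sh 0 4 [25889,25922,30292]) .no .no .no) (.pk .no .no (.br 2
  (.vi [25377,25889,25922,30274,25923,30275]) (.vi [25377,25889,25922,30018,25923,30275]))
  .no)) (.br 6 (.pk .no (.br 2 (.sh 0 4 [25889,30290,30291]) (.sh 0 4 [25377,30258,30291])) .no
  .no) (.pk .no .no (.br 1 (.br 2 (.sh 0 4 [30241,30274,30275]) (.vi [25377,25889,25922,29729,
  25923,29985])) (.sh 0 4 [25377,30257,30275])) .no)))) (.br 4 (.br 5 (.br 6 (.pk .no (.br 2
  (.sh 0 4 [25377,30258,30291]) (.sh 0 4 [25889,30290,30291])) .no .no) (.pk (.sh 0 4 [25889,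
  25922,30292]) .no .no .no)) (.br 6 (.pk .no .no .no (.br 2 (.vi [25922,25923,30258,30290,
  30019]) (.vi [25377,25889,25922,30018,25923,30019]))) (.pk .no .no .no (.br 1 (.br 2 (.vi
  [25377,25889,25922,30241,25923,30019]) (.vi [25377,25889,25922,29473,25923,29985])) (.vi
  [25377,25889,25922,30017,25923,30019]))))) (.br 5 (.br 6 (.vi [25923,30019,30275,30291]) (.pk
  .no .no .no (.br 2 (.vi [25377,25889,25922,30274,25923,30019]) (.vi [25377,25889,25922,30018,
  25923,30019])))) (.br 6 (.pk .no .no (.br 2 (.sh 0 4 [25377,30258,30275]) (.vi [25377,25889,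
  25922,30274,25923,30275])) .no) .no))))⟩

def e4_4 : En :=
  ⟨⟨7, 1458213, [25104,25889,25922,25923]⟩, [.sh 0 4 [25889,25922],.no,.no,.no,.no,.no,.no,.no,
  .no,.no,.no,.no], (.br 3 (.br 4 (.br 5 (.br 6 .no (.pk (.sh 0 4 [25889,25922,30292]) .no .no
  .no)) (.br 6 (.pk .no (.br 2 (.sh 0 4 [25889,30290,30291]) (.vi [25922,25923,30002,30018,
  30291])) .no .no) .no)) (.br 5 (.br 6 (.pk (.sh 0 4 [25889,25922,30292]) .no .no .no) (.pk
  .no .no (.br 2 (.vi [12816,25104,25889,25922,30274,25923,30275]) (.vi [25922,25923,29746,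
  30018,30275])) .no)) (.br 6 (.pk .no (.br 2 (.sh 0 4 [25889,30290,30291]) (.vi [25922,25923,
  29746,30002,30274])) .no .no) (.pk .no .no (.br 2 (.vi [12816,25104,25889,25922,30274,25923,
  30275]) (.vi [25922,25923,29746,30002,30275])) .no)))) (.br 4 (.br 5 (.br 6 (.pk .no (.br 2
  (.br 1 (.vi [12816,25104,25889,25922,29473,25923,30291]) (.sh 0 4 [30241,30257,30291])) (.sh
  0 4 [25889,30290,30291])) .no .no) (.pk (.sh 0 4 [25889,25922,30292]) .no .no .no)) (.br 6
  (.pk .no .no .no (.br 2 (.vi [25922,25923,30002,30290,30019]) (.vi [12816,25104,25889,25922,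
  30018,25923,30019]))) (.pk .no .no .no (.br 2 (.vi [12816,25104,25889,25922,30002,25923,
  30019]) (.vi [12816,25104,25889,25922,30018,25923,30019]))))) (.br 5 (.br 6 (.vi [25923,30019,
  30275,30291]) (.pk .no .no .no (.br 2 (.vi [25922,25923,29746,30274,30019]) (.vi [12816,25104,
  25889,25922,30018,25923,30019])))) (.br 6 (.pk .no .no (.br 2 (.vi [25922,25923,29746,30002,
  30290]) (.vi [12816,25104,25889,25922,30274,25923,30275])) .no) .no))))⟩

def e4_5 : En :=
  ⟨⟨7, 1196549, [25104,25889,25922,25923]⟩, [.sh 0 4 [25889,25922],.no,.no,.no,.no,.no,.no,.no,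
  .no,.no,.no,.no], (.br 3 (.br 4 (.br 5 (.br 6 .no (.pk (.sh 0 4 [25889,25922,30292]) .no .no
  .no)) (.br 6 (.pk .no .no .no (.br 1 (.br 2 (.br 0 (.iso 1 1412915728 false) (.vi [25104,
  25889,29200,29968,30288])) (.vi [25889,25922,25923,29985,30018,30019])) (.vi [25889,25922,
  25923,30017,30289,30019]))) (.pk .no .no .no (.br 0 (.br 1 (.br 2 (.iso 2 1412915728 false)
  (.vi [25104,25889,25922,29200,29985,30018])) (.vi [25104,25889,25922,29968,30224,30017]))
  (.br 1 (.vi [25104,25889,25922,29968,30224,30016]) (.vi [25104,25889,25922,25923,30016,30017,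
  30019])))))) (.br 5 (.br 6 (.pk (.sh 0 4 [25889,25922,30292]) .no .no .no) (.pk .no .no (.br
  2 (.br 1 (.sh 0 4 [30241,30274,30275]) (.vi [25889,25922,29729,30017,30289])) (.vi [25922,
  25923,29746,30018,30275])) .no)) (.br 6 .no (.pk .no .no (.br 2 (.br 1 (.sh 0 4 [30241,30274,
  30275]) (.vi [25889,25922,29729,29985,30274])) (.br 1 (.vi [25889,25922,25923,29729,29985,
  29746]) (.vi [25889,25922,25923,29745,29746,30275]))) .no)))) (.br 4 (.br 5 (.br 6 (.pk .no
  .no .no (.br 2 (.br 1 (.br 0 (.iso 3 1412915728 false) (.vi [25104,25889,25922,25923,29200,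
  29456,29744])) (.vi [25889,25922,25923,29473,30241,29745])) (.vi [25922,25923,29746,30258,
  30290]))) (.vi [25923,30019,30275,30291])) (.br 6 (.pk .no (.br 2 (.sh 0 4 [25889,30290,
  30291]) (.vi [25922,25923,29746,30258,30018])) .no .no) (.pk .no .no (.br 2 (.br 1 (.sh 0 4
  [30241,30258,30275]) (.vi [25889,25922,25923,29473,29985,29745])) (.vi [25922,25923,29746,
  30018,30275])) .no))) (.br 5 (.br 6 (.pk (.sh 0 4 [25889,25922,30292]) .no .no .no) (.pk .no
  (.br 1 (.br 2 (.sh 0 4 [30241,30258,30291]) (.vi [25889,25922,25923,29473,29729,30018])) (.sh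
  0 4 [25889,30289,30291])) .no .no)) (.br 6 (.pk .no (.br 2 (.sh 0 4 [25889,30290,30291]) (.vi
  [25922,25923,30258,30274,30291])) .no .no) .no))))⟩

def e4_6 : En :=
  ⟨⟨6, 18806, [21008,21520,21553,21554]⟩, [.sh 0 4 [21520,21553],.no,.no,.no,.no,.no,.no,.no],
  (.br 2 (.br 3 (.br 4 (.br 5 .no (.pk .no (.br 0 (.sh 0 4 [21520,25920,25922]) (.sh 0 4 [25888,
  25922])) .no .no)) (.br 5 (.pk .no .no .no (.br 1 (.vi [21553,21554,25633,25921,25650]) (.vi
  [21008,21520,21553,25649,21554,25650]))) (.pk .no .no .no (.br 1 (.sh 0 4 [25889,25633,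
  25650]) (.vi [21008,21520,21553,25649,21554,25650]))))) (.br 4 (.br 5 (.pk .no .no .no (.br 1
  (.vi [21008,21520,21553,25905,21554,25650]) (.vi [21553,21554,25633,25921,25650]))) (.vi
  [21554,25650,25906,25922])) (.br 5 (.pk (.sh 0 4 [21520,21553,25923]) .no .no .no) (.pk .no
  .no (.br 0 (.vi [21008,21520,21553,25376,21554,25648]) (.sh 0 4 [25888,25906])) .no)))) (.br
  3 (.br 4 (.br 5 (.pk .no (.br 1 (.sh 0 4 [25889,25922]) (.sh 0 4 [21520,25921,25922])) .no
  .no) (.pk .no .no (.br 0 (.sh 0 4 [25888,25906]) (.br 1 (.sh 0 4 [25872,25905,25906]) (.vi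
  [21008,21520,21553,25360,21554,25616]))) .no)) (.br 5 .no (.pk .no .no (.br 1 (.vi [21008,
  21520,21553,25905,21554,25906]) (.vi [21008,21520,21553,25649,21554,25906])) .no))) (.br 4
  (.br 5 (.pk .no (.br 1 (.sh 0 4 [25889,25922]) (.sh 0 4 [21520,25921,25922])) .no .no) (.pk
  (.sh 0 4 [21520,21553,25923]) .no .no .no)) (.br 5 (.pk (.sh 0 4 [21520,21553,25923]) .no .no
  .no) .no))))⟩

def e4_7 : En :=
  ⟨⟨7, 1062703, [25872,25889,25922,25923]⟩, [.sh 0 4 [25889,25922],.no,.no,.no,.no,.no,.no,.no,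
  .no,.no,.no,.no], (.br 3 (.br 4 (.br 5 (.br 6 .no (.pk .no (.br 0 (.sh 0 4 [30288,30291])
  (.vi [17168,29744,30256,25872,25923,30291])) .no .no)) (.br 6 (.pk .no .no .no (.br 1 (.br 0
  (.vi [25872,25889,25922,17168,29968,25923,30019]) (.vi [17168,29744,30019,25872,25889,25922,
  25923])) (.sh 0 4 [30289,30001,30019]))) (.pk .no .no .no (.br 2 (.vi [25872,25889,25922,
  17168,30018,25923,30019]) (.vi [25922,25923,30258,30274,30019]))))) (.br 5 (.br 6 (.pk .no
  .no .no (.br 0 (.vi [17168,29744,30019,25872,25889,25922,25923]) (.sh 0 4 [30288,30016,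
  30019]))) (.vi [25923,30019,30275,30291])) (.br 6 (.pk (.sh 0 4 [25889,25922,30292]) .no .no
  .no) (.pk .no .no (.br 0 (.vi [17168,29744,30016,25872,25923,30275]) (.vi [25872,25889,25922,
  17168,30256,25923,30275])) .no)))) (.br 4 (.br 5 (.br 6 (.pk .no (.br 0 (.br 1 (.vi [25872,
  25889,25922,17168,29456,25923,30291]) (.sh 0 4 [29968,30001,30291])) (.sh 0 4 [30288,30291]))
  .no .no) (.pk .no .no (.br 2 (.vi [25922,25923,30258,30290,30275]) (.vi [25872,25889,25922,
  17168,30274,25923,30275])) .no)) (.br 6 .no (.pk .no .no (.br 2 (.vi [25922,25923,30258,30018,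
  30275]) (.vi [25872,25889,25922,17168,30274,25923,30275])) .no))) (.br 5 (.br 6 (.pk .no (.br
  2 (.vi [25872,25889,25922,17168,30018,25923,30291]) (.sh 0 4 [25889,30290,30291])) .no .no)
  (.pk (.sh 0 4 [25889,25922,30292]) .no .no .no)) (.br 6 (.pk (.sh 0 4 [25889,25922,30292])
  .no .no .no) .no))))⟩

def e4_8 : En :=
  ⟨⟨7, 425019, [25104,25889,25922,25923]⟩, [.sh 0 4 [25889,25922],.no,.no,.no,.no,.no,.no,.no,
  .no,.no,.no,.no], (.br 3 (.br 4 (.br 5 (.br 6 .no (.pk .no (.br 1 (.br 2 (.sh 0 4 [25889,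
  30290,30291]) (.vi [25889,29985,29473,30257,30291])) (.sh 0 4 [25889,30289,30291])) .no .no))
  (.br 6 (.pk .no (.br 2 (.sh 0 4 [25889,30290,30291]) (.br 1 (.br 0 (.vi [25104,25889,25922,
  25923,29200,29473,30291]) (.vi [25104,25889,25922,25923,30256,29473,30291])) (.sh 0 4 [30241,
  30257,30291]))) .no .no) (.pk (.sh 0 4 [25889,25922,30292]) .no .no .no))) (.br 5 (.br 6 (.pk
  .no .no .no (.br 2 (.br 1 (.vi [25889,25922,25923,30017,30018,30019]) (.vi [29473,29985,29745,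
  30018,30019])) (.vi [25922,25923,29746,30274,30019]))) (.vi [25923,30019,30275,30291])) (.br
  6 (.pk .no (.br 2 (.sh 0 4 [25889,30290,30291]) (.vi [25922,25923,29746,30274,30291])) .no
  .no) (.pk .no .no (.br 1 (.vi [25889,25922,25923,30257,30289,30275]) (.br 2 (.sh 0 4 [30241,
  30274,30275]) (.vi [25889,25922,25923,29745,29746,30275]))) .no)))) (.br 4 (.br 5 (.br 6 (.pk
  .no .no .no (.br 0 (.br 1 (.br 2 (.iso 4 1412915728 true) (.vi [25104,25889,25922,29200,29985,
  30018])) (.br 2 (.vi [25104,25889,25922,29200,29985,30017]) (.vi [25889,25922,30241,30017,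
  30018]))) (.br 2 (.vi [25104,25889,25922,25923,30240,30016,30019]) (.vi [25104,25889,25922,
  25923,30016,30018,30019])))) (.pk .no .no .no (.br 1 (.br 2 (.br 0 (.vi [25104,25889,25922,
  25923,30240,30290,30019]) (.vi [25104,25889,30224,30288,30290])) (.vi [25889,25922,25923,
  29985,30018,30019])) (.vi [25889,25922,25923,30017,30289,30019])))) (.br 6 .no (.pk (.sh 0 4
  [25889,25922,30292]) .no .no .no))) (.br 5 (.br 6 (.pk .no .no (.br 2 (.vi [25922,25923,29746,
  30018,30275]) (.br 1 (.vi [25889,25922,29985,30017,30274]) (.sh 0 4 [30241,30274,30275])))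
  .no) (.pk (.sh 0 4 [25889,25922,30292]) .no .no .no)) (.br 6 (.pk .no .no (.br 2 (.vi [25922,
  25923,29746,30290,30275]) (.br 1 (.vi [25889,25922,25923,29745,30274,30275]) (.sh 0 4 [30241,
  30274,30275]))) .no) .no))))⟩

def e4_9 : En :=
  ⟨⟨7, 424987, [25104,25889,25922,25923]⟩, [.sh 0 4 [25889,25922],.no,.no,.no,.no,.no,.no,.no,
  .no,.no,.no,.no], (.br 3 (.br 4 (.br 5 (.br 6 .no (.pk .no (.br 1 (.sh 0 4 [25377,30257,
  30291]) (.sh 0 4 [25889,30289,30291])) .no .no)) (.br 6 (.pk .no (.br 2 (.sh 0 4 [25889,30290,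
  30291]) (.sh 0 4 [25377,30258,30291])) .no .no) (.pk (.sh 0 4 [25889,25922,30292]) .no .no
  .no))) (.br 5 (.br 6 (.pk .no .no .no (.br 2 (.vi [25377,25889,25922,30018,25923,30019]) (.vi
  [25922,25923,30002,30258,30274]))) (.vi [25923,30019,30275,30291])) (.br 6 (.pk .no (.br 2
  (.sh 0 4 [25889,30290,30291]) (.sh 0 4 [25377,30258,30291])) .no .no) (.pk .no .no (.br 1
  (.sh 0 4 [25377,30257,30275]) (.vi [25377,25889,25922,29745,25923,30275])) .no)))) (.br 4
  (.br 5 (.br 6 (.pk .no .no .no (.br 2 (.vi [25922,25923,30002,30258,30019]) (.vi [25377,25889,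
  25922,30018,25923,30019]))) (.pk .no .no .no (.br 2 (.vi [25922,25923,30002,30290,30019])
  (.vi [25377,25889,25922,30018,25923,30019])))) (.br 6 .no (.pk (.sh 0 4 [25889,25922,30292])
  .no .no .no))) (.br 5 (.br 6 (.pk .no .no (.br 2 (.sh 0 4 [25377,30258,30275]) (.vi [25377,
  25889,25922,30274,25923,30275])) .no) (.pk (.sh 0 4 [25889,25922,30292]) .no .no .no)) (.br 6
  (.pk .no .no (.br 2 (.sh 0 4 [25377,30258,30275]) (.vi [25377,25889,25922,30274,25923,
  30275])) .no) .no))))⟩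

def e4_10 : En :=
  ⟨⟨6, 23041, [21008,21520,21553,21554]⟩, [.sh 0 4 [21520,21553],.no,.no,.no,.no,.no,.no,.no],
  (.br 2 (.br 3 (.br 4 (.br 5 .no (.pk (.sh 0 4 [21520,21553,25923]) .no .no .no)) (.br 5 (.pk
  .no (.br 1 (.sh 0 4 [21520,25921,25922]) (.sh 0 4 [25889,25922])) .no .no) .no)) (.br 4 (.br
  5 (.pk (.sh 0 4 [21520,21553,25923]) .no .no .no) (.pk .no .no (.br 1 (.vi [21008,21520,21553,
  25905,21554,25906]) (.vi [21008,21520,21553,25649,21554,25906])) .no)) (.br 5 (.pk .no (.br 1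
  (.sh 0 4 [21520,25921,25922]) (.sh 0 4 [25889,25922])) .no .no) (.pk .no .no (.br 0 (.br 1
  (.sh 0 4 [25872,25905,25906]) (.vi [21008,21520,21553,25360,21554,25616])) (.sh 0 4 [25888,
  25906])) .no)))) (.br 3 (.br 4 (.br 5 (.pk .no (.br 1 (.sh 0 4 [25889,25922]) (.sh 0 4 [21520,
  25921,25922])) .no .no) (.pk (.sh 0 4 [21520,21553,25923]) .no .no .no)) (.br 5 (.pk .no .no
  .no (.br 1 (.vi [21553,21554,25889,25921,25650]) (.vi [21008,21520,21553,25649,21554,
  25650]))) (.pk .no .no .no (.br 0 (.br 1 (.vi [21008,21520,21553,25872,21554,25650]) (.vi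
  [21008,21520,21553,25104,21554,25616])) (.vi [21008,21520,21553,25648,21554,25650]))))) (.br
  4 (.br 5 (.vi [21554,25650,25906,25922]) (.pk .no .no .no (.br 1 (.vi [21008,21520,21553,
  25905,21554,25650]) (.vi [21008,21520,21553,25649,21554,25650])))) (.br 5 (.pk .no .no (.br 1
  (.sh 0 4 [25889,25906]) (.vi [21008,21520,21553,25905,21554,25906])) .no) .no))))⟩

def e4_11 : En :=
  ⟨⟨7, 606171, [25104,25889,25922,25923]⟩, [.sh 0 4 [25889,25922],.no,.sh 0 4 [25889,25922,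
  25920],.no,.no,.no,.no,.no,.no,.no,.no,.no], (.br 3 (.br 4 (.br 5 (.br 6 .no (.pk .no .no
  (.br 0 (.vi [25104,25889,25920,25923,30272,25922,30275]) (.vi [25920,25923,30256,30288,
  30275])) .no)) (.br 6 (.pk .no .no .no (.br 2 (.vi [25104,25889,25920,25923,30018,25922,
  30019]) (.vi [25922,25923,29746,30274,30019]))) (.vi [25923,30019,30275,30291]))) (.br 5 (.br
  6 (.pk .no .no .no (.br 2 (.vi [25104,25889,25920,25923,30018,25922,30019]) (.vi [25104,25889,
  25920,25923,30002,25922,30019]))) (.pk .no .no .no (.br 0 (.vi [25104,25889,25920,25923,30016,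
  25922,30019]) (.vi [25920,25923,30256,30288,30019])))) (.br 6 (.pk (.sh 0 4 [25889,25922,
  30292]) .no .no .no) (.pk .no (.br 0 (.vi [25104,25889,25920,25923,30288,25922,30291]) (.vi
  [25104,25889,25920,25923,30256,25922,30291])) .no .no)))) (.br 4 (.br 5 (.br 6 (.pk .no .no
  (.br 2 (.vi [25922,25923,29746,30002,30275]) (.vi [25104,25889,25920,25923,30274,25922,
  30275])) .no) (.pk .no (.br 2 (.vi [25922,25923,29746,30002,30274]) (.sh 0 4 [25889,30290,
  30291])) .no .no)) (.br 6 (.pk .no .no (.br 2 (.vi [25922,25923,29746,30018,30275]) (.vi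
  [25104,25889,25920,25923,30274,25922,30275])) .no) (.pk (.sh 0 4 [25889,25922,30292]) .no .no
  .no))) (.br 5 (.br 6 .no (.pk .no (.br 2 (.vi [25922,25923,30002,30018,30291]) (.sh 0 4
  [25889,30290,30291])) .no .no)) (.br 6 (.pk (.sh 0 4 [25889,25922,30292]) .no .no .no)
  .no))))⟩

def e4_12 : En :=
  ⟨⟨7, 867835, [25104,25889,25922,25923]⟩, [.sh 0 4 [25889,25922],.no,.sh 0 4 [25889,25922,
  25920],.no,.no,.no,.no,.no,.no,.no,.no,.no], (.br 3 (.br 4 (.br 5 (.br 6 .no (.pk .no (.br 2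
  (.vi [25922,25923,30258,30274,30291]) (.sh 0 4 [25889,30290,30291])) .no .no)) (.br 6 (.pk
  .no (.br 0 (.vi [25104,25889,25920,25923,30016,25922,30291]) (.vi [25920,25923,30256,30272,
  30291])) .no .no) (.pk (.sh 0 4 [25889,25922,30292]) .no .no .no))) (.br 5 (.br 6 (.pk .no
  .no (.br 0 (.vi [25920,25923,29744,30016,30275]) (.vi [25104,25889,25920,25923,30256,25922,
  30275])) .no) (.pk .no (.br 2 (.vi [25922,25923,29746,30258,30018]) (.sh 0 4 [25889,30290,
  30291])) .no .no)) (.br 6 (.vi [25923,30019,30275,30291]) (.pk .no .no .no (.br 0 (.vi [25920,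
  25923,29744,30256,30288]) (.br 2 (.vi [25922,25923,29746,30258,30290]) (.br 1 (.vi [25889,
  25922,25923,29473,30241,29745]) (.iso 5 1412915728 true)))))))) (.br 4 (.br 5 (.br 6 (.pk .no
  .no (.br 0 (.vi [25104,25889,25920,25923,29744,25922,30275]) (.vi [25104,25889,25920,25923,
  30272,25922,30275])) .no) .no) (.br 6 (.pk .no .no (.br 0 (.vi [25920,25923,29744,30016,
  30275]) (.vi [25104,25889,25920,25923,30272,25922,30275])) .no) (.pk (.sh 0 4 [25889,25922,
  30292]) .no .no .no))) (.br 5 (.br 6 (.pk .no .no .no (.br 0 (.vi [25104,25889,25920,25923,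
  30016,25922,30019]) (.br 1 (.vi [25104,25889,25920,30224,25922,30017]) (.br 2 (.vi [25104,
  25889,25920,29985,25922,30018]) (.vi [25104,25889,25920,25923,30241,25922,30019]))))) (.pk
  .no .no .no (.br 0 (.vi [25104,25889,25920,25923,30016,25922,30019]) (.vi [25104,25889,25920,
  25923,30288,25922,30019])))) (.br 6 (.pk (.sh 0 4 [25889,25922,30292]) .no .no .no) .no))))⟩

def e4_13 : En :=
  ⟨⟨7, 1001617, [25104,25889,25922,25923]⟩, [.sh 0 4 [25889,25922],.no,.no,.no,.no,.no,.no,.no,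
  .no,.no,.no,.no], (.br 3 (.br 4 (.br 5 (.br 6 .no (.pk (.sh 0 4 [25889,25922,30292]) .no .no
  .no)) (.br 6 (.pk (.sh 0 4 [25889,25922,30292]) .no .no .no) (.pk .no (.br 2 (.sh 0 4 [25889,
  30290,30291]) (.br 1 (.vi [25889,25922,25923,29985,30001,30018]) (.vi [25889,25922,25923,
  29473,29729,30018]))) .no .no))) (.br 5 (.br 6 (.pk .no .no (.br 2 (.br 1 (.vi [25889,25922,
  25923,29745,30274,30275]) (.sh 0 4 [30241,30274,30275])) (.vi [25922,25923,30258,30018,
  30275])) .no) .no) (.br 6 (.pk .no .no (.br 2 (.br 1 (.vi [25923,30275,29745,30001,30289])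
  (.sh 0 4 [30241,30274,30275])) (.vi [25922,25923,30258,30290,30275])) .no) (.pk .no (.br 2
  (.sh 0 4 [25889,30290,30291]) (.br 1 (.vi [25889,25922,25923,29729,29985,29745]) (.br 0 (.vi
  [25104,25889,25922,25923,29200,29473,30291]) (.vi [25104,25889,25922,25923,30256,29473,
  30291])))) .no .no)))) (.br 4 (.br 5 (.br 6 (.pk .no .no (.br 1 (.vi [25889,25922,25923,29745,
  30001,30275]) (.br 2 (.sh 0 4 [30241,30258,30275]) (.vi [25889,25922,29729,29985,30274])))
  .no) (.pk (.sh 0 4 [25889,25922,30292]) .no .no .no)) (.br 6 (.vi [25923,30019,30275,30291])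
  (.pk .no .no .no (.br 0 (.br 1 (.vi [25923,30019,29745,29456,29968,30224]) (.br 2 (.iso 6
  1412915728 false) (.vi [25104,25889,25922,29200,29729,30018]))) (.vi [25104,25889,25922,25923,
  30016,30272,30019]))))) (.br 5 (.br 6 (.pk .no .no .no (.br 2 (.vi [25922,25923,30258,30274,
  30019]) (.br 1 (.vi [25889,25922,29729,30241,30018]) (.vi [25889,25922,25923,29985,30018,
  30019])))) (.pk .no .no .no (.br 1 (.vi [25889,25922,25923,30001,30289,30019]) (.br 2 (.br 0
  (.iso 7 1412915728 false) (.vi [25104,25889,25922,25923,30240,30016,30019])) (.vi [25889,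
  25922,25923,29985,30018,30019]))))) (.br 6 (.pk .no (.br 2 (.vi [25922,25923,30258,30274,
  30291]) (.sh 0 4 [25889,30290,30291])) .no .no) .no))))⟩

def e4_14 : En :=
  ⟨⟨7, 747665, [25104,25889,25922,25923]⟩, [.sh 0 4 [25889,25922],.no,.no,.no,.no,.no,.no,.no,
  .no,.no,.no,.no], (.br 3 (.br 4 (.br 5 (.br 6 .no (.pk (.sh 0 4 [25889,25922,30292]) .no .no
  .no)) (.br 6 (.pk (.sh 0 4 [25889,25922,30292]) .no .no .no) (.pk .no (.br 2 (.sh 0 4 [25889,
  30290,30291]) (.vi [25922,25923,30002,30018,30291])) .no .no))) (.br 5 (.br 6 (.pk .no .no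
  .no (.br 2 (.vi [25377,25889,25922,30274,25923,30019]) (.vi [25377,25889,25922,30018,25923,
  30019]))) (.pk .no .no .no (.br 1 (.vi [25923,30019,29745,30257,30289]) (.br 2 (.br 0 (.iso 8
  1412915728 false) (.vi [25104,25377,25889,25922,30240,25923,30016])) (.vi [25377,25889,25922,
  29473,25923,29985]))))) (.br 6 .no (.pk .no (.br 2 (.sh 0 4 [25889,30290,30291]) (.vi [25377,
  25889,25922,30002,25923,30291])) .no .no)))) (.br 4 (.br 5 (.br 6 (.pk .no .no .no (.br 2
  (.br 1 (.vi [25377,25889,25922,29745,25923,30257]) (.vi [25377,25889,25922,30241,25923,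
  30019])) (.vi [25922,25923,30002,30258,30274]))) (.vi [25923,30019,30275,30291])) (.br 6 (.pk
  (.sh 0 4 [25889,25922,30292]) .no .no .no) (.pk .no .no (.br 2 (.sh 0 4 [25377,30258,30275])
  (.vi [25377,25889,25922,30018,25923,30275])) .no))) (.br 5 (.br 6 (.pk .no .no (.br 2 (.vi
  [25377,25889,25922,30274,25923,30275]) (.sh 0 4 [25377,30258,30275])) .no) (.pk .no (.br 2
  (.sh 0 4 [25377,30258,30291]) (.vi [25922,25923,30002,30018,30291])) .no .no)) (.br 6 (.pk
  .no .no (.br 2 (.vi [25377,25889,25922,30274,25923,30275]) (.sh 0 4 [25377,30258,30275]))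
  .no) .no))))⟩

def e4_15 : En :=
  ⟨⟨7, 1067909, [25872,25889,25922,25923]⟩, [.sh 0 4 [25889,25922],.no,.no,.no,.no,.no,.no,.no,
  .no,.no,.no,.no], (.br 3 (.br 4 (.br 5 (.br 6 .no (.pk (.sh 0 4 [25889,25922,30292]) .no .no
  .no)) (.br 6 (.pk .no .no .no (.br 2 (.vi [25872,25889,25922,17168,30018,25923,30019]) (.vi
  [25922,25923,29746,30290,30019]))) (.pk .no .no .no (.br 2 (.vi [25872,25889,25922,17168,
  30018,25923,30019]) (.vi [25922,25923,29746,30274,30019]))))) (.br 5 (.br 6 (.pk (.sh 0 4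
  [25889,25922,30292]) .no .no .no) (.pk .no .no (.br 2 (.vi [25872,25889,25922,17168,30274,
  25923,30275]) (.vi [25872,25889,25922,17168,30290,25923,30275])) .no)) (.br 6 .no (.pk .no
  .no (.br 0 (.br 1 (.vi [17168,29712,29968,25872,25923,30273]) (.vi [25872,25889,25922,17168,
  30224,25923,30275])) (.vi [17168,29744,30275,25872,25889,25922,25923])) .no)))) (.br 4 (.br 5
  (.br 6 (.pk .no .no .no (.br 1 (.vi [17168,29745,30019,25872,25889,25922,25923]) (.sh 0 4
  [30289,30001,30019]))) (.vi [25923,30019,30275,30291])) (.br 6 (.pk .no (.br 2 (.vi [25922,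
  25923,29746,30018,30291]) (.sh 0 4 [25889,30290,30291])) .no .no) (.pk .no .no (.br 2 (.vi
  [25922,25923,29746,30018,30275]) (.vi [25872,25889,25922,17168,30274,25923,30275])) .no)))
  (.br 5 (.br 6 (.pk (.sh 0 4 [25889,25922,30292]) .no .no .no) (.pk .no (.br 1 (.sh 0 4 [30289,
  30291]) (.vi [25872,25889,25922,17168,30001,25923,30291])) .no .no)) (.br 6 (.pk .no (.br 0
  (.br 1 (.sh 0 4 [29968,30001,30291]) (.vi [25872,25889,25922,17168,29456,25923,30291])) (.sh
  0 4 [30288,30291])) .no .no) .no))))⟩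

def e4_16 : En :=
  ⟨⟨7, 478097, [25104,25889,25922,25923]⟩, [.sh 0 4 [25889,25922],.no,.no,.no,.no,.no,.no,.no,
  .no,.no,.no,.no], (.br 3 (.br 4 (.br 5 (.br 6 .no (.pk .no .no (.br 2 (.vi [16912,25104,25889,
  25923,30274,25922,30275]) (.vi [25922,25923,29746,30018,30275])) .no)) (.br 6 (.pk .no .no
  .no (.br 2 (.vi [16912,25104,25889,25923,30018,25922,30019]) (.vi [25922,25923,29746,30258,
  30290]))) (.vi [25923,30019,30275,30291]))) (.br 5 (.br 6 (.pk .no .no (.br 2 (.vi [16912,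
  25104,25889,25923,30274,25922,30275]) (.vi [16912,25104,25889,25923,30258,25922,30275])) .no)
  (.pk (.sh 0 4 [25889,25922,30292]) .no .no .no)) (.br 6 (.pk .no .no (.br 2 (.vi [16912,25104,
  25889,25923,30274,25922,30275]) (.vi [25922,25923,30258,30290,30275])) .no) (.pk .no (.br 2
  (.sh 0 4 [25889,30290,30291]) (.br 1 (.vi [25889,25922,25923,29985,30001,30291]) (.vi [16912,
  25104,25889,25923,29473,25922,30291]))) .no .no)))) (.br 4 (.br 5 (.br 6 (.pk .no .no .no
  (.br 2 (.vi [25922,25923,29746,30258,30019]) (.vi [16912,25104,25889,25923,30018,25922,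
  30019]))) (.pk .no .no .no (.br 2 (.vi [25922,25923,29746,30274,30019]) (.vi [16912,25104,
  25889,25923,30018,25922,30019])))) (.br 6 (.pk .no (.br 2 (.vi [25922,25923,29746,30258,
  30018]) (.sh 0 4 [25889,30290,30291])) .no .no) (.pk (.sh 0 4 [25889,25922,30292]) .no .no
  .no))) (.br 5 (.br 6 .no (.pk (.sh 0 4 [25889,25922,30292]) .no .no .no)) (.br 6 (.pk .no
  (.br 2 (.vi [25922,25923,30258,30274,30291]) (.sh 0 4 [25889,30290,30291])) .no .no) .no))))⟩

def e4_17 : En :=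
  ⟨⟨7, 866811, [25104,25889,25922,25923]⟩, [.sh 0 4 [25889,25922],.no,.no,.no,.no,.no,.no,.no,
  .no,.no,.no,.iso 9 88278561 true], (.br 3 (.br 4 (.br 5 (.br 6 .no (.pk .no (.br 2 (.vi
  [25922,25923,30258,30274,30291]) (.sh 0 4 [25889,30290,30291])) .no .no)) (.br 6 (.pk .no
  (.br 0 (.vi [25104,25889,25922,21552,30000,25923,30291]) (.vi [21552,25923,30256,30016,
  30272])) .no .no) (.pk (.sh 0 4 [25889,25922,30292]) .no .no .no))) (.br 5 (.br 6 (.pk .no
  .no (.br 0 (.vi [25104,25889,25922,21552,29744,25923,30275]) (.vi [21552,25923,30000,30256,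
  30275])) .no) (.pk .no (.br 2 (.vi [25922,25923,29746,30258,30018]) (.sh 0 4 [25889,30290,
  30291])) .no .no)) (.br 6 (.vi [25923,30019,30275,30291]) (.pk .no .no .no (.br 0 (.vi [21552,
  29744,30000,30016]) (.br 2 (.vi [25922,25923,29746,30258,30290]) (.br 1 (.vi [25889,25922,
  25923,29473,30241,29745]) (.iso 10 1412915728 false)))))))) (.br 4 (.br 5 (.br 6 (.pk .no .no
  (.br 0 (.vi [25104,25889,25922,21552,29744,25923,30275]) (.vi [25104,25889,25922,21552,30272,
  25923,30275])) .no) .no) (.br 6 (.pk .no .no (.br 0 (.vi [25104,25889,25922,21552,29744,25923,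
  30275]) (.vi [21552,25923,30016,30272,30275])) .no) (.pk (.sh 0 4 [25889,25922,30292]) .no
  .no .no))) (.br 5 (.br 6 (.pk .no .no .no (.br 1 (.vi [25104,25889,25922,21552,30017,25923,
  30019]) (.br 2 (.vi [25889,25922,25923,29985,30018,30019]) (.vi [25104,25889,25922,21552,
  30241,25923,30019])))) (.pk .no .no .no (.br 2 (.vi [25104,25889,25922,21552,30018,25923,
  30019]) (.vi [25104,25889,25922,21552,30290,25923,30019])))) (.br 6 (.pk (.sh 0 4 [25889,
  25922,30292]) .no .no .no) .no))))⟩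

def e4_18 : En :=
  ⟨⟨7, 488506, [25104,25889,25922,25923]⟩, [.sh 0 4 [25889,25922],.no,.no,.no,.no,.no,.no,.no,
  .no,.no,.iso 11 88282656 true,.no], (.br 3 (.br 4 (.br 5 (.br 6 .no (.pk .no (.br 2 (.sh 0 4
  [25889,30290,30291]) (.vi [25889,25922,21553,30018,25923,30291])) .no .no)) (.br 6 (.pk .no
  (.br 1 (.vi [25889,25922,21553,30001,25923,30291]) (.sh 0 4 [25889,30289,30291])) .no .no)
  (.pk (.sh 0 4 [25889,25922,30292]) .no .no .no))) (.br 5 (.br 6 (.pk .no .no .no (.br 2 (.vi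
  [25889,25922,21553,30018,25923,30019]) (.vi [25922,25923,29746,30274,30019]))) (.vi [25923,
  30019,30275,30291])) (.br 6 (.pk .no (.br 2 (.sh 0 4 [25889,30290,30291]) (.vi [25922,25923,
  29746,30274,30291])) .no .no) (.pk .no .no (.br 1 (.vi [21553,25923,30001,30273,30289]) (.vi
  [25889,25922,21553,29745,25923,30275])) .no)))) (.br 4 (.br 5 (.br 6 (.pk .no .no .no (.br 2
  (.br 1 (.br 0 (.iso 12 1412915728 true) (.vi [25104,25889,25922,21553,30240,25923,30016]))
  (.vi [25889,25922,21553,30241,25923,30019])) (.vi [25889,25922,21553,30018,25923,30019])))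
  (.pk .no .no .no (.br 2 (.vi [25889,25922,21553,30290,25923,30019]) (.vi [25889,25922,21553,
  30018,25923,30019])))) (.br 6 .no (.pk (.sh 0 4 [25889,25922,30292]) .no .no .no))) (.br 5
  (.br 6 (.pk .no .no (.br 1 (.vi [25889,25922,21553,29745,25923,30275]) (.vi [21553,25923,
  30017,30273,30275])) .no) (.pk (.sh 0 4 [25889,25922,30292]) .no .no .no)) (.br 6 (.pk .no
  .no (.br 1 (.vi [25889,25922,21553,29745,25923,30275]) (.vi [21553,25923,30273,30289,30275]))
  .no) .no))))⟩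

def e4_19 : En :=
  ⟨⟨7, 605147, [25104,25889,25922,25923]⟩, [.sh 0 4 [25889,25922],.no,.no,.no,.no,.no,.no,.no,
  .no,.no,.no,.no], (.br 3 (.br 4 (.br 5 (.br 6 .no (.pk .no .no (.br 2 (.br 0 (.vi [25104,
  25889,25922,25923,30272,30274,30275]) (.sh 0 4 [30240,30256,30275])) (.vi [25922,25923,29746,
  30002,30290])) .no)) (.br 6 (.pk .no .no .no (.br 2 (.br 1 (.vi [25889,25922,30017,30289,
  30018]) (.vi [25889,25922,25923,29729,30018,30019])) (.vi [25922,25923,29746,30274,30019])))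
  (.vi [25923,30019,30275,30291]))) (.br 5 (.br 6 (.pk .no .no .no (.br 2 (.br 1 (.vi [25889,
  25922,25923,30017,30018,30019]) (.vi [25889,25922,25923,29985,30018,30019])) (.br 1 (.vi
  [25889,25922,25923,29985,30017,30002]) (.vi [25889,25922,25923,29473,30241,30002])))) (.pk
  .no .no .no (.br 2 (.br 1 (.vi [25889,25922,30017,30289,30018]) (.vi [25889,25922,25923,29985,
  30018,30019])) (.vi [25922,25923,30002,30290,30019])))) (.br 6 (.pk (.sh 0 4 [25889,25922,
  30292]) .no .no .no) (.pk .no (.br 2 (.sh 0 4 [25889,30290,30291]) (.br 1 (.sh 0 4 [30241,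
  30257,30291]) (.br 0 (.vi [25104,25889,30240,29472,30000,29473]) (.vi [25104,25889,25922,
  25923,30256,29473,30291])))) .no .no)))) (.br 4 (.br 5 (.br 6 (.pk .no .no (.br 2 (.vi [25922,
  25923,29746,30002,30275]) (.br 1 (.vi [25889,25922,29729,29985,30274]) (.sh 0 4 [30241,30274,
  30275]))) .no) (.pk .no (.br 2 (.vi [25922,25923,29746,30002,30274]) (.sh 0 4 [25889,30290,
  30291])) .no .no)) (.br 6 (.pk .no .no (.br 2 (.vi [25922,25923,29746,30018,30275]) (.br 1
  (.vi [25889,25922,29729,30017,30289]) (.sh 0 4 [30241,30274,30275]))) .no) (.pk (.sh 0 4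
  [25889,25922,30292]) .no .no .no))) (.br 5 (.br 6 .no (.pk .no (.br 2 (.vi [25922,25923,30002,
  30018,30291]) (.sh 0 4 [25889,30290,30291])) .no .no)) (.br 6 (.pk (.sh 0 4 [25889,25922,
  30292]) .no .no .no) .no))))⟩

def e4_20 : En :=
  ⟨⟨7, 605179, [25104,25889,25922,25923]⟩, [.sh 0 4 [25889,25922],.no,.no,.no,.no,.no,.no,.no,
  .no,.no,.no,.no], (.br 3 (.br 4 (.br 5 (.br 6 .no (.pk .no .no (.br 2 (.vi [25377,25889,25922,
  30274,25923,30275]) (.sh 0 4 [25377,30258,30275])) .no)) (.br 6 (.pk .no .no .no (.br 2 (.vi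
  [25377,25889,25922,30018,25923,30019]) (.vi [25377,25889,25922,30274,25923,30019]))) (.vi
  [25923,30019,30275,30291]))) (.br 5 (.br 6 (.pk .no .no .no (.br 1 (.vi [25377,25889,25922,
  30017,25923,30019]) (.br 2 (.vi [25377,25889,25922,29473,25923,29985]) (.vi [25377,25889,
  25922,30241,25923,30019])))) (.pk .no .no .no (.br 2 (.vi [25377,25889,25922,30018,25923,
  30019]) (.vi [25922,25923,30258,30290,30019])))) (.br 6 (.pk (.sh 0 4 [25889,25922,30292])
  .no .no .no) (.pk .no (.br 2 (.sh 0 4 [25889,30290,30291]) (.sh 0 4 [25377,30258,30291])) .no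
  .no)))) (.br 4 (.br 5 (.br 6 (.pk .no .no (.br 1 (.sh 0 4 [25377,30257,30275]) (.br 2 (.vi
  [25377,25889,25922,29729,25923,29985]) (.sh 0 4 [30241,30274,30275]))) .no) (.pk .no (.br 2
  (.sh 0 4 [25377,30258,30291]) (.sh 0 4 [25889,30290,30291])) .no .no)) (.br 6 (.pk .no .no
  (.br 2 (.vi [25377,25889,25922,30018,25923,30275]) (.vi [25377,25889,25922,30274,25923,
  30275])) .no) (.pk (.sh 0 4 [25889,25922,30292]) .no .no .no))) (.br 5 (.br 6 .no (.pk .no
  (.br 2 (.sh 0 4 [25377,30258,30291]) (.sh 0 4 [25889,30290,30291])) .no .no)) (.br 6 (.pk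
  (.sh 0 4 [25889,25922,30292]) .no .no .no) .no))))⟩

def e4_21 : En :=
  ⟨⟨6, 20661, [21008,21520,21553,21554]⟩, [.sh 0 4 [21520,21553],.no,.no,.no,.no,.no,.no,.no],
  (.br 2 (.br 3 (.br 4 (.br 5 .no (.pk .no .no (.br 1 (.sh 0 4 [25889,25906]) (.vi [21008,21520,
  21553,25905,21554,25906])) .no)) (.br 5 (.pk .no (.br 1 (.vi [21553,21554,25633,25649,25922])
  (.sh 0 4 [25889,25922])) .no .no) (.pk .no .no (.br 1 (.sh 0 4 [25889,25906]) (.vi [21008,
  21520,21553,25905,21554,25906])) .no))) (.br 4 (.br 5 (.pk .no .no (.br 1 (.vi [21008,21520,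
  21553,25649,21554,25906]) (.sh 0 4 [25889,25906])) .no) (.pk (.sh 0 4 [21520,21553,25923])
  .no .no .no)) (.br 5 (.vi [21554,25650,25906,25922]) (.pk .no .no .no (.br 0 (.br 1 (.sh 0 4
  [25889,25633,25650]) (.vi [21008,21520,21553,25872,21554,25650])) (.sh 0 4 [25888,25376,
  25650])))))) (.br 3 (.br 4 (.br 5 (.pk .no (.br 1 (.vi [21008,21520,21553,25633,21554,25922])
  (.sh 0 4 [21520,25921,25922])) .no .no) .no) (.br 5 (.pk .no .no .no (.br 0 (.br 1 (.vi
  [21008,21520,21553,25104,21554,25616]) (.iso 13 70411536 false)) (.sh 0 4 [25888,25376,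
  25650]))) (.pk .no .no .no (.br 1 (.vi [21008,21520,21553,25649,21554,25650]) (.vi [21008,
  21520,21553,25905,21554,25650]))))) (.br 4 (.br 5 (.pk .no (.br 1 (.vi [21553,21554,25633,
  25649,25922]) (.sh 0 4 [21520,25921,25922])) .no .no) (.pk (.sh 0 4 [21520,21553,25923]) .no
  .no .no)) (.br 5 (.pk (.sh 0 4 [21520,21553,25923]) .no .no .no) .no))))⟩

def e4_22 : En :=
  ⟨⟨7, 1002641, [25104,25889,25922,25923]⟩, [.sh 0 4 [25889,25922],.no,.sh 0 4 [25889,25922,
  25920],.no,.no,.no,.no,.no,.no,.no,.no,.no], (.br 3 (.br 4 (.br 5 (.br 6 .no (.pk (.sh 0 4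
  [25889,25922,30292]) .no .no .no)) (.br 6 (.pk (.sh 0 4 [25889,25922,30292]) .no .no .no)
  (.pk .no (.br 2 (.sh 0 4 [25889,30290,30291]) (.vi [25104,25889,25920,25923,30018,25922,
  30291])) .no .no))) (.br 5 (.br 6 (.pk .no .no (.br 2 (.vi [25104,25889,25920,25923,30274,
  25922,30275]) (.vi [25922,25923,30258,30018,30275])) .no) .no) (.br 6 (.pk .no .no (.br 2
  (.vi [25104,25889,25920,25923,30274,25922,30275]) (.vi [25922,25923,30258,30290,30275])) .no)
  (.pk .no (.br 0 (.vi [25104,25889,25920,25923,30288,25922,30291]) (.vi [25104,25889,25920,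
  25923,30256,25922,30291])) .no .no)))) (.br 4 (.br 5 (.br 6 (.pk .no .no (.br 2 (.vi [25104,
  25889,25920,25923,30258,25922,30275]) (.vi [25104,25889,25920,25923,30274,25922,30275])) .no)
  (.pk (.sh 0 4 [25889,25922,30292]) .no .no .no)) (.br 6 (.vi [25923,30019,30275,30291]) (.pk
  .no .no .no (.br 0 (.vi [25920,25923,30000,30288,30019]) (.vi [25104,25889,25920,25923,30272,
  25922,30019]))))) (.br 5 (.br 6 (.pk .no .no .no (.br 0 (.vi [25104,25889,25920,25923,30016,
  25922,30019]) (.vi [25920,25923,30000,30256,30272]))) (.pk .no .no .no (.br 0 (.vi [25104,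
  25889,25920,25923,30016,25922,30019]) (.vi [25920,25923,30000,30288,30019])))) (.br 6 (.pk
  .no (.br 2 (.vi [25922,25923,30258,30274,30291]) (.sh 0 4 [25889,30290,30291])) .no .no)
  .no))))⟩

def L4 : List En :=
  [e4_0, e4_1, e4_2, e4_3, e4_4, e4_5, e4_6, e4_7, e4_8, e4_9, e4_10, e4_11, e4_12, e4_13,
  e4_14, e4_15, e4_16, e4_17, e4_18, e4_19, e4_20, e4_21, e4_22]

def e5_0 : En :=
  ⟨⟨8, 52397014, [12816,29473,30258,30291,30292]⟩, [.sh 2 5 [],.no,.no,.no,.no,.no,.no,.no,.no,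
  .no,.no,.no,.no,.no,.no,.sh 0 5 []], (.br 1 (.br 2 (.br 3 (.br 7 .no (.pk .no (.br 6 (.vi
  [12816,29473,30256,34609,30258,34659]) (.vi [29473,30258,34609,34657,34658])) .no .no)) (.br
  7 (.pk .no .no .no (.sh 0 5 [33569])) (.pk .no .no .no (.sh 0 5 [33569])))) (.br 3 (.br 7
  (.pk .no .no .no (.sh 0 5 [33569])) (.vi [29473,33569,34593,34609])) (.br 7 (.pk (.br 0 (.vi
  [12816,29473,30256,33568,30258,34610]) (.vi [12816,29473,33552,34608,34610])) .no .no .no)
  (.pk .no .no (.br 0 (.vi [12816,29473,33568,34592,34593]) (.vi [12816,29473,30256,33552,30258,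
  34593])) .no)))) (.br 2 (.br 3 (.br 7 (.pk .no (.br 0 (.vi [12816,29473,30256,33296,30258,
  34609]) (.vi [12816,29473,30256,33552,30258,34609])) .no .no) (.pk .no .no (.br 0 (.vi [12816,
  29473,30256,33296,30258,34593]) (.vi [12816,29473,33552,34592,34608])) .no)) (.br 7 .no (.pk
  .no .no (.br 0 (.vi [12816,29473,30256,33296,30258,34593]) (.vi [12816,29473,33568,34592,
  34593])) .no))) (.br 3 (.br 7 (.pk .no (.br 6 (.vi [12816,29473,30256,34609,30258,34354])
  (.vi [12816,29473,30256,34609,30258,34659])) .no .no) (.pk (.br 0 (.vi [12816,29473,30256,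
  34592,30258,34610]) (.vi [12816,29473,33552,34608,34610])) .no .no .no)) (.br 7 (.pk (.br 0
  (.vi [12816,29473,30256,33568,30258,34610]) (.vi [12816,29473,30256,34608,30258,34610])) .no
  .no .no) .no))))⟩

def e5_1 : En :=
  ⟨⟨8, 185597989, [12816,29473,30258,30291,30292]⟩, [.sh 2 5 [],.no,.iso 0 1949459728 false,.no,
  .no,.no,.no,.no,.no,.no,.no,.no,.no,.no,.no,.sh 0 5 []], (.br 1 (.br 2 (.br 3 (.br 7 .no (.pk
  (.br 0 (.br 5 (.br 6 (.vi [29746,30258,30291,34610,30292,34661]) (.br 4 (.iso 1 30912435216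
  false) (.vi [29746,30258,30291,34610,30292,34388]))) (.vi [29746,30258,30291,34610,30292,
  34643])) (.vi [12816,29473,33296,34576,34608])) .no .no .no)) (.br 7 (.pk .no .no .no (.sh 0
  5 [33569])) (.pk .no .no .no (.sh 0 5 [33569])))) (.br 3 (.br 7 (.pk (.br 4 (.br 6 (.br 5
  (.br 0 (.iso 2 30912435216 false) (.iso 3 30912435216 false)) (.vi [30258,30291,34098,34610,
  34386])) (.vi [30258,34354,34610,34658])) (.vi [29746,33842,34610,34626])) .no .no .no) (.pk
  .no .no (.br 4 (.vi [29473,29746,30258,30291,34593,30292,34626]) (.vi [29473,29746,33825,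
  34593,33842])) .no)) (.br 7 .no (.pk .no .no (.br 4 (.vi [29473,29746,30258,30291,34593,30292,
  34626]) (.vi [29473,29746,30258,30291,33825,30292,34593])) .no)))) (.br 2 (.br 3 (.br 7 (.pk
  .no .no .no (.sh 0 5 [33569])) (.vi [29473,33569,34593,34609])) (.br 7 (.pk .no (.br 4 (.vi
  [29473,29746,30258,30291,34609,30292,34627]) (.vi [29473,29746,33825,34609,34625])) .no .no)
  (.pk .no .no (.br 4 (.vi [29473,29746,30258,30291,34593,30292,34625]) (.vi [29473,29746,33825,
  34593,33842])) .no))) (.br 3 (.br 7 (.pk (.br 4 (.br 6 (.br 5 (.br 0 (.iso 4 30912435216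
  false) (.iso 5 30912435216 false)) (.vi [30258,30291,34098,34610,34386])) (.vi [30258,34354,
  34610,34658])) (.vi [29746,33842,34610,34626])) .no .no .no) (.pk .no (.br 4 (.vi [29473,
  29746,34609,34625,34626]) (.vi [29473,29746,30258,30291,34609,30292,33842])) .no .no)) (.br 7
  (.pk .no (.br 4 (.vi [29473,29746,30258,30291,34609,30292,34627]) (.vi [29473,29746,34609,
  34625,34626])) .no .no) .no))))⟩

def e5_2 : En :=
  ⟨⟨8, 185598501, [12816,29473,30258,30291,30292]⟩, [.sh 2 5 [],.no,.no,.no,.no,.no,.no,.no,.no,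
  .no,.no,.no,.no,.no,.sh 0 5 [17185],.sh 0 5 []], (.br 1 (.br 2 (.br 3 (.br 7 .no (.pk (.br 0
  (.br 4 (.br 5 (.br 6 (.vi [17185,29473,30258,30291,34610,30292,34661]) (.iso 6 30912435216
  false)) (.vi [30258,30291,30292,34610,34643,34644])) (.vi [17185,29473,30258,30291,33842,
  30292,34610])) (.vi [12816,29473,33296,34576,34608])) .no .no .no)) (.br 7 (.pk .no .no .no
  (.sh 0 5 [33569])) (.pk .no .no .no (.sh 0 5 [33569])))) (.br 3 (.br 7 (.pk (.br 4 (.vi
  [17185,29473,30258,30291,33842,30292,34610]) (.vi [17185,29473,33825,34610,34626])) .no .no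
  .no) (.pk .no .no (.br 4 (.vi [17185,29473,34593,33842,34626]) (.vi [17185,29473,30258,30291,
  33825,30292,34593])) .no)) (.br 7 .no (.pk .no .no (.br 4 (.vi [17185,29473,30258,30291,34593,
  30292,34626]) (.vi [17185,29473,30258,30291,33825,30292,34593])) .no)))) (.br 2 (.br 3 (.br 7
  (.pk .no .no .no (.sh 0 5 [33569])) (.vi [29473,33569,34593,34609])) (.br 7 (.pk .no (.br 4
  (.vi [17185,29473,30258,30291,33841,30292,34609]) (.vi [17185,29473,33825,34609,34625])) .no
  .no) (.pk .no .no (.br 4 (.vi [17185,29473,34593,33841,34625]) (.vi [17185,29473,30258,30291,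
  33825,30292,34593])) .no))) (.br 3 (.br 7 (.pk (.br 4 (.vi [17185,29473,30258,30291,33842,
  30292,34610]) (.vi [17185,29473,33841,34625,34610])) .no .no .no) (.pk .no (.br 4 (.vi [17185,
  29473,34609,34625,33842]) (.vi [17185,29473,30258,30291,33841,30292,34609])) .no .no)) (.br 7
  (.pk .no (.br 4 (.vi [17185,29473,30258,30291,33841,30292,34609]) (.vi [17185,29473,34609,
  34625,34626])) .no .no) .no))))⟩

def e5_3 : En :=
  ⟨⟨8, 152059941, [12816,29473,30258,30291,30292]⟩, [.sh 2 5 [],.no,.no,.no,.no,.no,.no,.no,.no,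
  .no,.no,.no,.no,.no,.no,.sh 0 5 []], (.br 1 (.br 2 (.br 3 (.br 7 .no (.pk (.br 0 (.br 4 (.br
  5 (.br 6 (.iso 7 30912435216 false) (.iso 8 30912435216 false)) (.vi [30258,30291,30292,34610,
  34643,34644])) (.br 5 (.vi [30258,30291,30292,34610,34627,34644]) (.vi [30258,30291,30292,
  34610,34627,34643]))) (.vi [12816,29473,33296,34576,34608])) .no .no .no)) (.br 7 (.pk .no
  .no .no (.sh 0 5 [33569])) (.pk .no .no .no (.sh 0 5 [33569])))) (.br 3 (.br 7 (.pk (.br 6
  (.br 5 (.br 4 (.br 0 (.iso 9 30912435216 false) (.iso 10 30912435216 false)) (.vi [30258,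
  30291,30292,33842,34610,34114])) (.vi [30258,30291,34098,34610,34386])) (.vi [30258,34354,
  34610,34658])) .no .no .no) (.pk .no .no (.br 0 (.br 6 (.vi [12816,29473,30258,33296,34593,
  34658]) (.vi [29473,30258,34337,34593,34354])) (.vi [12816,29473,34576,33568,34608])) .no))
  (.br 7 .no (.pk .no .no (.br 0 (.br 6 (.vi [12816,29473,30258,33296,34593,34658]) (.vi [12816,
  29473,30258,33296,34337,34593])) (.vi [12816,29473,33552,34576,34593])) .no)))) (.br 2 (.br 3
  (.br 7 (.pk .no .no .no (.sh 0 5 [33569])) (.vi [29473,33569,34593,34609])) (.br 7 (.pk .no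
  (.br 0 (.br 6 (.vi [12816,29473,30258,33552,34609,34659]) (.vi [12816,33552,34320,34337,
  34354])) (.vi [12816,29473,33568,34608,34609])) .no .no) (.pk .no .no (.br 0 (.vi [12816,
  29473,33552,34576,34593]) (.br 6 (.vi [12816,29473,30258,33568,34656,34593]) (.vi [29473,
  30258,34337,34593,34354]))) .no))) (.br 3 (.br 7 (.pk (.br 6 (.br 5 (.br 4 (.br 0 (.iso 11
  30912435216 false) (.iso 12 30912435216 false)) (.vi [30258,30291,30292,33842,34610,34114]))
  (.vi [30258,30291,34098,34610,34386])) (.vi [30258,34354,34610,34658])) .no .no .no) (.pk .no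
  (.br 0 (.br 6 (.vi [29473,30258,34609,34657,34658]) (.vi [12816,29473,30258,34320,34576,
  34609])) (.vi [12816,29473,33568,34608,34609])) .no .no)) (.br 7 (.pk .no (.br 6 (.br 0 (.vi
  [12816,29473,30258,33552,34609,34659]) (.vi [12816,29473,30258,34608,34609,34659])) (.vi
  [29473,30258,34609,34657,34658])) .no .no) .no))))⟩

def e5_4 : En :=
  ⟨⟨8, 52397020, [12816,29473,30258,30291,30292]⟩, [.sh 2 5 [],.no,.no,.no,.no,.no,.no,.no,.no,
  .no,.no,.no,.no,.no,.no,.sh 0 5 []], (.br 1 (.br 2 (.br 3 (.br 7 .no (.pk .no (.br 6 (.br 0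
  (.vi [12816,29473,30258,34608,34609,34659]) (.vi [33552,34320,34656,34609,34659])) (.vi
  [29473,30258,34609,34657,34658])) .no .no)) (.br 7 (.pk .no .no .no (.sh 0 5 [33569])) (.pk
  .no .no .no (.sh 0 5 [33569])))) (.br 3 (.br 7 (.pk .no .no .no (.sh 0 5 [33569])) (.vi
  [29473,33569,34593,34609])) (.br 7 (.pk (.br 5 (.br 6 (.vi [30258,30291,34610,34386,34387])
  (.br 4 (.vi [30258,30291,30292,34610,34626,34660]) (.br 0 (.iso 13 30912435216 false) (.iso
  14 30912435216 false)))) (.vi [29473,34610,34081,34097,34643])) .no .no .no) (.pk .no .no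
  (.br 5 (.br 6 (.vi [30258,30291,34386,34658,34387]) (.vi [29473,30258,30291,34593,34657,
  34661])) (.vi [29473,30258,30291,34081,34593,34097])) .no)))) (.br 2 (.br 3 (.br 7 (.pk .no
  (.br 0 (.br 6 (.vi [12816,29473,30258,33552,34320,34609]) (.vi [12816,29473,30258,33552,34609,
  34659])) (.vi [12816,29473,33296,34608,34609])) .no .no) (.pk .no .no (.br 0 (.vi [12816,
  29473,33552,34608,34593]) (.br 6 (.vi [29473,30258,34593,34657,34659]) (.vi [12816,29473,
  30258,33296,34593,34658]))) .no)) (.br 7 .no (.pk .no .no (.br 6 (.vi [29473,30258,34593,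
  34657,34354]) (.br 0 (.vi [12816,29473,30258,34656,34593,34658]) (.vi [12816,29473,30258,
  33296,34593,34658]))) .no))) (.br 3 (.br 7 (.pk .no (.br 0 (.br 6 (.vi [12816,33552,34320,
  34336,34354]) (.vi [12816,29473,30258,33552,34609,34659])) (.vi [12816,29473,33568,34608,
  34609])) .no .no) (.pk (.br 0 (.vi [12816,29473,33552,34608,34610]) (.br 6 (.vi [30258,34354,
  34610,34658]) (.br 5 (.vi [12816,29473,30258,30291,33568,34610,34661]) (.vi [12816,29473,
  33568,34096,34097,34610])))) .no .no .no)) (.br 7 (.pk (.br 4 (.vi [29473,30258,30291,30292,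
  34625,34610,34626]) (.br 5 (.br 6 (.vi [30258,30291,34610,34386,34387]) (.br 0 (.iso 15
  30912435216 false) (.iso 16 30912435216 false))) (.vi [30258,30291,30292,34610,34643,
  34644]))) .no .no .no) .no))))⟩

def e5_5 : En :=
  ⟨⟨8, 152059948, [12816,29473,30258,30291,30292]⟩, [.sh 2 5 [],.no,.no,.no,.no,.no,.no,.no,.no,
  .no,.no,.no,.no,.no,.no,.sh 0 5 []], (.br 1 (.br 2 (.br 3 (.br 7 .no (.pk (.br 0 (.vi [12816,
  29473,30256,34608,30258,34610]) (.vi [12816,29473,30256,33568,30258,34610])) .no .no .no))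
  (.br 7 (.pk .no .no .no (.sh 0 5 [33569])) (.pk .no .no .no (.sh 0 5 [33569])))) (.br 3 (.br
  7 (.pk (.br 0 (.vi [12816,29473,30256,33568,30258,34610]) (.vi [12816,29473,33296,34608,
  34610])) .no .no .no) (.pk .no .no (.br 0 (.vi [12816,29473,33568,34608,34593]) (.vi [12816,
  29473,30256,33296,30258,34593])) .no)) (.br 7 .no (.pk .no .no (.br 6 (.vi [12816,29473,30256,
  34593,30258,34658]) (.vi [12816,29473,30256,34337,30258,34593])) .no)))) (.br 2 (.br 3 (.br 7
  (.pk .no .no .no (.sh 0 5 [33569])) (.vi [29473,33569,34593,34609])) (.br 7 (.pk .no (.br 6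
  (.vi [12816,29473,30256,34609,30258,34659]) (.vi [29473,30258,34337,34609,34657])) .no .no)
  (.pk .no .no (.br 6 (.vi [12816,29473,30256,34593,30258,34657]) (.vi [29473,30258,34337,34593,
  34354])) .no))) (.br 3 (.br 7 (.pk (.br 0 (.vi [12816,29473,30256,33568,30258,34610]) (.vi
  [12816,29473,33552,34608,34610])) .no .no .no) (.pk .no (.br 0 (.vi [12816,29473,33568,34608,
  34609]) (.vi [12816,29473,30256,33552,30258,34609])) .no .no)) (.br 7 (.pk .no (.br 6 (.vi
  [12816,29473,30256,34609,30258,34659]) (.vi [29473,30258,34609,34657,34658])) .no .no)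
  .no))))⟩

def e5_6 : En :=
  ⟨⟨8, 172321457, [12816,29473,30258,30291,30292]⟩, [.sh 2 5 [],.no,.iso 17 1949459728 false,
  .no,.no,.no,.no,.no,.no,.no,.no,.no,.no,.no,.no,.sh 0 5 []], (.br 1 (.br 2 (.br 3 (.br 7 .no
  (.pk .no (.br 5 (.vi [29473,29746,30258,30291,34609,30292,34641]) (.vi [29473,30258,30291,
  34609,34098,34643])) .no .no)) (.br 7 (.pk .no (.br 0 (.br 4 (.vi [12816,29473,29746,33552,
  34609,34627]) (.vi [12816,29473,29746,33552,33808,34609])) (.vi [12816,29473,34576,33568,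
  34609])) .no .no) (.pk (.br 0 (.vi [12816,29473,33552,34576,34610]) (.br 4 (.vi [29746,34610,
  33568,33840,34624]) (.br 6 (.vi [30258,34610,33568,34352,34656]) (.br 5 (.vi [12816,29473,
  33568,34064,34096,34641]) (.iso 18 30912435216 false))))) .no .no .no))) (.br 3 (.br 7 (.pk
  .no .no .no (.sh 0 5 [33569])) (.vi [29473,33569,34593,34609])) (.br 7 (.pk .no (.br 4 (.vi
  [29473,29746,30258,30291,34609,30292,34627]) (.vi [29473,29746,33825,34609,34626])) .no .no)
  (.pk .no .no (.br 5 (.vi [29473,30258,30291,34593,34641,34643]) (.vi [29473,29746,30258,30291,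
  34081,30292,34593])) .no)))) (.br 2 (.br 3 (.br 7 (.pk .no .no .no (.sh 0 5 [33569])) (.pk
  .no .no .no (.sh 0 5 [33569]))) (.br 7 .no (.pk (.br 5 (.vi [29746,30258,30291,34610,30292,
  34643]) (.br 6 (.vi [29746,30258,30291,34610,30292,34661]) (.br 4 (.vi [29746,30258,30291,
  34610,30292,34388]) (.br 0 (.iso 19 30912435216 false) (.iso 20 30912435216 false))))) .no
  .no .no))) (.br 3 (.br 7 (.pk .no .no (.br 4 (.vi [29473,29746,33825,34593,33842]) (.vi
  [29473,29746,30258,30291,34593,30292,34626])) .no) (.pk (.br 5 (.vi [29473,30258,30291,34081,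
  34098,34610]) (.vi [29746,30258,30291,34610,30292,34643])) .no .no .no)) (.br 7 (.pk .no .no
  (.br 4 (.vi [29473,29746,33825,34593,34627]) (.vi [29473,29746,30258,30291,34593,30292,
  34626])) .no) .no))))⟩

def e5_7 : En :=
  ⟨⟨8, 139291313, [12816,29473,30258,30291,30292]⟩, [.sh 2 5 [],.no,.no,.no,.no,.no,.no,.no,.no,
  .no,.no,.no,.no,.no,.no,.sh 0 5 []], (.br 1 (.br 2 (.br 3 (.br 7 .no (.pk .no (.br 5 (.br 6
  (.vi [29473,30258,30291,34609,34641,34659]) (.vi [30291,34387,34609,34385,34641])) (.vi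
  [29473,30258,30291,34609,34098,34643])) .no .no)) (.br 7 (.pk .no (.br 0 (.br 6 (.vi [12816,
  29473,30258,33552,34609,34659]) (.vi [12816,29473,30258,33552,34320,34609])) (.vi [12816,
  29473,34576,33568,34609])) .no .no) (.pk (.br 0 (.vi [12816,29473,33552,34576,34610]) (.br 6
  (.vi [30258,34610,33568,34352,34656]) (.br 4 (.vi [12816,29473,33568,33808,33840,34625]) (.br
  5 (.vi [12816,29473,33568,34064,34096,34641]) (.iso 21 30912435216 false))))) .no .no .no)))
  (.br 3 (.br 7 (.pk .no .no .no (.sh 0 5 [33569])) (.vi [29473,33569,34593,34609])) (.br 7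
  (.pk .no (.br 0 (.br 6 (.vi [12816,29473,30258,33552,34609,34659]) (.vi [29473,30258,34337,
  34609,34658])) (.vi [12816,29473,33296,34576,34609])) .no .no) (.pk .no .no (.br 0 (.vi
  [12816,29473,33552,34576,34593]) (.br 6 (.vi [33296,34320,34656,34593,34658]) (.vi [12816,
  29473,30258,33296,34337,34593]))) .no)))) (.br 2 (.br 3 (.br 7 (.pk .no .no .no (.sh 0 5
  [33569])) (.pk .no .no .no (.sh 0 5 [33569]))) (.br 7 .no (.pk (.br 0 (.br 4 (.br 5 (.vi
  [30258,30291,30292,34610,34627,34643]) (.vi [30258,30291,30292,34610,34627,34644])) (.br 5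
  (.vi [30258,30291,30292,34610,34643,34644]) (.br 6 (.iso 22 30912435216 false) (.iso 23
  30912435216 false)))) (.br 6 (.vi [30258,34610,33568,34352,34656]) (.br 4 (.vi [12816,29473,
  33568,33840,34610,34627]) (.br 5 (.vi [12816,29473,33568,34096,34610,34643]) (.iso 24
  30912435216 false))))) .no .no .no))) (.br 3 (.br 7 (.pk .no .no (.br 6 (.vi [29473,30258,
  34337,34593,34354]) (.br 0 (.vi [12816,29473,30258,33296,34593,34658]) (.vi [30258,34658,
  33568,34352,34656]))) .no) (.pk (.br 6 (.vi [30258,34354,34610,34658]) (.br 5 (.vi [30258,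
  30291,34098,34610,34387]) (.br 4 (.vi [33842,34610,34114,34643,34644]) (.vi [30258,30291,
  30292,34610,34627,34643])))) .no .no .no)) (.br 7 (.pk .no .no (.br 6 (.vi [29473,30258,34337,
  34593,34659]) (.br 0 (.vi [12816,29473,30258,33296,34593,34658]) (.vi [12816,29473,30258,
  34656,34593,34658]))) .no) .no))))⟩

def e5_8 : En :=
  ⟨⟨8, 206375601, [12816,29473,30258,30291,30292]⟩, [.sh 2 5 [],.no,.no,.no,.no,.no,.no,.no,.no,
  .no,.no,.no,.no,.sh 0 5 [21281],.no,.sh 0 5 []], (.br 1 (.br 2 (.br 3 (.br 7 .no (.pk .no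
  (.br 6 (.vi [21281,29473,30258,34609,30291,34659]) (.vi [21281,29473,30258,34609,30291,
  34354])) .no .no)) (.br 7 (.pk .no (.br 5 (.vi [21281,29473,30258,34097,30291,34609]) (.vi
  [21281,29473,34609,34098,34643])) .no .no) (.pk (.br 5 (.vi [21281,29473,34097,34610,34643])
  (.vi [21281,29473,30258,34098,30291,34610])) .no .no .no))) (.br 3 (.br 7 (.pk .no .no .no
  (.sh 0 5 [33569])) (.vi [29473,33569,34593,34609])) (.br 7 (.pk .no (.br 5 (.vi [21281,29473,
  30258,34097,30291,34609]) (.vi [21281,29473,34081,34609,34642])) .no .no) (.pk .no .no (.br 5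
  (.vi [21281,29473,34593,34097,34642]) (.vi [21281,29473,30258,34081,30291,34593])) .no))))
  (.br 2 (.br 3 (.br 7 (.pk .no .no .no (.sh 0 5 [33569])) (.pk .no .no .no (.sh 0 5 [33569])))
  (.br 7 .no (.pk (.br 5 (.vi [21281,29473,30258,34610,30291,34643]) (.vi [21281,29473,30258,
  34098,30291,34610])) .no .no .no))) (.br 3 (.br 7 (.pk .no .no (.br 5 (.vi [21281,29473,30258,
  34081,30291,34593]) (.vi [21281,29473,34593,34098,34642])) .no) (.pk (.br 5 (.vi [21281,29473,
  34081,34610,34642]) (.vi [21281,29473,30258,34098,30291,34610])) .no .no .no)) (.br 7 (.pk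
  .no .no (.br 5 (.vi [21281,29473,30258,34081,30291,34593]) (.vi [21281,29473,34593,34642,
  34643])) .no) .no))))⟩

def e5_9 : En :=
  ⟨⟨7, 1458213, [12816,25104,25889,25922,25923]⟩, [.sh 2 5 [],.no,.no,.no,.no,.no,.no,.no,.no,
  .no,.no,.sh 0 5 []], (.br 0 (.br 1 (.br 2 (.br 6 .no (.pk (.br 3 (.br 4 (.br 5 (.vi [12816,
  25104,25889,25922,30241,25923,30292]) (.iso 25 1645696048 false)) (.vi [25889,25922,25923,
  30241,30274,30275])) (.vi [12816,25104,25889,25922,29473,25923,30241])) .no .no .no)) (.br 6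
  (.pk .no .no .no (.sh 0 5 [29200])) (.pk .no .no .no (.sh 0 5 [29200])))) (.br 2 (.br 6 (.pk
  (.br 3 (.vi [12816,25104,25889,25922,29473,25923,30241]) (.vi [12816,25104,29456,30241,
  30257])) .no .no .no) (.pk .no .no (.br 3 (.vi [12816,25104,30224,29473,30257]) (.vi [12816,
  25104,25889,25922,29456,25923,30224])) .no)) (.br 6 .no (.pk .no .no (.br 3 (.vi [12816,25104,
  25889,25922,30224,25923,30257]) (.vi [12816,25104,25889,25922,29456,25923,30224])) .no))))
  (.br 1 (.br 2 (.br 6 (.pk .no .no .no (.sh 0 5 [29200])) (.vi [25104,29200,30224,30240]))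
  (.br 6 (.pk .no (.br 3 (.vi [12816,25104,25889,25922,29472,25923,30240]) (.vi [12816,25104,
  29456,30240,30256])) .no .no) (.pk .no .no (.br 3 (.vi [12816,25104,30224,29472,30256]) (.vi
  [12816,25104,25889,25922,29456,25923,30224])) .no))) (.br 2 (.br 6 (.pk (.br 3 (.vi [12816,
  25104,25889,25922,29473,25923,30241]) (.vi [12816,25104,29472,30256,30241])) .no .no .no)
  (.pk .no (.br 3 (.vi [12816,25104,30240,30256,29473]) (.vi [12816,25104,25889,25922,29472,
  25923,30240])) .no .no)) (.br 6 (.pk .no (.br 3 (.vi [12816,25104,25889,25922,29472,25923,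
  30240]) (.vi [12816,25104,30240,30256,30257])) .no .no) .no))))⟩

def e5_10 : En :=
  ⟨⟨8, 114278355, [12816,29473,30258,30291,30292]⟩, [.sh 2 5 [],.no,.no,.no,.no,.no,.no,.no,.no,
  .no,.no,.no,.no,.no,.no,.sh 0 5 []], (.br 1 (.br 2 (.br 3 (.br 7 .no (.pk .no (.br 0 (.vi
  [12816,29473,34576,34592,34609]) (.vi [12816,29473,30258,30288,33552,30291,34609])) .no .no))
  (.br 7 (.pk .no (.br 0 (.vi [12816,29473,30258,30288,33552,30291,34609]) (.vi [12816,29473,
  34576,33568,34592])) .no .no) (.pk (.br 0 (.vi [12816,29473,33552,34576,34592]) (.vi [12816,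
  29473,30258,30288,33568,30291,34610])) .no .no .no))) (.br 3 (.br 7 (.pk .no .no (.br 0 (.vi
  [12816,29473,30258,30288,33296,30291,34593]) (.vi [12816,29473,33552,34576,34593])) .no) (.pk
  .no (.br 0 (.vi [12816,29473,33296,34576,34609]) (.vi [12816,29473,30258,30288,33552,30291,
  34609])) .no .no)) (.br 7 (.vi [29473,33569,34593,34609]) (.pk .no .no .no (.sh 0 5
  [33569]))))) (.br 2 (.br 3 (.br 7 (.pk .no .no (.br 0 (.vi [12816,29473,30258,30288,33296,
  30291,34593]) (.vi [12816,29473,30258,30288,34592,30291,34593])) .no) .no) (.br 7 (.pk .no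
  .no (.br 0 (.vi [12816,29473,30258,30288,33296,30291,34593]) (.vi [12816,29473,33568,34592,
  34593])) .no) (.pk (.br 0 (.vi [12816,29473,33296,34592,34610]) (.vi [12816,29473,30258,30288,
  33568,30291,34610])) .no .no .no))) (.br 3 (.br 7 (.pk .no .no .no (.sh 0 5 [33569])) (.pk
  .no .no .no (.sh 0 5 [33569]))) (.br 7 (.pk (.br 0 (.vi [12816,29473,30258,30288,33568,30291,
  34610]) (.br 5 (.vi [30288,30291,30258,34640,34610,34643]) (.br 4 (.vi [30288,30291,30292,
  34624,34627,34644]) (.br 6 (.iso 26 30912435216 false) (.vi [12816,29473,30258,30288,34610,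
  30291,34661]))))) .no .no .no) .no))))⟩

def e5_11 : En :=
  ⟨⟨7, 424986, [12816,25377,25889,25922,25923]⟩, [.no,.no,.no,.no,.no,.no,.sh 2 5 [],.no,.no,
  .no,.no,.sh 0 5 []], (.br 1 (.br 2 (.br 3 (.br 6 .no (.pk .no (.br 5 (.vi [25377,25889,30257,
  30290,30291]) (.vi [25377,25889,25922,30257,25923,30289])) .no .no)) (.br 6 (.pk (.br 5 (.vi
  [25377,25889,25922,30002,25923,30258]) (.vi [25377,25889,25922,30258,25923,30290])) .no .no
  .no) .no)) (.br 3 (.br 6 (.pk (.br 5 (.vi [25377,25889,29985,30002,30258]) (.vi [25377,25889,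
  25922,30258,25923,30291])) .no .no .no) (.pk .no (.br 5 (.vi [25377,25889,29985,30257,30002])
  (.vi [25377,25889,25922,30257,25923,30289])) .no .no)) (.br 6 (.pk .no .no .no (.sh 0 5
  [29473])) (.pk .no .no .no (.sh 0 5 [29473]))))) (.br 2 (.br 3 (.br 6 (.pk .no (.br 5 (.vi
  [25377,25889,25922,29985,25923,30257]) (.vi [25377,25889,30257,30290,30291])) .no .no) (.pk
  .no .no (.br 0 (.vi [12816,25377,29456,30240,30256]) (.vi [12816,25377,25889,25922,29200,
  25923,30241])) .no)) (.br 6 (.pk (.br 5 (.vi [25377,25889,29985,30002,30258]) (.vi [25377,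
  25889,25922,30258,25923,30290])) .no .no .no) (.pk .no .no (.br 0 (.vi [12816,25377,29472,
  30240,30241]) (.vi [12816,25377,25889,25922,29200,25923,30241])) .no))) (.br 3 (.br 6 (.vi
  [25377,29473,30241,30257]) (.pk .no .no .no (.sh 0 5 [29473]))) (.br 6 (.pk .no .no (.br 4
  (.br 5 (.vi [25889,25922,30241,30017,30018]) (.br 0 (.vi [12816,25377,25889,25922,29200,25923,
  30241]) (.iso 27 1645696048 false))) (.vi [25377,25889,25922,30241,25923,30274])) .no)
  .no))))⟩

def e5_12 : En :=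
  ⟨⟨8, 56591309, [12816,29473,30258,30291,30292]⟩, [.sh 2 5 [],.no,.no,.no,.no,.no,.no,.no,.no,
  .no,.no,.no,.no,.no,.no,.sh 0 5 []], (.br 1 (.br 2 (.br 3 (.br 7 .no (.pk .no .no (.br 6 (.vi
  [29473,30258,34593,34657,34659]) (.vi [29473,30258,30289,34593,30291,34658])) .no)) (.br 7
  (.pk .no (.br 6 (.vi [29473,30258,34353,34609,34354]) (.vi [29473,30258,30289,34609,30291,
  34657])) .no .no) (.pk .no .no (.br 6 (.vi [29473,30258,34593,34353,34657]) (.vi [29473,30258,
  30289,34593,30291,34658])) .no))) (.br 3 (.br 7 (.pk .no .no (.br 6 (.vi [29473,30258,30289,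
  34593,30291,34354]) (.vi [29473,30258,34593,34657,34659])) .no) (.pk (.br 0 (.vi [12816,29473,
  33296,34576,34608]) (.vi [12816,29473,30258,30289,33568,30291,34610])) .no .no .no)) (.br 7
  (.vi [29473,33569,34593,34609]) (.pk .no .no .no (.sh 0 5 [33569]))))) (.br 2 (.br 3 (.br 7
  (.pk .no (.br 6 (.vi [29473,30258,30289,34353,30291,34609]) (.vi [29473,30258,30289,34609,
  30291,34659])) .no .no) .no) (.br 7 (.pk .no .no .no (.sh 0 5 [33569])) (.pk .no .no .no (.sh
  0 5 [33569])))) (.br 3 (.br 7 (.pk .no (.br 6 (.vi [29473,30258,34353,34609,34354]) (.vi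
  [29473,30258,30289,34609,30291,34659])) .no .no) (.pk (.br 0 (.vi [12816,29473,33552,34608,
  34610]) (.vi [12816,29473,30258,30289,33568,30291,34610])) .no .no .no)) (.br 7 (.pk (.br 5
  (.br 6 (.vi [30258,30291,34610,34386,34387]) (.br 4 (.vi [30258,30291,30292,34610,34626,
  34660]) (.br 0 (.vi [12816,29473,30258,30289,33568,30291,34610]) (.iso 28 30912435216
  false)))) (.vi [29473,30258,30289,34641,30291,34610])) .no .no .no) .no))))⟩

def e5_13 : En :=
  ⟨⟨7, 478097, [16912,25104,25889,25922,25923]⟩, [.sh 2 5 [],.no,.no,.no,.no,.no,.no,.no,.no,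
  .no,.sh 0 5 [],.no], (.br 0 (.br 1 (.br 2 (.br 6 .no (.pk .no .no (.br 4 (.vi [16912,25104,
  30224,30273,30274]) (.vi [16912,25104,25889,29712,25922,30224])) .no)) (.br 6 (.pk (.br 4
  (.vi [16912,25104,25889,29729,25922,30241]) (.vi [16912,25104,29712,30241,30273])) .no .no
  .no) (.pk .no .no (.br 4 (.vi [16912,25104,30224,29729,30273]) (.vi [16912,25104,25889,29712,
  25922,30224])) .no))) (.br 2 (.br 6 (.pk (.br 4 (.vi [16912,25104,25889,29729,25922,30241])
  (.vi [16912,25104,25889,30241,25922,30274])) .no .no .no) .no) (.br 6 (.pk .no .no .no (.sh 0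
  5 [29200])) (.pk .no .no .no (.sh 0 5 [29200]))))) (.br 1 (.br 2 (.br 6 (.pk .no .no (.br 4
  (.vi [16912,25104,25889,29712,25922,30224]) (.vi [16912,25104,30224,29728,30273])) .no) (.pk
  .no (.br 4 (.vi [16912,25104,29712,30240,30273]) (.vi [16912,25104,25889,29728,25922,30240]))
  .no .no)) (.br 6 (.vi [25104,29200,30224,30240]) (.pk .no .no .no (.sh 0 5 [29200])))) (.br 2
  (.br 6 (.pk (.br 4 (.vi [16912,25104,25889,29729,25922,30241]) (.vi [16912,25104,29728,30241,
  30274])) .no .no .no) (.pk .no (.br 4 (.vi [16912,25104,30240,29729,30274]) (.vi [16912,25104,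
  25889,29728,25922,30240])) .no .no)) (.br 6 (.pk .no (.br 5 (.vi [16912,25104,25889,30240,
  25922,29985]) (.vi [16912,25104,25889,30240,25922,30290])) .no .no) .no))))⟩

def L5 : List En :=
  [e5_0, e5_1, e5_2, e5_3, e5_4, e5_5, e5_6, e5_7, e5_8, e5_9, e5_10, e5_11, e5_12, e5_13]

def e6_0 : En :=
  ⟨⟨8, 218120353, [21520,30017,30019,30002,30258,30292]⟩, [.no,.no,.no,.no,.no,.no,.no,.no,.sh
  0 6 [30017,30019],.no,.sh 0 6 [30017],.no,.no,.no,.no,.no], (.br 4 (.br 5 (.br 6 (.br 7 .no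
  (.pk .no .no (.sh 0 6 [30017,34644]) .no)) (.br 7 (.pk (.br 3 (.vi [30002,30258,30019,34659,
  30292,34661]) (.vi [30002,30258,30019,34643,30292,34661])) .no .no .no) (.pk .no .no (.sh 0 6
  [30017,34644]) .no))) (.br 6 (.br 7 (.pk (.br 3 (.vi [30002,30258,30019,34643,30292,34661])
  (.vi [30019,30292,34115,34659,34661])) .no .no .no) .no) (.br 7 (.pk .no .no .no (.br 1 (.sh
  0 6 [34113,34388]) (.vi [30017,30292,34369,34641,34657]))) (.pk .no .no .no (.br 1 (.sh 0 6
  [34113,34388]) (.vi [30017,30292,34369,34625,34388])))))) (.br 5 (.br 6 (.br 7 (.pk .no .no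
  (.sh 0 6 [30017,34644]) .no) (.pk .no (.br 1 (.vi [30017,30019,30002,30258,34625,30292,
  34660]) (.vi [30017,30292,34641,34657,34660])) .no .no)) (.br 7 (.vi [30292,34388,34644,
  34660]) (.pk .no .no .no (.br 1 (.vi [30017,30292,34369,34625,34388]) (.vi [30017,30019,30002,
  30258,34641,30292,34388]))))) (.br 6 (.br 7 (.pk (.br 3 (.vi [30002,30258,30019,34643,30292,
  34661]) (.vi [30019,30292,34627,34659,34661])) .no .no .no) (.pk .no (.br 1 (.vi [30017,30019,
  30002,30258,34625,30292,34660]) (.vi [30017,30019,30002,30258,34657,30292,34660])) .no .no))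
  (.br 7 (.pk .no (.br 3 (.vi [30019,30292,34643,34659,34660]) (.vi [30002,30258,30019,34627,
  30292,34660])) .no .no) .no))))⟩

def e6_1 : En :=
  ⟨⟨9, 48452682241, [30224,34657,34660,34627,33842,34661]⟩, [.sh 0 6 [34657,34660],.no,.sh 0 6
  [34657,34658],.sh 0 6 [34657],.no,.no,.no,.no,.no,.no,.no,.no,.no,.no,.no,.no,.no,.no,.no,
  .no], (.br 5 (.br 6 (.br 7 (.br 8 .no (.pk (.sh 0 6 [34657,39030]) .no .no .no)) (.br 8 (.pk
  .no (.br 2 (.vi [33842,34627,34658,34661,39026,34660,39029]) (.vi [34658,34661,38994,38754,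
  39029])) .no .no) .no)) (.br 7 (.br 8 (.pk (.sh 0 6 [34657,39030]) .no .no .no) (.pk .no .no
  (.br 4 (.vi [33842,34627,34658,34661,39012,34660,39013]) (.vi [34660,34661,38484,38756,
  39013])) .no)) (.br 8 (.pk .no (.br 2 (.vi [33842,34627,34658,34661,39026,34660,39029]) (.vi
  [34658,34661,38994,39010,39029])) .no .no) (.pk .no .no (.br 4 (.vi [33842,34627,34658,34661,
  39012,34660,39013]) (.vi [34660,34661,38484,38740,39013])) .no)))) (.br 6 (.br 7 (.br 8 (.pk
  .no (.br 2 (.vi [33842,34627,34658,34661,38994,34660,39029]) (.vi [33842,34627,34658,34661,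
  39026,34660,39029])) .no .no) (.pk (.sh 0 6 [34657,39030]) .no .no .no)) (.br 8 (.pk .no .no
  .no (.br 1 (.sh 0 6 [38753,38757]) (.vi [34657,34661,38481,38993,39025]))) (.pk .no .no .no
  (.br 1 (.sh 0 6 [38753,38757]) (.vi [34657,34661,38481,39009,38757]))))) (.br 7 (.br 8 (.vi
  [34661,38757,39013,39029]) (.pk .no .no .no (.br 4 (.vi [34660,34661,38484,39012,38757]) (.vi
  [33842,34627,34658,34661,38756,34660,38757])))) (.br 8 (.pk .no .no (.br 2 (.vi [34658,34661,
  38994,39026,39013]) (.vi [33842,34627,34658,34661,39010,34660,39013])) .no) .no))))⟩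

def e6_2 : En :=
  ⟨⟨9, 39863779841, [30224,34657,34660,34627,33842,34661]⟩, [.sh 0 6 [34657,34660],.no,.sh 0 6
  [34657,34658],.sh 0 6 [34657],.no,.no,.no,.no,.no,.no,.no,.no,.no,.no,.no,.no,.no,.no,.no,
  .no], (.br 5 (.br 6 (.br 7 (.br 8 .no (.pk (.sh 0 6 [34657,39030]) .no .no .no)) (.br 8 (.pk
  .no .no .no (.br 1 (.sh 0 6 [38753,38757]) (.vi [34657,34661,38481,39025,38757]))) (.pk .no
  .no .no (.br 1 (.sh 0 6 [38753,38757]) (.vi [34657,34661,38481,39009,38757]))))) (.br 7 (.br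
  8 (.pk (.sh 0 6 [34657,39030]) .no .no .no) (.pk .no .no (.br 1 (.vi [25872,30224,34657,39009,
  34661,39013]) (.vi [25872,30224,34657,39025,34661,39013])) .no)) (.br 8 .no (.pk .no .no (.br
  2 (.vi [25872,30224,34657,34658,39010,34661,39013]) (.vi [25872,30224,34657,34658,38482,34661,
  39013])) .no)))) (.br 6 (.br 7 (.br 8 (.pk .no .no .no (.br 1 (.vi [25872,30224,34657,38481,
  34661,38757]) (.sh 0 6 [38753,38757]))) (.vi [34661,38757,39013,39029])) (.br 8 (.pk .no (.br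
  1 (.vi [34657,34661,38481,38753,39029]) (.vi [25872,30224,34657,39025,34661,39029])) .no .no)
  (.pk .no .no (.br 1 (.vi [34657,34661,38481,38753,39013]) (.vi [25872,30224,34657,39009,34661,
  39013])) .no))) (.br 7 (.br 8 (.pk (.sh 0 6 [34657,39030]) .no .no .no) (.pk .no (.br 1 (.vi
  [25872,30224,34657,39009,34661,39029]) (.vi [25872,30224,34657,39025,34661,39029])) .no .no))
  (.br 8 (.pk .no (.br 2 (.vi [25872,30224,34657,34658,39026,34661,39029]) (.vi [34658,34661,
  38994,39010,39029])) .no .no) .no))))⟩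

def e6_3 : En :=
  ⟨⟨9, 39863780865, [30224,34657,34660,34627,33842,34661]⟩, [.sh 0 6 [34657,34660],.no,.sh 0 6
  [34657,34658],.sh 0 6 [34657],.no,.no,.no,.no,.no,.no,.no,.no,.no,.no,.no,.no,.no,.no,.no,.sh
  0 6 [30288]], (.br 5 (.br 6 (.br 7 (.br 8 .no (.pk (.sh 0 6 [34657,39030]) .no .no .no)) (.br
  8 (.pk .no .no .no (.sh 0 6 [30288,38757])) (.pk .no .no .no (.sh 0 6 [30288,38757])))) (.br
  7 (.br 8 (.pk (.sh 0 6 [34657,39030]) .no .no .no) (.pk .no .no (.br 0 (.vi [30224,30288,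
  34657,38480,34661,39013]) (.vi [30288,34661,38992,38752,39024])) .no)) (.br 8 .no (.pk .no
  .no (.br 0 (.vi [30224,30288,34657,38480,34661,39013]) (.vi [30288,34661,38736,38992,39013]))
  .no)))) (.br 6 (.br 7 (.br 8 (.pk .no .no .no (.sh 0 6 [30288,38757])) (.vi [34661,38757,
  39013,39029])) (.br 8 (.pk .no (.br 0 (.vi [30224,30288,34657,38736,34661,39029]) (.vi [30288,
  34661,38752,39024,39029])) .no .no) (.pk .no .no (.br 0 (.vi [30288,34661,38736,38992,39013])
  (.vi [30224,30288,34657,38752,34661,39013])) .no))) (.br 7 (.br 8 (.pk (.sh 0 6 [34657,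
  39030]) .no .no .no) (.pk .no (.br 0 (.vi [30224,30288,34657,38992,34661,39029]) (.vi [30288,
  34661,38752,39024,39029])) .no .no)) (.br 8 (.pk .no (.br 0 (.vi [30224,30288,34657,38736,
  34661,39029]) (.vi [30224,30288,34657,39024,34661,39029])) .no .no) .no))))⟩

def e6_4 : En :=
  ⟨⟨9, 39863781889, [30224,34657,34660,34627,33842,34661]⟩, [.sh 0 6 [34657,34660],.no,.sh 0 6
  [34657,34658],.sh 0 6 [34657],.no,.no,.no,.no,.no,.no,.no,.no,.no,.no,.no,.no,.no,.no,.no,
  .no], (.br 5 (.br 6 (.br 7 (.br 8 .no (.pk (.sh 0 6 [34657,39030]) .no .no .no)) (.br 8 (.pk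
  .no .no .no (.br 1 (.sh 0 6 [38753,38757]) (.vi [34657,34661,38737,39025,38757]))) (.pk .no
  .no .no (.br 1 (.sh 0 6 [38753,38757]) (.vi [34657,34661,38737,38993,39009]))))) (.br 7 (.br
  8 (.pk (.sh 0 6 [34657,39030]) .no .no .no) (.pk .no .no (.br 2 (.vi [33842,34627,34658,34661,
  39010,34660,39013]) (.vi [34658,34661,38482,38754,39013])) .no)) (.br 8 .no (.pk .no .no (.br
  2 (.vi [33842,34627,34658,34661,39010,34660,39013]) (.vi [33842,34627,34658,34661,38482,34660,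
  39013])) .no)))) (.br 6 (.br 7 (.br 8 (.pk .no .no .no (.br 1 (.br 0 (.br 2 (.br 4 (.br 3
  (.iso 0 508307976720 false) (.vi [34627,34660,34661,38211,38979,38483])) (.vi [34660,34661,
  38484,38996,39028])) (.vi [34658,34661,38482,38994,39026])) (.vi [30224,34657,34661,38416,
  38480,38757])) (.sh 0 6 [38753,38757]))) (.vi [34661,38757,39013,39029])) (.br 8 (.pk .no
  (.br 2 (.vi [33842,34627,34658,34661,39026,34660,39029]) (.vi [34658,34661,38482,38994,
  38754])) .no .no) (.pk .no .no (.br 2 (.vi [33842,34627,34658,34661,38994,34660,39013]) (.vi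
  [34658,34661,38482,38754,39013])) .no))) (.br 7 (.br 8 (.pk (.sh 0 6 [34657,39030]) .no .no
  .no) (.pk .no (.br 2 (.vi [34658,34661,38994,39010,39029]) (.vi [33842,34627,34658,34661,
  38754,34660,39029])) .no .no)) (.br 8 (.pk .no (.br 2 (.vi [33842,34627,34658,34661,39026,
  34660,39029]) (.vi [34658,34661,38994,39010,39029])) .no .no) .no))))⟩

def e6_5 : En :=
  ⟨⟨9, 39863782913, [30224,34657,34660,34627,33842,34661]⟩, [.sh 0 6 [34657,34660],.no,.sh 0 6
  [34657,34658],.sh 0 6 [34657],.no,.no,.no,.no,.no,.no,.no,.no,.no,.no,.no,.no,.no,.no,.no,.sh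
  0 6 [30288]], (.br 5 (.br 6 (.br 7 (.br 8 .no (.pk (.sh 0 6 [34657,39030]) .no .no .no)) (.br
  8 (.pk .no .no .no (.sh 0 6 [30288,38757])) (.pk .no .no .no (.sh 0 6 [30288,38757])))) (.br
  7 (.br 8 (.pk (.sh 0 6 [34657,39030]) .no .no .no) (.pk .no .no (.br 0 (.vi [30224,30288,
  34657,38480,34661,39013]) (.vi [30288,34661,38992,38752,39024])) .no)) (.br 8 .no (.pk .no
  .no (.br 0 (.vi [30224,30288,34657,38480,34661,39013]) (.vi [30288,34661,38736,38992,39013]))
  .no)))) (.br 6 (.br 7 (.br 8 (.pk .no .no .no (.sh 0 6 [30288,38757])) (.vi [34661,38757,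
  39013,39029])) (.br 8 (.pk .no (.br 0 (.vi [30224,30288,34657,38736,34661,39029]) (.vi [30288,
  34661,38752,39024,39029])) .no .no) (.pk .no .no (.br 0 (.vi [30288,34661,38736,38992,39013])
  (.vi [30224,30288,34657,38752,34661,39013])) .no))) (.br 7 (.br 8 (.pk (.sh 0 6 [34657,
  39030]) .no .no .no) (.pk .no (.br 0 (.vi [30224,30288,34657,38992,34661,39029]) (.vi [30288,
  34661,38752,39024,39029])) .no .no)) (.br 8 (.pk .no (.br 0 (.vi [30224,30288,34657,38736,
  34661,39029]) (.vi [30224,30288,34657,39024,34661,39029])) .no .no) .no))))⟩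

def e6_6 : En :=
  ⟨⟨9, 48461070849, [30224,34657,34660,34627,33842,34661]⟩, [.sh 0 6 [34657,34660],.no,.no,.sh
  0 6 [34657],.no,.no,.no,.no,.no,.no,.no,.no,.no,.no,.no,.no,.no,.no,.no,.no], (.br 5 (.br 6
  (.br 7 (.br 8 .no (.pk (.sh 0 6 [34657,39030]) .no .no .no)) (.br 8 (.pk .no (.br 4 (.br 1
  (.vi [34657,34660,34661,38753,39028,39029]) (.vi [34657,34660,34661,39025,39028,39029])) (.vi
  [34660,34661,38740,38756,39029])) .no .no) .no)) (.br 7 (.br 8 (.pk (.sh 0 6 [34657,39030])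
  .no .no .no) (.pk .no .no (.br 1 (.br 0 (.vi [30224,34657,34661,38416,39009,39013]) (.vi
  [30224,34657,38928,38752,39024])) (.vi [34657,34661,38993,39025,39013])) .no)) (.br 8 (.pk
  .no (.br 4 (.br 3 (.br 1 (.br 0 (.vi [30224,34657,34660,34661,38416,39028,39029]) (.vi [30224,
  34657,34660,38672,39024,39028])) (.vi [34657,34660,34661,39025,39028,39029])) (.vi [34627,
  38723,38979,39027])) (.vi [34660,34661,38484,38740,39012])) .no .no) (.pk .no .no (.br 4 (.br
  3 (.vi [34627,34660,34661,38979,39012,39013]) (.vi [34627,34660,38467,38723,39012])) (.vi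
  [34660,34661,38484,38740,39013])) .no)))) (.br 6 (.br 7 (.br 8 (.pk .no (.br 1 (.br 2 (.br 0
  (.br 4 (.br 3 (.vi [33842,34627,34660,34661,38994,38211,39029]) (.vi [33842,34627,38979,38994,
  38995,39029])) (.vi [33842,34627,38978,38994,39028,39029])) (.vi [30224,34657,34661,38160,
  38416,38992])) (.vi [30241,34657,34661,38738,38754,39029])) (.vi [34657,34661,38481,38993,
  38753])) .no .no) (.pk (.sh 0 6 [34657,39030]) .no .no .no)) (.br 8 (.pk .no .no .no (.br 1
  (.sh 0 6 [38753,38757]) (.vi [34657,34661,38481,38993,39025]))) (.pk .no .no .no (.br 1 (.sh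
  0 6 [38753,38757]) (.vi [34657,34661,38481,39009,38757]))))) (.br 7 (.br 8 (.vi [34661,38757,
  39013,39029]) (.pk .no .no .no (.br 0 (.br 1 (.vi [34657,34661,38481,39009,38757]) (.vi
  [30224,34657,34661,38160,38928,39025])) (.sh 0 6 [38752,38757])))) (.br 8 (.pk .no .no (.br 1
  (.br 4 (.vi [34660,34661,38484,38740,39028]) (.vi [34657,34660,34661,38465,38481,39012]))
  (.vi [34657,34661,38993,39025,39013])) .no) .no))))⟩

def e6_7 : En :=
  ⟨⟨9, 47378924065, [30224,34657,34660,34627,33842,34661]⟩, [.sh 0 6 [34657,34660],.no,.no,.sh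
  0 6 [34657],.no,.no,.no,.no,.no,.no,.no,.no,.no,.no,.no,.no,.no,.no,.no,.no], (.br 5 (.br 6
  (.br 7 (.br 8 .no (.pk (.sh 0 6 [34657,39030]) .no .no .no)) (.br 8 (.pk .no (.br 4 (.vi
  [34115,34627,34660,39028,34661,39029]) (.vi [34660,34661,38996,38756,39029])) .no .no) .no))
  (.br 7 (.br 8 (.pk (.sh 0 6 [34657,39030]) .no .no .no) (.pk .no .no (.br 1 (.vi [34657,34660,
  34627,34115,39009,34661,39013]) (.vi [34657,34661,38993,39025,39013])) .no)) (.br 8 (.pk .no
  (.br 4 (.vi [34115,34627,34660,39028,34661,39029]) (.vi [34660,34661,38996,39012,39029])) .no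
  .no) (.pk .no .no (.br 1 (.vi [34657,34660,34627,34115,39009,34661,39013]) (.vi [34657,34660,
  34627,34115,38993,34661,39013])) .no)))) (.br 6 (.br 7 (.br 8 (.pk .no (.br 4 (.vi [34115,
  34627,34660,38996,34661,39029]) (.vi [34115,34627,34660,39028,34661,39029])) .no .no) (.pk
  (.sh 0 6 [34657,39030]) .no .no .no)) (.br 8 (.pk .no .no .no (.br 1 (.sh 0 6 [38753,38757])
  (.vi [34657,34661,38481,38993,39025]))) (.pk .no .no .no (.br 1 (.sh 0 6 [38753,38757]) (.vi
  [34657,34661,38481,39009,38757]))))) (.br 7 (.br 8 (.vi [34661,38757,39013,39029]) (.pk .no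
  .no .no (.br 1 (.vi [34657,34661,38481,39009,38757]) (.vi [34657,34660,34627,34115,39025,
  34661,38757])))) (.br 8 (.pk .no .no (.br 4 (.vi [34660,34661,38996,39028,39013]) (.vi [34115,
  34627,34660,39012,34661,39013])) .no) .no))))⟩

def e6_8 : En :=
  ⟨⟨9, 47378940449, [30224,34657,34660,34627,33842,34661]⟩, [.sh 0 6 [34657,34660],.no,.no,.sh
  0 6 [34657],.no,.no,.no,.no,.no,.no,.no,.no,.no,.no,.no,.no,.no,.no,.no,.no], (.br 5 (.br 6
  (.br 7 (.br 8 .no (.pk (.sh 0 6 [34657,39030]) .no .no .no)) (.br 8 (.pk .no (.br 4 (.vi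
  [21554,33842,34627,34660,39028,34661,39029]) (.vi [34660,34661,38740,38756,39029])) .no .no)
  .no)) (.br 7 (.br 8 (.pk (.sh 0 6 [34657,39030]) .no .no .no) (.pk .no .no (.br 4 (.vi [21554,
  33842,34627,34660,39012,34661,39013]) (.vi [34660,34661,38484,38756,39013])) .no)) (.br 8
  (.pk .no (.br 4 (.vi [21554,33842,34627,34660,39028,34661,39029]) (.vi [34660,34661,38484,
  38740,39012])) .no .no) (.pk .no .no (.br 4 (.vi [21554,33842,34627,34660,39012,34661,39013])
  (.vi [34660,34661,38484,38740,39013])) .no)))) (.br 6 (.br 7 (.br 8 (.pk .no (.br 1 (.br 0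
  (.br 2 (.br 3 (.br 4 (.vi [21554,33842,34627,34660,38211,34661,39029]) (.vi [21554,33842,
  34627,37938,39028,39029])) (.vi [21554,33842,34627,38194,38995,39029])) (.vi [21554,33842,
  34627,34660,38994,34661,39029])) (.vi [30224,34657,34661,38160,38416,38992])) (.vi [34657,
  34661,38481,38993,38753])) .no .no) (.pk (.sh 0 6 [34657,39030]) .no .no .no)) (.br 8 (.pk
  .no .no .no (.br 1 (.sh 0 6 [38753,38757]) (.vi [34657,34661,38481,38993,39025]))) (.pk .no
  .no .no (.br 1 (.sh 0 6 [38753,38757]) (.vi [34657,34661,38481,39009,38757]))))) (.br 7 (.br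
  8 (.vi [34661,38757,39013,39029]) (.pk .no .no .no (.br 4 (.vi [34660,34661,38484,39012,
  38757]) (.vi [21554,33842,34627,34660,38756,34661,38757])))) (.br 8 (.pk .no .no (.br 4 (.vi
  [34660,34661,38484,38740,39028]) (.vi [21554,33842,34627,34660,39012,34661,39013])) .no)
  .no))))⟩

def e6_9 : En :=
  ⟨⟨9, 38790038049, [30224,34657,34660,34627,33842,34661]⟩, [.sh 0 6 [34657,34660],.no,.no,.sh
  0 6 [34657],.no,.no,.no,.no,.no,.no,.no,.no,.no,.no,.no,.no,.no,.no,.no,.no], (.br 5 (.br 6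
  (.br 7 (.br 8 .no (.pk (.sh 0 6 [34657,39030]) .no .no .no)) (.br 8 (.pk .no .no .no (.br 1
  (.sh 0 6 [38753,38757]) (.vi [34657,34661,38481,39025,38757]))) (.pk .no .no .no (.br 1 (.sh
  0 6 [38753,38757]) (.vi [34657,34661,38481,39009,38757]))))) (.br 7 (.br 8 (.pk (.sh 0 6
  [34657,39030]) .no .no .no) (.pk .no .no (.br 1 (.vi [25872,30224,34657,39009,34661,39013])
  (.vi [25872,30224,34657,39025,34661,39013])) .no)) (.br 8 .no (.pk .no .no (.br 4 (.vi [25872,
  30224,34657,34660,39012,34661,39013]) (.vi [25872,30224,34657,34660,38484,34661,39013]))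
  .no)))) (.br 6 (.br 7 (.br 8 (.pk .no .no .no (.br 1 (.vi [25872,30224,34657,38481,34661,
  38757]) (.sh 0 6 [38753,38757]))) (.vi [34661,38757,39013,39029])) (.br 8 (.pk .no (.br 1
  (.vi [34657,34661,38481,38753,39029]) (.vi [25872,30224,34657,39025,34661,39029])) .no .no)
  (.pk .no .no (.br 1 (.vi [34657,34661,38481,38753,39013]) (.vi [25872,30224,34657,39009,34661,
  39013])) .no))) (.br 7 (.br 8 (.pk (.sh 0 6 [34657,39030]) .no .no .no) (.pk .no (.br 1 (.vi
  [25872,30224,34657,39009,34661,39029]) (.vi [25872,30224,34657,39025,34661,39029])) .no .no))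
  (.br 8 (.pk .no (.br 4 (.vi [25872,30224,34657,34660,39028,34661,39029]) (.vi [34660,34661,
  38996,39012,39029])) .no .no) .no))))⟩

def e6_10 : En :=
  ⟨⟨9, 38790039073, [30224,34657,34660,34627,33842,34661]⟩, [.sh 0 6 [34657,34660],.no,.no,.sh
  0 6 [34657],.no,.no,.no,.no,.no,.no,.no,.no,.no,.no,.no,.no,.no,.no,.no,.sh 0 6 [30288]],
  (.br 5 (.br 6 (.br 7 (.br 8 .no (.pk (.sh 0 6 [34657,39030]) .no .no .no)) (.br 8 (.pk .no
  .no .no (.sh 0 6 [30288,38757])) (.pk .no .no .no (.sh 0 6 [30288,38757])))) (.br 7 (.br 8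
  (.pk (.sh 0 6 [34657,39030]) .no .no .no) (.pk .no .no (.br 0 (.vi [30224,30288,34657,38480,
  34661,39013]) (.vi [30288,34661,38992,38752,39024])) .no)) (.br 8 .no (.pk .no .no (.br 0
  (.vi [30224,30288,34657,38480,34661,39013]) (.vi [30288,34661,38736,38992,39013])) .no))))
  (.br 6 (.br 7 (.br 8 (.pk .no .no .no (.sh 0 6 [30288,38757])) (.vi [34661,38757,39013,
  39029])) (.br 8 (.pk .no (.br 0 (.vi [30224,30288,34657,38736,34661,39029]) (.vi [30288,34661,
  38752,39024,39029])) .no .no) (.pk .no .no (.br 0 (.vi [30288,34661,38736,38992,39013]) (.vi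
  [30224,30288,34657,38752,34661,39013])) .no))) (.br 7 (.br 8 (.pk (.sh 0 6 [34657,39030]) .no
  .no .no) (.pk .no (.br 0 (.vi [30224,30288,34657,38992,34661,39029]) (.vi [30288,34661,38752,
  39024,39029])) .no .no)) (.br 8 (.pk .no (.br 0 (.vi [30224,30288,34657,38736,34661,39029])
  (.vi [30224,30288,34657,39024,34661,39029])) .no .no) .no))))⟩

def e6_11 : En :=
  ⟨⟨9, 38790040097, [30224,34657,34660,34627,33842,34661]⟩, [.sh 0 6 [34657,34660],.no,.no,.sh
  0 6 [34657],.no,.no,.no,.no,.no,.no,.no,.no,.no,.no,.no,.no,.no,.no,.no,.no], (.br 5 (.br 6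
  (.br 7 (.br 8 .no (.pk (.sh 0 6 [34657,39030]) .no .no .no)) (.br 8 (.pk .no .no .no (.br 1
  (.sh 0 6 [38753,38757]) (.vi [34657,34661,38737,39025,38757]))) (.pk .no .no .no (.br 1 (.sh
  0 6 [38753,38757]) (.vi [34657,34661,38737,38993,39009]))))) (.br 7 (.br 8 (.pk (.sh 0 6
  [34657,39030]) .no .no .no) (.pk .no .no (.br 1 (.br 0 (.vi [30224,34657,34661,38416,39009,
  39013]) (.vi [30224,34657,38928,38752,39024])) (.vi [34657,34661,38993,39025,39013])) .no))
  (.br 8 .no (.pk .no .no (.br 1 (.br 0 (.vi [30224,34657,34661,38416,39009,39013]) (.vi [30224,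
  34657,38672,38928,39009])) (.vi [34657,34661,38737,38993,39013])) .no)))) (.br 6 (.br 7 (.br
  8 (.pk .no .no .no (.br 1 (.br 0 (.br 4 (.br 3 (.br 2 (.iso 1 508307976720 false) (.vi [30224,
  34657,34661,38160,38177,38482,38757])) (.vi [34627,34660,34661,38211,38979,38483])) (.vi
  [34660,34661,38484,38996,39028])) (.vi [30224,34657,34661,38416,38480,38757])) (.sh 0 6
  [38753,38757]))) (.vi [34661,38757,39013,39029])) (.br 8 (.pk .no (.br 1 (.vi [34657,34661,
  38737,38753,39029]) (.br 0 (.vi [30224,34657,34661,38672,39025,39029]) (.vi [30224,34657,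
  38752,39024,39025]))) .no .no) (.pk .no .no (.br 1 (.vi [34657,34661,38737,38993,38753]) (.br
  0 (.vi [30224,34657,38672,38928,39009]) (.vi [30224,34657,34661,38480,38752,39009]))) .no)))
  (.br 7 (.br 8 (.pk (.sh 0 6 [34657,39030]) .no .no .no) (.pk .no (.br 1 (.vi [34657,34661,
  38993,39009,39029]) (.br 0 (.vi [30224,34657,34661,38928,39025,39029]) (.vi [30224,34657,
  38752,39024,39025]))) .no .no)) (.br 8 (.pk .no (.br 4 (.br 1 (.vi [34657,34660,34661,38737,
  39028,39029]) (.vi [34657,34660,34661,39025,39028,39029])) (.vi [34660,34661,38996,39012,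
  39029])) .no .no) .no))))⟩

def e6_12 : En :=
  ⟨⟨9, 38790041121, [30224,34657,34660,34627,33842,34661]⟩, [.sh 0 6 [34657,34660],.no,.no,.sh
  0 6 [34657],.no,.no,.no,.no,.no,.no,.no,.no,.no,.no,.no,.no,.no,.no,.no,.sh 0 6 [30288]],
  (.br 5 (.br 6 (.br 7 (.br 8 .no (.pk (.sh 0 6 [34657,39030]) .no .no .no)) (.br 8 (.pk .no
  .no .no (.sh 0 6 [30288,38757])) (.pk .no .no .no (.sh 0 6 [30288,38757])))) (.br 7 (.br 8
  (.pk (.sh 0 6 [34657,39030]) .no .no .no) (.pk .no .no (.br 0 (.vi [30224,30288,34657,38480,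
  34661,39013]) (.vi [30288,34661,38992,38752,39024])) .no)) (.br 8 .no (.pk .no .no (.br 0
  (.vi [30224,30288,34657,38480,34661,39013]) (.vi [30288,34661,38736,38992,39013])) .no))))
  (.br 6 (.br 7 (.br 8 (.pk .no .no .no (.sh 0 6 [30288,38757])) (.vi [34661,38757,39013,
  39029])) (.br 8 (.pk .no (.br 0 (.vi [30224,30288,34657,38736,34661,39029]) (.vi [30288,34661,
  38752,39024,39029])) .no .no) (.pk .no .no (.br 0 (.vi [30288,34661,38736,38992,39013]) (.vi
  [30224,30288,34657,38752,34661,39013])) .no))) (.br 7 (.br 8 (.pk (.sh 0 6 [34657,39030]) .no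
  .no .no) (.pk .no (.br 0 (.vi [30224,30288,34657,38992,34661,39029]) (.vi [30288,34661,38752,
  39024,39029])) .no .no)) (.br 8 (.pk .no (.br 0 (.vi [30224,30288,34657,38736,34661,39029])
  (.vi [30224,30288,34657,39024,34661,39029])) .no .no) .no))))⟩

def e6_13 : En :=
  ⟨⟨9, 35550614470, [30224,34657,34660,34627,33842,34661]⟩, [.sh 0 6 [34657,34660],.no,.no,.sh
  0 6 [34657],.no,.no,.no,.no,.no,.no,.no,.no,.no,.no,.no,.no,.no,.no,.no,.sh 0 6 [30288]],
  (.br 5 (.br 6 (.br 7 (.br 8 .no (.pk .no (.br 1 (.vi [30224,30288,34657,39025,34661,39029])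
  (.vi [34657,34661,38481,38737,39009])) .no .no)) (.br 8 (.pk .no .no .no (.sh 0 6 [30288,
  38757])) (.pk .no .no .no (.sh 0 6 [30288,38757])))) (.br 7 (.br 8 (.pk .no .no .no (.sh 0 6
  [30288,38757])) (.vi [34661,38757,39013,39029])) (.br 8 (.pk (.sh 0 6 [34657,39030]) .no .no
  .no) (.pk .no .no (.br 0 (.vi [30224,30288,34657,38752,34661,39013]) (.vi [30224,30288,34657,
  38480,34661,39013])) .no)))) (.br 6 (.br 7 (.br 8 (.pk .no (.br 0 (.vi [30224,30288,34657,
  38736,34661,39029]) (.vi [30288,34661,38480,39024,39029])) .no .no) (.pk .no .no (.br 0 (.vi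
  [30288,34661,38736,39024,39013]) (.vi [30224,30288,34657,38480,34661,39013])) .no)) (.br 8
  .no (.pk .no .no (.br 1 (.vi [34657,34661,38481,38753,39013]) (.vi [30224,30288,34657,39009,
  34661,39013])) .no))) (.br 7 (.br 8 (.pk .no (.br 0 (.vi [30224,30288,34657,38736,34661,
  39029]) (.vi [30288,34661,38752,39024,39029])) .no .no) (.pk (.sh 0 6 [34657,39030]) .no .no
  .no)) (.br 8 (.pk (.sh 0 6 [34657,39030]) .no .no .no) .no))))⟩

def e6_14 : En :=
  ⟨⟨9, 35550615494, [30224,34657,34660,34627,33842,34661]⟩, [.sh 0 6 [34657,34660],.no,.no,.sh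
  0 6 [34657],.no,.no,.no,.no,.no,.no,.no,.no,.no,.no,.no,.no,.no,.no,.no,.no], (.br 5 (.br 6
  (.br 7 (.br 8 .no (.pk .no (.br 1 (.vi [25872,30224,34657,39025,34661,39029]) (.vi [34657,
  34661,38481,38737,39009])) .no .no)) (.br 8 (.pk .no .no .no (.br 1 (.sh 0 6 [38753,38757])
  (.vi [25872,30224,34657,38481,34661,38757]))) (.pk .no .no .no (.br 1 (.sh 0 6 [38753,38757])
  (.vi [34657,34661,38481,39009,38757]))))) (.br 7 (.br 8 (.pk .no .no .no (.br 1 (.sh 0 6
  [38753,38757]) (.vi [34657,34661,38737,39025,38757]))) (.vi [34661,38757,39013,39029])) (.br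
  8 (.pk (.sh 0 6 [34657,39030]) .no .no .no) (.pk .no .no (.br 0 (.vi [25872,30224,34657,38480,
  34661,38752]) (.vi [25872,30224,34657,38992,34661,39013])) .no)))) (.br 6 (.br 7 (.br 8 (.pk
  .no (.br 1 (.vi [34657,34661,38481,38737,39029]) (.vi [25872,30224,34657,39025,34661,39029]))
  .no .no) (.pk .no .no (.br 1 (.vi [34657,34661,38481,38737,39025]) (.vi [25872,30224,34657,
  39009,34661,39013])) .no)) (.br 8 .no (.pk .no .no (.br 1 (.vi [34657,34661,38481,38753,
  39013]) (.vi [25872,30224,34657,39009,34661,39013])) .no))) (.br 7 (.br 8 (.pk .no (.br 1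
  (.vi [34657,34661,38737,38753,39029]) (.vi [25872,30224,34657,39025,34661,39029])) .no .no)
  (.pk (.sh 0 6 [34657,39030]) .no .no .no)) (.br 8 (.pk (.sh 0 6 [34657,39030]) .no .no .no)
  .no))))⟩

def e6_15 : En :=
  ⟨⟨9, 35550616518, [30224,34657,34660,34627,33842,34661]⟩, [.sh 0 6 [34657,34660],.no,.no,.sh
  0 6 [34657],.no,.no,.no,.no,.no,.no,.no,.no,.no,.no,.no,.no,.no,.no,.no,.sh 0 6 [30288]],
  (.br 5 (.br 6 (.br 7 (.br 8 .no (.pk .no (.br 1 (.vi [30224,30288,34657,39025,34661,39029])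
  (.vi [34657,34661,38993,39009,39029])) .no .no)) (.br 8 (.pk .no .no .no (.sh 0 6 [30288,
  38757])) (.pk .no .no .no (.sh 0 6 [30288,38757])))) (.br 7 (.br 8 (.pk .no .no .no (.sh 0 6
  [30288,38757])) (.vi [34661,38757,39013,39029])) (.br 8 (.pk (.sh 0 6 [34657,39030]) .no .no
  .no) (.pk .no .no (.br 0 (.vi [30224,30288,34657,38752,34661,39013]) (.vi [30224,30288,34657,
  38480,34661,39013])) .no)))) (.br 6 (.br 7 (.br 8 (.pk .no (.br 0 (.vi [30224,30288,34657,
  38736,34661,39029]) (.vi [30288,34661,38480,39024,39029])) .no .no) (.pk .no .no (.br 0 (.vi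
  [30288,34661,38736,39024,39013]) (.vi [30224,30288,34657,38480,34661,39013])) .no)) (.br 8
  .no (.pk .no .no (.br 1 (.vi [34657,34661,38993,38753,39013]) (.vi [30224,30288,34657,39009,
  34661,39013])) .no))) (.br 7 (.br 8 (.pk .no (.br 0 (.vi [30224,30288,34657,38736,34661,
  39029]) (.vi [30288,34661,38752,39024,39029])) .no .no) (.pk (.sh 0 6 [34657,39030]) .no .no
  .no)) (.br 8 (.pk (.sh 0 6 [34657,39030]) .no .no .no) .no))))⟩

def e6_16 : En :=
  ⟨⟨9, 35550617542, [30224,34657,34660,34627,33842,34661]⟩, [.sh 0 6 [34657,34660],.no,.no,.sh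
  0 6 [34657],.no,.no,.no,.no,.no,.no,.no,.no,.no,.no,.no,.no,.no,.no,.no,.no], (.br 5 (.br 6
  (.br 7 (.br 8 .no (.pk .no (.br 1 (.br 0 (.vi [30224,34657,34661,39024,39025,39029]) (.vi
  [38160,38672,38992,39025,39029])) (.vi [34657,34661,38993,39009,39029])) .no .no)) (.br 8
  (.pk .no .no .no (.br 1 (.sh 0 6 [38753,38757]) (.br 0 (.br 3 (.br 4 (.vi [34657,34660,34627,
  37937,38723,38756]) (.br 2 (.vi [30224,34657,34661,38160,37392,38945,38754]) (.iso 2
  508307976720 true))) (.vi [34657,34661,38757,38193,38449,38739])) (.vi [30224,34657,34661,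
  38416,38480,38757])))) (.pk .no .no .no (.br 1 (.sh 0 6 [38753,38757]) (.vi [34657,34661,
  38993,39009,38757]))))) (.br 7 (.br 8 (.pk .no .no .no (.br 0 (.br 1 (.sh 0 6 [38753,38757])
  (.vi [30224,38672,38160,38480,38757])) (.sh 0 6 [38752,38757]))) (.vi [34661,38757,39013,
  39029])) (.br 8 (.pk (.sh 0 6 [34657,39030]) .no .no .no) (.pk .no .no (.br 0 (.vi [30224,
  34657,34661,38480,38752,39013]) (.br 1 (.vi [38160,38416,38992,39009,39013]) (.vi [30224,
  34657,34661,38992,38993,39013]))) .no)))) (.br 6 (.br 7 (.br 8 (.pk .no (.br 3 (.br 4 (.br 2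
  (.vi [33842,34627,34660,34661,38994,38211,39029]) (.vi [33842,34627,34660,34661,37938,38211,
  39029])) (.br 1 (.br 0 (.br 2 (.vi [33842,34627,38978,38994,39028,39029]) (.iso 3
  581320323600 false)) (.vi [30224,34657,34660,38672,39024,39028])) (.vi [34657,34660,34661,
  39025,39028,39029]))) (.vi [34627,34660,34661,38483,38739,39029])) .no .no) (.pk .no .no (.br
  1 (.vi [34657,34661,38993,39025,39013]) (.br 0 (.vi [30224,34657,38672,39024,39009]) (.vi
  [30224,34657,34661,38416,39009,39013]))) .no)) (.br 8 .no (.pk .no .no (.br 1 (.vi [34657,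
  34661,38993,38753,39013]) (.br 4 (.vi [34657,34660,38977,39009,38756]) (.vi [34657,34660,
  34661,39009,39012,39013]))) .no))) (.br 7 (.br 8 (.pk .no (.br 2 (.vi [34661,39029,38994,
  38754,39010]) (.br 0 (.br 1 (.br 4 (.vi [30224,34657,34660,38464,38753,38756]) (.vi [34657,
  34660,34661,38753,39028,39029])) (.vi [30224,34657,34661,38672,39025,39029])) (.vi [30224,
  34657,34661,38752,39024,39029]))) .no .no) (.pk (.sh 0 6 [34657,39030]) .no .no .no)) (.br 8
  (.pk (.sh 0 6 [34657,39030]) .no .no .no) .no))))⟩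

def e6_17 : En :=
  ⟨⟨8, 156465173, [21520,30017,30019,30002,30258,30292]⟩, [.no,.no,.no,.no,.no,.no,.no,.no,.sh
  0 6 [30017,30019],.no,.sh 0 6 [30017],.no,.no,.no,.no,.no], (.br 4 (.br 5 (.br 6 (.br 7 .no
  (.pk (.br 3 (.vi [30002,30258,30019,34643,30292,34661]) (.vi [30019,30292,34115,34387,
  34661])) .no .no .no)) (.br 7 (.pk .no .no .no (.br 3 (.vi [30019,30292,34387,34659,34388])
  (.vi [30002,30258,30019,34115,30292,34388]))) (.pk .no .no .no (.br 1 (.vi [30017,30019,30002,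
  30258,34641,30292,34388]) (.sh 0 6 [34113,34388]))))) (.br 6 (.br 7 (.pk (.br 3 (.vi [30002,
  30258,30019,34643,30292,34661]) (.vi [30002,30258,30019,34659,30292,34661])) .no .no .no)
  (.pk .no .no (.sh 0 6 [30017,34644]) .no)) (.br 7 .no (.pk .no .no (.sh 0 6 [30017,34644])
  .no)))) (.br 5 (.br 6 (.br 7 (.pk .no .no .no (.br 1 (.sh 0 6 [34113,34388]) (.vi [30017,
  30292,34369,34625,34388]))) (.vi [30292,34388,34644,34660])) (.br 7 (.pk .no (.br 3 (.vi
  [30019,30292,34115,34387,34659]) (.vi [30002,30258,30019,34627,30292,34660])) .no .no) (.pk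
  .no .no (.sh 0 6 [30017,34644]) .no))) (.br 6 (.br 7 (.pk (.br 3 (.vi [30002,30258,30019,
  34643,30292,34661]) (.vi [30019,30292,34627,34659,34661])) .no .no .no) (.pk .no (.br 2 (.vi
  [30002,30258,30019,34642,30292,34658]) (.vi [30002,30258,30019,34370,30292,34660])) .no .no))
  (.br 7 (.pk .no (.br 3 (.vi [30019,30292,34643,34659,34660]) (.vi [30002,30258,30019,34627,
  30292,34660])) .no .no) .no))))⟩

def e6_18 : En :=
  ⟨⟨9, 14759785653, [30224,34657,34660,34627,33842,34661]⟩, [.sh 0 6 [34657,34660],.no,.sh 0 6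
  [34657,34658],.sh 0 6 [34657],.no,.no,.no,.no,.no,.no,.no,.no,.no,.no,.no,.no,.no,.no,.no,.sh
  0 6 [30288]], (.br 5 (.br 6 (.br 7 (.br 8 .no (.pk .no (.br 1 (.vi [30224,30288,34657,39025,
  34661,39029]) (.vi [34657,34661,38737,38753,39029])) .no .no)) (.br 8 (.pk .no (.br 0 (.vi
  [30224,30288,34657,38736,34661,39029]) (.vi [30288,34661,38992,38752,39029])) .no .no) (.pk
  (.sh 0 6 [34657,39030]) .no .no .no))) (.br 7 (.br 8 (.pk .no .no .no (.sh 0 6 [30288,
  38757])) (.vi [34661,38757,39013,39029])) (.br 8 (.pk .no (.br 0 (.vi [30224,30288,34657,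
  38736,34661,39029]) (.vi [30288,34661,38480,38992,39029])) .no .no) (.pk .no .no (.br 0 (.vi
  [30288,34661,38736,38992,39013]) (.vi [30224,30288,34657,38480,34661,39013])) .no)))) (.br 6
  (.br 7 (.br 8 (.pk .no .no .no (.sh 0 6 [30288,38757])) (.pk .no .no .no (.sh 0 6 [30288,
  38757]))) (.br 8 .no (.pk (.sh 0 6 [34657,39030]) .no .no .no))) (.br 7 (.br 8 (.pk .no .no
  (.br 1 (.vi [34657,34661,38737,38993,38753]) (.vi [30224,30288,34657,39009,34661,39013]))
  .no) (.pk (.sh 0 6 [34657,39030]) .no .no .no)) (.br 8 (.pk .no .no (.br 1 (.vi [34657,34661,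
  38993,39025,39013]) (.vi [30224,30288,34657,39009,34661,39013])) .no) .no))))⟩

def e6_19 : En :=
  ⟨⟨9, 14759786677, [30224,34657,34660,34627,33842,34661]⟩, [.sh 0 6 [34657,34660],.no,.sh 0 6
  [34657,34658],.sh 0 6 [34657],.no,.no,.no,.no,.no,.no,.no,.no,.no,.no,.no,.no,.no,.no,.no,
  .no], (.br 5 (.br 6 (.br 7 (.br 8 .no (.pk .no (.br 3 (.vi [33842,34627,34658,34661,38995,
  34660,39029]) (.vi [33842,34627,34658,38755,34660,39027])) .no .no)) (.br 8 (.pk .no (.br 0
  (.br 1 (.vi [30224,34657,34661,38672,39025,39029]) (.br 2 (.vi [33842,34627,34658,34661,39026,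
  34660,39029]) (.br 4 (.vi [33842,34627,34658,38978,34660,39028]) (.br 3 (.vi [33842,34627,
  34658,34661,37938,34660,38211]) (.vi [34627,34660,34661,38979,38995,39029]))))) (.vi [30224,
  34657,34661,38736,38752,39029])) .no .no) (.pk (.sh 0 6 [34657,39030]) .no .no .no))) (.br 7
  (.br 8 (.pk .no .no .no (.br 1 (.sh 0 6 [38753,38757]) (.vi [34657,34661,38481,39009,
  38757]))) (.vi [34661,38757,39013,39029])) (.br 8 (.pk .no (.br 2 (.vi [33842,34627,34658,
  34661,39026,34660,39029]) (.vi [34658,34661,38482,39010,39029])) .no .no) (.pk .no .no (.br 3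
  (.vi [34627,34660,34661,38995,39027,39013]) (.vi [33842,34627,34658,34661,38483,34660,
  39013])) .no)))) (.br 6 (.br 7 (.br 8 (.pk .no .no .no (.br 1 (.br 0 (.br 2 (.br 4 (.br 3
  (.iso 4 508307976720 false) (.vi [34657,34660,34627,37937,38961,38723])) (.vi [34658,34660,
  38722,38978,38756])) (.vi [30224,34657,34658,34661,37392,38160,38754])) (.vi [30224,34657,
  34661,38672,38928,38736])) (.sh 0 6 [38753,38757]))) (.pk .no .no .no (.br 2 (.vi [33842,
  34627,34658,34661,39026,34660,38757]) (.vi [33842,34627,34658,34661,38754,34660,38757]))))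
  (.br 8 .no (.pk (.sh 0 6 [34657,39030]) .no .no .no))) (.br 7 (.br 8 (.pk .no .no (.br 2 (.vi
  [34658,34661,38482,38754,39013]) (.vi [33842,34627,34658,34661,39010,34660,39013])) .no) (.pk
  (.sh 0 6 [34657,39030]) .no .no .no)) (.br 8 (.pk .no .no (.br 2 (.vi [34658,34661,38482,
  39026,39013]) (.vi [33842,34627,34658,34661,39010,34660,39013])) .no) .no))))⟩

def e6_20 : En :=
  ⟨⟨9, 14759787701, [30224,34657,34660,34627,33842,34661]⟩, [.sh 0 6 [34657,34660],.no,.sh 0 6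
  [34657,34658],.sh 0 6 [34657],.no,.no,.no,.no,.no,.no,.no,.no,.no,.no,.no,.no,.no,.no,.no,.sh
  0 6 [30288]], (.br 5 (.br 6 (.br 7 (.br 8 .no (.pk .no (.br 0 (.vi [30224,30288,34657,38992,
  34661,39029]) (.vi [30224,30288,34657,38736,34661,39029])) .no .no)) (.br 8 (.pk .no (.br 0
  (.vi [30224,30288,34657,38736,34661,39029]) (.vi [30288,34661,38992,38752,39029])) .no .no)
  (.pk (.sh 0 6 [34657,39030]) .no .no .no))) (.br 7 (.br 8 (.pk .no .no .no (.sh 0 6 [30288,
  38757])) (.vi [34661,38757,39013,39029])) (.br 8 (.pk .no (.br 0 (.vi [30224,30288,34657,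
  38736,34661,39029]) (.vi [30288,34661,38480,38992,39029])) .no .no) (.pk .no .no (.br 0 (.vi
  [30288,34661,38736,38992,39013]) (.vi [30224,30288,34657,38480,34661,39013])) .no)))) (.br 6
  (.br 7 (.br 8 (.pk .no .no .no (.sh 0 6 [30288,38757])) (.pk .no .no .no (.sh 0 6 [30288,
  38757]))) (.br 8 .no (.pk (.sh 0 6 [34657,39030]) .no .no .no))) (.br 7 (.br 8 (.pk .no .no
  (.br 1 (.vi [34657,34661,38481,38753,39013]) (.vi [30224,30288,34657,39009,34661,39013]))
  .no) (.pk (.sh 0 6 [34657,39030]) .no .no .no)) (.br 8 (.pk .no .no (.br 1 (.vi [34657,34661,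
  38481,39025,39013]) (.vi [30224,30288,34657,39009,34661,39013])) .no) .no))))⟩

def e6_21 : En :=
  ⟨⟨9, 13686044085, [30224,34657,34660,34627,33842,34661]⟩, [.sh 0 6 [34657,34660],.no,.no,.sh
  0 6 [34657],.no,.no,.no,.no,.no,.no,.no,.no,.no,.no,.no,.no,.no,.no,.no,.sh 0 6 [30288]],
  (.br 5 (.br 6 (.br 7 (.br 8 .no (.pk .no (.br 1 (.vi [30224,30288,34657,39025,34661,39029])
  (.vi [34657,34661,38737,38753,39029])) .no .no)) (.br 8 (.pk .no (.br 0 (.vi [30224,30288,
  34657,38736,34661,39029]) (.vi [30288,34661,38992,38752,39029])) .no .no) (.pk (.sh 0 6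
  [34657,39030]) .no .no .no))) (.br 7 (.br 8 (.pk .no .no .no (.sh 0 6 [30288,38757])) (.vi
  [34661,38757,39013,39029])) (.br 8 (.pk .no (.br 0 (.vi [30224,30288,34657,38736,34661,
  39029]) (.vi [30288,34661,38480,38992,39029])) .no .no) (.pk .no .no (.br 0 (.vi [30288,34661,
  38736,38992,39013]) (.vi [30224,30288,34657,38480,34661,39013])) .no)))) (.br 6 (.br 7 (.br 8
  (.pk .no .no .no (.sh 0 6 [30288,38757])) (.pk .no .no .no (.sh 0 6 [30288,38757]))) (.br 8
  .no (.pk (.sh 0 6 [34657,39030]) .no .no .no))) (.br 7 (.br 8 (.pk .no .no (.br 1 (.vi [34657,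
  34661,38737,38993,38753]) (.vi [30224,30288,34657,39009,34661,39013])) .no) (.pk (.sh 0 6
  [34657,39030]) .no .no .no)) (.br 8 (.pk .no .no (.br 1 (.vi [34657,34661,38993,39025,39013])
  (.vi [30224,30288,34657,39009,34661,39013])) .no) .no))))⟩

def e6_22 : En :=
  ⟨⟨9, 13686028725, [30224,34657,34660,34627,33842,34661]⟩, [.sh 0 6 [34657,34660],.no,.no,.sh
  0 6 [34657],.no,.no,.no,.no,.no,.no,.no,.no,.no,.no,.no,.no,.no,.no,.no,.no], (.br 5 (.br 6
  (.br 7 (.br 8 .no (.pk .no (.br 4 (.vi [34115,34627,34660,39028,34661,39029]) (.vi [34660,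
  34661,38740,38756,39029])) .no .no)) (.br 8 (.pk .no (.br 4 (.vi [34115,34627,34660,39028,
  34661,39029]) (.vi [34115,34627,34660,38996,34661,39029])) .no .no) (.pk (.sh 0 6 [34657,
  39030]) .no .no .no))) (.br 7 (.br 8 (.pk .no .no .no (.br 1 (.sh 0 6 [38753,38757]) (.vi
  [34657,34661,38481,39009,38757]))) (.vi [34661,38757,39013,39029])) (.br 8 (.pk .no (.br 4
  (.vi [34115,34627,34660,39028,34661,39029]) (.vi [34660,34661,38996,39012,39029])) .no .no)
  (.pk .no .no (.br 3 (.vi [34115,34627,34660,38995,34661,39027]) (.vi [34115,34627,34660,38483,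
  34661,39013])) .no)))) (.br 6 (.br 7 (.br 8 (.pk .no .no .no (.br 4 (.vi [34660,34661,38740,
  38996,38757]) (.vi [34115,34627,34660,38756,34661,38757]))) (.pk .no .no .no (.br 1 (.vi
  [34657,34660,34627,34115,39025,34661,38757]) (.sh 0 6 [38753,38757])))) (.br 8 .no (.pk (.sh
  0 6 [34657,39030]) .no .no .no))) (.br 7 (.br 8 (.pk .no .no (.br 4 (.vi [34660,34661,38740,
  38996,38756]) (.vi [34115,34627,34660,39012,34661,39013])) .no) (.pk (.sh 0 6 [34657,39030])
  .no .no .no)) (.br 8 (.pk .no .no (.br 4 (.vi [34660,34661,38996,39028,39013]) (.vi [34115,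
  34627,34660,39012,34661,39013])) .no) .no))))⟩

def e6_23 : En :=
  ⟨⟨9, 13686045109, [30224,34657,34660,34627,33842,34661]⟩, [.sh 0 6 [34657,34660],.no,.no,.sh
  0 6 [34657],.no,.no,.no,.no,.no,.no,.no,.no,.no,.no,.no,.no,.no,.no,.no,.no], (.br 5 (.br 6
  (.br 7 (.br 8 .no (.pk .no (.br 3 (.br 4 (.vi [34627,34660,34661,38995,39028,39029]) (.vi
  [34627,38723,38211,38995,39029])) (.vi [34627,34660,34661,38755,39027,39029])) .no .no)) (.br
  8 (.pk .no (.br 0 (.br 1 (.vi [30224,34657,34661,38672,39025,39029]) (.br 2 (.br 3 (.br 4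
  (.iso 5 581320323600 false) (.vi [33842,34627,34660,34661,37938,38211,39029])) (.br 4 (.vi
  [34627,39028,38211,38995,39029]) (.vi [34627,34660,34661,38979,38995,39029]))) (.br 4 (.vi
  [33842,34627,38978,38994,39028,39029]) (.br 3 (.vi [33842,34627,34660,34661,38994,38211,
  39029]) (.vi [33842,34627,38979,38994,38995,39029]))))) (.vi [30224,34657,34661,38736,38752,
  39029])) .no .no) (.pk (.sh 0 6 [34657,39030]) .no .no .no))) (.br 7 (.br 8 (.pk .no .no .no
  (.br 1 (.sh 0 6 [38753,38757]) (.vi [34657,34661,38481,39009,38757]))) (.vi [34661,38757,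
  39013,39029])) (.br 8 (.pk .no (.br 1 (.br 0 (.vi [30224,34657,34661,38672,39025,39029]) (.vi
  [30224,34657,38416,38928,39025])) (.vi [34657,34661,38481,39009,39029])) .no .no) (.pk .no
  .no (.br 3 (.vi [34627,34660,34661,38995,39027,39013]) (.br 4 (.vi [38211,38979,38483,39012,
  39013]) (.vi [34627,34660,34661,38483,38484,39013]))) .no)))) (.br 6 (.br 7 (.br 8 (.pk .no
  .no .no (.br 1 (.br 0 (.br 2 (.br 3 (.br 4 (.iso 6 508307976720 false) (.vi [34657,34660,
  34627,37937,38723,38756])) (.vi [30224,34657,34660,34627,37648,38961,38755])) (.vi [30224,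
  34657,34661,38160,37392,38945,38754])) (.vi [30224,34657,34661,38672,38928,38736])) (.sh 0 6
  [38753,38757]))) (.pk .no .no .no (.br 1 (.br 0 (.vi [30224,34657,34661,38160,38928,39025])
  (.vi [30224,34657,34661,38672,38736,39025])) (.sh 0 6 [38753,38757])))) (.br 8 .no (.pk (.sh
  0 6 [34657,39030]) .no .no .no))) (.br 7 (.br 8 (.pk .no .no (.br 1 (.vi [34657,34661,38481,
  38753,39013]) (.br 0 (.vi [30224,34657,34661,38416,39009,39013]) (.vi [34661,39013,38736,
  38992,38752]))) .no) (.pk (.sh 0 6 [34657,39030]) .no .no .no)) (.br 8 (.pk .no .no (.br 1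
  (.vi [34657,34661,38481,39025,39013]) (.br 4 (.vi [34657,34660,38465,39009,39028]) (.vi
  [34657,34660,34661,39009,39012,39013]))) .no) .no))))⟩

def e6_24 : En :=
  ⟨⟨9, 13686046133, [30224,34657,34660,34627,33842,34661]⟩, [.sh 0 6 [34657,34660],.no,.no,.sh
  0 6 [34657],.no,.no,.no,.no,.no,.no,.no,.no,.no,.no,.no,.no,.no,.no,.no,.sh 0 6 [30288]],
  (.br 5 (.br 6 (.br 7 (.br 8 .no (.pk .no (.br 0 (.vi [30224,30288,34657,38992,34661,39029])
  (.vi [30224,30288,34657,38736,34661,39029])) .no .no)) (.br 8 (.pk .no (.br 0 (.vi [30224,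
  30288,34657,38736,34661,39029]) (.vi [30288,34661,38992,38752,39029])) .no .no) (.pk (.sh 0 6
  [34657,39030]) .no .no .no))) (.br 7 (.br 8 (.pk .no .no .no (.sh 0 6 [30288,38757])) (.vi
  [34661,38757,39013,39029])) (.br 8 (.pk .no (.br 0 (.vi [30224,30288,34657,38736,34661,
  39029]) (.vi [30288,34661,38480,38992,39029])) .no .no) (.pk .no .no (.br 0 (.vi [30288,34661,
  38736,38992,39013]) (.vi [30224,30288,34657,38480,34661,39013])) .no)))) (.br 6 (.br 7 (.br 8
  (.pk .no .no .no (.sh 0 6 [30288,38757])) (.pk .no .no .no (.sh 0 6 [30288,38757]))) (.br 8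
  .no (.pk (.sh 0 6 [34657,39030]) .no .no .no))) (.br 7 (.br 8 (.pk .no .no (.br 1 (.vi [34657,
  34661,38481,38753,39013]) (.vi [30224,30288,34657,39009,34661,39013])) .no) (.pk (.sh 0 6
  [34657,39030]) .no .no .no)) (.br 8 (.pk .no .no (.br 1 (.vi [34657,34661,38481,39025,39013])
  (.vi [30224,30288,34657,39009,34661,39013])) .no) .no))))⟩

def e6_25 : En :=
  ⟨⟨8, 189859360, [25872,30288,30291,30258,29473,30292]⟩, [.sh 0 6 [30288,30291],.no,.no,.sh 0
  6 [30288],.no,.no,.no,.no,.no,.no,.no,.no,.no,.no,.no,.no], (.br 4 (.br 5 (.br 6 (.br 7 .no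
  (.pk (.sh 0 6 [30288,34661]) .no .no .no)) (.br 7 (.pk .no (.br 3 (.br 0 (.vi [30288,30291,
  30292,34384,34659,34660]) (.vi [30288,30291,30292,34656,34659,34660])) (.vi [30291,30292,
  34371,34387,34660])) .no .no) .no)) (.br 6 (.br 7 (.pk (.sh 0 6 [30288,34661]) .no .no .no)
  (.pk .no .no (.br 0 (.br 1 (.vi [25872,30288,34640,34385,34641]) (.vi [25872,30288,30292,
  34064,34640,34644])) (.vi [30288,30292,34624,34656,34644])) .no)) (.br 7 (.pk .no (.br 3 (.br
  2 (.br 0 (.br 1 (.iso 7 31751221776 false) (.vi [25872,30288,30291,34064,34609,34641])) (.vi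
  [30288,30291,30292,34656,34659,34660])) (.vi [30258,34354,34610,34658])) (.vi [30291,30292,
  34115,34371,34643])) .no .no) (.pk .no .no (.br 3 (.br 2 (.vi [30258,30291,30292,34610,34643,
  34644]) (.vi [30258,30291,34098,34354,34643])) (.vi [30291,30292,34115,34371,34644])) .no))))
  (.br 5 (.br 6 (.br 7 (.pk .no (.br 0 (.br 1 (.br 3 (.br 2 (.vi [29473,30258,30291,30292,34625,
  33842,34660]) (.vi [29473,30258,34610,34625,34626,34660])) (.vi [29473,30258,34609,34625,
  34659,34660])) (.vi [25872,30288,30292,34369,34385,34660])) (.vi [30288,30292,34112,34624,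
  34384])) .no .no) (.pk (.sh 0 6 [30288,34661]) .no .no .no)) (.br 7 (.pk .no .no .no (.br 0
  (.sh 0 6 [34384,34388]) (.vi [30288,30292,34112,34624,34656]))) (.pk .no .no .no (.br 0 (.sh
  0 6 [34384,34388]) (.vi [30288,30292,34112,34640,34388]))))) (.br 6 (.br 7 (.vi [30292,34388,
  34644,34660]) (.pk .no .no .no (.br 1 (.sh 0 6 [34385,34388]) (.br 0 (.vi [25872,34064,34112,
  34369,34388]) (.vi [25872,30288,30292,34320,34656,34369]))))) (.br 7 (.pk .no .no (.br 0 (.br
  3 (.vi [30291,30292,34115,34371,34659]) (.vi [30288,30291,30292,34096,34112,34643])) (.vi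
  [30288,30292,34624,34656,34644])) .no) .no))))⟩

def e6_26 : En :=
  ⟨⟨9, 21070003679, [30224,34657,34660,34627,33842,34661]⟩, [.sh 0 6 [34657,34660],.no,.no,.sh
  0 6 [34657],.no,.no,.no,.no,.no,.no,.no,.no,.no,.no,.no,.no,.no,.no,.no,.no], (.br 5 (.br 6
  (.br 7 (.br 8 .no (.pk .no .no (.br 4 (.vi [21554,33842,34627,34660,39012,34661,39013]) (.vi
  [34660,34661,38484,38740,39028])) .no)) (.br 8 (.pk .no .no .no (.br 4 (.vi [21554,33842,
  34627,34660,38756,34661,38757]) (.vi [34660,34661,38484,39012,38757]))) (.vi [34661,38757,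
  39013,39029]))) (.br 7 (.br 8 (.pk .no .no .no (.br 1 (.vi [34657,34661,38481,39009,38757])
  (.sh 0 6 [38753,38757]))) (.pk .no .no .no (.br 1 (.vi [34657,34661,38481,38993,39025]) (.sh
  0 6 [38753,38757])))) (.br 8 (.pk (.sh 0 6 [34657,39030]) .no .no .no) (.pk .no (.br 0 (.vi
  [30224,34657,34661,38736,38752,39029]) (.br 1 (.vi [34657,34661,38481,38993,38753]) (.br 4
  (.vi [33840,34627,38976,38992,39028,39029]) (.br 3 (.vi [33840,33842,21554,38992,38979,
  38995]) (.vi [33840,33842,21554,34627,38992,38211,39029]))))) .no .no)))) (.br 6 (.br 7 (.br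
  8 (.pk .no .no (.br 4 (.vi [34660,34661,38484,38740,39013]) (.vi [21554,33842,34627,34660,
  39012,34661,39013])) .no) (.pk .no (.br 4 (.vi [34660,34661,38484,38740,39012]) (.vi [21554,
  33842,34627,34660,39028,34661,39029])) .no .no)) (.br 8 (.pk .no .no (.br 4 (.vi [34660,34661,
  38484,38756,39013]) (.vi [21554,33842,34627,34660,39012,34661,39013])) .no) (.pk (.sh 0 6
  [34657,39030]) .no .no .no))) (.br 7 (.br 8 .no (.pk .no (.br 4 (.vi [34660,34661,38740,38756,
  39029]) (.vi [21554,33842,34627,34660,39028,34661,39029])) .no .no)) (.br 8 (.pk (.sh 0 6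
  [34657,39030]) .no .no .no) .no))))⟩

def e6_27 : En :=
  ⟨⟨8, 139258617, [25872,30289,30291,30258,29473,30292]⟩, [.sh 0 6 [30289,30291],.no,.sh 0 6
  [30289],.no,.no,.no,.no,.no,.no,.no,.no,.no,.no,.no,.no,.no], (.br 4 (.br 5 (.br 6 (.br 7 .no
  (.pk .no (.br 1 (.vi [30289,30292,34625,34641,34660]) (.vi [29473,30258,30289,30292,34369,
  30291,34660])) .no .no)) (.br 7 (.pk .no .no .no (.br 1 (.vi [30289,30292,34369,34657,34388])
  (.sh 0 6 [34385,34388]))) (.pk .no .no .no (.br 1 (.vi [30289,30292,34369,34625,34641]) (.sh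
  0 6 [34385,34388]))))) (.br 6 (.br 7 (.pk .no .no .no (.br 1 (.vi [29473,30258,30289,30292,
  34641,30291,34388]) (.vi [30289,30292,34369,34657,34388]))) (.vi [30292,34388,34644,34660]))
  (.br 7 (.pk (.sh 0 6 [30289,34661]) .no .no .no) (.pk .no .no (.br 3 (.vi [29473,30258,30289,
  30292,34643,30291,34644]) (.vi [29473,30258,30289,30292,34627,30291,34644])) .no)))) (.br 5
  (.br 6 (.br 7 (.pk .no (.br 1 (.vi [29473,30258,30289,30292,34625,30291,34660]) (.vi [29473,
  30258,30289,30292,34657,30291,34660])) .no .no) (.pk .no .no (.br 3 (.vi [30291,30292,34627,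
  34659,34644]) (.vi [29473,30258,30289,30292,34643,30291,34644])) .no)) (.br 7 .no (.pk .no
  .no (.br 3 (.vi [30291,30292,34627,34387,34644]) (.vi [29473,30258,30289,30292,34643,30291,
  34644])) .no))) (.br 6 (.br 7 (.pk .no (.br 1 (.vi [30289,30292,34625,34641,34660]) (.vi
  [29473,30258,30289,30292,34657,30291,34660])) .no .no) (.pk (.sh 0 6 [30289,34661]) .no .no
  .no)) (.br 7 (.pk (.sh 0 6 [30289,34661]) .no .no .no) .no))))⟩

def e6_28 : En :=
  ⟨⟨9, 36083294151, [30224,34657,34660,34627,33842,34661]⟩, [.sh 0 6 [34657,34660],.no,.no,.sh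
  0 6 [34657],.no,.no,.no,.no,.no,.no,.no,.no,.no,.no,.no,.no,.no,.no,.no,.no], (.br 5 (.br 6
  (.br 7 (.br 8 .no (.pk .no (.br 1 (.vi [34657,34661,38993,39009,39029]) (.vi [33841,34627,
  34657,34661,38737,34660,39029])) .no .no)) (.br 8 (.pk .no .no .no (.br 1 (.vi [34657,34661,
  38737,39025,38757]) (.sh 0 6 [38753,38757]))) (.pk .no .no .no (.br 1 (.vi [34657,34661,38737,
  38993,39009]) (.sh 0 6 [38753,38757]))))) (.br 7 (.br 8 (.pk .no .no .no (.br 1 (.vi [33841,
  34627,34657,34661,39009,34660,38757]) (.vi [34657,34661,38737,39025,38757]))) (.vi [34661,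
  38757,39013,39029])) (.br 8 (.pk (.sh 0 6 [34657,39030]) .no .no .no) (.pk .no .no (.br 4
  (.vi [33841,34627,34657,34661,39012,34660,39013]) (.vi [33841,34627,34657,34661,38996,34660,
  39013])) .no)))) (.br 6 (.br 7 (.br 8 (.pk .no (.br 1 (.vi [33841,34627,34657,34661,38993,
  34660,39029]) (.vi [33841,34627,34657,34661,39025,34660,39029])) .no .no) (.pk .no .no (.br 4
  (.vi [34660,34661,38996,39028,39013]) (.vi [33841,34627,34657,34661,39012,34660,39013]))
  .no)) (.br 8 .no (.pk .no .no (.br 4 (.vi [34660,34661,38996,38756,39013]) (.vi [33841,34627,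
  34657,34661,39012,34660,39013])) .no))) (.br 7 (.br 8 (.pk .no (.br 1 (.vi [34657,34661,38993,
  39009,39029]) (.vi [33841,34627,34657,34661,39025,34660,39029])) .no .no) (.pk (.sh 0 6
  [34657,39030]) .no .no .no)) (.br 8 (.pk (.sh 0 6 [34657,39030]) .no .no .no) .no))))⟩

def L6 : List En :=
  [e6_0, e6_1, e6_2, e6_3, e6_4, e6_5, e6_6, e6_7, e6_8, e6_9, e6_10, e6_11, e6_12, e6_13,
  e6_14, e6_15, e6_16, e6_17, e6_18, e6_19, e6_20, e6_21, e6_22, e6_23, e6_24, e6_25, e6_26,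
  e6_27, e6_28]

def e7_0 : En :=
  ⟨⟨10, 19826244342273, [38928,38993,38996,38211,21554,39029,39030]⟩, [.sh 0 7 [38993,39029],
  .no,.no,.no,.no,.no,.no,.no,.no,.no,.no,.no,.no,.no,.no,.no,.no,.no,.no,.no,.no,.no,.no,.no],
  (.br 6 (.br 7 (.br 8 (.br 9 .no (.pk (.sh 0 7 [38993,39029,43399]) .no .no .no)) (.br 9 (.pk
  .no .no .no (.br 5 (.vi [38928,38993,39029,30224,43397,39030,43126]) (.vi [38928,38993,39029,
  30224,43125,39030,43126]))) (.pk .no .no .no (.br 1 (.br 0 (.vi [38928,38993,39029,30224,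
  43024,39030,43126]) (.vi [30224,42768,43280,38928,39030,43120])) (.vi [30224,42849,43377,
  38928,39030,43126]))))) (.br 8 (.br 9 (.pk (.sh 0 7 [38993,39029,43399]) .no .no .no) (.pk
  .no .no (.br 5 (.vi [38928,38993,39029,30224,43381,39030,43382]) (.vi [39029,39030,42853,
  43125,43382])) .no)) (.br 9 .no (.pk .no .no (.br 5 (.vi [38928,38993,39029,30224,43381,39030,
  43382]) (.vi [38928,38993,39029,30224,42853,39030,43382])) .no)))) (.br 7 (.br 8 (.br 9 (.pk
  .no .no .no (.br 1 (.vi [30224,42849,43126,38928,38993,39029,39030]) (.sh 0 7 [43393,43105,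
  43126]))) (.vi [39030,43126,43382,43398])) (.br 9 (.pk .no (.br 5 (.sh 0 7 [38993,43397,
  43398]) (.vi [39029,39030,42853,43365,43125])) .no .no) (.pk .no .no (.br 5 (.vi [38928,38993,
  39029,30224,43365,39030,43382]) (.vi [39029,39030,42853,43125,43382])) .no))) (.br 8 (.br 9
  (.pk (.sh 0 7 [38993,39029,43399]) .no .no .no) (.pk .no (.br 1 (.sh 0 7 [43393,43398]) (.vi
  [38928,38993,39029,30224,43105,39030,43398])) .no .no)) (.br 9 (.pk .no (.br 5 (.sh 0 7
  [38993,43397,43398]) (.vi [39029,39030,43365,43381,43398])) .no .no) .no))))⟩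

def e7_1 : En :=
  ⟨⟨10, 19826244338209, [38928,38993,38996,38211,21554,39029,39030]⟩, [.sh 0 7 [38993,39029],
  .no,.no,.no,.no,.no,.no,.no,.no,.no,.no,.no,.no,.no,.no,.no,.no,.no,.no,.no,.no,.no,.no,.no],
  (.br 6 (.br 7 (.br 8 (.br 9 .no (.pk (.sh 0 7 [38993,39029,43399]) .no .no .no)) (.br 9 (.pk
  .no .no .no (.br 5 (.vi [38928,38993,39029,30224,43397,39030,43126]) (.vi [38928,38993,39029,
  30224,43125,39030,43126]))) (.pk .no .no .no (.br 1 (.br 0 (.vi [38928,38993,39029,30224,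
  43024,39030,43126]) (.vi [30224,42768,43280,38928,39030,43120])) (.vi [30224,42849,43377,
  38928,39030,43126]))))) (.br 8 (.br 9 (.pk (.sh 0 7 [38993,39029,43399]) .no .no .no) (.pk
  .no .no (.br 5 (.vi [38928,38993,39029,30224,43381,39030,43382]) (.vi [39029,39030,42853,
  43125,43382])) .no)) (.br 9 .no (.pk .no .no (.br 5 (.vi [38928,38993,39029,30224,43381,39030,
  43382]) (.vi [38928,38993,39029,30224,42853,39030,43382])) .no)))) (.br 7 (.br 8 (.br 9 (.pk
  .no .no .no (.br 1 (.vi [30224,42849,43126,38928,38993,39029,39030]) (.sh 0 7 [43393,43105,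
  43126]))) (.vi [39030,43126,43382,43398])) (.br 9 (.pk .no (.br 5 (.sh 0 7 [38993,43397,
  43398]) (.vi [39029,39030,42853,43365,43125])) .no .no) (.pk .no .no (.br 5 (.vi [38928,38993,
  39029,30224,43365,39030,43382]) (.vi [39029,39030,42853,43125,43382])) .no))) (.br 8 (.br 9
  (.pk (.sh 0 7 [38993,39029,43399]) .no .no .no) (.pk .no (.br 1 (.sh 0 7 [43393,43398]) (.vi
  [38928,38993,39029,30224,43105,39030,43398])) .no .no)) (.br 9 (.pk .no (.br 5 (.sh 0 7
  [38993,43397,43398]) (.vi [39029,39030,43365,43381,43398])) .no .no) .no))))⟩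

def e7_2 : En :=
  ⟨⟨10, 18170347056185, [38928,38993,38996,38211,21554,39029,39030]⟩, [.sh 0 7 [38993,39029],
  .no,.no,.no,.no,.no,.no,.no,.no,.no,.no,.no,.no,.no,.no,.no,.no,.no,.no,.no,.no,.no,.no,.no],
  (.br 6 (.br 7 (.br 8 (.br 9 .no (.pk .no (.br 0 (.sh 0 7 [43392,43398]) (.vi [30224,42848,
  43360,38928,39030,43398])) .no .no)) (.br 9 (.pk .no .no .no (.br 1 (.br 0 (.vi [38928,38993,
  39029,30224,43024,39030,43126]) (.vi [30224,42848,43126,38928,38993,39029,39030])) (.sh 0 7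
  [43393,43105,43126]))) (.pk .no .no .no (.br 5 (.vi [38928,38993,39029,30224,43125,39030,
  43126]) (.vi [39029,39030,43365,43381,43126]))))) (.br 8 (.br 9 (.pk .no .no .no (.br 0 (.vi
  [30224,42848,43126,38928,38993,39029,39030]) (.sh 0 7 [43392,43120,43126]))) (.vi [39030,
  43126,43382,43398])) (.br 9 (.pk (.sh 0 7 [38993,39029,43399]) .no .no .no) (.pk .no .no (.br
  0 (.vi [30224,42848,43120,38928,39030,43382]) (.vi [38928,38993,39029,30224,43360,39030,
  43382])) .no)))) (.br 7 (.br 8 (.br 9 (.pk .no (.br 0 (.br 1 (.vi [38928,38993,39029,30224,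
  42512,39030,43398]) (.sh 0 7 [43024,43105,43398])) (.sh 0 7 [43392,43398])) .no .no) (.pk .no
  .no (.br 5 (.vi [39029,39030,43365,43397,43382]) (.vi [38928,38993,39029,30224,43381,39030,
  43382])) .no)) (.br 9 .no (.pk .no .no (.br 5 (.vi [39029,39030,43365,43125,43382]) (.vi
  [38928,38993,39029,30224,43381,39030,43382])) .no))) (.br 8 (.br 9 (.pk .no (.br 5 (.vi
  [38928,38993,39029,30224,43125,39030,43398]) (.sh 0 7 [38993,43397,43398])) .no .no) (.pk
  (.sh 0 7 [38993,39029,43399]) .no .no .no)) (.br 9 (.pk (.sh 0 7 [38993,39029,43399]) .no .no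
  .no) .no))))⟩

def e7_3 : En :=
  ⟨⟨10, 17907847945158, [34064,38993,38996,38979,37938,39029,39030]⟩, [.sh 0 7 [38993,39029],
  .no,.no,.no,.no,.no,.no,.sh 0 7 [38993,38996,39012],.no,.no,.no,.no,.no,.no,.no,.no,.no,.no,
  .no,.no,.no,.no,.no,.no], (.br 6 (.br 7 (.br 8 (.br 9 .no (.pk (.sh 0 7 [38993,39029,43399])
  .no .no .no)) (.br 9 (.pk .no .no .no (.br 5 (.vi [38996,39012,39029,43125,39030,43126]) (.vi
  [39029,39030,42853,43397,43126]))) (.pk .no .no .no (.br 4 (.vi [38996,39012,39029,43108,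
  39030,43126]) (.vi [39012,39030,43364,43380,43126]))))) (.br 8 (.br 9 (.pk (.sh 0 7 [38993,
  39029,43399]) .no .no .no) (.pk .no .no (.br 4 (.vi [39012,39030,43380,43396,43382]) (.vi
  [38996,39012,39029,43364,39030,43382])) .no)) (.br 9 .no (.pk .no .no (.br 4 (.vi [39012,
  39030,43108,43380,43382]) (.vi [38996,39012,39029,43364,39030,43382])) .no)))) (.br 7 (.br 8
  (.br 9 (.pk .no .no .no (.br 4 (.vi [38996,39012,39029,43108,39030,43126]) (.vi [38996,39012,
  39029,43396,39030,43126]))) (.vi [39030,43126,43382,43398])) (.br 9 (.pk .no (.br 5 (.vi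
  [39029,39030,42853,43125,43398]) (.sh 0 7 [38993,43397,43398])) .no .no) (.pk .no .no (.br 5
  (.vi [39029,39030,42853,43125,43382]) (.vi [38996,39012,39029,43381,39030,43382])) .no)))
  (.br 8 (.br 9 (.pk (.sh 0 7 [38993,39029,43399]) .no .no .no) (.pk .no (.br 5 (.vi [38996,
  39012,39029,43381,39030,43398]) (.sh 0 7 [38993,43397,43398])) .no .no)) (.br 9 (.pk .no (.br
  5 (.br 1 (.sh 0 7 [43089,43105,43398]) (.vi [38993,38996,39012,39029,42577,39030,43398]))
  (.sh 0 7 [38993,43397,43398])) .no .no) .no))))⟩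

def e7_4 : En :=
  ⟨⟨10, 28450127632565, [38928,38993,38996,38211,21554,39029,39030]⟩, [.sh 0 7 [38993,39029],
  .no,.no,.no,.no,.no,.no,.no,.no,.no,.no,.no,.no,.no,.no,.no,.no,.no,.no,.no,.no,.no,.no,.no],
  (.br 6 (.br 7 (.br 8 (.br 9 .no (.pk .no .no (.br 5 (.vi [38928,38993,39029,30224,43381,39030,
  43382]) (.vi [39029,39030,42853,43397,43382])) .no)) (.br 9 (.pk (.sh 0 7 [38993,39029,
  43399]) .no .no .no) (.pk .no .no (.br 5 (.vi [38928,38993,39029,30224,43381,39030,43382])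
  (.vi [39029,39030,42853,43125,43382])) .no))) (.br 8 (.br 9 (.pk (.sh 0 7 [38993,39029,
  43399]) .no .no .no) .no) (.br 9 (.pk .no .no .no (.br 5 (.vi [38928,38993,39029,30224,43125,
  39030,43126]) (.vi [38928,38993,39029,30224,43397,39030,43126]))) (.pk .no .no .no (.br 0
  (.br 1 (.vi [30224,42768,43280,38928,39030,43121]) (.vi [38928,38993,39029,30224,43024,39030,
  43126])) (.vi [30224,42848,43126,38928,38993,39029,39030])))))) (.br 7 (.br 8 (.br 9 (.pk .no
  .no (.br 1 (.vi [30224,42849,43382,38928,38993,39029,39030]) (.sh 0 7 [43393,43361,43382]))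
  .no) (.pk .no (.br 5 (.vi [39029,39030,42853,43381,43398]) (.sh 0 7 [38993,43397,43398])) .no
  .no)) (.br 9 (.vi [39030,43126,43382,43398]) (.pk .no .no .no (.br 5 (.vi [39029,39030,42853,
  43381,43126]) (.vi [38928,38993,39029,30224,43125,39030,43126]))))) (.br 8 (.br 9 (.pk (.sh 0
  7 [38993,39029,43399]) .no .no .no) (.pk .no (.br 0 (.br 1 (.sh 0 7 [43280,43361,43398]) (.vi
  [38928,38993,39029,30224,42512,39030,43398])) (.sh 0 7 [43392,43398])) .no .no)) (.br 9 (.pk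
  .no (.br 1 (.sh 0 7 [43393,43398]) (.vi [38928,38993,39029,30224,43361,39030,43398])) .no
  .no) .no))))⟩

def e7_5 : En :=
  ⟨⟨10, 10101289189813, [34064,38993,38996,38979,37938,39029,39030]⟩, [.sh 0 7 [38993,39029],
  .no,.no,.no,.no,.no,.no,.sh 0 7 [38993,38996,39012],.no,.no,.no,.no,.no,.no,.no,.no,.no,.no,
  .no,.no,.no,.no,.no,.no], (.br 6 (.br 7 (.br 8 (.br 9 .no (.pk (.sh 0 7 [38993,39029,43399])
  .no .no .no)) (.br 9 (.pk (.sh 0 7 [38993,39029,43399]) .no .no .no) (.pk .no (.br 5 (.sh 0 7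
  [38993,43397,43398]) (.vi [38996,39012,39029,43381,39030,43398])) .no .no))) (.br 8 (.br 9
  (.pk .no .no .no (.br 5 (.vi [38996,39012,39029,43125,39030,43126]) (.vi [39029,39030,43109,
  43381,43126]))) (.pk .no .no .no (.br 5 (.vi [38996,39012,39029,43125,39030,43126]) (.vi
  [39029,39030,43109,43397,43126])))) (.br 9 .no (.pk .no (.br 5 (.sh 0 7 [38993,43397,43398])
  (.br 1 (.vi [38993,38996,39012,43345,43361,43398]) (.vi [38993,38996,39012,39029,42577,39030,
  43398]))) .no .no)))) (.br 7 (.br 8 (.br 9 (.pk .no .no .no (.br 4 (.vi [38996,39012,39029,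
  43108,39030,43126]) (.vi [39012,39030,42852,43364,43126]))) (.vi [39030,43126,43382,43398]))
  (.br 9 (.pk (.sh 0 7 [38993,39029,43399]) .no .no .no) (.pk .no .no (.br 4 (.vi [38996,39012,
  39029,43364,39030,43382]) (.vi [38996,39012,39029,42852,39030,43382])) .no))) (.br 8 (.br 9
  (.pk .no .no (.br 4 (.vi [39012,39030,42852,43108,43382]) (.vi [38996,39012,39029,43364,39030,
  43382])) .no) (.pk .no (.br 5 (.vi [39029,39030,43109,43125,43398]) (.sh 0 7 [38993,43397,
  43398])) .no .no)) (.br 9 (.pk .no .no (.br 4 (.vi [39012,39030,42852,43396,43382]) (.vi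
  [38996,39012,39029,43364,39030,43382])) .no) .no))))⟩

def e7_6 : En :=
  ⟨⟨10, 28450127628725, [38928,38993,38996,38211,21554,39029,39030]⟩, [.sh 0 7 [38993,39029],
  .no,.no,.no,.no,.no,.no,.no,.no,.no,.no,.no,.no,.no,.no,.no,.no,.no,.no,.no,.no,.no,.no,.no],
  (.br 6 (.br 7 (.br 8 (.br 9 .no (.pk .no .no (.br 5 (.vi [38928,38993,39029,30224,43381,39030,
  43382]) (.vi [39029,39030,42853,43397,43382])) .no)) (.br 9 (.pk (.sh 0 7 [38993,39029,
  43399]) .no .no .no) (.pk .no .no (.br 5 (.vi [38928,38993,39029,30224,43381,39030,43382])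
  (.vi [39029,39030,42853,43125,43382])) .no))) (.br 8 (.br 9 (.pk (.sh 0 7 [38993,39029,
  43399]) .no .no .no) .no) (.br 9 (.pk .no .no .no (.br 5 (.vi [38928,38993,39029,30224,43125,
  39030,43126]) (.vi [38928,38993,39029,30224,43397,39030,43126]))) (.pk .no .no .no (.br 0
  (.br 1 (.vi [30224,42768,43280,38928,39030,43121]) (.vi [38928,38993,39029,30224,43024,39030,
  43126])) (.vi [30224,42848,43126,38928,38993,39029,39030])))))) (.br 7 (.br 8 (.br 9 (.pk .no
  .no (.br 1 (.vi [30224,42849,43382,38928,38993,39029,39030]) (.sh 0 7 [43393,43361,43382]))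
  .no) (.pk .no (.br 5 (.vi [39029,39030,42853,43381,43398]) (.sh 0 7 [38993,43397,43398])) .no
  .no)) (.br 9 (.vi [39030,43126,43382,43398]) (.pk .no .no .no (.br 5 (.vi [39029,39030,42853,
  43381,43126]) (.vi [38928,38993,39029,30224,43125,39030,43126]))))) (.br 8 (.br 9 (.pk (.sh 0
  7 [38993,39029,43399]) .no .no .no) (.pk .no (.br 0 (.br 1 (.sh 0 7 [43280,43361,43398]) (.vi
  [38928,38993,39029,30224,42512,39030,43398])) (.sh 0 7 [43392,43398])) .no .no)) (.br 9 (.pk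
  .no (.br 1 (.sh 0 7 [43393,43398]) (.vi [38928,38993,39029,30224,43361,39030,43398])) .no
  .no) .no))))⟩

def e7_7 : En :=
  ⟨⟨9, 54329098336, [29712,34624,34627,34610,33569,34660,34661]⟩, [.sh 0 7 [34624,34660],.no,
  .no,.no,.no,.no,.sh 0 7 [34624,34627,34643],.no,.no,.no,.no,.no,.no,.no,.no,.no,.no,.no,.no,
  .no], (.br 5 (.br 6 (.br 7 (.br 8 .no (.pk .no (.br 4 (.sh 0 7 [34624,39028,39029]) (.vi
  [34660,34661,38996,39012,39029])) .no .no)) (.br 8 (.pk (.sh 0 7 [34624,34660,39030]) .no .no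
  .no) .no)) (.br 7 (.br 8 (.pk (.sh 0 7 [34624,34660,39030]) .no .no .no) (.pk .no (.br 4 (.sh
  0 7 [34624,39028,39029]) (.vi [34660,34661,38484,38996,38756])) .no .no)) (.br 8 (.pk .no .no
  .no (.br 3 (.vi [34643,34661,38755,39027,38757]) (.vi [34627,34643,34660,38739,34661,
  38757]))) (.pk .no .no .no (.br 4 (.vi [34627,34643,34660,38756,34661,38757]) (.vi [34660,
  34661,38484,38996,38757])))))) (.br 6 (.br 7 (.br 8 (.pk .no (.br 3 (.br 4 (.br 0 (.vi [34624,
  34627,34643,34660,38208,34661,39029]) (.sh 0 7 [38720,38736,39029])) (.sh 0 7 [34624,39028,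
  39029])) (.vi [34643,38739,38995,39027])) .no .no) (.pk .no .no (.br 3 (.vi [34627,34643,
  34660,38995,34661,39013]) (.vi [34643,34661,38483,38739,39013])) .no)) (.br 8 (.pk (.sh 0 7
  [34624,34660,39030]) .no .no .no) (.pk .no .no (.br 3 (.vi [34627,34643,34660,38995,34661,
  39013]) (.vi [34643,34661,38483,38755,39013])) .no))) (.br 7 (.br 8 (.vi [34661,38757,39013,
  39029]) (.pk .no .no .no (.br 3 (.vi [34643,34661,38483,38995,38757]) (.vi [34627,34643,34660,
  38739,34661,38757])))) (.br 8 (.pk .no .no (.br 3 (.vi [34643,34661,38483,38755,39027]) (.vi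
  [34627,34643,34660,38995,34661,39013])) .no) .no))))⟩

def L7 : List En :=
  [e7_0, e7_1, e7_2, e7_3, e7_4, e7_5, e7_6, e7_7]

theorem ok7 : levOK sc [] L7 = true := by decide +kernel

theorem ok6 : levOK sc (L7.map En.s) L6 = true := by decide +kernel

theorem ok5 : levOK sc (L6.map En.s) L5 = true := by decide +kernel

theorem ok4 : levOK sc (L5.map En.s) L4 = true := by decide +kernel

theorem ok3 : levOK sc (L4.map En.s) L3 = true := by decide +kernel

theorem ok2 : levOK sc (L3.map En.s) L2 = true := by decide +kernel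

theorem ok1 : levOK sc (L2.map En.s) L1 = true := by decide +kernel

theorem refd : Refd sc ⟨4, 37, [12816]⟩ := by
  have h7 := levOK_sound (sc := sc) (tab := []) (by simp) ok7
  have h6 := levOK_sound h7 ok6
  have h5 := levOK_sound h6 ok5
  have h4 := levOK_sound h5 ok4
  have h3 := levOK_sound h4 ok3
  have h2 := levOK_sound h3 ok2
  have h1 := levOK_sound h2 ok1
  exact h1 _ (by simp [L1, e1_0])

end Pool.Agent.CW.Cert.G1
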