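import Pool.Agent.CW.ModC3

/-! Refutation trees for breaking sequences. -/

set_option autoImplicit false

namespace Pool.Agent.CW.Cert

variable {V : Type}

/-! ### Continuations of breaking sequences -/

/-- `m` further steps of a breaking sequence are possible from the set `P`. -/
def Ext (G : SimpleGraph V) (r : V) : ℕ → (V → Prop) → Prop
  | 0, _ => True
  | m + 1, P => ∃ z w, ¬ P z ∧ z ≠ r ∧ ¬ P w ∧ w ≠ r ∧ z ≠ w ∧
      (∀ k, P k → (G.Adj w k ↔ G.Adj r k)) ∧ (∃ k, P k ∧ ¬ (G.Adj z k ↔ G.Adj r k)) ∧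
      ¬ (G.Adj z w ↔ G.Adj z r) ∧ Ext G r m (fun v => v = w ∨ v = z ∨ P v)

theorem Ext.congr {G : SimpleGraph V} {r : V} : ∀ (m : ℕ) {P Q : V → Prop}, (∀ v, P v ↔ Q v) →
    Ext G r m P → Ext G r m Q := by
  intro m
  induction m with
  | zero => intro P Q _ _; exact trivial
  | succ m ih =>
    rintro P Q hPQ ⟨z, w, h1, h2, h3, h4, h5, h6, ⟨k, h7, h7'⟩, h8, h9⟩
    refine ⟨z, w, fun h => h1 ((hPQ z).2 h), h2, fun h => h3 ((hPQ w).2 h), h4, h5,
      fun k hk => h6 k ((hPQ k).2 hk), ⟨k, (hPQ k).1 h7, h7'⟩, h8, ih (fun v => ?_) h9⟩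
    rw [hPQ v]

theorem Ext.compl {G : SimpleGraph V} {r : V} : ∀ (m : ℕ) {P : V → Prop}, ¬ P r →
    Ext G r m P → Ext Gᶜ r m P := by
  intro m
  induction m with
  | zero => intro P _ _; exact trivial
  | succ m ih =>
    rintro P hr ⟨z, w, h1, h2, h3, h4, h5, h6, ⟨k, h7, h7'⟩, h8, h9⟩
    have hk : ∀ k, P k → w ≠ k ∧ r ≠ k ∧ z ≠ k := fun k hk =>
      ⟨fun e => h3 (e ▸ hk), fun e => hr (e ▸ hk), fun e => h1 (e ▸ hk)⟩
    refine ⟨z, w, h1, h2, h3, h4, h5, fun k hk' => ?_, ⟨k, h7, fun h => h7' ?_⟩,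
      fun h => h8 ?_, ih ?_ h9⟩
    · obtain ⟨e1, e2, e3⟩ := hk k hk'
      rw [SimpleGraph.compl_adj, SimpleGraph.compl_adj, h6 k hk']
      simp [e1, e2]
    · obtain ⟨e1, e2, e3⟩ := hk k h7
      rw [SimpleGraph.compl_adj, SimpleGraph.compl_adj] at h
      simp only [ne_eq, e3, e2, not_false_eq_true, true_and] at h
      exact not_iff_not.1 h
    · rw [SimpleGraph.compl_adj, SimpleGraph.compl_adj] at h
      simp only [ne_eq, h5, h2, not_false_eq_true, true_and] at h
      exact not_iff_not.1 h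
    · rintro (h | h | h)
      · exact h4 h.symm
      · exact h2 h.symm
      · exact hr h

theorem Ext.of_brk {G : SimpleGraph V} {r : V} {n : ℕ} {l : List V} (h : Brk G r n l) :
    ∀ m, Ext G r m (fun v => v ∈ l) → ∃ b c d : V, Path4 G r b c d ∧
      Ext G r (n + m) (fun v => v = b ∨ v = c ∨ v = d) := by
  induction h with
  | @base b c d h1 h2 h3 h4 h5 h6 h7 h8 h9 =>
    intro m hm
    refine ⟨b, c, d, ⟨h5, h1, h2, h6, h7, h3, h8, h9, h4⟩, ?_⟩
    rw [Nat.zero_add]
    exact Ext.congr m (fun v => by simp) hm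
  | @step n l z w _ hz hzr hw hwr hzw h1 h2 h3 ih =>
    intro m hm
    obtain ⟨b, c, d, hP, hE⟩ := ih (m + 1) ⟨z, w, hz, hzr, hw, hwr, hzw, h1,
      by obtain ⟨k, hk, hk'⟩ := h2; exact ⟨k, hk, hk'⟩, h3, Ext.congr m (fun v => by simp) hm⟩
    refine ⟨b, c, d, hP, ?_⟩
    have : n + 1 + m = n + (m + 1) := by omega
    rw [this]
    exact hE

/-! ### States -/

/-- `m` further steps are impossible from the state. -/
def RefdB (m : ℕ) (s : St) : Prop :=
  ∀ (V : Type) (G : SimpleGraph V), Star G → Star Gᶜ → NoSp4 G → ∀ f : ℕ → V,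
    Real G s f (fun _ => ∅) → ¬ Ext G (f 0) m (fun v => ∃ i, 0 < i ∧ i < s.N ∧ v = f i)

theorem NoSp4.compl {G : SimpleGraph V} (h : NoSp4 G) : NoSp4 Gᶜ := by
  intro x y
  obtain ⟨h1, h2⟩ := h x y
  refine ⟨h2, ?_⟩
  rw [compl_compl]
  exact h1

theorem isoOK_real {s t : St} {p : ℕ} {co : Bool} (h : isoOK s t p co = true) :
    (∀ i, i < s.N → pe p i < s.N) ∧ (∀ i, i < s.N → ∃ j, j < s.N ∧ pe p j = i) ∧
    (∀ i j, i < s.N → j < s.N → pe p i = pe p j → i = j) ∧ s.N = t.N ∧
    (t.S = [] → ∀ (G : SimpleGraph V) (f : ℕ → V), Real G s f (fun _ => ∅) →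
      Real (if co = true then Gᶜ else G) t (fun i => f (pe p i)) (fun _ => ∅)) := by
  rw [isoOK, Bool.and_eq_true, Bool.and_eq_true, Bool.and_eq_true, Bool.and_eq_true] at h
  obtain ⟨hN, hp, hall, hsets, hwf⟩ := h
  have hN := Nat.eq_of_beq_eq_true hN
  have hp := Nat.eq_of_beq_eq_true hp
  simp only [St.wf, Bool.and_eq_true, Nat.blt_eq, List.all_eq_true] at hwf
  obtain ⟨hw1, hw2, hw3, hw4⟩ := hwf
  have hsurj : ∀ i, i < s.N → ∃ j, j < s.N ∧ pe p j = i := by
    intro i hi
    refine mem_pall ?_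
    rw [hp, Nat.testBit_two_pow_sub_one]
    simpa using hi
  have hlt : ∀ i, i < s.N → pe p i < s.N := by
    intro i hi
    by_contra hcon
    have h1 : (Finset.range s.N) ⊆ ((Finset.range s.N).erase i).image (pe p) := by
      intro k hk
      obtain ⟨j, hj, hjk⟩ := hsurj k (Finset.mem_range.1 hk)
      refine Finset.mem_image.2 ⟨j, Finset.mem_erase.2 ⟨?_, Finset.mem_range.2 hj⟩, hjk⟩
      rintro rfl
      exact hcon (hjk ▸ Finset.mem_range.1 hk)
    have h2 := Finset.card_le_card h1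
    have h3 := Finset.card_image_le (s := (Finset.range s.N).erase i) (f := pe p)
    rw [Finset.card_erase_of_mem (Finset.mem_range.2 hi), Finset.card_range] at h3
    rw [Finset.card_range] at h2
    omega
  have hinj : ∀ i j, i < s.N → j < s.N → pe p i = pe p j → i = j := by
    have h1 : Set.InjOn (pe p) (Finset.range s.N : Finset ℕ) := by
      refine Finset.injOn_of_surjOn_of_card_le (t := Finset.range s.N) (pe p) ?_ ?_ (by simp)
      · intro i hi
        simp only [Finset.coe_range, Set.mem_Iio] at hi ⊢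
        exact hlt i hi
      · intro i hi
        simp only [Finset.coe_range, Set.mem_Iio] at hi
        obtain ⟨j, hj, hji⟩ := hsurj i hi
        exact ⟨j, by simpa using hj, hji⟩
    intro i j hi hj hij
    exact h1 (by simpa using hi) (by simpa using hj) hij
  refine ⟨hlt, hsurj, hinj, hN, fun htS G f hR => ?_⟩
  have hadj : ∀ i j, i < s.N → j < s.N → i ≠ j →
      (G.Adj (f i) (f j) ↔ abs s.g i j = true) := by
    intro i j hi hj hij
    unfold abs
    by_cases h : i < j
    · rw [if_pos (by simpa [Nat.blt_eq] using h)]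
      exact hR.adj i j h hj
    · rw [if_neg (by simpa [Nat.blt_eq] using h), G.adj_comm]
      exact hR.adj j i (by omega) hi
  have hfne : ∀ i j, i < s.N → j < s.N → i ≠ j → f i ≠ f j := by
    intro i j hi hj hij
    rcases Nat.lt_or_gt_of_ne hij with h | h
    · exact hR.inj i j h hj
    · exact (hR.inj j i h hi).symm
  have hbit := allOK_sound _ hall
  refine ⟨?_, ?_, ?_⟩
  · intro i j hij hj
    refine hfne _ _ (hlt i (by omega)) (hlt j (by omega)) fun h => ?_
    have := hinj i j (by omega) (by omega) h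
    omega
  · intro i j hij hj
    have hne : pe p i ≠ pe p j := fun h => by
      have := hinj i j (by omega) (by omega) h
      omega
    have hi' := hlt i (by omega)
    have hj' := hlt j (by omega)
    cases co with
    | false =>
      rw [if_neg (by simp), hadj _ _ hi' hj' hne, hbit i j hij (by omega)]
      simp
    | true =>
      rw [if_pos rfl, SimpleGraph.compl_adj, hadj _ _ hi' hj' hne, hbit i j hij (by omega)]
      constructor
      · rintro ⟨_, h⟩
        simpa using h
      · intro h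
        exact ⟨hfne _ _ hi' hj' hne, by simpa using h⟩
  · intro k hk
    rw [htS] at hk
    simp at hk

/-- isomorphic states for breaking sequences: the representative stays at index `0`. -/
def isoB (s t : St) (p : ℕ) (co : Bool) : Bool :=
  Nat.beq (pe p 0) 0 && (t.S.isEmpty && isoOK s t p co)

theorem isoB_sound {m : ℕ} {s t : St} {p : ℕ} {co : Bool} (h : isoB s t p co = true)
    (hN : 0 < s.N) (ht : RefdB m t) : RefdB m s := by
  intro V G hG hGc hsp f hR hE
  rw [isoB, Bool.and_eq_true, Bool.and_eq_true] at h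
  obtain ⟨h0, hS, hiso⟩ := h
  have h0 := Nat.eq_of_beq_eq_true h0
  obtain ⟨hlt, hsurj, hinj, hNt, hreal⟩ := isoOK_real (V := V) hiso
  have hR' := hreal (by simpa using hS) G f hR
  have hset : ∀ v, (∃ i, 0 < i ∧ i < s.N ∧ v = f i) ↔
      (∃ i, 0 < i ∧ i < t.N ∧ v = f (pe p i)) := by
    intro v
    constructor
    · rintro ⟨i, hi, hi', rfl⟩
      obtain ⟨j, hj, rfl⟩ := hsurj i hi'
      refine ⟨j, ?_, by omega, rfl⟩
      rcases Nat.eq_zero_or_pos j with rfl | h
      · omega
      · exact h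
    · rintro ⟨i, hi, hi', rfl⟩
      refine ⟨pe p i, ?_, hlt i (by omega), rfl⟩
      rcases Nat.eq_zero_or_pos (pe p i) with h | h
      · have := hinj i 0 (by omega) hN (by rw [h, h0])
        omega
      · exact h
  have hr : ¬ (∃ i, 0 < i ∧ i < s.N ∧ f 0 = f i) := by
    rintro ⟨i, hi, hi', h⟩
    exact hR.inj 0 i hi hi' h
  cases co with
  | false =>
    refine ht V G hG hGc hsp _ (by simpa using hR') ?_
    rw [h0]
    exact Ext.congr m hset hE
  | true =>
    refine ht V Gᶜ hGc (by rwa [compl_compl]) (NoSp4.compl hsp) _ (by simpa using hR') ?_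
    rw [h0]
    exact Ext.congr m hset (Ext.compl m hr hE)

/-! ### Spiders -/

def sa (n g r i j : ℕ) : Bool := if Nat.blt i j = true then av n g r i j else av n g r j i

def sk (n km i j : ℕ) : Bool :=
  !(Nat.beq i j) && (Nat.ble i n && (Nat.ble j n &&
    (if Nat.blt i j = true then (Nat.blt j n || km.testBit i) else
      (Nat.blt i n || km.testBit j))))

theorem sa_sound {G : SimpleGraph V} {n g r km : ℕ} {f : ℕ → V} (hS : Sem G n g r km f)
    {i j : ℕ} (h : sk n km i j = true) :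
    f i ≠ f j ∧ (G.Adj (f i) (f j) ↔ sa n g r i j = true) := by
  rw [sk, Bool.and_eq_true, Bool.and_eq_true, Bool.and_eq_true] at h
  obtain ⟨h1, h2, h3, h4⟩ := h
  rw [Nat.ble_eq] at h2 h3
  have hne : i ≠ j := by
    rintro rfl
    simp at h1
  have key : ∀ i j, i < j → j ≤ n → (Nat.blt j n || km.testBit i) = true →
      f i ≠ f j ∧ (G.Adj (f i) (f j) ↔ av n g r i j = true) := by
    intro i j hij hj hk
    refine ⟨hS.inj i j hij hj, ?_⟩
    unfold av
    by_cases hjn : j < n
    · rw [if_pos (by simpa [Nat.blt_eq] using hjn)]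
      exact hS.adj i j hij hjn
    · have hjn' : j = n := by omega
      subst hjn'
      rw [if_neg (by simp [Nat.blt_eq])]
      have hb : Nat.blt j j = false := by
        rw [Bool.eq_false_iff]; simp [Nat.blt_eq]
      rw [hb, Bool.false_or] at hk
      exact hS.adjn i hij hk
  by_cases hij : i < j
  · have hb : Nat.blt i j = true := by simpa [Nat.blt_eq] using hij
    rw [if_pos hb] at h4
    unfold sa
    rw [if_pos hb]
    exact key i j hij h3 h4
  · have hb : ¬ (Nat.blt i j = true) := by simpa [Nat.blt_eq] using hij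
    rw [if_neg hb] at h4
    unfold sa
    rw [if_neg hb, G.adj_comm]
    obtain ⟨e1, e2⟩ := key j i (by omega) h2 h4
    exact ⟨e1.symm, e2⟩

/-- four-legged spider test: `x` and `y` code the clique and the leaves. -/
def spOK (n g r km : ℕ) (co : Bool) (x y : ℕ) : Bool :=
  (List.range 4).all fun i => (List.range 4).all fun j =>
    (Nat.beq i j || (sk n km (pe x i) (pe x j) && (sa n g r (pe x i) (pe x j) == !co))) &&
    ((Nat.beq i j || (sk n km (pe y i) (pe y j) && (sa n g r (pe y i) (pe y j) == co))) &&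
    (sk n km (pe x i) (pe y j) && (sa n g r (pe x i) (pe y j) == xor co (Nat.beq i j))))

theorem spOK_sound {G : SimpleGraph V} (hsp : NoSp4 G) {n g r km : ℕ} {f : ℕ → V}
    (hS : Sem G n g r km f) {co : Bool} {x y : ℕ} (h : spOK n g r km co x y = true) : False := by
  rw [spOK, List.all_eq_true] at h
  have h' : ∀ i j : Fin 4,
      ((Nat.beq i j = true) ∨ ((sk n km (pe x i) (pe x j) = true) ∧
        (sa n g r (pe x i) (pe x j) = !co))) ∧
      ((Nat.beq i j = true) ∨ ((sk n km (pe y i) (pe y j) = true) ∧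
        (sa n g r (pe y i) (pe y j) = co))) ∧
      (sk n km (pe x i) (pe y j) = true) ∧
        (sa n g r (pe x i) (pe y j) = xor co (Nat.beq i j)) := by
    intro i j
    have h1 := h i.1 (List.mem_range.2 i.2)
    rw [List.all_eq_true] at h1
    have h2 := h1 j.1 (List.mem_range.2 j.2)
    simpa only [Bool.and_eq_true, Bool.or_eq_true, beq_iff_eq] using h2
  have hbeq : ∀ i j : Fin 4, Nat.beq i j = true ↔ i = j := by
    intro i j
    rw [Nat.beq_eq, Fin.ext_iff]
  have hbeq' : ∀ i j : Fin 4, i ≠ j → Nat.beq i j = false := by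
    intro i j hij
    rw [Bool.eq_false_iff, ne_eq, hbeq]
    exact hij
  obtain ⟨n1, n2⟩ := hsp (fun i => f (pe x i)) (fun i => f (pe y i))
  cases co with
  | false =>
    refine n1 ⟨fun i j hij => ?_, fun i j => ?_, fun i j hij => ?_, fun i j => ?_, fun i j => ?_⟩
    · rcases (h' i j).1 with h | ⟨h3, h4⟩
      · exact absurd ((hbeq i j).1 h) hij
      · rw [(sa_sound hS h3).2, h4]; rfl
    · rcases (h' i j).2.1 with h | ⟨h3, h4⟩
      · rw [(hbeq i j).1 h]; exact G.irrefl
      · rw [(sa_sound hS h3).2, h4]; simp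
    · rcases (h' i j).2.1 with h | ⟨h3, h4⟩
      · exact absurd ((hbeq i j).1 h) hij
      · exact (sa_sound hS h3).1
    · exact (sa_sound hS (h' i j).2.2.1).1
    · rw [(sa_sound hS (h' i j).2.2.1).2, (h' i j).2.2.2, Bool.false_xor, hbeq]
  | true =>
    refine n2 ⟨fun i j hij => ?_, fun i j => ?_, fun i j hij => ?_, fun i j => ?_, fun i j => ?_⟩
    · rcases (h' i j).1 with h | ⟨h3, h4⟩
      · exact absurd ((hbeq i j).1 h) hij
      · obtain ⟨e1, e2⟩ := sa_sound hS h3
        rw [SimpleGraph.compl_adj, e2, h4]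
        exact ⟨e1, by simp⟩
    · rcases (h' i j).2.1 with h | ⟨h3, h4⟩
      · rw [(hbeq i j).1 h]; exact Gᶜ.irrefl
      · obtain ⟨e1, e2⟩ := sa_sound hS h3
        rw [SimpleGraph.compl_adj, e2, h4]
        simp
    · rcases (h' i j).2.1 with h | ⟨h3, h4⟩
      · exact absurd ((hbeq i j).1 h) hij
      · exact (sa_sound hS h3).1
    · exact (sa_sound hS (h' i j).2.2.1).1
    · obtain ⟨e1, e2⟩ := sa_sound hS (h' i j).2.2.1
      rw [SimpleGraph.compl_adj, e2, (h' i j).2.2.2]
      by_cases hij : i = j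
      · subst hij
        have : Nat.beq i i = true := (hbeq i i).2 rfl
        rw [this]
        exact ⟨fun _ => rfl, fun _ => ⟨e1, by simp⟩⟩
      · rw [hbeq' i j hij]
        simp [hij]

/-! ### Trees -/

inductive TB
  | br (j : ℕ) (a b : TB)
  | vi (L : List ℕ)
  | sp (co : Bool) (x y : ℕ)
  | eq
  | iso (id p : ℕ) (co : Bool)

/-- rows of the new vertex and of vertex `0` agree on the indices `1..k`. -/
def eqUp (g r km : ℕ) : ℕ → Bool
  | 0 => true
  | k + 1 => km.testBit (k + 1) && ((ab g 0 (k + 1) == r.testBit (k + 1)) && eqUp g r km k)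

def isoTB (tab : List St) (s : St) (id p : ℕ) (co : Bool) : Bool :=
  match tab[id]? with
  | some t => isoB s t p co
  | none => false

def chkB (tab : List St) (n g : ℕ) : TB → ℕ → ℕ → Bool
  | .br j a b, r, km =>
    Nat.blt j n && (!(km.testBit j) && (!(r.testBit j) &&
      (chkB tab n g a r (km ||| 2 ^ j) && chkB tab n g b (r ||| 2 ^ j) (km ||| 2 ^ j))))
  | .vi L, r, km => vchk n g r km L
  | .sp co x y, r, km => spOK n g r km co x y
  | .eq, r, km => eqUp g r km (n - 2)
  | .iso id p co, r, km => Nat.beq km (2 ^ n - 1) &&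
      isoTB tab ⟨n + 1, g ||| (r <<< (n * (n - 1) / 2)), []⟩ id p co

theorem eqUp_sound {g r km : ℕ} : ∀ k, eqUp g r km k = true → ∀ i, 0 < i → i ≤ k →
    km.testBit i = true ∧ ab g 0 i = r.testBit i := by
  intro k
  induction k with
  | zero => intro _ i h1 h2; omega
  | succ k ih =>
    intro h i h1 h2
    rw [eqUp, Bool.and_eq_true, Bool.and_eq_true, beq_iff_eq] at h
    rcases Nat.lt_or_eq_of_le h2 with h2 | rfl
    · exact ih h.2.2 i h1 (by omega)
    · exact ⟨h.1, h.2.1⟩

theorem chkB_sound {m : ℕ} {tab : List St} (htab : ∀ t ∈ tab, RefdB m t) {G : SimpleGraph V}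
    (hG : Star G) (hGc : Star Gᶜ) (hsp : NoSp4 G) {n g : ℕ} (hn : n < 15) (hn2 : 2 ≤ n)
    (hg : g < 2 ^ (n * (n - 1) / 2)) {f : ℕ → V}
    (hdiff : ∃ k, 0 < k ∧ k < n - 1 ∧ ¬ (G.Adj (f n) (f k) ↔ G.Adj (f 0) (f k)))
    (hE : Ext G (f 0) m (fun v => ∃ i, 0 < i ∧ i < n + 1 ∧ v = f i)) :
    ∀ (t : TB) (r km : ℕ), Sem G n g r km f → chkB tab n g t r km = true → False := by
  intro t
  induction t with
  | br j a b iha ihb =>
    intro r km hSem h
    rw [chkB, Bool.and_eq_true, Bool.and_eq_true, Bool.and_eq_true, Bool.and_eq_true] at h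
    obtain ⟨hj, hkj, hrj, ha, hb⟩ := h
    rw [Nat.blt_eq] at hj
    rw [Bool.not_eq_true'] at hkj hrj
    by_cases hadj : G.Adj (f j) (f n)
    · refine ihb _ _ ⟨hSem.inj, hSem.adj, fun i hi hk => ?_⟩ hb
      rw [Nat.testBit_or, Nat.testBit_two_pow, Bool.or_eq_true, decide_eq_true_eq] at hk
      rw [Nat.testBit_or, Nat.testBit_two_pow]
      by_cases hij : j = i
      · subst hij
        simp [hadj]
      · rw [hSem.adjn i hi (by rcases hk with hk | hk; exact hk; exact absurd hk hij)]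
        simp [hij]
    · refine iha _ _ ⟨hSem.inj, hSem.adj, fun i hi hk => ?_⟩ ha
      rw [Nat.testBit_or, Nat.testBit_two_pow, Bool.or_eq_true, decide_eq_true_eq] at hk
      by_cases hij : j = i
      · subst hij
        simp [hadj, hrj]
      · exact hSem.adjn i hi (by rcases hk with hk | hk; exact hk; exact absurd hk hij)
  | vi L =>
    intro r km hSem h
    exact vchk_sound hG (by omega) hSem L h
  | sp co x y =>
    intro r km hSem h
    exact spOK_sound hsp hSem h
  | eq =>
    intro r km hSem h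
    rw [chkB] at h
    obtain ⟨k, hk0, hk, hd⟩ := hdiff
    obtain ⟨e1, e2⟩ := eqUp_sound _ h k hk0 (by omega)
    apply hd
    rw [G.adj_comm, hSem.adjn k (by omega) e1, hSem.adj 0 k hk0 (by omega), e2]
  | iso id p co =>
    intro r km hSem h
    rw [chkB, Bool.and_eq_true] at h
    obtain ⟨hkm, hiso⟩ := h
    have hkm := Nat.eq_of_beq_eq_true hkm
    unfold isoTB at hiso
    cases htid : tab[id]? with
    | none => rw [htid] at hiso; simp at hiso
    | some t =>
      rw [htid] at hiso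
      have hmem : t ∈ tab := List.mem_of_getElem? htid
      have hR := isoB_sound hiso (by simp) (htab t hmem)
      refine hR V G hG hGc hsp f ⟨?_, ?_, ?_⟩ hE
      · intro i j hij hj
        exact hSem.inj i j hij (by simp only at hj; omega)
      · intro i j hij hj
        simp only at hj ⊢
        rcases Nat.lt_succ_iff_lt_or_eq.1 hj with hj | rfl
        · rw [hSem.adj i j hij hj]
          have hlt := ix_lt hij hj
          unfold ab
          rw [Nat.testBit_or, Nat.testBit_shiftLeft]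
          have : decide (ix i j ≥ n * (n - 1) / 2) = false := by
            rw [decide_eq_false_iff_not]; omega
          rw [this, Bool.false_and, Bool.or_false]
        · rw [hSem.adjn i hij (by rw [hkm, Nat.testBit_two_pow_sub_one]; simpa using hij)]
          unfold ab ix
          rw [Nat.testBit_or, Nat.testBit_shiftLeft]
          have h1 : decide (j * (j - 1) / 2 + i ≥ j * (j - 1) / 2) = true := by
            rw [decide_eq_true_eq]; omega
          have h2 : g.testBit (j * (j - 1) / 2 + i) = false :=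
            Nat.testBit_lt_two_pow (lt_of_lt_of_le hg (Nat.pow_le_pow_right (by norm_num)
              (by omega)))
          rw [h1, h2, Bool.true_and, Bool.false_or]
          congr! 2
          omega
      · intro k hk
        simp at hk

/-- the row of `w` over the state: it agrees with `0` on `1..k`. -/
def wr (g : ℕ) : ℕ → ℕ
  | 0 => 0
  | k + 1 => (if ab g 0 (k + 1) = true then 2 ^ (k + 1) else 0) ||| wr g k

theorem wr_testBit (g : ℕ) : ∀ k i, (wr g k).testBit i = (decide (0 < i ∧ i ≤ k) && ab g 0 i) := by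
  intro k
  induction k with
  | zero =>
    intro i
    rw [wr, Nat.zero_testBit]
    have h : ¬ (0 < i ∧ i ≤ 0) := by omega
    rw [decide_eq_false h, Bool.false_and]
  | succ k ih =>
    intro i
    rw [wr, Nat.testBit_or, ih]
    by_cases hi : i = k + 1
    · subst hi
      have h1 : ¬ (0 < k + 1 ∧ k + 1 ≤ k) := by omega
      have h2 : (0 < k + 1 ∧ k + 1 ≤ k + 1) := by omega
      by_cases hb : ab g 0 (k + 1) = true
      · rw [if_pos hb, Nat.testBit_two_pow_self]
        simp [hb]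
      · rw [if_neg hb, Nat.zero_testBit]
        simp [hb]
    · have h1 : (if ab g 0 (k + 1) = true then 2 ^ (k + 1) else 0).testBit i = false := by
        split_ifs
        · rw [Nat.testBit_two_pow]
          simp; omega
        · exact Nat.zero_testBit i
      rw [h1, Bool.false_or]
      have h2 : (0 < i ∧ i ≤ k) ↔ (0 < i ∧ i ≤ k + 1) := by omega
      simp only [h2]

structure EnB where
  s : St
  a : TB
  b : TB
  c : TB
  d : TB

def enOKB (tab : List St) (e : EnB) : Bool :=
  e.s.wf && (Nat.blt e.s.N 14 && (e.s.S.isEmpty &&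
    (chkB tab (e.s.N + 1) (e.s.g ||| (wr e.s.g (e.s.N - 1) <<< (e.s.N * (e.s.N - 1) / 2))) e.a
      (2 ^ e.s.N) (1 ||| 2 ^ e.s.N) &&
    (chkB tab (e.s.N + 1) (e.s.g ||| (wr e.s.g (e.s.N - 1) <<< (e.s.N * (e.s.N - 1) / 2))) e.b
      1 (1 ||| 2 ^ e.s.N) &&
    (chkB tab (e.s.N + 1)
      (e.s.g ||| ((1 ||| wr e.s.g (e.s.N - 1)) <<< (e.s.N * (e.s.N - 1) / 2))) e.c
      (2 ^ e.s.N) (1 ||| 2 ^ e.s.N) &&
    chkB tab (e.s.N + 1)
      (e.s.g ||| ((1 ||| wr e.s.g (e.s.N - 1)) <<< (e.s.N * (e.s.N - 1) / 2))) e.d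
      1 (1 ||| 2 ^ e.s.N))))))

theorem row_ext {g N row : ℕ} (hg : g < 2 ^ (N * (N - 1) / 2)) (hrow : row < 2 ^ N)
    (hN : 1 ≤ N) :
    (g ||| (row <<< (N * (N - 1) / 2))) < 2 ^ ((N + 1) * (N + 1 - 1) / 2) ∧
    (∀ i j, i < j → j < N → ab (g ||| (row <<< (N * (N - 1) / 2))) i j = ab g i j) ∧
    (∀ i, i < N → ab (g ||| (row <<< (N * (N - 1) / 2))) i N = row.testBit i) := by
  have he : N * (N - 1) / 2 + N = (N + 1) * (N + 1 - 1) / 2 := by
    obtain ⟨m, rfl⟩ : ∃ m, N = m + 1 := ⟨N - 1, by omega⟩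
    have e1 : (m + 1) * (m + 1 - 1) / 2 + (m + 1) = ((m + 1) * m + (m + 1) * 2) / 2 := by
      rw [Nat.add_mul_div_right _ _ (by norm_num)]
      simp
    rw [e1]
    congr 1
    simp only [Nat.add_sub_cancel]
    ring
  refine ⟨?_, ?_, ?_⟩
  · apply Nat.or_lt_two_pow
    · exact lt_of_lt_of_le hg (Nat.pow_le_pow_right (by norm_num) (by omega))
    · rw [Nat.shiftLeft_eq, ← he, Nat.pow_add, Nat.mul_comm]
      exact Nat.mul_lt_mul_of_pos_left hrow (by positivity)
  · intro i j hij hj
    have hlt := ix_lt hij hj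
    unfold ab
    rw [Nat.testBit_or, Nat.testBit_shiftLeft]
    have : decide (ix i j ≥ N * (N - 1) / 2) = false := by
      rw [decide_eq_false_iff_not]; omega
    rw [this, Bool.false_and, Bool.or_false]
  · intro i hi
    unfold ab ix
    rw [Nat.testBit_or, Nat.testBit_shiftLeft]
    have h1 : decide (N * (N - 1) / 2 + i ≥ N * (N - 1) / 2) = true := by
      rw [decide_eq_true_eq]; omega
    have h2 : g.testBit (N * (N - 1) / 2 + i) = false :=
      Nat.testBit_lt_two_pow (lt_of_lt_of_le hg (Nat.pow_le_pow_right (by norm_num)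
        (by omega)))
    rw [h1, h2, Bool.true_and, Bool.false_or]
    congr 1
    omega

theorem wr_lt {g : ℕ} : ∀ k, wr g k < 2 ^ (k + 1) := by
  intro k
  induction k with
  | zero => simp [wr]
  | succ k ih =>
    rw [wr]
    apply Nat.or_lt_two_pow
    · split_ifs
      · exact Nat.pow_lt_pow_right (by norm_num) (by omega)
      · positivity
    · exact lt_of_lt_of_le ih (Nat.pow_le_pow_right (by norm_num) (by omega))

theorem enOKB_sound {m : ℕ} {tab : List St} (htab : ∀ t ∈ tab, RefdB m t) {e : EnB}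
    (h : enOKB tab e = true) : RefdB (m + 1) e.s := by
  classical
  rintro V G hG hGc hsp f hR ⟨z, w, hPz, hzr, hPw, hwr, hzw, h1, ⟨k0, ⟨i0, hi0, hi0', rfl⟩, h2⟩,
    h3, hE⟩
  rw [enOKB, Bool.and_eq_true, Bool.and_eq_true, Bool.and_eq_true, Bool.and_eq_true,
    Bool.and_eq_true, Bool.and_eq_true] at h
  obtain ⟨hwf, hN, hS, ha, hb, hc, hd⟩ := h
  rw [Nat.blt_eq] at hN
  simp only [St.wf, Bool.and_eq_true, Nat.blt_eq, List.all_eq_true] at hwf
  obtain ⟨hw1, hw2, hw3, hw4⟩ := hwf
  set N := e.s.N with hNdef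
  set g := e.s.g with hgdef
  -- the extended window
  let f' : ℕ → V := fun i => if i = N then w else if i = N + 1 then z else f i
  have hf : ∀ i, i < N → f' i = f i := by
    intro i hi
    simp only [f']
    rw [if_neg (by omega), if_neg (by omega)]
  have hfw : f' N = w := by simp [f']
  have hfz : f' (N + 1) = z := by simp [f']
  have hf0 : f' 0 = f 0 := hf 0 (by omega)
  have hnew : ∀ v, (∀ i, 0 < i → i < N → v ≠ f i) → v ≠ f 0 → ∀ i, i < N → f i ≠ v := by
    intro v hv hv0 i hi e'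
    rcases Nat.eq_zero_or_pos i with rfl | hi0
    · exact hv0 e'.symm
    · exact hv i hi0 hi e'.symm
  have hnz := hnew z (fun i h1 h2 h3 => hPz ⟨i, h1, h2, h3⟩) hzr
  have hnw := hnew w (fun i h1 h2 h3 => hPw ⟨i, h1, h2, h3⟩) hwr
  have hinj : ∀ i j, i < j → j ≤ N + 1 → f' i ≠ f' j := by
    intro i j hij hj
    rcases Nat.lt_or_eq_of_le hj with hj | rfl
    · rcases Nat.lt_succ_iff_lt_or_eq.1 hj with hj | rfl
      · rw [hf i (by omega), hf j hj]
        exact hR.inj i j hij hj
      · rw [hfw, hf i hij]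
        exact hnw i hij
    · rw [hfz]
      rcases Nat.lt_succ_iff_lt_or_eq.1 hij with hij | rfl
      · rw [hf i hij]
        exact hnz i hij
      · rw [hfw]
        exact fun h => hzw h.symm
  have hdiff : ∃ k, 0 < k ∧ k < N + 1 - 1 ∧
      ¬ (G.Adj (f' (N + 1)) (f' k) ↔ G.Adj (f' 0) (f' k)) := by
    refine ⟨i0, hi0, by omega, ?_⟩
    rw [hfz, hf i0 hi0', hf0]
    exact h2
  have hE' : Ext G (f' 0) m (fun v => ∃ i, 0 < i ∧ i < N + 1 + 1 ∧ v = f' i) := by
    rw [hf0]
    refine Ext.congr m (fun v => ?_) hE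
    constructor
    · rintro (rfl | rfl | ⟨i, h1, h2, rfl⟩)
      · exact ⟨N, by omega, by omega, hfw.symm⟩
      · exact ⟨N + 1, by omega, by omega, hfz.symm⟩
      · exact ⟨i, h1, by omega, (hf i h2).symm⟩
    · rintro ⟨i, h1, h2, rfl⟩
      rcases Nat.lt_succ_iff_lt_or_eq.1 h2 with h2 | rfl
      · rcases Nat.lt_succ_iff_lt_or_eq.1 h2 with h2 | rfl
        · exact Or.inr (Or.inr ⟨i, h1, h2, hf i h2⟩)
        · exact Or.inl hfw
      · exact Or.inr (Or.inl hfz)
  -- the row of `w`
  have sem : ∀ (row rz : ℕ), row < 2 ^ N →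
      (∀ i, i < N → (G.Adj (f i) w ↔ row.testBit i = true)) →
      (G.Adj (f 0) z ↔ rz.testBit 0 = true) → (G.Adj w z ↔ rz.testBit N = true) →
      Sem G (N + 1) (g ||| (row <<< (N * (N - 1) / 2))) rz (1 ||| 2 ^ N) f' ∧
      (g ||| (row <<< (N * (N - 1) / 2))) < 2 ^ ((N + 1) * (N + 1 - 1) / 2) := by
    intro row rz hrow hrw hz0 hzN
    obtain ⟨e1, e2, e3⟩ := row_ext hw3 hrow (by omega)
    refine ⟨⟨hinj, ?_, ?_⟩, e1⟩
    · intro i j hij hj
      rcases Nat.lt_succ_iff_lt_or_eq.1 hj with hj | rfl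
      · rw [e2 i j hij hj, hf i (by omega), hf j hj]
        exact hR.adj i j hij hj
      · rw [e3 i hij, hfw, hf i hij]
        exact hrw i hij
    · intro i hi hk
      rw [Nat.testBit_or, Bool.or_eq_true, Nat.testBit_two_pow, decide_eq_true_eq,
        show (1 : ℕ) = 2 ^ 0 from rfl, Nat.testBit_two_pow, decide_eq_true_eq] at hk
      rcases hk with rfl | rfl
      · rw [hf0, hfz]; exact hz0
      · rw [hfw, hfz]; exact hzN
  have hwrow : ∀ i, 0 < i → i < N →
      (G.Adj (f i) w ↔ (wr g (N - 1)).testBit i = true) := by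
    intro i hi hi'
    rw [wr_testBit, G.adj_comm, h1 (f i) ⟨i, hi, hi', rfl⟩, hR.adj 0 i hi hi']
    have : (0 < i ∧ i ≤ N - 1) := by omega
    simp [this, hgdef]
  have hwlt : wr g (N - 1) < 2 ^ N := by
    have := wr_lt (g := g) (N - 1)
    rwa [Nat.sub_add_cancel (by omega)] at this
  have hw0 : (wr g (N - 1)).testBit 0 = false := by
    rw [wr_testBit]; simp
  have rowF : ¬ G.Adj (f 0) w → ∀ i, i < N →
      (G.Adj (f i) w ↔ (wr g (N - 1)).testBit i = true) := by
    intro hn i hi
    rcases Nat.eq_zero_or_pos i with rfl | hi0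
    · rw [hw0]; simp [hn]
    · exact hwrow i hi0 hi
  have rowT : G.Adj (f 0) w → ∀ i, i < N →
      (G.Adj (f i) w ↔ (1 ||| wr g (N - 1)).testBit i = true) := by
    intro hn i hi
    rw [Nat.testBit_or, Bool.or_eq_true, show (1 : ℕ) = 2 ^ 0 from rfl, Nat.testBit_two_pow,
      decide_eq_true_eq]
    rcases Nat.eq_zero_or_pos i with rfl | hi0
    · simp [hn]
    · rw [hwrow i hi0 hi]
      constructor
      · exact Or.inr
      · rintro (h | h)
        · omega
        · exact h
  have hwlt' : 1 ||| wr g (N - 1) < 2 ^ N := by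
    apply Nat.or_lt_two_pow _ hwlt
    exact Nat.one_lt_two_pow (by omega)
  have hzw' : G.Adj w z ↔ ¬ G.Adj (f 0) z := by
    rw [G.adj_comm w z, G.adj_comm (f 0) z]
    by_cases h : G.Adj z (f 0)
    · simp only [h, iff_true, not_true_eq_false, iff_false] at h3 ⊢
      exact h3
    · simp only [h, iff_false, not_not, not_false_eq_true, iff_true] at h3 ⊢
      exact h3
  have b1 : (2 ^ N).testBit 0 = false := by
    rw [Nat.testBit_two_pow]; simp; omega
  have b2 : (1 : ℕ).testBit N = false := by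
    rw [show (1 : ℕ) = 2 ^ 0 from rfl, Nat.testBit_two_pow]; simp; omega
  have b3 : (1 : ℕ).testBit 0 = true := by simp
  by_cases hw : G.Adj (f 0) w <;> by_cases hz : G.Adj (f 0) z
  · obtain ⟨s1, s2⟩ := sem _ 1 hwlt' (rowT hw) (by simp [hz]) (by rw [hzw', b2]; simp [hz])
    exact chkB_sound htab hG hGc hsp (by omega) (by omega) s2 hdiff hE' e.d _ _ s1 hd
  · obtain ⟨s1, s2⟩ := sem _ (2 ^ N) hwlt' (rowT hw) (by rw [b1]; simp [hz])
      (by rw [hzw', Nat.testBit_two_pow_self]; simp [hz])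
    exact chkB_sound htab hG hGc hsp (by omega) (by omega) s2 hdiff hE' e.c _ _ s1 hc
  · obtain ⟨s1, s2⟩ := sem _ 1 hwlt (rowF hw) (by simp [hz]) (by rw [hzw', b2]; simp [hz])
    exact chkB_sound htab hG hGc hsp (by omega) (by omega) s2 hdiff hE' e.b _ _ s1 hb
  · obtain ⟨s1, s2⟩ := sem _ (2 ^ N) hwlt (rowF hw) (by rw [b1]; simp [hz])
      (by rw [hzw', Nat.testBit_two_pow_self]; simp [hz])
    exact chkB_sound htab hG hGc hsp (by omega) (by omega) s2 hdiff hE' e.a _ _ s1 ha

/-- one level of the table. -/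
def levOKB (tab : List St) (es : List EnB) : Bool := es.all (enOKB tab)

theorem levOKB_sound {m : ℕ} {tab : List St} {es : List EnB} (htab : ∀ t ∈ tab, RefdB m t)
    (h : levOKB tab es = true) : ∀ t ∈ es.map EnB.s, RefdB (m + 1) t := by
  intro t ht
  obtain ⟨e, he, rfl⟩ := List.mem_map.1 ht
  rw [levOKB, List.all_eq_true] at h
  exact enOKB_sound htab (h e he)

end Pool.Agent.CW.Cert
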