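import Pool.Agent.CW.Basic
import Pool.Agent.CW.ModD1

/-! Module D0 for `S08819` (MP_563ce7_co): the trichotomy of outside vertices of grown sets. -/

set_option autoImplicit false

namespace Pool.Agent.CW

variable {V : Type}

theorem Path4.rev {G : SimpleGraph V} {a b c d : V} (h : Path4 G a b c d) : Path4 G d c b a := by
  obtain ⟨h1, h2, h3, h4, h5, h6, h7, h8, h9⟩ := h
  exact ⟨h3.symm, h2.symm, h1.symm, fun h => h6 h.symm, fun h => h5 h.symm, fun h => h4 h.symm,
    h9.symm, h8.symm, h7.symm⟩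

theorem Path4.ne {G : SimpleGraph V} {a b c d : V} (h : Path4 G a b c d) :
    a ≠ b ∧ b ≠ c ∧ c ≠ d ∧ a ≠ c ∧ a ≠ d ∧ b ≠ d :=
  ⟨h.1.ne, h.2.1.ne, h.2.2.1.ne, h.2.2.2.2.2.2.1, h.2.2.2.2.2.2.2.1, h.2.2.2.2.2.2.2.2⟩

/-- `y` is in no induced path whose other three vertices are in `l`. -/
structure NA (G : SimpleGraph V) (y : V) (l : List V) : Prop where
  e : ∀ p ∈ l, ∀ q ∈ l, ∀ r ∈ l, ¬ Path4 G y p q r
  m : ∀ p ∈ l, ∀ q ∈ l, ∀ r ∈ l, ¬ Path4 G p y q r

theorem NA.mono {G : SimpleGraph V} {y : V} {l l' : List V} (h : NA G y l')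
    (hl : ∀ x ∈ l, x ∈ l') : NA G y l :=
  ⟨fun p hp q hq r hr => h.e p (hl p hp) q (hl q hq) r (hl r hr),
    fun p hp q hq r hr => h.m p (hl p hp) q (hl q hq) r (hl r hr)⟩

theorem isP4_of_path4 [DecidableEq V] {G : SimpleGraph V} {a b c d : V} (h : Path4 G a b c d) :
    IsP4 G {a, b, c, d} := ⟨a, b, c, d, h, by simp⟩

theorem NA.of_hno {G : SimpleGraph V} {y : V} {l : List V}
    (hno : ∀ A : Finset V, IsP4 G A → y ∈ A → ∃ z ∈ A, z ≠ y ∧ z ∉ l) : NA G y l := by
  classical
  constructor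
  · intro p hp q hq r hr h
    obtain ⟨z, hz, hzy, hzl⟩ := hno _ (isP4_of_path4 h) (by simp)
    simp only [Finset.mem_insert, Finset.mem_singleton] at hz
    rcases hz with rfl | rfl | rfl | rfl <;> simp_all
  · intro p hp q hq r hr h
    obtain ⟨z, hz, hzy, hzl⟩ := hno _ (isP4_of_path4 h) (by simp)
    simp only [Finset.mem_insert, Finset.mem_singleton] at hz
    rcases hz with rfl | rfl | rfl | rfl <;> simp_all

/-- conversely -/
theorem NA.hno {G : SimpleGraph V} {y : V} {l : List V} (h : NA G y l) (A : Finset V)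
    (hA : IsP4 G A) (hy : y ∈ A) : ∃ z ∈ A, z ≠ y ∧ z ∉ l := by
  obtain ⟨a, b, c, d, hp, hA⟩ := hA
  by_contra hcon
  push Not at hcon
  have hcon' : ∀ z, (z = a ∨ z = b ∨ z = c ∨ z = d) → z ≠ y → z ∈ l := fun z hz hzy =>
    hcon z ((hA z).2 hz) hzy
  have hne := hp.ne
  obtain ⟨h1, h2, h3, h4, h5, h6⟩ := hne
  rcases (hA y).1 hy with rfl | rfl | rfl | rfl
  · exact h.e b (hcon' b (by simp) h1.symm) c (hcon' c (by simp) h4.symm) d
      (hcon' d (by simp) h5.symm) hp
  · exact h.m a (hcon' a (by simp) h1) c (hcon' c (by simp) h2.symm) d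
      (hcon' d (by simp) h6.symm) hp
  · exact h.m d (hcon' d (by simp) h3.symm) b (hcon' b (by simp) h2) a
      (hcon' a (by simp) h4) hp.rev
  · exact h.e c (hcon' c (by simp) h3) b (hcon' b (by simp) h6) a
      (hcon' a (by simp) h5) hp.rev

/-- The three types of a non-partner of an induced path. -/
theorem NA.types {G : SimpleGraph V} {y a b c d : V} {l : List V} (h : NA G y l)
    (hp : Path4 G a b c d) (ha : a ∈ l) (hb : b ∈ l) (hc : c ∈ l) (hd : d ∈ l)
    (hya : y ≠ a) (hyb : y ≠ b) (hyc : y ≠ c) (hyd : y ≠ d) :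
    (¬ G.Adj y a ∧ ¬ G.Adj y b ∧ ¬ G.Adj y c ∧ ¬ G.Adj y d) ∨
    (G.Adj y a ∧ G.Adj y b ∧ G.Adj y c ∧ G.Adj y d) ∨
    (¬ G.Adj y a ∧ G.Adj y b ∧ G.Adj y c ∧ ¬ G.Adj y d) := by
  obtain ⟨h1, h2, h3, h4, h5, h6, h7, h8, h9⟩ := hp
  have h4' : ¬ G.Adj c a := fun h => h4 h.symm
  have h5' : ¬ G.Adj d a := fun h => h5 h.symm
  have h6' : ¬ G.Adj d b := fun h => h6 h.symm
  by_cases A : G.Adj y a <;> by_cases B : G.Adj y b <;> by_cases C : G.Adj y c <;>
    by_cases D : G.Adj y d
  · exact Or.inr (Or.inl ⟨A, B, C, D⟩)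
  · exact (h.m a ha c hc d hd ⟨A.symm, C, h3, h4, h5, D, h7, h8, hyd⟩).elim
  · exact (h.m a ha d hd c hc ⟨A.symm, D, h3.symm, h5, h4, C, h8, h7, hyc⟩).elim
  · exact (h.e b hb c hc d hd ⟨B, h2, h3, C, D, h6, hyc, hyd, h9⟩).elim
  · exact (h.m d hd a ha b hb ⟨D.symm, A, h1, h5', h6', B, h8.symm, h9.symm, hyb⟩).elim
  · exact (h.m a ha c hc d hd ⟨A.symm, C, h3, h4, h5, D, h7, h8, hyd⟩).elim
  · exact (h.m a ha d hd c hc ⟨A.symm, D, h3.symm, h5, h4, C, h8, h7, hyc⟩).elim
  · exact (h.e a ha b hb c hc ⟨A, h1, h2, B, C, h4, hyb, hyc, h7⟩).elim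
  · exact (h.m d hd b hb a ha ⟨D.symm, B, h1.symm, h6', h5', A, h9.symm, h8.symm, hya⟩).elim
  · exact Or.inr (Or.inr ⟨A, B, C, D⟩)
  · exact (h.m d hd b hb a ha ⟨D.symm, B, h1.symm, h6', h5', A, h9.symm, h8.symm, hya⟩).elim
  · exact (h.e b hb c hc d hd ⟨B, h2, h3, C, D, h6, hyc, hyd, h9⟩).elim
  · exact (h.e c hc b hb a ha ⟨C, h2.symm, h1.symm, B, A, h4', hyb, hya, h7.symm⟩).elim
  · exact (h.e c hc b hb a ha ⟨C, h2.symm, h1.symm, B, A, h4', hyb, hya, h7.symm⟩).elim
  · exact (h.e d hd c hc b hb ⟨D, h3.symm, h2.symm, C, B, h6', hyc, hyb, h9.symm⟩).elim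
  · exact Or.inl ⟨A, B, C, D⟩

theorem Good.baseIn {G : SimpleGraph V} {σ : V → Bool} {l : List V} (h : Good G σ l) :
    ∃ a b c d, a ∈ l ∧ b ∈ l ∧ c ∈ l ∧ d ∈ l ∧ Path4 G a b c d ∧ σ a = false ∧ σ b = true ∧
      σ c = true ∧ σ d = false := by
  induction h with
  | base hp h1 h2 h3 h4 => exact ⟨_, _, _, _, by simp, by simp, by simp, by simp, hp, h1, h2, h3, h4⟩
  | part _ _ _ _ _ _ _ _ ih =>
    obtain ⟨a, b, c, d, ha, hb, hc, hd, h⟩ := ih
    exact ⟨a, b, c, d, by simp [ha], by simp [hb], by simp [hc], by simp [hd], h⟩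
  | pairN _ _ _ _ _ _ _ _ ih =>
    obtain ⟨a, b, c, d, ha, hb, hc, hd, h⟩ := ih
    exact ⟨a, b, c, d, by simp [ha], by simp [hb], by simp [hc], by simp [hd], h⟩
  | pairT _ _ _ _ _ _ _ _ _ ih =>
    obtain ⟨a, b, c, d, ha, hb, hc, hd, h⟩ := ih
    exact ⟨a, b, c, d, by simp [ha], by simp [hb], by simp [hc], by simp [hd], h⟩

/-- The three outside types. -/
def Ty3 (G : SimpleGraph V) (σ : V → Bool) (y : V) (l : List V) : Prop :=
  (∀ s ∈ l, ¬ G.Adj y s) ∨ (∀ s ∈ l, G.Adj y s) ∨ (∀ s ∈ l, G.Adj y s ↔ σ s = true)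

theorem perm4 {p q r s x a b c : V} (hn : [p, q, r, s].Nodup)
    (hset : ∀ z, (z = p ∨ z = q ∨ z = r ∨ z = s) ↔ (z = x ∨ z = a ∨ z = b ∨ z = c)) :
    [p, q, r, s].Perm [x, a, b, c] := by
  classical
  have h1 : ([p, q, r, s] : List V).toFinset = [x, a, b, c].toFinset := by
    ext z
    simp only [List.mem_toFinset, List.mem_cons, List.not_mem_nil, or_false]
    exact hset z
  have h2 : [x, a, b, c].Nodup := by
    have h3 : (([x, a, b, c] : List V) : Multiset V).toFinset.card =
        Multiset.card (([x, a, b, c] : List V) : Multiset V) := by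
      have h4 := List.toFinset_card_of_nodup hn
      rw [h1] at h4
      simpa using h4
    have := Multiset.toFinset_card_eq_card_iff_nodup.1 h3
    simpa using this
  refine (List.perm_ext_iff_of_nodup hn h2).2 (fun z => ?_)
  simp only [List.mem_cons, List.not_mem_nil, or_false]
  exact hset z

/-- parity rule on one path -/
theorem NA.parity {G : SimpleGraph V} {y p q r s : V} {l : List V} (h : NA G y l)
    (hp : Path4 G p q r s) (h1 : p ∈ l) (h2 : q ∈ l) (h3 : r ∈ l) (h4 : s ∈ l)
    (hya : y ≠ p) (hyb : y ≠ q) (hyc : y ≠ r) (hyd : y ≠ s) {x a b c : V}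
    (hset : ∀ z, (z = p ∨ z = q ∨ z = r ∨ z = s) ↔ (z = x ∨ z = a ∨ z = b ∨ z = c)) :
    (G.Adj y x ↔ (Xor (G.Adj y a) (Xor (G.Adj y b) (G.Adj y c)))) := by
  classical
  have hn : [p, q, r, s].Nodup := by
    obtain ⟨h1, h2, h3, h4, h5, h6⟩ := hp.ne
    simp [h1, h2, h3, h4, h5, h6]
  have hperm := perm4 hn hset
  have hsum := (hperm.map (fun t => if G.Adj y t then (1 : ZMod 2) else 0)).sum_eq
  have h0 : ([p, q, r, s].map (fun t => if G.Adj y t then (1 : ZMod 2) else 0)).sum = 0 := by
    rcases h.types hp h1 h2 h3 h4 hya hyb hyc hyd with h | h | h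
    · simp [h]
    · simp only [List.map_cons, h, if_true, List.map_nil, List.sum_cons, List.sum_nil]; decide
    · simp only [List.map_cons, h, if_true, if_false, List.map_nil, List.sum_cons, List.sum_nil]
      decide
  rw [h0] at hsum
  simp only [List.map_cons, List.map_nil, List.sum_cons, List.sum_nil] at hsum
  by_cases A : G.Adj y x <;> by_cases B : G.Adj y a <;> by_cases C : G.Adj y b <;>
    by_cases D : G.Adj y c <;> simp only [A, B, C, D, if_true, if_false] at hsum <;>
    first
      | exact absurd hsum (by decide)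
      | simp [A, B, C, D, Xor]

theorem Good.trich {G : SimpleGraph V} {σ : V → Bool} {l : List V}
    (h : Good G σ l) {y : V} (hy : y ∉ l) (hna : NA G y l) : Ty3 G σ y l := by
  induction h with
  | @base a b c d hp ha hb hc hd =>
    simp only [List.mem_cons, List.not_mem_nil, or_false, not_or] at hy
    obtain ⟨y1, y2, y3, y4⟩ := hy
    rcases hna.types hp (by simp) (by simp) (by simp) (by simp) y1 y2 y3 y4 with h | h | h
    · left; intro s hs
      simp only [List.mem_cons, List.not_mem_nil, or_false] at hs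
      rcases hs with rfl | rfl | rfl | rfl <;> tauto
    · right; left; intro s hs
      simp only [List.mem_cons, List.not_mem_nil, or_false] at hs
      rcases hs with rfl | rfl | rfl | rfl <;> tauto
    · right; right; intro s hs
      simp only [List.mem_cons, List.not_mem_nil, or_false] at hs
      rcases hs with rfl | rfl | rfl | rfl <;> simp_all
  | @part l x a b c A hG hx ha hb hc hA hset hσ ih =>
    have hyl : y ∉ l := fun h => hy (List.mem_cons_of_mem _ h)
    have hyx : y ≠ x := fun h => hy (by simp [h])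
    have ih' := ih hyl (hna.mono (fun z hz => List.mem_cons_of_mem _ hz))
    obtain ⟨p, q, r, s, hp, hAs⟩ := hA
    have hset' : ∀ z, (z = p ∨ z = q ∨ z = r ∨ z = s) ↔ (z = x ∨ z = a ∨ z = b ∨ z = c) :=
      fun z => (hAs z).symm.trans (hset z)
    have hmem : ∀ z, (z = p ∨ z = q ∨ z = r ∨ z = s) → z ∈ x :: l := by
      intro z hz
      rcases (hset' z).1 hz with rfl | rfl | rfl | rfl
      · simp
      · simp [ha]
      · simp [hb]
      · simp [hc]
    have hne : ∀ z, (z = p ∨ z = q ∨ z = r ∨ z = s) → y ≠ z := fun z hz h =>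
      hy (h ▸ hmem z hz)
    have key := hna.parity hp (hmem p (by simp)) (hmem q (by simp)) (hmem r (by simp))
      (hmem s (by simp)) (hne p (by simp)) (hne q (by simp)) (hne r (by simp))
      (hne s (by simp)) hset'
    rcases ih' with h | h | h
    · left; intro t ht
      rcases List.mem_cons.1 ht with rfl | ht
      · rw [key]; simp [h a ha, h b hb, h c hc, Xor]
      · exact h t ht
    · right; left; intro t ht
      rcases List.mem_cons.1 ht with rfl | ht
      · rw [key]; simp [h a ha, h b hb, h c hc, Xor]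
      · exact h t ht
    · right; right; intro t ht
      rcases List.mem_cons.1 ht with rfl | ht
      · rw [key, h a ha, h b hb, h c hc, hσ]
        cases σ a <;> cases σ b <;> cases σ c <;> simp [Xor]
      · exact h t ht
  | @pairN l m n hG hm hn hmn hM hN hσm hσn ih =>
    have hyl : y ∉ l := fun h => hy (by simp [h])
    have hym : y ≠ m := fun h => hy (by simp [h])
    have hyn : y ≠ n := fun h => hy (by simp [h])
    have ih' := ih hyl (hna.mono (fun z hz => by simp [hz]))
    obtain ⟨a, b, c, d, ha, hb, hc, hd, hp, sa, sb, sc, sd⟩ := hG.baseIn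
    have hpath : Path4 G n m b a := by
      refine ⟨hmn.symm, (hM b hb).2 sb, hp.1.symm, hN b hb, hN a ha, ?_, ?_, ?_, ?_⟩
      · intro h; have := (hM a ha).1 h; simp [sa] at this
      · rintro rfl; exact hn hb
      · rintro rfl; exact hn ha
      · rintro rfl; exact hm ha
    have htyp := hna.types hpath (by simp) (by simp) (by simp [hb]) (by simp [ha]) hyn hym
      (fun h => hyl (h ▸ hb)) (fun h => hyl (h ▸ ha))
    have hab : σ b = true ∧ σ a = false := ⟨sb, sa⟩
    rcases ih' with h | h | h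
    · have h1 := h b hb
      left; intro t ht
      rcases List.mem_cons.1 ht with rfl | ht
      · tauto
      rcases List.mem_cons.1 ht with rfl | ht
      · tauto
      · exact h t ht
    · have h1 := h a ha
      right; left; intro t ht
      rcases List.mem_cons.1 ht with rfl | ht
      · tauto
      rcases List.mem_cons.1 ht with rfl | ht
      · tauto
      · exact h t ht
    · have h1 := (h b hb).2 sb
      have h2 : ¬ G.Adj y a := fun h' => by have := (h a ha).1 h'; simp [sa] at this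
      right; right; intro t ht
      rcases List.mem_cons.1 ht with rfl | ht
      · simp only [hσn]; constructor
        · intro h'; tauto
        · intro h'; exact absurd h' (by simp)
      rcases List.mem_cons.1 ht with rfl | ht
      · simp only [hσm]; tauto
      · exact h t ht
  | @pairT l m t hG hm ht hmt hnadj hM hT hσm hσt ih =>
    have hyl : y ∉ l := fun h => hy (by simp [h])
    have hym : y ≠ m := fun h => hy (by simp [h])
    have hyn : y ≠ t := fun h => hy (by simp [h])
    have ih' := ih hyl (hna.mono (fun z hz => by simp [hz]))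
    obtain ⟨a, b, c, d, ha, hb, hc, hd, hp, sa, sb, sc, sd⟩ := hG.baseIn
    have hpath : Path4 G a t c m := by
      refine ⟨(hT a ha).symm, hT c hc, ((hM c hc).2 sc).symm, hp.2.2.2.1, ?_, fun h => hnadj h.symm,
        hp.ne.2.2.2.1, ?_, fun h => hmt h.symm⟩
      · intro h; have := (hM a ha).1 h.symm; simp [sa] at this
      · rintro rfl; exact hm ha
    have htyp := hna.types hpath (by simp [ha]) (by simp) (by simp [hc]) (by simp)
      (fun h => hyl (h ▸ ha)) hyn (fun h => hyl (h ▸ hc)) hym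
    rcases ih' with h | h | h
    · have h1 := h c hc
      left; intro u hu
      rcases List.mem_cons.1 hu with rfl | hu
      · tauto
      rcases List.mem_cons.1 hu with rfl | hu
      · tauto
      · exact h u hu
    · have h1 := h a ha
      right; left; intro u hu
      rcases List.mem_cons.1 hu with rfl | hu
      · tauto
      rcases List.mem_cons.1 hu with rfl | hu
      · tauto
      · exact h u hu
    · have h1 := (h c hc).2 sc
      have h2 : ¬ G.Adj y a := fun h' => by have := (h a ha).1 h'; simp [sa] at this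
      right; right; intro u hu
      rcases List.mem_cons.1 hu with rfl | hu
      · simp only [hσt]; tauto
      rcases List.mem_cons.1 hu with rfl | hu
      · simp only [hσm]; constructor
        · intro h'; tauto
        · intro h'; exact absurd h' (by simp)
      · exact h u hu

/-- D0 -/
theorem Good.trichotomy {V : Type} {G : SimpleGraph V} {σ : V → Bool} {l : List V}
    (h : Good G σ l) {y : V} (hy : y ∉ l)
    (hno : ∀ A : Finset V, IsP4 G A → y ∈ A → ∃ z ∈ A, z ≠ y ∧ z ∉ l) :
    (∀ s ∈ l, ¬ G.Adj y s) ∨ (∀ s ∈ l, G.Adj y s) ∨ (∀ s ∈ l, G.Adj y s ↔ σ s = true) :=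
  h.trich hy (NA.of_hno hno)

theorem NA.compl {G : SimpleGraph V} {y : V} {l : List V} (h : NA G y l) : NA Gᶜ y l := by
  constructor
  · intro p hp q hq r hr hpath
    have h1 : Path4 G p r y q := by simpa using hpath.compl
    exact h.m q hq r hr p hp h1.rev
  · intro p hp q hq r hr hpath
    have h1 : Path4 G y r p q := by simpa using hpath.compl
    exact h.e r hr p hp q hq h1

end Pool.Agent.CW
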