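import Pool.Agent.CW.Basic

/-! Module E, part 1: the layering of a reduced prime graph. -/

set_option autoImplicit false

namespace Pool.Agent.CW

theorem bind_card {α β : Type} [Finite α] [Finite β] (A : Set α) (S : Set β) (R : α → β → Prop)
    (a p : ℕ) (hA : A.ncard ≤ a) (hp : ∀ x, {y | R x y}.ncard ≤ p)
    (hS : ∀ y ∈ S, ∃ x ∈ A, R x y) : S.ncard ≤ a * p := by
  classical
  have := Fintype.ofFinite α
  have := Fintype.ofFinite β
  have h1 : S.toFinset ⊆ A.toFinset.biUnion (fun x => {y | R x y}.toFinset) := by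
    intro y hy
    rw [Set.mem_toFinset] at hy
    obtain ⟨x, hx, hxy⟩ := hS y hy
    rw [Finset.mem_biUnion]
    exact ⟨x, Set.mem_toFinset.2 hx, Set.mem_toFinset.2 hxy⟩
  have h2 : (A.toFinset.biUnion (fun x => {y | R x y}.toFinset)).card ≤ A.toFinset.card * p := by
    refine Finset.card_biUnion_le_card_mul _ _ _ ?_
    intro x _
    rw [← Set.ncard_eq_toFinset_card']
    exact hp x
  have h3 := Finset.card_le_card h1
  rw [Set.ncard_eq_toFinset_card'] at hA ⊢
  calc S.toFinset.card ≤ _ := h3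
    _ ≤ _ := h2
    _ ≤ a * p := Nat.mul_le_mul_right _ hA

section

variable {W : Type} {H : SimpleGraph W}

theorem Dist4.prev {n : ℕ} {A B : Finset W} (h : Dist4 H (n + 1) A B) :
    ∃ C, Dist4 H n A C ∧ Adj4 H C B := by
  obtain ⟨hw, hmin⟩ := h
  cases hw with
  | succ hw hadj =>
    exact ⟨_, ⟨hw, fun m hm hw' => hmin (m + 1) (by omega) (Walk4.succ hw' hadj)⟩, hadj⟩

theorem Dist4.zero_eq {A B : Finset W} (h : Dist4 H 0 A B) : A = B := by
  obtain ⟨hw, _⟩ := h
  cases hw with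
  | zero _ => rfl

theorem Walk4.head {n : ℕ} {A B : Finset W} (h : Walk4 H (n + 1) A B) :
    ∃ C, Adj4 H A C ∧ Walk4 H n C B := by
  induction n generalizing B with
  | zero =>
    cases h with
    | succ hw hadj =>
      cases hw with
      | zero _ => exact ⟨B, hadj, Walk4.zero hadj.2.1⟩
  | succ n ih =>
    cases h with
    | succ hw hadj =>
      obtain ⟨C, hC, hC'⟩ := ih hw
      exact ⟨C, hC, Walk4.succ hC' hadj⟩

/-- Induced paths at distance `i` which lie on a geodesic to distance `i + j`. -/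
def Anc (H : SimpleGraph W) (B0 : Finset W) (i j : ℕ) : Set (Finset W) :=
  {B | Dist4 H i B0 B ∧ ∃ C, Dist4 H (i + j) B0 C ∧ Walk4 H j B C}

/-- The uniqueness statement of module C. -/
def GeoUnique (H : SimpleGraph W) : Prop :=
  ∀ {B0 B1 B2 B3 B4 B2' B3' B4' : Finset W},
    Adj4 H B0 B1 → Adj4 H B1 B2 → Adj4 H B2 B3 → Adj4 H B3 B4 →
    Adj4 H B1 B2' → Adj4 H B2' B3' → Adj4 H B3' B4' →
    Dist4 H 4 B0 B4 → Dist4 H 4 B0 B4' → B2 = B2'

theorem anc_card [Finite W] (hu : GeoUnique H) {p : ℕ}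
    (hp : ∀ B : Finset W, {C : Finset W | Adj4 H B C}.ncard ≤ p) (B0 : Finset W) (i : ℕ) :
    ∀ j, 2 ≤ j → (Anc H B0 (i + 1) j).ncard ≤ p := by
  classical
  induction i with
  | zero =>
    intro j _
    refine le_trans (Set.ncard_le_ncard ?_ (Set.toFinite _)) (hp B0)
    rintro B ⟨hB, -⟩
    obtain ⟨C, hC, hCB⟩ := hB.prev
    rw [← hC.zero_eq] at hCB
    exact hCB
  | succ i ih =>
    intro j hj
    have hex : ∀ B ∈ Anc H B0 (i + 1 + 1) j, ∃ P ∈ Anc H B0 (i + 1) (j + 1), Adj4 H P B := by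
      rintro B ⟨hB, C, hC, hBC⟩
      obtain ⟨P, hP, hPB⟩ := hB.prev
      refine ⟨P, ⟨hP, C, ?_, ?_⟩, hPB⟩
      · have : i + 1 + (j + 1) = i + 1 + 1 + j := by omega
        rw [this]; exact hC
      · have := hPB.walk.trans hBC
        rwa [Nat.add_comm] at this
    choose! f hf hf' using hex
    refine le_trans ?_ (ih (j + 1) (by omega))
    refine Set.ncard_le_ncard_of_injOn f (fun B hB => hf B hB) ?_ (Set.toFinite _)
    intro B hB B' hB' hBB'
    obtain ⟨hP, -⟩ := hf B hB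
    obtain ⟨Q, hQ, hQP⟩ := hP.prev
    have hPB := hf' B hB
    have hPB' := hf' B' hB'
    rw [← hBB'] at hPB'
    -- continuation of an ancestor
    have cont : ∀ B ∈ Anc H B0 (i + 1 + 1) j, Adj4 H (f B) B → Adj4 H Q (f B) →
        ∃ B3 B4, Adj4 H B B3 ∧ Adj4 H B3 B4 ∧ Dist4 H 4 Q B4 := by
      rintro B ⟨hB, C, hC, hBC⟩ hfB hQf
      obtain ⟨j', rfl⟩ : ∃ j', j = j' + 1 + 1 := ⟨j - 2, by omega⟩
      obtain ⟨B3, h3, hw3⟩ := hBC.head
      obtain ⟨B4, h4, hw4⟩ := hw3.head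
      refine ⟨B3, B4, h3, h4, ?_, ?_⟩
      · exact Walk4.succ (Walk4.succ (Walk4.succ (Walk4.succ (Walk4.zero hQf.1) hQf) hfB) h3) h4
      · intro m hm hw
        have h5 := (hQ.1.trans hw).trans hw4
        exact hC.2 _ (by omega) h5
    obtain ⟨B3, B4, h3, h4, hd⟩ := cont B hB hPB hQP
    obtain ⟨B3', B4', h3', h4', hd'⟩ := cont B' hB' (hBB' ▸ hPB') (hBB' ▸ hQP)
    exact hu hQP hPB h3 h4 hPB' h3' h4' hd hd'

theorem layer_card [Finite W] (hu : GeoUnique H) {p : ℕ}
    (hp : ∀ B : Finset W, {C : Finset W | Adj4 H B C}.ncard ≤ p) (B0 : Finset W) (t : ℕ) :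
    {B | Dist4 H t B0 B}.ncard ≤ (p + 1) ^ 3 := by
  classical
  have h0 : {B | Dist4 H 0 B0 B}.ncard ≤ 1 := by
    refine le_trans (Set.ncard_le_ncard (t := {B0}) ?_ (Set.toFinite _)) (by simp)
    intro B hB
    exact hB.zero_eq.symm
  have hstep : ∀ n a, {B | Dist4 H n B0 B}.ncard ≤ a →
      {B | Dist4 H (n + 1) B0 B}.ncard ≤ a * p := by
    intro n a ha
    refine bind_card _ _ (fun B C => Adj4 H B C) a p ha hp ?_
    intro C hC
    obtain ⟨B, hB, hBC⟩ := Dist4.prev hC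
    exact ⟨B, hB, hBC⟩
  have h1 := hstep 0 _ h0
  have h2 := hstep 1 _ h1
  rcases Nat.lt_or_ge t 3 with ht | ht
  · interval_cases t
    · exact le_trans h0 (Nat.one_le_pow _ _ (by omega))
    · refine le_trans h1 ?_
      rw [one_mul]
      calc p ≤ (p + 1) ^ 1 := by rw [pow_one]; omega
        _ ≤ (p + 1) ^ 3 := Nat.pow_le_pow_right (by omega) (by omega)
    · refine le_trans h2 ?_
      calc 1 * p * p ≤ (p + 1) * (p + 1) := by nlinarith
        _ = (p + 1) ^ 2 := by ring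
        _ ≤ (p + 1) ^ 3 := Nat.pow_le_pow_right (by omega) (by omega)
  · obtain ⟨i, rfl⟩ : ∃ i, t = i + 1 + 2 := ⟨t - 3, by omega⟩
    have hA := anc_card hu hp B0 i 2 (le_refl _)
    -- two steps
    have hB : {D | ∃ B ∈ Anc H B0 (i + 1) 2, Adj4 H B D}.ncard ≤ p * p := by
      refine bind_card (Anc H B0 (i + 1) 2) _ (fun B C => Adj4 H B C) p p hA hp ?_
      rintro D ⟨B, hB, hBD⟩
      exact ⟨B, hB, hBD⟩
    have hC : {B | Dist4 H (i + 1 + 2) B0 B}.ncard ≤ p * p * p := by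
      refine bind_card {D | ∃ B ∈ Anc H B0 (i + 1) 2, Adj4 H B D} _
        (fun B C => Adj4 H B C) (p * p) p hB hp ?_
      intro C hC
      obtain ⟨D, hD, hDC⟩ := Dist4.prev (n := i + 1 + 1) hC
      obtain ⟨B, hB, hBD⟩ := Dist4.prev (n := i + 1) hD
      exact ⟨D, ⟨B, ⟨hB, C, hC, Walk4.succ hBD.walk hDC⟩, hBD⟩, hDC⟩
    refine le_trans hC ?_
    calc p * p * p = p ^ 3 := by ring
      _ ≤ (p + 1) ^ 3 := Nat.pow_le_pow_left (by omega) 3

/-- The layer of a vertex. -/
noncomputable def lamOf (H : SimpleGraph W) (B0 : Finset W) (w : W) : ℕ :=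
  sInf {n | ∃ B, Walk4 H n B0 B ∧ w ∈ B}

theorem lamOf_le {B0 B : Finset W} {n : ℕ} {w : W} (h : Walk4 H n B0 B) (hw : w ∈ B) :
    lamOf H B0 w ≤ n := Nat.sInf_le ⟨B, h, hw⟩

theorem lamOf_spec {B0 : Finset W} {w : W} (h : ∃ n B, Walk4 H n B0 B ∧ w ∈ B) :
    ∃ B, Dist4 H (lamOf H B0 w) B0 B ∧ w ∈ B := by
  have h1 : {n | ∃ B, Walk4 H n B0 B ∧ w ∈ B}.Nonempty := h
  obtain ⟨B, hB, hwB⟩ := Nat.sInf_mem h1
  refine ⟨B, ⟨hB, ?_⟩, hwB⟩
  intro m hm hm'
  have h2 := lamOf_le hm' hwB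
  unfold lamOf at h2 hm
  omega

theorem lamOf_eq_zero {B0 : Finset W} {w : W} (h : ¬ ∃ n B, Walk4 H n B0 B ∧ w ∈ B) :
    lamOf H B0 w = 0 := by
  unfold lamOf
  have : {n | ∃ B, Walk4 H n B0 B ∧ w ∈ B} = ∅ := by
    ext n
    simp only [Set.mem_ofPred_eq, Set.mem_empty_iff_false, iff_false]
    intro hn
    exact h ⟨n, hn⟩
  rw [this]
  exact Nat.sInf_empty

/-- Types propagate along walks. -/
theorem type_const {B0 : Finset W} {w : W} {t : ℕ} (hB0 : IsP4 H B0)
    (hw : ∀ n B, n ≤ t + 1 → Walk4 H n B0 B → w ∉ B) :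
    (∀ n B, n ≤ t → Walk4 H n B0 B → ∀ s ∈ B, ¬ H.Adj w s) ∨
    (∀ n B, n ≤ t → Walk4 H n B0 B → ∀ s ∈ B, H.Adj w s) ∨
    (∀ n B, n ≤ t → Walk4 H n B0 B → ∀ s ∈ B, (H.Adj w s ↔ Mid H B s)) := by
  classical
  have htype : ∀ n B, n ≤ t → Walk4 H n B0 B →
      (∀ s ∈ B, ¬ H.Adj w s) ∨ (∀ s ∈ B, H.Adj w s) ∨ (∀ s ∈ B, H.Adj w s ↔ Mid H B s) := by
    intro n B hn hB
    refine type_of_no_partner hB.right (hw n B (by omega) hB) ?_
    intro C hC
    exact hw (n + 1) C (by omega) (Walk4.succ hB hC)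
  -- three common vertices
  have hthree : ∀ B C, Adj4 H B C → ∃ p q r, p ∈ B ∧ q ∈ B ∧ r ∈ B ∧ p ∈ C ∧ q ∈ C ∧ r ∈ C ∧
      p ≠ q ∧ p ≠ r ∧ q ≠ r := by
    rintro B C ⟨hB, hC, x, y, hx, hy, hz⟩
    have hc : (B.erase x).card = 3 := by rw [Finset.card_erase_of_mem hx, hB.card]
    obtain ⟨p, q, r, hpq, hpr, hqr, he⟩ := Finset.card_eq_three.1 hc
    have hp : p ∈ B.erase x := by rw [he]; simp
    have hq : q ∈ B.erase x := by rw [he]; simp
    have hr : r ∈ B.erase x := by rw [he]; simp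
    rw [Finset.mem_erase] at hp hq hr
    exact ⟨p, q, r, hp.2, hq.2, hr.2, (hz p).2 (Or.inr ⟨hp.2, hp.1⟩),
      (hz q).2 (Or.inr ⟨hq.2, hq.1⟩), (hz r).2 (Or.inr ⟨hr.2, hr.1⟩), hpq, hpr, hqr⟩
  rcases htype 0 B0 (by omega) (Walk4.zero hB0) with h0 | h0 | h0
  · left
    intro n B hn hB
    induction hB with
    | zero _ => exact h0
    | @succ n A B C hB hBC ih =>
      have hB' := ih hB0 hw htype h0 (by omega)
      obtain ⟨p, q, r, hp, hq, hr, hp', hq', hr', hpq, hpr, hqr⟩ := hthree _ _ hBC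
      rcases htype (n + 1) C hn (Walk4.succ hB hBC) with h | h | h
      · exact h
      · exact absurd (h p hp') (hB' p hp)
      · exfalso
        rcases (exists_mid hBC.2.1 hp' hq' hr' hpq hpr hqr).1 with m | m | m
        · exact hB' p hp ((h p hp').2 m)
        · exact hB' q hq ((h q hq').2 m)
        · exact hB' r hr ((h r hr').2 m)
  · right; left
    intro n B hn hB
    induction hB with
    | zero _ => exact h0
    | @succ n A B C hB hBC ih =>
      have hB' := ih hB0 hw htype h0 (by omega)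
      obtain ⟨p, q, r, hp, hq, hr, hp', hq', hr', hpq, hpr, hqr⟩ := hthree _ _ hBC
      rcases htype (n + 1) C hn (Walk4.succ hB hBC) with h | h | h
      · exact absurd (hB' p hp) (h p hp')
      · exact h
      · exfalso
        rcases (exists_mid hBC.2.1 hp' hq' hr' hpq hpr hqr).2 with m | m | m
        · exact m ((h p hp').1 (hB' p hp))
        · exact m ((h q hq').1 (hB' q hq))
        · exact m ((h r hr').1 (hB' r hr))
  · right; right
    intro n B hn hB
    induction hB with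
    | zero _ => exact h0
    | @succ n A B C hB hBC ih =>
      have hB' := ih hB0 hw htype h0 (by omega)
      obtain ⟨p, q, r, hp, hq, hr, hp', hq', hr', hpq, hpr, hqr⟩ := hthree _ _ hBC
      rcases htype (n + 1) C hn (Walk4.succ hB hBC) with h | h | h
      · exfalso
        rcases (exists_mid hBC.1 hp hq hr hpq hpr hqr).1 with m | m | m
        · exact h p hp' ((hB' p hp).2 m)
        · exact h q hq' ((hB' q hq).2 m)
        · exact h r hr' ((hB' r hr).2 m)
      · exfalso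
        rcases (exists_mid hBC.1 hp hq hr hpq hpr hqr).2 with m | m | m
        · exact m ((hB' p hp).1 (h p hp'))
        · exact m ((hB' q hq).1 (h q hq'))
        · exact m ((hB' r hr).1 (h r hr'))
      · exact h

/-- The layering of a reduced prime graph. -/
structure LayerStruct (H : SimpleGraph W) (C0 : ℕ) (lam : W → ℕ) : Prop where
  small : ∀ t, {w | lam w = t}.ncard ≤ C0
  rows : ∀ t, ∃ f : W → Fin 3, ∀ u v, lam u ≤ t → lam v ≤ t → f u = f v →
    ∀ w, t + 2 ≤ lam w → (H.Adj u w ↔ H.Adj v w)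
  close : ∀ r s : W, r ≠ s → (∀ C : Finset W, IsP4 H C → r ∈ C → s ∉ C →
    ∃ C' : Finset W, Adj4 H C C' ∧ s ∈ C') → (∀ C : Finset W, IsP4 H C → s ∈ C → r ∉ C →
    ∃ C' : Finset W, Adj4 H C C' ∧ r ∈ C') → lam r ≤ lam s + 1

theorem layer_struct [Finite W] (hu : GeoUnique H) {p : ℕ}
    (hp : ∀ B : Finset W, {C : Finset W | Adj4 H B C}.ncard ≤ p) (B0 : Finset W)
    (hB0 : IsP4 H B0) (m0 : W) (hcov : ∀ v, v ≠ m0 → ∃ n B, Walk4 H n B0 B ∧ v ∈ B) :
    LayerStruct H (1 + (p + 1) ^ 3 * 4) (lamOf H B0) := by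
  classical
  refine ⟨?_, ?_, ?_⟩
  · intro t
    have h1 : {w | ∃ B ∈ {B | Dist4 H t B0 B}, w ∈ B}.ncard ≤ (p + 1) ^ 3 * 4 := by
      refine bind_card {B | IsP4 H B ∧ Dist4 H t B0 B} _ (fun B w => IsP4 H B ∧ w ∈ B) _ 4
        (le_trans (Set.ncard_le_ncard (fun B hB => hB.2) (Set.toFinite _))
          (layer_card hu hp B0 t)) ?_ ?_
      · intro B
        by_cases hB : IsP4 H B
        · have : {y | IsP4 H B ∧ y ∈ B} = (B : Set W) := by
            ext y; simp [hB]
          rw [this, Set.ncard_coe_finset, hB.card]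
        · have : {y | IsP4 H B ∧ y ∈ B} = ∅ := by
            ext y; simp [hB]
          rw [this]; simp
      · rintro w ⟨B, hB, hwB⟩
        have hBP : IsP4 H B := hB.1.right
        exact ⟨B, ⟨hBP, hB⟩, hBP, hwB⟩
    have h2 : {w | lamOf H B0 w = t} ⊆ {m0} ∪ {w | ∃ B ∈ {B | Dist4 H t B0 B}, w ∈ B} := by
      intro w hw
      by_cases hwm : w = m0
      · left; exact hwm
      · right
        obtain ⟨B, hB, hwB⟩ := lamOf_spec (hcov w hwm)
        rw [hw] at hB
        exact ⟨B, hB, hwB⟩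
    refine le_trans (Set.ncard_le_ncard h2 (Set.toFinite _)) ?_
    refine le_trans (Set.ncard_union_le _ _) ?_
    rw [Set.ncard_singleton]
    omega
  · intro t
    set cov : W → Prop := fun u => ∃ n B, n ≤ t ∧ Walk4 H n B0 B ∧ u ∈ B with hcovdef
    refine ⟨fun u => if cov u then (if ∃ n B, n ≤ t ∧ Walk4 H n B0 B ∧ u ∈ B ∧ Mid H B u then 1
      else 0) else 2, ?_⟩
    intro u v hu' hv' huv w hw
    have hcu : ∀ u, lamOf H B0 u ≤ t → cov u ∨ u = m0 := by
      intro u hu'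
      by_cases hum : u = m0
      · exact Or.inr hum
      · left
        obtain ⟨B, hB, hwB⟩ := lamOf_spec (hcov u hum)
        exact ⟨_, B, hu', hB.1, hwB⟩
    have hfar : ∀ n B, n ≤ t + 1 → Walk4 H n B0 B → w ∉ B := by
      intro n B hn hB hwB
      have := lamOf_le hB hwB
      omega
    have hT := type_const hB0 hfar
    by_cases cu : cov u <;> by_cases cv : cov v
    · simp only [cu, cv, if_true] at huv
      rw [H.adj_comm u w, H.adj_comm v w]
      obtain ⟨n, B, hn, hB, huB⟩ := cu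
      obtain ⟨n', B', hn', hB', hvB'⟩ := cv
      rcases hT with hT | hT | hT
      · exact iff_of_false (hT n B hn hB u huB) (hT n' B' hn' hB' v hvB')
      · exact iff_of_true (hT n B hn hB u huB) (hT n' B' hn' hB' v hvB')
      · have hmid : ∀ u, cov u → (H.Adj w u ↔ ∃ n B, n ≤ t ∧ Walk4 H n B0 B ∧ u ∈ B ∧
            Mid H B u) := by
          rintro u ⟨n, B, hn, hB, huB⟩
          constructor
          · intro h
            exact ⟨n, B, hn, hB, huB, (hT n B hn hB u huB).1 h⟩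
          · rintro ⟨n', B', hn', hB', huB', hm⟩
            exact (hT n' B' hn' hB' u huB').2 hm
        rw [hmid u ⟨n, B, hn, hB, huB⟩, hmid v ⟨n', B', hn', hB', hvB'⟩]
        by_cases c1 : ∃ n B, n ≤ t ∧ Walk4 H n B0 B ∧ u ∈ B ∧ Mid H B u <;>
          by_cases c2 : ∃ n B, n ≤ t ∧ Walk4 H n B0 B ∧ v ∈ B ∧ Mid H B v
        · exact iff_of_true c1 c2
        · rw [if_pos c1, if_neg c2] at huv
          exact absurd huv (by decide)
        · rw [if_neg c1, if_pos c2] at huv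
          exact absurd huv (by decide)
        · exact iff_of_false c1 c2
    · exfalso
      simp only [cu, cv, if_true, if_false] at huv
      split_ifs at huv <;> simp at huv
    · exfalso
      simp only [cu, cv, if_true, if_false] at huv
      split_ifs at huv <;> simp at huv
    · have e1 : u = m0 := by
        rcases hcu u hu' with h | h
        · exact absurd h cu
        · exact h
      have e2 : v = m0 := by
        rcases hcu v hv' with h | h
        · exact absurd h cv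
        · exact h
      rw [e1, e2]
  · intro r s hrs h1 h2
    by_cases hs : ∃ n B, Walk4 H n B0 B ∧ s ∈ B
    · obtain ⟨B, hB, hsB⟩ := lamOf_spec hs
      by_cases hr : r ∈ B
      · exact le_trans (lamOf_le hB.1 hr) (by omega)
      · obtain ⟨C', hC', hrC'⟩ := h2 B hB.1.right hsB hr
        exact lamOf_le (Walk4.succ hB.1 hC') hrC'
    · by_cases hr : ∃ n B, Walk4 H n B0 B ∧ r ∈ B
      · exfalso
        obtain ⟨n, B, hB, hrB⟩ := hr
        have hsB : s ∉ B := fun h => hs ⟨n, B, hB, h⟩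
        obtain ⟨C', hC', hsC'⟩ := h1 B hB.right hrB hsB
        exact hs ⟨n + 1, C', Walk4.succ hB hC', hsC'⟩
      · rw [lamOf_eq_zero hr]
        omega

end

end Pool.Agent.CW
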